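import Pool.Agent.Lib.MP_211349_ag.Defs

section

/-!
# PART R: a flat model isomorphic to a smooth one modulo an ideal is smooth
-/

open CategoryTheory Limits AlgebraicGeometry Polynomial

universe u

noncomputable section

namespace Pool.Agent.Lib.MP_211349_ag

variable {K : Type u} [Field K] {O : ValuationSubring K}

-- BEGIN MR1
/-- (MR1) A valuation ring of rank one has two prime ideals. -/
theorem RankOne.prime (hO : RankOne O) (p : Ideal O) [p.IsPrime] :
    p = ⊥ ∨ p = IsLocalRing.maximalIdeal O := by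
  rcases eq_or_ne p ⊥ with h | h
  · exact Or.inl h
  · refine Or.inr (le_antisymm (IsLocalRing.le_maximalIdeal (Ideal.IsPrime.ne_top ‹_›)) ?_)
    obtain ⟨b, hb, hb0⟩ := Submodule.exists_mem_ne_zero_of_ne_bot h
    intro a ha
    obtain ⟨n, hn⟩ := hO.2 a b ((IsLocalRing.mem_maximalIdeal a).1 ha) hb0
    exact Ideal.IsPrime.mem_of_pow_mem ‹_› n (Ideal.mem_of_dvd p hn hb)
-- END MR1

-- BEGIN MR2
/-- The ring homomorphism to the residue field and its kernel. -/
private theorem MR2_exists (y : Spec (.of O)) :
    ∃ ρ : O →+* (Spec (.of O)).residueField y, RingHom.ker ρ = y.asIdeal ∧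
      (Spec (.of O)).fromSpecResidueField y = Spec.map (CommRingCat.ofHom ρ) := by
  refine ⟨(Spec.preimage ((Spec (.of O)).fromSpecResidueField y)).hom, ?_, ?_⟩
  · set r := Spec.preimage ((Spec (.of O)).fromSpecResidueField y) with hr
    have e : Spec.map r = (Spec (.of O)).fromSpecResidueField y := Spec.map_preimage _
    let s : Spec ((Spec (.of O)).residueField y) := (⊥ : PrimeSpectrum _)
    have h1 : (Spec (.of O)).fromSpecResidueField y s = y :=
      Scheme.fromSpecResidueField_apply _ _
    rw [← e] at h1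
    have h2 : (Spec.map r s).asIdeal = Ideal.comap r.hom s.asIdeal := rfl
    rw [h1] at h2
    have h3 : s.asIdeal = ⊥ := rfl
    rw [h3] at h2
    rw [h2]
    rfl
  · rw [CommRingCat.ofHom_hom, Spec.map_preimage]

/-- Injective homomorphisms from `O` to a field factor through `K`. -/
private theorem MR2_factor {κ : Type u} [Field κ] (ρ : O →+* κ) (hinj : Function.Injective ρ) :
    ∃ a : Spec (.of κ) ⟶ Spec (.of K), Spec.map (CommRingCat.ofHom ρ) = a ≫ genPt O := by
  refine ⟨Spec.map (CommRingCat.ofHom (IsFractionRing.lift (K := K) hinj)), ?_⟩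
  rw [genPt, ← Spec.map_comp, ← CommRingCat.ofHom_comp]
  congr 2
  ext x
  rw [RingHom.comp_apply, IsFractionRing.lift_algebraMap]

/-- (MR2) The residue field at the generic point of `Spec O` contains `K`: `O → κ(y)` is injective, lift
it to `K` (`IsFractionRing.lift`). -/
theorem fromSpecResidueField_bot (y : Spec (.of O)) (hy : y.asIdeal = ⊥) :
    ∃ a : Spec ((Spec (.of O)).residueField y) ⟶ Spec (.of K),
      (Spec (.of O)).fromSpecResidueField y = a ≫ genPt O := by
  obtain ⟨ρ, hρ, e⟩ := MR2_exists y
  rw [hy] at hρ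
  have hinj : Function.Injective ρ := (RingHom.injective_iff_ker_eq_bot ρ).2 hρ
  rw [e]
  exact MR2_factor (κ := (Spec (.of O)).residueField y) ρ hinj
-- END MR2

-- BEGIN MR3
/-- The ring homomorphism to the residue field and its kernel. -/
private theorem MR3_exists (y : Spec (.of O)) :
    ∃ ρ : O →+* (Spec (.of O)).residueField y, RingHom.ker ρ = y.asIdeal ∧
      (Spec (.of O)).fromSpecResidueField y = Spec.map (CommRingCat.ofHom ρ) := by
  refine ⟨(Spec.preimage ((Spec (.of O)).fromSpecResidueField y)).hom, ?_, ?_⟩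
  · set r := Spec.preimage ((Spec (.of O)).fromSpecResidueField y) with hr
    have e : Spec.map r = (Spec (.of O)).fromSpecResidueField y := Spec.map_preimage _
    let s : Spec ((Spec (.of O)).residueField y) := (⊥ : PrimeSpectrum _)
    have h1 : (Spec (.of O)).fromSpecResidueField y s = y :=
      Scheme.fromSpecResidueField_apply _ _
    rw [← e] at h1
    have h2 : (Spec.map r s).asIdeal = Ideal.comap r.hom s.asIdeal := rfl
    rw [h1] at h2
    have h3 : s.asIdeal = ⊥ := rfl
    rw [h3] at h2
    rw [h2]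
    rfl
  · rw [CommRingCat.ofHom_hom, Spec.map_preimage]

/-- Homomorphisms from `O` which vanish on the maximal ideal factor through the residue field. -/
private theorem MR3_factor {κ : Type u} [CommRing κ] (ρ : O →+* κ)
    (hz : ∀ x ∈ IsLocalRing.maximalIdeal O, ρ x = 0) :
    ∃ a : Spec (.of κ) ⟶ Spec (.of (IsLocalRing.ResidueField O)),
      Spec.map (CommRingCat.ofHom ρ) = a ≫ resPt O := by
  refine ⟨Spec.map (CommRingCat.ofHom (Ideal.Quotient.lift _ ρ hz :
    IsLocalRing.ResidueField O →+* κ)), ?_⟩
  rw [resPt, ← Spec.map_comp]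
  rfl

/-- (MR3) The residue field at the closed point of `Spec O` contains `k`: `O → κ(y)` vanishes on the
maximal ideal. -/
theorem fromSpecResidueField_max (y : Spec (.of O)) (hy : y.asIdeal = IsLocalRing.maximalIdeal O) :
    ∃ a : Spec ((Spec (.of O)).residueField y) ⟶ Spec (.of (IsLocalRing.ResidueField O)),
      (Spec (.of O)).fromSpecResidueField y = a ≫ resPt O := by
  obtain ⟨ρ, hρ, e⟩ := MR3_exists y
  rw [hy] at hρ
  have hz : ∀ x ∈ IsLocalRing.maximalIdeal O, ρ x = 0 := by
    intro x hx
    rw [← hρ] at hx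
    exact hx
  rw [e]
  exact MR3_factor (κ := (Spec (.of O)).residueField y) ρ hz
-- END MR3

-- BEGIN MR4
/-- (MR4) Base change in stages. -/
theorem smooth_pullback_comp {Y S T U : Scheme.{u}} (g : Y ⟶ S) (b : T ⟶ S) (a : U ⟶ T)
    (h : Smooth (pullback.snd g b)) : Smooth (pullback.snd g (a ≫ b)) := by
  rw [← pullbackLeftPullbackSndIso_inv_snd_snd g b a]
  infer_instance
-- END MR4

-- BEGIN MR5
/-- Base change in stages, isomorphisms. -/
private theorem MR5_iso {X Y S T U : Scheme.{u}} (f : X ⟶ S) (g : Y ⟶ S) (b : T ⟶ S) (a : U ⟶ T)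
    (h : ∃ e : pullback f b ≅ pullback g b, e.hom ≫ pullback.snd g b = pullback.snd f b) :
    ∃ e : pullback f (a ≫ b) ≅ pullback g (a ≫ b),
      e.hom ≫ pullback.snd g (a ≫ b) = pullback.snd f (a ≫ b) := by
  obtain ⟨e, he⟩ := h
  let m : pullback (pullback.snd f b) a ⟶ pullback (pullback.snd g b) a :=
    pullback.map _ _ _ _ e.hom (𝟙 _) (𝟙 _) (by rw [he, Category.comp_id]) (by simp)
  have : IsIso m := pullback.map_isIso _ _ _ _ _ _ _ _ _
  refine ⟨(pullbackLeftPullbackSndIso f b a).symm ≪≫ asIso m ≪≫
    pullbackLeftPullbackSndIso g b a, ?_⟩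
  have hm : m ≫ pullback.snd _ _ = pullback.snd _ _ ≫ 𝟙 _ := pullback.lift_snd _ _ _
  rw [Category.comp_id] at hm
  simp [hm]

/-- (MR5) Isomorphic modulo `I` implies isomorphic special fibres: the residue map `O → k` factors through
`O / I` (`I ≤ m`), pasting of pullbacks. -/
theorem IsoMod.specialFibre {X Y : Scheme.{u}} {f : X ⟶ Spec (.of O)} {g : Y ⟶ Spec (.of O)}
    {I : Ideal O} (hI : I ≠ ⊤) (h : IsoMod O I f g) :
    ∃ e : specialFibre O f ≅ specialFibre O g,
      e.hom ≫ pullback.snd g (resPt O) = pullback.snd f (resPt O) := by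
  have hle : I ≤ IsLocalRing.maximalIdeal O := IsLocalRing.le_maximalIdeal hI
  have hfac : resPt O = Spec.map (CommRingCat.ofHom (Ideal.Quotient.factor hle :
      O ⧸ I →+* IsLocalRing.ResidueField O)) ≫ modPt O I := by
    rw [resPt, modPt, ← Spec.map_comp, ← CommRingCat.ofHom_comp]
    rfl
  have key := MR5_iso f g (modPt O I) (Spec.map (CommRingCat.ofHom (Ideal.Quotient.factor hle :
      O ⧸ I →+* IsLocalRing.ResidueField O))) h
  rw [← hfac] at key
  exact key
-- END MR5

/-- PART R. -/
theorem smooth_of_isoMod' {K : Type u} [Field K] (O : ValuationSubring K) (hO : RankOne O)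
    {X Y C : Scheme.{u}} (f : X ⟶ Spec (.of O)) [Smooth f] (hk : IsIntegral (specialFibre O f))
    (g : Y ⟶ Spec (.of O)) [Flat g] [LocallyOfFinitePresentation g]
    (gK : C ⟶ Spec (.of K)) [Smooth gK] (hg : HasGenericFibre O g gK)
    (I : Ideal O) (hI : I ≠ ⊤) (h : IsoMod O I f g) :
    Smooth g ∧ IsIntegral (specialFibre O g) := by
  obtain ⟨e, he⟩ := h.specialFibre hI
  refine ⟨?_, ?_⟩
  · apply Smooth.of_smooth_fiberToSpecResidueField
    intro y
    change Smooth (pullback.snd g ((Spec (.of O)).fromSpecResidueField y))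
    have : y.asIdeal.IsPrime := y.isPrime
    rcases RankOne.prime hO y.asIdeal with hy | hy
    · obtain ⟨a, ha⟩ := fromSpecResidueField_bot y hy
      rw [ha]
      apply smooth_pullback_comp
      obtain ⟨i, hi⟩ := hg
      have e' : pullback.snd g (genPt O) = hi.isoPullback.inv ≫ gK := by
        rw [Iso.eq_inv_comp, IsPullback.isoPullback_hom_snd]
      rw [e']
      infer_instance
    · obtain ⟨a, ha⟩ := fromSpecResidueField_max y hy
      rw [ha]
      apply smooth_pullback_comp
      have e' : pullback.snd g (resPt O) = e.inv ≫ pullback.snd f (resPt O) := by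
        rw [Iso.eq_inv_comp, he]
      rw [e']
      infer_instance
  · have : IsIntegral (specialFibre O f) := hk
    have : Nonempty (specialFibre O g) := ⟨e.hom (genericPoint (specialFibre O f))⟩
    exact isIntegral_of_isOpenImmersion e.inv

end Pool.Agent.Lib.MP_211349_ag
end
end

section

/-!
# Isomorphisms of disjoint unions modulo an ideal
-/

open CategoryTheory Limits AlgebraicGeometry

universe u

noncomputable section

namespace Pool.Agent.Lib.MP_211349_ag

section sigma

variable {ι : Type u} {S T : Scheme.{u}} (t : T ⟶ S) {X : ι → Scheme.{u}} (f : ∀ i, X i ⟶ S)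

/-- The inclusion of the base change of a component into the base change of a disjoint union. -/
def compIncl (i : ι) : pullback (f i) t ⟶ pullback (Sigma.desc f) t :=
  pullback.map (f i) t (Sigma.desc f) t (Sigma.ι X i) (𝟙 _) (𝟙 _) (by simp) (by simp)

theorem compIncl_snd (i : ι) :
    compIncl t f i ≫ pullback.snd (Sigma.desc f) t = pullback.snd (f i) t :=
  (pullback.lift_snd _ _ _).trans (Category.comp_id _)

theorem compIncl_fst (i : ι) :
    compIncl t f i ≫ pullback.fst (Sigma.desc f) t = pullback.fst (f i) t ≫ Sigma.ι X i :=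
  pullback.lift_fst _ _ _

theorem isPullback_compIncl (i : ι) :
    IsPullback (compIncl t f i) (pullback.fst _ _) (pullback.fst _ _) (Sigma.ι X i) := by
  have h1 : IsPullback (pullback.snd (Sigma.desc f) t) (pullback.fst (Sigma.desc f) t) t
      (Sigma.desc f) := (IsPullback.of_hasPullback _ _).flip
  have h2 : IsPullback (compIncl t f i ≫ pullback.snd (Sigma.desc f) t) (pullback.fst (f i) t) t
      (Sigma.ι X i ≫ Sigma.desc f) := by
    rw [compIncl_snd, Sigma.ι_desc]
    exact (IsPullback.of_hasPullback _ _).flip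
  exact IsPullback.of_right h2 (compIncl_fst t f i) h1

instance (i : ι) : IsOpenImmersion (compIncl t f i) :=
  MorphismProperty.of_isPullback (isPullback_compIncl t f i).flip
    (inferInstanceAs (IsOpenImmersion (Sigma.ι X i)))

theorem exists_compIncl (z : ↥(pullback (Sigma.desc f) t)) : ∃ i y, compIncl t f i y = z := by
  obtain ⟨⟨i, x⟩, hx⟩ := (sigmaMk X).surjective (pullback.fst (Sigma.desc f) t z)
  rw [sigmaMk_mk] at hx
  obtain ⟨y, hy, _⟩ := Scheme.exists_preimage_of_isPullback (isPullback_compIncl t f i) z x hx.symm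
  exact ⟨i, y, hy⟩

theorem compIncl_eq {i j : ι} {y : ↥(pullback (f i) t)} {y' : ↥(pullback (f j) t)}
    (h : compIncl t f i y = compIncl t f j y') : i = j := by
  have h2 := congrArg (pullback.fst (Sigma.desc f) t) h
  rw [← Scheme.Hom.comp_apply, compIncl_fst, ← Scheme.Hom.comp_apply, compIncl_fst,
    Scheme.Hom.comp_apply, Scheme.Hom.comp_apply] at h2
  exact congrArg Sigma.fst ((sigmaι_eq_iff _ _ _ _ _).mp h2)

theorem isClopen_range_compIncl (i : ι) : IsClopen (Set.range (compIncl t f i)) := by
  refine ⟨⟨?_⟩, (compIncl t f i).isOpenEmbedding.isOpen_range⟩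
  have h : (Set.range (compIncl t f i))ᶜ = ⋃ k : {k // k ≠ i}, Set.range (compIncl t f k) := by
    ext z
    simp only [Set.mem_compl_iff, Set.mem_iUnion]
    constructor
    · intro hz
      obtain ⟨j, y, rfl⟩ := exists_compIncl t f z
      exact ⟨⟨j, fun h => hz (by subst h; exact ⟨y, rfl⟩)⟩, y, rfl⟩
    · rintro ⟨⟨k, hk⟩, y, rfl⟩ ⟨y', hy'⟩
      exact hk (compIncl_eq t f hy').symm
  rw [h]
  exact isOpen_iUnion fun k => (compIncl t f k).isOpenEmbedding.isOpen_range

/-- If the fibre products of `T` with two disjoint unions of schemes are isomorphic and the fibre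
products with the summands are connected, then every summand of the first union corresponds to a
summand of the second one. -/
theorem exists_iso_of_sigma {κ : Type u} {Y : κ → Scheme.{u}} (g : ∀ j, Y j ⟶ S)
    (hX : ∀ i, ConnectedSpace ↥(pullback (f i) t)) (hY : ∀ j, ConnectedSpace ↥(pullback (g j) t))
    (e : pullback (Sigma.desc f) t ≅ pullback (Sigma.desc g) t)
    (he : e.hom ≫ pullback.snd (Sigma.desc g) t = pullback.snd (Sigma.desc f) t) (i : ι) :
    ∃ (j : κ) (e' : pullback (f i) t ≅ pullback (g j) t),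
      e'.hom ≫ pullback.snd (g j) t = pullback.snd (f i) t := by
  have hXi := hX i
  obtain ⟨p⟩ := hXi.toNonempty
  obtain ⟨j, q, hq⟩ := exists_compIncl t g (e.hom (compIncl t f i p))
  have hYj := hY j
  set A : Set ↥(pullback (Sigma.desc g) t) := Set.range (compIncl t f i ≫ e.hom) with hA
  have hAimg : A = e.hom '' Set.range (compIncl t f i) := by
    rw [hA, Scheme.Hom.comp_base, TopCat.coe_comp, Set.range_comp]
  have hAc : IsClopen A := by
    rw [hAimg]
    have h := isClopen_range_compIncl t f i
    exact ⟨e.hom.homeomorph.isClosedMap _ h.1, e.hom.homeomorph.isOpenMap _ h.2⟩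
  have hAp : _root_.IsPreconnected A := isPreconnected_range (compIncl t f i ≫ e.hom).continuous
  have hBc : IsClopen (Set.range (compIncl t g j)) := isClopen_range_compIncl t g j
  have hBp : _root_.IsPreconnected (Set.range (compIncl t g j)) :=
    isPreconnected_range (compIncl t g j).continuous
  have hx : compIncl t g j q ∈ A := ⟨p, by rw [Scheme.Hom.comp_apply, hq]⟩
  have hAB : Set.range (compIncl t f i ≫ e.hom) = Set.range (compIncl t g j) :=
    le_antisymm (hAp.subset_isClopen hBc ⟨_, hx, q, rfl⟩)
      (hBp.subset_isClopen hAc ⟨_, ⟨q, rfl⟩, hx⟩)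
  refine ⟨j, IsOpenImmersion.isoOfRangeEq (compIncl t f i ≫ e.hom) (compIncl t g j) hAB, ?_⟩
  rw [← compIncl_snd t g j, IsOpenImmersion.isoOfRangeEq_hom_fac_assoc, Category.assoc, he,
    compIncl_snd]

end sigma

section modulo

variable {K : Type u} [Field K] {O : ValuationSubring K}

/-- The reduction modulo a nonzero proper ideal is connected if the special fibre is. -/
theorem connectedSpace_modPt (hO : RankOne O) (I : Ideal O) (hI : I ≠ ⊤) (hI0 : I ≠ ⊥)
    {X : Scheme.{u}} (f : X ⟶ Spec (.of O)) (hf : ConnectedSpace ↥(specialFibre O f)) :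
    ConnectedSpace ↥(pullback f (modPt O I)) := by
  have hle : I ≤ IsLocalRing.maximalIdeal O := IsLocalRing.le_maximalIdeal hI
  let ρ : O ⧸ I →+* IsLocalRing.ResidueField O := Ideal.Quotient.factor hle
  have hr : resPt O = Spec.map (CommRingCat.ofHom ρ) ≫ modPt O I := by
    rw [resPt, modPt, ← Spec.map_comp, ← CommRingCat.ofHom_comp]
    rfl
  let a : specialFibre O f ⟶ pullback f (modPt O I) :=
    pullback.map f (resPt O) f (modPt O I) (𝟙 _) (Spec.map (CommRingCat.ofHom ρ)) (𝟙 _)
      (by simp) (by rw [hr, Category.comp_id])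
  have ha : IsPullback a (pullback.snd f (resPt O)) (pullback.snd f (modPt O I))
      (Spec.map (CommRingCat.ofHom ρ)) := by
    have h1 : IsPullback (pullback.fst f (modPt O I)) (pullback.snd f (modPt O I)) f
      (modPt O I) := IsPullback.of_hasPullback _ _
    have h3 : a ≫ pullback.fst f (modPt O I) = pullback.fst f (resPt O) :=
      (pullback.lift_fst _ _ _).trans (Category.comp_id _)
    have h4 : a ≫ pullback.snd f (modPt O I) =
        pullback.snd f (resPt O) ≫ Spec.map (CommRingCat.ofHom ρ) := pullback.lift_snd _ _ _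
    have h2 : IsPullback (a ≫ pullback.fst f (modPt O I)) (pullback.snd f (resPt O)) f
        (Spec.map (CommRingCat.ofHom ρ) ≫ modPt O I) := by
      rw [h3, ← hr]
      exact IsPullback.of_hasPullback _ _
    exact IsPullback.of_right h2 h4 h1
  have hs : Function.Surjective (Spec.map (CommRingCat.ofHom ρ)) := by
    intro y
    refine ⟨(⊥ : PrimeSpectrum (IsLocalRing.ResidueField O)), ?_⟩
    have hmax : ∀ z : Spec (.of (O ⧸ I)),
        z.asIdeal.comap (algebraMap O (O ⧸ I)) = IsLocalRing.maximalIdeal O := by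
      intro z
      have hz0 : z.asIdeal.IsPrime := z.isPrime
      have hz : (z.asIdeal.comap (algebraMap O (O ⧸ I))).IsPrime := Ideal.comap_isPrime _ _
      rcases RankOne.prime hO (z.asIdeal.comap (algebraMap O (O ⧸ I))) with h | h
      · exfalso
        apply hI0
        rw [eq_bot_iff, ← h]
        intro x hx
        rw [Ideal.mem_comap]
        have : algebraMap O (O ⧸ I) x = 0 := Ideal.Quotient.eq_zero_iff_mem.mpr hx
        rw [this]
        exact z.asIdeal.zero_mem
      · exact h
    apply PrimeSpectrum.ext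
    apply Ideal.comap_injective_of_surjective (algebraMap O (O ⧸ I)) Ideal.Quotient.mk_surjective
    rw [hmax, hmax]
  have hsa : Function.Surjective a := by
    intro z
    obtain ⟨y, hy⟩ := hs (pullback.snd f (modPt O I) z)
    obtain ⟨w, hw, _⟩ := Scheme.exists_preimage_of_isPullback ha z y hy.symm
    exact ⟨w, hw⟩
  exact hsa.connectedSpace a.continuous

/-- An isomorphism of disjoint unions modulo a nonzero proper ideal induces isomorphisms of the
summands if all the special fibres are connected. -/
theorem isoMod_of_sigma (hO : RankOne O) (I : Ideal O) (hI : I ≠ ⊤) (hI0 : I ≠ ⊥)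
    {ι κ : Type u} {X : ι → Scheme.{u}} {Y : κ → Scheme.{u}} (f : ∀ i, X i ⟶ Spec (.of O))
    (g : ∀ j, Y j ⟶ Spec (.of O)) (hf : ∀ i, ConnectedSpace ↥(specialFibre O (f i)))
    (hg : ∀ j, ConnectedSpace ↥(specialFibre O (g j)))
    (h : IsoMod O I (Sigma.desc f) (Sigma.desc g)) (i : ι) : ∃ j, IsoMod O I (f i) (g j) := by
  obtain ⟨e, he⟩ := h
  obtain ⟨j, e', he'⟩ := exists_iso_of_sigma (modPt O I) f g
    (fun i => connectedSpace_modPt hO I hI hI0 _ (hf i))
    (fun j => connectedSpace_modPt hO I hI hI0 _ (hg j)) e he i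
  exact ⟨j, e', he'⟩

end modulo

end Pool.Agent.Lib.MP_211349_ag
end
end
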