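import Mathlib

section

/-!
# Generic lemmas for the constancy of étale coverings
-/

open TensorProduct

universe u

noncomputable section

namespace Pool.Agent.Lib.MP_211349_ag

-- BEGIN T1
/-- (T1) Krull: a noetherian domain embeds in the product of its quotients by the powers of a proper
ideal. (`Ideal.iInf_pow_eq_bot_of_isDomain`.) -/
theorem krull_injective {R : Type u} [CommRing R] [IsDomain R] [IsNoetherianRing R] (m : Ideal R)
    (hm : m ≠ ⊤) : Function.Injective (algebraMap R (∀ n : ℕ, R ⧸ m ^ n)) := by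
  rw [injective_iff_map_eq_zero]
  intro x hx
  have h1 : x ∈ ⨅ n : ℕ, m ^ n := by
    rw [Ideal.mem_iInf]
    intro n
    have h2 := congrFun hx n
    exact Ideal.Quotient.eq_zero_iff_mem.1 h2
  rw [Ideal.iInf_pow_eq_bot_of_isDomain m hm] at h1
  exact h1
-- END T1

-- BEGIN T2
/-- (T2) Nullstellensatz: a nonzero finitely generated algebra over an algebraically closed field
has a point. -/
theorem exists_point {F R : Type u} [Field F] [IsAlgClosed F] [CommRing R] [Nontrivial R]
    [Algebra F R] [Algebra.FiniteType F R] : Nonempty (R →ₐ[F] F) := by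
  obtain ⟨m, hm⟩ := Ideal.exists_maximal R
  let : Field (R ⧸ m) := Ideal.Quotient.field m
  have h1 : Algebra.FiniteType F (R ⧸ m) :=
    Algebra.FiniteType.of_surjective (Ideal.Quotient.mkₐ F m)
      (Ideal.Quotient.mkₐ_surjective F m)
  have h2 : Module.Finite F (R ⧸ m) := finite_of_finite_type_of_isJacobsonRing F (R ⧸ m)
  have h3 : Function.Bijective (algebraMap F (R ⧸ m)) :=
    IsAlgClosed.algebraMap_bijective_of_isIntegral
  let e : F ≃ₐ[F] (R ⧸ m) := AlgEquiv.ofBijective (Algebra.ofId F (R ⧸ m)) h3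
  exact ⟨e.symm.toAlgHom.comp (Ideal.Quotient.mkₐ F m)⟩
-- END T2

-- BEGIN T3
/-- (T3) Let `R` be a domain, `T` a finitely generated `R`-algebra containing `R`, and `K` an
algebraically closed field containing `R`. Then there is an `R`-homomorphism `T → K`. (`K ⊗ T` is not
zero, since `Frac R ⊗ T` is a localization of `T` at elements that are not nilpotent; then use (T2).) -/
theorem exists_specialization {R T K : Type u} [CommRing R] [IsDomain R] [CommRing T] [Algebra R T]
    [Algebra.FiniteType R T] (hT : Function.Injective (algebraMap R T)) [Field K] [IsAlgClosed K]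
    [Algebra R K] (hK : Function.Injective (algebraMap R K)) : Nonempty (T →ₐ[R] K) := by
  haveI : FaithfulSMul R K := (faithfulSMul_iff_algebraMap_injective R K).2 hK
  letI : Algebra (FractionRing R) K := FractionRing.liftAlgebra R K
  haveI : IsScalarTower R (FractionRing R) K := FractionRing.isScalarTower_liftAlgebra R K
  haveI h1 : Nontrivial (FractionRing R ⊗[R] T) := by
    have hinj : Function.Injective ((Algebra.linearMap R T).lTensor (FractionRing R)) :=
      Module.Flat.lTensor_preserves_injective_linearMap _ hT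
    haveI : Nontrivial (FractionRing R ⊗[R] R) :=
      (TensorProduct.rid R (FractionRing R)).toEquiv.nontrivial
    exact hinj.nontrivial
  haveI h2 : Nontrivial (K ⊗[FractionRing R] (FractionRing R ⊗[R] T)) :=
    inferInstance
  haveI h3 : Nontrivial (K ⊗[R] T) :=
    (TensorProduct.AlgebraTensorModule.cancelBaseChange R (FractionRing R) (FractionRing R) K
      T).toEquiv.symm.nontrivial
  obtain ⟨φ⟩ := exists_point (F := K) (R := K ⊗[R] T)
  exact ⟨(φ.restrictScalars R).comp Algebra.TensorProduct.includeRight⟩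
-- END T3

-- BEGIN T4
/-- (T4) Two maps out of a formally unramified algebra agree if they agree modulo a nilpotent ideal.
(`Algebra.FormallyUnramified.ext'` or similar.) -/
theorem eq_of_lift {Λ A C D : Type u} [CommRing Λ] [CommRing A] [CommRing C] [CommRing D]
    [Algebra Λ A] [Algebra Λ C] [Algebra Λ D] [Algebra.FormallyUnramified Λ A] (f g : A →ₐ[Λ] C)
    (ρ : C →ₐ[Λ] D) (hρ : IsNilpotent (RingHom.ker ρ)) (h : ∀ a, ρ (f a) = ρ (g a)) : f = g :=
  Algebra.FormallyUnramified.ext' (ρ : C →+* D) hρ f g h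
-- END T4

-- BEGIN T5
/-- (T5) Two formally étale algebras with the same reduction modulo nilpotents are isomorphic:
lift both ways (`Algebra.FormallySmooth.liftOfSurjective`), use (T4) for the compositions. -/
theorem exists_lift_equiv {Λ A B D : Type u} [CommRing Λ] [CommRing A] [CommRing B] [CommRing D]
    [Algebra Λ A] [Algebra Λ B] [Algebra Λ D] [Algebra.FormallyEtale Λ A]
    [Algebra.FormallyEtale Λ B] (π : A →ₐ[Λ] D) (ρ : B →ₐ[Λ] D) (hπ : Function.Surjective π)
    (hρ : Function.Surjective ρ) (hπn : IsNilpotent (RingHom.ker π))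
    (hρn : IsNilpotent (RingHom.ker ρ)) : ∃ e : A ≃ₐ[Λ] B, ∀ a, ρ (e a) = π a := by
  let f : A →ₐ[Λ] B := Algebra.FormallySmooth.liftOfSurjective π ρ hρ hρn
  let g : B →ₐ[Λ] A := Algebra.FormallySmooth.liftOfSurjective ρ π hπ hπn
  have hf : ∀ a, ρ (f a) = π a :=
    Algebra.FormallySmooth.liftOfSurjective_apply π ρ hρ hρn
  have hg : ∀ b, π (g b) = ρ b :=
    Algebra.FormallySmooth.liftOfSurjective_apply ρ π hπ hπn
  have h1 : f.comp g = AlgHom.id Λ B := by
    refine eq_of_lift (f.comp g) (AlgHom.id Λ B) ρ hρn fun b => ?_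
    rw [AlgHom.comp_apply, hf, hg]
    rfl
  have h2 : g.comp f = AlgHom.id Λ A := by
    refine eq_of_lift (g.comp f) (AlgHom.id Λ A) π hπn fun a => ?_
    rw [AlgHom.comp_apply, hg, hf]
    rfl
  exact ⟨AlgEquiv.ofAlgHom f g h1 h2, hf⟩
-- END T5

-- BEGIN T6
/-- (T6) Glueing of lifts. `Q` is the localization of `P` at `x` and of `P'` at `x'`, `G` is the
localization of the `P`-algebra `B` at `x` and of the `P'`-algebra `B'` at `x'`. The lifts `u`, `u'` of
the localization maps along the nilpotent surjection `ρ : Γ → G` extend to the same lift `U`.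
Proof: `x` is a unit of `Γ`, so `u` extends to `U : G → Γ` (`IsLocalization.Away.lift`), similarly `u'` extends
to `U'`; both are `Q`-linear (ring homomorphisms out of `Q` agreeing on `P`, resp. `P'`, agree), in
particular `P`-linear, and both composed with `ρ` are the identity. `G` is formally unramified over `P` (localization of `B`),
so `U = U'` by (T4). -/
theorem exists_glued_lift {P P' Q B B' G Γ : Type u} [CommRing P] [CommRing P'] [CommRing Q]
    [CommRing B] [CommRing B'] [CommRing G] [CommRing Γ] [Algebra P Q] [Algebra P' Q]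
    [Algebra P B] [Algebra P' B'] [Algebra B G] [Algebra B' G] [Algebra Q G] [Algebra Q Γ]
    [Algebra P G] [Algebra P' G] [Algebra P Γ] [Algebra P' Γ] [IsScalarTower P B G]
    [IsScalarTower P' B' G] [IsScalarTower P Q G] [IsScalarTower P' Q G] [IsScalarTower P Q Γ]
    [IsScalarTower P' Q Γ] (x : P) (x' : P') [IsLocalization.Away x Q] [IsLocalization.Away x' Q]
    [IsLocalization.Away (algebraMap P B x) G] [IsLocalization.Away (algebraMap P' B' x') G]
    [Algebra.FormallyUnramified P B] (ρ : Γ →ₐ[Q] G) (hρ : IsNilpotent (RingHom.ker ρ))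
    (u : B →ₐ[P] Γ) (u' : B' →ₐ[P'] Γ) (hu : ∀ b, ρ (u b) = algebraMap B G b)
    (hu' : ∀ b, ρ (u' b) = algebraMap B' G b) :
    ∃ U : G →ₐ[Q] Γ, (∀ b, U (algebraMap B G b) = u b) ∧ ∀ b, U (algebraMap B' G b) = u' b := by
  -- the general construction of the extension
  have key : ∀ {P₁ B₁ : Type u} [CommRing P₁] [CommRing B₁] [Algebra P₁ Q] [Algebra P₁ B₁]
      [Algebra B₁ G] [Algebra P₁ G] [Algebra P₁ Γ] [IsScalarTower P₁ B₁ G] [IsScalarTower P₁ Q G]
      [IsScalarTower P₁ Q Γ] (x₁ : P₁) [IsLocalization.Away x₁ Q]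
      [IsLocalization.Away (algebraMap P₁ B₁ x₁) G] (u₁ : B₁ →ₐ[P₁] Γ)
      (_ : ∀ b, ρ (u₁ b) = algebraMap B₁ G b), ∃ U : G →ₐ[Q] Γ,
        (∀ b, U (algebraMap B₁ G b) = u₁ b) ∧ ∀ g, ρ (U g) = g := by
    intro P₁ B₁ _ _ _ _ _ _ _ _ _ _ x₁ _ _ u₁ hu₁
    have hunit : IsUnit (u₁.toRingHom (algebraMap P₁ B₁ x₁)) := by
      have h1 : u₁.toRingHom (algebraMap P₁ B₁ x₁) = algebraMap Q Γ (algebraMap P₁ Q x₁) := by
        rw [← IsScalarTower.algebraMap_apply P₁ Q Γ]
        exact u₁.commutes x₁
      rw [h1]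
      exact (IsLocalization.Away.algebraMap_isUnit x₁).map _
    let V : G →+* Γ := IsLocalization.Away.lift (algebraMap P₁ B₁ x₁) hunit
    have hV : ∀ b, V (algebraMap B₁ G b) = u₁ b := fun b =>
      IsLocalization.Away.lift_eq (algebraMap P₁ B₁ x₁) hunit b
    have hQ : V.comp (algebraMap Q G) = algebraMap Q Γ := by
      apply IsLocalization.ringHom_ext (Submonoid.powers x₁)
      ext p
      simp only [RingHom.comp_apply]
      rw [← IsScalarTower.algebraMap_apply P₁ Q G, IsScalarTower.algebraMap_apply P₁ B₁ G, hV,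
        ← IsScalarTower.algebraMap_apply P₁ Q Γ]
      exact u₁.commutes p
    have hρV : (ρ.toRingHom.comp V) = RingHom.id G := by
      apply IsLocalization.ringHom_ext (Submonoid.powers (algebraMap P₁ B₁ x₁))
      ext b
      simp only [RingHom.comp_apply, RingHom.id_apply]
      rw [hV]
      exact hu₁ b
    refine ⟨{ V with commutes' := fun q => ?_ }, hV, fun g => ?_⟩
    · exact congrArg (fun φ : Q →+* Γ => φ q) hQ
    · exact congrArg (fun φ : G →+* G => φ g) hρV
  obtain ⟨U, hU1, hU2⟩ := key x u hu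
  obtain ⟨U', hU'1, hU'2⟩ := key x' u' hu'
  haveI : Algebra.FormallyUnramified B G :=
    Algebra.FormallyUnramified.of_isLocalization (Submonoid.powers (algebraMap P B x))
  haveI : Algebra.FormallyUnramified P G := Algebra.FormallyUnramified.comp P B G
  have e : U.restrictScalars P = U'.restrictScalars P := by
    apply eq_of_lift (U.restrictScalars P) (U'.restrictScalars P) (ρ.restrictScalars P)
    · exact hρ
    · intro a
      show ρ (U a) = ρ (U' a)
      rw [hU2, hU'2]
  refine ⟨U, hU1, fun b => ?_⟩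
  rw [← hU'1 b]
  exact congrArg (fun φ : G →ₐ[P] Γ => φ (algebraMap B' G b)) e
-- END T6

-- BEGIN T7
/-- (T7) The kernel of the reduction of `A ⊗ E` is nilpotent: if `φ : A → D` is a surjective
homomorphism of `R`-algebras with nilpotent kernel then so is `A ⊗ E → D ⊗ E`.
(`Algebra.TensorProduct.rTensor_ker` or similar: the kernel is generated by the kernel of `φ`.) -/
theorem nilpotent_ker_map {R A D E : Type u} [CommRing R] [CommRing A] [CommRing D] [CommRing E]
    [Algebra R A] [Algebra R D] [Algebra R E] (φ : A →ₐ[R] D) (hφ : Function.Surjective φ)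
    (hn : IsNilpotent (RingHom.ker φ)) :
    IsNilpotent (RingHom.ker (Algebra.TensorProduct.map φ (AlgHom.id R E))) := by
  obtain ⟨n, hn⟩ := hn
  refine ⟨n, ?_⟩
  rw [Algebra.TensorProduct.rTensor_ker φ hφ, ← Ideal.map_pow, hn]
  exact Ideal.map_bot
-- END T7

end Pool.Agent.Lib.MP_211349_ag
end
end

section

/-!
# Pushouts of open immersions of schemes
-/

open CategoryTheory Limits AlgebraicGeometry

universe u

noncomputable section

namespace Pool.Agent.Lib.MP_211349_ag

variable {U X Y : Scheme.{u}} (f : U ⟶ X) (g : U ⟶ Y) [IsOpenImmersion f] [IsOpenImmersion g]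

instance isOpenImmersion_pushout_inl : IsOpenImmersion (pushout.inl f g) :=
  inferInstanceAs (IsOpenImmersion (colimit.ι (span f g) WalkingSpan.left))

instance isOpenImmersion_pushout_inr : IsOpenImmersion (pushout.inr f g) :=
  inferInstanceAs (IsOpenImmersion (colimit.ι (span f g) WalkingSpan.right))

theorem pushout_cover (z : (pushout f g : Scheme.{u})) :
    (∃ x, pushout.inl f g x = z) ∨ ∃ y, pushout.inr f g y = z := by
  obtain ⟨i, x, hx⟩ := Scheme.IsLocallyDirected.ι_jointly_surjective (span f g) z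
  have h0 : ∀ (x : U), colimit.ι (span f g) WalkingSpan.zero x = pushout.inl f g (f x) := by
    intro x
    have : colimit.ι (span f g) WalkingSpan.zero = f ≫ pushout.inl f g :=
      (colimit.w (span f g) WalkingSpan.Hom.fst).symm
    rw [← Scheme.Hom.comp_apply, ← this]
    rfl
  rcases i with _ | _ | _
  · exact Or.inl ⟨_, (h0 x).symm.trans hx⟩
  · exact Or.inl ⟨x, hx⟩
  · exact Or.inr ⟨x, hx⟩

theorem pushout_inl_eq_inr_iff (x : X) (y : Y) :
    pushout.inl f g x = pushout.inr f g y ↔ ∃ u, f u = x ∧ g u = y := by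
  constructor
  · intro h
    obtain ⟨k, fi, fj, u, hu, hv⟩ := (Scheme.IsLocallyDirected.ι_eq_ι_iff (span f g)
      (i := WalkingSpan.left) (j := WalkingSpan.right) (xi := x) (xj := y)).mp h
    rcases k with _ | _ | _
    · obtain rfl : fi = WalkingSpan.Hom.fst := Subsingleton.elim _ _
      obtain rfl : fj = WalkingSpan.Hom.snd := Subsingleton.elim _ _
      exact ⟨u, hu, hv⟩
    · change WidePushoutShape.Hom _ _ at fj
      cases fj
    · change WidePushoutShape.Hom _ _ at fi
      cases fi
  · rintro ⟨u, rfl, rfl⟩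
    rw [← Scheme.Hom.comp_apply, ← Scheme.Hom.comp_apply, pushout.condition]

/-- The square of a pushout of open immersions is a pullback square. -/
theorem isPullback_pushout : IsPullback f g (pushout.inl f g) (pushout.inr f g) := by
  have key : ∀ s : PullbackCone (pushout.inl f g) (pushout.inr f g),
      Set.range s.fst ⊆ Set.range f := by
    rintro s _ ⟨t, rfl⟩
    have h : pushout.inl f g (s.fst t) = pushout.inr f g (s.snd t) := by
      rw [← Scheme.Hom.comp_apply, ← Scheme.Hom.comp_apply, s.condition]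
    obtain ⟨u, hu, -⟩ := (pushout_inl_eq_inr_iff f g _ _).mp h
    exact ⟨u, hu⟩
  have key2 : ∀ s : PullbackCone (pushout.inl f g) (pushout.inr f g),
      IsOpenImmersion.lift f s.fst (key s) ≫ f = s.fst :=
    fun s => IsOpenImmersion.lift_fac _ _ _
  refine ⟨⟨pushout.condition⟩, ⟨PullbackCone.IsLimit.mk _
    (fun s => IsOpenImmersion.lift f s.fst (key s)) key2 ?_ ?_⟩⟩
  · intro s
    have h : (IsOpenImmersion.lift f s.fst (key s) ≫ f) ≫ pushout.inl f g =
      s.fst ≫ pushout.inl f g := by rw [key2]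
    rw [Category.assoc, pushout.condition, s.condition, ← Category.assoc] at h
    exact (cancel_mono _).mp h
  · intro s m hm _
    exact (cancel_mono f).mp (hm.trans (key2 s).symm)

theorem pushout_forall (P : ↥(pushout f g : Scheme.{u}) → Prop)
    (h1 : ∀ x, P (pushout.inl f g x)) (h2 : ∀ y, P (pushout.inr f g y))
    (z : ↥(pushout f g : Scheme.{u})) : P z := by
  rcases pushout_cover f g z with ⟨x, rfl⟩ | ⟨y, rfl⟩
  · exact h1 x
  · exact h2 y

/-- The two open immersions cover the pushout. -/
theorem pushout_opensRange_sup :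
    (pushout.inl f g).opensRange ⊔ (pushout.inr f g).opensRange = ⊤ := by
  rw [eq_top_iff]
  intro z _
  rcases pushout_cover f g z with ⟨x, rfl⟩ | ⟨y, rfl⟩
  · exact Or.inl ⟨x, rfl⟩
  · exact Or.inr ⟨y, rfl⟩

/-- The images of the two open immersions meet in the image of the intersection. -/
theorem pushout_opensRange_inf :
    (pushout.inl f g).opensRange ⊓ (pushout.inr f g).opensRange =
      (f ≫ pushout.inl f g).opensRange := by
  ext z
  constructor
  · rintro ⟨⟨x, rfl⟩, ⟨y, hy⟩⟩
    obtain ⟨u, rfl, rfl⟩ := (pushout_inl_eq_inr_iff f g x y).mp hy.symm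
    exact ⟨u, by rw [Scheme.Hom.comp_apply]⟩
  · rintro ⟨u, rfl⟩
    refine ⟨⟨f u, by rw [Scheme.Hom.comp_apply]⟩, ⟨g u, ?_⟩⟩
    rw [← Scheme.Hom.comp_apply, pushout.condition]

end Pool.Agent.Lib.MP_211349_ag
end
end
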