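import Pool.Agent.Lib.MP_211349_ag.P2.Curve
import Pool.Agent.Lib.MP_211349_ag.Mg.G003
import Pool.Agent.Lib.MP_211349_ag.P2.Alg

section

/-!
# The two charts of the curve
-/

open CategoryTheory Limits AlgebraicGeometry Polynomial

universe u

noncomputable section

namespace Pool.Agent.Lib.MP_211349_ag.Even

variable (R : Type u) [CommRing R] (c : R)

/-- The chart `z² + x² z = x⁷ + c x`. -/
def chart0 : Spec (.of (A0 c)) ⟶ curve R c := pushout.inl _ _

/-- The chart `w² + t² w = t + c t⁷`. -/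
def chart1 : Spec (.of (A1 c)) ⟶ curve R c := pushout.inr _ _

instance : IsOpenImmersion (chart0 R c) := isOpenImmersion_pushout_inl _ _

instance : IsOpenImmersion (chart1 R c) := isOpenImmersion_pushout_inr _ _

theorem ov0_chart0 : ov0 R c ≫ chart0 R c = ov1 R c ≫ chart1 R c := pushout.condition

theorem isPullback_charts : IsPullback (ov0 R c) (ov1 R c) (chart0 R c) (chart1 R c) :=
  isPullback_pushout _ _

theorem chart_cover (z : ↥(curve R c)) : (∃ x, chart0 R c x = z) ∨ ∃ y, chart1 R c y = z :=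
  pushout_cover _ _ z

theorem chart_opensRange_sup : (chart0 R c).opensRange ⊔ (chart1 R c).opensRange = ⊤ :=
  pushout_opensRange_sup _ _

theorem chart_opensRange_inf : (chart0 R c).opensRange ⊓ (chart1 R c).opensRange =
    (ov0 R c ≫ chart0 R c).opensRange :=
  pushout_opensRange_inf _ _

theorem chart0_toSpec :
    chart0 R c ≫ toSpec R c = Spec.map (CommRingCat.ofHom (algebraMap R (A0 c))) :=
  pushout.inl_desc _ _ _

theorem chart1_toSpec :
    chart1 R c ≫ toSpec R c = Spec.map (CommRingCat.ofHom (algebraMap R (A1 c))) :=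
  pushout.inr_desc _ _ _

variable {R c} in
theorem curve_hom_ext {Z : Scheme.{u}} {f g : curve R c ⟶ Z}
    (h0 : chart0 R c ≫ f = chart0 R c ≫ g) (h1 : chart1 R c ≫ f = chart1 R c ≫ g) : f = g :=
  pushout.hom_ext h0 h1

variable {R c} in
/-- Morphisms out of the curve. -/
def curveDesc {Z : Scheme.{u}} (f : Spec (.of (A0 c)) ⟶ Z) (g : Spec (.of (A1 c)) ⟶ Z)
    (h : ov0 R c ≫ f = ov1 R c ≫ g) : curve R c ⟶ Z :=
  pushout.desc f g h

variable {R c} in
theorem chart0_curveDesc {Z : Scheme.{u}} (f : Spec (.of (A0 c)) ⟶ Z)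
    (g : Spec (.of (A1 c)) ⟶ Z) (h : ov0 R c ≫ f = ov1 R c ≫ g) :
    chart0 R c ≫ curveDesc f g h = f :=
  pushout.inl_desc _ _ _

variable {R c} in
theorem chart1_curveDesc {Z : Scheme.{u}} (f : Spec (.of (A0 c)) ⟶ Z)
    (g : Spec (.of (A1 c)) ⟶ Z) (h : ov0 R c ≫ f = ov1 R c ≫ g) :
    chart1 R c ≫ curveDesc f g h = g :=
  pushout.inr_desc _ _ _

/-- The covering of the curve by its two charts. -/
def curveCover : (curve R c).OpenCover :=
  Scheme.Cover.mkOfCovers Bool
    (fun b => if b then Spec (.of (A0 c)) else Spec (.of (A1 c)))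
    (fun b => match b with
      | true => chart0 R c
      | false => chart1 R c)
    (fun z => by
      rcases chart_cover R c z with ⟨x, hx⟩ | ⟨x, hx⟩
      · exact ⟨true, x, hx⟩
      · exact ⟨false, x, hx⟩)
    (fun b => match b with
      | true => inferInstanceAs (IsOpenImmersion (chart0 R c))
      | false => inferInstanceAs (IsOpenImmersion (chart1 R c)))

/-- A property of morphisms which is Zariski local at the source holds for a morphism out of
the curve if and only if it holds on both charts. -/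
theorem curve_iff {P : MorphismProperty Scheme.{u}} [IsZariskiLocalAtSource P] {Z : Scheme.{u}}
    (f : curve R c ⟶ Z) : P f ↔ P (chart0 R c ≫ f) ∧ P (chart1 R c ≫ f) := by
  rw [IsZariskiLocalAtSource.iff_of_openCover (P := P) (curveCover R c)]
  constructor
  · intro h
    exact ⟨h true, h false⟩
  · rintro ⟨h0, h1⟩ (_ | _)
    · exact h1
    · exact h0

instance curve_compactSpace : CompactSpace ↥(curve R c) := by
  rw [← isCompact_univ_iff]
  have : (Set.univ : Set ↥(curve R c)) = Set.range (chart0 R c) ∪ Set.range (chart1 R c) := by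
    refine (Set.eq_univ_of_forall fun z => ?_).symm
    rcases chart_cover R c z with ⟨x, hx⟩ | ⟨x, hx⟩
    · exact Or.inl ⟨x, hx⟩
    · exact Or.inr ⟨x, hx⟩
  rw [this]
  exact (isCompact_range (chart0 R c).continuous).union
    (isCompact_range (chart1 R c).continuous)

instance curve_quasiSeparatedSpace : QuasiSeparatedSpace ↥(curve R c) := by
  refine Scheme.quasiSeparatedSpace_of_isOpenCover
    (fun b : Bool => if b then (chart0 R c).opensRange else (chart1 R c).opensRange) ?_ ?_ ?_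
  · rw [TopologicalSpace.IsOpenCover, iSup_bool_eq]
    simpa using chart_opensRange_sup R c
  · rintro (_ | _)
    · exact isAffineOpen_opensRange (chart1 R c)
    · exact isAffineOpen_opensRange (chart0 R c)
  · have h0 : IsCompact (((chart0 R c).opensRange ⊓ (chart1 R c).opensRange :
        (curve R c).Opens) : Set ↥(curve R c)) := by
      rw [chart_opensRange_inf]
      exact (isAffineOpen_opensRange (ov0 R c ≫ chart0 R c)).isCompact
    rintro (_ | _) (_ | _)
    · simpa using (isAffineOpen_opensRange (chart1 R c)).isCompact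
    · rw [inf_comm] at h0
      exact h0
    · exact h0
    · simpa using (isAffineOpen_opensRange (chart0 R c)).isCompact

instance : QuasiCompact (toSpec R c) := inferInstance

instance : QuasiSeparated (toSpec R c) := inferInstance

end Pool.Agent.Lib.MP_211349_ag.Even
end
end

section

/-!
# The curve is proper
-/

open CategoryTheory Limits AlgebraicGeometry Polynomial

universe u

noncomputable section

namespace Pool.Agent.Lib.MP_211349_ag.Even

variable {R : Type u} [CommRing R] {c : R}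

-- BEGIN SC1
theorem SC1_factors {V A : Type u} [CommRing V] [IsLocalRing V] [CommRing A] {X : Scheme.{u}}
    (j : Spec (.of A) ⟶ X) [IsOpenImmersion j] (l : Spec (.of V) ⟶ X)
    (h : l (IsLocalRing.closedPoint V) ∈ Set.range j) :
    ∃ φ : A →+* V, l = Spec.map (CommRingCat.ofHom φ) ≫ j := by
  have h1 : l ⁻¹ᵁ j.opensRange = ⊤ := by
    have h2 : (IsLocalRing.closedPoint V : Spec (.of V)) ∈ l ⁻¹ᵁ j.opensRange := h
    rw [eq_top_iff]
    intro z _
    exact (IsLocalRing.specializes_closedPoint (R := V) z).mem_open (l ⁻¹ᵁ j.opensRange).2 h2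
  have h3 : Set.range l ⊆ Set.range j := by
    rintro _ ⟨z, rfl⟩
    have : z ∈ l ⁻¹ᵁ j.opensRange := h1 ▸ trivial
    exact this
  refine ⟨(Spec.preimage (IsOpenImmersion.lift j l h3)).hom, ?_⟩
  rw [CommRingCat.ofHom_hom, Spec.map_preimage, IsOpenImmersion.lift_fac]

/-- A morphism from the spectrum of a local ring to the curve factors through one of the two
charts (look at the image of the closed point; `IsOpenImmersion.lift`, `Spec.preimage`). -/
theorem factors_of_local (V : Type u) [CommRing V] [IsLocalRing V]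
    (l : Spec (.of V) ⟶ curve R c) :
    (∃ φ : A0 c →+* V, l = Spec.map (CommRingCat.ofHom φ) ≫ chart0 R c) ∨
      ∃ φ : A1 c →+* V, l = Spec.map (CommRingCat.ofHom φ) ≫ chart1 R c := by
  rcases chart_cover R c (l (IsLocalRing.closedPoint V)) with ⟨x, hx⟩ | ⟨x, hx⟩
  · exact Or.inl (SC1_factors _ l ⟨x, hx⟩)
  · exact Or.inr (SC1_factors _ l ⟨x, hx⟩)
-- END SC1

-- BEGIN SC2
/-- If `φ x` is a unit then the morphism given by `φ : A0 → S` factors through the second chart
(`φ` extends to `Ov`; `ov0_chart0`). -/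
theorem chart0_to_chart1 {S : Type u} [CommRing S] (φ : A0 c →+* S)
    (hx : IsUnit (φ (DC.x (f0 c)))) :
    ∃ φ' : A1 c →+* S,
      Spec.map (CommRingCat.ofHom φ) ≫ chart0 R c = Spec.map (CommRingCat.ofHom φ') ≫ chart1 R c ∧
      φ' (DC.x (f1 c)) * φ (DC.x (f0 c)) = 1 := by
  let ψ : Ov c →+* S := IsLocalization.Away.lift (DC.x (f0 c)) (g := φ) hx
  have hψ : ψ.comp (algebraMap (A0 c) (Ov c)) = φ :=
    IsLocalization.Away.lift_comp (DC.x (f0 c)) hx
  refine ⟨ψ.comp (toOv c), ?_, ?_⟩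
  · have h1 : Spec.map (CommRingCat.ofHom φ) = Spec.map (CommRingCat.ofHom ψ) ≫ ov0 R c := by
      rw [ov0, ← Spec.map_comp, ← CommRingCat.ofHom_comp, hψ]
    have h2 : Spec.map (CommRingCat.ofHom (ψ.comp (toOv c))) =
        Spec.map (CommRingCat.ofHom ψ) ≫ ov1 R c := by
      rw [ov1, ← Spec.map_comp, ← CommRingCat.ofHom_comp]
    rw [h1, h2, Category.assoc, Category.assoc, ov0_chart0]
  · have h3 : φ (DC.x (f0 c)) = ψ (algebraMap (A0 c) (Ov c) (DC.x (f0 c))) := by
      conv_lhs => rw [← hψ]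
      rfl
    rw [RingHom.comp_apply, toOv_x, h3, ← map_mul, mul_comm, Ov.x_mul_xinv, map_one]

/-- If `φ t` is a unit then the morphism given by `φ : A1 → S` factors through the first chart
(`isLocalization_toOv`, or `ovEquiv`). -/
theorem chart1_to_chart0 {S : Type u} [CommRing S] (φ : A1 c →+* S)
    (hx : IsUnit (φ (DC.x (f1 c)))) :
    ∃ φ' : A0 c →+* S,
      Spec.map (CommRingCat.ofHom φ) ≫ chart1 R c = Spec.map (CommRingCat.ofHom φ') ≫ chart0 R c ∧
      φ' (DC.x (f0 c)) * φ (DC.x (f1 c)) = 1 := by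
  let χ : Localization.Away (DC.x (f1 c)) →+* S :=
    IsLocalization.Away.lift (DC.x (f1 c)) (g := φ) hx
  have hχ : χ.comp (algebraMap (A1 c) (Localization.Away (DC.x (f1 c)))) = φ :=
    IsLocalization.Away.lift_comp (DC.x (f1 c)) hx
  let ψ : Ov c →+* S := χ.comp (ovTo c)
  have hψ : ψ.comp (toOv c) = φ := by
    rw [RingHom.comp_assoc, ovTo_comp_toOv, hχ]
  refine ⟨ψ.comp (algebraMap (A0 c) (Ov c)), ?_, ?_⟩
  · have h1 : Spec.map (CommRingCat.ofHom φ) = Spec.map (CommRingCat.ofHom ψ) ≫ ov1 R c := by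
      rw [ov1, ← Spec.map_comp, ← CommRingCat.ofHom_comp, hψ]
    have h2 : Spec.map (CommRingCat.ofHom (ψ.comp (algebraMap (A0 c) (Ov c)))) =
        Spec.map (CommRingCat.ofHom ψ) ≫ ov0 R c := by
      rw [ov0, ← Spec.map_comp, ← CommRingCat.ofHom_comp]
    rw [h1, h2, Category.assoc, Category.assoc, ov0_chart0]
  · have h3 : φ (DC.x (f1 c)) = ψ (toOv c (DC.x (f1 c))) := by
      conv_lhs => rw [← hψ]
      rfl
    rw [RingHom.comp_apply, h3, ← map_mul, toOv_x, Ov.x_mul_xinv, map_one]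
-- END SC2

-- BEGIN SC3
/-- Two points with values in `S`, one in each chart, which agree, have `x t = 1`
(`isPullback_charts`). -/
theorem mul_eq_one_of_charts {S : Type u} [CommRing S] (φ : A0 c →+* S) (ψ : A1 c →+* S)
    (h : Spec.map (CommRingCat.ofHom φ) ≫ chart0 R c = Spec.map (CommRingCat.ofHom ψ) ≫ chart1 R c) :
    φ (DC.x (f0 c)) * ψ (DC.x (f1 c)) = 1 := by
  obtain ⟨l, hl0, hl1⟩ : ∃ l : Spec (.of S) ⟶ Spec (.of (Ov c)),
      l ≫ ov0 R c = Spec.map (CommRingCat.ofHom φ) ∧
      l ≫ ov1 R c = Spec.map (CommRingCat.ofHom ψ) :=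
    ⟨(isPullback_charts R c).lift _ _ h, (isPullback_charts R c).lift_fst _ _ h,
      (isPullback_charts R c).lift_snd _ _ h⟩
  obtain ⟨χ, rfl⟩ := Spec.map_surjective l
  rw [ov0, ← Spec.map_comp] at hl0
  rw [ov1, ← Spec.map_comp] at hl1
  have e0 := congrArg CommRingCat.Hom.hom (Spec.map_injective hl0)
  have e1 := congrArg CommRingCat.Hom.hom (Spec.map_injective hl1)
  have h0 := RingHom.congr_fun e0 (DC.x (f0 c))
  have h1 := RingHom.congr_fun e1 (DC.x (f1 c))
  change χ.hom (algebraMap (A0 c) (Ov c) (DC.x (f0 c))) = φ _ at h0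
  change χ.hom (toOv c (DC.x (f1 c))) = ψ _ at h1
  rw [← h0, ← h1, toOv_x, ← map_mul, Ov.x_mul_xinv, map_one]
-- END SC3

section valuation

variable {V K : Type u} [CommRing V] [IsDomain V] [ValuationRing V]
  [Field K] [Algebra V K] [IsFractionRing V K]

-- BEGIN SC4
theorem SC4_mem (x : K) : x ∈ (algebraMap V K).range ∨ (x ≠ 0 ∧ x⁻¹ ∈ (algebraMap V K).range) := by
  by_cases hx : x = 0
  · left
    rw [hx]
    exact zero_mem _
  · rcases ValuationRing.isInteger_or_isInteger V x with h | h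
    · left
      obtain ⟨v, hv⟩ := h
      exact ⟨v, hv⟩
    · right
      obtain ⟨v, hv⟩ := h
      exact ⟨hx, v, hv⟩

/-- Every `K`-point over `V` comes from a chart in which the coordinate `x` resp. `t` is in `V`
(`factors_of_local` for `K`; `ValuationRing.isInteger_or_isInteger`; `chart0_to_chart1`,
`chart1_to_chart0`). -/
theorem exists_chart_integral (i : Spec (.of K) ⟶ curve R c) :
    (∃ φ : A0 c →+* K, i = Spec.map (CommRingCat.ofHom φ) ≫ chart0 R c ∧
      φ (DC.x (f0 c)) ∈ (algebraMap V K).range) ∨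
    ∃ φ : A1 c →+* K, i = Spec.map (CommRingCat.ofHom φ) ≫ chart1 R c ∧
      φ (DC.x (f1 c)) ∈ (algebraMap V K).range := by
  rcases factors_of_local K i with ⟨φ, hφ⟩ | ⟨φ, hφ⟩
  · rcases SC4_mem (V := V) (φ (DC.x (f0 c))) with h | ⟨h0, h⟩
    · exact Or.inl ⟨φ, hφ, h⟩
    · obtain ⟨φ', h1, h2⟩ := chart0_to_chart1 φ (isUnit_iff_ne_zero.2 h0)
      refine Or.inr ⟨φ', hφ.trans h1, ?_⟩
      rw [eq_inv_of_mul_eq_one_left h2]
      exact h
  · rcases SC4_mem (V := V) (φ (DC.x (f1 c))) with h | ⟨h0, h⟩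
    · exact Or.inr ⟨φ, hφ, h⟩
    · obtain ⟨φ', h1, h2⟩ := chart1_to_chart0 φ (isUnit_iff_ne_zero.2 h0)
      refine Or.inl ⟨φ', hφ.trans h1, ?_⟩
      rw [eq_inv_of_mul_eq_one_left h2]
      exact h
-- END SC4

-- BEGIN SC5
/-- The existence part of the valuative criterion (`exists_chart_integral`,
`DC.lift_valuation`). -/
theorem curve_exists_lift (i : Spec (.of K) ⟶ curve R c) (j : Spec (.of V) ⟶ Spec (.of R))
    (h : i ≫ toSpec R c = Spec.map (CommRingCat.ofHom (algebraMap V K)) ≫ j) :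
    ∃ l : Spec (.of V) ⟶ curve R c,
      Spec.map (CommRingCat.ofHom (algebraMap V K)) ≫ l = i ∧ l ≫ toSpec R c = j := by
  obtain ⟨ρ', rfl⟩ := Spec.map_surjective j
  obtain ⟨ρ, rfl⟩ : ∃ ρ : R →+* V, CommRingCat.ofHom ρ = ρ' := ⟨ρ'.hom, CommRingCat.ofHom_hom ρ'⟩
  have key : ∀ (A : Type u) [CommRing A] [Algebra R A] (φ : A →+* K)
      (hh : Spec.map (CommRingCat.ofHom φ) ≫ Spec.map (CommRingCat.ofHom (algebraMap R A)) =
        Spec.map (CommRingCat.ofHom (algebraMap V K)) ≫ Spec.map (CommRingCat.ofHom ρ)),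
      φ.comp (algebraMap R A) = (algebraMap V K).comp ρ := by
    intro A _ _ φ hh
    rw [← Spec.map_comp, ← Spec.map_comp, ← CommRingCat.ofHom_comp, ← CommRingCat.ofHom_comp] at hh
    exact congrArg CommRingCat.Hom.hom (Spec.map_injective hh)
  rcases exists_chart_integral (V := V) i with ⟨φ, rfl, hx⟩ | ⟨φ, rfl, hx⟩
  · rw [Category.assoc, chart0_toSpec] at h
    obtain ⟨ψ, h1, h2⟩ := DC.lift_valuation (f0 c) ρ φ (key _ φ h) hx
    refine ⟨Spec.map (CommRingCat.ofHom ψ) ≫ chart0 R c, ?_, ?_⟩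
    · rw [← Category.assoc, ← Spec.map_comp, ← CommRingCat.ofHom_comp, h1]
    · rw [Category.assoc, chart0_toSpec, ← Spec.map_comp, ← CommRingCat.ofHom_comp, h2]
  · rw [Category.assoc, chart1_toSpec] at h
    obtain ⟨ψ, h1, h2⟩ := DC.lift_valuation (f1 c) ρ φ (key _ φ h) hx
    refine ⟨Spec.map (CommRingCat.ofHom ψ) ≫ chart1 R c, ?_, ?_⟩
    · rw [← Category.assoc, ← Spec.map_comp, ← CommRingCat.ofHom_comp, h1]
    · rw [Category.assoc, chart1_toSpec, ← Spec.map_comp, ← CommRingCat.ofHom_comp, h2]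
-- END SC5

-- BEGIN SC6
omit [IsDomain V] [ValuationRing V] in
theorem SC6_same {A : Type u} [CommRing A] {X : Scheme.{u}} (ι : Spec (.of A) ⟶ X) [Mono ι]
    (φ φ' : A →+* V)
    (h : Spec.map (CommRingCat.ofHom (algebraMap V K)) ≫ Spec.map (CommRingCat.ofHom φ) ≫ ι =
      Spec.map (CommRingCat.ofHom (algebraMap V K)) ≫ Spec.map (CommRingCat.ofHom φ') ≫ ι) :
    φ = φ' := by
  rw [← Category.assoc, ← Category.assoc, cancel_mono, ← Spec.map_comp, ← Spec.map_comp] at h
  have h1 := Spec.map_injective h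
  have h2 : (algebraMap V K).comp φ = (algebraMap V K).comp φ' := congrArg CommRingCat.Hom.hom h1
  ext a
  exact IsFractionRing.injective V K (RingHom.congr_fun h2 a)

omit [IsDomain V] [ValuationRing V] in
theorem SC6_mixed (φ : A0 c →+* V) (ψ : A1 c →+* V)
    (h : Spec.map (CommRingCat.ofHom (algebraMap V K)) ≫
        Spec.map (CommRingCat.ofHom φ) ≫ chart0 R c =
      Spec.map (CommRingCat.ofHom (algebraMap V K)) ≫
        Spec.map (CommRingCat.ofHom ψ) ≫ chart1 R c) :
    Spec.map (CommRingCat.ofHom φ) ≫ chart0 R c = Spec.map (CommRingCat.ofHom ψ) ≫ chart1 R c := by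
  have h1 : Spec.map (CommRingCat.ofHom ((algebraMap V K).comp φ)) ≫ chart0 R c =
      Spec.map (CommRingCat.ofHom ((algebraMap V K).comp ψ)) ≫ chart1 R c := by
    rw [CommRingCat.ofHom_comp, CommRingCat.ofHom_comp, Spec.map_comp, Spec.map_comp,
      Category.assoc, Category.assoc]
    exact h
  have h2 := mul_eq_one_of_charts _ _ h1
  rw [RingHom.comp_apply, RingHom.comp_apply, ← map_mul] at h2
  have h3 : φ (DC.x (f0 c)) * ψ (DC.x (f1 c)) = 1 := by
    apply IsFractionRing.injective V K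
    rw [h2, map_one]
  obtain ⟨φ', h4, -⟩ := chart0_to_chart1 φ (IsUnit.of_mul_eq_one _ h3)
  rw [h4] at h ⊢
  rw [SC6_same (chart1 R c) φ' ψ h]

/-- The uniqueness part of the valuative criterion (`factors_of_local`; in the mixed case
`mul_eq_one_of_charts` over `K`, hence over `V`, so `chart0_to_chart1` applies over `V`). -/
theorem curve_lift_unique (l l' : Spec (.of V) ⟶ curve R c)
    (h : Spec.map (CommRingCat.ofHom (algebraMap V K)) ≫ l =
      Spec.map (CommRingCat.ofHom (algebraMap V K)) ≫ l') : l = l' := by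
  rcases factors_of_local V l with ⟨φ, rfl⟩ | ⟨φ, rfl⟩ <;>
    rcases factors_of_local V l' with ⟨φ', rfl⟩ | ⟨φ', rfl⟩
  · rw [SC6_same (chart0 R c) φ φ' h]
  · exact SC6_mixed φ φ' h
  · exact (SC6_mixed φ' φ h.symm).symm
  · rw [SC6_same (chart1 R c) φ φ' h]
-- END SC6

end valuation

-- BEGIN SC7
/-- `IsProper.of_valuativeCriterion`, `ValuativeCriterion.iff`; locally of finite type by
`curve_iff`. -/
theorem curve_isProper' (R : Type u) [CommRing R] (c : R) : IsProper (toSpec R c) := by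
  have hfp : ∀ f : R[X], LocallyOfFiniteType
      (Spec.map (CommRingCat.ofHom (algebraMap R (DC f)))) := by
    intro f
    rw [HasRingHomProperty.Spec_iff (P := @LocallyOfFiniteType)]
    have h := finitePresentation_DC f
    exact RingHom.finiteType_algebraMap.mpr inferInstance
  have hft : LocallyOfFiniteType (toSpec R c) := by
    have hloc : IsZariskiLocalAtSource (@LocallyOfFiniteType : MorphismProperty Scheme.{u}) :=
      HasRingHomProperty.instIsZariskiLocalAtSource (P := @LocallyOfFiniteType)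
    rw [curve_iff R c (P := @LocallyOfFiniteType), chart0_toSpec, chart1_toSpec]
    exact ⟨hfp _, hfp _⟩
  refine IsProper.of_valuativeCriterion _ (ValuativeCriterion.iff.mpr ⟨fun S => ?_, fun S => ?_⟩)
  · obtain ⟨l, h1, h2⟩ := curve_exists_lift S.i₁ S.i₂ S.commSq.w
    exact ⟨⟨⟨l, h1, h2⟩⟩⟩
  · refine ⟨fun a b => ?_⟩
    have h : a.l = b.l := curve_lift_unique (V := S.R) (K := S.K) a.l b.l (a.fac_left.trans b.fac_left.symm)
    exact CommSq.LiftStruct.ext h
-- END SC7

end Pool.Agent.Lib.MP_211349_ag.Even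
end
end
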