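import Pool.Agent.Lib.MP_211349_ag.Defs
import Pool.Agent.Lib.MP_211349_ag.P2.Alg
import Pool.Agent.Lib.MP_211349_ag.Mg.G007

section

/-!
# The unit ball of an ultrametric field of characteristic `p`
-/

universe u

noncomputable section

namespace Pool.Agent.Lib.MP_211349_ag

variable {K : Type u} [NontriviallyNormedField K] [IsUltrametricDist K]

theorem mem_unitBall (a : K) :
    a ∈ (NormedField.valuation (K := K)).valuationSubring ↔ ‖a‖ ≤ 1 := by
  rw [Valuation.mem_valuationSubring_iff, NormedField.valuation_apply, ← NNReal.coe_le_coe]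
  simp

theorem mem_unitBall_nonunits (a : K) :
    a ∈ (NormedField.valuation (K := K)).valuationSubring.nonunits ↔ ‖a‖ < 1 := by
  rw [ValuationSubring.mem_nonunits_iff_or, mem_unitBall, norm_inv]
  constructor
  · rintro (rfl | h)
    · simp
    · by_contra h'
      exact h (inv_le_one_of_one_le₀ (not_lt.mp h'))
  · intro h
    by_cases ha : a = 0
    · exact Or.inl ha
    · right
      rw [not_le]
      exact (one_lt_inv₀ (norm_pos_iff.mpr ha)).mpr h

theorem isUnit_unitBall (a : (NormedField.valuation (K := K)).valuationSubring) :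
    IsUnit a ↔ ‖(a : K)‖ = 1 := by
  have h := mem_unitBall_nonunits (a : K)
  rw [ValuationSubring.coe_mem_nonunits_iff, IsLocalRing.mem_maximalIdeal, mem_nonunits_iff] at h
  have h1 := (mem_unitBall (a : K)).mp a.2
  constructor
  · intro hu
    exact le_antisymm h1 (not_lt.mp fun h' => (h.mpr h') hu)
  · intro h' 
    by_contra hu
    exact absurd (h.mp hu) (by rw [h']; exact lt_irrefl _)

theorem rankOne_unitBall : RankOne (NormedField.valuation (K := K)).valuationSubring := by
  refine ⟨?_, ?_⟩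
  · obtain ⟨x, hx0, hx1⟩ := NormedField.exists_norm_lt_one K
    refine ⟨⟨x, (mem_unitBall x).mpr hx1.le⟩, ?_, ?_⟩
    · intro h
      exact (norm_pos_iff.mp hx0) (congrArg Subtype.val h)
    · rw [isUnit_unitBall]
      exact hx1.ne
  · intro a b ha hb
    have hb0 : (b : K) ≠ 0 := fun h => hb (Subtype.ext h)
    have ha1 : ‖(a : K)‖ < 1 :=
      lt_of_le_of_ne ((mem_unitBall _).mp a.2) fun h => ha ((isUnit_unitBall a).mpr h)
    obtain ⟨n, hn⟩ := exists_pow_lt_of_lt_one (norm_pos_iff.mpr hb0) ha1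
    refine ⟨n, ⟨⟨(a : K) ^ n / b, (mem_unitBall _).mpr ?_⟩, ?_⟩⟩
    · rw [norm_div, norm_pow]
      exact (div_le_one (norm_pos_iff.mpr hb0)).mpr hn.le
    · apply Subtype.ext
      change (a : K) ^ n = b * ((a : K) ^ n / b)
      rw [mul_div_cancel₀ _ hb0]

/-- The algebraic closure of the prime field in `K`. -/
theorem algebraic_closure_facts [IsAlgClosed K] (p : ℕ) [Fact p.Prime] [CharP K p] :
    ∃ (F : Type u) (_ : Field F) (_ : IsAlgClosed F) (_ : Algebra F K)
      (_ : Algebra F (NormedField.valuation (K := K)).valuationSubring)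
      (_ : IsScalarTower F (NormedField.valuation (K := K)).valuationSubring K),
      ∀ c : K, (∃ n, 0 < n ∧ c ^ p ^ n = c) → ∃ a : F, algebraMap F K a = c := by
  let _ := ZMod.algebra K p
  let F := algebraicClosure (ZMod p) K
  have hF : ∀ a : F, (a : K) ∈ (NormedField.valuation (K := K)).valuationSubring := by
    intro a
    have ha : IsIntegral (ZMod p) (a : K) := by
      have := (algebraicClosure.isAlgebraic (F := ZMod p) (E := K)).isAlgebraic a
      exact (isAlgebraic_iff_isIntegral).mp (this.algebraMap (A := K))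
    obtain ⟨f, hf, hfa⟩ := ha
    have hint : IsIntegral (NormedField.valuation (K := K)).valuationSubring (a : K) := by
      let _ : Algebra (ZMod p) (NormedField.valuation (K := K)).valuationSubring :=
        have : CharP (NormedField.valuation (K := K)).valuationSubring p :=
          (CharP.charP_iff_prime_eq_zero (Fact.out : p.Prime)).mpr (by
            apply Subtype.ext
            simp)
        ZMod.algebra _ p
      refine ⟨f.map (algebraMap (ZMod p) _), hf.map _, ?_⟩
      have hcomp : (algebraMap (NormedField.valuation (K := K)).valuationSubring K).comp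
          (algebraMap (ZMod p) (NormedField.valuation (K := K)).valuationSubring) =
          algebraMap (ZMod p) K := RingHom.ext_zmod _ _
      rw [Polynomial.eval₂_map, hcomp]
      exact hfa
    obtain ⟨y, hy⟩ := (IsIntegrallyClosed.isIntegral_iff (R := (NormedField.valuation (K := K)).valuationSubring) (K := K)).mp hint
    rw [← hy]
    exact y.2
  have : IsAlgClosed F := (algebraicClosure.isAlgClosure (ZMod p) K).isAlgClosed
  let _ : Algebra F (NormedField.valuation (K := K)).valuationSubring :=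
    ((algebraMap F K).codRestrict (NormedField.valuation (K := K)).valuationSubring.toSubring hF).toAlgebra
  refine ⟨F, inferInstance, inferInstance, inferInstance, inferInstance,
    IsScalarTower.of_algebraMap_eq fun a => rfl, ?_⟩
  rintro c ⟨n, hn, hc⟩
  have hci : c ∈ algebraicClosure (ZMod p) K := by
    rw [mem_algebraicClosure_iff]
    refine ⟨Polynomial.X ^ p ^ n - Polynomial.X, ?_, ?_⟩
    · exact (Polynomial.monic_X_pow_sub (by
        rw [Polynomial.degree_X]
        have : 1 < p ^ n := Nat.one_lt_pow hn.ne' (Fact.out : p.Prime).one_lt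
        exact_mod_cast this)).ne_zero
    · simp [hc]
  exact ⟨⟨c, hci⟩, rfl⟩

end Pool.Agent.Lib.MP_211349_ag
end
end

section

/-!
# Base change of the curve
-/

open CategoryTheory Limits AlgebraicGeometry Polynomial

universe u

noncomputable section

namespace Pool.Agent.Lib.MP_211349_ag.Even

-- BEGIN SD1
theorem SD1_mem_range {U Y U' Y' : Scheme.{u}} {g : U ⟶ Y} {g' : U' ⟶ Y'} {e : U' ⟶ U}
    {b : Y' ⟶ Y} (hg : IsPullback g' e b g) (y : Y') (u : U) (h : b y = g u) :
    ∃ u', g' u' = y := by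
  obtain ⟨z, hz, -⟩ := Scheme.Pullback.exists_preimage_pullback (f := b) (g := g) y u h
  refine ⟨hg.isoPullback.inv z, ?_⟩
  rw [← Scheme.Hom.comp_apply, hg.isoPullback_inv_fst]
  exact hz

/-- Two charts: if the squares over the two legs are pullbacks then the preimages of the charts are
the charts. Use `IsOpenImmersion.isPullback` with `pushout_cover`, `pushout_inl_eq_inr_iff`: a point
`inr' y` is mapped into the range of `inl` iff `b y` is in the range of `g` iff `y` is in the range
of `g'` (`hg`) iff `inr' y` is in the range of `inl'`. -/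
theorem isPullback_pushout_inl {U X Y U' X' Y' : Scheme.{u}} (f : U ⟶ X) (g : U ⟶ Y)
    [IsOpenImmersion f] [IsOpenImmersion g] (f' : U' ⟶ X') (g' : U' ⟶ Y')
    [IsOpenImmersion f'] [IsOpenImmersion g'] (e : U' ⟶ U) (a : X' ⟶ X) (b : Y' ⟶ Y)
    (hf : f' ≫ a = e ≫ f) (hg : IsPullback g' e b g)
    (m : (pushout f' g' : Scheme.{u}) ⟶ pushout f g)
    (h0 : pushout.inl f' g' ≫ m = a ≫ pushout.inl f g)
    (h1 : pushout.inr f' g' ≫ m = b ≫ pushout.inr f g) :
    IsPullback a (pushout.inl f' g') (pushout.inl f g) m := by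
  refine IsOpenImmersion.isPullback _ _ _ _ h0 ?_
  ext z
  constructor
  · rintro ⟨x, hx⟩
    rcases pushout_cover f' g' z with ⟨x', rfl⟩ | ⟨y', rfl⟩
    · exact ⟨x', rfl⟩
    · rw [← Scheme.Hom.comp_apply, h1, Scheme.Hom.comp_apply] at hx
      obtain ⟨u, -, hu⟩ := (pushout_inl_eq_inr_iff f g _ _).mp hx
      obtain ⟨u', rfl⟩ := SD1_mem_range hg y' u hu.symm
      refine ⟨f' u', ?_⟩
      exact (pushout_inl_eq_inr_iff f' g' _ _).mpr ⟨u', rfl, rfl⟩
  · rintro ⟨x, rfl⟩
    refine ⟨a x, ?_⟩
    rw [← Scheme.Hom.comp_apply, ← h0, Scheme.Hom.comp_apply]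
-- END SD1

-- BEGIN SD2
theorem SD2_mem_range {U X U' X' : Scheme.{u}} {f : U ⟶ X} {f' : U' ⟶ X'} {e : U' ⟶ U}
    {a : X' ⟶ X} (hf : IsPullback f' e a f) (x : X') (u : U) (h : a x = f u) :
    ∃ u', f' u' = x := by
  obtain ⟨z, hz, -⟩ := Scheme.Pullback.exists_preimage_pullback (f := a) (g := f) x u h
  refine ⟨hf.isoPullback.inv z, ?_⟩
  rw [← Scheme.Hom.comp_apply, hf.isoPullback_inv_fst]
  exact hz

/-- The same for the other chart. -/
theorem isPullback_pushout_inr {U X Y U' X' Y' : Scheme.{u}} (f : U ⟶ X) (g : U ⟶ Y)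
    [IsOpenImmersion f] [IsOpenImmersion g] (f' : U' ⟶ X') (g' : U' ⟶ Y')
    [IsOpenImmersion f'] [IsOpenImmersion g'] (e : U' ⟶ U) (a : X' ⟶ X) (b : Y' ⟶ Y)
    (hf : IsPullback f' e a f) (hg : g' ≫ b = e ≫ g)
    (m : (pushout f' g' : Scheme.{u}) ⟶ pushout f g)
    (h0 : pushout.inl f' g' ≫ m = a ≫ pushout.inl f g)
    (h1 : pushout.inr f' g' ≫ m = b ≫ pushout.inr f g) :
    IsPullback b (pushout.inr f' g') (pushout.inr f g) m := by
  refine IsOpenImmersion.isPullback _ _ _ _ h1 ?_
  ext z
  constructor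
  · rintro ⟨y, hy⟩
    rcases pushout_cover f' g' z with ⟨x', rfl⟩ | ⟨y', rfl⟩
    · rw [← Scheme.Hom.comp_apply, h0, Scheme.Hom.comp_apply] at hy
      obtain ⟨u, hu, -⟩ := (pushout_inl_eq_inr_iff f g _ _).mp hy.symm
      obtain ⟨u', rfl⟩ := SD2_mem_range hf x' u hu.symm
      refine ⟨g' u', ?_⟩
      exact ((pushout_inl_eq_inr_iff f' g' _ _).mpr ⟨u', rfl, rfl⟩).symm
    · exact ⟨y', rfl⟩
  · rintro ⟨y, rfl⟩
    refine ⟨b y, ?_⟩
    rw [← Scheme.Hom.comp_apply, ← h1, Scheme.Hom.comp_apply]
-- END SD2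

variable {R T : Type u} [CommRing R] [CommRing T]

-- BEGIN SD3
theorem SD3_range {A B : Type u} [CommRing A] [CommRing B] (φ : A →+* B) (x : A)
    (h : @IsLocalization.Away A _ x B _ φ.toAlgebra) :
    Set.range (Spec.map (CommRingCat.ofHom φ)) = {p | x ∉ p.asIdeal} := by
  let _ := φ.toAlgebra
  exact PrimeSpectrum.localization_away_comap_range B x

theorem SD3_isPullback {A A' B B' : Type u} [CommRing A] [CommRing A'] [CommRing B] [CommRing B']
    (φ : A →+* B) (φ' : A' →+* B') (α : A →+* A') (β : B →+* B') (x : A)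
    (h1 : Set.range (Spec.map (CommRingCat.ofHom φ)) = {p | x ∉ p.asIdeal})
    (h2 : Set.range (Spec.map (CommRingCat.ofHom φ')) = {p | α x ∉ p.asIdeal})
    (hc : β.comp φ = φ'.comp α) [IsOpenImmersion (Spec.map (CommRingCat.ofHom φ))]
    [IsOpenImmersion (Spec.map (CommRingCat.ofHom φ'))] :
    IsPullback (Spec.map (CommRingCat.ofHom φ')) (Spec.map (CommRingCat.ofHom β))
      (Spec.map (CommRingCat.ofHom α)) (Spec.map (CommRingCat.ofHom φ)) := by
  refine (IsOpenImmersion.isPullback _ _ _ _ ?_ ?_).flip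
  · rw [← Spec.map_comp, ← Spec.map_comp, ← CommRingCat.ofHom_comp, ← CommRingCat.ofHom_comp, hc]
  · ext p
    change Spec.map (CommRingCat.ofHom α) p ∈ Set.range (Spec.map (CommRingCat.ofHom φ)) ↔
      p ∈ Set.range (Spec.map (CommRingCat.ofHom φ'))
    rw [h1, h2]
    rfl

/-- The intersection of the charts commutes with base change: the square of localizations is a
pullback (`Spec` of a pushout of rings; the localization at `x` of `A0` goes to the localization
at `x` of `A0 (φ c)`). -/
theorem isPullback_ov0 (φ : R →+* T) (c : R) :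
    IsPullback (ov0 T (φ c)) (Spec.map (CommRingCat.ofHom (Ov.map φ c)))
      (Spec.map (CommRingCat.ofHom (A0.map φ c))) (ov0 R c) := by
  have h1 : IsOpenImmersion (Spec.map (CommRingCat.ofHom (algebraMap (A0 c) (Ov c)))) :=
    inferInstanceAs (IsOpenImmersion (ov0 R c))
  have h2 : IsOpenImmersion (Spec.map (CommRingCat.ofHom (algebraMap (A0 (φ c)) (Ov (φ c))))) :=
    inferInstanceAs (IsOpenImmersion (ov0 T (φ c)))
  refine SD3_isPullback (algebraMap (A0 c) (Ov c)) (algebraMap (A0 (φ c)) (Ov (φ c)))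
    (A0.map φ c) (Ov.map φ c) (DC.x (f0 c))
    (PrimeSpectrum.localization_away_comap_range (Ov c) (DC.x (f0 c))) ?_
    (Ov.map_comp_algebraMap φ c)
  rw [A0.map, DC.map_x]
  exact PrimeSpectrum.localization_away_comap_range (Ov (φ c)) (DC.x (f0 (φ c)))
-- END SD3

-- BEGIN SD4
/-- The same for the second chart (`isLocalization_toOv`: the range of `ov1` is `D(t)`). -/
theorem isPullback_ov1 (φ : R →+* T) (c : R) :
    IsPullback (ov1 T (φ c)) (Spec.map (CommRingCat.ofHom (Ov.map φ c)))
      (Spec.map (CommRingCat.ofHom (A1.map φ c))) (ov1 R c) := by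
  have h1 : IsOpenImmersion (Spec.map (CommRingCat.ofHom (toOv c))) :=
    inferInstanceAs (IsOpenImmersion (ov1 R c))
  have h2 : IsOpenImmersion (Spec.map (CommRingCat.ofHom (toOv (φ c)))) :=
    inferInstanceAs (IsOpenImmersion (ov1 T (φ c)))
  refine SD3_isPullback (toOv c) (toOv (φ c))
    (A1.map φ c) (Ov.map φ c) (DC.x (f1 c)) (SD3_range _ _ (isLocalization_toOv c)) ?_
    (Ov.map_comp_toOv φ c)
  rw [A1.map, DC.map_x]
  exact SD3_range _ _ (isLocalization_toOv (φ c))
-- END SD4

/-- The base change morphism. -/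
def curveMap (φ : R →+* T) (c : R) : curve T (φ c) ⟶ curve R c :=
  curveDesc (Spec.map (CommRingCat.ofHom (A0.map φ c)) ≫ chart0 R c)
    (Spec.map (CommRingCat.ofHom (A1.map φ c)) ≫ chart1 R c) (by
      have h0 : ov0 T (φ c) ≫ Spec.map (CommRingCat.ofHom (A0.map φ c)) =
          Spec.map (CommRingCat.ofHom (Ov.map φ c)) ≫ ov0 R c := by
        rw [ov0, ov0, ← Spec.map_comp, ← Spec.map_comp, ← CommRingCat.ofHom_comp,
          ← CommRingCat.ofHom_comp, Ov.map_comp_algebraMap]
      have h1 : ov1 T (φ c) ≫ Spec.map (CommRingCat.ofHom (A1.map φ c)) =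
          Spec.map (CommRingCat.ofHom (Ov.map φ c)) ≫ ov1 R c := by
        rw [ov1, ov1, ← Spec.map_comp, ← Spec.map_comp, ← CommRingCat.ofHom_comp,
          ← CommRingCat.ofHom_comp, Ov.map_comp_toOv]
      rw [reassoc_of% h0, reassoc_of% h1, ov0_chart0])

-- BEGIN SD5
/-- The preimages of the charts are the charts (`isPullback_pushout_inl`,
`isPullback_pushout_inr`, `isPullback_ov0`, `isPullback_ov1`). -/
theorem isPullback_curveMap_chart0 (φ : R →+* T) (c : R) :
    IsPullback (Spec.map (CommRingCat.ofHom (A0.map φ c))) (chart0 T (φ c)) (chart0 R c)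
      (curveMap φ c) :=
  isPullback_pushout_inl (ov0 R c) (ov1 R c) (ov0 T (φ c)) (ov1 T (φ c))
    (Spec.map (CommRingCat.ofHom (Ov.map φ c))) (Spec.map (CommRingCat.ofHom (A0.map φ c)))
    (Spec.map (CommRingCat.ofHom (A1.map φ c))) (isPullback_ov0 φ c).w (isPullback_ov1 φ c)
    (curveMap φ c) (chart0_curveDesc _ _ _) (chart1_curveDesc _ _ _)

theorem isPullback_curveMap_chart1 (φ : R →+* T) (c : R) :
    IsPullback (Spec.map (CommRingCat.ofHom (A1.map φ c))) (chart1 T (φ c)) (chart1 R c)
      (curveMap φ c) :=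
  isPullback_pushout_inr (ov0 R c) (ov1 R c) (ov0 T (φ c)) (ov1 T (φ c))
    (Spec.map (CommRingCat.ofHom (Ov.map φ c))) (Spec.map (CommRingCat.ofHom (A0.map φ c)))
    (Spec.map (CommRingCat.ofHom (A1.map φ c))) (isPullback_ov0 φ c) (isPullback_ov1 φ c).w
    (curveMap φ c) (chart0_curveDesc _ _ _) (chart1_curveDesc _ _ _)
-- END SD5

-- BEGIN SD6
private theorem SD6_chart {X X0 W X0' Z Z' : Scheme.{u}} {a : X0' ⟶ X0} {i' : X0' ⟶ W}
    {i : X0 ⟶ X} {m : W ⟶ X} {p : W ⟶ Z'} {q : X ⟶ Z} {s : Z' ⟶ Z}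
    (h : IsPullback a i' i m) (h2 : IsPullback a (i' ≫ p) (i ≫ q) s) :
    IsPullback (pullback.snd m i) (pullback.fst m i ≫ p) (i ≫ q) s := by
  refine h2.of_iso h.flip.isoPullback (.refl _) (.refl _) (.refl _) ?_ ?_ ?_ ?_
  · simp
  · rw [Iso.refl_hom, Category.comp_id, ← Category.assoc, IsPullback.isoPullback_hom_fst]
  · simp
  · simp

private theorem SD6_push (φ : R →+* T) (f : R[X]) (g : T[X]) (h : f.map φ = g) :
    IsPullback (Spec.map (CommRingCat.ofHom (DC.map φ f g h)))
      (Spec.map (CommRingCat.ofHom (algebraMap T (DC g))))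
      (Spec.map (CommRingCat.ofHom (algebraMap R (DC f))))
      (Spec.map (CommRingCat.ofHom φ)) :=
  ((isPushout_DC φ f g h).op.map Scheme.Spec).flip

/-- Base change (`Scheme.isPullback_of_openCover` with `curveCover R c`,
`isPullback_curveMap_chart0`, `isPullback_curveMap_chart1`, `isPushout_DC`). -/
theorem isPullback_curveMap (φ : R →+* T) (c : R) :
    IsPullback (curveMap φ c) (toSpec T (φ c)) (toSpec R c) (Spec.map (CommRingCat.ofHom φ)) := by
  have h0 : IsPullback (Spec.map (CommRingCat.ofHom (A0.map φ c)))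
      (chart0 T (φ c) ≫ toSpec T (φ c)) (chart0 R c ≫ toSpec R c)
      (Spec.map (CommRingCat.ofHom φ)) := by
    rw [chart0_toSpec, chart0_toSpec]
    exact SD6_push φ _ _ _
  have h1 : IsPullback (Spec.map (CommRingCat.ofHom (A1.map φ c)))
      (chart1 T (φ c) ≫ toSpec T (φ c)) (chart1 R c ≫ toSpec R c)
      (Spec.map (CommRingCat.ofHom φ)) := by
    rw [chart1_toSpec, chart1_toSpec]
    exact SD6_push φ _ _ _
  refine Scheme.isPullback_of_openCover _ _ _ _ (curveCover R c) ?_
  rintro (_ | _)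
  · exact SD6_chart (isPullback_curveMap_chart1 φ c) h1
  · exact SD6_chart (isPullback_curveMap_chart0 φ c) h0
-- END SD6

end Pool.Agent.Lib.MP_211349_ag.Even
end
end

section

/-!
# The curve is smooth and integral
-/

open CategoryTheory Limits AlgebraicGeometry Polynomial

universe u

noncomputable section

namespace Pool.Agent.Lib.MP_211349_ag.Even

-- BEGIN SB1
/-- `curve_iff` for `P = @LocallyOfFinitePresentation`, `chart0_toSpec`, `chart1_toSpec`,
`finitePresentation_DC`, `HasRingHomProperty.Spec_iff`. -/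
instance curve_locallyOfFinitePresentation (R : Type u) [CommRing R] (c : R) :
    LocallyOfFinitePresentation (toSpec R c) := by
  have hP : IsZariskiLocalAtSource @LocallyOfFinitePresentation.{u} :=
    HasRingHomProperty.instIsZariskiLocalAtSource (P := @LocallyOfFinitePresentation.{u})
  rw [curve_iff R c (P := @LocallyOfFinitePresentation), chart0_toSpec, chart1_toSpec,
    LocallyOfFinitePresentation.SpecMap_iff, LocallyOfFinitePresentation.SpecMap_iff]
  exact ⟨RingHom.finitePresentation_algebraMap.2 (finitePresentation_DC (f0 c)),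
    RingHom.finitePresentation_algebraMap.2 (finitePresentation_DC (f1 c))⟩
-- END SB1

-- BEGIN SB2
/-- The curve is smooth over a ring of characteristic two if `c` is a unit. -/
theorem curve_smooth' (R : Type u) [CommRing R] (c : R) (h2 : (2 : R) = 0) (hc : IsUnit c) :
    Smooth (toSpec R c) := by
  have hP : IsZariskiLocalAtSource @Smooth.{u} :=
    HasRingHomProperty.instIsZariskiLocalAtSource (P := @Smooth.{u})
  rw [curve_iff R c (P := @Smooth), chart0_toSpec, chart1_toSpec,
    HasRingHomProperty.Spec_iff (P := @Smooth), HasRingHomProperty.Spec_iff (P := @Smooth)]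
  exact ⟨RingHom.smooth_algebraMap.2 ⟨formallySmooth_DC (f0 c) (jacobian_f0 c h2 hc),
      finitePresentation_DC (f0 c)⟩,
    RingHom.smooth_algebraMap.2 ⟨formallySmooth_DC (f1 c) (jacobian_f1 c h2),
      finitePresentation_DC (f1 c)⟩⟩
-- END SB2

-- BEGIN SB3
/-- A union of two irreducible open subspaces with a common point is irreducible. -/
theorem irreducibleSpace_of_charts {X : Type*} [TopologicalSpace X] {U V : Set X}
    (hU : IsOpen U) (hV : IsOpen V) (hU' : IsIrreducible U) (hV' : IsIrreducible V)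
    (h : U ∪ V = Set.univ) (h' : (U ∩ V).Nonempty) : IrreducibleSpace X := by
  have key : ∀ A : Set X, IsOpen A → A.Nonempty → (U ∩ A).Nonempty := by
    rintro A hA ⟨a, ha⟩
    have ha' : a ∈ U ∪ V := h ▸ Set.mem_univ a
    rcases ha' with haU | haV
    · exact ⟨a, haU, ha⟩
    · have h2 : (V ∩ U).Nonempty := by rwa [Set.inter_comm]
      obtain ⟨z, -, hz, hz'⟩ := hV'.2 U A hU hA h2 ⟨a, haV, ha⟩
      exact ⟨z, hz, hz'⟩
  have hne : Nonempty X := ⟨h'.some⟩
  have hpre : PreirreducibleSpace X := by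
    refine ⟨fun A B hA hB hA' hB' => ?_⟩
    rw [Set.univ_inter] at hA' hB' ⊢
    obtain ⟨z, -, hz⟩ := hU'.2 A B hA hB (key A hA hA') (key B hB hB')
    exact ⟨z, hz⟩
  exact { hpre with toNonempty := hne }
-- END SB3

-- BEGIN SB4
/-- The element `x` of the first chart is not zero. -/
private theorem SB4_x_ne_zero (K : Type u) [Field K] (c : K) : DC.x (f0 c) ≠ 0 := by
  intro h
  have h1 := of_injective_DC (f0 c) (a₁ := X) (a₂ := 0) (by rw [map_zero]; exact h)
  exact X_ne_zero h1

/-- Reduced by `isReduced_of_isOpenImmersion`/`IsReduced.of_openCover (curveCover K c)` from the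
domains `A0 c`, `A1 c`; irreducible by `irreducibleSpace_of_charts` (a point of `Spec (Ov c)`:
`Ov c` is a nontrivial localization of a domain at the nonzero element `x`). Then
`isIntegral_of_irreducibleSpace_of_isReduced`. -/
theorem curve_isIntegral' (K : Type u) [Field K] (c : K) (hc : c ≠ 0) :
    IsIntegral (curve K c) := by
  have hd0 : IsDomain (A0 c) := isDomain_A0 c
  have hd1 : IsDomain (A1 c) := isDomain_A1 c hc
  have hred : IsReduced (curve K c) := by
    have : ∀ i, IsReduced ((curveCover K c).X i) := by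
      rintro (_ | _)
      · change IsReduced (Spec (.of (A1 c)))
        infer_instance
      · change IsReduced (Spec (.of (A0 c)))
        infer_instance
    exact IsReduced.of_openCover _ (curveCover K c)
  have hirr : IrreducibleSpace ↥(curve K c) := by
    refine irreducibleSpace_of_charts (U := Set.range (chart0 K c)) (V := Set.range (chart1 K c))
      (chart0 K c).isOpenEmbedding.isOpen_range (chart1 K c).isOpenEmbedding.isOpen_range ?_ ?_ ?_ ?_
    · have h1 : IrreducibleSpace (Spec (.of (A0 c))) :=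
        inferInstanceAs (IrreducibleSpace (PrimeSpectrum (A0 c)))
      rw [← Set.image_univ]
      exact (IrreducibleSpace.isIrreducible_univ _).image _ (chart0 K c).continuous.continuousOn
    · have h1 : IrreducibleSpace (Spec (.of (A1 c))) :=
        inferInstanceAs (IrreducibleSpace (PrimeSpectrum (A1 c)))
      rw [← Set.image_univ]
      exact (IrreducibleSpace.isIrreducible_univ _).image _ (chart1 K c).continuous.continuousOn
    · refine Set.eq_univ_of_forall fun z => ?_
      rcases chart_cover K c z with ⟨x, hx⟩ | ⟨x, hx⟩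
      · exact Or.inl ⟨x, hx⟩
      · exact Or.inr ⟨x, hx⟩
    · have hnt : Nontrivial (Ov c) := by
        by_contra hcon
        rw [not_nontrivial_iff_subsingleton,
          IsLocalization.subsingleton_iff (M := Submonoid.powers (DC.x (f0 c)))] at hcon
        obtain ⟨n, hn⟩ := hcon
        have hn' : DC.x (f0 c) ^ n = 0 := hn
        exact pow_ne_zero n (SB4_x_ne_zero K c) hn'
      obtain ⟨z⟩ : Nonempty (Spec (.of (Ov c))) :=
        inferInstanceAs (Nonempty (PrimeSpectrum (Ov c)))
      refine ⟨chart0 K c (ov0 K c z), ⟨_, rfl⟩, ⟨ov1 K c z, ?_⟩⟩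
      have h2 : (ov0 K c ≫ chart0 K c) z = (ov1 K c ≫ chart1 K c) z := by rw [ov0_chart0]
      simpa using h2.symm
  exact isIntegral_of_irreducibleSpace_of_isReduced _
-- END SB4

end Pool.Agent.Lib.MP_211349_ag.Even
end
end

section

/-!
# Functions on the finite étale coverings of the curve
-/

open CategoryTheory Limits AlgebraicGeometry Polynomial

universe u

noncomputable section

namespace Pool.Agent.Lib.MP_211349_ag.Even

-- BEGIN SE1
/-- Algebra: `x = ι (β x)`, `y = ι (β y)`. `K[X] → A0 c → B → L` is injective (`of_injective_DC`), so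
`x` is transcendental; `B` is integral over `K[x]` (`finite_DC`, `β` finite), so every
`z = ι a / ι b` is algebraic over `K[x]`. -/
theorem functions_alg {K B L : Type u} [Field K] [CommRing B] [IsDomain B] [Field L] (c : K)
    (hc : c ≠ 0) (β : A0 c →+* B) (hβ : Function.Injective β) (hfin : β.Finite)
    (ι : B →+* L) (hι : Function.Injective ι)
    (hfrac : ∀ z : L, ∃ a b : B, b ≠ 0 ∧ z * ι b = ι a) (κ : K →+* L)
    (hκ : κ = ι.comp (β.comp (algebraMap K (A0 c)))) :
    letI := κ.toAlgebra
    ∃ x y : L, y ^ 2 + y = x ^ 3 + algebraMap K L c * (x⁻¹) ^ 3 ∧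
      Transcendental K x ∧ Algebra.IsAlgebraic (Algebra.adjoin K {x}) L := by
  let _ := κ.toAlgebra
  set ω : K[X] →+* A0 c := AdjoinRoot.of _ with hω
  have hωinj : Function.Injective ω := of_injective_DC (f0 c)
  set ψ : K[X] →+* L := (ι.comp β).comp ω with hψ
  have hψinj : Function.Injective ψ := hι.comp (hβ.comp hωinj)
  have hC : ∀ a : K, algebraMap K L a = ψ (C a) := by
    intro a
    rw [show algebraMap K L a = κ a from rfl, hκ]
    rfl
  have haeval : ∀ p : K[X], aeval (ψ X) p = ψ p := by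
    have h1 : ((aeval (ψ X) : K[X] →ₐ[K] L) : K[X] →+* L) = ψ := by
      apply Polynomial.ringHom_ext
      · intro a
        rw [← hC a]
        simp
      · simp
    intro p
    exact congrArg (fun F : K[X] →+* L => F p) h1
  have hx0 : ψ X ≠ 0 := by
    rw [Ne, map_eq_zero_iff ψ hψinj]
    exact X_ne_zero
  refine ⟨ψ X, ι (β (DC.y (f0 c))) * ((ψ X)⁻¹) ^ 2, ?_, ?_, ?_⟩
  · have h1 : ι (β (DC.y (f0 c))) ^ 2 + ψ X ^ 2 * ι (β (DC.y (f0 c))) =
        ψ X ^ 7 + algebraMap K L c * ψ X := by
      rw [hC c]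
      have h2 := congrArg (fun z => ι (β z)) (DC.y_sq (f0 c))
      simp only [map_add, map_mul, map_pow] at h2
      exact h2.trans (map_f0 ψ c)
    have h3 : (ι (β (DC.y (f0 c))) * ((ψ X)⁻¹) ^ 2) ^ 2 + ι (β (DC.y (f0 c))) * ((ψ X)⁻¹) ^ 2 =
        (ι (β (DC.y (f0 c))) ^ 2 + ψ X ^ 2 * ι (β (DC.y (f0 c)))) * ((ψ X)⁻¹) ^ 4 := by
      field_simp
    rw [h3, h1]
    field_simp
  · rw [transcendental_iff_injective]
    intro p q hpq
    rw [haeval, haeval] at hpq
    exact hψinj hpq
  · have hωfin : ω.Finite := by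
      have h1 : (algebraMap K[X] (DC (f0 c))).Finite :=
        RingHom.finite_algebraMap.mpr (finite_DC (f0 c))
      rwa [show algebraMap K[X] (DC (f0 c)) = ω from AdjoinRoot.algebraMap_eq _] at h1
    have hfin' : (β.comp ω).Finite := hfin.comp hωfin
    have hint : ∀ a : B, (β.comp ω).IsIntegralElem a := fun a => hfin'.to_isIntegral a
    have hmem : ∀ p : K[X], ψ p ∈ Algebra.adjoin K {ψ X} := by
      intro p
      rw [← haeval p]
      exact aeval_mem_adjoin_singleton _ _
    let θ : K[X] →+* Algebra.adjoin K {ψ X} := ψ.codRestrict _ hmem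
    have hθ : (algebraMap (Algebra.adjoin K {ψ X}) L).comp θ = ψ := by
      ext <;> rfl
    have hintL : ∀ a : B, IsIntegral (Algebra.adjoin K {ψ X}) (ι a) := by
      intro a
      obtain ⟨p, hp, hp0⟩ := hint a
      refine ⟨p.map θ, hp.map θ, ?_⟩
      rw [eval₂_map, hθ]
      have h2 := congrArg ι hp0
      rw [hom_eval₂, map_zero] at h2
      exact h2
    refine ⟨fun z => ?_⟩
    obtain ⟨a, b, hb, hz⟩ := hfrac z
    have hb' : ι b ≠ 0 := by
      rw [Ne, map_eq_zero_iff ι hι]
      exact hb
    have hz' : z = ι a * (ι b)⁻¹ := by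
      rw [← hz, mul_assoc, mul_inv_cancel₀ hb', mul_one]
    rw [hz']
    exact (hintL a).isAlgebraic.mul (hintL b).isAlgebraic.inv
-- END SE1

-- BEGIN SE2
/-- A finite étale morphism from a nonempty scheme to the (irreducible) curve meets the first
chart: étale morphisms are open maps, and nonempty open subsets of the curve meet
(`curve_isIntegral'`). -/
theorem nonempty_preimage_chart0 (K : Type u) [Field K] (c : K) (hc : c ≠ 0) {C' : Scheme.{u}}
    [Nonempty C'] (π : C' ⟶ curve K c) [Etale π] :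
    Nonempty ↥(pullback π (chart0 K c)) := by
  have hint := curve_isIntegral' K c hc
  have hdom := isDomain_A0 c
  have hne : Nonempty ↥(Spec (.of (A0 c))) := inferInstanceAs (Nonempty (PrimeSpectrum (A0 c)))
  have hopen : IsOpenMap π := by
    have : UniversallyOpen π := inferInstance
    exact π.isOpenMap
  have h1 : IsOpen (Set.range π) := hopen.isOpen_range
  have h2 : IsOpen (Set.range (chart0 K c)) := (chart0 K c).isOpenEmbedding.isOpen_range
  obtain ⟨z, ⟨a, ha⟩, ⟨b, hb⟩⟩ := nonempty_preirreducible_inter h1 h2 (Set.range_nonempty _)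
    (Set.range_nonempty _)
  obtain ⟨w, -, -⟩ := Scheme.Pullback.exists_preimage_pullback a b (ha.trans hb.symm)
  exact ⟨w⟩
-- END SE2

-- BEGIN SE3
theorem SE3_flat_injective {A B : Type u} [CommRing A] [IsDomain A] [CommRing B] [Nontrivial B]
    (β : A →+* B) (h : β.Flat) : Function.Injective β := by
  let _ := β.toAlgebra
  have : Module.Flat A B := h
  rw [injective_iff_map_eq_zero]
  intro a ha
  by_contra hne
  have h1 : IsSMulRegular B a :=
    Module.Flat.isSMulRegular_of_isRegular (IsRegular.of_ne_zero hne)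
  have h2 : a • (1 : B) = a • (0 : B) := by
    rw [smul_zero, Algebra.smul_def, mul_one]
    exact ha
  exact one_ne_zero (h1 h2)

theorem SE3_main {A : Type u} [CommRing A] [IsDomain A] {C' P : Scheme.{u}} [IsIntegral C']
    (i : P ⟶ C') [IsOpenImmersion i] [Nonempty ↥P] (p : P ⟶ Spec (.of A)) [IsFinite p] [Flat p] :
    ∃ (B : Type u) (_ : CommRing B) (_ : IsDomain B) (β : A →+* B)
      (ι : B →+* C'.functionField), Function.Injective β ∧ β.Finite ∧ Function.Injective ι ∧
      (∀ z : C'.functionField, ∃ a b : B, b ≠ 0 ∧ z * ι b = ι a) ∧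
      ∀ {S : Type u} [CommRing S] (g : C' ⟶ Spec (.of S)) (κ : S →+* A)
        (_ : i ≫ g = p ≫ Spec.map (CommRingCat.ofHom κ)),
        toFunctionField g = ι.comp (β.comp κ) := by
  have hP : IsIntegral P := isIntegral_of_isOpenImmersion i
  have hA : IsAffine P := isAffine_of_isAffineHom p
  have hne : Nonempty (⊤ : P.Opens) := ⟨⟨Classical.arbitrary _, trivial⟩⟩
  have hne' : Nonempty (i ''ᵁ (⊤ : P.Opens) : C'.Opens) :=
    ⟨⟨i (Classical.arbitrary _), ⟨_, trivial, rfl⟩⟩⟩
  have haff : IsAffineOpen (i ''ᵁ (⊤ : P.Opens)) := (isAffineOpen_top P).image_of_isOpenImmersion i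
  refine ⟨Γ(P, ⊤), inferInstance, inferInstance,
    p.appTop.hom.comp (Scheme.ΓSpecIso (.of A)).inv.hom,
    (C'.germToFunctionField (i ''ᵁ (⊤ : P.Opens))).hom.comp (i.appIso ⊤).inv.hom, ?_, ?_, ?_, ?_, ?_⟩
  · apply SE3_flat_injective
    exact RingHom.Flat.comp (RingHom.Flat.of_bijective
      (ConcreteCategory.bijective_of_isIso (Scheme.ΓSpecIso (.of A)).inv)) p.flat_appTop
  · exact RingHom.Finite.comp (p.finite_app ⊤ (isAffineOpen_top _))
      (RingHom.Finite.of_surjective _
        (ConcreteCategory.bijective_of_isIso (Scheme.ΓSpecIso (.of A)).inv).surjective)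
  · exact (C'.germToFunctionField_injective (i ''ᵁ (⊤ : P.Opens))).comp
      (ConcreteCategory.bijective_of_isIso (i.appIso ⊤).inv).injective
  · intro z
    have := functionField_isFractionRing_of_isAffineOpen C' (i ''ᵁ (⊤ : P.Opens)) haff
    obtain ⟨⟨a, b⟩, h⟩ := IsLocalization.surj (nonZeroDivisors Γ(C', i ''ᵁ (⊤ : P.Opens))) z
    have h3 : ∀ t, (i.appIso ⊤).inv.hom ((i.appIso ⊤).hom.hom t) = t := fun t => by
      have := congrArg (fun f => f.hom t) (i.appIso ⊤).hom_inv_id
      exact this
    refine ⟨(i.appIso ⊤).hom.hom a, (i.appIso ⊤).hom.hom (b : Γ(C', i ''ᵁ (⊤ : P.Opens))), ?_, ?_⟩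
    · intro h0
      have h2 := congrArg (i.appIso ⊤).inv.hom h0
      rw [h3, map_zero] at h2
      exact nonZeroDivisors.ne_zero b.2 h2
    · rw [RingHom.comp_apply, RingHom.comp_apply, h3, h3]
      exact h
  · intro S _ g κ h
    have h1 : g.appTop ≫ i.appTop = (Spec.map (CommRingCat.ofHom κ)).appTop ≫ p.appTop := by
      rw [← Scheme.Hom.comp_appTop, ← Scheme.Hom.comp_appTop, h]
    have h2 : (Scheme.ΓSpecIso (.of S)).inv ≫ (Spec.map (CommRingCat.ofHom κ)).appTop =
        CommRingCat.ofHom κ ≫ (Scheme.ΓSpecIso (.of A)).inv :=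
      (Scheme.ΓSpecIso_inv_naturality _).symm
    have h3 : i.appTop ≫ (i.appIso ⊤).inv = C'.presheaf.map (homOfLE le_top).op :=
      Scheme.Hom.app_appIso_inv i ⊤
    have h4 : C'.presheaf.germ ⊤ (genericPoint C') trivial =
        C'.presheaf.map (homOfLE (le_top : i ''ᵁ (⊤ : P.Opens) ≤ ⊤)).op ≫
          C'.germToFunctionField (i ''ᵁ (⊤ : P.Opens)) :=
      (TopCat.Presheaf.germ_res _ _ _ _).symm
    have h5 : CommRingCat.ofHom (toFunctionField g) =
        (Scheme.ΓSpecIso (.of S)).inv ≫ g.appTop ≫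
          C'.presheaf.germ ⊤ (genericPoint C') trivial := rfl
    have h6 : (Scheme.ΓSpecIso (.of S)).inv ≫ g.appTop ≫
          C'.presheaf.germ ⊤ (genericPoint C') trivial =
        CommRingCat.ofHom κ ≫ (Scheme.ΓSpecIso (.of A)).inv ≫ p.appTop ≫ (i.appIso ⊤).inv ≫
          C'.germToFunctionField (i ''ᵁ (⊤ : P.Opens)) := by
      rw [h4, ← h3, Category.assoc, reassoc_of% h1, reassoc_of% h2]
    have h7 := congrArg CommRingCat.Hom.hom (h5.trans h6)
    exact h7

/-- The ring of functions on the preimage of the first chart: `P := pullback π (chart0 K c)` is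
affine and integral, `p₂ : P → Spec A0` is finite and flat with nonempty source, `A0` is a domain,
so `A0 → B := Γ(P, ⊤)` is finite and injective; `P → C'` is an open immersion, so `Γ(P, ⊤)` is
`Γ(C', W)` for an affine open `W`, and `C'.functionField` is its fraction field
(`functionField_isFractionRing_of_isAffineOpen`). -/
theorem exists_chart_ring (K : Type u) [Field K] (c : K) (hc : c ≠ 0) {C' : Scheme.{u}}
    [IsIntegral C'] (π : C' ⟶ curve K c) [IsFinite π] [Etale π] :
    ∃ (B : Type u) (_ : CommRing B) (_ : IsDomain B) (β : A0 c →+* B)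
      (ι : B →+* C'.functionField), Function.Injective β ∧ β.Finite ∧ Function.Injective ι ∧
      (∀ z : C'.functionField, ∃ a b : B, b ≠ 0 ∧ z * ι b = ι a) ∧
      toFunctionField (π ≫ toSpec K c) = ι.comp (β.comp (algebraMap K (A0 c))) := by
  have h0 : Nonempty ↥(pullback π (chart0 K c)) := nonempty_preimage_chart0 K c hc π
  have h1 : IsDomain (A0 c) := isDomain_A0 c
  have h2 : IsOpenImmersion (pullback.fst π (chart0 K c)) := inferInstance
  have h3 : IsFinite (pullback.snd π (chart0 K c)) := inferInstance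
  have h4 : Flat (pullback.snd π (chart0 K c)) := inferInstance
  obtain ⟨B, i1, i2, β, ι, hβ, hfin, hι, hfrac, h⟩ :=
    SE3_main (pullback.fst π (chart0 K c)) (pullback.snd π (chart0 K c))
  refine ⟨B, i1, i2, β, ι, hβ, hfin, hι, hfrac, h _ _ ?_⟩
  rw [← chart0_toSpec, pullback.condition_assoc]
-- END SE3

theorem curve_functions' (K : Type u) [Field K] (c : K) (hc : c ≠ 0) {C' : Scheme.{u}}
    [IsIntegral C'] (π : C' ⟶ curve K c) [IsFinite π] [Etale π] :
    letI := (toFunctionField (π ≫ toSpec K c)).toAlgebra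
    ∃ x y : C'.functionField, y ^ 2 + y = x ^ 3 + algebraMap K C'.functionField c * (x⁻¹) ^ 3 ∧
      Transcendental K x ∧ Algebra.IsAlgebraic (Algebra.adjoin K {x}) C'.functionField := by
  obtain ⟨B, _, _, β, ι, hβ, hfin, hι, hfrac, hκ⟩ := exists_chart_ring K c hc π
  exact functions_alg c hc β hβ hfin ι hι hfrac _ hκ

end Pool.Agent.Lib.MP_211349_ag.Even
end
end
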