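import Pool.Agent.Lib.MP_211349_ag.Curve
import Pool.Agent.Lib.MP_211349_ag.Mg.G003
import Pool.Agent.Lib.MP_211349_ag.S.Alg

section

/-!
# The two charts of the curve
-/

open CategoryTheory Limits AlgebraicGeometry Polynomial

universe u

noncomputable section

namespace Pool.Agent.Lib.MP_211349_ag

variable (R : Type u) [CommRing R] (c : R)

/-- The chart `y² = x (x² - 1) (1 - c x²)`. -/
def chart0 : Spec (.of (A0 c)) ⟶ curve R c := pushout.inl _ _

/-- The chart `w² = t (1 - t²) (t² - c)`. -/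
def chart1 : Spec (.of (A1 c)) ⟶ curve R c := pushout.inr _ _

instance : IsOpenImmersion (chart0 R c) := isOpenImmersion_pushout_inl _ _

instance : IsOpenImmersion (chart1 R c) := isOpenImmersion_pushout_inr _ _

theorem ov0_chart0 : ov0 R c ≫ chart0 R c = ov1 R c ≫ chart1 R c := pushout.condition

theorem isPullback_charts : IsPullback (ov0 R c) (ov1 R c) (chart0 R c) (chart1 R c) :=
  isPullback_pushout _ _

theorem chart_cover (z : ↥(curve R c)) : (∃ x, chart0 R c x = z) ∨ ∃ y, chart1 R c y = z :=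
  pushout_cover _ _ z

theorem chart_opensRange_sup : (chart0 R c).opensRange ⊔ (chart1 R c).opensRange = ⊤ :=
  pushout_opensRange_sup _ _

theorem chart_opensRange_inf : (chart0 R c).opensRange ⊓ (chart1 R c).opensRange =
    (ov0 R c ≫ chart0 R c).opensRange :=
  pushout_opensRange_inf _ _

theorem chart0_toSpec :
    chart0 R c ≫ toSpec R c = Spec.map (CommRingCat.ofHom (algebraMap R (A0 c))) :=
  pushout.inl_desc _ _ _

theorem chart1_toSpec :
    chart1 R c ≫ toSpec R c = Spec.map (CommRingCat.ofHom (algebraMap R (A1 c))) :=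
  pushout.inr_desc _ _ _

variable {R c} in
theorem curve_hom_ext {Z : Scheme.{u}} {f g : curve R c ⟶ Z}
    (h0 : chart0 R c ≫ f = chart0 R c ≫ g) (h1 : chart1 R c ≫ f = chart1 R c ≫ g) : f = g :=
  pushout.hom_ext h0 h1

variable {R c} in
/-- Morphisms out of the curve. -/
def curveDesc {Z : Scheme.{u}} (f : Spec (.of (A0 c)) ⟶ Z) (g : Spec (.of (A1 c)) ⟶ Z)
    (h : ov0 R c ≫ f = ov1 R c ≫ g) : curve R c ⟶ Z :=
  pushout.desc f g h

variable {R c} in
theorem chart0_curveDesc {Z : Scheme.{u}} (f : Spec (.of (A0 c)) ⟶ Z)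
    (g : Spec (.of (A1 c)) ⟶ Z) (h : ov0 R c ≫ f = ov1 R c ≫ g) :
    chart0 R c ≫ curveDesc f g h = f :=
  pushout.inl_desc _ _ _

variable {R c} in
theorem chart1_curveDesc {Z : Scheme.{u}} (f : Spec (.of (A0 c)) ⟶ Z)
    (g : Spec (.of (A1 c)) ⟶ Z) (h : ov0 R c ≫ f = ov1 R c ≫ g) :
    chart1 R c ≫ curveDesc f g h = g :=
  pushout.inr_desc _ _ _

/-- The covering of the curve by its two charts. -/
def curveCover : (curve R c).OpenCover :=
  Scheme.Cover.mkOfCovers Bool
    (fun b => if b then Spec (.of (A0 c)) else Spec (.of (A1 c)))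
    (fun b => match b with
      | true => chart0 R c
      | false => chart1 R c)
    (fun z => by
      rcases chart_cover R c z with ⟨x, hx⟩ | ⟨x, hx⟩
      · exact ⟨true, x, hx⟩
      · exact ⟨false, x, hx⟩)
    (fun b => match b with
      | true => inferInstanceAs (IsOpenImmersion (chart0 R c))
      | false => inferInstanceAs (IsOpenImmersion (chart1 R c)))

/-- A property of morphisms which is Zariski local at the source holds for a morphism out of
the curve if and only if it holds on both charts. -/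
theorem curve_iff {P : MorphismProperty Scheme.{u}} [IsZariskiLocalAtSource P] {Z : Scheme.{u}}
    (f : curve R c ⟶ Z) : P f ↔ P (chart0 R c ≫ f) ∧ P (chart1 R c ≫ f) := by
  rw [IsZariskiLocalAtSource.iff_of_openCover (P := P) (curveCover R c)]
  constructor
  · intro h
    exact ⟨h true, h false⟩
  · rintro ⟨h0, h1⟩ (_ | _)
    · exact h1
    · exact h0

instance curve_compactSpace : CompactSpace ↥(curve R c) := by
  rw [← isCompact_univ_iff]
  have : (Set.univ : Set ↥(curve R c)) = Set.range (chart0 R c) ∪ Set.range (chart1 R c) := by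
    refine (Set.eq_univ_of_forall fun z => ?_).symm
    rcases chart_cover R c z with ⟨x, hx⟩ | ⟨x, hx⟩
    · exact Or.inl ⟨x, hx⟩
    · exact Or.inr ⟨x, hx⟩
  rw [this]
  exact (isCompact_range (chart0 R c).continuous).union
    (isCompact_range (chart1 R c).continuous)

instance curve_quasiSeparatedSpace : QuasiSeparatedSpace ↥(curve R c) := by
  refine Scheme.quasiSeparatedSpace_of_isOpenCover
    (fun b : Bool => if b then (chart0 R c).opensRange else (chart1 R c).opensRange) ?_ ?_ ?_
  · rw [TopologicalSpace.IsOpenCover, iSup_bool_eq]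
    simpa using chart_opensRange_sup R c
  · rintro (_ | _)
    · exact isAffineOpen_opensRange (chart1 R c)
    · exact isAffineOpen_opensRange (chart0 R c)
  · have h0 : IsCompact (((chart0 R c).opensRange ⊓ (chart1 R c).opensRange :
        (curve R c).Opens) : Set ↥(curve R c)) := by
      rw [chart_opensRange_inf]
      exact (isAffineOpen_opensRange (ov0 R c ≫ chart0 R c)).isCompact
    rintro (_ | _) (_ | _)
    · simpa using (isAffineOpen_opensRange (chart1 R c)).isCompact
    · rw [inf_comm] at h0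
      exact h0
    · exact h0
    · simpa using (isAffineOpen_opensRange (chart0 R c)).isCompact

instance : QuasiCompact (toSpec R c) := inferInstance

instance : QuasiSeparated (toSpec R c) := inferInstance

end Pool.Agent.Lib.MP_211349_ag
end
end

section

/-!
# Base change of the curve
-/

open CategoryTheory Limits AlgebraicGeometry Polynomial

universe u

noncomputable section

namespace Pool.Agent.Lib.MP_211349_ag

-- BEGIN SD1
theorem SD1_mem_range {U Y U' Y' : Scheme.{u}} {g : U ⟶ Y} {g' : U' ⟶ Y'} {e : U' ⟶ U}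
    {b : Y' ⟶ Y} (hg : IsPullback g' e b g) (y : Y') (u : U) (h : b y = g u) :
    ∃ u', g' u' = y := by
  obtain ⟨z, hz, -⟩ := Scheme.Pullback.exists_preimage_pullback (f := b) (g := g) y u h
  refine ⟨hg.isoPullback.inv z, ?_⟩
  rw [← Scheme.Hom.comp_apply, hg.isoPullback_inv_fst]
  exact hz

/-- Two charts: if the squares over the two legs are pullbacks then the preimages of the charts are
the charts. Use `IsOpenImmersion.isPullback` with `pushout_cover`, `pushout_inl_eq_inr_iff`: a point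
`inr' y` is mapped into the range of `inl` iff `b y` is in the range of `g` iff `y` is in the range
of `g'` (`hg`) iff `inr' y` is in the range of `inl'`. -/
theorem isPullback_pushout_inl {U X Y U' X' Y' : Scheme.{u}} (f : U ⟶ X) (g : U ⟶ Y)
    [IsOpenImmersion f] [IsOpenImmersion g] (f' : U' ⟶ X') (g' : U' ⟶ Y')
    [IsOpenImmersion f'] [IsOpenImmersion g'] (e : U' ⟶ U) (a : X' ⟶ X) (b : Y' ⟶ Y)
    (hf : f' ≫ a = e ≫ f) (hg : IsPullback g' e b g)
    (m : (pushout f' g' : Scheme.{u}) ⟶ pushout f g)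
    (h0 : pushout.inl f' g' ≫ m = a ≫ pushout.inl f g)
    (h1 : pushout.inr f' g' ≫ m = b ≫ pushout.inr f g) :
    IsPullback a (pushout.inl f' g') (pushout.inl f g) m := by
  refine IsOpenImmersion.isPullback _ _ _ _ h0 ?_
  ext z
  constructor
  · rintro ⟨x, hx⟩
    rcases pushout_cover f' g' z with ⟨x', rfl⟩ | ⟨y', rfl⟩
    · exact ⟨x', rfl⟩
    · rw [← Scheme.Hom.comp_apply, h1, Scheme.Hom.comp_apply] at hx
      obtain ⟨u, -, hu⟩ := (pushout_inl_eq_inr_iff f g _ _).mp hx
      obtain ⟨u', rfl⟩ := SD1_mem_range hg y' u hu.symm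
      refine ⟨f' u', ?_⟩
      exact (pushout_inl_eq_inr_iff f' g' _ _).mpr ⟨u', rfl, rfl⟩
  · rintro ⟨x, rfl⟩
    refine ⟨a x, ?_⟩
    rw [← Scheme.Hom.comp_apply, ← h0, Scheme.Hom.comp_apply]
-- END SD1

-- BEGIN SD2
theorem SD2_mem_range {U X U' X' : Scheme.{u}} {f : U ⟶ X} {f' : U' ⟶ X'} {e : U' ⟶ U}
    {a : X' ⟶ X} (hf : IsPullback f' e a f) (x : X') (u : U) (h : a x = f u) :
    ∃ u', f' u' = x := by
  obtain ⟨z, hz, -⟩ := Scheme.Pullback.exists_preimage_pullback (f := a) (g := f) x u h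
  refine ⟨hf.isoPullback.inv z, ?_⟩
  rw [← Scheme.Hom.comp_apply, hf.isoPullback_inv_fst]
  exact hz

/-- The same for the other chart. -/
theorem isPullback_pushout_inr {U X Y U' X' Y' : Scheme.{u}} (f : U ⟶ X) (g : U ⟶ Y)
    [IsOpenImmersion f] [IsOpenImmersion g] (f' : U' ⟶ X') (g' : U' ⟶ Y')
    [IsOpenImmersion f'] [IsOpenImmersion g'] (e : U' ⟶ U) (a : X' ⟶ X) (b : Y' ⟶ Y)
    (hf : IsPullback f' e a f) (hg : g' ≫ b = e ≫ g)
    (m : (pushout f' g' : Scheme.{u}) ⟶ pushout f g)
    (h0 : pushout.inl f' g' ≫ m = a ≫ pushout.inl f g)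
    (h1 : pushout.inr f' g' ≫ m = b ≫ pushout.inr f g) :
    IsPullback b (pushout.inr f' g') (pushout.inr f g) m := by
  refine IsOpenImmersion.isPullback _ _ _ _ h1 ?_
  ext z
  constructor
  · rintro ⟨y, hy⟩
    rcases pushout_cover f' g' z with ⟨x', rfl⟩ | ⟨y', rfl⟩
    · rw [← Scheme.Hom.comp_apply, h0, Scheme.Hom.comp_apply] at hy
      obtain ⟨u, hu, -⟩ := (pushout_inl_eq_inr_iff f g _ _).mp hy.symm
      obtain ⟨u', rfl⟩ := SD2_mem_range hf x' u hu.symm
      refine ⟨g' u', ?_⟩
      exact ((pushout_inl_eq_inr_iff f' g' _ _).mpr ⟨u', rfl, rfl⟩).symm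
    · exact ⟨y', rfl⟩
  · rintro ⟨y, rfl⟩
    refine ⟨b y, ?_⟩
    rw [← Scheme.Hom.comp_apply, ← h1, Scheme.Hom.comp_apply]
-- END SD2

variable {R T : Type u} [CommRing R] [CommRing T]

-- BEGIN SD3
theorem SD3_range {A B : Type u} [CommRing A] [CommRing B] (φ : A →+* B) (x : A)
    (h : @IsLocalization.Away A _ x B _ φ.toAlgebra) :
    Set.range (Spec.map (CommRingCat.ofHom φ)) = {p | x ∉ p.asIdeal} := by
  let _ := φ.toAlgebra
  exact PrimeSpectrum.localization_away_comap_range B x

theorem SD3_isPullback {A A' B B' : Type u} [CommRing A] [CommRing A'] [CommRing B] [CommRing B']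
    (φ : A →+* B) (φ' : A' →+* B') (α : A →+* A') (β : B →+* B') (x : A)
    (h1 : Set.range (Spec.map (CommRingCat.ofHom φ)) = {p | x ∉ p.asIdeal})
    (h2 : Set.range (Spec.map (CommRingCat.ofHom φ')) = {p | α x ∉ p.asIdeal})
    (hc : β.comp φ = φ'.comp α) [IsOpenImmersion (Spec.map (CommRingCat.ofHom φ))]
    [IsOpenImmersion (Spec.map (CommRingCat.ofHom φ'))] :
    IsPullback (Spec.map (CommRingCat.ofHom φ')) (Spec.map (CommRingCat.ofHom β))
      (Spec.map (CommRingCat.ofHom α)) (Spec.map (CommRingCat.ofHom φ)) := by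
  refine (IsOpenImmersion.isPullback _ _ _ _ ?_ ?_).flip
  · rw [← Spec.map_comp, ← Spec.map_comp, ← CommRingCat.ofHom_comp, ← CommRingCat.ofHom_comp, hc]
  · ext p
    change Spec.map (CommRingCat.ofHom α) p ∈ Set.range (Spec.map (CommRingCat.ofHom φ)) ↔
      p ∈ Set.range (Spec.map (CommRingCat.ofHom φ'))
    rw [h1, h2]
    rfl

/-- The intersection of the charts commutes with base change: the square of localizations is a
pullback (`Spec` of a pushout of rings; the localization at `x` of `A0` goes to the localization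
at `x` of `A0 (φ c)`). -/
theorem isPullback_ov0 (φ : R →+* T) (c : R) :
    IsPullback (ov0 T (φ c)) (Spec.map (CommRingCat.ofHom (Ov.map φ c)))
      (Spec.map (CommRingCat.ofHom (A0.map φ c))) (ov0 R c) := by
  have h1 : IsOpenImmersion (Spec.map (CommRingCat.ofHom (algebraMap (A0 c) (Ov c)))) :=
    inferInstanceAs (IsOpenImmersion (ov0 R c))
  have h2 : IsOpenImmersion (Spec.map (CommRingCat.ofHom (algebraMap (A0 (φ c)) (Ov (φ c))))) :=
    inferInstanceAs (IsOpenImmersion (ov0 T (φ c)))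
  refine SD3_isPullback (algebraMap (A0 c) (Ov c)) (algebraMap (A0 (φ c)) (Ov (φ c)))
    (A0.map φ c) (Ov.map φ c) (DC.x (f0 c))
    (PrimeSpectrum.localization_away_comap_range (Ov c) (DC.x (f0 c))) ?_
    (Ov.map_comp_algebraMap φ c)
  rw [A0.map, DC.map_x]
  exact PrimeSpectrum.localization_away_comap_range (Ov (φ c)) (DC.x (f0 (φ c)))
-- END SD3

-- BEGIN SD4
/-- The same for the second chart (`isLocalization_toOv`: the range of `ov1` is `D(t)`). -/
theorem isPullback_ov1 (φ : R →+* T) (c : R) :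
    IsPullback (ov1 T (φ c)) (Spec.map (CommRingCat.ofHom (Ov.map φ c)))
      (Spec.map (CommRingCat.ofHom (A1.map φ c))) (ov1 R c) := by
  have h1 : IsOpenImmersion (Spec.map (CommRingCat.ofHom (toOv c))) :=
    inferInstanceAs (IsOpenImmersion (ov1 R c))
  have h2 : IsOpenImmersion (Spec.map (CommRingCat.ofHom (toOv (φ c)))) :=
    inferInstanceAs (IsOpenImmersion (ov1 T (φ c)))
  refine SD3_isPullback (toOv c) (toOv (φ c))
    (A1.map φ c) (Ov.map φ c) (DC.x (f1 c)) (SD3_range _ _ (isLocalization_toOv c)) ?_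
    (Ov.map_comp_toOv φ c)
  rw [A1.map, DC.map_x]
  exact SD3_range _ _ (isLocalization_toOv (φ c))
-- END SD4

/-- The base change morphism. -/
def curveMap (φ : R →+* T) (c : R) : curve T (φ c) ⟶ curve R c :=
  curveDesc (Spec.map (CommRingCat.ofHom (A0.map φ c)) ≫ chart0 R c)
    (Spec.map (CommRingCat.ofHom (A1.map φ c)) ≫ chart1 R c) (by
      have h0 : ov0 T (φ c) ≫ Spec.map (CommRingCat.ofHom (A0.map φ c)) =
          Spec.map (CommRingCat.ofHom (Ov.map φ c)) ≫ ov0 R c := by
        rw [ov0, ov0, ← Spec.map_comp, ← Spec.map_comp, ← CommRingCat.ofHom_comp,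
          ← CommRingCat.ofHom_comp, Ov.map_comp_algebraMap]
      have h1 : ov1 T (φ c) ≫ Spec.map (CommRingCat.ofHom (A1.map φ c)) =
          Spec.map (CommRingCat.ofHom (Ov.map φ c)) ≫ ov1 R c := by
        rw [ov1, ov1, ← Spec.map_comp, ← Spec.map_comp, ← CommRingCat.ofHom_comp,
          ← CommRingCat.ofHom_comp, Ov.map_comp_toOv]
      rw [reassoc_of% h0, reassoc_of% h1, ov0_chart0])

-- BEGIN SD5
/-- The preimages of the charts are the charts (`isPullback_pushout_inl`,
`isPullback_pushout_inr`, `isPullback_ov0`, `isPullback_ov1`). -/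
theorem isPullback_curveMap_chart0 (φ : R →+* T) (c : R) :
    IsPullback (Spec.map (CommRingCat.ofHom (A0.map φ c))) (chart0 T (φ c)) (chart0 R c)
      (curveMap φ c) :=
  isPullback_pushout_inl (ov0 R c) (ov1 R c) (ov0 T (φ c)) (ov1 T (φ c))
    (Spec.map (CommRingCat.ofHom (Ov.map φ c))) (Spec.map (CommRingCat.ofHom (A0.map φ c)))
    (Spec.map (CommRingCat.ofHom (A1.map φ c))) (isPullback_ov0 φ c).w (isPullback_ov1 φ c)
    (curveMap φ c) (chart0_curveDesc _ _ _) (chart1_curveDesc _ _ _)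

theorem isPullback_curveMap_chart1 (φ : R →+* T) (c : R) :
    IsPullback (Spec.map (CommRingCat.ofHom (A1.map φ c))) (chart1 T (φ c)) (chart1 R c)
      (curveMap φ c) :=
  isPullback_pushout_inr (ov0 R c) (ov1 R c) (ov0 T (φ c)) (ov1 T (φ c))
    (Spec.map (CommRingCat.ofHom (Ov.map φ c))) (Spec.map (CommRingCat.ofHom (A0.map φ c)))
    (Spec.map (CommRingCat.ofHom (A1.map φ c))) (isPullback_ov0 φ c) (isPullback_ov1 φ c).w
    (curveMap φ c) (chart0_curveDesc _ _ _) (chart1_curveDesc _ _ _)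
-- END SD5

-- BEGIN SD6
private theorem SD6_chart {X X0 W X0' Z Z' : Scheme.{u}} {a : X0' ⟶ X0} {i' : X0' ⟶ W}
    {i : X0 ⟶ X} {m : W ⟶ X} {p : W ⟶ Z'} {q : X ⟶ Z} {s : Z' ⟶ Z}
    (h : IsPullback a i' i m) (h2 : IsPullback a (i' ≫ p) (i ≫ q) s) :
    IsPullback (pullback.snd m i) (pullback.fst m i ≫ p) (i ≫ q) s := by
  refine h2.of_iso h.flip.isoPullback (.refl _) (.refl _) (.refl _) ?_ ?_ ?_ ?_
  · simp
  · rw [Iso.refl_hom, Category.comp_id, ← Category.assoc, IsPullback.isoPullback_hom_fst]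
  · simp
  · simp

private theorem SD6_push (φ : R →+* T) (f : R[X]) (g : T[X]) (h : f.map φ = g) :
    IsPullback (Spec.map (CommRingCat.ofHom (DC.map φ f g h)))
      (Spec.map (CommRingCat.ofHom (algebraMap T (DC g))))
      (Spec.map (CommRingCat.ofHom (algebraMap R (DC f))))
      (Spec.map (CommRingCat.ofHom φ)) :=
  ((isPushout_DC φ f g h).op.map Scheme.Spec).flip

/-- Base change (`Scheme.isPullback_of_openCover` with `curveCover R c`,
`isPullback_curveMap_chart0`, `isPullback_curveMap_chart1`, `isPushout_DC`). -/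
theorem isPullback_curveMap (φ : R →+* T) (c : R) :
    IsPullback (curveMap φ c) (toSpec T (φ c)) (toSpec R c) (Spec.map (CommRingCat.ofHom φ)) := by
  have h0 : IsPullback (Spec.map (CommRingCat.ofHom (A0.map φ c)))
      (chart0 T (φ c) ≫ toSpec T (φ c)) (chart0 R c ≫ toSpec R c)
      (Spec.map (CommRingCat.ofHom φ)) := by
    rw [chart0_toSpec, chart0_toSpec]
    exact SD6_push φ _ _ _
  have h1 : IsPullback (Spec.map (CommRingCat.ofHom (A1.map φ c)))
      (chart1 T (φ c) ≫ toSpec T (φ c)) (chart1 R c ≫ toSpec R c)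
      (Spec.map (CommRingCat.ofHom φ)) := by
    rw [chart1_toSpec, chart1_toSpec]
    exact SD6_push φ _ _ _
  refine Scheme.isPullback_of_openCover _ _ _ _ (curveCover R c) ?_
  rintro (_ | _)
  · exact SD6_chart (isPullback_curveMap_chart1 φ c) h1
  · exact SD6_chart (isPullback_curveMap_chart0 φ c) h0
-- END SD6

end Pool.Agent.Lib.MP_211349_ag
end
end
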