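import Mathlib

section

/-!
# The curve `y² = x³ - x` has no rational parametrization
-/

open Polynomial

universe u

noncomputable section

namespace Pool.Agent.Lib.MP_211349_ag

variable {k : Type u} [Field k] [IsAlgClosed k]

-- BEGIN E1
/-- (E1) Over an algebraically closed field, coprime factors of a square of a polynomial are
squares. (`exists_associated_pow_of_mul_eq_pow`; units of `k[X]` are constants, hence squares.) -/
theorem isSquare_of_coprime_mul {p q : k[X]} (h : IsCoprime p q) (hs : IsSquare (p * q)) :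
    IsSquare p ∧ IsSquare q := by
  classical
  have key : ∀ a b : k[X], IsCoprime a b → IsSquare (a * b) → IsSquare a := by
    intro a b hab hsq
    obtain ⟨s, hs⟩ := hsq
    let _ : GCDMonoid k[X] := EuclideanDomain.gcdMonoid k[X]
    have h1 : a * b = s ^ 2 := by rw [hs, sq]
    obtain ⟨d, ⟨w, hw⟩⟩ := exists_associated_pow_of_mul_eq_pow' hab h1
    obtain ⟨c, hc, hcw⟩ := Polynomial.isUnit_iff.1 w.isUnit
    obtain ⟨e, he⟩ := IsAlgClosed.exists_eq_mul_self c
    refine ⟨d * C e, ?_⟩
    rw [← hw, ← hcw, he, C_mul]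
    ring
  refine ⟨key p q h hs, key q p h.symm ?_⟩
  rw [mul_comm]
  exact hs
-- END E1

-- BEGIN E2
omit [IsAlgClosed k] in
private theorem E2_coprime_sub_add (h2 : (2 : k) ≠ 0) {u v : k[X]} (h : IsCoprime u v) :
    IsCoprime (u - v) (u + v) := by
  obtain ⟨a, b, hab⟩ := h
  refine ⟨C (2⁻¹ : k) * (a - b), C (2⁻¹ : k) * (a + b), ?_⟩
  have h1 : C (2⁻¹ : k) * 2 = (1 : k[X]) := by
    rw [show (2 : k[X]) = C (2 : k) from (C_ofNat 2).symm, ← C_mul, inv_mul_cancel₀ h2, C_1]
  linear_combination (C (2⁻¹ : k) * 2) * hab + h1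

private theorem E2_isSquare_C (c : k) : IsSquare (C c : k[X]) := by
  obtain ⟨e, he⟩ := IsAlgClosed.exists_eq_mul_self c
  exact ⟨C e, by rw [he, C_mul]⟩

/-- (E2) If `p, q` are coprime and `p, q, p - q, p + q` are squares then `p, q` are constant.
Proof by strong induction on `max (natDegree p) (natDegree q)`: let `p = u²`, `q = v²`,
`i² = -1`. Then `p - q = (u - v)(u + v)` and `p + q = (u - i v)(u + i v)` with coprime factors (use
`2 ≠ 0` and that `u, v` are coprime), so `u - v, u + v, u - i v, u + i v` are squares by (E1). Put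
`p' = u - v` and `q' = i (u + v)`; then `p', q'` are coprime squares (`i` is a square),
`p' - q' = (1 - i) (u - i v)`... and `p' + q' = (1 + i) (u + i v)` up to checking the constants
(`p' - q' = (1 - i) u - (1 + i) v = (1 - i)(u - i v)` since `(1 + i)/(1 - i) = i`), constants are
squares, so the hypotheses hold for `p', q'`, whose degrees are at most half of the maximum. If the
maximum `m` is positive this is smaller, so `p', q'` are constant by induction, hence `u, v` and
`p, q` are constant. -/
theorem four_squares_const (h2 : (2 : k) ≠ 0) (p q : k[X]) (h : IsCoprime p q)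
    (hp : IsSquare p) (hq : IsSquare q) (hs : IsSquare (p - q)) (ha : IsSquare (p + q)) :
    p.natDegree = 0 ∧ q.natDegree = 0 := by
  obtain ⟨m, hm⟩ : ∃ m, m = max p.natDegree q.natDegree := ⟨_, rfl⟩
  induction m using Nat.strong_induction_on generalizing p q with
  | _ m ih =>
    rcases Nat.eq_zero_or_pos m with h0 | hpos
    · rw [h0] at hm
      have h1 := le_max_left p.natDegree q.natDegree
      have h3 := le_max_right p.natDegree q.natDegree
      omega
    obtain ⟨u, rfl⟩ := hp
    obtain ⟨v, rfl⟩ := hq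
    obtain ⟨i, hi⟩ := IsAlgClosed.exists_eq_mul_self (-1 : k)
    have hiC : C i * C i = (-1 : k[X]) := by
      rw [← C_mul, ← hi, C_neg, C_1]
    have huv : IsCoprime u v := (h.of_mul_left_left).of_mul_right_left
    have hi0 : i ≠ 0 := by
      rintro rfl
      rw [mul_zero, neg_eq_zero] at hi
      exact one_ne_zero hi
    have huiv : IsCoprime u (C i * v) := by
      have hu : IsUnit (C i : k[X]) := Polynomial.isUnit_C.2 (isUnit_iff_ne_zero.2 hi0)
      exact (isCoprime_mul_unit_left_right hu u v).2 huv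
    have e1 : u * u - v * v = (u - v) * (u + v) := by ring
    have e2 : u * u + v * v = (u - C i * v) * (u + C i * v) := by
      linear_combination (v * v) * hiC
    rw [e1] at hs
    rw [e2] at ha
    obtain ⟨s1, s2⟩ := isSquare_of_coprime_mul (E2_coprime_sub_add h2 huv) hs
    obtain ⟨s3, s4⟩ := isSquare_of_coprime_mul (E2_coprime_sub_add h2 huiv) ha
    have hdeg : max (u - v).natDegree (C i * (u + v)).natDegree < m := by
      have d1 : (u * u).natDegree = u.natDegree + u.natDegree := by
        rw [← sq, natDegree_pow]; ring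
      have d2 : (v * v).natDegree = v.natDegree + v.natDegree := by
        rw [← sq, natDegree_pow]; ring
      have d3 : (u - v).natDegree ≤ max u.natDegree v.natDegree := natDegree_sub_le _ _
      have d4 : (C i * (u + v)).natDegree ≤ max u.natDegree v.natDegree :=
        (natDegree_C_mul_le _ _).trans (natDegree_add_le _ _)
      rw [d1, d2] at hm
      omega
    obtain ⟨c1, c2⟩ := ih _ hdeg (u - v) (C i * (u + v))
      ((isCoprime_mul_unit_left_right (Polynomial.isUnit_C.2 (isUnit_iff_ne_zero.2 hi0)) _ _).2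
        (E2_coprime_sub_add h2 huv)) s1 ((E2_isSquare_C i).mul s2)
      (by
        have : u - v - C i * (u + v) = C (1 - i) * (u - C i * v) := by
          rw [C_sub, C_1]
          linear_combination (-v) * hiC
        rw [this]
        exact (E2_isSquare_C _).mul s3)
      (by
        have : u - v + C i * (u + v) = C (1 + i) * (u + C i * v) := by
          rw [C_add, C_1]
          linear_combination (-v) * hiC
        rw [this]
        exact (E2_isSquare_C _).mul s4) rfl
    rw [natDegree_C_mul hi0] at c2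
    have hu0 : u.natDegree = 0 := by
      have h1 : C (2 : k) * u = (u - v) + (u + v) := by
        rw [C_ofNat]; ring
      have h3 : (C (2 : k) * u).natDegree ≤ 0 := by
        rw [h1]
        refine (natDegree_add_le _ _).trans ?_
        rw [c1, c2]; simp
      rw [natDegree_C_mul h2] at h3
      omega
    have hv0 : v.natDegree = 0 := by
      have h1 : C (2 : k) * v = (u + v) - (u - v) := by
        rw [C_ofNat]; ring
      have h3 : (C (2 : k) * v).natDegree ≤ 0 := by
        rw [h1]
        refine (natDegree_sub_le _ _).trans ?_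
        rw [c1, c2]; simp
      rw [natDegree_C_mul h2] at h3
      omega
    rw [← sq, ← sq, natDegree_pow, natDegree_pow, hu0, hv0]
    simp
-- END E2

-- BEGIN E3
omit [IsAlgClosed k] in
private theorem E3_coprime_sub_add (h2 : (2 : k) ≠ 0) {u v : k[X]} (h : IsCoprime u v) :
    IsCoprime (u - v) (u + v) := by
  obtain ⟨a, b, hab⟩ := h
  refine ⟨C (2⁻¹ : k) * (a - b), C (2⁻¹ : k) * (a + b), ?_⟩
  have h1 : C (2⁻¹ : k) * 2 = (1 : k[X]) := by
    rw [show (2 : k[X]) = C (2 : k) from (C_ofNat 2).symm, ← C_mul, inv_mul_cancel₀ h2, C_1]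
  linear_combination (C (2⁻¹ : k) * 2) * hab + h1

/-- (E3) Polynomial form: if `p, q` are coprime and `p q (p - q) (p + q)` is a square, then `p, q`
are constant. (The four factors are pairwise coprime since `2 ≠ 0`; use (E1) and (E2).) -/
theorem product_square_const (h2 : (2 : k) ≠ 0) (p q : k[X]) (h : IsCoprime p q)
    (hs : IsSquare (p * q * (p - q) * (p + q))) :
    p.natDegree = 0 ∧ q.natDegree = 0 := by
  obtain ⟨a, b, hab⟩ := h
  have c1 : IsCoprime p (p + q) := ⟨a - b, b, by linear_combination hab⟩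
  have c2 : IsCoprime q (p + q) := ⟨b - a, a, by linear_combination hab⟩
  have c3 : IsCoprime p (p - q) := ⟨a + b, -b, by linear_combination hab⟩
  have c4 : IsCoprime q (p - q) := ⟨a + b, a, by linear_combination hab⟩
  have c5 : IsCoprime (p - q) (p + q) := E3_coprime_sub_add h2 ⟨a, b, hab⟩
  obtain ⟨s1, s2⟩ := isSquare_of_coprime_mul ((c1.mul_left c2).mul_left c5) hs
  obtain ⟨s3, s4⟩ := isSquare_of_coprime_mul (c3.mul_left c4) s1
  obtain ⟨s5, s6⟩ := isSquare_of_coprime_mul ⟨a, b, hab⟩ s3
  exact four_squares_const h2 p q ⟨a, b, hab⟩ s5 s6 s4 s2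
-- END E3

-- BEGIN E4
/-- (E4) The curve `y² = x³ - x` has no nonconstant point over the rational function field. Write
`X = p / q` with coprime `p, q` (`RatFunc.num`, `RatFunc.denom`, or `IsFractionRing` /
`IsLocalization.mk'` ), then `(Y q²)² = p q (p - q) (p + q)`; `Y q²` is integral over `k[X]`, hence a
polynomial; apply (E3). -/
theorem ratFunc_no_param (h2 : (2 : k) ≠ 0) (X Y : RatFunc k) (h : Y ^ 2 = X ^ 3 - X) :
    ∃ a : k, X = RatFunc.C a := by
  set p : k[X] := X.num with hp
  set q : k[X] := X.denom with hq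
  have hq0 : q ≠ 0 := X.denom_ne_zero
  have hqR : algebraMap k[X] (RatFunc k) q ≠ 0 := by
    rw [Ne, map_eq_zero_iff _ (IsFractionRing.injective k[X] (RatFunc k))]
    exact hq0
  have hX : X = algebraMap k[X] (RatFunc k) p / algebraMap k[X] (RatFunc k) q :=
    (RatFunc.num_div_denom X).symm
  have hcop : IsCoprime p q := RatFunc.isCoprime_num_denom X
  set z : RatFunc k := Y * algebraMap k[X] (RatFunc k) q ^ 2 with hz
  have hz2 : z ^ 2 = algebraMap k[X] (RatFunc k) (p * q * (p - q) * (p + q)) := by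
    rw [hz, mul_pow, h]
    rw [map_mul, map_mul, map_mul, map_sub, map_add, hX]
    field_simp
    ring
  have hint : IsIntegral k[X] z := by
    refine IsIntegral.of_pow (n := 2) (by norm_num) ?_
    rw [hz2]
    exact isIntegral_algebraMap
  obtain ⟨r, hr⟩ := IsIntegrallyClosed.isIntegral_iff.1 hint
  have hsq : IsSquare (p * q * (p - q) * (p + q)) := by
    refine ⟨r, ?_⟩
    apply IsFractionRing.injective k[X] (RatFunc k)
    rw [← hz2, map_mul, hr, sq]
  obtain ⟨hp0, hq0'⟩ := product_square_const h2 p q hcop hsq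
  rw [hX, Polynomial.eq_C_of_natDegree_eq_zero hp0, Polynomial.eq_C_of_natDegree_eq_zero hq0']
  refine ⟨p.coeff 0 / q.coeff 0, ?_⟩
  rw [RatFunc.algebraMap_C, RatFunc.algebraMap_C, map_div₀]
-- END E4

end Pool.Agent.Lib.MP_211349_ag
end
end

section

/-!
# The curve `Y² + Y = X³` has no rational parametrization
-/

open Polynomial

universe u

noncomputable section

namespace Pool.Agent.Lib.MP_211349_ag

variable {k : Type u} [Field k] [IsAlgClosed k]

/-- an associate of a cube is a cube -/
theorem cube_of_associated {p a : k[X]} (h : Associated (a ^ 3) p) : ∃ b, p = b ^ 3 ∧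
    Associated a b := by
  obtain ⟨w, hw⟩ := h
  obtain ⟨c, hc, hcw⟩ := Polynomial.isUnit_iff.1 w.isUnit
  obtain ⟨e, he⟩ := IsAlgClosed.exists_pow_nat_eq c (n := 3) (by norm_num)
  have he0 : e ≠ 0 := by
    rintro rfl
    rw [zero_pow (by norm_num)] at he
    exact hc.ne_zero he.symm
  refine ⟨a * C e, ?_, ?_⟩
  · rw [← hw, ← hcw, ← he, C_pow]
    ring
  · exact (associated_mul_unit_right a (C e) (isUnit_C.2 (isUnit_iff_ne_zero.2 he0)))

theorem cubes_of_coprime {p q r : k[X]} (h : IsCoprime p q) (hr : p * q = r ^ 3) :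
    (∃ a, p = a ^ 3) ∧ ∃ b, q = b ^ 3 := by
  classical
  have key : ∀ a b : k[X], IsCoprime a b → a * b = r ^ 3 → ∃ c, a = c ^ 3 := by
    intro a b hab hs
    let _ : GCDMonoid k[X] := EuclideanDomain.gcdMonoid k[X]
    obtain ⟨d, hd⟩ := exists_associated_pow_of_mul_eq_pow' hab hs
    obtain ⟨c, hc, _⟩ := cube_of_associated hd
    exact ⟨c, hc⟩
  exact ⟨key p q h hr, key q p h.symm (by rw [mul_comm]; exact hr)⟩

/-- The curve `Y² + Y = X³` is not rational, in characteristic different from `3`. -/
theorem ratFunc_no_param2 (h3 : (3 : k) ≠ 0) (X Y : RatFunc k) (h : Y ^ 2 + Y = X ^ 3) :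
    ∃ a : k, X = RatFunc.C a := by
  set p : k[X] := Y.num with hp
  set q : k[X] := Y.denom with hq
  set r : k[X] := X.num with hr
  set s : k[X] := X.denom with hs
  have hq0 : q ≠ 0 := Y.denom_ne_zero
  have hs0 : s ≠ 0 := X.denom_ne_zero
  have hinj : Function.Injective (algebraMap k[X] (RatFunc k)) :=
    IsFractionRing.injective k[X] (RatFunc k)
  have hqR : algebraMap k[X] (RatFunc k) q ≠ 0 := by
    rw [Ne, map_eq_zero_iff _ hinj]
    exact hq0
  have hsR : algebraMap k[X] (RatFunc k) s ≠ 0 := by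
    rw [Ne, map_eq_zero_iff _ hinj]
    exact hs0
  have hY : Y = algebraMap k[X] (RatFunc k) p / algebraMap k[X] (RatFunc k) q :=
    (RatFunc.num_div_denom Y).symm
  have hX : X = algebraMap k[X] (RatFunc k) r / algebraMap k[X] (RatFunc k) s :=
    (RatFunc.num_div_denom X).symm
  have hpq : IsCoprime p q := RatFunc.isCoprime_num_denom Y
  have hrs : IsCoprime r s := RatFunc.isCoprime_num_denom X
  have h1 : p * (p + q) * s ^ 3 = r ^ 3 * q ^ 2 := by
    apply hinj
    rw [hX, hY] at h
    simp only [map_mul, map_pow, map_add]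
    field_simp at h
    linear_combination h
  have hppq : IsCoprime p (p + q) := by
    obtain ⟨a, b, hab⟩ := hpq
    exact ⟨a - b, b, by linear_combination hab⟩
  have hqpq : IsCoprime q (p + q) := by
    obtain ⟨a, b, hab⟩ := hpq
    exact ⟨b - a, a, by linear_combination hab⟩
  have h2 : s ^ 3 ∣ q ^ 2 := by
    have : IsCoprime (s ^ 3) (r ^ 3) := hrs.symm.pow
    exact this.dvd_of_dvd_mul_left ⟨p * (p + q), by rw [← h1]; ring⟩
  have h4 : q ^ 2 ∣ s ^ 3 := by
    have : IsCoprime (q ^ 2) (p * (p + q)) := (hpq.symm.mul_right hqpq).pow_left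
    exact this.dvd_of_dvd_mul_left ⟨r ^ 3, by rw [h1]; ring⟩
  have h5 : Associated (s ^ 3) (q ^ 2) := associated_of_dvd_dvd h2 h4
  have h6 : s ∣ q := by
    have : s ^ 2 ∣ q ^ 2 := (pow_dvd_pow s (by norm_num)).trans h2
    exact (IsIntegrallyClosed.pow_dvd_pow_iff (by norm_num)).1 this
  obtain ⟨d, hd⟩ := h6
  have h7 : Associated s (d ^ 2) := by
    have h8 : Associated (s ^ 2 * s) (s ^ 2 * d ^ 2) := by
      have e1 : s ^ 2 * s = s ^ 3 := by ring
      have e2 : s ^ 2 * d ^ 2 = q ^ 2 := by rw [hd]; ring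
      rw [e1, e2]
      exact h5
    exact (Associated.of_mul_left h8 (Associated.refl _) (pow_ne_zero 2 hs0))
  have h8 : Associated (d ^ 3) q := by
    rw [hd]
    have e1 : d ^ 3 = d ^ 2 * d := by ring
    rw [e1]
    exact h7.symm.mul_right d
  obtain ⟨D, hD, hdD⟩ := cube_of_associated h8
  have hD0 : D ≠ 0 := by
    rintro rfl
    exact hq0 (by rw [hD]; ring)
  have h9 : Associated (r ^ 3) (p * (p + q)) := by
    obtain ⟨w, hw⟩ := h5
    refine ⟨w, ?_⟩
    have e1 : (r ^ 3 * w) * s ^ 3 = (p * (p + q)) * s ^ 3 := by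
      rw [h1, ← hw]; ring
    exact mul_right_cancel₀ (pow_ne_zero 3 hs0) e1
  obtain ⟨ρ, hρ, hrρ⟩ := cube_of_associated h9
  obtain ⟨⟨A, hA⟩, ⟨B, hB⟩⟩ := cubes_of_coprime hppq hρ
  have hdeg : ρ.natDegree = 0 → D.natDegree = 0 → ∃ a : k, X = RatFunc.C a := by
    intro hρ0 hDd
    have hr0 : r.natDegree = 0 := by
      rw [← hρ0]
      exact natDegree_eq_of_degree_eq (degree_eq_degree_of_associated hrρ)
    have hs1 : s.natDegree = 0 := by
      have e1 := natDegree_eq_of_degree_eq (degree_eq_degree_of_associated h7)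
      have e2 := natDegree_eq_of_degree_eq (degree_eq_degree_of_associated hdD)
      rw [e1, natDegree_pow, e2, hDd]
    rw [hX, Polynomial.eq_C_of_natDegree_eq_zero hr0, Polynomial.eq_C_of_natDegree_eq_zero hs1]
    refine ⟨r.coeff 0 / s.coeff 0, ?_⟩
    rw [RatFunc.algebraMap_C, RatFunc.algebraMap_C, map_div₀]
  have hX0 : r = 0 → ∃ a : k, X = RatFunc.C a := by
    intro h0
    exact ⟨0, by rw [hX, h0, map_zero, zero_div, map_zero]⟩
  by_cases hA0 : A = 0
  · apply hX0
    rw [hA0, zero_pow (by norm_num)] at hA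
    rw [hA, zero_mul] at h9
    have := h9.eq_zero_iff.2 rfl
    exact pow_eq_zero_iff (by norm_num) |>.1 this
  by_cases hB0 : B = 0
  · apply hX0
    rw [hB0, zero_pow (by norm_num)] at hB
    rw [hB, mul_zero] at h9
    have := h9.eq_zero_iff.2 rfl
    exact pow_eq_zero_iff (by norm_num) |>.1 this
  have hcop : IsCoprime A D := by
    have : IsCoprime (A ^ 3) (D ^ 3) := by rw [← hA, ← hD]; exact hpq
    exact (IsCoprime.pow_iff (by norm_num) (by norm_num)).1 this
  have heq : A ^ 3 + D ^ 3 = B ^ 3 := by rw [← hA, ← hD, ← hB]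
  obtain ⟨k1, k2, k3⟩ := Polynomial.flt (n := 3) le_rfl (by exact_mod_cast h3) hA0 hD0 hB0 hcop heq
  refine hdeg ?_ k2
  have e1 : (ρ ^ 3).natDegree = (A ^ 3 * B ^ 3).natDegree := by rw [← hρ, ← hA, ← hB]
  rw [natDegree_pow, natDegree_mul (pow_ne_zero 3 hA0) (pow_ne_zero 3 hB0), natDegree_pow,
    natDegree_pow, k1, k3] at e1
  omega

end Pool.Agent.Lib.MP_211349_ag
end
end
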