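import Pool.Agent.Lib.MP_211349_ag.Defs

section

/-!
# Valuation rings over `O`: generalities

`K` is an algebraically closed field with a valuation ring `O`, `L` is an extension field of `K`,
`v`, `w` are valuation rings of `L`.
-/

open Polynomial IntermediateField

universe u

noncomputable section

namespace Pool.Agent.Lib.MP_211349_ag

variable {K L : Type u} [Field K] [Field L] [Algebra K L] {O : ValuationSubring K}
  {v w : ValuationSubring L}

/-- The element `s` of `L` is residually transcendental: its residue is not in the residue field of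
`O`. -/
def ResTrans (O : ValuationSubring K) (v : ValuationSubring L) (s : L) : Prop :=
  s ∈ v ∧ ∀ a ∈ O, s - algebraMap K L a ∉ v.nonunits

/-- `u` is congruent to `1`. -/
def Near (v : ValuationSubring L) (u : L) : Prop := u - 1 ∈ v.nonunits

/-! ## Generalities -/

-- BEGIN V1
/-- (V1) -/
theorem Over.mem_iff (hv : Over O v) (a : K) : algebraMap K L a ∈ v ↔ a ∈ O := by
  unfold Over at hv
  rw [← hv]
  rfl
-- END V1

-- BEGIN V2
private theorem V2_nonunits_iff {F : Type u} [Field F] (A : ValuationSubring F) (a : F) :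
    a ∈ A.nonunits ↔ a = 0 ∨ a⁻¹ ∉ A := by
  rcases eq_or_ne a 0 with rfl | ha
  · simp
  · rw [ValuationSubring.mem_nonunits_iff, ← A.valuation_le_one_iff, map_inv₀, inv_le_one₀, not_le]
    · simp [ha]
    · exact zero_lt_iff.2 ((Valuation.ne_zero_iff _).2 ha)

/-- (V2) -/
theorem Over.nonunits_iff (hv : Over O v) (a : K) :
    algebraMap K L a ∈ v.nonunits ↔ a ∈ O.nonunits := by
  rw [V2_nonunits_iff, V2_nonunits_iff, ← map_inv₀, hv.mem_iff, map_eq_zero]
-- END V2

-- BEGIN V3
private theorem V3_nonunits_iff {F : Type u} [Field F] (A : ValuationSubring F) (a : F) :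
    a ∈ A.nonunits ↔ a = 0 ∨ a⁻¹ ∉ A := by
  rcases eq_or_ne a 0 with rfl | ha
  · simp
  · rw [ValuationSubring.mem_nonunits_iff, ← A.valuation_le_one_iff, map_inv₀, inv_le_one₀, not_le]
    · simp [ha]
    · exact zero_lt_iff.2 ((Valuation.ne_zero_iff _).2 ha)

/-- (V3) A valuation ring of `L` containing `O`, whose maximal ideal contains the nonunits of `O`,
lies over `O`. (If `a ∉ O` then `a⁻¹ ∈ O.nonunits`, so `a ∉ v`.) -/
theorem over_of_le (h : ∀ a ∈ O, algebraMap K L a ∈ v)
    (h' : ∀ a ∈ O.nonunits, algebraMap K L a ∈ v.nonunits) : Over O v := by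
  unfold Over
  ext a
  rw [ValuationSubring.mem_comap]
  refine ⟨fun ha => ?_, h a⟩
  by_contra hO
  have hinv : a⁻¹ ∈ O.nonunits := by
    rw [V3_nonunits_iff, inv_inv]
    exact Or.inr hO
  have h1 := h' _ hinv
  rw [V3_nonunits_iff, map_inv₀, inv_inv] at h1
  rcases h1 with h1 | h1
  · have ha0 : a = 0 := by simpa using h1
    rw [ha0] at hO
    exact hO (zero_mem O)
  · exact h1 ha
-- END V3

-- BEGIN V4
private theorem V4_split (hv : Over O v) (s : Multiset K) :
    ∃ c : K, ∃ Q : K[X], (s.map (fun a => X - C a)).prod = C c * Q ∧ (∀ n, Q.coeff n ∈ O) ∧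
      ∀ z ∈ v, (∀ a ∈ O, z - algebraMap K L a ∉ v.nonunits) → v.valuation (aeval z Q) = 1 := by
  induction s using Multiset.induction with
  | empty =>
    refine ⟨1, 1, by simp, fun n => ?_, fun z _ _ => by simp⟩
    rw [coeff_one]
    split_ifs
    · exact one_mem O
    · exact zero_mem O
  | cons a s ih =>
    obtain ⟨c, Q, hQ, hQO, hz⟩ := ih
    by_cases ha : a ∈ O
    · refine ⟨c, (X - C a) * Q, ?_, fun n => ?_, fun z hzv hzn => ?_⟩
      · rw [Multiset.map_cons, Multiset.prod_cons, hQ]
        ring
      · rw [sub_mul, coeff_sub, coeff_C_mul]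
        refine sub_mem ?_ (mul_mem ha (hQO n))
        rcases n with _ | n
        · rw [mul_comm, mul_coeff_zero, coeff_X_zero, mul_zero]
          exact zero_mem O
        · rw [coeff_X_mul]
          exact hQO n
      · rw [map_mul, map_mul, hz z hzv hzn, mul_one, map_sub, aeval_X, aeval_C]
        have h1 : z - algebraMap K L a ∈ v := sub_mem hzv ((hv.mem_iff a).2 ha)
        have h2 := hzn a ha
        rw [ValuationSubring.mem_nonunits_iff, not_lt] at h2
        exact le_antisymm ((v.valuation_le_one_iff _).2 h1) h2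
    · have ha0 : a ≠ 0 := by
        rintro rfl
        exact ha (zero_mem O)
      have hinv : a⁻¹ ∈ O := (O.mem_or_inv_mem a).resolve_left ha
      have hval : v.valuation (algebraMap K L a⁻¹) < 1 := by
        rw [← not_le, map_inv₀, map_inv₀]
        intro h1
        rw [one_le_inv₀ (zero_lt_iff.2 ((Valuation.ne_zero_iff _).2
          ((map_ne_zero (algebraMap K L)).2 ha0)))] at h1
        exact ha ((hv.mem_iff a).1 ((v.valuation_le_one_iff _).1 h1))
      refine ⟨-a * c, (1 - C a⁻¹ * X) * Q, ?_, fun n => ?_, fun z hzv hzn => ?_⟩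
      · rw [Multiset.map_cons, Multiset.prod_cons, hQ]
        have h1 : C a * C a⁻¹ = (1 : K[X]) := by rw [← C_mul, mul_inv_cancel₀ ha0, C_1]
        rw [C_mul, C_neg]
        linear_combination (-(X * C c * Q)) * h1
      · rw [sub_mul, one_mul, coeff_sub, mul_assoc, coeff_C_mul]
        refine sub_mem (hQO n) (mul_mem hinv ?_)
        rcases n with _ | n
        · rw [mul_comm, mul_coeff_zero, coeff_X_zero, mul_zero]
          exact zero_mem O
        · rw [coeff_X_mul]
          exact hQO n
      · rw [map_mul, map_mul, hz z hzv hzn, mul_one, map_sub, map_one, map_mul, aeval_X, aeval_C]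
        have h1 : v.valuation (algebraMap K L a⁻¹ * z) < 1 := by
          rw [map_mul]
          exact mul_lt_one_of_lt_of_le hval ((v.valuation_le_one_iff _).2 hzv)
        have h2 := Valuation.map_one_sub_of_lt v.valuation h1
        exact h2

/-- (V4) The residue field of `O` is algebraically closed, in the form: a polynomial over `O` whose
residue is not zero and which has a root mod the maximal ideal of `v` has a root in `O` congruent to
it. Proof: write `p = c ∏ (X - a_i)` over `K` (`IsAlgClosed.splits`); or use that the residue field of `O` is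
algebraically closed (lift a monic polynomial). Suggested proof: some coefficient of `p` is a unit,
`p ∈ O[X]`; by induction on the degree / Gauss lemma `p = c ∏ (X - a_i) ∏ (1 - b_j X)` with `c` a
unit of `O`, `a_i ∈ O`, `b_j ∈ O.nonunits`; then `1 - b_j z` is a unit of `v` and some `z - a_i` must
be a nonunit. -/
theorem exists_residue_root [IsAlgClosed K] (hv : Over O v) (p : K[X])
    (hp : ∀ n, p.coeff n ∈ O) (hp' : ∃ n, p.coeff n ∉ O.nonunits) (z : L) (hz : z ∈ v)
    (h : aeval z p ∈ v.nonunits) : ∃ a ∈ O, z - algebraMap K L a ∈ v.nonunits := by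
  by_contra hcon
  push Not at hcon
  obtain ⟨n, hn⟩ := hp'
  obtain ⟨c, Q, hQ, hQO, hQz⟩ := V4_split (L := L) hv p.roots
  have hp1 : p = C (p.leadingCoeff * c) * Q := by
    rw [C_mul, mul_assoc, ← hQ]
    exact (IsAlgClosed.splits p).eq_prod_roots
  have h1 : algebraMap K L (p.leadingCoeff * c) ∈ v.nonunits := by
    rw [hp1, map_mul, aeval_C, ValuationSubring.mem_nonunits_iff, map_mul, hQz z hz hcon,
      mul_one] at h
    exact h
  rw [hv.nonunits_iff, ValuationSubring.mem_nonunits_iff] at h1
  apply hn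
  rw [ValuationSubring.mem_nonunits_iff, hp1, coeff_C_mul, map_mul]
  exact mul_lt_one_of_lt_of_le h1 ((O.valuation_le_one_iff _).2 (hQO n))
-- END V4

-- BEGIN V5
/-- (V5) Gauss property: at a residually transcendental element, primitive polynomials are units. -/
theorem ResTrans.isUnit_aeval [IsAlgClosed K] (hv : Over O v) {s : L} (hs : ResTrans O v s)
    (p : K[X]) (hp : ∀ n, p.coeff n ∈ O) (hp' : ∃ n, p.coeff n ∉ O.nonunits) :
    aeval s p ∈ v ∧ aeval s p ∉ v.nonunits := by
  refine ⟨?_, fun hcon => ?_⟩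
  · rw [aeval_eq_sum_range]
    refine sum_mem fun i _ => ?_
    rw [Algebra.smul_def]
    exact mul_mem ((hv.mem_iff _).2 (hp i)) (pow_mem hs.1 i)
  · obtain ⟨a, ha, h⟩ := exists_residue_root hv p hp hp' s hs.1 hcon
    exact hs.2 a ha h
-- END V5

-- BEGIN V6
/-- (V6) Every nonzero polynomial is a constant times a primitive polynomial. -/
theorem exists_primitive (O : ValuationSubring K) (p : K[X]) (hp : p ≠ 0) :
    ∃ c : K, c ≠ 0 ∧ (∀ n, (C c⁻¹ * p).coeff n ∈ O) ∧ ∃ n, (C c⁻¹ * p).coeff n ∉ O.nonunits := by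
  obtain ⟨m, hm, hmax⟩ := Finset.exists_max_image p.support (fun n => O.valuation (p.coeff n))
    (Polynomial.support_nonempty.2 hp)
  have hc : p.coeff m ≠ 0 := Polynomial.mem_support_iff.1 hm
  refine ⟨p.coeff m, hc, fun n => ?_, m, ?_⟩
  · rw [coeff_C_mul, ← O.valuation_le_one_iff, map_mul, map_inv₀]
    by_cases hn : n ∈ p.support
    · exact inv_mul_le_one_of_le₀ (hmax n hn) zero_le
    · rw [Polynomial.notMem_support_iff.1 hn, map_zero, mul_zero]
      exact zero_le
  · rw [coeff_C_mul, inv_mul_cancel₀ hc, ValuationSubring.mem_nonunits_iff, map_one]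
    exact lt_irrefl _
-- END V6

-- BEGIN V7
private theorem V7_poly [IsAlgClosed K] (hv : Over O v) {s : L} (hs : ResTrans O v s)
    (p : K[X]) (hp : p ≠ 0) : ∃ c : K, c ≠ 0 ∧
      v.valuation (aeval s p) = v.valuation (algebraMap K L c) := by
  obtain ⟨c, hc, h1, h2⟩ := exists_primitive O p hp
  obtain ⟨h3, h4⟩ := hs.isUnit_aeval hv _ h1 h2
  refine ⟨c, hc, ?_⟩
  rw [ValuationSubring.mem_nonunits_iff, not_lt] at h4
  have h5 : v.valuation (aeval s (C c⁻¹ * p)) = 1 :=
    le_antisymm ((v.valuation_le_one_iff _).2 h3) h4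
  have h6 : p = C c * (C c⁻¹ * p) := by
    rw [← mul_assoc, ← C_mul, mul_inv_cancel₀ hc, C_1, one_mul]
  rw [h6, map_mul, map_mul, h5, mul_one, aeval_C]

/-- (V7) Every nonzero element of `K(s)` is a constant times a unit of `v`, if `s` is residually
transcendental. -/
theorem ResTrans.exists_const [IsAlgClosed K] (hv : Over O v) {s : L} (hs : ResTrans O v s)
    (z : L) (hz : z ∈ K⟮s⟯) (hz0 : z ≠ 0) :
    ∃ c : K, c ≠ 0 ∧ z / algebraMap K L c ∈ v ∧ z / algebraMap K L c ∉ v.nonunits := by
  obtain ⟨p, q, rfl⟩ := (IntermediateField.mem_adjoin_simple_iff K z).1 hz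
  have hp : p ≠ 0 := by
    rintro rfl
    simp at hz0
  have hq : q ≠ 0 := by
    rintro rfl
    simp at hz0
  obtain ⟨c, hc, h1⟩ := V7_poly hv hs p hp
  obtain ⟨d, hd, h2⟩ := V7_poly hv hs q hq
  have hcd : c / d ≠ 0 := div_ne_zero hc hd
  have h3 : v.valuation (aeval s p / aeval s q / algebraMap K L (c / d)) = 1 := by
    have h4 : v.valuation (algebraMap K L (c / d)) ≠ 0 :=
      (Valuation.ne_zero_iff _).2 ((map_ne_zero (algebraMap K L)).2 hcd)
    rw [map_div₀, map_div₀, h1, h2, ← map_div₀, ← map_div₀ (algebraMap K L)]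
    exact div_self h4
  refine ⟨c / d, hcd, (v.valuation_le_one_iff _).1 h3.le, ?_⟩
  rw [ValuationSubring.mem_nonunits_iff, h3]
  exact lt_irrefl _
-- END V7

-- BEGIN V8
/-- (V8) A residually transcendental element is transcendental. -/
theorem ResTrans.transcendental [IsAlgClosed K] (hv : Over O v) {s : L} (hs : ResTrans O v s) :
    Transcendental K s := by
  rintro ⟨p, hp, h⟩
  obtain ⟨c, hc, h1, h2⟩ := exists_primitive O p hp
  obtain ⟨h3, h4⟩ := hs.isUnit_aeval hv _ h1 h2
  apply h4
  rw [map_mul, h, mul_zero, ValuationSubring.mem_nonunits_iff, map_zero]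
  exact zero_lt_one
-- END V8

end Pool.Agent.Lib.MP_211349_ag
end
end

section

/-!
# Valuation rings with transcendental residue field on `K(t)`

`K` is an algebraically closed field with a valuation ring `O`, `L` is an extension field of `K`,
`v`, `w` are valuation rings of `L`.
-/

open Polynomial IntermediateField

universe u

noncomputable section

namespace Pool.Agent.Lib.MP_211349_ag

variable {K L : Type u} [Field K] [Field L] [Algebra K L] {O : ValuationSubring K}
  {v w : ValuationSubring L}

/-! ## Classification of the valuation rings with transcendental residue field on `K(t)` -/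

-- BEGIN V9
/-- (V9) -/
theorem Near.mul {a b : L} (ha : Near v a) (hb : Near v b) : Near v (a * b) := by
  unfold Near at *
  rw [ValuationSubring.mem_nonunits_iff] at *
  have hb1 : v.valuation b = 1 := by
    have : b = (b - 1) + 1 := by ring
    rw [this, Valuation.map_add_eq_of_lt_right _ (by rw [map_one]; exact hb), map_one]
  have h : a * b - 1 = (a - 1) * b + (b - 1) := by ring
  rw [h]
  refine Valuation.map_add_lt _ ?_ hb
  rw [map_mul, hb1, mul_one]
  exact ha
-- END V9

-- BEGIN V10
/-- (V10) -/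
theorem Near.inv {a : L} (ha : Near v a) : Near v a⁻¹ := by
  unfold Near at *
  rw [ValuationSubring.mem_nonunits_iff] at *
  have ha1 : v.valuation a = 1 := by
    have : a = (a - 1) + 1 := by ring
    rw [this, Valuation.map_add_eq_of_lt_right _ (by rw [map_one]; exact ha), map_one]
  have ha0 : a ≠ 0 := by
    rintro rfl
    rw [map_zero] at ha1
    exact zero_ne_one ha1
  have h : a⁻¹ - 1 = -((a - 1) * a⁻¹) := by
    field_simp
    ring
  rw [h, Valuation.map_neg, map_mul, map_inv₀, ha1, inv_one, mul_one]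
  exact ha
-- END V10

-- BEGIN V11
private theorem V11_aeval [IsAlgClosed K] (t : L) (r : K[X]) :
    aeval t r = algebraMap K L r.leadingCoeff *
      (r.roots.map fun a => t - algebraMap K L a).prod := by
  have h : r = C r.leadingCoeff * (r.roots.map fun a => X - C a).prod :=
    (IsAlgClosed.splits r).eq_prod_roots
  conv_lhs => rw [h]
  rw [map_mul, aeval_C, map_multiset_prod, Multiset.map_map]
  congr 2
  apply Multiset.map_congr rfl
  intro a _
  simp

/-- (V11) Factorization of the nonzero elements of `K(t)` (`mem_adjoin_simple_iff`, split the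
polynomials, `IsAlgClosed.splits`, `Polynomial.Splits.eq_prod_roots`/`aeval`). -/
theorem exists_factorization [IsAlgClosed K] (t z : L) (hz : z ∈ K⟮t⟯) (hz0 : z ≠ 0) :
    ∃ (c : K) (S T : Multiset K), c ≠ 0 ∧
      z = algebraMap K L c * (S.map fun a => t - algebraMap K L a).prod /
        (T.map fun a => t - algebraMap K L a).prod := by
  rw [IntermediateField.mem_adjoin_simple_iff] at hz
  obtain ⟨r, s, hrs⟩ := hz
  have hr : r ≠ 0 := by
    rintro rfl
    apply hz0
    rw [hrs, map_zero, zero_div]
  have hs : s ≠ 0 := by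
    rintro rfl
    apply hz0
    rw [hrs, map_zero, div_zero]
  refine ⟨r.leadingCoeff / s.leadingCoeff, r.roots, s.roots,
    div_ne_zero (leadingCoeff_ne_zero.2 hr) (leadingCoeff_ne_zero.2 hs), ?_⟩
  rw [hrs, V11_aeval t r, V11_aeval t s, map_div₀]
  ring
-- END V11

-- BEGIN V12
private theorem v12_le (x : L) : x ∈ v ↔ v.valuation x ≤ 1 := (v.valuation_le_one_iff x).symm

private theorem v12_lt (x : L) : x ∈ v.nonunits ↔ v.valuation x < 1 :=
  ValuationSubring.mem_nonunits_iff v

private theorem v12_near_val {u : L} (hu : Near v u) : v.valuation u = 1 := by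
  unfold Near at hu
  rw [v12_lt] at hu
  have : u = (u - 1) + 1 := by ring
  rw [this, Valuation.map_add_eq_of_lt_right _ (by rw [map_one]; exact hu), map_one]

/-- A quotient of two elements, whose difference is small, is near `1`. -/
private theorem v12_near_div {x y : L} (hy : y ≠ 0) (h : v.valuation (x - y) < v.valuation y) :
    Near v (x / y) := by
  unfold Near
  rw [v12_lt]
  have h1 : x / y - 1 = (x - y) / y := by field_simp
  rw [h1, map_div₀]
  exact (div_lt_one₀ (zero_lt_iff.2 ((Valuation.ne_zero_iff _).2 hy))).2 h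

private theorem v12_prod (t τ : L) (P : Multiset K)
    (h : ∀ b ∈ P, ∃ (c : K) (n : ℕ) (u : L), c ≠ 0 ∧ Near v u ∧
      t - algebraMap K L b = algebraMap K L c * τ ^ n * u) :
    ∃ (c : K) (n : ℕ) (u : L), c ≠ 0 ∧ Near v u ∧
      (P.map fun a => t - algebraMap K L a).prod = algebraMap K L c * τ ^ n * u := by
  induction P using Multiset.induction_on with
  | empty =>
    refine ⟨1, 0, 1, one_ne_zero, ?_, by simp⟩
    unfold Near
    rw [v12_lt, sub_self, map_zero]
    exact zero_lt_one
  | cons a P ih =>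
    obtain ⟨c, n, u, hc, hu, he⟩ := ih fun b hb => h b (Multiset.mem_cons_of_mem hb)
    obtain ⟨c', n', u', hc', hu', he'⟩ := h a (Multiset.mem_cons_self a P)
    refine ⟨c' * c, n' + n, u' * u, mul_ne_zero hc' hc, hu'.mul hu, ?_⟩
    rw [Multiset.map_cons, Multiset.prod_cons, he, he', map_mul, pow_add]
    ring

/-- (V12) Case I of the classification: if `t - a₀` is not a constant times a unit, then every unit
of `v` in `K(t)` is congruent to a constant. Proof: for every `b : K`, compare `t - b = (t - a₀) + (a₀ - b)`: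
by hypothesis the two summands have different valuations (`(t - a₀)/(a₀ - b)` is not a unit of `v`, so
it or its inverse is a nonunit, for `b ≠ a₀`), so `(t - b)/(t - a₀)` or `(t - b)/(a₀ - b)` is near `1`
(`t - b ≠ 0` because otherwise `t - a₀` is a nonzero constant or `0`; in the latter case the hypothesis `ht`
fails). Hence, by the factorization (V11) and (V9), (V10), `z = c (t - a₀)^N u` with `N : ℤ`, `c ≠ 0` and
`u` near `1`. If `N ≠ 0`, let `d : K` with `d ^ |N| = c^{± 1}`: then `(t - a₀)/d^{∓1}` has a power which is a unit of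
`v`, so it is a unit, contradicting `h`. So `z = c u`; as `z` is a unit of `v`, `c ∈ O` and
`z - c = c (u - 1)` is a nonunit. -/
theorem residue_const_of_case_one [IsAlgClosed K] (hv : Over O v) (t : L) (a₀ : K)
    (ht : t ≠ algebraMap K L a₀)
    (h : ∀ c : K, c ≠ 0 → (t - algebraMap K L a₀) / algebraMap K L c ∈ v →
      (t - algebraMap K L a₀) / algebraMap K L c ∈ v.nonunits)
    (z : L) (hz : z ∈ K⟮t⟯) (hzv : z ∈ v) (hzu : z ∉ v.nonunits) :
    ∃ a ∈ O, z - algebraMap K L a ∈ v.nonunits := by
  set τ : L := t - algebraMap K L a₀ with hτ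
  have hτ0 : τ ≠ 0 := sub_ne_zero.2 ht
  have hτv0 : v.valuation τ ≠ 0 := (Valuation.ne_zero_iff _).2 hτ0
  have hz1 : v.valuation z = 1 := by
    rw [v12_le] at hzv
    rw [v12_lt] at hzu
    exact le_antisymm hzv (not_lt.1 hzu)
  have hz0 : z ≠ 0 := by
    rintro rfl
    rw [map_zero] at hz1
    exact zero_ne_one hz1
  have hne : ∀ c : K, c ≠ 0 → v.valuation τ ≠ v.valuation (algebraMap K L c) := by
    intro c hc he
    have hc0 : v.valuation (algebraMap K L c) ≠ 0 := by
      rw [Valuation.ne_zero_iff]
      simpa using hc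
    have h1 : v.valuation (τ / algebraMap K L c) = 1 := by
      rw [map_div₀, he, div_self hc0]
    have h2 := h c hc ((v12_le _).2 h1.le)
    rw [v12_lt, h1] at h2
    exact lt_irrefl _ h2
  have key : ∀ b : K, ∃ (c : K) (n : ℕ) (u : L), c ≠ 0 ∧ Near v u ∧
      t - algebraMap K L b = algebraMap K L c * τ ^ n * u := by
    intro b
    have hsum : t - algebraMap K L b = τ + algebraMap K L (a₀ - b) := by
      rw [hτ, map_sub]; ring
    by_cases hb : a₀ - b = 0
    · refine ⟨1, 1, 1, one_ne_zero, ?_, ?_⟩
      · unfold Near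
        rw [v12_lt, sub_self, map_zero]
        exact zero_lt_one
      · rw [hsum, hb]; simp
    · have hb0 : algebraMap K L (a₀ - b) ≠ 0 := (_root_.map_ne_zero _).2 hb
      rcases lt_or_gt_of_ne (hne _ hb) with hlt | hgt
      · refine ⟨a₀ - b, 0, (t - algebraMap K L b) / algebraMap K L (a₀ - b), hb, ?_, ?_⟩
        · apply v12_near_div hb0
          rw [hsum, add_sub_cancel_right]
          exact hlt
        · rw [pow_zero, mul_one, mul_div_cancel₀ _ hb0]
      · refine ⟨1, 1, (t - algebraMap K L b) / τ, one_ne_zero, ?_, ?_⟩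
        · apply v12_near_div hτ0
          rw [hsum, add_sub_cancel_left]
          exact hgt
        · rw [pow_one, map_one, one_mul, mul_div_cancel₀ _ hτ0]
  obtain ⟨c, S, T, hc, hfac⟩ := exists_factorization t z hz hz0
  obtain ⟨c₁, n, u₁, hc₁, hu₁, he₁⟩ := v12_prod t τ S fun b _ => key b
  obtain ⟨c₂, m, u₂, hc₂, hu₂, he₂⟩ := v12_prod t τ T fun b _ => key b
  rw [he₁, he₂] at hfac
  have hu : Near v (u₁ * u₂⁻¹) := hu₁.mul hu₂.inv
  have hu2v : v.valuation u₂ = 1 := v12_near_val hu₂
  have hu20 : u₂ ≠ 0 := by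
    rintro rfl
    rw [map_zero] at hu2v
    exact zero_ne_one hu2v
  have hc2' : algebraMap K L c₂ ≠ 0 := by simpa using hc₂
  set e : K := c * c₁ / c₂ with he
  have he0 : e ≠ 0 := div_ne_zero (mul_ne_zero hc hc₁) hc₂
  have hz2 : z * τ ^ m = algebraMap K L e * τ ^ n * (u₁ * u₂⁻¹) := by
    rw [hfac, he, map_div₀, map_mul]
    field_simp
  have hval : v.valuation τ ^ m = v.valuation (algebraMap K L e) * v.valuation τ ^ n := by
    have := congrArg v.valuation hz2
    simpa only [map_mul, map_pow, hz1, one_mul, v12_near_val hu, mul_one,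
      map_inv₀, v12_near_val hu₁, hu2v, inv_one] using this
  have hnm : n = m := by
    by_contra hnm
    have hroot : ∀ (k : ℕ) (f : K), k ≠ 0 → f ≠ 0 →
        v.valuation τ ^ k ≠ v.valuation (algebraMap K L f) := by
      intro k f hk hf hkf
      obtain ⟨d, hd⟩ := IsAlgClosed.exists_pow_nat_eq f (Nat.pos_of_ne_zero hk)
      have hd0 : d ≠ 0 := by
        rintro rfl
        rw [zero_pow hk] at hd
        exact hf hd.symm
      rw [← hd, map_pow, map_pow] at hkf
      exact hne d hd0 ((pow_left_inj₀ zero_le zero_le hk).1 hkf)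
    rcases lt_or_gt_of_ne hnm with hlt | hgt
    · obtain ⟨k, rfl⟩ := Nat.exists_eq_add_of_lt hlt
      apply hroot (k + 1) e (by omega) he0
      have : v.valuation τ ^ (n + k + 1) = v.valuation τ ^ (k + 1) * v.valuation τ ^ n := by
        rw [← pow_add]; congr 1; omega
      rw [this] at hval
      exact mul_right_cancel₀ (pow_ne_zero _ hτv0) hval
    · obtain ⟨k, rfl⟩ := Nat.exists_eq_add_of_lt hgt
      apply hroot (k + 1) e⁻¹ (by omega) (inv_ne_zero he0)
      have : v.valuation τ ^ (m + k + 1) = v.valuation τ ^ (k + 1) * v.valuation τ ^ m := by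
        rw [← pow_add]; congr 1; omega
      rw [this, ← mul_assoc] at hval
      have h3 : v.valuation (algebraMap K L e) * v.valuation τ ^ (k + 1) = 1 := by
        apply mul_right_cancel₀ (pow_ne_zero m hτv0)
        rw [one_mul]
        exact hval.symm
      rw [map_inv₀, map_inv₀]
      exact eq_inv_of_mul_eq_one_right h3
  subst hnm
  have hze : z = algebraMap K L e * (u₁ * u₂⁻¹) := by
    apply mul_right_cancel₀ (pow_ne_zero n hτ0)
    rw [hz2]; ring
  have hev : v.valuation (algebraMap K L e) = 1 := by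
    apply mul_right_cancel₀ (pow_ne_zero n hτv0)
    rw [one_mul]
    exact hval.symm
  refine ⟨e, (Over.mem_iff hv e).1 ((v12_le _).2 hev.le), ?_⟩
  have h5 : z - algebraMap K L e = algebraMap K L e * (u₁ * u₂⁻¹ - 1) := by
    rw [hze]; ring
  rw [v12_lt, h5, map_mul, hev, one_mul, ← v12_lt]
  exact hu
-- END V12

-- BEGIN V13
private theorem v13_le (x : L) : x ∈ v ↔ v.valuation x ≤ 1 := (v.valuation_le_one_iff x).symm

private theorem v13_lt (x : L) : x ∈ v.nonunits ↔ v.valuation x < 1 :=
  ValuationSubring.mem_nonunits_iff v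

private theorem v13_near_val {u : L} (hu : Near v u) : v.valuation u = 1 := by
  unfold Near at hu
  rw [v13_lt] at hu
  have : u = (u - 1) + 1 := by ring
  rw [this, Valuation.map_add_eq_of_lt_right _ (by rw [map_one]; exact hu), map_one]

/-- A quotient of two elements, whose difference is small, is near `1`. -/
private theorem v13_near_div {x y : L} (hy : y ≠ 0) (h : v.valuation (x - y) < v.valuation y) :
    Near v (x / y) := by
  unfold Near
  rw [v13_lt]
  have h1 : x / y - 1 = (x - y) / y := by field_simp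
  rw [h1, map_div₀]
  exact (div_lt_one₀ (zero_lt_iff.2 ((Valuation.ne_zero_iff _).2 hy))).2 h

private theorem v13_prod (t : L) (P : Multiset K)
    (h : ∀ b ∈ P, ∃ (c : K) (u : L), c ≠ 0 ∧ Near v u ∧
      t - algebraMap K L b = algebraMap K L c * u) :
    ∃ (c : K) (u : L), c ≠ 0 ∧ Near v u ∧
      (P.map fun a => t - algebraMap K L a).prod = algebraMap K L c * u := by
  induction P using Multiset.induction_on with
  | empty =>
    refine ⟨1, 1, one_ne_zero, ?_, by simp⟩
    unfold Near
    rw [v13_lt, sub_self, map_zero]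
    exact zero_lt_one
  | cons a P ih =>
    obtain ⟨c, u, hc, hu, he⟩ := ih fun b hb => h b (Multiset.mem_cons_of_mem hb)
    obtain ⟨c', u', hc', hu', he'⟩ := h a (Multiset.mem_cons_self a P)
    refine ⟨c' * c, u' * u, mul_ne_zero hc' hc, hu'.mul hu, ?_⟩
    rw [Multiset.map_cons, Multiset.prod_cons, he, he', map_mul]
    ring

/-- (V13) Case II of the classification: if every `t - a` can be improved, then every unit
of `v` in `K(t)` is congruent to a constant. Proof: factor `z` by (V11); among the finitely many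
`a ∈ S + T` choose one with `t - a` of minimal valuation (i.e. `(t - a)/(t - a') ∈ v` for all `a'` in `S + T`) and improve
it: `b` with `(t - b)/(t - a') ∈ v.nonunits` for all `a' ∈ S + T`. Then `(b - a')/(t - a') = 1 - (t - b)/(t - a')`
is near `1`, so `z = c · ∏ (b - a') / ∏ (b - a'') · u` with `u` near `1`; conclude as in (V12). (If `S + T` is
empty `z` is a constant.) -/
theorem residue_const_of_case_two [IsAlgClosed K] (hv : Over O v) (t : L)
    (ht : ∀ a : K, t ≠ algebraMap K L a)
    (h : ∀ a : K, ∃ b : K, (t - algebraMap K L b) / (t - algebraMap K L a) ∈ v.nonunits)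
    (z : L) (hz : z ∈ K⟮t⟯) (hzv : z ∈ v) (hzu : z ∉ v.nonunits) :
    ∃ a ∈ O, z - algebraMap K L a ∈ v.nonunits := by
  have hpos : ∀ a : K, 0 < v.valuation (t - algebraMap K L a) := fun a =>
    zero_lt_iff.2 ((Valuation.ne_zero_iff _).2 (sub_ne_zero.2 (ht a)))
  have hlt : ∀ a : K, ∃ b : K, v.valuation (t - algebraMap K L b) <
      v.valuation (t - algebraMap K L a) := by
    intro a
    obtain ⟨b, hb⟩ := h a
    refine ⟨b, ?_⟩
    rw [v13_lt, map_div₀] at hb
    exact (div_lt_one₀ (hpos a)).1 hb
  have hbest : ∀ P : Multiset K, ∃ b : K, ∀ a ∈ P, v.valuation (t - algebraMap K L b) <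
      v.valuation (t - algebraMap K L a) := by
    intro P
    induction P using Multiset.induction_on with
    | empty => exact ⟨0, by simp⟩
    | cons a P ih =>
      obtain ⟨b, hb⟩ := ih
      rcases le_total (v.valuation (t - algebraMap K L b)) (v.valuation (t - algebraMap K L a))
        with hle | hle
      · obtain ⟨b', hb'⟩ := hlt b
        refine ⟨b', fun x hx => ?_⟩
        rcases Multiset.mem_cons.1 hx with rfl | hx
        · exact lt_of_lt_of_le hb' hle
        · exact hb'.trans (hb x hx)
      · obtain ⟨b', hb'⟩ := hlt a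
        refine ⟨b', fun x hx => ?_⟩
        rcases Multiset.mem_cons.1 hx with rfl | hx
        · exact hb'
        · exact (lt_of_lt_of_le hb' hle).trans (hb x hx)
  have hz1 : v.valuation z = 1 := by
    rw [v13_le] at hzv
    rw [v13_lt] at hzu
    exact le_antisymm hzv (not_lt.1 hzu)
  have hz0 : z ≠ 0 := by
    rintro rfl
    rw [map_zero] at hz1
    exact zero_ne_one hz1
  obtain ⟨c, S, T, hc, hfac⟩ := exists_factorization t z hz hz0
  obtain ⟨b, hb⟩ := hbest (S + T)
  have key : ∀ a ∈ S + T, ∃ (c : K) (u : L), c ≠ 0 ∧ Near v u ∧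
      t - algebraMap K L a = algebraMap K L c * u := by
    intro a ha
    have hba := hb a ha
    have hne : b - a ≠ 0 := by
      intro h0
      rw [sub_eq_zero.1 h0] at hba
      exact lt_irrefl _ hba
    have hne' : algebraMap K L (b - a) ≠ 0 := (_root_.map_ne_zero _).2 hne
    have hval : v.valuation (algebraMap K L (b - a)) = v.valuation (t - algebraMap K L a) := by
      have h1 : algebraMap K L (b - a) = (t - algebraMap K L a) - (t - algebraMap K L b) := by
        rw [map_sub]; ring
      rw [h1, Valuation.map_sub_eq_of_lt_left _ hba]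
    refine ⟨b - a, (t - algebraMap K L a) / algebraMap K L (b - a), hne, ?_, ?_⟩
    · apply v13_near_div hne'
      rw [hval]
      have h2 : t - algebraMap K L a - algebraMap K L (b - a) = t - algebraMap K L b := by
        rw [map_sub]; ring
      rw [h2]
      exact hba
    · rw [mul_div_cancel₀ _ hne']
  obtain ⟨c₁, u₁, hc₁, hu₁, he₁⟩ := v13_prod t S fun a ha => key a (Multiset.mem_add.2 (Or.inl ha))
  obtain ⟨c₂, u₂, hc₂, hu₂, he₂⟩ := v13_prod t T fun a ha => key a (Multiset.mem_add.2 (Or.inr ha))
  rw [he₁, he₂] at hfac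
  have hu : Near v (u₁ * u₂⁻¹) := hu₁.mul hu₂.inv
  have hu2v : v.valuation u₂ = 1 := v13_near_val hu₂
  have hu20 : u₂ ≠ 0 := by
    rintro rfl
    rw [map_zero] at hu2v
    exact zero_ne_one hu2v
  have hc2' : algebraMap K L c₂ ≠ 0 := by simpa using hc₂
  set e : K := c * c₁ / c₂ with he
  have hze : z = algebraMap K L e * (u₁ * u₂⁻¹) := by
    rw [hfac, he, map_div₀, map_mul]
    field_simp
  have hev : v.valuation (algebraMap K L e) = 1 := by
    have := congrArg v.valuation hze
    rw [map_mul, v13_near_val hu, mul_one, hz1] at this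
    exact this.symm
  refine ⟨e, (Over.mem_iff hv e).1 ((v13_le _).2 hev.le), ?_⟩
  have h5 : z - algebraMap K L e = algebraMap K L e * (u₁ * u₂⁻¹ - 1) := by
    rw [hze]; ring
  rw [v13_lt, h5, map_mul, hev, one_mul, ← v13_lt]
  exact hu
-- END V13

-- BEGIN V14
private theorem v14_le (x : L) : x ∈ v ↔ v.valuation x ≤ 1 := (v.valuation_le_one_iff x).symm

private theorem v14_lt (x : L) : x ∈ v.nonunits ↔ v.valuation x < 1 :=
  ValuationSubring.mem_nonunits_iff v

/-- (V14) If some element of `K(t)` is residually transcendental, then so is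
`(t - a) / c` for some `a, c ∈ K`, `c ≠ 0`. Proof: suppose not. `t` is not a constant (otherwise
`z` is). If for some `a₀` no `(t - a₀)/c` is a unit, use (V12). Otherwise for each `a` there is `c ≠ 0` with
`(t - a)/c` a unit of `v`, and as it is not residually transcendental there is `e ∈ O` with `(t - a)/c - e` a
nonunit, `b = a + c e` satisfies `(t - b)/(t - a) ∈ v.nonunits`; use (V13). -/
theorem exists_resTrans_linear [IsAlgClosed K] (hv : Over O v) (t z : L) (hz : z ∈ K⟮t⟯)
    (hs : ResTrans O v z) :
    ∃ a c : K, c ≠ 0 ∧ ResTrans O v ((t - algebraMap K L a) / algebraMap K L c) := by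
  by_contra hcon
  push Not at hcon
  have hzu : z ∉ v.nonunits := by
    have := hs.2 0 O.zero_mem
    rwa [map_zero, sub_zero] at this
  have ht : ∀ a : K, t ≠ algebraMap K L a := by
    rintro a rfl
    have h1 : K⟮algebraMap K L a⟯ = ⊥ := by
      rw [IntermediateField.adjoin_simple_eq_bot_iff]
      exact IntermediateField.algebraMap_mem _ a
    rw [h1, IntermediateField.mem_bot] at hz
    obtain ⟨b, rfl⟩ := hz
    apply hs.2 b ((Over.mem_iff hv b).1 hs.1)
    rw [sub_self, v14_lt, map_zero]
    exact zero_lt_one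
  by_cases h1 : ∃ a₀ : K, ∀ c : K, c ≠ 0 → (t - algebraMap K L a₀) / algebraMap K L c ∈ v →
      (t - algebraMap K L a₀) / algebraMap K L c ∈ v.nonunits
  · obtain ⟨a₀, ha₀⟩ := h1
    obtain ⟨a, haO, ha⟩ := residue_const_of_case_one hv t a₀ (ht a₀) ha₀ z hz hs.1 hzu
    exact hs.2 a haO ha
  · push Not at h1
    obtain ⟨a, haO, ha⟩ := residue_const_of_case_two hv t ht (fun a => by
      obtain ⟨c, hc, hcv, hcu⟩ := h1 a
      have hnr := hcon a c hc
      have hex : ∃ e ∈ O, (t - algebraMap K L a) / algebraMap K L c - algebraMap K L e ∈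
          v.nonunits := by
        by_contra hno
        push Not at hno
        exact hnr ⟨hcv, hno⟩
      obtain ⟨e, heO, he⟩ := hex
      refine ⟨a + c * e, ?_⟩
      have hc0 : algebraMap K L c ≠ 0 := by simpa using hc
      have hta : t - algebraMap K L a ≠ 0 := sub_ne_zero.2 (ht a)
      have h2 : (t - algebraMap K L (a + c * e)) / (t - algebraMap K L a) =
          ((t - algebraMap K L a) / algebraMap K L c - algebraMap K L e) /
            ((t - algebraMap K L a) / algebraMap K L c) := by
        rw [map_add, map_mul]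
        field_simp
        ring
      rw [v14_lt] at he ⊢
      have h3 : v.valuation ((t - algebraMap K L a) / algebraMap K L c) = 1 := by
        rw [v14_le] at hcv
        rw [v14_lt] at hcu
        exact le_antisymm hcv (not_lt.1 hcu)
      rw [h2, map_div₀, h3, div_one]
      exact he) z hz hs.1 hzu
    exact hs.2 a haO ha
-- END V14

end Pool.Agent.Lib.MP_211349_ag
end
end

section

/-!
# Generic centres, existence

`K` is an algebraically closed field with a valuation ring `O`, `L` is an extension field of `K`,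
`v`, `w` are valuation rings of `L`.
-/

open Polynomial IntermediateField

universe u

noncomputable section

namespace Pool.Agent.Lib.MP_211349_ag

variable {K L : Type u} [Field K] [Field L] [Algebra K L] {O : ValuationSubring K}
  {v w : ValuationSubring L}

/-! ## Uniqueness at the generic point of the special fibre -/

-- BEGIN V25
/-- Kaplansky, Theorem 67, for a prime `p` of an integrally closed ring. -/
theorem V25_aux {R : Type*} [CommRing R] [Algebra R L] [IsIntegrallyClosedIn R L]
    (p : Ideal R) (z : L) (n : ℕ) : ∀ P : R[X], P.natDegree ≤ n →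
      (∃ i, P.coeff i ∉ p) → aeval z P = 0 →
      (∃ a b : R, b ∉ p ∧ z * algebraMap R L b = algebraMap R L a) ∨
      (∃ a b : R, b ∉ p ∧ z⁻¹ * algebraMap R L b = algebraMap R L a ∧ z ≠ 0) := by
  have hinj : Function.Injective (algebraMap R L) := IsIntegralClosure.algebraMap_injective R R L
  induction n with
  | zero =>
    rintro P hP ⟨i, hi⟩ h0
    exfalso
    rw [Polynomial.eq_C_of_natDegree_le_zero hP, aeval_C] at h0
    have h1 : P.coeff 0 = 0 := hinj (by rw [h0, map_zero])
    rcases i with _ | i
    · exact hi (h1 ▸ p.zero_mem)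
    · rw [Polynomial.coeff_eq_zero_of_natDegree_lt (by omega)] at hi
      exact hi p.zero_mem
  | succ n ih =>
    rintro P hP ⟨i, hi⟩ h0
    -- `b = a z ∈ R`
    obtain ⟨b, hb⟩ : ∃ b : R, algebraMap R L b = algebraMap R L (P.coeff (n + 1)) * z := by
      by_cases ha : P.coeff (n + 1) = 0
      · exact ⟨0, by rw [ha, map_zero, zero_mul]⟩
      · have hdeg : P.natDegree = n + 1 := le_antisymm hP (Polynomial.le_natDegree_of_ne_zero ha)
        have h1 : IsIntegral R (P.leadingCoeff • z) := isIntegral_leadingCoeff_smul P z h0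
        obtain ⟨b, hb⟩ := IsIntegrallyClosedIn.isIntegral_iff.mp h1
        refine ⟨b, ?_⟩
        rw [hb, Algebra.smul_def, Polynomial.leadingCoeff, hdeg]
    by_cases hap : P.coeff (n + 1) ∈ p
    · let Q : R[X] := P.erase (n + 1) + monomial n b
      have hQc : ∀ j, Q.coeff j = (if j = n + 1 then 0 else P.coeff j) + (if n = j then b else 0) :=
        fun j => by
        rw [Polynomial.coeff_add, Polynomial.coeff_erase, Polynomial.coeff_monomial]
      have hQd : Q.natDegree ≤ n := by
        rw [Polynomial.natDegree_le_iff_coeff_eq_zero]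
        intro N hN
        rw [hQc]
        by_cases h1 : N = n + 1
        · rw [if_pos h1, if_neg (by omega), add_zero]
        · rw [if_neg h1, if_neg (by omega), add_zero]
          exact Polynomial.coeff_eq_zero_of_natDegree_lt (by omega)
      have hQz : aeval z Q = 0 := by
        have h1 := Polynomial.monomial_add_erase P (n + 1)
        rw [← h1, map_add, aeval_monomial] at h0
        rw [map_add, aeval_monomial, hb]
        linear_combination h0
      by_cases hQ : ∃ j, Q.coeff j ∉ p
      · exact ih Q hQd hQ hQz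
      · push Not at hQ
        right
        -- the coefficient outside `p` has index `n`
        have hin : i = n := by
          by_contra hin
          have h1 : i ≠ n + 1 := by
            rintro rfl
            exact hi hap
          have h2 := hQ i
          rw [hQc, if_neg h1, if_neg (fun h => hin h.symm), add_zero] at h2
          exact hi h2
        subst hin
        have h2 := hQ i
        rw [hQc, if_neg (by omega), if_pos rfl] at h2
        have hbp : b ∉ p := fun h3 => hi (by
          have := p.sub_mem h2 h3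
          rwa [add_sub_cancel_right] at this)
        have hb0 : algebraMap R L b ≠ 0 := fun h3 => hbp (by
          have : b = 0 := hinj (by rw [h3, map_zero])
          rw [this]; exact p.zero_mem)
        have hz0 : z ≠ 0 := by
          rintro rfl
          rw [mul_zero] at hb
          exact hb0 hb
        refine ⟨P.coeff (i + 1), b, hbp, ?_, hz0⟩
        rw [hb]
        field_simp
    · left
      exact ⟨b, P.coeff (n + 1), hap, by rw [hb, mul_comm]⟩

/-- (V25) Let `D` be an integrally closed local subring of `L` and `z : L` a root of a polynomial over `D`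
with some coefficient a unit of `D`. Then `z ∈ D` or `z⁻¹ ∈ D`. (Kaplansky, Theorem 67.) Proof by induction on the
degree `n` of `P = a_n X^n + ... + a_0`. If `a_n` is a unit of `D` then `z` is integral over `D`, so `z ∈ D`. Otherwise
`b = a_n z` is integral over `D` (multiply the equation by `a_n ^ (n - 1)`), so `b ∈ D`, and `z` is a root of
`(b + a_(n-1)) X^(n-1) + a_(n-2) X^(n-2) + ... + a_0`. If some unit coefficient of `P` has index `≤ n - 2`, or
`a_(n-1)` is a unit and `b` is a nonunit, this polynomial has a unit coefficient: induction. Otherwise `b`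
is a unit of `D` and `z⁻¹ = a_n / b ∈ D`. (State the induction for `natDegree P ≤ n`; the degenerate cases
`n = 0`, where the unit coefficient would be `0`, are contradictory.) -/
theorem mem_or_inv_mem_of_root (D : LocalSubring L) (hD : IsIntegrallyClosedIn D.toSubring L)
    (z : L) (P : L[X]) (hP : ∀ n, P.coeff n ∈ D.toSubring)
    (hunit : ∃ n, P.coeff n ≠ 0 ∧ (P.coeff n)⁻¹ ∈ D.toSubring) (hroot : P.eval z = 0) :
    z ∈ D.toSubring ∨ z⁻¹ ∈ D.toSubring := by
  have := D.isLocalRing
  -- lift the polynomial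
  have hlift : P ∈ Polynomial.lifts (algebraMap D.toSubring L) := by
    rw [Polynomial.lifts_iff_coeff_lifts]
    intro n
    exact ⟨⟨P.coeff n, hP n⟩, rfl⟩
  obtain ⟨Q, hQ⟩ := (Polynomial.mem_lifts _).mp hlift
  have hQc : ∀ n, ((Q.coeff n : D.toSubring) : L) = P.coeff n := fun n => by
    rw [← hQ, Polynomial.coeff_map]
    rfl
  have hQz : aeval z Q = 0 := by
    rw [aeval_def, ← Polynomial.eval_map, hQ]
    exact hroot
  obtain ⟨n, hn0, hn⟩ := hunit
  have hnu : IsUnit (Q.coeff n) := by
    refine IsUnit.of_mul_eq_one ⟨(P.coeff n)⁻¹, hn⟩ ?_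
    apply Subtype.ext
    change ((Q.coeff n : D.toSubring) : L) * (P.coeff n)⁻¹ = 1
    rw [hQc, mul_inv_cancel₀ hn0]
  have hmem : ∀ a b : D.toSubring, b ∉ IsLocalRing.maximalIdeal D.toSubring → ∀ w : L,
      w * (b : L) = (a : L) → w ∈ D.toSubring := fun a b hb w hw => by
    have hbu : IsUnit b := by
      rw [IsLocalRing.mem_maximalIdeal, mem_nonunits_iff, not_not] at hb
      exact hb
    obtain ⟨c, hc⟩ := isUnit_iff_exists_inv.mp hbu
    have hc' : (b : L) * (c : L) = 1 := by
      have := congrArg (Subtype.val) hc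
      simpa using this
    have : w = (a : L) * (c : L) := by
      rw [← hw, mul_assoc, hc', mul_one]
    rw [this]
    exact mul_mem a.2 c.2
  rcases V25_aux (L := L) (IsLocalRing.maximalIdeal D.toSubring) z Q.natDegree Q le_rfl
    ⟨n, by rw [IsLocalRing.mem_maximalIdeal, mem_nonunits_iff, not_not]; exact hnu⟩ hQz with
    ⟨a, b, hb, h⟩ | ⟨a, b, hb, h, -⟩
  · exact Or.inl (hmem a b hb z h)
  · exact Or.inr (hmem a b hb _ h)
-- END V25

-- BEGIN V26
/-- a primitive equation for `z`: polynomials `q i` over `O`, one of them primitive -/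
private theorem V26_eq (O : ValuationSubring K) (t : L) (halg : Algebra.IsAlgebraic K⟮t⟯ L)
    (z : L) : ∃ (N : ℕ) (q : ℕ → K[X]), (∀ i n, (q i).coeff n ∈ O) ∧
      (∃ i ≤ N, ∃ n, (q i).coeff n ∉ O.nonunits) ∧
      ∑ i ∈ Finset.range (N + 1), aeval t (q i) * z ^ i = 0 := by
  classical
  open scoped IntermediateField.algebraAdjoinAdjoin in
  have h1 : IsAlgebraic (Algebra.adjoin K {t}) z :=
    (IsFractionRing.isAlgebraic_iff (Algebra.adjoin K {t}) K⟮t⟯ L).mpr (halg.isAlgebraic z)
  obtain ⟨Q, hQ0, hQ⟩ := h1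
  have h3 : ∀ x ∈ Algebra.adjoin K {t}, ∃ p : K[X], aeval t p = x := fun x hx => by
    rw [Algebra.adjoin_singleton_eq_range_aeval] at hx
    exact hx
  have h2 : ∀ i, ∃ p : K[X], aeval t p = ((Q.coeff i : Algebra.adjoin K {t}) : L) := fun i =>
    h3 _ (Q.coeff i).2
  choose p hp using h2
  set N := Q.natDegree with hN
  have hsum : ∑ i ∈ Finset.range (N + 1), aeval t (p i) * z ^ i = 0 := by
    rw [aeval_eq_sum_range] at hQ
    rw [← hQ]
    refine Finset.sum_congr rfl fun i _ => ?_
    rw [hp, Algebra.smul_def]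
    rfl
  have hpN : p N ≠ 0 := fun h0 => by
    have h3 := hp N
    rw [h0, map_zero] at h3
    have h4 : Q.coeff N = 0 := Subtype.ext h3.symm
    exact hQ0 (Polynomial.leadingCoeff_eq_zero.mp h4)
  -- the largest coefficient
  let S : Finset (ℕ × ℕ) := (Finset.range (N + 1)).biUnion fun i => (p i).support.image fun n => (i, n)
  have hS : ∀ i n, (i, n) ∈ S ↔ i ≤ N ∧ (p i).coeff n ≠ 0 := fun i n => by
    simp only [S, Finset.mem_biUnion, Finset.mem_range, Finset.mem_image,
      Polynomial.mem_support_iff, Prod.mk.injEq]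
    constructor
    · rintro ⟨a, ha, b, hb, rfl, rfl⟩
      exact ⟨by omega, hb⟩
    · rintro ⟨ha, hb⟩
      exact ⟨i, by omega, n, hb, rfl, rfl⟩
  have hSne : S.Nonempty := by
    refine ⟨(N, (p N).natDegree), (hS _ _).mpr ⟨le_rfl, ?_⟩⟩
    exact fun h => hpN (Polynomial.leadingCoeff_eq_zero.mp h)
  obtain ⟨⟨i₀, n₀⟩, hm, hmax⟩ := Finset.exists_max_image S
    (fun x => O.valuation ((p x.1).coeff x.2)) hSne
  obtain ⟨hi₀, hc⟩ := (hS _ _).mp hm
  set c := (p i₀).coeff n₀ with hcdef
  refine ⟨N, fun i => if i ≤ N then C c⁻¹ * p i else 0, fun i n => ?_, ⟨i₀, hi₀, n₀, ?_⟩, ?_⟩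
  · beta_reduce
    by_cases hi : i ≤ N
    · rw [if_pos hi, coeff_C_mul, ← O.valuation_le_one_iff, map_mul, map_inv₀]
      by_cases hn : (p i).coeff n = 0
      · rw [hn, map_zero, mul_zero]
        exact zero_le
      · exact inv_mul_le_one_of_le₀ (hmax (i, n) ((hS i n).mpr ⟨hi, hn⟩)) zero_le
    · rw [if_neg hi, coeff_zero]
      exact zero_mem O
  · beta_reduce
    rw [if_pos hi₀, coeff_C_mul, ← hcdef, inv_mul_cancel₀ hc, ValuationSubring.mem_nonunits_iff,
      map_one]
    exact lt_irrefl _
  · have h3 : ∀ i ∈ Finset.range (N + 1), aeval t (if i ≤ N then C c⁻¹ * p i else 0) * z ^ i =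
        algebraMap K L c⁻¹ * (aeval t (p i) * z ^ i) := fun i hi => by
      rw [if_pos (by rw [Finset.mem_range] at hi; omega), map_mul, aeval_C, mul_assoc]
    rw [Finset.sum_congr rfl h3, ← Finset.mul_sum, hsum, mul_zero]

/-- (V26) Two valuation rings over `O`, containing the integrally closed ring `A ∋ t` with the same
centre on `A`, agree if `t` is residually transcendental and `L` is algebraic over `K(t)`. Proof: let `D` be the
localization of `A` at the common centre (elements `a / b`, `a, b ∈ A`, `b ∉ v.nonunits`); it is a local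
subring, integrally closed in `L` (localization), dominated by `v` and `w`. It contains `K(t) ∩ v`: such an
element is `c p(t)/q(t)` with `c ∈ O` and `p, q` primitive over `O` (V5, V6, V7). Every `z : L` is a root of a nonzero
polynomial over `K(t)`; dividing by the coefficient of largest valuation (for `v`), all coefficients are
in `K(t) ∩ v ⊆ D` and one is `1`. By (V25) `z ∈ D` or `z⁻¹ ∈ D`: `D` is a valuation ring, dominated by `v` and `w`,
so `v = D = w` (`ValuationSubring.isMax_toLocalSubring`). -/
theorem eq_of_same_center [IsAlgClosed K] (A : Subring L) (hA : IsIntegrallyClosedIn A L)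
    (hOA : ∀ a ∈ O, algebraMap K L a ∈ A) (t : L) (ht : t ∈ A)
    (halg : Algebra.IsAlgebraic K⟮t⟯ L) (hv : Over O v) (hw : Over O w)
    (hAv : ∀ a ∈ A, a ∈ v) (hAw : ∀ a ∈ A, a ∈ w)
    (hcent : ∀ a ∈ A, a ∈ v.nonunits ↔ a ∈ w.nonunits) (hs : ResTrans O v t) : v = w := by
  classical
  -- the centre
  let p : Ideal A :=
    { carrier := {a | (a : L) ∈ v.nonunits}
      add_mem' := fun {a b} ha hb => by
        have ha' : v.valuation (a : L) < 1 := (ValuationSubring.mem_nonunits_iff _).mp ha
        have hb' : v.valuation (b : L) < 1 := (ValuationSubring.mem_nonunits_iff _).mp hb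
        exact (ValuationSubring.mem_nonunits_iff _).mpr
          (lt_of_le_of_lt (Valuation.map_add _ _ _) (max_lt ha' hb'))
      zero_mem' := by
        refine (ValuationSubring.mem_nonunits_iff _).mpr ?_
        change v.valuation (0 : L) < 1
        rw [map_zero]
        exact zero_lt_one
      smul_mem' := fun a b hb => by
        have hb' : v.valuation (b : L) < 1 := (ValuationSubring.mem_nonunits_iff _).mp hb
        have ha' : v.valuation (a : L) ≤ 1 := (v.valuation_le_one_iff _).mpr (hAv _ a.2)
        refine (ValuationSubring.mem_nonunits_iff _).mpr ?_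
        change v.valuation ((a : L) * (b : L)) < 1
        rw [map_mul, mul_comm]
        exact mul_lt_one_of_lt_of_le hb' ha' }
  have hp : ∀ a : A, a ∈ p ↔ (a : L) ∈ v.nonunits := fun a => Iff.rfl
  have key : ∀ z : L, (∃ a b : A, b ∉ p ∧ z * (b : L) = (a : L)) ∨
      (∃ a b : A, b ∉ p ∧ z⁻¹ * (b : L) = (a : L) ∧ z ≠ 0) := fun z => by
    obtain ⟨N, q, hq, ⟨i, hi, n, hn⟩, hsum⟩ := V26_eq O t halg z
    have hqA : ∀ i, aeval t (q i) ∈ A := fun i => by
      rw [aeval_eq_sum_range]
      refine sum_mem fun j _ => ?_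
      rw [Algebra.smul_def]
      exact mul_mem (hOA _ (hq i j)) (pow_mem ht j)
    let P : A[X] := ∑ i ∈ Finset.range (N + 1), monomial i (⟨aeval t (q i), hqA i⟩ : A)
    have hPc : P.coeff i = ⟨aeval t (q i), hqA i⟩ := by
      simp only [P, Polynomial.finsetSum_coeff, Polynomial.coeff_monomial]
      rw [Finset.sum_ite_eq' , if_pos (Finset.mem_range.mpr (by omega))]
    have hPz : aeval z P = 0 := by
      simp only [P, map_sum, aeval_monomial]
      exact hsum
    exact V25_aux (R := A) p z P.natDegree P le_rfl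
      ⟨i, by rw [hPc, hp]; exact (hs.isUnit_aeval hv (q i) (hq i) ⟨n, hn⟩).2⟩ hPz
  -- units of `v` and `w`
  have hval : ∀ u : ValuationSubring L, (∀ a ∈ A, a ∈ u) → ∀ b : A, (b : L) ∉ u.nonunits →
      u.valuation (b : L) = 1 := fun u hu b hb => by
    rw [ValuationSubring.mem_nonunits_iff, not_lt] at hb
    exact le_antisymm ((u.valuation_le_one_iff _).mpr (hu _ b.2)) hb
  ext z
  rcases key z with ⟨a, b, hb, h⟩ | ⟨a, b, hb, h, hz0⟩
  · have h1 : ∀ u : ValuationSubring L, (∀ a ∈ A, a ∈ u) → (b : L) ∉ u.nonunits → z ∈ u :=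
      fun u hu hbu => by
      rw [← u.valuation_le_one_iff]
      have h2 := congrArg u.valuation h
      rw [map_mul, hval u hu b hbu, mul_one] at h2
      rw [h2]
      exact (u.valuation_le_one_iff _).mpr (hu _ a.2)
    exact ⟨fun _ => h1 w hAw (fun h2 => hb ((hcent _ b.2).mpr h2)), fun _ => h1 v hAv hb⟩
  · have h1 : ∀ u : ValuationSubring L, (∀ a ∈ A, a ∈ u) → (b : L) ∉ u.nonunits →
        (z ∈ u ↔ (a : L) ∉ u.nonunits) := fun u hu hbu => by
      rw [← u.valuation_le_one_iff, ValuationSubring.mem_nonunits_iff, not_lt]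
      have h2 := congrArg u.valuation h
      rw [map_mul, hval u hu b hbu, mul_one, map_inv₀] at h2
      rw [← h2, one_le_inv₀ (zero_lt_iff.2 ((Valuation.ne_zero_iff _).2 hz0))]
    rw [h1 v hAv hb, h1 w hAw (fun h2 => hb ((hcent _ b.2).mpr h2)), hcent _ a.2]
-- END V26

/-! ## Existence of two residually nonrational valuation rings -/

-- BEGIN V27
private theorem V27_aux (O : ValuationSubring K) (s : L) (hs : Transcendental K s)
    (P : Ideal O[X]) (hPprime : P.IsPrime)
    (hPmem : ∀ f : O[X], f ∈ P ↔ ∀ n, f.coeff n ∈ IsLocalRing.maximalIdeal O)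
    (S : Type u) [CommRing S] [IsLocalRing S] [Algebra O[X] S] [IsLocalization.AtPrime S P] :
    ∃ v : ValuationSubring L, Over O v ∧ ResTrans O v s := by
  classical
  let f₀ : O[X] →+* L := eval₂RingHom ((algebraMap K L).comp O.subtype) s
  have hf₀ : ∀ f : O[X], f₀ f = aeval s (f.map O.subtype) := fun f => by
    rw [aeval_def, Polynomial.eval₂_map]
    rfl
  have hf₀inj : ∀ f : O[X], f ≠ 0 → f₀ f ≠ 0 := fun f hf h0 => by
    rw [hf₀] at h0
    apply hf
    have h1 : f.map O.subtype = 0 := by
      by_contra h2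
      exact hs ⟨_, h2, h0⟩
    exact (Polynomial.map_eq_zero_iff (Subtype.val_injective)).mp h1
  have hunit : ∀ y : P.primeCompl, IsUnit (f₀ (y : O[X])) := fun y => by
    refine (hf₀inj _ fun h => ?_).isUnit
    have h2 := y.2
    rw [h] at h2
    exact h2 P.zero_mem
  let f : S →+* L := IsLocalization.lift (M := P.primeCompl) hunit
  have hf : ∀ g : O[X], f (algebraMap _ _ g) = f₀ g := fun g => IsLocalization.lift_eq hunit g
  obtain ⟨v, h, hloc⟩ := IsLocalRing.exists_factor_valuationRing f
  have hmemv : ∀ g : O[X], f₀ g ∈ v := fun g => by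
    rw [← hf]
    exact h _
  have hnon : ∀ x : S, f x ∈ v.nonunits ↔ ¬ IsUnit x := fun x => by
    rw [ValuationSubring.mem_nonunits_iff_exists_mem_maximalIdeal]
    constructor
    · rintro ⟨h2, h3⟩ h4
      rw [IsLocalRing.mem_maximalIdeal, mem_nonunits_iff] at h3
      apply h3
      have h5 := h4.map (f.codRestrict v.toSubring h)
      exact h5
    · intro h2
      refine ⟨h x, ?_⟩
      rw [IsLocalRing.mem_maximalIdeal, mem_nonunits_iff]
      intro h3
      exact h2 (hloc.map_nonunit x h3)
  have hnon' : ∀ g : O[X], f₀ g ∈ v.nonunits ↔ g ∈ P := fun g => by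
    rw [← hf, hnon, ← not_iff_not, not_not]
    rw [IsLocalization.AtPrime.isUnit_to_map_iff S P g]
    rfl
  refine ⟨v, over_of_le (fun a ha => ?_) (fun a ha => ?_), ?_, fun a ha => ?_⟩
  · have h1 := hmemv (C ⟨a, ha⟩)
    rw [hf₀, map_C, aeval_C] at h1
    exact h1
  · have haO : a ∈ O := O.nonunits_subset ha
    have h1 : f₀ (C ⟨a, haO⟩) ∈ v.nonunits := by
      rw [hnon', hPmem]
      intro n
      rw [coeff_C]
      split_ifs
      · obtain ⟨h3, h4⟩ := ValuationSubring.mem_nonunits_iff_exists_mem_maximalIdeal.mp ha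
        exact h4
      · exact Ideal.zero_mem _
    rw [hf₀, map_C, aeval_C] at h1
    exact h1
  · have h1 := hmemv X
    rw [hf₀, map_X, aeval_X] at h1
    exact h1
  · intro h1
    have h2 : f₀ (X - C ⟨a, ha⟩) ∈ v.nonunits := by
      rw [hf₀, Polynomial.map_sub, map_X, map_C, map_sub, aeval_X, aeval_C]
      exact h1
    rw [hnon', hPmem] at h2
    have h3 := h2 1
    rw [coeff_sub, coeff_X_one, coeff_C, if_neg one_ne_zero, sub_zero,
      IsLocalRing.mem_maximalIdeal, mem_nonunits_iff] at h3
    exact h3 isUnit_one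

/-- (V27) The Gauss valuation ring with respect to `s`, extended to `L`: apply
`IsLocalRing.exists_factor_valuationRing` (or `LocalSubring.exists_le_valuationSubring`) to the localization of
`O[X]` at the prime ideal `(maximalIdeal O).map C`, mapped to `L` by `X ↦ s` (injective since `s` is
transcendental); use (V3). -/
theorem exists_resTrans (O : ValuationSubring K) (s : L) (hs : Transcendental K s) :
    ∃ v : ValuationSubring L, Over O v ∧ ResTrans O v s := by
  have hP : ((IsLocalRing.maximalIdeal O).map C : Ideal O[X]).IsPrime :=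
    Ideal.isPrime_map_C_of_isPrime
  exact V27_aux O s hs _ hP (fun f => Ideal.mem_map_C_iff)
    (Localization.AtPrime ((IsLocalRing.maximalIdeal O).map C : Ideal O[X]))
-- END V27

-- BEGIN V28
theorem V28_mem_of_sq {v : ValuationSubring L} {y : L} (h : y ^ 2 ∈ v) : y ∈ v := by
  rcases v.mem_or_inv_mem y with h1 | h1
  · exact h1
  · by_cases hy : y = 0
    · rw [hy]; exact zero_mem v
    · have : y = y ^ 2 * y⁻¹ := by field_simp
      rw [this]
      exact mul_mem h h1

theorem V28_mul_nonunits {v : ValuationSubring L} {a b : L} (ha : a ∈ v.nonunits) (hb : b ∈ v) :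
    a * b ∈ v.nonunits := by
  rw [ValuationSubring.mem_nonunits_iff] at ha ⊢
  rw [map_mul]
  exact mul_lt_one_of_lt_of_le ha ((v.valuation_le_one_iff _).mpr hb)

/-- (V28) The component where `x` is a coordinate. -/
theorem nonrational_first (hv : Over O v) (x y : L) (hx : ResTrans O v x) (c : K)
    (hc : c ∈ O.nonunits) (h : y ^ 2 = x * (x ^ 2 - 1) * (1 - algebraMap K L c * x ^ 2)) :
    Nonrational O v := by
  have hcv : algebraMap K L c ∈ v.nonunits := (hv.nonunits_iff c).mpr hc
  have hcv' : algebraMap K L c ∈ v := v.nonunits_subset hcv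
  have hxv := hx.1
  have hx2 : x ^ 2 - 1 ∈ v := sub_mem (pow_mem hxv 2) (one_mem v)
  refine ⟨x, y, hxv, V28_mem_of_sq ?_, ?_, hx.2⟩
  · rw [h]
    exact mul_mem (mul_mem hxv hx2) (sub_mem (one_mem v) (mul_mem hcv' (pow_mem hxv 2)))
  · have e1 : y ^ 2 - x ^ 3 + x = algebraMap K L c * (-(x ^ 3 * (x ^ 2 - 1))) := by
      rw [h]; ring
    rw [e1]
    exact V28_mul_nonunits hcv (neg_mem (mul_mem (pow_mem hxv 3) hx2))
-- END V28

-- BEGIN V29
/-- (V29) The component where `z = ν x`, `ν² = c`, is a coordinate: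
`Y = ρ y / z` with `ρ² = -ν³` satisfies `Y² = z³ - (1 + ν²) z + ν² / z`, and `z` is a unit of `v`. -/
theorem nonrational_second [IsAlgClosed K] (hv : Over O v) (x y : L) (ν c : K) (hν : ν ^ 2 = c)
    (hc0 : c ≠ 0) (hc : c ∈ O.nonunits) (hx : ResTrans O v (algebraMap K L ν * x))
    (h : y ^ 2 = x * (x ^ 2 - 1) * (1 - algebraMap K L c * x ^ 2)) :
    Nonrational O v := by
  obtain ⟨ρ, hρ⟩ := IsAlgClosed.exists_pow_nat_eq (-(ν ^ 3)) (n := 2) (by norm_num)
  have hν0 : ν ≠ 0 := by
    rintro rfl
    exact hc0 (by rw [← hν]; ring)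
  have hcv : algebraMap K L c ∈ v.nonunits := (hv.nonunits_iff c).mpr hc
  set n : L := algebraMap K L ν with hn
  set r : L := algebraMap K L ρ with hr
  have hn0 : n ≠ 0 := (map_ne_zero (algebraMap K L)).mpr hν0
  have hcn : algebraMap K L c = n ^ 2 := by rw [hn, ← map_pow, hν]
  have hrn : r ^ 2 = -(n ^ 3) := by rw [hr, hn, ← map_pow, hρ, map_neg, map_pow]
  have hzv : n * x ∈ v := hx.1
  have hznu : n * x ∉ v.nonunits := fun h1 => hx.2 0 (zero_mem O) (by
    rw [map_zero, sub_zero]; exact h1)
  have hz0 : n * x ≠ 0 := fun h0 => hznu (by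
    rw [h0, ValuationSubring.mem_nonunits_iff, map_zero]
    exact zero_lt_one)
  have hx0 : x ≠ 0 := right_ne_zero_of_mul hz0
  have hzinv : (n * x)⁻¹ ∈ v := by
    rw [ValuationSubring.mem_nonunits_iff, not_lt] at hznu
    rw [← v.valuation_le_one_iff, map_inv₀]
    exact inv_le_one_of_one_le₀ hznu
  have hY : (r * y / (n * x)) ^ 2 =
      (n * x) ^ 3 - (n * x) + algebraMap K L c * ((n * x)⁻¹ - n * x) := by
    rw [hcn] at h ⊢
    rw [div_pow, mul_pow, hrn, h]
    field_simp
    ring
  have hcv' : algebraMap K L c ∈ v := v.nonunits_subset hcv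
  have hd : (n * x)⁻¹ - n * x ∈ v := sub_mem hzinv hzv
  refine ⟨n * x, r * y / (n * x), hzv, V28_mem_of_sq ?_, ?_, hx.2⟩
  · rw [hY]
    exact add_mem (sub_mem (pow_mem hzv 3) hzv) (mul_mem hcv' hd)
  · have e1 : (r * y / (n * x)) ^ 2 - (n * x) ^ 3 + n * x =
        algebraMap K L c * ((n * x)⁻¹ - n * x) := by
      rw [hY]; ring
    rw [e1]
    exact V28_mul_nonunits hcv hd
-- END V29

-- BEGIN V30
/-- (V30) -/
theorem exists_nonrational_pair' [IsAlgClosed K] (O : ValuationSubring K) (x y : L)
    (hx : Transcendental K x) (c : K) (hc : c ≠ 0) (hcO : c ∈ O.nonunits)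
    (h : y ^ 2 = x * (x ^ 2 - 1) * (1 - algebraMap K L c * x ^ 2)) :
    ∃ v w : ValuationSubring L, Over O v ∧ Over O w ∧ Nonrational O v ∧ Nonrational O w ∧ v ≠ w := by
  obtain ⟨ν, hν⟩ := IsAlgClosed.exists_pow_nat_eq c (n := 2) (by norm_num)
  have hν0 : ν ≠ 0 := by
    rintro rfl
    apply hc
    rw [← hν]
    norm_num
  have hνO : ν ∈ O.nonunits := by
    rw [ValuationSubring.mem_nonunits_iff] at hcO ⊢
    rw [← hν, map_pow] at hcO
    by_contra h1
    rw [not_lt] at h1
    exact absurd hcO (not_lt.2 (one_le_pow_of_one_le' h1 2))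
  have hz : Transcendental K (algebraMap K L ν * x) := by
    intro halg
    apply hx
    have h1 : IsAlgebraic K (algebraMap K L ν⁻¹ * (algebraMap K L ν * x)) :=
      (isAlgebraic_algebraMap _).mul halg
    have h2 : algebraMap K L ν⁻¹ * (algebraMap K L ν * x) = x := by
      rw [← mul_assoc, ← map_mul, inv_mul_cancel₀ hν0, map_one, one_mul]
    rwa [h2] at h1
  obtain ⟨v, hv, hvx⟩ := exists_resTrans O x hx
  obtain ⟨w, hw, hwz⟩ := exists_resTrans O _ hz
  refine ⟨v, w, hv, hw, nonrational_first hv x y hvx c hcO h,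
    nonrational_second hw x y ν c hν hc hcO hwz h, ?_⟩
  rintro rfl
  apply hwz.2 0 O.zero_mem
  rw [map_zero, sub_zero]
  have h1 : algebraMap K L ν ∈ v.nonunits := (Over.nonunits_iff hv ν).2 hνO
  rw [ValuationSubring.mem_nonunits_iff] at h1 ⊢
  have h2 : v.valuation x ≤ 1 := (v.valuation_le_one_iff x).2 hvx.1
  rw [map_mul]
  calc v.valuation (algebraMap K L ν) * v.valuation x ≤ v.valuation (algebraMap K L ν) * 1 :=
        mul_le_mul_right h2 _
    _ < 1 := by rw [mul_one]; exact h1
-- END V30

end Pool.Agent.Lib.MP_211349_ag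
end
end
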