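import Pool.Agent.Lib.MP_211349_ag.S.Alg
import Pool.Agent.Lib.MP_211349_ag.Mg.G005
import Pool.Agent.Lib.MP_211349_ag.Mg.G009
import Pool.Agent.Lib.MP_211349_ag.Mg.G008
import Pool.Agent.Lib.MP_211349_ag.M.Sch

section

/-!
# The curve is proper
-/

open CategoryTheory Limits AlgebraicGeometry Polynomial

universe u

noncomputable section

namespace Pool.Agent.Lib.MP_211349_ag

variable {R : Type u} [CommRing R] {c : R}

-- BEGIN SC1
theorem SC1_factors {V A : Type u} [CommRing V] [IsLocalRing V] [CommRing A] {X : Scheme.{u}}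
    (j : Spec (.of A) ⟶ X) [IsOpenImmersion j] (l : Spec (.of V) ⟶ X)
    (h : l (IsLocalRing.closedPoint V) ∈ Set.range j) :
    ∃ φ : A →+* V, l = Spec.map (CommRingCat.ofHom φ) ≫ j := by
  have h1 : l ⁻¹ᵁ j.opensRange = ⊤ := by
    have h2 : (IsLocalRing.closedPoint V : Spec (.of V)) ∈ l ⁻¹ᵁ j.opensRange := h
    rw [eq_top_iff]
    intro z _
    exact (IsLocalRing.specializes_closedPoint (R := V) z).mem_open (l ⁻¹ᵁ j.opensRange).2 h2
  have h3 : Set.range l ⊆ Set.range j := by
    rintro _ ⟨z, rfl⟩
    have : z ∈ l ⁻¹ᵁ j.opensRange := h1 ▸ trivial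
    exact this
  refine ⟨(Spec.preimage (IsOpenImmersion.lift j l h3)).hom, ?_⟩
  rw [CommRingCat.ofHom_hom, Spec.map_preimage, IsOpenImmersion.lift_fac]

/-- A morphism from the spectrum of a local ring to the curve factors through one of the two
charts (look at the image of the closed point; `IsOpenImmersion.lift`, `Spec.preimage`). -/
theorem factors_of_local (V : Type u) [CommRing V] [IsLocalRing V]
    (l : Spec (.of V) ⟶ curve R c) :
    (∃ φ : A0 c →+* V, l = Spec.map (CommRingCat.ofHom φ) ≫ chart0 R c) ∨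
      ∃ φ : A1 c →+* V, l = Spec.map (CommRingCat.ofHom φ) ≫ chart1 R c := by
  rcases chart_cover R c (l (IsLocalRing.closedPoint V)) with ⟨x, hx⟩ | ⟨x, hx⟩
  · exact Or.inl (SC1_factors _ l ⟨x, hx⟩)
  · exact Or.inr (SC1_factors _ l ⟨x, hx⟩)
-- END SC1

-- BEGIN SC2
/-- If `φ x` is a unit then the morphism given by `φ : A0 → S` factors through the second chart
(`φ` extends to `Ov`; `ov0_chart0`). -/
theorem chart0_to_chart1 {S : Type u} [CommRing S] (φ : A0 c →+* S)
    (hx : IsUnit (φ (DC.x (f0 c)))) :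
    ∃ φ' : A1 c →+* S,
      Spec.map (CommRingCat.ofHom φ) ≫ chart0 R c = Spec.map (CommRingCat.ofHom φ') ≫ chart1 R c ∧
      φ' (DC.x (f1 c)) * φ (DC.x (f0 c)) = 1 := by
  let ψ : Ov c →+* S := IsLocalization.Away.lift (DC.x (f0 c)) (g := φ) hx
  have hψ : ψ.comp (algebraMap (A0 c) (Ov c)) = φ :=
    IsLocalization.Away.lift_comp (DC.x (f0 c)) hx
  refine ⟨ψ.comp (toOv c), ?_, ?_⟩
  · have h1 : Spec.map (CommRingCat.ofHom φ) = Spec.map (CommRingCat.ofHom ψ) ≫ ov0 R c := by
      rw [ov0, ← Spec.map_comp, ← CommRingCat.ofHom_comp, hψ]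
    have h2 : Spec.map (CommRingCat.ofHom (ψ.comp (toOv c))) =
        Spec.map (CommRingCat.ofHom ψ) ≫ ov1 R c := by
      rw [ov1, ← Spec.map_comp, ← CommRingCat.ofHom_comp]
    rw [h1, h2, Category.assoc, Category.assoc, ov0_chart0]
  · have h3 : φ (DC.x (f0 c)) = ψ (algebraMap (A0 c) (Ov c) (DC.x (f0 c))) := by
      conv_lhs => rw [← hψ]
      rfl
    rw [RingHom.comp_apply, toOv_x, h3, ← map_mul, mul_comm, Ov.x_mul_xinv, map_one]

/-- If `φ t` is a unit then the morphism given by `φ : A1 → S` factors through the first chart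
(`isLocalization_toOv`, or `ovEquiv`). -/
theorem chart1_to_chart0 {S : Type u} [CommRing S] (φ : A1 c →+* S)
    (hx : IsUnit (φ (DC.x (f1 c)))) :
    ∃ φ' : A0 c →+* S,
      Spec.map (CommRingCat.ofHom φ) ≫ chart1 R c = Spec.map (CommRingCat.ofHom φ') ≫ chart0 R c ∧
      φ' (DC.x (f0 c)) * φ (DC.x (f1 c)) = 1 := by
  let χ : Localization.Away (DC.x (f1 c)) →+* S :=
    IsLocalization.Away.lift (DC.x (f1 c)) (g := φ) hx
  have hχ : χ.comp (algebraMap (A1 c) (Localization.Away (DC.x (f1 c)))) = φ :=
    IsLocalization.Away.lift_comp (DC.x (f1 c)) hx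
  let ψ : Ov c →+* S := χ.comp (ovTo c)
  have hψ : ψ.comp (toOv c) = φ := by
    rw [RingHom.comp_assoc, ovTo_comp_toOv, hχ]
  refine ⟨ψ.comp (algebraMap (A0 c) (Ov c)), ?_, ?_⟩
  · have h1 : Spec.map (CommRingCat.ofHom φ) = Spec.map (CommRingCat.ofHom ψ) ≫ ov1 R c := by
      rw [ov1, ← Spec.map_comp, ← CommRingCat.ofHom_comp, hψ]
    have h2 : Spec.map (CommRingCat.ofHom (ψ.comp (algebraMap (A0 c) (Ov c)))) =
        Spec.map (CommRingCat.ofHom ψ) ≫ ov0 R c := by
      rw [ov0, ← Spec.map_comp, ← CommRingCat.ofHom_comp]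
    rw [h1, h2, Category.assoc, Category.assoc, ov0_chart0]
  · have h3 : φ (DC.x (f1 c)) = ψ (toOv c (DC.x (f1 c))) := by
      conv_lhs => rw [← hψ]
      rfl
    rw [RingHom.comp_apply, h3, ← map_mul, toOv_x, Ov.x_mul_xinv, map_one]
-- END SC2

-- BEGIN SC3
/-- Two points with values in `S`, one in each chart, which agree, have `x t = 1`
(`isPullback_charts`). -/
theorem mul_eq_one_of_charts {S : Type u} [CommRing S] (φ : A0 c →+* S) (ψ : A1 c →+* S)
    (h : Spec.map (CommRingCat.ofHom φ) ≫ chart0 R c = Spec.map (CommRingCat.ofHom ψ) ≫ chart1 R c) :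
    φ (DC.x (f0 c)) * ψ (DC.x (f1 c)) = 1 := by
  obtain ⟨l, hl0, hl1⟩ : ∃ l : Spec (.of S) ⟶ Spec (.of (Ov c)),
      l ≫ ov0 R c = Spec.map (CommRingCat.ofHom φ) ∧
      l ≫ ov1 R c = Spec.map (CommRingCat.ofHom ψ) :=
    ⟨(isPullback_charts R c).lift _ _ h, (isPullback_charts R c).lift_fst _ _ h,
      (isPullback_charts R c).lift_snd _ _ h⟩
  obtain ⟨χ, rfl⟩ := Spec.map_surjective l
  rw [ov0, ← Spec.map_comp] at hl0
  rw [ov1, ← Spec.map_comp] at hl1
  have e0 := congrArg CommRingCat.Hom.hom (Spec.map_injective hl0)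
  have e1 := congrArg CommRingCat.Hom.hom (Spec.map_injective hl1)
  have h0 := RingHom.congr_fun e0 (DC.x (f0 c))
  have h1 := RingHom.congr_fun e1 (DC.x (f1 c))
  change χ.hom (algebraMap (A0 c) (Ov c) (DC.x (f0 c))) = φ _ at h0
  change χ.hom (toOv c (DC.x (f1 c))) = ψ _ at h1
  rw [← h0, ← h1, toOv_x, ← map_mul, Ov.x_mul_xinv, map_one]
-- END SC3

section valuation

variable {V K : Type u} [CommRing V] [IsDomain V] [ValuationRing V]
  [Field K] [Algebra V K] [IsFractionRing V K]

-- BEGIN SC4
theorem SC4_mem (x : K) : x ∈ (algebraMap V K).range ∨ (x ≠ 0 ∧ x⁻¹ ∈ (algebraMap V K).range) := by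
  by_cases hx : x = 0
  · left
    rw [hx]
    exact zero_mem _
  · rcases ValuationRing.isInteger_or_isInteger V x with h | h
    · left
      obtain ⟨v, hv⟩ := h
      exact ⟨v, hv⟩
    · right
      obtain ⟨v, hv⟩ := h
      exact ⟨hx, v, hv⟩

/-- Every `K`-point over `V` comes from a chart in which the coordinate `x` resp. `t` is in `V`
(`factors_of_local` for `K`; `ValuationRing.isInteger_or_isInteger`; `chart0_to_chart1`,
`chart1_to_chart0`). -/
theorem exists_chart_integral (i : Spec (.of K) ⟶ curve R c) :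
    (∃ φ : A0 c →+* K, i = Spec.map (CommRingCat.ofHom φ) ≫ chart0 R c ∧
      φ (DC.x (f0 c)) ∈ (algebraMap V K).range) ∨
    ∃ φ : A1 c →+* K, i = Spec.map (CommRingCat.ofHom φ) ≫ chart1 R c ∧
      φ (DC.x (f1 c)) ∈ (algebraMap V K).range := by
  rcases factors_of_local K i with ⟨φ, hφ⟩ | ⟨φ, hφ⟩
  · rcases SC4_mem (V := V) (φ (DC.x (f0 c))) with h | ⟨h0, h⟩
    · exact Or.inl ⟨φ, hφ, h⟩
    · obtain ⟨φ', h1, h2⟩ := chart0_to_chart1 φ (isUnit_iff_ne_zero.2 h0)
      refine Or.inr ⟨φ', hφ.trans h1, ?_⟩
      rw [eq_inv_of_mul_eq_one_left h2]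
      exact h
  · rcases SC4_mem (V := V) (φ (DC.x (f1 c))) with h | ⟨h0, h⟩
    · exact Or.inr ⟨φ, hφ, h⟩
    · obtain ⟨φ', h1, h2⟩ := chart1_to_chart0 φ (isUnit_iff_ne_zero.2 h0)
      refine Or.inl ⟨φ', hφ.trans h1, ?_⟩
      rw [eq_inv_of_mul_eq_one_left h2]
      exact h
-- END SC4

-- BEGIN SC5
/-- The existence part of the valuative criterion (`exists_chart_integral`,
`DC.lift_valuation`). -/
theorem curve_exists_lift (i : Spec (.of K) ⟶ curve R c) (j : Spec (.of V) ⟶ Spec (.of R))
    (h : i ≫ toSpec R c = Spec.map (CommRingCat.ofHom (algebraMap V K)) ≫ j) :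
    ∃ l : Spec (.of V) ⟶ curve R c,
      Spec.map (CommRingCat.ofHom (algebraMap V K)) ≫ l = i ∧ l ≫ toSpec R c = j := by
  obtain ⟨ρ', rfl⟩ := Spec.map_surjective j
  obtain ⟨ρ, rfl⟩ : ∃ ρ : R →+* V, CommRingCat.ofHom ρ = ρ' := ⟨ρ'.hom, CommRingCat.ofHom_hom ρ'⟩
  have key : ∀ (A : Type u) [CommRing A] [Algebra R A] (φ : A →+* K)
      (hh : Spec.map (CommRingCat.ofHom φ) ≫ Spec.map (CommRingCat.ofHom (algebraMap R A)) =
        Spec.map (CommRingCat.ofHom (algebraMap V K)) ≫ Spec.map (CommRingCat.ofHom ρ)),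
      φ.comp (algebraMap R A) = (algebraMap V K).comp ρ := by
    intro A _ _ φ hh
    rw [← Spec.map_comp, ← Spec.map_comp, ← CommRingCat.ofHom_comp, ← CommRingCat.ofHom_comp] at hh
    exact congrArg CommRingCat.Hom.hom (Spec.map_injective hh)
  rcases exists_chart_integral (V := V) i with ⟨φ, rfl, hx⟩ | ⟨φ, rfl, hx⟩
  · rw [Category.assoc, chart0_toSpec] at h
    obtain ⟨ψ, h1, h2⟩ := DC.lift_valuation (f0 c) ρ φ (key _ φ h) hx
    refine ⟨Spec.map (CommRingCat.ofHom ψ) ≫ chart0 R c, ?_, ?_⟩
    · rw [← Category.assoc, ← Spec.map_comp, ← CommRingCat.ofHom_comp, h1]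
    · rw [Category.assoc, chart0_toSpec, ← Spec.map_comp, ← CommRingCat.ofHom_comp, h2]
  · rw [Category.assoc, chart1_toSpec] at h
    obtain ⟨ψ, h1, h2⟩ := DC.lift_valuation (f1 c) ρ φ (key _ φ h) hx
    refine ⟨Spec.map (CommRingCat.ofHom ψ) ≫ chart1 R c, ?_, ?_⟩
    · rw [← Category.assoc, ← Spec.map_comp, ← CommRingCat.ofHom_comp, h1]
    · rw [Category.assoc, chart1_toSpec, ← Spec.map_comp, ← CommRingCat.ofHom_comp, h2]
-- END SC5

-- BEGIN SC6
omit [IsDomain V] [ValuationRing V] in
theorem SC6_same {A : Type u} [CommRing A] {X : Scheme.{u}} (ι : Spec (.of A) ⟶ X) [Mono ι]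
    (φ φ' : A →+* V)
    (h : Spec.map (CommRingCat.ofHom (algebraMap V K)) ≫ Spec.map (CommRingCat.ofHom φ) ≫ ι =
      Spec.map (CommRingCat.ofHom (algebraMap V K)) ≫ Spec.map (CommRingCat.ofHom φ') ≫ ι) :
    φ = φ' := by
  rw [← Category.assoc, ← Category.assoc, cancel_mono, ← Spec.map_comp, ← Spec.map_comp] at h
  have h1 := Spec.map_injective h
  have h2 : (algebraMap V K).comp φ = (algebraMap V K).comp φ' := congrArg CommRingCat.Hom.hom h1
  ext a
  exact IsFractionRing.injective V K (RingHom.congr_fun h2 a)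

omit [IsDomain V] [ValuationRing V] in
theorem SC6_mixed (φ : A0 c →+* V) (ψ : A1 c →+* V)
    (h : Spec.map (CommRingCat.ofHom (algebraMap V K)) ≫
        Spec.map (CommRingCat.ofHom φ) ≫ chart0 R c =
      Spec.map (CommRingCat.ofHom (algebraMap V K)) ≫
        Spec.map (CommRingCat.ofHom ψ) ≫ chart1 R c) :
    Spec.map (CommRingCat.ofHom φ) ≫ chart0 R c = Spec.map (CommRingCat.ofHom ψ) ≫ chart1 R c := by
  have h1 : Spec.map (CommRingCat.ofHom ((algebraMap V K).comp φ)) ≫ chart0 R c =
      Spec.map (CommRingCat.ofHom ((algebraMap V K).comp ψ)) ≫ chart1 R c := by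
    rw [CommRingCat.ofHom_comp, CommRingCat.ofHom_comp, Spec.map_comp, Spec.map_comp,
      Category.assoc, Category.assoc]
    exact h
  have h2 := mul_eq_one_of_charts _ _ h1
  rw [RingHom.comp_apply, RingHom.comp_apply, ← map_mul] at h2
  have h3 : φ (DC.x (f0 c)) * ψ (DC.x (f1 c)) = 1 := by
    apply IsFractionRing.injective V K
    rw [h2, map_one]
  obtain ⟨φ', h4, -⟩ := chart0_to_chart1 φ (IsUnit.of_mul_eq_one _ h3)
  rw [h4] at h ⊢
  rw [SC6_same (chart1 R c) φ' ψ h]

/-- The uniqueness part of the valuative criterion (`factors_of_local`; in the mixed case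
`mul_eq_one_of_charts` over `K`, hence over `V`, so `chart0_to_chart1` applies over `V`). -/
theorem curve_lift_unique (l l' : Spec (.of V) ⟶ curve R c)
    (h : Spec.map (CommRingCat.ofHom (algebraMap V K)) ≫ l =
      Spec.map (CommRingCat.ofHom (algebraMap V K)) ≫ l') : l = l' := by
  rcases factors_of_local V l with ⟨φ, rfl⟩ | ⟨φ, rfl⟩ <;>
    rcases factors_of_local V l' with ⟨φ', rfl⟩ | ⟨φ', rfl⟩
  · rw [SC6_same (chart0 R c) φ φ' h]
  · exact SC6_mixed φ φ' h
  · exact (SC6_mixed φ' φ h.symm).symm
  · rw [SC6_same (chart1 R c) φ φ' h]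
-- END SC6

end valuation

-- BEGIN SC7
/-- `IsProper.of_valuativeCriterion`, `ValuativeCriterion.iff`; locally of finite type by
`curve_iff`. -/
theorem curve_isProper' (R : Type u) [CommRing R] (c : R) : IsProper (toSpec R c) := by
  have hfp : ∀ f : R[X], LocallyOfFiniteType
      (Spec.map (CommRingCat.ofHom (algebraMap R (DC f)))) := by
    intro f
    rw [HasRingHomProperty.Spec_iff (P := @LocallyOfFiniteType)]
    have h := finitePresentation_DC f
    exact RingHom.finiteType_algebraMap.mpr inferInstance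
  have hft : LocallyOfFiniteType (toSpec R c) := by
    have hloc : IsZariskiLocalAtSource (@LocallyOfFiniteType : MorphismProperty Scheme.{u}) :=
      HasRingHomProperty.instIsZariskiLocalAtSource (P := @LocallyOfFiniteType)
    rw [curve_iff R c (P := @LocallyOfFiniteType), chart0_toSpec, chart1_toSpec]
    exact ⟨hfp _, hfp _⟩
  refine IsProper.of_valuativeCriterion _ (ValuativeCriterion.iff.mpr ⟨fun S => ?_, fun S => ?_⟩)
  · obtain ⟨l, h1, h2⟩ := curve_exists_lift S.i₁ S.i₂ S.commSq.w
    exact ⟨⟨⟨l, h1, h2⟩⟩⟩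
  · refine ⟨fun a b => ?_⟩
    have h : a.l = b.l := curve_lift_unique (V := S.R) (K := S.K) a.l b.l (a.fac_left.trans b.fac_left.symm)
    exact CommSq.LiftStruct.ext h
-- END SC7

end Pool.Agent.Lib.MP_211349_ag
end
end

section

/-!
# The curve is smooth and integral
-/

open CategoryTheory Limits AlgebraicGeometry Polynomial

universe u

noncomputable section

namespace Pool.Agent.Lib.MP_211349_ag

-- BEGIN SB1
/-- `curve_iff` for `P = @LocallyOfFinitePresentation`, `chart0_toSpec`, `chart1_toSpec`,
`finitePresentation_DC`, `HasRingHomProperty.Spec_iff`. -/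
instance curve_locallyOfFinitePresentation (R : Type u) [CommRing R] (c : R) :
    LocallyOfFinitePresentation (toSpec R c) := by
  have hP : IsZariskiLocalAtSource @LocallyOfFinitePresentation.{u} :=
    HasRingHomProperty.instIsZariskiLocalAtSource (P := @LocallyOfFinitePresentation.{u})
  rw [curve_iff R c (P := @LocallyOfFinitePresentation), chart0_toSpec, chart1_toSpec,
    LocallyOfFinitePresentation.SpecMap_iff, LocallyOfFinitePresentation.SpecMap_iff]
  exact ⟨RingHom.finitePresentation_algebraMap.2 (finitePresentation_DC (f0 c)),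
    RingHom.finitePresentation_algebraMap.2 (finitePresentation_DC (f1 c))⟩
-- END SB1

-- BEGIN SB2
/-- `curve_iff` for `P = @Smooth`, `formallySmooth_DC`, `finitePresentation_DC`,
`separable_f0`, `separable_f1`, `HasRingHomProperty.Spec_iff`. -/
theorem curve_smooth' (R : Type u) [CommRing R] (c : R) (h2 : IsUnit (2 : R)) (hc : IsUnit c)
    (hc1 : IsUnit (1 - c)) : Smooth (toSpec R c) := by
  have hP : IsZariskiLocalAtSource @Smooth.{u} :=
    HasRingHomProperty.instIsZariskiLocalAtSource (P := @Smooth.{u})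
  rw [curve_iff R c (P := @Smooth), chart0_toSpec, chart1_toSpec,
    HasRingHomProperty.Spec_iff (P := @Smooth), HasRingHomProperty.Spec_iff (P := @Smooth)]
  exact ⟨RingHom.smooth_algebraMap.2 ⟨formallySmooth_DC (f0 c) h2 (separable_f0 c h2 hc1),
      finitePresentation_DC (f0 c)⟩,
    RingHom.smooth_algebraMap.2 ⟨formallySmooth_DC (f1 c) h2 (separable_f1 c h2 hc hc1),
      finitePresentation_DC (f1 c)⟩⟩
-- END SB2

-- BEGIN SB3
/-- A union of two irreducible open subspaces with a common point is irreducible. -/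
theorem irreducibleSpace_of_charts {X : Type*} [TopologicalSpace X] {U V : Set X}
    (hU : IsOpen U) (hV : IsOpen V) (hU' : IsIrreducible U) (hV' : IsIrreducible V)
    (h : U ∪ V = Set.univ) (h' : (U ∩ V).Nonempty) : IrreducibleSpace X := by
  have key : ∀ A : Set X, IsOpen A → A.Nonempty → (U ∩ A).Nonempty := by
    rintro A hA ⟨a, ha⟩
    have ha' : a ∈ U ∪ V := h ▸ Set.mem_univ a
    rcases ha' with haU | haV
    · exact ⟨a, haU, ha⟩
    · have h2 : (V ∩ U).Nonempty := by rwa [Set.inter_comm]
      obtain ⟨z, -, hz, hz'⟩ := hV'.2 U A hU hA h2 ⟨a, haV, ha⟩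
      exact ⟨z, hz, hz'⟩
  have hne : Nonempty X := ⟨h'.some⟩
  have hpre : PreirreducibleSpace X := by
    refine ⟨fun A B hA hB hA' hB' => ?_⟩
    rw [Set.univ_inter] at hA' hB' ⊢
    obtain ⟨z, -, hz⟩ := hU'.2 A B hA hB (key A hA hA') (key B hB hB')
    exact ⟨z, hz⟩
  exact { hpre with toNonempty := hne }
-- END SB3

-- BEGIN SB4
/-- The element `x` of the first chart is not zero. -/
private theorem SB4_x_ne_zero (K : Type u) [Field K] (c : K) : DC.x (f0 c) ≠ 0 := by
  intro h
  have h1 := of_injective_DC (f0 c) (a₁ := X) (a₂ := 0) (by rw [map_zero]; exact h)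
  exact X_ne_zero h1

/-- Reduced by `isReduced_of_isOpenImmersion`/`IsReduced.of_openCover (curveCover K c)` from the
domains `A0 c`, `A1 c`; irreducible by `irreducibleSpace_of_charts` (a point of `Spec (Ov c)`:
`Ov c` is a nontrivial localization of a domain at the nonzero element `x`). Then
`isIntegral_of_irreducibleSpace_of_isReduced`. -/
theorem curve_isIntegral' (K : Type u) [Field K] (c : K) (hc : c ≠ 0) :
    IsIntegral (curve K c) := by
  have hd0 : IsDomain (A0 c) := isDomain_A0 c hc
  have hd1 : IsDomain (A1 c) := isDomain_A1 c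
  have hred : IsReduced (curve K c) := by
    have : ∀ i, IsReduced ((curveCover K c).X i) := by
      rintro (_ | _)
      · change IsReduced (Spec (.of (A1 c)))
        infer_instance
      · change IsReduced (Spec (.of (A0 c)))
        infer_instance
    exact IsReduced.of_openCover _ (curveCover K c)
  have hirr : IrreducibleSpace ↥(curve K c) := by
    refine irreducibleSpace_of_charts (U := Set.range (chart0 K c)) (V := Set.range (chart1 K c))
      (chart0 K c).isOpenEmbedding.isOpen_range (chart1 K c).isOpenEmbedding.isOpen_range ?_ ?_ ?_ ?_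
    · have h1 : IrreducibleSpace (Spec (.of (A0 c))) :=
        inferInstanceAs (IrreducibleSpace (PrimeSpectrum (A0 c)))
      rw [← Set.image_univ]
      exact (IrreducibleSpace.isIrreducible_univ _).image _ (chart0 K c).continuous.continuousOn
    · have h1 : IrreducibleSpace (Spec (.of (A1 c))) :=
        inferInstanceAs (IrreducibleSpace (PrimeSpectrum (A1 c)))
      rw [← Set.image_univ]
      exact (IrreducibleSpace.isIrreducible_univ _).image _ (chart1 K c).continuous.continuousOn
    · refine Set.eq_univ_of_forall fun z => ?_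
      rcases chart_cover K c z with ⟨x, hx⟩ | ⟨x, hx⟩
      · exact Or.inl ⟨x, hx⟩
      · exact Or.inr ⟨x, hx⟩
    · have hnt : Nontrivial (Ov c) := by
        by_contra hcon
        rw [not_nontrivial_iff_subsingleton,
          IsLocalization.subsingleton_iff (M := Submonoid.powers (DC.x (f0 c)))] at hcon
        obtain ⟨n, hn⟩ := hcon
        have hn' : DC.x (f0 c) ^ n = 0 := hn
        exact pow_ne_zero n (SB4_x_ne_zero K c) hn'
      obtain ⟨z⟩ : Nonempty (Spec (.of (Ov c))) :=
        inferInstanceAs (Nonempty (PrimeSpectrum (Ov c)))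
      refine ⟨chart0 K c (ov0 K c z), ⟨_, rfl⟩, ⟨ov1 K c z, ?_⟩⟩
      have h2 : (ov0 K c ≫ chart0 K c) z = (ov1 K c ≫ chart1 K c) z := by rw [ov0_chart0]
      simpa using h2.symm
  exact isIntegral_of_irreducibleSpace_of_isReduced _
-- END SB4

end Pool.Agent.Lib.MP_211349_ag
end
end

section

/-!
# Closed centres

`K` is an algebraically closed field with a valuation ring `O`, `L` is an extension field of `K`,
`v`, `w` are valuation rings of `L`.
-/

open Polynomial IntermediateField

universe u

noncomputable section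

namespace Pool.Agent.Lib.MP_211349_ag

variable {K L : Type u} [Field K] [Field L] [Algebra K L] {O : ValuationSubring K}
  {v w : ValuationSubring L}

/-! ## The residue field of `v` is rational if `K(s)` is dense -/

-- BEGIN V15
/-- the inclusion `O → v` -/
private def V15_phi (hv : Over O v) : O →+* v :=
  ((algebraMap K L).comp (algebraMap O K)).codRestrict v.toSubring
    (fun a => (hv.mem_iff (a : K)).2 a.2)

private theorem V15_phi_coe (hv : Over O v) (a : O) :
    ((V15_phi hv a : v) : L) = algebraMap K L (a : K) := rfl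

/-- (V15) The residue field of `v` is a purely transcendental extension of that of `O`, in the form of
a surjective homomorphism from the rational function field (over the residue field `k` of `O`), compatible
with constants. `ψ` maps the variable to the residue of `s`; it exists since the residue of `s` is
transcendental over `k` (V5 / V4); it is surjective by `hd` and (V7), (V6), (V5). -/
theorem exists_ratFunc_hom [IsAlgClosed K] (hv : Over O v) (s : L) (hs : ResTrans O v s)
    (hd : ∀ z ∈ v, ∃ z' ∈ K⟮s⟯, z - z' ∈ v.nonunits) :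
    ∃ ψ : RatFunc (IsLocalRing.ResidueField O) →+* IsLocalRing.ResidueField v,
      Function.Surjective ψ ∧ ∀ (a : O) (a' : v), (a' : L) = algebraMap K L a →
        ψ (RatFunc.C (IsLocalRing.residue O a)) = IsLocalRing.residue v a' := by
  have hloc : IsLocalHom (V15_phi hv) := by
    refine ⟨fun a ha => ?_⟩
    by_contra hna
    have h1 : a ∈ IsLocalRing.maximalIdeal O := (IsLocalRing.mem_maximalIdeal a).2 hna
    rw [← ValuationSubring.coe_mem_nonunits_iff, ← hv.nonunits_iff, ← V15_phi_coe hv,
      ValuationSubring.coe_mem_nonunits_iff] at h1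
    exact (IsLocalRing.mem_maximalIdeal _).1 h1 ha
  set φ : IsLocalRing.ResidueField O →+* IsLocalRing.ResidueField v :=
    IsLocalRing.ResidueField.map (V15_phi hv) with hφ
  set sv : v := ⟨s, hs.1⟩ with hsv
  set sb : IsLocalRing.ResidueField v := IsLocalRing.residue v sv with hsb
  set ev : O[X] →+* v := Polynomial.eval₂RingHom (V15_phi hv) sv with hev
  set g : (IsLocalRing.ResidueField O)[X] →+* IsLocalRing.ResidueField v :=
    Polynomial.eval₂RingHom φ sb with hg
  -- values of `ev`
  have hev1 : ∀ P : O[X], ((ev P : v) : L) = aeval s (P.map (algebraMap O K)) := by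
    intro P
    rw [hev, Polynomial.coe_eval₂RingHom, Polynomial.aeval_def, Polynomial.eval₂_map]
    change v.subtype (eval₂ (V15_phi hv) sv P) = _
    rw [Polynomial.hom_eval₂]
    rfl
  have hev2 : ∀ P : O[X], IsLocalRing.residue v (ev P) = g (P.map (IsLocalRing.residue O)) := by
    intro P
    rw [hev, hg, Polynomial.coe_eval₂RingHom, Polynomial.coe_eval₂RingHom, Polynomial.eval₂_map,
      Polynomial.hom_eval₂]
    rfl
  -- primitive polynomials have unit values
  have hunit : ∀ P : O[X], P.map (IsLocalRing.residue O) ≠ 0 → IsLocalRing.residue v (ev P) ≠ 0 := by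
    intro P hP h0
    obtain ⟨n, hn⟩ : ∃ n, (P.map (IsLocalRing.residue O)).coeff n ≠ 0 := by
      by_contra hcon
      push Not at hcon
      exact hP (Polynomial.ext fun n => by rw [hcon n, coeff_zero])
    have h1 := hs.isUnit_aeval hv (P.map (algebraMap O K))
      (fun m => by rw [coeff_map]; exact (P.coeff m).2)
      ⟨n, by
        rw [coeff_map] at hn ⊢
        intro h2
        apply hn
        rw [IsLocalRing.residue_eq_zero_iff, ← ValuationSubring.coe_mem_nonunits_iff]
        exact h2⟩
    rw [IsLocalRing.residue_eq_zero_iff, ← ValuationSubring.coe_mem_nonunits_iff, hev1] at h0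
    exact h1.2 h0
  have hginj : Function.Injective g := by
    rw [injective_iff_map_eq_zero]
    intro f hf
    by_contra hf0
    obtain ⟨P, rfl⟩ := Polynomial.map_surjective (IsLocalRing.residue O)
      IsLocalRing.residue_surjective f
    rw [← hev2] at hf
    exact hunit P hf0 hf
  refine ⟨IsFractionRing.lift hginj, ?_, ?_⟩
  · intro x
    obtain ⟨z, rfl⟩ := IsLocalRing.residue_surjective x
    obtain ⟨z', hz', hzz⟩ := hd z z.2
    by_cases hz0 : z' = 0
    · refine ⟨0, ?_⟩
      rw [hz0, sub_zero, ValuationSubring.coe_mem_nonunits_iff, ← IsLocalRing.residue_eq_zero_iff]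
        at hzz
      rw [map_zero, hzz]
    obtain ⟨p, q, hpq⟩ := (IntermediateField.mem_adjoin_simple_iff K z').1 hz'
    have hp : p ≠ 0 := by
      rintro rfl
      simp at hpq
      exact hz0 hpq
    have hq : q ≠ 0 := by
      rintro rfl
      simp at hpq
      exact hz0 hpq
    -- primitive lifts
    have hlift : ∀ r : K[X], r ≠ 0 → ∃ (c : K) (R : O[X]), c ≠ 0 ∧
        R.map (IsLocalRing.residue O) ≠ 0 ∧ r = C c * R.map (algebraMap O K) := by
      intro r hr
      obtain ⟨c, hc, h1, n, h2⟩ := exists_primitive O r hr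
      obtain ⟨R, hR⟩ := (Polynomial.mem_lifts (f := algebraMap O K) (C c⁻¹ * r)).1
        ((Polynomial.lifts_iff_coeff_lifts _).2 fun m => ⟨⟨_, h1 m⟩, rfl⟩)
      refine ⟨c, R, hc, ?_, ?_⟩
      · intro h0
        apply h2
        rw [← hR, coeff_map]
        have h3 : IsLocalRing.residue O (R.coeff n) = 0 := by
          rw [← coeff_map, h0, coeff_zero]
        rw [IsLocalRing.residue_eq_zero_iff, ← ValuationSubring.coe_mem_nonunits_iff] at h3
        exact h3
      · rw [hR, ← mul_assoc, ← C_mul, mul_inv_cancel₀ hc, C_1, one_mul]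
    obtain ⟨c, P, hc, hP, hpP⟩ := hlift p hp
    obtain ⟨d, Q, hd', hQ, hqQ⟩ := hlift q hq
    have uP := hunit P hP
    have uQ := hunit Q hQ
    have vP : v.valuation (ev P : L) = 1 := by
      refine le_antisymm ((v.valuation_le_one_iff _).2 (ev P).2) ?_
      rw [← not_lt, ← ValuationSubring.mem_nonunits_iff, ValuationSubring.coe_mem_nonunits_iff,
        ← IsLocalRing.residue_eq_zero_iff]
      exact uP
    have vQ : v.valuation (ev Q : L) = 1 := by
      refine le_antisymm ((v.valuation_le_one_iff _).2 (ev Q).2) ?_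
      rw [← not_lt, ← ValuationSubring.mem_nonunits_iff, ValuationSubring.coe_mem_nonunits_iff,
        ← IsLocalRing.residue_eq_zero_iff]
      exact uQ
    have hz'1 : z' = algebraMap K L (c / d) * (ev P : L) / (ev Q : L) := by
      rw [hpq, hpP, hqQ, map_mul, map_mul, aeval_C, aeval_C, ← hev1, ← hev1, map_div₀]
      have e1 : algebraMap K L d ≠ 0 := (_root_.map_ne_zero _).2 hd'
      have e2 : ((ev Q : v) : L) ≠ 0 := by
        intro h0
        rw [h0, map_zero] at vQ
        exact zero_ne_one vQ
      field_simp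
    have hz'v : z' ∈ v := by
      have h1 : z' = (z : L) - ((z : L) - z') := by ring
      rw [h1]
      exact sub_mem z.2 (ValuationSubring.nonunits_subset hzz)
    have hcd : c / d ∈ O := by
      rw [← hv.mem_iff, ← v.valuation_le_one_iff]
      have h1 : v.valuation z' = v.valuation (algebraMap K L (c / d)) := by
        rw [hz'1, map_div₀, map_mul, vP, vQ, mul_one, div_one]
      rw [← h1]
      exact (v.valuation_le_one_iff _).2 hz'v
    set e : O := ⟨c / d, hcd⟩ with he
    have hres : IsLocalRing.residue v z * IsLocalRing.residue v (ev Q) =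
        IsLocalRing.residue v (V15_phi hv e) * IsLocalRing.residue v (ev P) := by
      rw [← map_mul, ← map_mul, ← sub_eq_zero, ← map_sub, IsLocalRing.residue_eq_zero_iff,
        ← ValuationSubring.coe_mem_nonunits_iff]
      have h1 : ((z * ev Q - V15_phi hv e * ev P : v) : L) = ((z : L) - z') * (ev Q : L) := by
        have e2 : ((ev Q : v) : L) ≠ 0 := by
          intro h0
          rw [h0, map_zero] at vQ
          exact zero_ne_one vQ
        have h2 : z' * (ev Q : L) = algebraMap K L (c / d) * (ev P : L) := by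
          rw [hz'1, div_mul_cancel₀ _ e2]
        rw [sub_mul, h2]
        rfl
      rw [h1, ValuationSubring.mem_nonunits_iff, map_mul, vQ, mul_one]
      exact (ValuationSubring.mem_nonunits_iff _).1 hzz
    refine ⟨RatFunc.C (IsLocalRing.residue O e) *
      algebraMap _ _ (P.map (IsLocalRing.residue O)) /
      algebraMap _ _ (Q.map (IsLocalRing.residue O)), ?_⟩
    rw [map_div₀, map_mul, ← RatFunc.algebraMap_C, IsFractionRing.lift_algebraMap,
      IsFractionRing.lift_algebraMap, IsFractionRing.lift_algebraMap, ← hev2, ← hev2,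
      div_eq_iff uQ, hres]
    congr 1
    rw [hg, Polynomial.coe_eval₂RingHom, Polynomial.eval₂_C, hφ, IsLocalRing.ResidueField.map_residue]
  · intro a a' ha'
    rw [← RatFunc.algebraMap_C, IsFractionRing.lift_algebraMap, hg, Polynomial.coe_eval₂RingHom,
      Polynomial.eval₂_C, hφ, IsLocalRing.ResidueField.map_residue]
    congr 1
    apply Subtype.ext
    rw [V15_phi_coe, ha']
-- END V15

-- BEGIN V16
/-- (V16) The residue field of `O` is algebraically closed (from (V4) with `L = K`, or from
`IsAlgClosed.of_exists_root`: lift a monic irreducible polynomial to a monic polynomial over `O`, it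
has a root in `K`, which is integral over `O`, hence in `O`). -/
theorem residueField_isAlgClosed [IsAlgClosed K] (O : ValuationSubring K) :
    IsAlgClosed (IsLocalRing.ResidueField O) := by
  refine IsAlgClosed.of_exists_root _ fun p hp hirr => ?_
  obtain ⟨P, hPp, hdeg, hPm⟩ := Polynomial.lifts_and_degree_eq_and_monic
    ((Polynomial.lifts_iff_set_range p).2 (Polynomial.map_surjective (IsLocalRing.residue O)
      IsLocalRing.residue_surjective p)) hp
  have hdeg' : (P.map (algebraMap O K)).degree ≠ 0 := by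
    rw [hPm.degree_map, hdeg]
    exact (Polynomial.degree_pos_of_irreducible hirr).ne'
  obtain ⟨x, hx⟩ := IsAlgClosed.exists_root _ hdeg'
  have hint : IsIntegral O x := ⟨P, hPm, by rwa [IsRoot.def, eval_map] at hx⟩
  obtain ⟨y, rfl⟩ := IsIntegrallyClosed.isIntegral_iff.1 hint
  refine ⟨IsLocalRing.residue O y, ?_⟩
  have h1 : P.eval y = 0 := by
    apply IsFractionRing.injective O K
    rw [map_zero, ← Polynomial.eval_map_apply]
    exact hx
  rw [← hPp, Polynomial.eval_map_apply, h1, map_zero]
-- END V16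

-- BEGIN V17
/-- (V17) If `K(s)` is residually dense, `v` is residually rational. From (V15), (V16), (E4). -/
theorem not_nonrational_of_dense [IsAlgClosed K] (h2 : IsUnit (2 : O)) (hv : Over O v) (s : L)
    (hs : ResTrans O v s) (hd : ∀ z ∈ v, ∃ z' ∈ K⟮s⟯, z - z' ∈ v.nonunits) :
    ¬ Nonrational O v := by
  rintro ⟨X, Y, hX, hY, hXY, hne⟩
  obtain ⟨ψ, hψ, hC⟩ := exists_ratFunc_hom hv s hs hd
  have := residueField_isAlgClosed O
  obtain ⟨x, hx⟩ := hψ (IsLocalRing.residue v ⟨X, hX⟩)
  obtain ⟨y, hy⟩ := hψ (IsLocalRing.residue v ⟨Y, hY⟩)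
  have hnon : ∀ z : v, (z : L) ∈ v.nonunits ↔ IsLocalRing.residue v z = 0 := by
    intro z
    rw [IsLocalRing.residue_eq_zero_iff]
    exact ValuationSubring.coe_mem_nonunits_iff
  have hxy : y ^ 2 = x ^ 3 - x := by
    apply ψ.injective
    rw [map_pow, map_sub, map_pow, hx, hy, ← map_pow, ← map_pow, ← map_sub, ← sub_eq_zero,
      ← map_sub, ← hnon]
    have h1 : (((⟨Y, hY⟩ : v) ^ 2 - ((⟨X, hX⟩ : v) ^ 3 - ⟨X, hX⟩) : v) : L) =
        Y ^ 2 - X ^ 3 + X := by
      push_cast
      ring
    rw [h1]
    exact hXY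
  have h2' : (2 : IsLocalRing.ResidueField O) ≠ 0 := by
    have := h2.map (IsLocalRing.residue O)
    rw [map_ofNat] at this
    exact this.ne_zero
  obtain ⟨a, ha⟩ := ratFunc_no_param h2' x y hxy
  obtain ⟨b, rfl⟩ := IsLocalRing.residue_surjective a
  have hbv : algebraMap K L b ∈ v := (Over.mem_iff hv _).2 b.2
  have h3 := hC b ⟨_, hbv⟩ rfl
  rw [← ha, hx, ← sub_eq_zero, ← map_sub, ← hnon] at h3
  exact hne b b.2 h3
-- END V17

/-! ## Algebraic extensions of `K(t)` -/

-- BEGIN V18
/-- (V18) If `L` is algebraic over `K(t)` and `v` has a residually transcendental element then so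
does `K(t)`. Proof: suppose every `z ∈ K(t) ∩ v` is congruent to a constant in `O`. `X` is a root of a nonzero
polynomial over `K(t)`; divide it by its coefficient of largest valuation: all coefficients are in
`v` and one is `1`. Each is congruent to a constant, so there is `p : K[X]` as in (V4) with `aeval X p` a
nonunit: contradiction. -/
theorem exists_resTrans_adjoin [IsAlgClosed K] (hv : Over O v) (t X : L)
    (halg : Algebra.IsAlgebraic K⟮t⟯ L) (hX : ResTrans O v X) :
    ∃ z ∈ K⟮t⟯, ResTrans O v z := by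
  by_contra hcon
  push Not at hcon
  have hconst : ∀ z ∈ K⟮t⟯, z ∈ v → ∃ a ∈ O, z - algebraMap K L a ∈ v.nonunits := by
    intro z hz hzv
    by_contra h1
    push Not at h1
    exact hcon z hz ⟨hzv, h1⟩
  obtain ⟨P, hP, hPX⟩ := halg.isAlgebraic X
  obtain ⟨m, hm, hmax⟩ := Finset.exists_max_image P.support
    (fun n => v.valuation ((P.coeff n : K⟮t⟯) : L)) (Polynomial.support_nonempty.2 hP)
  have hc : P.coeff m ≠ 0 := Polynomial.mem_support_iff.1 hm
  have hcL : ((P.coeff m : K⟮t⟯) : L) ≠ 0 := by
    simpa using hc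
  set b : ℕ → L := fun n => ((P.coeff n / P.coeff m : K⟮t⟯) : L) with hb
  have hbv : ∀ n, b n ∈ v := by
    intro n
    rw [hb, ← v.valuation_le_one_iff]
    change v.valuation (((P.coeff n : K⟮t⟯) : L) / ((P.coeff m : K⟮t⟯) : L)) ≤ 1
    rw [map_div₀]
    by_cases hn : n ∈ P.support
    · exact div_le_one_of_le₀ (hmax n hn) zero_le
    · rw [Polynomial.notMem_support_iff.1 hn]
      simp
  choose a haO ha using fun n => hconst (b n) (SetLike.coe_mem _) (hbv n)
  have hsum : ∑ n ∈ Finset.range (P.natDegree + 1), b n * X ^ n = 0 := by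
    have h1 : ∑ n ∈ Finset.range (P.natDegree + 1), ((P.coeff n : K⟮t⟯) : L) * X ^ n = 0 := by
      rw [Polynomial.aeval_eq_sum_range] at hPX
      exact hPX
    have h2 : ∀ n, b n * X ^ n = (((P.coeff n : K⟮t⟯) : L) * X ^ n) / ((P.coeff m : K⟮t⟯) : L) := by
      intro n
      rw [hb]
      change (((P.coeff n : K⟮t⟯) : L) / ((P.coeff m : K⟮t⟯) : L)) * X ^ n = _
      ring
    simp only [h2]
    rw [← Finset.sum_div, h1, zero_div]
  set p : K[X] := ∑ n ∈ Finset.range (P.natDegree + 1), C (a n) * Polynomial.X ^ n with hp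
  have hcoeff : ∀ n, p.coeff n = if n ∈ Finset.range (P.natDegree + 1) then a n else 0 := by
    intro n
    rw [hp, Polynomial.finsetSum_coeff]
    simp only [Polynomial.coeff_C_mul, Polynomial.coeff_X_pow, mul_ite, mul_one, mul_zero]
    exact Finset.sum_ite_eq _ n a
  obtain ⟨c, hcO, hcX⟩ := exists_residue_root hv p (fun n => by
      rw [hcoeff]
      split_ifs
      · exact haO n
      · exact zero_mem O) ⟨m, by
        have hmr : m ∈ Finset.range (P.natDegree + 1) := by
          rw [Finset.mem_range]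
          exact Nat.lt_succ_of_le (Polynomial.le_natDegree_of_ne_zero hc)
        rw [hcoeff, if_pos hmr, ← hv.nonunits_iff, ValuationSubring.mem_nonunits_iff]
        intro h1
        have h2 := (ValuationSubring.mem_nonunits_iff _).1 (ha m)
        have h3 := Valuation.map_add_lt _ h2 h1
        have h4 : b m = 1 := by
          rw [hb]
          change (((P.coeff m : K⟮t⟯) : L) / ((P.coeff m : K⟮t⟯) : L)) = 1
          exact div_self hcL
        rw [h4, sub_add_cancel, map_one] at h3
        exact lt_irrefl _ h3⟩ X hX.1 (by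
        have h1 : aeval X p = ∑ n ∈ Finset.range (P.natDegree + 1),
            -((b n - algebraMap K L (a n)) * X ^ n) := by
          have h2 : aeval X p = ∑ n ∈ Finset.range (P.natDegree + 1),
              algebraMap K L (a n) * X ^ n := by
            rw [hp, map_sum]
            refine Finset.sum_congr rfl fun n _ => ?_
            rw [map_mul, aeval_C, map_pow, aeval_X]
          rw [h2, ← sub_zero (∑ n ∈ Finset.range (P.natDegree + 1), algebraMap K L (a n) * X ^ n),
            ← hsum, ← Finset.sum_sub_distrib]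
          refine Finset.sum_congr rfl fun n _ => ?_
          ring
        rw [h1, ValuationSubring.mem_nonunits_iff]
        refine Valuation.map_sum_lt _ one_ne_zero fun n _ => ?_
        rw [Valuation.map_neg, map_mul]
        refine mul_lt_one_of_lt_of_le ((ValuationSubring.mem_nonunits_iff _).1 (ha n)) ?_
        exact (v.valuation_le_one_iff _).2 (pow_mem hX.1 n))
  exact hX.2 c hcO hcX
-- END V18

-- BEGIN V19
private theorem v19_le (x : L) : x ∈ v ↔ v.valuation x ≤ 1 := (v.valuation_le_one_iff x).symm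

private theorem v19_lt (x : L) : x ∈ v.nonunits ↔ v.valuation x < 1 :=
  ValuationSubring.mem_nonunits_iff v

/-- (V19) If `L` is algebraic over `K(s)`, `s` residually transcendental, then every element of `L` is bounded
by a constant. Proof: `z` is a root of a monic polynomial over `K(s)`; by (V7) there is `c ∈ K`, with
`c⁻¹` ... such that all coefficients `a_i` (`i < n`) satisfy `a_i / c ∈ v`, `c⁻¹ ∈ O`, so also
`a_i / c^(n-i) ∈ v`: `z / c` is integral over `v`, hence in `v`. -/
theorem exists_bound [IsAlgClosed K] (hv : Over O v) (s : L) (hs : ResTrans O v s)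
    (halg : Algebra.IsAlgebraic K⟮s⟯ L) (z : L) :
    ∃ c : K, c ≠ 0 ∧ z / algebraMap K L c ∈ v := by
  have hbd : ∀ (F : Finset ℕ) (a : ℕ → K⟮s⟯), ∃ c : K, c ≠ 0 ∧
      1 ≤ v.valuation (algebraMap K L c) ∧
      ∀ i ∈ F, v.valuation (a i : L) ≤ v.valuation (algebraMap K L c) := by
    intro F a
    induction F using Finset.induction_on with
    | empty => exact ⟨1, one_ne_zero, by simp, by simp⟩
    | insert j F hj ih =>
      obtain ⟨c, hc, hc1, hcF⟩ := ih
      by_cases h0 : (a j : L) = 0
      · refine ⟨c, hc, hc1, fun i hi => ?_⟩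
        rcases Finset.mem_insert.1 hi with rfl | hi
        · rw [h0, map_zero]
          exact zero_le
        · exact hcF i hi
      · obtain ⟨c', hc', h1, h2⟩ := ResTrans.exists_const hv hs (a j : L) (a j).2 h0
        have hval : v.valuation (a j : L) = v.valuation (algebraMap K L c') := by
          have h3 : v.valuation ((a j : L) / algebraMap K L c') = 1 := by
            rw [v19_le] at h1
            rw [v19_lt] at h2
            exact le_antisymm h1 (not_lt.1 h2)
          rw [map_div₀] at h3
          have hne : v.valuation (algebraMap K L c') ≠ 0 := by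
            rw [Valuation.ne_zero_iff]
            simpa using hc'
          field_simp at h3
          exact h3
        rcases le_total (v.valuation (algebraMap K L c)) (v.valuation (algebraMap K L c')) with
          hle | hle
        · refine ⟨c', hc', hc1.trans hle, fun i hi => ?_⟩
          rcases Finset.mem_insert.1 hi with rfl | hi
          · exact hval.le
          · exact (hcF i hi).trans hle
        · refine ⟨c, hc, hc1, fun i hi => ?_⟩
          rcases Finset.mem_insert.1 hi with rfl | hi
          · exact hval.le.trans hle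
          · exact hcF i hi
  have hint : IsIntegral K⟮s⟯ z := (halg.isAlgebraic z).isIntegral
  set p := minpoly K⟮s⟯ z with hp
  have hmonic : p.Monic := minpoly.monic hint
  have hroot : aeval z p = 0 := minpoly.aeval _ _
  obtain ⟨c, hc, hc1, hcb⟩ := hbd (Finset.range p.natDegree) (fun i => p.coeff i)
  refine ⟨c, hc, ?_⟩
  have hcne : v.valuation (algebraMap K L c) ≠ 0 := by
    rw [Valuation.ne_zero_iff]
    simpa using hc
  rw [v19_le, map_div₀]
  by_contra hcon
  have hgt : v.valuation (algebraMap K L c) < v.valuation z := by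
    by_contra h
    apply hcon
    exact div_le_one_of_le₀ (not_lt.1 h) zero_le
  have hz1 : 1 < v.valuation z := lt_of_le_of_lt hc1 hgt
  have hn : z ^ p.natDegree = -∑ i ∈ Finset.range p.natDegree, (p.coeff i : L) * z ^ i := by
    rw [Polynomial.aeval_eq_sum_range, Finset.sum_range_succ] at hroot
    rw [hmonic.coeff_natDegree, one_smul] at hroot
    rw [eq_neg_iff_add_eq_zero, add_comm, ← hroot]
    congr 1
  have hlt : v.valuation (∑ i ∈ Finset.range p.natDegree, (p.coeff i : L) * z ^ i) <
      v.valuation (z ^ p.natDegree) := by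
    apply Valuation.map_sum_lt
    · rw [Valuation.ne_zero_iff]
      apply pow_ne_zero
      rintro rfl
      rw [map_zero] at hz1
      exact not_lt_of_ge zero_le hz1
    · intro i hi
      have hi' := Finset.mem_range.1 hi
      rw [map_mul, map_pow, map_pow]
      calc v.valuation (p.coeff i : L) * v.valuation z ^ i
          ≤ v.valuation (algebraMap K L c) * v.valuation z ^ i := by
            gcongr
            exact hcb i hi
        _ < v.valuation z * v.valuation z ^ i := by
            apply mul_lt_mul_of_pos_right hgt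
            exact pow_pos (lt_trans zero_lt_one hz1) i
        _ = v.valuation z ^ (i + 1) := by rw [pow_succ, mul_comm]
        _ ≤ v.valuation z ^ p.natDegree := by
            exact pow_le_pow_right₀ hz1.le hi'
  rw [hn, Valuation.map_neg] at hlt
  exact lt_irrefl _ hlt
-- END V19

-- BEGIN V20
private theorem v20_le (x : L) : x ∈ v ↔ v.valuation x ≤ 1 := (v.valuation_le_one_iff x).symm

private theorem v20_lt (x : L) : x ∈ v.nonunits ↔ v.valuation x < 1 :=
  ValuationSubring.mem_nonunits_iff v

private theorem v20_eq (x : L) (h : x ∈ v) (h' : x ∉ v.nonunits) : v.valuation x = 1 := by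
  rw [v20_le] at h
  rw [v20_lt] at h'
  exact le_antisymm h (not_lt.1 h')

/-- Taylor expansion over `v`. -/
private theorem v20_taylor (G : L[X]) (hG : ∀ n, G.coeff n ∈ v) (x y : L) (hx : x ∈ v)
    (hy : y ∈ v) : ∃ k ∈ v, G.eval y = G.eval x + G.derivative.eval x * (y - x) + k * (y - x) ^ 2 := by
  have hl : G ∈ Polynomial.lifts (v.toSubring.subtype) := by
    rw [Polynomial.lifts_iff_coeff_lifts]
    intro n
    exact ⟨⟨G.coeff n, hG n⟩, rfl⟩
  obtain ⟨G0, rfl⟩ := (Polynomial.mem_lifts _).1 hl
  obtain ⟨k, hk⟩ := Polynomial.binomExpansion G0 (⟨x, hx⟩ : v.toSubring)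
    ((⟨y, hy⟩ : v.toSubring) - ⟨x, hx⟩)
  refine ⟨k, k.2, ?_⟩
  have h := congrArg (v.toSubring.subtype) hk
  rw [add_sub_cancel] at h
  simp only [map_add, map_mul, map_pow, map_sub] at h
  rw [← Polynomial.eval₂_at_apply, ← Polynomial.eval₂_at_apply, ← Polynomial.eval₂_at_apply] at h
  rw [Polynomial.derivative_map, Polynomial.eval_map, Polynomial.eval_map, Polynomial.eval_map]
  exact h

private theorem v20_eval (G : L[X]) (hG : ∀ n, G.coeff n ∈ v) (x : L) (hx : x ∈ v) :
    G.eval x ∈ v := by
  have hl : G ∈ Polynomial.lifts (v.toSubring.subtype) := by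
    rw [Polynomial.lifts_iff_coeff_lifts]
    intro n
    exact ⟨⟨G.coeff n, hG n⟩, rfl⟩
  obtain ⟨G0, rfl⟩ := (Polynomial.mem_lifts _).1 hl
  rw [Polynomial.eval_map]
  have := (G0.eval (⟨x, hx⟩ : v.toSubring)).2
  have h2 := Polynomial.eval₂_at_apply (p := G0) (v.toSubring.subtype) (⟨x, hx⟩ : v.toSubring)
  have h3 : Polynomial.eval₂ v.toSubring.subtype x G0 =
    v.toSubring.subtype (G0.eval (⟨x, hx⟩ : v.toSubring)) := h2
  rw [h3]
  exact this

private theorem v20_der (G : L[X]) (hG : ∀ n, G.coeff n ∈ v) (n : ℕ) :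
    G.derivative.coeff n ∈ v := by
  rw [Polynomial.coeff_derivative]
  refine v.mul_mem _ _ (hG _) ?_
  have : ((n : L) + 1) = ((n + 1 : ℕ) : L) := by push_cast; rfl
  rw [this]
  exact natCast_mem v.toSubring _

/-- The derivative at `z` is a unit. -/
private theorem v20_derunit (G : L[X]) (hG : ∀ n, G.coeff n ∈ v) (u z : L) (hu : u ∈ v)
    (hz : z ∈ v) (hder : G.derivative.eval u ∉ v.nonunits) (huz : u - z ∈ v.nonunits) :
    v.valuation (G.derivative.eval z) = 1 := by
  obtain ⟨k, hk, h⟩ := v20_taylor G.derivative (v20_der G hG) u z hu hz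
  have h1 : v.valuation (G.derivative.eval u) = 1 :=
    v20_eq _ (v20_eval _ (v20_der G hG) _ hu) hder
  have h2 : G.derivative.eval z - G.derivative.eval u =
      (z - u) * (G.derivative.derivative.eval u + k * (z - u)) := by
    rw [h]; ring
  have hzu : v.valuation (z - u) < 1 := by
    rw [Valuation.map_sub_swap]
    exact (v20_lt _).1 huz
  have h3 : v.valuation (G.derivative.derivative.eval u + k * (z - u)) ≤ 1 := by
    rw [← v20_le]
    refine v.add_mem _ _ (v20_eval _ (v20_der _ (v20_der G hG)) _ hu) (v.mul_mem _ _ hk ?_)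
    exact v.toSubring.sub_mem hz hu
  have h4 : v.valuation (G.derivative.eval z - G.derivative.eval u) < 1 := by
    rw [h2, map_mul]
    exact mul_lt_one_of_nonneg_of_lt_one_left zero_le hzu h3
  have h5 : G.derivative.eval z = (G.derivative.eval z - G.derivative.eval u) +
      G.derivative.eval u := by ring
  rw [h5, Valuation.map_add_eq_of_lt_right _ (by rw [h1]; exact h4), h1]

/-- (V20) Newton step: `z' = z - G(z)/G'(z)`. -/
theorem newton_step (M : Subfield L) (G : L[X]) (hG : ∀ n, G.coeff n ∈ M ∧ G.coeff n ∈ v)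
    (u : L) (hu : u ∈ v) (hroot : G.eval u = 0) (hder : G.derivative.eval u ∉ v.nonunits)
    (z : L) (hz : z ∈ M) (hzv : z ∈ v) (huz : u - z ∈ v.nonunits) :
    ∃ z' ∈ M, z' ∈ v ∧ ∃ r ∈ v, u - z' = (u - z) ^ 2 * r := by
  have hGv : ∀ n, G.coeff n ∈ v := fun n => (hG n).2
  have hd := v20_derunit G hGv u z hu hzv hder huz
  have hd0 : G.derivative.eval z ≠ 0 := by
    intro h
    rw [h, map_zero] at hd
    exact zero_ne_one hd
  obtain ⟨k, hk, h⟩ := v20_taylor G hGv z u hzv hu
  have hdv : (G.derivative.eval z)⁻¹ ∈ v := by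
    rw [v20_le, map_inv₀, hd, inv_one]
  have hevM : ∀ P : L[X], (∀ n, P.coeff n ∈ M) → P.eval z ∈ M := by
    intro P hP
    rw [Polynomial.eval_eq_sum]
    exact M.sum_mem fun n _ => M.mul_mem (hP n) (M.pow_mem hz n)
  have hderM : ∀ n, G.derivative.coeff n ∈ M := by
    intro n
    rw [Polynomial.coeff_derivative]
    refine M.mul_mem (hG _).1 ?_
    have : ((n : L) + 1) = ((n + 1 : ℕ) : L) := by push_cast; rfl
    rw [this]
    exact natCast_mem M _
  refine ⟨z - G.eval z * (G.derivative.eval z)⁻¹, ?_, ?_, -(k * (G.derivative.eval z)⁻¹), ?_, ?_⟩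
  · exact M.sub_mem hz (M.mul_mem (hevM G fun n => (hG n).1) (M.inv_mem (hevM _ hderM)))
  · exact v.toSubring.sub_mem hzv (v.mul_mem _ _ (v20_eval G hGv z hzv) hdv)
  · exact v.neg_mem _ (v.mul_mem _ _ hk hdv)
  · rw [hroot] at h
    have h' : G.eval z = -(G.derivative.eval z * (u - z) + k * (u - z) ^ 2) := by
      linear_combination -h
    rw [h']
    field_simp
    ring
-- END V20

-- BEGIN V21
private theorem v21_le (x : L) : x ∈ v ↔ v.valuation x ≤ 1 := (v.valuation_le_one_iff x).symm

private theorem v21_lt (x : L) : x ∈ v.nonunits ↔ v.valuation x < 1 :=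
  ValuationSubring.mem_nonunits_iff v

private theorem v21_eq (x : L) (h : x ∈ v) (h' : x ∉ v.nonunits) : v.valuation x = 1 := by
  rw [v21_le] at h
  rw [v21_lt] at h'
  exact le_antisymm h (not_lt.1 h')

/-- Taylor expansion over `v`. -/
private theorem v21_taylor (G : L[X]) (hG : ∀ n, G.coeff n ∈ v) (x y : L) (hx : x ∈ v)
    (hy : y ∈ v) : ∃ k ∈ v, G.eval y = G.eval x + G.derivative.eval x * (y - x) + k * (y - x) ^ 2 := by
  have hl : G ∈ Polynomial.lifts (v.toSubring.subtype) := by
    rw [Polynomial.lifts_iff_coeff_lifts]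
    intro n
    exact ⟨⟨G.coeff n, hG n⟩, rfl⟩
  obtain ⟨G0, rfl⟩ := (Polynomial.mem_lifts _).1 hl
  obtain ⟨k, hk⟩ := Polynomial.binomExpansion G0 (⟨x, hx⟩ : v.toSubring)
    ((⟨y, hy⟩ : v.toSubring) - ⟨x, hx⟩)
  refine ⟨k, k.2, ?_⟩
  have h := congrArg (v.toSubring.subtype) hk
  rw [add_sub_cancel] at h
  simp only [map_add, map_mul, map_pow, map_sub] at h
  rw [← Polynomial.eval₂_at_apply, ← Polynomial.eval₂_at_apply, ← Polynomial.eval₂_at_apply] at h
  rw [Polynomial.derivative_map, Polynomial.eval_map, Polynomial.eval_map, Polynomial.eval_map]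
  exact h

private theorem v21_eval (G : L[X]) (hG : ∀ n, G.coeff n ∈ v) (x : L) (hx : x ∈ v) :
    G.eval x ∈ v := by
  have hl : G ∈ Polynomial.lifts (v.toSubring.subtype) := by
    rw [Polynomial.lifts_iff_coeff_lifts]
    intro n
    exact ⟨⟨G.coeff n, hG n⟩, rfl⟩
  obtain ⟨G0, rfl⟩ := (Polynomial.mem_lifts _).1 hl
  rw [Polynomial.eval_map]
  have := (G0.eval (⟨x, hx⟩ : v.toSubring)).2
  have h2 := Polynomial.eval₂_at_apply (p := G0) (v.toSubring.subtype) (⟨x, hx⟩ : v.toSubring)
  have h3 : Polynomial.eval₂ v.toSubring.subtype x G0 =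
    v.toSubring.subtype (G0.eval (⟨x, hx⟩ : v.toSubring)) := h2
  rw [h3]
  exact this

private theorem v21_der (G : L[X]) (hG : ∀ n, G.coeff n ∈ v) (n : ℕ) :
    G.derivative.coeff n ∈ v := by
  rw [Polynomial.coeff_derivative]
  refine v.mul_mem _ _ (hG _) ?_
  have : ((n : L) + 1) = ((n + 1 : ℕ) : L) := by push_cast; rfl
  rw [this]
  exact natCast_mem v.toSubring _

/-- The derivative at `z` is a unit. -/
private theorem v21_derunit (G : L[X]) (hG : ∀ n, G.coeff n ∈ v) (u z : L) (hu : u ∈ v)
    (hz : z ∈ v) (hder : G.derivative.eval u ∉ v.nonunits) (huz : u - z ∈ v.nonunits) :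
    v.valuation (G.derivative.eval z) = 1 := by
  obtain ⟨k, hk, h⟩ := v21_taylor G.derivative (v21_der G hG) u z hu hz
  have h1 : v.valuation (G.derivative.eval u) = 1 :=
    v21_eq _ (v21_eval _ (v21_der G hG) _ hu) hder
  have h2 : G.derivative.eval z - G.derivative.eval u =
      (z - u) * (G.derivative.derivative.eval u + k * (z - u)) := by
    rw [h]; ring
  have hzu : v.valuation (z - u) < 1 := by
    rw [Valuation.map_sub_swap]
    exact (v21_lt _).1 huz
  have h3 : v.valuation (G.derivative.derivative.eval u + k * (z - u)) ≤ 1 := by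
    rw [← v21_le]
    refine v.add_mem _ _ (v21_eval _ (v21_der _ (v21_der G hG)) _ hu) (v.mul_mem _ _ hk ?_)
    exact v.toSubring.sub_mem hz hu
  have h4 : v.valuation (G.derivative.eval z - G.derivative.eval u) < 1 := by
    rw [h2, map_mul]
    exact mul_lt_one_of_nonneg_of_lt_one_left zero_le hzu h3
  have h5 : G.derivative.eval z = (G.derivative.eval z - G.derivative.eval u) +
      G.derivative.eval u := by ring
  rw [h5, Valuation.map_add_eq_of_lt_right _ (by rw [h1]; exact h4), h1]

/-- (V21) In the situation of the Newton step, `G(z)` is `u - z` times a unit of `v`. (Taylor expansion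
of `G` at `u`.) -/
theorem newton_value (G : L[X]) (hG : ∀ n, G.coeff n ∈ v)
    (u : L) (hu : u ∈ v) (hroot : G.eval u = 0) (hder : G.derivative.eval u ∉ v.nonunits)
    (z : L) (hzv : z ∈ v) (huz : u - z ∈ v.nonunits) :
    ∃ r ∈ v, r ∉ v.nonunits ∧ G.eval z = (u - z) * r := by
  obtain ⟨k, hk, h⟩ := v21_taylor G hG u z hu hzv
  have h1 : v.valuation (G.derivative.eval u) = 1 :=
    v21_eq _ (v21_eval _ (v21_der G hG) _ hu) hder
  have hzu : v.valuation (z - u) < 1 := by
    rw [Valuation.map_sub_swap]
    exact (v21_lt _).1 huz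
  have hk1 : v.valuation k ≤ 1 := (v21_le _).1 hk
  have h4 : v.valuation (k * (z - u)) < 1 := by
    rw [map_mul, mul_comm]
    exact mul_lt_one_of_nonneg_of_lt_one_left zero_le hzu hk1
  have h5 : v.valuation (k * (z - u) + G.derivative.eval u) = 1 := by
    rw [Valuation.map_add_eq_of_lt_right _ (by rw [h1]; exact h4), h1]
  refine ⟨-(k * (z - u) + G.derivative.eval u), ?_, ?_, ?_⟩
  · rw [v21_le, Valuation.map_neg, h5]
  · rw [v21_lt, Valuation.map_neg, h5]
    exact lt_irrefl _
  · rw [h, hroot]
    ring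
-- END V21

-- BEGIN V22
private theorem v22_le (x : L) : x ∈ v ↔ v.valuation x ≤ 1 := (v.valuation_le_one_iff x).symm

private theorem v22_lt (x : L) : x ∈ v.nonunits ↔ v.valuation x < 1 :=
  ValuationSubring.mem_nonunits_iff v

/-- (V22) The root is in the closure of `K(t)`, by iterating (V20) from a `z₀ = a₀ ∈ O`: by (V21)
`u - a₀` is `G(a₀) ∈ K(t)` times a unit, so by (V7) it is `c` times an element of `v` with `c ∈ O.nonunits`; after `n`
steps `u - z_n` is in `c ^ (2 ^ n) v`, and `c ^ (2 ^ n) ∈ d O` for large `n` by `RankOne`. -/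
theorem root_mem_closure [IsAlgClosed K] (hO : RankOne O) (hv : Over O v) (t u : L)
    (s : L) (hs : ResTrans O v s) (hst : K⟮s⟯ = K⟮t⟯)
    (G : L[X]) (hG : ∀ n, G.coeff n ∈ K⟮t⟯ ∧ G.coeff n ∈ v)
    (hu : u ∈ v) (hroot : G.eval u = 0) (hder : G.derivative.eval u ∉ v.nonunits)
    (a₀ : K) (ha₀ : a₀ ∈ O) (hua : u - algebraMap K L a₀ ∈ v.nonunits) (d : K) (hd : d ≠ 0) :
    ∃ z ∈ K⟮t⟯, (u - z) / algebraMap K L d ∈ v := by
  have hGv : ∀ n, G.coeff n ∈ v := fun n => (hG n).2
  have ha₀v : algebraMap K L a₀ ∈ v := (Over.mem_iff hv a₀).2 ha₀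
  have hdne : v.valuation (algebraMap K L d) ≠ 0 := by
    rw [Valuation.ne_zero_iff]
    simpa using hd
  have hgoal : ∀ z : L, v.valuation (u - z) ≤ v.valuation (algebraMap K L d) →
      (u - z) / algebraMap K L d ∈ v := by
    intro z hz
    rw [v22_le, map_div₀]
    exact div_le_one_of_le₀ hz zero_le
  obtain ⟨r, hr, hr', hval⟩ := newton_value G hGv u hu hroot hder _ ha₀v hua
  by_cases h0 : G.eval (algebraMap K L a₀) = 0
  · refine ⟨algebraMap K L a₀, K⟮t⟯.algebraMap_mem a₀, hgoal _ ?_⟩
    have hrne : r ≠ 0 := by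
      rintro rfl
      apply hr'
      rw [v22_lt, map_zero]
      exact zero_lt_one
    have : u - algebraMap K L a₀ = 0 := by
      rw [h0] at hval
      rcases mul_eq_zero.1 hval.symm with h | h
      · exact h
      · exact absurd h hrne
    rw [this, map_zero]
    exact zero_le
  have hGa : G.eval (algebraMap K L a₀) ∈ K⟮s⟯ := by
    rw [hst, Polynomial.eval_eq_sum]
    exact K⟮t⟯.sum_mem fun n _ => K⟮t⟯.mul_mem (hG n).1 (pow_mem (K⟮t⟯.algebraMap_mem a₀) n)
  obtain ⟨c, hc, h1, h2⟩ := ResTrans.exists_const hv hs _ hGa h0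
  have hr1 : v.valuation r = 1 := by
    rw [v22_le] at hr
    rw [v22_lt] at hr'
    exact le_antisymm hr (not_lt.1 hr')
  have hcval : v.valuation (u - algebraMap K L a₀) = v.valuation (algebraMap K L c) := by
    have h3 : v.valuation (G.eval (algebraMap K L a₀) / algebraMap K L c) = 1 := by
      rw [v22_le] at h1
      rw [v22_lt] at h2
      exact le_antisymm h1 (not_lt.1 h2)
    rw [hval, map_div₀, map_mul, hr1, mul_one] at h3
    have hne : v.valuation (algebraMap K L c) ≠ 0 := by
      rw [Valuation.ne_zero_iff]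
      simpa using hc
    field_simp at h3
    exact h3
  have hclt : v.valuation (algebraMap K L c) < 1 := by
    rw [← hcval, ← v22_lt]
    exact hua
  have hcO : c ∈ O.nonunits := (Over.nonunits_iff hv c).1 ((v22_lt _).2 hclt)
  have hcO' : c ∈ O := (Over.mem_iff hv c).1 ((v22_le _).2 hclt.le)
  have hiter : ∀ n : ℕ, ∃ z ∈ K⟮t⟯, z ∈ v ∧
      v.valuation (u - z) ≤ v.valuation (algebraMap K L c) ^ (2 ^ n) := by
    intro n
    induction n with
    | zero => exact ⟨_, K⟮t⟯.algebraMap_mem a₀, ha₀v, by rw [hcval]; simp⟩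
    | succ n ih =>
      obtain ⟨z, hz, hzv, hzu⟩ := ih
      have hnon : u - z ∈ v.nonunits := by
        rw [v22_lt]
        refine lt_of_le_of_lt hzu ?_
        exact pow_lt_one₀ zero_le hclt (by positivity)
      obtain ⟨z', hz', hzv', r', hr', hzz⟩ := newton_step K⟮t⟯.toSubfield G hG u hu hroot hder z hz
        hzv hnon
      refine ⟨z', hz', hzv', ?_⟩
      rw [hzz, map_mul, map_pow]
      have hr'1 : v.valuation r' ≤ 1 := (v22_le _).1 hr'
      calc v.valuation (u - z) ^ 2 * v.valuation r' ≤ v.valuation (u - z) ^ 2 * 1 := by gcongr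
        _ = v.valuation (u - z) ^ 2 := mul_one _
        _ ≤ (v.valuation (algebraMap K L c) ^ (2 ^ n)) ^ 2 := by gcongr
        _ = v.valuation (algebraMap K L c) ^ (2 ^ (n + 1)) := by
            rw [← pow_mul, pow_succ]
  by_cases hdO : d ∈ O
  · obtain ⟨n, e, he⟩ := hO.2 ⟨c, hcO'⟩ ⟨d, hdO⟩
      (by
        have := (ValuationSubring.coe_mem_nonunits_iff (A := O) (a := ⟨c, hcO'⟩)).1 hcO
        exact (IsLocalRing.mem_maximalIdeal _).1 this)
      (by
        intro h
        exact hd (congrArg Subtype.val h))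
    have he' : c ^ n = d * (e : K) := by
      have := congrArg Subtype.val he
      simpa using this
    obtain ⟨z, hz, hzv, hzu⟩ := hiter n
    refine ⟨z, hz, hgoal z (hzu.trans ?_)⟩
    have hle : v.valuation (algebraMap K L (e : K)) ≤ 1 := by
      rw [← v22_le]
      exact (Over.mem_iff hv _).2 e.2
    calc v.valuation (algebraMap K L c) ^ (2 ^ n) ≤ v.valuation (algebraMap K L c) ^ n :=
          pow_le_pow_of_le_one zero_le hclt.le (Nat.lt_two_pow_self).le
      _ = v.valuation (algebraMap K L d) * v.valuation (algebraMap K L (e : K)) := by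
          rw [← map_pow, ← map_pow, he', map_mul, map_mul]
      _ ≤ v.valuation (algebraMap K L d) * 1 := by gcongr
      _ = v.valuation (algebraMap K L d) := mul_one _
  · refine ⟨algebraMap K L a₀, K⟮t⟯.algebraMap_mem a₀, hgoal _ ?_⟩
    have h3 : ¬ v.valuation (algebraMap K L d) ≤ 1 := by
      rw [← v22_le, Over.mem_iff hv]
      exact hdO
    exact ((v22_lt _).1 hua).le.trans (not_le.1 h3).le
-- END V22

-- BEGIN V23
/-- (V23) The closure of `K(t)` is everything if it contains a generator: the closure is a subring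
(products: use the bound (V19)). -/
theorem dense_of_generator [IsAlgClosed K] (hv : Over O v) (t u : L)
    (s : L) (hs : ResTrans O v s) (hst : K⟮s⟯ = K⟮t⟯) (halg : Algebra.IsAlgebraic K⟮t⟯ L)
    (hgen : ∀ z : L, z ∈ Algebra.adjoin K⟮t⟯ {u})
    (hu : ∀ d : K, d ≠ 0 → ∃ z ∈ K⟮t⟯, (u - z) / algebraMap K L d ∈ v) (z : L) (d : K)
    (hd : d ≠ 0) : ∃ z' ∈ K⟮t⟯, (z - z') / algebraMap K L d ∈ v := by
  have halg' : Algebra.IsAlgebraic K⟮s⟯ L := by
    rw [hst]
    exact halg
  have hbd : ∀ x : L, ∃ c : K, c ≠ 0 ∧ x / algebraMap K L c ∈ v :=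
    fun x => exists_bound hv s hs halg' x
  have hne : ∀ c : K, c ≠ 0 → algebraMap K L c ≠ 0 := fun c hc => by
    rw [Ne, map_eq_zero]
    exact hc
  revert d
  refine Algebra.adjoin_induction (p := fun z _ => ∀ d : K, d ≠ 0 →
    ∃ z' ∈ K⟮t⟯, (z - z') / algebraMap K L d ∈ v) ?_ ?_ ?_ ?_ (hgen z)
  · intro x hx
    rw [Set.mem_singleton_iff] at hx
    rw [hx]
    exact hu
  · intro r d hd
    refine ⟨r, r.2, ?_⟩
    have h1 : (algebraMap K⟮t⟯ L r - (r : L)) / algebraMap K L d = 0 := by
      have : algebraMap K⟮t⟯ L r = (r : L) := rfl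
      rw [this, sub_self, zero_div]
    rw [h1]
    exact zero_mem v
  · intro x y _ _ hx hy d hd
    obtain ⟨x', hx', hx2⟩ := hx d hd
    obtain ⟨y', hy', hy2⟩ := hy d hd
    refine ⟨x' + y', add_mem hx' hy', ?_⟩
    have h1 : (x + y - (x' + y')) / algebraMap K L d =
        (x - x') / algebraMap K L d + (y - y') / algebraMap K L d := by ring
    rw [h1]
    exact add_mem hx2 hy2
  · intro x y _ _ hx hy d hd
    obtain ⟨c1, hc1, hc1x⟩ := hbd x
    obtain ⟨y', hy', hy2⟩ := hy (d / c1) (div_ne_zero hd hc1)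
    obtain ⟨c3, hc3, hc3y⟩ := hbd y'
    obtain ⟨x', hx', hx2⟩ := hx (d / c3) (div_ne_zero hd hc3)
    refine ⟨x' * y', mul_mem hx' hy', ?_⟩
    have hd' := hne d hd
    have hc1' := hne c1 hc1
    have hc3' := hne c3 hc3
    have h1 : (x * y - x' * y') / algebraMap K L d =
        (x / algebraMap K L c1) * ((y - y') / algebraMap K L (d / c1)) +
        ((x - x') / algebraMap K L (d / c3)) * (y' / algebraMap K L c3) := by
      rw [map_div₀, map_div₀]
      field_simp
      ring
    rw [h1]
    exact add_mem (mul_mem hc1x hy2) (mul_mem hx2 hc3y)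
-- END V23

-- BEGIN V24
private theorem v24_le (x : L) : x ∈ v ↔ v.valuation x ≤ 1 := (v.valuation_le_one_iff x).symm

private theorem v24_lt (x : L) : x ∈ v.nonunits ↔ v.valuation x < 1 :=
  ValuationSubring.mem_nonunits_iff v

private theorem v24_sum (F : Finset ℕ) (f : ℕ → L) (h : ∀ i ∈ F, f i ∈ v.nonunits) :
    ∑ i ∈ F, f i ∈ v.nonunits := by
  rw [v24_lt]
  exact Valuation.map_sum_lt _ one_ne_zero fun i hi => (v24_lt _).1 (h i hi)

/-- (V24) Good coordinates exclude nonrational residue fields: MAIN THEOREM for closed centres.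
Assembly: let `X` be the nonrational element, it is residually transcendental; (V18) and (V14) give
`s = (t - a)/c` residually transcendental, `K(s) = K(t)`. The residue of `u` is a root of the nonzero residue polynomial
of `G` with constant coefficients, so by (V4) `u` is congruent to some `a₀ ∈ O`
(the residue polynomial is not zero because its derivative does not vanish at the residue of `u`).
(V22), (V23) with `d ∈ O.nonunits` nonzero (`RankOne`) and (V17). -/
theorem not_nonrational_of_root [IsAlgClosed K] (hO : RankOne O) (h2 : IsUnit (2 : O))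
    (hv : Over O v) (t u : L) (halg : Algebra.IsAlgebraic K⟮t⟯ L)
    (hgen : ∀ z : L, z ∈ Algebra.adjoin K⟮t⟯ {u})
    (G : L[X]) (hG : ∀ n, G.coeff n ∈ K⟮t⟯)
    (hGv : ∀ n, ∃ a ∈ O, G.coeff n - algebraMap K L a ∈ v.nonunits) (hu : u ∈ v)
    (hroot : G.eval u = 0) (hder : G.derivative.eval u ∉ v.nonunits) :
    ¬ Nonrational O v := by
  intro hnr
  obtain ⟨X₀, Y₀, hX, hY, hXY, hne⟩ := id hnr
  -- good coordinate
  obtain ⟨z, hz, hzr⟩ := exists_resTrans_adjoin hv t X₀ halg ⟨hX, hne⟩
  obtain ⟨a, c, hc, hs⟩ := exists_resTrans_linear hv t z hz hzr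
  have hc0 : algebraMap K L c ≠ 0 := (_root_.map_ne_zero _).2 hc
  have hst : K⟮(t - algebraMap K L a) / algebraMap K L c⟯ = K⟮t⟯ := by
    apply le_antisymm
    · rw [IntermediateField.adjoin_simple_le_iff]
      exact div_mem (sub_mem (IntermediateField.mem_adjoin_simple_self K t)
        (IntermediateField.algebraMap_mem _ a)) (IntermediateField.algebraMap_mem _ c)
    · rw [IntermediateField.adjoin_simple_le_iff]
      have h1 : t = (t - algebraMap K L a) / algebraMap K L c * algebraMap K L c +
          algebraMap K L a := by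
        rw [div_mul_cancel₀ _ hc0]; ring
      rw [h1]
      refine add_mem (mul_mem ?_ (IntermediateField.algebraMap_mem _ c))
        (IntermediateField.algebraMap_mem _ a)
      rw [← h1]
      exact IntermediateField.mem_adjoin_simple_self K _
  -- coefficients of `G` are in `v`
  choose α hαO hα using hGv
  have hαv : ∀ n, algebraMap K L (α n) ∈ v := fun n => (Over.mem_iff hv _).2 (hαO n)
  have hGv' : ∀ n, G.coeff n ∈ v := by
    intro n
    have h1 : G.coeff n = (G.coeff n - algebraMap K L (α n)) + algebraMap K L (α n) := by ring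
    rw [h1]
    exact v.add_mem _ _ (v.nonunits_le (hα n)) (hαv n)
  -- residue polynomial
  set N := G.natDegree + 1 with hN
  set p : K[X] := ∑ n ∈ Finset.range N, Polynomial.monomial n (α n) with hp
  have hpc : ∀ n, n < N → p.coeff n = α n := by
    intro n hn
    rw [hp, Polynomial.finsetSum_coeff]
    simp only [Polynomial.coeff_monomial]
    rw [Finset.sum_ite_eq' (Finset.range N) n α, if_pos (Finset.mem_range.2 hn)]
  have hpc' : ∀ n, ¬ n < N → p.coeff n = 0 := by
    intro n hn
    rw [hp, Polynomial.finsetSum_coeff]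
    simp only [Polynomial.coeff_monomial]
    rw [Finset.sum_ite_eq' (Finset.range N) n α, if_neg (by simpa using hn)]
  have hpO : ∀ n, p.coeff n ∈ O := by
    intro n
    by_cases hn : n < N
    · rw [hpc n hn]; exact hαO n
    · rw [hpc' n hn]; exact O.zero_mem
  have hmulnon : ∀ x y : L, x ∈ v.nonunits → y ∈ v → x * y ∈ v.nonunits := by
    intro x y hx hy
    rw [v24_lt] at hx ⊢
    rw [v24_le] at hy
    rw [map_mul]
    exact mul_lt_one_of_nonneg_of_lt_one_left zero_le hx hy
  have hupow : ∀ n : ℕ, u ^ n ∈ v := fun n => pow_mem hu n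
  have hpN : p.natDegree < N := by
    rw [Nat.lt_succ_iff, Polynomial.natDegree_le_iff_coeff_eq_zero]
    intro n hn
    exact hpc' n (by omega)
  have haeval : aeval u p = ∑ n ∈ Finset.range N, algebraMap K L (α n) * u ^ n := by
    rw [hp, map_sum]
    refine Finset.sum_congr rfl fun n _ => ?_
    rw [Polynomial.aeval_monomial]
  have hGe : G.eval u = ∑ n ∈ Finset.range N, G.coeff n * u ^ n :=
    Polynomial.eval_eq_sum_range u
  have hpnon : aeval u p ∈ v.nonunits := by
    have h1 : aeval u p = ∑ n ∈ Finset.range N, -((G.coeff n - algebraMap K L (α n)) * u ^ n) := by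
      rw [haeval, ← sub_zero (∑ n ∈ Finset.range N, algebraMap K L (α n) * u ^ n), ← hroot, hGe,
        ← Finset.sum_sub_distrib]
      refine Finset.sum_congr rfl fun n _ => ?_
      ring
    rw [h1]
    refine v24_sum _ _ fun n _ => ?_
    rw [v24_lt, Valuation.map_neg, ← v24_lt]
    exact hmulnon _ _ (hα n) (hupow n)
  have hunit : ∃ n, p.coeff n ∉ O.nonunits := by
    by_contra hno
    push Not at hno
    apply hder
    have hGn : ∀ n, G.coeff n ∈ v.nonunits := by
      intro n
      by_cases hn : n < N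
      · have h1 : G.coeff n = (G.coeff n - algebraMap K L (α n)) + algebraMap K L (α n) := by ring
        rw [h1, v24_lt]
        refine Valuation.map_add_lt _ ((v24_lt _).1 (hα n)) ((v24_lt _).1 ?_)
        rw [Over.nonunits_iff hv, ← hpc n hn]
        exact hno n
      · rw [Polynomial.coeff_eq_zero_of_natDegree_lt (by omega), v24_lt, map_zero]
        exact zero_lt_one
    rw [Polynomial.eval_eq_sum_range]
    refine v24_sum _ _ fun n _ => ?_
    apply hmulnon _ _ _ (hupow n)
    rw [Polynomial.coeff_derivative]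
    apply hmulnon _ _ (hGn _)
    have : ((n : L) + 1) = ((n + 1 : ℕ) : L) := by push_cast; rfl
    rw [this]
    exact natCast_mem v.toSubring _
  obtain ⟨a₀, ha₀, hua⟩ := exists_residue_root hv p hpO hunit u hu hpnon
  -- density
  have hclos : ∀ d : K, d ≠ 0 → ∃ z ∈ K⟮t⟯, (u - z) / algebraMap K L d ∈ v := fun d hd =>
    root_mem_closure hO hv t u _ hs hst G (fun n => ⟨hG n, hGv' n⟩) hu hroot hder a₀ ha₀ hua d hd
  obtain ⟨d, hd0, hdu⟩ := hO.1
  have hdn : (d : K) ∈ O.nonunits := by
    rw [ValuationSubring.coe_mem_nonunits_iff, IsLocalRing.mem_maximalIdeal]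
    exact hdu
  have hd0' : (d : K) ≠ 0 := fun h => hd0 (Subtype.ext h)
  refine not_nonrational_of_dense h2 hv _ hs (fun z _ => ?_) hnr
  obtain ⟨z', hz', hzz⟩ := dense_of_generator hv t u _ hs hst halg hgen hclos z d hd0'
  refine ⟨z', hst ▸ hz', ?_⟩
  have hd0L : algebraMap K L (d : K) ≠ 0 := (_root_.map_ne_zero _).2 hd0'
  have h1 : z - z' = algebraMap K L (d : K) * ((z - z') / algebraMap K L (d : K)) := by
    rw [mul_div_cancel₀ _ hd0L]
  rw [h1]
  exact hmulnon _ _ ((Over.nonunits_iff hv _).2 hdn) hzz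
-- END V24

end Pool.Agent.Lib.MP_211349_ag
end
end

section

/-!
# PART M, algebra: standard étale charts over `O[t]`

`K` is an algebraically closed field with a valuation ring `O`, `L` is an extension field of `K`,
`A` is a standard étale algebra over `O[t]`, embedded in `L` by `φ`, with fraction field `L`.
-/

open Polynomial IntermediateField TensorProduct

universe u

noncomputable section

namespace Pool.Agent.Lib.MP_211349_ag

variable {K L : Type u} [Field K] [Field L] [Algebra K L] {O : ValuationSubring K}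
  {A : Type u} [CommRing A] [Algebra O A]

/-! ## The number of parameters is one -/

-- BEGIN M1
/-- (M1) The parameters are algebraically independent over `O`: `A` is flat over
`MvPolynomial (Fin n) O` and `A` is not zero, `φ` is injective into a field. -/
theorem chart_injective {n : ℕ} [Algebra (MvPolynomial (Fin n) O) A]
    [Algebra.IsStandardEtale (MvPolynomial (Fin n) O) A] (φ : A →+* L)
    (hφ : Function.Injective φ) :
    Function.Injective (φ.comp (algebraMap (MvPolynomial (Fin n) O) A)) := by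
  have hflat : Module.Flat (MvPolynomial (Fin n) O) A := inferInstance
  have htf : Module.IsTorsionFree (MvPolynomial (Fin n) O) A := Module.Flat.isTorsionFree
  rw [injective_iff_map_eq_zero]
  intro r hr
  by_contra hne
  have h1 : algebraMap (MvPolynomial (Fin n) O) A r = 0 := by
    apply hφ
    rw [map_zero]
    exact hr
  have h2 : r • (1 : A) = 0 := by rw [Algebra.smul_def, h1, zero_mul]
  rcases smul_eq_zero.1 h2 with h | h
  · exact hne h
  · have h3 : φ 1 = 0 := by rw [h, map_zero]
    rw [map_one] at h3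
    exact one_ne_zero h3
-- END M1

-- BEGIN M2
/-- (M2) The parameters are algebraically independent over `K` (clear denominators, (M1)). -/
theorem chart_algebraicIndependent {n : ℕ} [Algebra (MvPolynomial (Fin n) O) A]
    [IsScalarTower O (MvPolynomial (Fin n) O) A]
    [Algebra.IsStandardEtale (MvPolynomial (Fin n) O) A] (φ : A →+* L)
    (hφ : Function.Injective φ) (hφO : ∀ a : O, φ (algebraMap O A a) = algebraMap K L a) :
    AlgebraicIndependent K
      fun i : Fin n => φ (algebraMap (MvPolynomial (Fin n) O) A (MvPolynomial.X i)) := by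
  let alg : Algebra O L := ((algebraMap K L).comp (algebraMap O K)).toAlgebra
  have : IsScalarTower O K L := IsScalarTower.of_algebraMap_eq fun _ => rfl
  have h1 : AlgebraicIndependent O
      fun i : Fin n => φ (algebraMap (MvPolynomial (Fin n) O) A (MvPolynomial.X i)) := by
    have h2 : (MvPolynomial.aeval (R := O)
        (fun i : Fin n => φ (algebraMap (MvPolynomial (Fin n) O) A (MvPolynomial.X i)))
        : MvPolynomial (Fin n) O →+* L) =
        φ.comp (algebraMap (MvPolynomial (Fin n) O) A) := by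
      apply MvPolynomial.ringHom_ext
      · intro a
        have e : algebraMap (MvPolynomial (Fin n) O) A (MvPolynomial.C a) = algebraMap O A a := by
          rw [IsScalarTower.algebraMap_apply O (MvPolynomial (Fin n) O) A]
          rfl
        simp only [RingHom.coe_coe, RingHom.comp_apply, MvPolynomial.algHom_C]
        rw [e, hφO]
        rfl
      · intro i
        simp
    unfold AlgebraicIndependent
    have h3 := chart_injective (K := K) (O := O) (n := n) φ hφ
    rw [← h2] at h3
    exact h3
  have : Algebra.IsAlgebraic O K := IsLocalization.isAlgebraic (S := K) (M := nonZeroDivisors O) (R := O)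
  exact h1.extendScalars K
-- END M2

-- BEGIN M3
/-- An element of `A` is a quotient of integral elements: general form. -/
private theorem M3_isAlgebraic {R A F D : Type*} [CommRing R] [CommRing A] [Algebra R A]
    [Algebra.IsStandardEtale R A] [Field F] [CommRing D] [IsDomain D] [Algebra D F]
    [FaithfulSMul D F] (φ : A →+* F) (ψ : R →+* D)
    (h : ∀ r, algebraMap D F (ψ r) = φ (algebraMap R A r)) (a : A) : IsAlgebraic D (φ a) := by
  obtain ⟨P⟩ := Algebra.IsStandardEtale.nonempty_standardEtalePresentation (R := R) (S := A)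
  have hcomp : (algebraMap D F).comp ψ = φ.comp (algebraMap R A) := RingHom.ext h
  have hx : IsIntegral D (φ P.x) := by
    refine ⟨P.f.map ψ, P.monic_f.map ψ, ?_⟩
    rw [Polynomial.eval₂_map, hcomp, ← Polynomial.hom_eval₂]
    have := P.hasMap.1
    rw [Polynomial.aeval_def] at this
    rw [this, map_zero]
  have hq : ∀ q : R[X], IsIntegral D (φ (aeval P.x q)) := by
    intro q
    have e : φ (aeval P.x q) = aeval (φ P.x) (q.map ψ) := by
      rw [Polynomial.aeval_def, Polynomial.aeval_def, Polynomial.eval₂_map, hcomp,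
        ← Polynomial.hom_eval₂]
    rw [e]
    have h1 : aeval (φ P.x) (q.map ψ) ∈ Algebra.adjoin D {φ P.x} :=
      Polynomial.aeval_mem_adjoin_singleton D _
    exact IsIntegral.of_mem_of_fg _ hx.fg_adjoin_singleton _ h1
  obtain ⟨p, m, hp⟩ := P.exists_mul_aeval_x_g_pow_eq_aeval_x a
  have hg : φ (aeval P.x P.g) ≠ 0 := (P.hasMap.2.map φ).ne_zero
  have ha : φ a = φ (aeval P.x p) * (φ (aeval P.x P.g) ^ m)⁻¹ := by
    rw [← hp, map_mul, map_pow, mul_assoc, mul_inv_cancel₀ (pow_ne_zero _ hg), mul_one]
  rw [ha]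
  exact (hq p).isAlgebraic.mul (((hq P.g).isAlgebraic.pow m).inv)

/-- (M3) Every element of `A` becomes algebraic over the subring of the polynomials in the
parameters: let `P` be the presentation, `P.x` is integral over
`MvPolynomial (Fin n) O` (`P.monic_f`, `P.hasMap.1`), and
`P.exists_mul_aeval_x_g_pow_eq_aeval_x`. -/
theorem chart_algebraic {n : ℕ} [Algebra (MvPolynomial (Fin n) O) A]
    [IsScalarTower O (MvPolynomial (Fin n) O) A]
    [Algebra.IsStandardEtale (MvPolynomial (Fin n) O) A] (φ : A →+* L)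
    (hφ : Function.Injective φ) (hφO : ∀ a : O, φ (algebraMap O A a) = algebraMap K L a) (a : A) :
    IsAlgebraic (Algebra.adjoin K (Set.range fun i : Fin n =>
      φ (algebraMap (MvPolynomial (Fin n) O) A (MvPolynomial.X i)))) (φ a) := by
  set D := Algebra.adjoin K (Set.range fun i : Fin n =>
      φ (algebraMap (MvPolynomial (Fin n) O) A (MvPolynomial.X i))) with hD
  have hmem : ∀ r, (φ.comp (algebraMap (MvPolynomial (Fin n) O) A)) r ∈ D := by
    intro r
    induction r using MvPolynomial.induction_on with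
    | C b =>
      have e : algebraMap (MvPolynomial (Fin n) O) A (MvPolynomial.C b) = algebraMap O A b := by
        rw [IsScalarTower.algebraMap_apply O (MvPolynomial (Fin n) O) A]
        rfl
      rw [RingHom.comp_apply, e, hφO]
      exact D.algebraMap_mem _
    | add p q hp hq => rw [map_add]; exact D.add_mem hp hq
    | mul_X p i hp =>
      rw [map_mul]
      exact D.mul_mem hp (Algebra.subset_adjoin ⟨i, rfl⟩)
  exact M3_isAlgebraic φ ((φ.comp (algebraMap (MvPolynomial (Fin n) O) A)).codRestrict D hmem)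
    (fun r => rfl) a
-- END M3

-- BEGIN M4
/-- (M4) From (M2), (M3): the parameters are a transcendence basis of `L` over `K`, and so is `x`. -/
theorem chart_dim_one {n : ℕ} [Algebra (MvPolynomial (Fin n) O) A]
    [IsScalarTower O (MvPolynomial (Fin n) O) A]
    [Algebra.IsStandardEtale (MvPolynomial (Fin n) O) A] (φ : A →+* L)
    (hφ : Function.Injective φ) (hφO : ∀ a : O, φ (algebraMap O A a) = algebraMap K L a)
    (hfrac : ∀ z : L, ∃ a b : A, φ b ≠ 0 ∧ z = φ a / φ b) (x : L) (hx : Transcendental K x)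
    (halg : Algebra.IsAlgebraic (Algebra.adjoin K {x}) L) : n = 1 := by
  have h1 := chart_algebraicIndependent φ hφ hφO (n := n)
  have h2 : Algebra.IsAlgebraic (Algebra.adjoin K (Set.range fun i : Fin n =>
      φ (algebraMap (MvPolynomial (Fin n) O) A (MvPolynomial.X i)))) L := by
    refine ⟨fun z => ?_⟩
    obtain ⟨a, b, hb, rfl⟩ := hfrac z
    rw [div_eq_mul_inv]
    exact (chart_algebraic φ hφ hφO a).mul (chart_algebraic φ hφ hφO b).inv
  have b1 := (h1.isTranscendenceBasis_iff_isAlgebraic).2 h2
  have h3 : AlgebraicIndependent K (fun _ : Unit => x) :=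
    algebraicIndependent_unique_type_iff.2 hx
  have h4 : Algebra.IsAlgebraic (Algebra.adjoin K (Set.range fun _ : Unit => x)) L := by
    rw [Set.range_const]
    exact halg
  have b2 := (h3.isTranscendenceBasis_iff_isAlgebraic).2 h4
  have := b1.cardinalMk_eq b2
  simpa using this
-- END M4

-- BEGIN M5
theorem M5_transfer {R T B : Type u} [CommRing R] [CommRing T] [CommRing B] [Algebra R B]
    [Algebra R T] [Algebra T B] [IsScalarTower R T B]
    (hs : Function.Surjective (algebraMap R T)) [Algebra.IsStandardEtale R B] :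
    Algebra.IsStandardEtale T B := by
  let f : T ⊗[R] B →ₐ[T] B :=
    Algebra.TensorProduct.lift (Algebra.ofId T B) (AlgHom.id R B) (fun _ _ => Commute.all _ _)
  have hf : ∀ x : T ⊗[R] B, x = (1 : T) ⊗ₜ[R] f x := by
    intro x
    induction x using TensorProduct.induction_on with
    | zero => rw [map_zero, TensorProduct.tmul_zero]
    | tmul t b =>
      obtain ⟨r, rfl⟩ := hs t
      have h1 : f (algebraMap R T r ⊗ₜ[R] b) = algebraMap R B r * b := by
        simp only [f, Algebra.TensorProduct.lift_tmul, AlgHom.id_apply]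
        rw [Algebra.ofId_apply, ← IsScalarTower.algebraMap_apply R T B]
      rw [h1, ← Algebra.smul_def, ← TensorProduct.smul_tmul, Algebra.smul_def, mul_one]
    | add x y hx hy => rw [map_add, TensorProduct.tmul_add, ← hx, ← hy]
  have hbij : Function.Bijective f := by
    constructor
    · intro x y hxy
      rw [hf x, hf y, hxy]
    · intro b
      refine ⟨(1 : T) ⊗ₜ[R] b, ?_⟩
      simp only [f, Algebra.TensorProduct.lift_tmul, map_one, AlgHom.id_apply, one_mul]
  exact Algebra.IsStandardEtale.of_equiv (AlgEquiv.ofBijective f hbij)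

/-- (M5) Replace `MvPolynomial (Fin 1) O` by `O[X]` (`MvPolynomial.uniqueAlgEquiv`, and
`StandardEtalePresentation` of the transported pair). -/
theorem chart_polynomial [Algebra (MvPolynomial (Fin 1) O) A]
    [IsScalarTower O (MvPolynomial (Fin 1) O) A]
    [Algebra.IsStandardEtale (MvPolynomial (Fin 1) O) A] :
    ∃ _ : Algebra O[X] A, IsScalarTower O O[X] A ∧ Algebra.IsStandardEtale O[X] A := by
  let e : MvPolynomial (Fin 1) O ≃ₐ[O] O[X] := MvPolynomial.uniqueAlgEquiv O (Fin 1)
  let i1 : Algebra (MvPolynomial (Fin 1) O) O[X] := (e : _ →+* _).toAlgebra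
  let i2 : Algebra O[X] A :=
    ((algebraMap (MvPolynomial (Fin 1) O) A).comp (e.symm : _ →+* _)).toAlgebra
  have i3 : IsScalarTower (MvPolynomial (Fin 1) O) O[X] A :=
    IsScalarTower.of_algebraMap_eq fun x => by
      change algebraMap (MvPolynomial (Fin 1) O) A x =
        algebraMap (MvPolynomial (Fin 1) O) A (e.symm (e x))
      rw [AlgEquiv.symm_apply_apply]
  refine ⟨i2, IsScalarTower.of_algebraMap_eq fun x => ?_, ?_⟩
  · change algebraMap O A x =
      algebraMap (MvPolynomial (Fin 1) O) A (e.symm (algebraMap O O[X] x))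
    rw [AlgEquiv.commutes, ← IsScalarTower.algebraMap_apply]
  · exact M5_transfer (R := MvPolynomial (Fin 1) O) (T := O[X]) (B := A) e.surjective
-- END M5

/-! ## Closed centres -/

section onevariable

variable [Algebra O[X] A] [IsScalarTower O O[X] A] [Algebra.IsStandardEtale O[X] A]
  (φ : A →+* L) (hφ : Function.Injective φ)
  (hφO : ∀ a : O, φ (algebraMap O A a) = algebraMap K L a)
  (hfrac : ∀ z : L, ∃ a b : A, φ b ≠ 0 ∧ z = φ a / φ b)

-- BEGIN M6
include hφ in
/-- (M6) `A` is flat over `O[X]`. -/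
theorem chart_injective' : Function.Injective (φ.comp (algebraMap O[X] A)) := by
  have hflat : Module.Flat O[X] A := inferInstance
  have htf : Module.IsTorsionFree O[X] A := Module.Flat.isTorsionFree
  rw [injective_iff_map_eq_zero]
  intro r hr
  by_contra hne
  have h1 : algebraMap O[X] A r = 0 := by
    apply hφ
    rw [map_zero]
    exact hr
  have h2 : r • (1 : A) = 0 := by rw [Algebra.smul_def, h1, zero_mul]
  rcases smul_eq_zero.1 h2 with h | h
  · exact hne h
  · have h3 : φ 1 = 0 := by rw [h, map_zero]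
    rw [map_one] at h3
    exact one_ne_zero h3
-- END M6

-- BEGIN M7
include hφ hφO in
/-- (M7) The image `t` of the parameter is transcendental over `K` (clear denominators, (M6)). -/
theorem chart_transcendental : Transcendental K (φ (algebraMap O[X] A X)) := by
  let alg : Algebra O L := ((algebraMap K L).comp (algebraMap O K)).toAlgebra
  have : IsScalarTower O K L := IsScalarTower.of_algebraMap_eq fun _ => rfl
  have h1 : Transcendental O (φ (algebraMap O[X] A X)) := by
    rw [transcendental_iff_injective]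
    have h2 : (aeval (R := O) (φ (algebraMap O[X] A X)) : O[X] →+* L) =
        φ.comp (algebraMap O[X] A) := by
      apply Polynomial.ringHom_ext
      · intro a
        have e : algebraMap O[X] A (C a) = algebraMap O A a := by
          rw [IsScalarTower.algebraMap_apply O O[X] A]
          rfl
        simp only [RingHom.coe_coe, RingHom.comp_apply, aeval_C]
        rw [e, hφO]
        rfl
      · simp
    have h3 := chart_injective' (O := O) (A := A) φ hφ
    rw [← h2] at h3
    exact h3
  have : Algebra.IsAlgebraic O K :=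
    IsLocalization.isAlgebraic (S := K) (M := nonZeroDivisors O) (R := O)
  exact h1.extendScalars K
-- END M7

-- BEGIN M8
/-- An element of `A` is a quotient of integral elements: general form. -/
private theorem M8_isAlgebraic {R A F D : Type*} [CommRing R] [CommRing A] [Algebra R A]
    [Algebra.IsStandardEtale R A] [Field F] [CommRing D] [IsDomain D] [Algebra D F]
    [FaithfulSMul D F] (φ : A →+* F) (ψ : R →+* D)
    (h : ∀ r, algebraMap D F (ψ r) = φ (algebraMap R A r)) (a : A) : IsAlgebraic D (φ a) := by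
  obtain ⟨P⟩ := Algebra.IsStandardEtale.nonempty_standardEtalePresentation (R := R) (S := A)
  have hcomp : (algebraMap D F).comp ψ = φ.comp (algebraMap R A) := RingHom.ext h
  have hx : IsIntegral D (φ P.x) := by
    refine ⟨P.f.map ψ, P.monic_f.map ψ, ?_⟩
    rw [Polynomial.eval₂_map, hcomp, ← Polynomial.hom_eval₂]
    have := P.hasMap.1
    rw [Polynomial.aeval_def] at this
    rw [this, map_zero]
  have hq : ∀ q : R[X], IsIntegral D (φ (aeval P.x q)) := by
    intro q
    have e : φ (aeval P.x q) = aeval (φ P.x) (q.map ψ) := by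
      rw [Polynomial.aeval_def, Polynomial.aeval_def, Polynomial.eval₂_map, hcomp,
        ← Polynomial.hom_eval₂]
    rw [e]
    have h1 : aeval (φ P.x) (q.map ψ) ∈ Algebra.adjoin D {φ P.x} :=
      Polynomial.aeval_mem_adjoin_singleton D _
    exact IsIntegral.of_mem_of_fg _ hx.fg_adjoin_singleton _ h1
  obtain ⟨p, m, hp⟩ := P.exists_mul_aeval_x_g_pow_eq_aeval_x a
  have hg : φ (aeval P.x P.g) ≠ 0 := (P.hasMap.2.map φ).ne_zero
  have ha : φ a = φ (aeval P.x p) * (φ (aeval P.x P.g) ^ m)⁻¹ := by
    rw [← hp, map_mul, map_pow, mul_assoc, mul_inv_cancel₀ (pow_ne_zero _ hg), mul_one]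
  rw [ha]
  exact (hq p).isAlgebraic.mul (((hq P.g).isAlgebraic.pow m).inv)

include hφO in
/-- The polynomials in the parameter are mapped to `K(t)`. -/
private theorem M8_mem (r : O[X]) :
    (φ.comp (algebraMap O[X] A)) r ∈ K⟮φ (algebraMap O[X] A X)⟯ := by
  induction r using Polynomial.induction_on with
  | C b =>
    have e : algebraMap O[X] A (C b) = algebraMap O A b := by
      rw [IsScalarTower.algebraMap_apply O O[X] A]
      rfl
    rw [RingHom.comp_apply, e, hφO]
    exact IntermediateField.algebraMap_mem _ _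
  | add p q hp hq => rw [map_add]; exact add_mem hp hq
  | monomial m b hp =>
    rw [pow_succ, ← mul_assoc, map_mul]
    exact mul_mem hp (IntermediateField.mem_adjoin_simple_self K _)

include hφ hφO hfrac in
/-- (M8) `L` is algebraic over `K(t)`: as in (M3), with `hfrac`. -/
theorem chart_isAlgebraic : Algebra.IsAlgebraic K⟮φ (algebraMap O[X] A X)⟯ L := by
  have key : ∀ a : A, IsAlgebraic K⟮φ (algebraMap O[X] A X)⟯ (φ a) := fun a =>
    M8_isAlgebraic φ ((φ.comp (algebraMap O[X] A)).codRestrict
      K⟮φ (algebraMap O[X] A X)⟯ (M8_mem φ hφO)) (fun r => rfl) a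
  refine ⟨fun z => ?_⟩
  obtain ⟨a, b, hb, rfl⟩ := hfrac z
  rw [div_eq_mul_inv]
  exact (key a).mul (key b).inv
-- END M8

-- BEGIN M9
include hφO in
/-- The polynomials in the parameter are mapped to `K(t)`. -/
private theorem M9_mem (r : O[X]) :
    φ (algebraMap O[X] A r) ∈ K⟮φ (algebraMap O[X] A X)⟯ := by
  induction r using Polynomial.induction_on with
  | C b =>
    have e : algebraMap O[X] A (C b) = algebraMap O A b := by
      rw [IsScalarTower.algebraMap_apply O O[X] A]
      rfl
    rw [e, hφO]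
    exact IntermediateField.algebraMap_mem _ _
  | add p q hp hq => rw [map_add, map_add]; exact add_mem hp hq
  | monomial m b hp =>
    rw [pow_succ, ← mul_assoc, map_mul, map_mul]
    exact mul_mem hp (IntermediateField.mem_adjoin_simple_self K _)

include hφ hφO hfrac in
/-- (M9) `L` is generated by `u = φ (P.x)` over `K(t)`: `K(t)[u]` is a field by (M8), it contains
`φ A` by `P.exists_mul_aeval_x_g_pow_eq_aeval_x` and hence `L` by `hfrac`. -/
theorem chart_generator (P : StandardEtalePresentation O[X] A) (z : L) :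
    z ∈ Algebra.adjoin K⟮φ (algebraMap O[X] A X)⟯ {φ P.x} := by
  have halg := chart_isAlgebraic φ hφ hφO hfrac
  rw [← IntermediateField.adjoin_simple_toSubalgebra_of_isAlgebraic (halg.isAlgebraic (φ P.x)),
    IntermediateField.mem_toSubalgebra]
  set F := IntermediateField.adjoin K⟮φ (algebraMap O[X] A X)⟯ {φ P.x} with hF
  have hu : φ P.x ∈ F := IntermediateField.mem_adjoin_simple_self _ _
  have hq : ∀ q : O[X][X], φ (aeval P.x q) ∈ F := by
    intro q
    induction q using Polynomial.induction_on with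
    | C r =>
      rw [aeval_C]
      exact F.algebraMap_mem ⟨_, M9_mem φ hφO r⟩
    | add p q hp hq => rw [map_add, map_add]; exact add_mem hp hq
    | monomial m r hp =>
      rw [pow_succ, ← mul_assoc, map_mul, map_mul, aeval_X]
      exact mul_mem hp hu
  have hA : ∀ a : A, φ a ∈ F := by
    intro a
    obtain ⟨p, m, hp⟩ := P.exists_mul_aeval_x_g_pow_eq_aeval_x a
    have hg : φ (aeval P.x P.g) ≠ 0 := (P.hasMap.2.map φ).ne_zero
    have ha : φ a = φ (aeval P.x p) * (φ (aeval P.x P.g) ^ m)⁻¹ := by
      rw [← hp, map_mul, map_pow, mul_assoc, mul_inv_cancel₀ (pow_ne_zero _ hg), mul_one]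
    rw [ha]
    exact mul_mem (hq p) (inv_mem (pow_mem (hq P.g) m))
  obtain ⟨a, b, hb, rfl⟩ := hfrac z
  exact div_mem (hA a) (hA b)
-- END M9

-- BEGIN M10
include hφO in
omit [Algebra.IsStandardEtale O[X] A] in
theorem M10_sub_mem {v : ValuationSubring L} (hAv : ∀ a, φ a ∈ v)
    (hv : Over O v) (a₀ : K) (ha₀ : a₀ ∈ O)
    (ht : φ (algebraMap O[X] A X) - algebraMap K L a₀ ∈ v.nonunits) (p : O[X]) :
    φ (algebraMap O[X] A p) - algebraMap K L (p.eval (⟨a₀, ha₀⟩ : O) : O) ∈ v.nonunits := by
  induction p using Polynomial.induction_on' with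
  | add p q hp hq =>
    rw [ValuationSubring.mem_nonunits_iff] at hp hq ⊢
    have : φ (algebraMap O[X] A (p + q)) - algebraMap K L (((p + q).eval (⟨a₀, ha₀⟩ : O) : O) : K)
        = (φ (algebraMap O[X] A p) - algebraMap K L (p.eval (⟨a₀, ha₀⟩ : O) : O)) +
          (φ (algebraMap O[X] A q) - algebraMap K L (q.eval (⟨a₀, ha₀⟩ : O) : O)) := by
      rw [map_add, map_add, eval_add]
      change _ - algebraMap K L ((p.eval (⟨a₀, ha₀⟩ : O) : O) + (q.eval (⟨a₀, ha₀⟩ : O) : O)) = _
      rw [map_add]
      ring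
    rw [this]
    exact v.valuation.map_add_lt hp hq
  | monomial n c =>
    have hc : φ (algebraMap O[X] A (monomial n c)) =
        algebraMap K L c * φ (algebraMap O[X] A X) ^ n := by
      rw [← C_mul_X_pow_eq_monomial, map_mul, map_mul, map_pow, map_pow]
      congr 1
      rw [← hφO c]
      congr 1
      exact (IsScalarTower.algebraMap_apply O O[X] A c).symm
    rw [hc, eval_monomial]
    change _ - algebraMap K L ((c : K) * a₀ ^ n) ∈ _
    rw [map_mul, map_pow]
    set t := φ (algebraMap O[X] A X) with ht'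
    have htv : t ∈ v := hAv _
    have hav : algebraMap K L a₀ ∈ v := (Over.mem_iff hv a₀).mpr ha₀
    have hcv : algebraMap K L c ∈ v := (Over.mem_iff hv c).mpr c.2
    have hd : (t - algebraMap K L a₀) ∣ t ^ n - algebraMap K L a₀ ^ n := sub_dvd_pow_sub_pow _ _ n
    have hgeom : t ^ n - algebraMap K L a₀ ^ n =
        (∑ i ∈ Finset.range n, t ^ i * algebraMap K L a₀ ^ (n - 1 - i)) *
          (t - algebraMap K L a₀) := by
      rw [(Commute.all t (algebraMap K L a₀)).geom_sum₂_mul]
    have hsum : (∑ i ∈ Finset.range n, t ^ i * algebraMap K L a₀ ^ (n - 1 - i)) ∈ v :=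
      sum_mem fun i _ => mul_mem (pow_mem htv _) (pow_mem hav _)
    rw [← mul_sub, hgeom, ← mul_assoc]
    rw [ValuationSubring.mem_nonunits_iff] at ht ⊢
    rw [map_mul]
    have h1 := (v.valuation_le_one_iff _).mpr (mul_mem hcv hsum)
    exact lt_of_le_of_lt (mul_le_of_le_one_left' h1) ht

omit [Algebra K L] [Algebra O A] [IsScalarTower O O[X] A] [Algebra.IsStandardEtale O[X] A] in
theorem M10_eval_map (x : A) (f : O[X][X]) :
    (f.map (φ.comp (algebraMap O[X] A))).eval (φ x) = φ (aeval x f) := by
  rw [eval_map, ← hom_eval₂, aeval_def]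

include hφ hφO hfrac in
/-- (M10) MAIN THEOREM for closed centres: if `t` is congruent to a constant then `v` is not
residually nonrational. From `not_nonrational_of_root` with `G = P.f.map (φ.comp (algebraMap O[X] A))`,
`u = φ P.x`, (M8), (M9); the coefficients of `G` are `p(t)` with `p ∈ O[X]`, hence congruent to `p(a₀)`;
`P.hasMap.isUnit_derivative_f`. -/
theorem closed_center [IsAlgClosed K] (hO : RankOne O) (h2 : IsUnit (2 : O))
    {v : ValuationSubring L} (hv : Over O v) (hAv : ∀ a, φ a ∈ v) (a₀ : K) (ha₀ : a₀ ∈ O)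
    (ht : φ (algebraMap O[X] A X) - algebraMap K L a₀ ∈ v.nonunits) : ¬ Nonrational O v := by
  obtain ⟨P⟩ := (inferInstance : Algebra.IsStandardEtale O[X] A).nonempty_standardEtalePresentation
  refine not_nonrational_of_root hO h2 hv (φ (algebraMap O[X] A X)) (φ P.x)
    (chart_isAlgebraic φ hφ hφO hfrac) (chart_generator φ hφ hφO hfrac P)
    (P.f.map (φ.comp (algebraMap O[X] A))) ?_ ?_ (hAv _) ?_ ?_
  · intro n
    rw [coeff_map]
    generalize P.f.coeff n = p
    change φ (algebraMap O[X] A p) ∈ _
    induction p using Polynomial.induction_on' with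
    | add p q hp hq =>
      rw [map_add, map_add]
      exact add_mem hp hq
    | monomial n c =>
      rw [← C_mul_X_pow_eq_monomial, map_mul, map_mul, map_pow, map_pow]
      refine mul_mem ?_ (pow_mem (IntermediateField.mem_adjoin_simple_self _ _) _)
      have : φ (algebraMap O[X] A (C c)) = algebraMap K L c := by
        rw [← hφO c]
        congr 1
        exact (IsScalarTower.algebraMap_apply O O[X] A c).symm
      rw [this]
      exact IntermediateField.algebraMap_mem _ _
  · intro n
    rw [coeff_map]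
    exact ⟨_, Subtype.mem _, M10_sub_mem φ hφO hAv hv a₀ ha₀ ht (P.f.coeff n)⟩
  · rw [M10_eval_map, P.hasMap.1, map_zero]
  · rw [Polynomial.derivative_map, M10_eval_map]
    obtain ⟨w, hw⟩ := P.hasMap.isUnit_derivative_f
    rw [ValuationSubring.mem_nonunits_iff, ← hw, not_lt]
    have h1 : v.valuation (φ (w : A)) * v.valuation (φ ((w⁻¹ : Aˣ) : A)) = 1 := by
      rw [← map_mul, ← map_mul, Units.mul_inv, map_one, map_one]
    have h2 : v.valuation (φ ((w⁻¹ : Aˣ) : A)) ≤ 1 := (v.valuation_le_one_iff _).mpr (hAv _)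
    rw [← h1]
    exact mul_le_of_le_one_right' h2
-- END M10

-- BEGIN M11
theorem M11_aux {S B : Type u} [CommRing S] [CommRing B] [IsDomain B] [Algebra S B]
    (q : Ideal B) (c : B) (hc : c ≠ 0) (hcq : c ∈ q) (n : ℕ) :
    ∀ p : S[X], p.Monic → p.natDegree = n → aeval c p = 0 →
      ∃ s : S, algebraMap S B s ≠ 0 ∧ algebraMap S B s ∈ q := by
  induction n with
  | zero =>
    intro p hp hn h
    rw [hp.natDegree_eq_zero.mp hn, map_one] at h
    exact absurd h one_ne_zero
  | succ n ih =>
    intro p hp hn h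
    have hX := divX_mul_X_add p
    have h' : aeval c p.divX * c + algebraMap S B (p.coeff 0) = 0 := by
      rw [← h]
      conv_rhs => rw [← hX]
      rw [map_add, map_mul, aeval_X, aeval_C]
    by_cases h0 : algebraMap S B (p.coeff 0) = 0
    · rw [h0, add_zero] at h'
      have h1 : aeval c p.divX = 0 := (mul_eq_zero.mp h').resolve_right hc
      have hnt : Nontrivial S := by
        refine ⟨⟨1, 0, fun h10 => ?_⟩⟩
        have := congrArg (algebraMap S B) h10
        rw [map_one, map_zero] at this
        exact one_ne_zero this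
      have hd : p.divX.natDegree = n := by
        rw [natDegree_divX_eq_natDegree_tsub_one, hn]
        rfl
      refine ih p.divX ?_ hd h1
      rw [Monic, leadingCoeff, hd, coeff_divX, ← hn]
      exact hp
    · refine ⟨p.coeff 0, h0, ?_⟩
      rw [← (eq_neg_of_add_eq_zero_right h').symm]
      exact q.neg_mem (q.mul_mem_left _ hcq)

/-- (M11) Let `B` be a domain, integral over a subring up to an invertible element:
if `S → B` is a ring homomorphism, `x, g ∈ B`, `x` integral over `S`, `g` a unit of `B` in the subring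
`S[x]`, every `b ∈ B` is of the form `p(x) / g ^ m`; then every nonzero
prime ideal `q` of `B` contains the image of an element of `S` whose image in `B` is not zero.
(`b ≠ 0` in `q`; `b g ^ m = p(x)` is integral over `S`, not zero; take a monic equation of minimal
degree: its constant term is in `q` and not zero in `B`.) -/
theorem exists_mem_of_prime {S B : Type u} [CommRing S] [CommRing B] [IsDomain B] [Algebra S B]
    (x g : B) (hx : IsIntegral S x) (hg : IsUnit g)
    (h : ∀ b : B, ∃ (p : S[X]) (m : ℕ), b * g ^ m = aeval x p) (q : Ideal B)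
    (hq : q ≠ ⊥) (hq' : q ≠ ⊤) : ∃ s : S, algebraMap S B s ≠ 0 ∧ algebraMap S B s ∈ q := by
  obtain ⟨b, hb, hb0⟩ := q.ne_bot_iff.mp hq
  obtain ⟨p, m, hpm⟩ := h b
  have hc0 : aeval x p ≠ 0 := by
    rw [← hpm]
    exact mul_ne_zero hb0 (pow_ne_zero _ hg.ne_zero)
  have hcq : aeval x p ∈ q := by
    rw [← hpm]
    exact q.mul_mem_right _ hb
  have hci : IsIntegral S (aeval x p) :=
    IsIntegral.of_mem_of_fg _ hx.fg_adjoin_singleton _ (aeval_mem_adjoin_singleton _ _)
  obtain ⟨r, hr, hr'⟩ := hci
  exact M11_aux q _ hc0 hcq _ r hr rfl (by rw [aeval_def]; exact hr')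
-- END M11

-- BEGIN M12
include hφO in
omit [Algebra.IsStandardEtale O[X] A] in
theorem M12_aeval (s : O[X]) :
    φ (algebraMap O[X] A s) = aeval (φ (algebraMap O[X] A X)) (s.map (algebraMap O K)) := by
  induction s using Polynomial.induction_on' with
  | add p q hp hq =>
    rw [map_add, map_add, hp, hq, Polynomial.map_add, map_add]
  | monomial n c =>
    rw [← C_mul_X_pow_eq_monomial, map_mul, map_mul, map_pow, map_pow, Polynomial.map_mul,
      Polynomial.map_pow, map_C, map_X, map_mul, map_pow, aeval_X, aeval_C]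
    congr 1
    change φ (algebraMap O[X] A (C c)) = algebraMap K L (algebraMap O K c)
    have h2 : algebraMap O K c = (c : K) := rfl
    rw [h2, ← hφO c]
    congr 1
    exact (IsScalarTower.algebraMap_apply O O[X] A c).symm

include hφO in
/-- (M12) MAIN THEOREM for generic centres: if `t` is residually transcendental, the centre of `v` on
`A` is `m A`. Apply (M11) to `S = O[X]`, `B = A / m A`, `x` the class of `P.x`, `g` the class of
`aeval P.x P.g`, and `q` the image of the centre; an element of `O[X]` whose image in `A / m A` is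
not zero is primitive, use (V5) `ResTrans.isUnit_aeval`. -/
theorem generic_center [IsAlgClosed K] {v : ValuationSubring L} (hv : Over O v)
    (hAv : ∀ a, φ a ∈ v) (hs : ResTrans O v (φ (algebraMap O[X] A X)))
    (hp : ((IsLocalRing.maximalIdeal O).map (algebraMap O A)).IsPrime) (a : A) :
    φ a ∈ v.nonunits ↔ a ∈ (IsLocalRing.maximalIdeal O).map (algebraMap O A) := by
  obtain ⟨P⟩ := (inferInstance : Algebra.IsStandardEtale O[X] A).nonempty_standardEtalePresentation
  let ψ : A →+* v := φ.codRestrict v hAv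
  let q' : Ideal A := (IsLocalRing.maximalIdeal v).comap ψ
  have hq' : ∀ a, φ a ∈ v.nonunits ↔ a ∈ q' := by
    intro a
    change _ ↔ ψ a ∈ IsLocalRing.maximalIdeal v
    rw [ValuationSubring.mem_nonunits_iff_exists_mem_maximalIdeal]
    constructor
    · rintro ⟨_, h⟩
      exact h
    · intro h
      exact ⟨hAv a, h⟩
  have hprime : q'.IsPrime := Ideal.comap_isPrime _ _
  set mA := (IsLocalRing.maximalIdeal O).map (algebraMap O A) with hmA
  have hle : mA ≤ q' := by
    rw [hmA, Ideal.map_le_iff_le_comap]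
    intro c hc
    rw [Ideal.mem_comap, ← hq', hφO, Over.nonunits_iff hv]
    exact ValuationSubring.mem_nonunits_iff_exists_mem_maximalIdeal.mpr ⟨c.2, hc⟩
  rw [hq']
  refine ⟨fun ha => ?_, fun ha => hle ha⟩
  by_contra hna
  have hdom : IsDomain (A ⧸ mA) := Ideal.Quotient.isDomain _
  have htow : IsScalarTower O[X] A (A ⧸ mA) := inferInstance
  have hint : IsIntegral O[X] P.x := ⟨P.f, P.monic_f, P.hasMap.1⟩
  have hker : RingHom.ker (Ideal.Quotient.mk mA) ≤ q' := by rwa [Ideal.mk_ker]
  have hcm : (q'.map (Ideal.Quotient.mk mA)).comap (Ideal.Quotient.mk mA) = q' := by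
    rw [Ideal.comap_map_of_surjective' _ Ideal.Quotient.mk_surjective]
    exact sup_eq_left.mpr hker
  obtain ⟨s, hs0, hsq⟩ := exists_mem_of_prime (S := O[X]) (B := A ⧸ mA)
    (algebraMap A (A ⧸ mA) P.x) (algebraMap A (A ⧸ mA) (aeval P.x P.g))
    (hint.algebraMap) (P.hasMap.2.map _) (by
      intro b
      obtain ⟨b, rfl⟩ := Ideal.Quotient.mk_surjective b
      obtain ⟨p, m, hpm⟩ := P.exists_mul_aeval_x_g_pow_eq_aeval_x b
      refine ⟨p, m, ?_⟩
      change algebraMap A (A ⧸ mA) b * _ = _
      rw [aeval_algebraMap_apply, ← map_pow, ← map_mul, hpm])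
    (q'.map (Ideal.Quotient.mk mA)) (by
      intro h
      apply hna
      have : Ideal.Quotient.mk mA a ∈ q'.map (Ideal.Quotient.mk mA) :=
        Ideal.mem_map_of_mem _ ha
      rw [h, Ideal.mem_bot, Ideal.Quotient.eq_zero_iff_mem] at this
      exact this) (by
      intro h
      rw [h, Ideal.comap_top] at hcm
      exact hprime.ne_top hcm.symm)
  have hsA : algebraMap O[X] A s ∉ mA := by
    intro h
    apply hs0
    rw [IsScalarTower.algebraMap_apply O[X] A (A ⧸ mA)]
    exact Ideal.Quotient.eq_zero_iff_mem.mpr h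
  have hsq' : algebraMap O[X] A s ∈ q' := by
    rw [← hcm, Ideal.mem_comap]
    rwa [IsScalarTower.algebraMap_apply O[X] A (A ⧸ mA)] at hsq
  rw [← hq', M12_aeval φ hφO] at hsq'
  refine (hs.isUnit_aeval hv (s.map (algebraMap O K)) ?_ ?_).2 hsq'
  · intro n
    rw [coeff_map]
    exact (s.coeff n).2
  · by_contra hcon
    push Not at hcon
    apply hsA
    rw [← s.sum_C_mul_X_pow_eq, Polynomial.sum, map_sum]
    refine Ideal.sum_mem _ fun n _ => ?_
    rw [map_mul]
    refine Ideal.mul_mem_right _ _ ?_
    have : algebraMap O[X] A (C (s.coeff n)) = algebraMap O A (s.coeff n) :=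
      (IsScalarTower.algebraMap_apply O O[X] A (s.coeff n)).symm
    rw [this]
    refine Ideal.mem_map_of_mem _ ?_
    have hn := hcon n
    rw [coeff_map] at hn
    obtain ⟨_, h⟩ := ValuationSubring.mem_nonunits_iff_exists_mem_maximalIdeal.mp hn
    exact h
-- END M12

/-! ## Normality -/

-- BEGIN M13
/-- (M13) Let `R` be an integrally closed domain with fraction field `F`, `A` smooth over `R`; then `A`
is integrally closed in `A ⊗ F`. From `TensorProduct.toIntegralClosure_bijective_of_smooth`. -/
theorem integrallyClosedIn_tensor {R F B : Type u} [CommRing R] [IsDomain R]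
    [IsIntegrallyClosed R] [Field F] [Algebra R F] [IsFractionRing R F] [CommRing B]
    [Algebra R B] [Algebra.Smooth R B] : IsIntegrallyClosedIn B (B ⊗[R] F) := by
  have hflat : Module.Flat R B := inferInstance
  refine isIntegrallyClosedIn_iff.mpr ⟨?_, ?_⟩
  · exact Algebra.TensorProduct.includeLeft_injective (S := R) (A := B) (B := F)
      (IsFractionRing.injective R F)
  · intro x hx
    obtain ⟨y, hy⟩ := (TensorProduct.toIntegralClosure_bijective_of_smooth
      (R := R) (S := B) (B := F)).2 ⟨x, hx⟩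
    have hy' : Algebra.TensorProduct.map (AlgHom.id B B) (integralClosure R F).val y = x :=
      congrArg Subtype.val hy
    rw [← hy']
    clear hy hy'
    induction y with
    | zero => exact ⟨0, by simp⟩
    | add y z h1 h2 =>
      obtain ⟨a, ha⟩ := h1
      obtain ⟨b, hb⟩ := h2
      exact ⟨a + b, by rw [map_add, map_add, ha, hb]⟩
    | tmul b z =>
      obtain ⟨r, hr⟩ := IsIntegrallyClosed.isIntegral_iff.mp z.2
      refine ⟨r • b, ?_⟩
      rw [Algebra.TensorProduct.map_tmul]
      simp only [AlgHom.coe_id, id_eq, Subalgebra.coe_val]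
      rw [← hr, Algebra.TensorProduct.algebraMap_apply, Algebra.algebraMap_self, RingHom.id_apply,
        TensorProduct.smul_tmul, Algebra.smul_def, mul_one]
-- END M13

-- BEGIN M14
theorem M14_exists_tmul {R F B : Type u} [CommRing R] [IsDomain R] [Field F] [Algebra R F]
    [IsFractionRing R F] [CommRing B] [Algebra R B] (x : B ⊗[R] F) :
    ∃ (b : B) (r : R), r ≠ 0 ∧ x = b ⊗ₜ[R] (algebraMap R F r)⁻¹ := by
  induction x with
  | zero => exact ⟨0, 1, one_ne_zero, by simp⟩
  | tmul b z =>
    obtain ⟨p, q, hq, rfl⟩ := IsFractionRing.div_surjective (A := R) z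
    refine ⟨p • b, q, nonZeroDivisors.ne_zero hq, ?_⟩
    rw [TensorProduct.smul_tmul, Algebra.smul_def, div_eq_mul_inv]
  | add x y hx hy =>
    obtain ⟨b, r, hr, rfl⟩ := hx
    obtain ⟨c, s, hs, rfl⟩ := hy
    have hr' : algebraMap R F r ≠ 0 := by
      rwa [Ne, FaithfulSMul.algebraMap_eq_zero_iff]
    have hs' : algebraMap R F s ≠ 0 := by
      rwa [Ne, FaithfulSMul.algebraMap_eq_zero_iff]
    refine ⟨s • b + r • c, r * s, mul_ne_zero hr hs, ?_⟩
    rw [TensorProduct.add_tmul, TensorProduct.smul_tmul, TensorProduct.smul_tmul,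
      Algebra.smul_def, Algebra.smul_def, map_mul]
    congr 2
    · field_simp
    · field_simp

/-- (M14) Let `R` be a domain, `B` a flat `R`-algebra, injective into a field `L` with `L = Frac B` algebraic over
`Frac R`: then `B ⊗ Frac R → L` is bijective. (`B ⊗ Frac R` is the localization of `B` at `R \ 0`, so the
map is injective; the image is a subring of `L`, algebraic over the field `Frac R`, hence a field, and it
contains `B`.) -/
theorem tensor_bijective {R F B : Type u} [CommRing R] [IsDomain R] [Field F] [Algebra R F]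
    [IsFractionRing R F] [CommRing B] [Algebra R B] [Algebra R L] [Algebra F L]
    [IsScalarTower R F L] [Algebra B L] [IsScalarTower R B L]
    (hB : Function.Injective (algebraMap B L)) (halg : Algebra.IsAlgebraic F L)
    (hfrac : ∀ z : L, ∃ a b : B, algebraMap B L b ≠ 0 ∧ z = algebraMap B L a / algebraMap B L b) :
    Function.Bijective (Algebra.TensorProduct.lift (Algebra.ofId B L)
      (IsScalarTower.toAlgHom R F L) (fun _ _ => Commute.all _ _) : B ⊗[R] F →ₐ[B] L) := by
  have key : ∀ (b : B) (z : F), (Algebra.TensorProduct.lift (Algebra.ofId B L)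
      (IsScalarTower.toAlgHom R F L) (fun _ _ => Commute.all _ _) : B ⊗[R] F →ₐ[B] L)
        (b ⊗ₜ[R] z) = algebraMap B L b * algebraMap F L z := by
    intro b z
    rw [Algebra.TensorProduct.lift_tmul]
    rfl
  set Φ : B ⊗[R] F →ₐ[B] L := (Algebra.TensorProduct.lift (Algebra.ofId B L)
      (IsScalarTower.toAlgHom R F L) (fun _ _ => Commute.all _ _) : B ⊗[R] F →ₐ[B] L) with hΦ
  constructor
  · rw [injective_iff_map_eq_zero]
    intro x hx
    obtain ⟨b, r, hr, rfl⟩ := M14_exists_tmul x
    rw [key, mul_eq_zero] at hx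
    have hr' : algebraMap R F r ≠ 0 := by
      rwa [Ne, FaithfulSMul.algebraMap_eq_zero_iff]
    rcases hx with hx | hx
    · rw [map_eq_zero_iff _ hB] at hx
      rw [hx, TensorProduct.zero_tmul]
    · exfalso
      rw [map_eq_zero] at hx
      exact inv_ne_zero hr' hx
  · -- the range as an `F`-subalgebra
    let S : Subalgebra F L :=
      { Φ.toRingHom.range with
        algebraMap_mem' := fun z => ⟨1 ⊗ₜ[R] z, by
          change Φ (1 ⊗ₜ[R] z) = _
          rw [key, map_one, one_mul]⟩ }
    have hS : IsField S := by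
      have : Algebra.IsAlgebraic F S := by
        refine ⟨fun s => ?_⟩
        have := halg.isAlgebraic (s : L)
        exact (isAlgebraic_algebraMap_iff (R := F) (S := S) (A := L)
          Subtype.val_injective).mp this
      exact Subalgebra.isField_of_algebraic S
    intro z
    obtain ⟨a, b, hb, rfl⟩ := hfrac z
    have ha : algebraMap B L a ∈ S := ⟨a ⊗ₜ[R] 1, by
      change Φ (a ⊗ₜ[R] 1) = _
      rw [key, map_one, mul_one]⟩
    have hb' : algebraMap B L b ∈ S := ⟨b ⊗ₜ[R] 1, by
      change Φ (b ⊗ₜ[R] 1) = _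
      rw [key, map_one, mul_one]⟩
    obtain ⟨c, hc⟩ := hS.mul_inv_cancel (a := ⟨algebraMap B L b, hb'⟩) (by
      intro h
      exact hb (congrArg Subtype.val h))
    have hc' : algebraMap B L b * (c : L) = 1 := congrArg Subtype.val hc
    have hcb : (algebraMap B L b)⁻¹ = c := by
      rw [inv_eq_iff_eq_inv]
      exact eq_inv_of_mul_eq_one_left hc'
    have hz : algebraMap B L a / algebraMap B L b ∈ S := by
      rw [div_eq_mul_inv, hcb]
      exact S.mul_mem ha c.2
    obtain ⟨w, hw⟩ := hz
    exact ⟨w, hw⟩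
-- END M14

-- BEGIN M15
include hφ hφO hfrac in
/-- (M15) The chart is normal: (M13), (M14) with `R = O[X]`, `F = FractionRing O[X]` (mapped to `L` by
(M6)). -/
theorem chart_normal : IsIntegrallyClosedIn φ.range L := by
  let : Algebra A L := φ.toAlgebra
  let : Algebra O[X] L := (φ.comp (algebraMap O[X] A)).toAlgebra
  have : IsScalarTower O[X] A L := IsScalarTower.of_algebraMap_eq fun _ => rfl
  have hinj : Function.Injective (algebraMap O[X] L) := chart_injective' φ hφ
  have : FaithfulSMul O[X] L := (faithfulSMul_iff_algebraMap_injective _ _).mpr hinj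
  let : Algebra (FractionRing O[X]) L := FractionRing.liftAlgebra O[X] L
  have : IsScalarTower O[X] (FractionRing O[X]) L := FractionRing.isScalarTower_liftAlgebra O[X] L
  have hO : ∀ a : O, (algebraMap (FractionRing O[X]) L) (algebraMap O[X] _ (C a)) =
      algebraMap K L a := by
    intro a
    rw [← IsScalarTower.algebraMap_apply O[X] (FractionRing O[X]) L]
    change φ (algebraMap O[X] A (C a)) = _
    rw [← hφO a]
    congr 1
    exact (IsScalarTower.algebraMap_apply O O[X] A a).symm
  -- the range contains `K(t)`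
  have hrange : ∀ w : L, w ∈ K⟮φ (algebraMap O[X] A X)⟯ →
      w ∈ (algebraMap (FractionRing O[X]) L).fieldRange := by
    let E : IntermediateField K L :=
      { (algebraMap (FractionRing O[X]) L).fieldRange with
        algebraMap_mem' := fun a => by
          obtain ⟨p, q, hq, rfl⟩ := IsFractionRing.div_surjective (A := O) a
          rw [map_div₀]
          refine (algebraMap (FractionRing O[X]) L).fieldRange.div_mem ⟨_, hO p⟩ ⟨_, hO q⟩ }
    have hle : K⟮φ (algebraMap O[X] A X)⟯ ≤ E := by
      rw [IntermediateField.adjoin_simple_le_iff]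
      refine ⟨algebraMap O[X] _ X, ?_⟩
      rw [← IsScalarTower.algebraMap_apply O[X] (FractionRing O[X]) L]
      rfl
    exact fun w hw => hle hw
  have halg : Algebra.IsAlgebraic (FractionRing O[X]) L := by
    refine ⟨fun z => ?_⟩
    obtain ⟨p, hp, hpz⟩ := (chart_isAlgebraic φ hφ hφO hfrac).isAlgebraic z
    have hl : p.map (algebraMap K⟮φ (algebraMap O[X] A X)⟯ L) ∈
        lifts (algebraMap (FractionRing O[X]) L) := by
      rw [lifts_iff_coeff_lifts]
      intro n
      rw [coeff_map]
      exact hrange _ (p.coeff n).2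
    obtain ⟨q, hq⟩ := (mem_lifts _).mp hl
    refine ⟨q, ?_, ?_⟩
    · rintro rfl
      rw [Polynomial.map_zero] at hq
      exact hp ((Polynomial.map_eq_zero _).mp hq.symm)
    · rw [← eval_map_algebraMap, hq, eval_map_algebraMap, hpz]
  have hbij := tensor_bijective (R := O[X]) (F := FractionRing O[X]) (B := A) (L := L) hφ halg
    (fun z => hfrac z)
  have hcl : IsIntegrallyClosedIn A (A ⊗[O[X]] FractionRing O[X]) := integrallyClosedIn_tensor
  have hcl' : IsIntegrallyClosedIn A L := (AlgEquiv.ofBijective _ hbij).isIntegrallyClosedIn.mp hcl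
  rw [Subring.isIntegrallyClosedIn_iff]
  intro x hx
  let : Algebra A φ.range := φ.rangeRestrict.toAlgebra
  have : IsScalarTower A φ.range L := IsScalarTower.of_algebraMap_eq fun _ => rfl
  have : Algebra.IsIntegral A φ.range := ⟨fun y => by
    obtain ⟨a, rfl⟩ := φ.rangeRestrict_surjective y
    exact isIntegral_algebraMap⟩
  have hx' : IsIntegral A x := isIntegral_trans x hx
  obtain ⟨y, hy⟩ := hcl'.algebraMap_eq_of_integral hx'
  exact ⟨y, hy⟩
-- END M15

include hφ hφO hfrac in
/-- Two valuation rings with generic centre on the chart agree. -/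
theorem eq_of_generic [IsAlgClosed K] {v w : ValuationSubring L} (hv : Over O v) (hw : Over O w)
    (hAv : ∀ a, φ a ∈ v) (hAw : ∀ a, φ a ∈ w)
    (hcv : ∀ a, φ a ∈ v.nonunits ↔ a ∈ (IsLocalRing.maximalIdeal O).map (algebraMap O A))
    (hcw : ∀ a, φ a ∈ w.nonunits ↔ a ∈ (IsLocalRing.maximalIdeal O).map (algebraMap O A))
    (hs : ResTrans O v (φ (algebraMap O[X] A X))) : v = w := by
  refine eq_of_same_center φ.range (chart_normal φ hφ hφO hfrac) ?_ (φ (algebraMap O[X] A X))
    ⟨_, rfl⟩ (chart_isAlgebraic φ hφ hφO hfrac) hv hw ?_ ?_ ?_ hs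
  · intro a ha
    exact ⟨algebraMap O A ⟨a, ha⟩, hφO _⟩
  · rintro _ ⟨a, rfl⟩
    exact hAv a
  · rintro _ ⟨a, rfl⟩
    exact hAw a
  · rintro _ ⟨a, rfl⟩
    rw [hcv, hcw]

end onevariable

end Pool.Agent.Lib.MP_211349_ag
end
end

section

/-!
# PART M, assembly: uniqueness of the residually nonrational valuation ring
-/

open CategoryTheory Limits AlgebraicGeometry Polynomial IntermediateField

universe u

noncomputable section

namespace Pool.Agent.Lib.MP_211349_ag

variable {K : Type u} [Field K] {O : ValuationSubring K}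
  {X C : Scheme.{u}} [IsIntegral C] {f : X ⟶ Spec (.of O)} {g : C ⟶ Spec (.of K)}
  {i : C ⟶ X} (hi : IsPullback i g f (genPt O))

/-- The maximal ideal of a valuation subring. -/
theorem mem_maximalIdeal_iff {L : Type u} [Field L] (v : ValuationSubring L) (x : v) :
    x ∈ IsLocalRing.maximalIdeal v ↔ (x : L) ∈ v.nonunits := by
  rw [ValuationSubring.mem_nonunits_iff_exists_mem_maximalIdeal]
  constructor
  · intro h
    exact ⟨x.2, h⟩
  · rintro ⟨_, h⟩
    exact h

/-- The algebraic facts on a chart through which the generic point of the generic fibre factors. -/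
structure GoodChart (f : X ⟶ Spec (.of O)) (i : C ⟶ X) extends Chart f where
  [algP : Algebra O[X] A]
  [tower : IsScalarTower O O[X] A]
  [std : Algebra.IsStandardEtale O[X] A]
  φ : A →+* C.functionField
  hφ : Spec.map (CommRingCat.ofHom φ) ≫ j = ptX i

attribute [instance] GoodChart.algP GoodChart.tower GoodChart.std

theorem flat_of_standard {R A : Type u} [CommRing R] [CommRing A] [Algebra R A] {n : ℕ}
    [Algebra (MvPolynomial (Fin n) R) A] [IsScalarTower R (MvPolynomial (Fin n) R) A]
    [Algebra.IsStandardEtale (MvPolynomial (Fin n) R) A] : Module.Flat R A :=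
  Module.Flat.trans R (MvPolynomial (Fin n) R) A

theorem flat_of_standard' {R A : Type u} [CommRing R] [CommRing A] [Algebra R A]
    [Algebra R[X] A] [IsScalarTower R R[X] A]
    [Algebra.IsStandardEtale R[X] A] : Module.Flat R A :=
  Module.Flat.trans R R[X] A

include hi in
/-- The data of a chart around the centre of a valuation ring. -/
theorem exists_good_chart [IsAlgClosed K] [Smooth f] :
    letI := (toFunctionField g).toAlgebra
    (∃ x : C.functionField, Transcendental K x ∧
      Algebra.IsAlgebraic (Algebra.adjoin K {x}) C.functionField) →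
    ∀ (v : ValuationSubring C.functionField) (ℓ : Spec (.of v) ⟶ X),
      Spec.map (CommRingCat.ofHom v.subtype) ≫ ℓ = ptX i →
      ∃ (c : GoodChart f i), ℓ (IsLocalRing.closedPoint v) ∈ Set.range c.j := by
  let _ := (toFunctionField g).toAlgebra
  rintro ⟨x, hx, halg⟩ v ℓ hℓ
  obtain ⟨c, n, _, _, _, hc⟩ := exists_chart (f := f) (ℓ (IsLocalRing.closedPoint v))
  obtain ⟨ψ, hψ⟩ := exists_factor c v ℓ hc
  have hφ : Spec.map (CommRingCat.ofHom (v.subtype.comp ψ)) ≫ c.j = ptX i := by
    rw [CommRingCat.ofHom_comp, Spec.map_comp, Category.assoc, hψ, hℓ]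
  have : Module.Flat O c.A := flat_of_standard (n := n)
  have hinj := chart_hom_injective hi c _ hφ
  have hO : ∀ a : O, (v.subtype.comp ψ) (algebraMap O c.A a) =
      algebraMap K C.functionField (a : K) := chart_hom_algebraMap hi c _ hφ
  have hn := chart_dim_one (n := n) (v.subtype.comp ψ) hinj hO (chart_hom_frac hi c _ hφ) x hx halg
  subst hn
  obtain ⟨_, _, _⟩ := chart_polynomial (O := O) (A := c.A)
  exact ⟨{ toChart := c, φ := v.subtype.comp ψ, hφ := hφ }, hc⟩

include hi in
/-- A valuation ring whose closed point lies in a chart contains the coordinate ring. -/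
theorem exists_psi (c : GoodChart f i) (v : ValuationSubring C.functionField)
    (ℓ : Spec (.of v) ⟶ X) (hℓ : Spec.map (CommRingCat.ofHom v.subtype) ≫ ℓ = ptX i)
    (h : ℓ (IsLocalRing.closedPoint v) ∈ Set.range c.j) :
    ∃ ψ : c.A →+* v, Spec.map (CommRingCat.ofHom ψ) ≫ c.j = ℓ ∧ v.subtype.comp ψ = c.φ := by
  obtain ⟨ψ, hψ⟩ := exists_factor c.toChart v ℓ h
  refine ⟨ψ, hψ, ?_⟩
  have h1 : Spec.map (CommRingCat.ofHom (v.subtype.comp ψ)) ≫ c.j =
      Spec.map (CommRingCat.ofHom c.φ) ≫ c.j := by
    rw [CommRingCat.ofHom_comp, Spec.map_comp, Category.assoc, hψ, hℓ, c.hφ]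
  rw [cancel_mono] at h1
  exact congrArg CommRingCat.Hom.hom (Spec.map_injective h1)

include hi in
/-- The centre of a residually nonrational valuation ring is the generic point of the special
fibre. -/
theorem center_eq_eta [IsAlgClosed K] [Smooth f] (hO : RankOne O) (h2 : IsUnit (2 : O))
    (hk : IsIntegral (specialFibre O f)) (c : GoodChart f i) :
    letI := (toFunctionField g).toAlgebra
    ∀ (v : ValuationSubring C.functionField) (hv : Over O v) (ψ : c.A →+* v)
      (_ : v.subtype.comp ψ = c.φ) (_ : Nonrational O v),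
    ResTrans O v (c.φ (algebraMap O[X] c.A Polynomial.X)) ∧
      (∀ a, c.φ a ∈ v.nonunits ↔ a ∈ (IsLocalRing.maximalIdeal O).map (algebraMap O c.A)) ∧
      c.j (Spec.map (CommRingCat.ofHom ψ) (IsLocalRing.closedPoint v)) = eta f hk := by
  let _ := (toFunctionField g).toAlgebra
  intro v hv ψ hψφ hnr
  have : Module.Flat O c.A := flat_of_standard'
  have hinj := chart_hom_injective hi c.toChart _ c.hφ
  have hφO : ∀ a : O, c.φ (algebraMap O c.A a) = algebraMap K C.functionField (a : K) :=
    chart_hom_algebraMap hi c.toChart _ c.hφ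
  have hfrac := chart_hom_frac hi c.toChart _ c.hφ
  have hA : ∀ a, c.φ a ∈ v := by
    intro a
    rw [← hψφ]
    exact (ψ a).2
  have hs : ResTrans O v (c.φ (algebraMap O[X] c.A Polynomial.X)) := by
    refine ⟨hA _, fun a ha h => ?_⟩
    exact closed_center c.φ hinj hφO hfrac hO h2 hv hA a ha h hnr
  have hψO : ψ.comp (algebraMap O c.A) = overHom hv := by
    ext a
    have h1 : ((ψ (algebraMap O c.A a) : v) : C.functionField) = c.φ (algebraMap O c.A a) := by
      rw [← hψφ]
      rfl
    rw [RingHom.comp_apply, h1, hφO]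
    rfl
  have hp := map_isPrime c.toChart hk (map_ne_top_of_factor hv c.A ψ hψO)
  have hcen := generic_center c.φ hφO hv hA hs hp
  refine ⟨hs, hcen, ?_⟩
  rw [← chart_point_eq c.toChart hk hp]
  refine congrArg (⇑c.j) (PrimeSpectrum.ext (Ideal.ext fun a => ?_))
  change ψ a ∈ IsLocalRing.maximalIdeal v ↔ a ∈ (IsLocalRing.maximalIdeal O).map _
  rw [mem_maximalIdeal_iff, ← hcen]
  have h1 : ((ψ a : v) : C.functionField) = c.φ a := by
    rw [← hψφ]
    rfl
  rw [h1]

/-- PART M. -/
theorem nonrational_unique' {K : Type u} [Field K] [IsAlgClosed K] (O : ValuationSubring K)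
    (hO : RankOne O) (h2 : IsUnit (2 : O)) {X C : Scheme.{u}} [IsIntegral C]
    (f : X ⟶ Spec (.of O)) [IsProper f] [Smooth f] (g : C ⟶ Spec (.of K))
    (hfg : HasGenericFibre O f g) (hk : IsIntegral (specialFibre O f)) :
    letI := (toFunctionField g).toAlgebra
    (∃ x : C.functionField, Transcendental K x ∧
      Algebra.IsAlgebraic (Algebra.adjoin K {x}) C.functionField) →
    ∀ v w : ValuationSubring C.functionField, Over O v → Over O w → Nonrational O v →
      Nonrational O w → v = w := by
  let _ := (toFunctionField g).toAlgebra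
  intro htr v w hv hw hvn hwn
  obtain ⟨i, hi⟩ := hfg
  obtain ⟨ℓv, hℓv, hℓv'⟩ := exists_lift hi v hv
  obtain ⟨ℓw, hℓw, hℓw'⟩ := exists_lift hi w hw
  obtain ⟨c, hc⟩ := exists_good_chart hi htr v ℓv hℓv
  obtain ⟨ψ, hψ, hψφ⟩ := exists_psi hi c v ℓv hℓv hc
  obtain ⟨hs, hcen, hpt⟩ := center_eq_eta hi hO h2 hk c v hv ψ hψφ hvn
  obtain ⟨c', hc'⟩ := exists_good_chart hi htr w ℓw hℓw
  obtain ⟨ψ', hψ', hψφ'⟩ := exists_psi hi c' w ℓw hℓw hc'
  obtain ⟨-, -, hpt'⟩ := center_eq_eta hi hO h2 hk c' w hw ψ' hψφ' hwn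
  have e1 : ℓw (IsLocalRing.closedPoint w) = eta f hk := by
    rw [← hpt', ← hψ']
    rfl
  have e2 : ℓw (IsLocalRing.closedPoint w) ∈ Set.range c.j := by
    rw [e1, ← hpt]
    exact ⟨_, rfl⟩
  obtain ⟨χ, hχ, hχφ⟩ := exists_psi hi c w ℓw hℓw e2
  obtain ⟨-, hcenw, -⟩ := center_eq_eta hi hO h2 hk c w hw χ hχφ hwn
  have : Module.Flat O c.A := flat_of_standard'
  refine eq_of_generic c.φ (chart_hom_injective hi c.toChart _ c.hφ)
    (chart_hom_algebraMap hi c.toChart _ c.hφ) (chart_hom_frac hi c.toChart _ c.hφ) hv hw ?_ ?_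
    hcen hcenw hs
  · intro a
    rw [← hψφ]
    exact (ψ a).2
  · intro a
    rw [← hχφ]
    exact (χ a).2

end Pool.Agent.Lib.MP_211349_ag
end
end
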