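import Pool.Agent.Lib.MP_211349_ag.Mg.G006
import Pool.Agent.Lib.MP_211349_ag.Mg.G009
import Pool.Agent.Lib.MP_211349_ag.Mg.G008
import Pool.Agent.Lib.MP_211349_ag.Defs
import Pool.Agent.Lib.MP_211349_ag.Mg.G005

section

/-!
# Residually rational valuation rings
-/

open Polynomial IntermediateField

universe u

noncomputable section

namespace Pool.Agent.Lib.MP_211349_ag

variable {K L : Type u} [Field K] [Field L] [Algebra K L] {O : ValuationSubring K}
  {v : ValuationSubring L}

/-- The residue field of `v` is transcendental over the residue field of `O`, and not purely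
transcendental. -/
def NR (O : ValuationSubring K) (v : ValuationSubring L) : Prop :=
  (∃ X, ResTrans O v X) ∧
    ∀ s, ResTrans O v s → ¬ ∀ z ∈ v, ∃ z' ∈ K⟮s⟯, z - z' ∈ v.nonunits

private theorem v24g_le (x : L) : x ∈ v ↔ v.valuation x ≤ 1 := (v.valuation_le_one_iff x).symm

private theorem v24g_lt (x : L) : x ∈ v.nonunits ↔ v.valuation x < 1 :=
  ValuationSubring.mem_nonunits_iff v

private theorem v24g_sum (F : Finset ℕ) (f : ℕ → L) (h : ∀ i ∈ F, f i ∈ v.nonunits) :
    ∑ i ∈ F, f i ∈ v.nonunits := by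
  rw [v24g_lt]
  exact Valuation.map_sum_lt _ one_ne_zero fun i hi => (v24g_lt _).1 (h i hi)

/-- (V24) in general form: a good coordinate makes the residue field rational. -/
theorem rational_of_root [IsAlgClosed K] (hO : RankOne O)
    (hv : Over O v) (t u : L) (halg : Algebra.IsAlgebraic K⟮t⟯ L)
    (hgen : ∀ z : L, z ∈ Algebra.adjoin K⟮t⟯ {u})
    (G : L[X]) (hG : ∀ n, G.coeff n ∈ K⟮t⟯)
    (hGv : ∀ n, ∃ a ∈ O, G.coeff n - algebraMap K L a ∈ v.nonunits) (hu : u ∈ v)
    (hroot : G.eval u = 0) (hder : G.derivative.eval u ∉ v.nonunits) :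
    (∃ X₀, ResTrans O v X₀) → ∃ s, ResTrans O v s ∧ ∀ z ∈ v, ∃ z' ∈ K⟮s⟯, z - z' ∈ v.nonunits := by
  rintro ⟨X₀, hX, hne⟩
  -- good coordinate
  obtain ⟨z, hz, hzr⟩ := exists_resTrans_adjoin hv t X₀ halg ⟨hX, hne⟩
  obtain ⟨a, c, hc, hs⟩ := exists_resTrans_linear hv t z hz hzr
  have hc0 : algebraMap K L c ≠ 0 := (_root_.map_ne_zero _).2 hc
  have hst : K⟮(t - algebraMap K L a) / algebraMap K L c⟯ = K⟮t⟯ := by
    apply le_antisymm
    · rw [IntermediateField.adjoin_simple_le_iff]
      exact div_mem (sub_mem (IntermediateField.mem_adjoin_simple_self K t)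
        (IntermediateField.algebraMap_mem _ a)) (IntermediateField.algebraMap_mem _ c)
    · rw [IntermediateField.adjoin_simple_le_iff]
      have h1 : t = (t - algebraMap K L a) / algebraMap K L c * algebraMap K L c +
          algebraMap K L a := by
        rw [div_mul_cancel₀ _ hc0]; ring
      rw [h1]
      refine add_mem (mul_mem ?_ (IntermediateField.algebraMap_mem _ c))
        (IntermediateField.algebraMap_mem _ a)
      rw [← h1]
      exact IntermediateField.mem_adjoin_simple_self K _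
  -- coefficients of `G` are in `v`
  choose α hαO hα using hGv
  have hαv : ∀ n, algebraMap K L (α n) ∈ v := fun n => (Over.mem_iff hv _).2 (hαO n)
  have hGv' : ∀ n, G.coeff n ∈ v := by
    intro n
    have h1 : G.coeff n = (G.coeff n - algebraMap K L (α n)) + algebraMap K L (α n) := by ring
    rw [h1]
    exact v.add_mem _ _ (v.nonunits_le (hα n)) (hαv n)
  -- residue polynomial
  set N := G.natDegree + 1 with hN
  set p : K[X] := ∑ n ∈ Finset.range N, Polynomial.monomial n (α n) with hp
  have hpc : ∀ n, n < N → p.coeff n = α n := by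
    intro n hn
    rw [hp, Polynomial.finsetSum_coeff]
    simp only [Polynomial.coeff_monomial]
    rw [Finset.sum_ite_eq' (Finset.range N) n α, if_pos (Finset.mem_range.2 hn)]
  have hpc' : ∀ n, ¬ n < N → p.coeff n = 0 := by
    intro n hn
    rw [hp, Polynomial.finsetSum_coeff]
    simp only [Polynomial.coeff_monomial]
    rw [Finset.sum_ite_eq' (Finset.range N) n α, if_neg (by simpa using hn)]
  have hpO : ∀ n, p.coeff n ∈ O := by
    intro n
    by_cases hn : n < N
    · rw [hpc n hn]; exact hαO n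
    · rw [hpc' n hn]; exact O.zero_mem
  have hmulnon : ∀ x y : L, x ∈ v.nonunits → y ∈ v → x * y ∈ v.nonunits := by
    intro x y hx hy
    rw [v24g_lt] at hx ⊢
    rw [v24g_le] at hy
    rw [map_mul]
    exact mul_lt_one_of_nonneg_of_lt_one_left zero_le hx hy
  have hupow : ∀ n : ℕ, u ^ n ∈ v := fun n => pow_mem hu n
  have hpN : p.natDegree < N := by
    rw [Nat.lt_succ_iff, Polynomial.natDegree_le_iff_coeff_eq_zero]
    intro n hn
    exact hpc' n (by omega)
  have haeval : aeval u p = ∑ n ∈ Finset.range N, algebraMap K L (α n) * u ^ n := by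
    rw [hp, map_sum]
    refine Finset.sum_congr rfl fun n _ => ?_
    rw [Polynomial.aeval_monomial]
  have hGe : G.eval u = ∑ n ∈ Finset.range N, G.coeff n * u ^ n :=
    Polynomial.eval_eq_sum_range u
  have hpnon : aeval u p ∈ v.nonunits := by
    have h1 : aeval u p = ∑ n ∈ Finset.range N, -((G.coeff n - algebraMap K L (α n)) * u ^ n) := by
      rw [haeval, ← sub_zero (∑ n ∈ Finset.range N, algebraMap K L (α n) * u ^ n), ← hroot, hGe,
        ← Finset.sum_sub_distrib]
      refine Finset.sum_congr rfl fun n _ => ?_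
      ring
    rw [h1]
    refine v24g_sum _ _ fun n _ => ?_
    rw [v24g_lt, Valuation.map_neg, ← v24g_lt]
    exact hmulnon _ _ (hα n) (hupow n)
  have hunit : ∃ n, p.coeff n ∉ O.nonunits := by
    by_contra hno
    push Not at hno
    apply hder
    have hGn : ∀ n, G.coeff n ∈ v.nonunits := by
      intro n
      by_cases hn : n < N
      · have h1 : G.coeff n = (G.coeff n - algebraMap K L (α n)) + algebraMap K L (α n) := by ring
        rw [h1, v24g_lt]
        refine Valuation.map_add_lt _ ((v24g_lt _).1 (hα n)) ((v24g_lt _).1 ?_)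
        rw [Over.nonunits_iff hv, ← hpc n hn]
        exact hno n
      · rw [Polynomial.coeff_eq_zero_of_natDegree_lt (by omega), v24g_lt, map_zero]
        exact zero_lt_one
    rw [Polynomial.eval_eq_sum_range]
    refine v24g_sum _ _ fun n _ => ?_
    apply hmulnon _ _ _ (hupow n)
    rw [Polynomial.coeff_derivative]
    apply hmulnon _ _ (hGn _)
    have : ((n : L) + 1) = ((n + 1 : ℕ) : L) := by push_cast; rfl
    rw [this]
    exact natCast_mem v.toSubring _
  obtain ⟨a₀, ha₀, hua⟩ := exists_residue_root hv p hpO hunit u hu hpnon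
  -- density
  have hclos : ∀ d : K, d ≠ 0 → ∃ z ∈ K⟮t⟯, (u - z) / algebraMap K L d ∈ v := fun d hd =>
    root_mem_closure hO hv t u _ hs hst G (fun n => ⟨hG n, hGv' n⟩) hu hroot hder a₀ ha₀ hua d hd
  obtain ⟨d, hd0, hdu⟩ := hO.1
  have hdn : (d : K) ∈ O.nonunits := by
    rw [ValuationSubring.coe_mem_nonunits_iff, IsLocalRing.mem_maximalIdeal]
    exact hdu
  have hd0' : (d : K) ≠ 0 := fun h => hd0 (Subtype.ext h)
  refine ⟨_, hs, fun z _ => ?_⟩
  obtain ⟨z', hz', hzz⟩ := dense_of_generator hv t u _ hs hst halg hgen hclos z d hd0'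
  refine ⟨z', hst ▸ hz', ?_⟩
  have hd0L : algebraMap K L (d : K) ≠ 0 := (_root_.map_ne_zero _).2 hd0'
  have h1 : z - z' = algebraMap K L (d : K) * ((z - z') / algebraMap K L (d : K)) := by
    rw [mul_div_cancel₀ _ hd0L]
  rw [h1]
  exact hmulnon _ _ ((Over.nonunits_iff hv _).2 hdn) hzz

end Pool.Agent.Lib.MP_211349_ag
end
end

section

/-!
# Uniqueness of the valuation ring with nonrational residue field
-/

open CategoryTheory Limits AlgebraicGeometry Polynomial IntermediateField TensorProduct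

universe u

noncomputable section

namespace Pool.Agent.Lib.MP_211349_ag

section alg

variable {K L : Type u} [Field K] [Field L] [Algebra K L] {O : ValuationSubring K}
  {A : Type u} [CommRing A] [Algebra O A]
  [Algebra O[X] A] [IsScalarTower O O[X] A] [Algebra.IsStandardEtale O[X] A]
  (φ : A →+* L) (hφ : Function.Injective φ)
  (hφO : ∀ a : O, φ (algebraMap O A a) = algebraMap K L a)
  (hfrac : ∀ z : L, ∃ a b : A, φ b ≠ 0 ∧ z = φ a / φ b)

include hφ hφO hfrac in
/-- Closed centres have rational residue fields. -/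
theorem closed_center_NR [IsAlgClosed K] (hO : RankOne O)
    {v : ValuationSubring L} (hv : Over O v) (hAv : ∀ a, φ a ∈ v) (a₀ : K) (ha₀ : a₀ ∈ O)
    (ht : φ (algebraMap O[X] A X) - algebraMap K L a₀ ∈ v.nonunits) : ¬ NR O v := by
  rintro ⟨hX, hnr⟩
  obtain ⟨P⟩ := (inferInstance : Algebra.IsStandardEtale O[X] A).nonempty_standardEtalePresentation
  suffices h : ∃ s, ResTrans O v s ∧ ∀ z ∈ v, ∃ z' ∈ K⟮s⟯, z - z' ∈ v.nonunits by
    obtain ⟨s, hs, hd⟩ := h
    exact hnr s hs hd
  refine rational_of_root hO hv (φ (algebraMap O[X] A X)) (φ P.x)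
    (chart_isAlgebraic φ hφ hφO hfrac) (chart_generator φ hφ hφO hfrac P)
    (P.f.map (φ.comp (algebraMap O[X] A))) ?_ ?_ (hAv _) ?_ ?_ hX
  · intro n
    rw [coeff_map]
    generalize P.f.coeff n = p
    change φ (algebraMap O[X] A p) ∈ _
    induction p using Polynomial.induction_on' with
    | add p q hp hq =>
      rw [map_add, map_add]
      exact add_mem hp hq
    | monomial n c =>
      rw [← C_mul_X_pow_eq_monomial, map_mul, map_mul, map_pow, map_pow]
      refine mul_mem ?_ (pow_mem (IntermediateField.mem_adjoin_simple_self _ _) _)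
      have : φ (algebraMap O[X] A (C c)) = algebraMap K L c := by
        rw [← hφO c]
        congr 1
        exact (IsScalarTower.algebraMap_apply O O[X] A c).symm
      rw [this]
      exact IntermediateField.algebraMap_mem _ _
  · intro n
    rw [coeff_map]
    exact ⟨_, Subtype.mem _, M10_sub_mem φ hφO hAv hv a₀ ha₀ ht (P.f.coeff n)⟩
  · rw [M10_eval_map, P.hasMap.1, map_zero]
  · rw [Polynomial.derivative_map, M10_eval_map]
    obtain ⟨w, hw⟩ := P.hasMap.isUnit_derivative_f
    rw [ValuationSubring.mem_nonunits_iff, ← hw, not_lt]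
    have h1 : v.valuation (φ (w : A)) * v.valuation (φ ((w⁻¹ : Aˣ) : A)) = 1 := by
      rw [← map_mul, ← map_mul, Units.mul_inv, map_one, map_one]
    have h2 : v.valuation (φ ((w⁻¹ : Aˣ) : A)) ≤ 1 := (v.valuation_le_one_iff _).mpr (hAv _)
    rw [← h1]
    exact mul_le_of_le_one_right' h2

end alg

variable {K : Type u} [Field K] {O : ValuationSubring K}
  {X C : Scheme.{u}} [IsIntegral C] {f : X ⟶ Spec (.of O)} {g : C ⟶ Spec (.of K)}
  {i : C ⟶ X} (hi : IsPullback i g f (genPt O))

include hi in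
/-- The centre of a residually nonrational valuation ring is the generic point of the special
fibre. -/
theorem center_eq_eta_NR [IsAlgClosed K] [Smooth f] (hO : RankOne O)
    (hk : IsIntegral (specialFibre O f)) (c : GoodChart f i) :
    letI := (toFunctionField g).toAlgebra
    ∀ (v : ValuationSubring C.functionField) (hv : Over O v) (ψ : c.A →+* v)
      (_ : v.subtype.comp ψ = c.φ) (_ : NR O v),
    ResTrans O v (c.φ (algebraMap O[X] c.A Polynomial.X)) ∧
      (∀ a, c.φ a ∈ v.nonunits ↔ a ∈ (IsLocalRing.maximalIdeal O).map (algebraMap O c.A)) ∧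
      c.j (Spec.map (CommRingCat.ofHom ψ) (IsLocalRing.closedPoint v)) = eta f hk := by
  let _ := (toFunctionField g).toAlgebra
  intro v hv ψ hψφ hnr
  have : Module.Flat O c.A := flat_of_standard'
  have hinj := chart_hom_injective hi c.toChart _ c.hφ
  have hφO : ∀ a : O, c.φ (algebraMap O c.A a) = algebraMap K C.functionField (a : K) :=
    chart_hom_algebraMap hi c.toChart _ c.hφ
  have hfrac := chart_hom_frac hi c.toChart _ c.hφ
  have hA : ∀ a, c.φ a ∈ v := by
    intro a
    rw [← hψφ]
    exact (ψ a).2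
  have hs : ResTrans O v (c.φ (algebraMap O[X] c.A Polynomial.X)) := by
    refine ⟨hA _, fun a ha h => ?_⟩
    exact closed_center_NR c.φ hinj hφO hfrac hO hv hA a ha h hnr
  have hψO : ψ.comp (algebraMap O c.A) = overHom hv := by
    ext a
    have h1 : ((ψ (algebraMap O c.A a) : v) : C.functionField) = c.φ (algebraMap O c.A a) := by
      rw [← hψφ]
      rfl
    rw [RingHom.comp_apply, h1, hφO]
    rfl
  have hp := map_isPrime c.toChart hk (map_ne_top_of_factor hv c.A ψ hψO)
  have hcen := generic_center c.φ hφO hv hA hs hp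
  refine ⟨hs, hcen, ?_⟩
  rw [← chart_point_eq c.toChart hk hp]
  refine congrArg (⇑c.j) (PrimeSpectrum.ext (Ideal.ext fun a => ?_))
  change ψ a ∈ IsLocalRing.maximalIdeal v ↔ a ∈ (IsLocalRing.maximalIdeal O).map _
  rw [mem_maximalIdeal_iff, ← hcen]
  have h1 : ((ψ a : v) : C.functionField) = c.φ a := by
    rw [← hψφ]
    rfl
  rw [h1]

/-- PART M. -/
theorem NR_unique {K : Type u} [Field K] [IsAlgClosed K] (O : ValuationSubring K)
    (hO : RankOne O) {X C : Scheme.{u}} [IsIntegral C]
    (f : X ⟶ Spec (.of O)) [IsProper f] [Smooth f] (g : C ⟶ Spec (.of K))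
    (hfg : HasGenericFibre O f g) (hk : IsIntegral (specialFibre O f)) :
    letI := (toFunctionField g).toAlgebra
    (∃ x : C.functionField, Transcendental K x ∧
      Algebra.IsAlgebraic (Algebra.adjoin K {x}) C.functionField) →
    ∀ v w : ValuationSubring C.functionField, Over O v → Over O w → NR O v →
      NR O w → v = w := by
  let _ := (toFunctionField g).toAlgebra
  intro htr v w hv hw hvn hwn
  obtain ⟨i, hi⟩ := hfg
  obtain ⟨ℓv, hℓv, hℓv'⟩ := exists_lift hi v hv
  obtain ⟨ℓw, hℓw, hℓw'⟩ := exists_lift hi w hw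
  obtain ⟨c, hc⟩ := exists_good_chart hi htr v ℓv hℓv
  obtain ⟨ψ, hψ, hψφ⟩ := exists_psi hi c v ℓv hℓv hc
  obtain ⟨hs, hcen, hpt⟩ := center_eq_eta_NR hi hO hk c v hv ψ hψφ hvn
  obtain ⟨c', hc'⟩ := exists_good_chart hi htr w ℓw hℓw
  obtain ⟨ψ', hψ', hψφ'⟩ := exists_psi hi c' w ℓw hℓw hc'
  obtain ⟨-, -, hpt'⟩ := center_eq_eta_NR hi hO hk c' w hw ψ' hψφ' hwn
  have e1 : ℓw (IsLocalRing.closedPoint w) = eta f hk := by
    rw [← hpt', ← hψ']
    rfl
  have e2 : ℓw (IsLocalRing.closedPoint w) ∈ Set.range c.j := by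
    rw [e1, ← hpt]
    exact ⟨_, rfl⟩
  obtain ⟨χ, hχ, hχφ⟩ := exists_psi hi c w ℓw hℓw e2
  obtain ⟨-, hcenw, -⟩ := center_eq_eta_NR hi hO hk c w hw χ hχφ hwn
  have : Module.Flat O c.A := flat_of_standard'
  refine eq_of_generic c.φ (chart_hom_injective hi c.toChart _ c.hφ)
    (chart_hom_algebraMap hi c.toChart _ c.hφ) (chart_hom_frac hi c.toChart _ c.hφ) hv hw ?_ ?_
    hcen hcenw hs
  · intro a
    rw [← hψφ]
    exact (ψ a).2
  · intro a
    rw [← hχφ]
    exact (χ a).2

end Pool.Agent.Lib.MP_211349_ag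
end
end

section

/-!
# Two valuation rings with nonrational residue field
-/

open Polynomial IntermediateField

universe u

noncomputable section

namespace Pool.Agent.Lib.MP_211349_ag

variable {K L : Type u} [Field K] [Field L] [Algebra K L] {O : ValuationSubring K}
  {v : ValuationSubring L}

theorem NR_of_eq [IsAlgClosed K] (h3 : IsUnit (3 : O)) (hv : Over O v) (X Y : L)
    (hX : ResTrans O v X) (hY : Y ∈ v) (hXY : Y ^ 2 + Y - X ^ 3 ∈ v.nonunits) : NR O v := by
  refine ⟨⟨X, hX⟩, ?_⟩
  intro s hs hd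
  obtain ⟨hX, hne⟩ := hX
  obtain ⟨ψ, hψ, hC⟩ := exists_ratFunc_hom hv s hs hd
  have := residueField_isAlgClosed O
  obtain ⟨x, hx⟩ := hψ (IsLocalRing.residue v ⟨X, hX⟩)
  obtain ⟨y, hy⟩ := hψ (IsLocalRing.residue v ⟨Y, hY⟩)
  have hnon : ∀ z : v, (z : L) ∈ v.nonunits ↔ IsLocalRing.residue v z = 0 := by
    intro z
    rw [IsLocalRing.residue_eq_zero_iff]
    exact ValuationSubring.coe_mem_nonunits_iff
  have hxy : y ^ 2 + y = x ^ 3 := by
    apply ψ.injective
    rw [map_add, map_pow, map_pow, hx, hy, ← map_pow, ← map_pow, ← map_add, ← sub_eq_zero,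
      ← map_sub, ← hnon]
    have h1 : (((⟨Y, hY⟩ : v) ^ 2 + (⟨Y, hY⟩ : v) - (⟨X, hX⟩ : v) ^ 3 : v) : L) =
        Y ^ 2 + Y - X ^ 3 := by
      push_cast
      ring
    rw [h1]
    exact hXY
  have h3' : (3 : IsLocalRing.ResidueField O) ≠ 0 := by
    have := h3.map (IsLocalRing.residue O)
    rw [map_ofNat] at this
    exact this.ne_zero
  obtain ⟨a, ha⟩ := ratFunc_no_param2 h3' x y hxy
  obtain ⟨b, rfl⟩ := IsLocalRing.residue_surjective a
  have hbv : algebraMap K L b ∈ v := (Over.mem_iff hv _).2 b.2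
  have h3 := hC b ⟨_, hbv⟩ rfl
  rw [← ha, hx, ← sub_eq_zero, ← map_sub, ← hnon] at h3
  exact hne b b.2 h3

/-- The component where `x` is a coordinate. -/
theorem NR_first [IsAlgClosed K] (h3 : IsUnit (3 : O)) (hv : Over O v) (x y : L)
    (hx : ResTrans O v x) (a : K) (ha : a ∈ O.nonunits)
    (h : y ^ 2 + y = x ^ 3 + algebraMap K L a * (x⁻¹) ^ 3) : NR O v := by
  have hav : algebraMap K L a ∈ v.nonunits := (hv.nonunits_iff a).mpr ha
  have hxv := hx.1
  have hx0 : x ∉ v.nonunits := by
    have := hx.2 0 (zero_mem O)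
    rwa [map_zero, sub_zero] at this
  have hxi : x⁻¹ ∈ v := by
    rcases v.mem_or_inv_mem x with h1 | h1
    · by_contra hcon
      exact hx0 ((ValuationSubring.mem_nonunits_iff _).mpr (by
        rw [← v.valuation_le_one_iff, map_inv₀, not_le] at hcon
        by_contra h2
        rw [not_lt] at h2
        exact absurd hcon (not_lt.mpr (inv_le_one_of_one_le₀ h2))))
    · exact h1
  have hr : algebraMap K L a * (x⁻¹) ^ 3 ∈ v.nonunits := V28_mul_nonunits hav (pow_mem hxi 3)
  have hsum : y ^ 2 + y ∈ v := by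
    rw [h]
    exact add_mem (pow_mem hxv 3) (v.nonunits_subset hr)
  have hy : y ∈ v := by
    by_contra hcon
    have h1 : 1 < v.valuation y := by
      rw [← v.valuation_le_one_iff, not_le] at hcon
      exact hcon
    have h2 : v.valuation y < v.valuation (y ^ 2) := by
      rw [map_pow, pow_two]
      exact lt_mul_of_one_lt_left (zero_lt_one.trans h1) h1
    have h4 : v.valuation (y ^ 2 + y) = v.valuation (y ^ 2) :=
      by rw [add_comm]; exact Valuation.map_add_eq_of_lt_right _ h2
    have h5 : v.valuation (y ^ 2 + y) ≤ 1 := (v.valuation_le_one_iff _).mpr hsum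
    rw [h4] at h5
    exact absurd (h1.trans (h2.trans_le h5)) (lt_irrefl _)
  refine NR_of_eq h3 hv x y hx hy ?_
  rw [h, add_sub_cancel_left]
  exact hr

theorem exists_NR_pair [IsAlgClosed K] (O : ValuationSubring K) (h3 : IsUnit (3 : O)) (x y : L)
    (hx : Transcendental K x) (a : K) (ha : a ≠ 0) (haO : a ∈ O.nonunits)
    (h : y ^ 2 + y = x ^ 3 + algebraMap K L a * (x⁻¹) ^ 3) :
    ∃ v w : ValuationSubring L, Over O v ∧ Over O w ∧ NR O v ∧ NR O w ∧ v ≠ w := by
  obtain ⟨ρ, hρ⟩ := IsAlgClosed.exists_pow_nat_eq a (n := 3) (by norm_num)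
  have hρ0 : ρ ≠ 0 := by
    rintro rfl
    exact ha (by rw [← hρ]; norm_num)
  have hρO : ρ ∈ O.nonunits := by
    rw [ValuationSubring.mem_nonunits_iff] at haO ⊢
    rw [← hρ, map_pow] at haO
    by_contra hcon
    rw [not_lt] at hcon
    exact absurd haO (not_lt.mpr (one_le_pow₀ hcon))
  have hx0 : x ≠ 0 := by
    rintro rfl
    exact hx isAlgebraic_zero
  set x' : L := algebraMap K L ρ * x⁻¹ with hx'
  have hρL : algebraMap K L ρ ≠ 0 := (map_ne_zero (algebraMap K L)).mpr hρ0
  have hx't : Transcendental K x' := by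
    intro hcon
    apply hx
    have h1 : x = algebraMap K L ρ * x'⁻¹ := by
      rw [hx', mul_inv, inv_inv, ← mul_assoc, mul_inv_cancel₀ hρL, one_mul]
    rw [h1]
    exact (isAlgebraic_algebraMap ρ).mul hcon.inv
  have h' : y ^ 2 + y = x' ^ 3 + algebraMap K L a * (x'⁻¹) ^ 3 := by
    rw [h, hx', ← hρ, map_pow, mul_inv, inv_inv, mul_pow, mul_pow, inv_pow (algebraMap K L ρ)]
    have h1 : algebraMap K L ρ ^ 3 * ((algebraMap K L ρ ^ 3)⁻¹ * x ^ 3) = x ^ 3 := by
      rw [← mul_assoc, mul_inv_cancel₀ (pow_ne_zero 3 hρL), one_mul]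
    rw [h1, add_comm]
  obtain ⟨v, hv, hvx⟩ := exists_resTrans O x hx
  obtain ⟨w, hw, hwx⟩ := exists_resTrans O x' hx't
  refine ⟨v, w, hv, hw, NR_first h3 hv x y hvx a haO h, NR_first h3 hw x' y hwx a haO h', ?_⟩
  rintro rfl
  -- in `v` the element `x'` is a nonunit
  have hx0v : x ∉ v.nonunits := by
    have := hvx.2 0 (zero_mem O)
    rwa [map_zero, sub_zero] at this
  have hxi : x⁻¹ ∈ v := by
    rw [← v.valuation_le_one_iff, map_inv₀]
    rw [ValuationSubring.mem_nonunits_iff, not_lt] at hx0v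
    exact inv_le_one_of_one_le₀ hx0v
  have h1 : x' ∈ v.nonunits := V28_mul_nonunits ((hv.nonunits_iff ρ).mpr hρO) hxi
  have h2 := hwx.2 0 (zero_mem O)
  rw [map_zero, sub_zero] at h2
  exact h2 h1

end Pool.Agent.Lib.MP_211349_ag
end
end

section

/-!
# Functions on the finite étale coverings of the curve
-/

open CategoryTheory Limits AlgebraicGeometry Polynomial

universe u

noncomputable section

namespace Pool.Agent.Lib.MP_211349_ag

-- BEGIN SE1
/-- Algebra: `x = ι (β x)`, `y = ι (β y)`. `K[X] → A0 c → B → L` is injective (`of_injective_DC`), so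
`x` is transcendental; `B` is integral over `K[x]` (`finite_DC`, `β` finite), so every
`z = ι a / ι b` is algebraic over `K[x]`. -/
theorem functions_alg {K B L : Type u} [Field K] [CommRing B] [IsDomain B] [Field L] (c : K)
    (hc : c ≠ 0) (β : A0 c →+* B) (hβ : Function.Injective β) (hfin : β.Finite)
    (ι : B →+* L) (hι : Function.Injective ι)
    (hfrac : ∀ z : L, ∃ a b : B, b ≠ 0 ∧ z * ι b = ι a) (κ : K →+* L)
    (hκ : κ = ι.comp (β.comp (algebraMap K (A0 c)))) :
    letI := κ.toAlgebra
    ∃ x y : L, y ^ 2 = x * (x ^ 2 - 1) * (1 - algebraMap K L c * x ^ 2) ∧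
      Transcendental K x ∧ Algebra.IsAlgebraic (Algebra.adjoin K {x}) L := by
  let _ := κ.toAlgebra
  set ω : K[X] →+* A0 c := AdjoinRoot.of _ with hω
  have hωinj : Function.Injective ω := of_injective_DC (f0 c)
  set ψ : K[X] →+* L := (ι.comp β).comp ω with hψ
  have hψinj : Function.Injective ψ := hι.comp (hβ.comp hωinj)
  have hC : ∀ a : K, algebraMap K L a = ψ (C a) := by
    intro a
    rw [show algebraMap K L a = κ a from rfl, hκ]
    rfl
  have haeval : ∀ p : K[X], aeval (ψ X) p = ψ p := by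
    have h1 : ((aeval (ψ X) : K[X] →ₐ[K] L) : K[X] →+* L) = ψ := by
      apply Polynomial.ringHom_ext
      · intro a
        rw [← hC a]
        simp
      · simp
    intro p
    exact congrArg (fun F : K[X] →+* L => F p) h1
  refine ⟨ψ X, ι (β (DC.y (f0 c))), ?_, ?_, ?_⟩
  · rw [← map_pow, ← map_pow, DC.y_sq, hC c]
    exact map_f0 ψ c
  · rw [transcendental_iff_injective]
    intro p q hpq
    rw [haeval, haeval] at hpq
    exact hψinj hpq
  · have hωfin : ω.Finite := by
      have h1 : (algebraMap K[X] (DC (f0 c))).Finite :=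
        RingHom.finite_algebraMap.mpr (finite_DC (f0 c))
      rwa [show algebraMap K[X] (DC (f0 c)) = ω from AdjoinRoot.algebraMap_eq _] at h1
    have hfin' : (β.comp ω).Finite := hfin.comp hωfin
    have hint : ∀ a : B, (β.comp ω).IsIntegralElem a := fun a => hfin'.to_isIntegral a
    have hmem : ∀ p : K[X], ψ p ∈ Algebra.adjoin K {ψ X} := by
      intro p
      rw [← haeval p]
      exact aeval_mem_adjoin_singleton _ _
    let θ : K[X] →+* Algebra.adjoin K {ψ X} := ψ.codRestrict _ hmem
    have hθ : (algebraMap (Algebra.adjoin K {ψ X}) L).comp θ = ψ := by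
      ext <;> rfl
    have hintL : ∀ a : B, IsIntegral (Algebra.adjoin K {ψ X}) (ι a) := by
      intro a
      obtain ⟨p, hp, hp0⟩ := hint a
      refine ⟨p.map θ, hp.map θ, ?_⟩
      rw [eval₂_map, hθ]
      have h2 := congrArg ι hp0
      rw [hom_eval₂, map_zero] at h2
      exact h2
    refine ⟨fun z => ?_⟩
    obtain ⟨a, b, hb, hz⟩ := hfrac z
    have hb' : ι b ≠ 0 := by
      rw [Ne, map_eq_zero_iff ι hι]
      exact hb
    have hz' : z = ι a * (ι b)⁻¹ := by
      rw [← hz, mul_assoc, mul_inv_cancel₀ hb', mul_one]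
    rw [hz']
    exact (hintL a).isAlgebraic.mul (hintL b).isAlgebraic.inv
-- END SE1

-- BEGIN SE2
/-- A finite étale morphism from a nonempty scheme to the (irreducible) curve meets the first
chart: étale morphisms are open maps, and nonempty open subsets of the curve meet
(`curve_isIntegral'`). -/
theorem nonempty_preimage_chart0 (K : Type u) [Field K] (c : K) (hc : c ≠ 0) {C' : Scheme.{u}}
    [Nonempty C'] (π : C' ⟶ curve K c) [Etale π] :
    Nonempty ↥(pullback π (chart0 K c)) := by
  have hint := curve_isIntegral' K c hc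
  have hdom := isDomain_A0 c hc
  have hne : Nonempty ↥(Spec (.of (A0 c))) := inferInstanceAs (Nonempty (PrimeSpectrum (A0 c)))
  have hopen : IsOpenMap π := by
    have : UniversallyOpen π := inferInstance
    exact π.isOpenMap
  have h1 : IsOpen (Set.range π) := hopen.isOpen_range
  have h2 : IsOpen (Set.range (chart0 K c)) := (chart0 K c).isOpenEmbedding.isOpen_range
  obtain ⟨z, ⟨a, ha⟩, ⟨b, hb⟩⟩ := nonempty_preirreducible_inter h1 h2 (Set.range_nonempty _)
    (Set.range_nonempty _)
  obtain ⟨w, -, -⟩ := Scheme.Pullback.exists_preimage_pullback a b (ha.trans hb.symm)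
  exact ⟨w⟩
-- END SE2

-- BEGIN SE3
theorem SE3_flat_injective {A B : Type u} [CommRing A] [IsDomain A] [CommRing B] [Nontrivial B]
    (β : A →+* B) (h : β.Flat) : Function.Injective β := by
  let _ := β.toAlgebra
  have : Module.Flat A B := h
  rw [injective_iff_map_eq_zero]
  intro a ha
  by_contra hne
  have h1 : IsSMulRegular B a :=
    Module.Flat.isSMulRegular_of_isRegular (IsRegular.of_ne_zero hne)
  have h2 : a • (1 : B) = a • (0 : B) := by
    rw [smul_zero, Algebra.smul_def, mul_one]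
    exact ha
  exact one_ne_zero (h1 h2)

theorem SE3_main {A : Type u} [CommRing A] [IsDomain A] {C' P : Scheme.{u}} [IsIntegral C']
    (i : P ⟶ C') [IsOpenImmersion i] [Nonempty ↥P] (p : P ⟶ Spec (.of A)) [IsFinite p] [Flat p] :
    ∃ (B : Type u) (_ : CommRing B) (_ : IsDomain B) (β : A →+* B)
      (ι : B →+* C'.functionField), Function.Injective β ∧ β.Finite ∧ Function.Injective ι ∧
      (∀ z : C'.functionField, ∃ a b : B, b ≠ 0 ∧ z * ι b = ι a) ∧
      ∀ {S : Type u} [CommRing S] (g : C' ⟶ Spec (.of S)) (κ : S →+* A)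
        (_ : i ≫ g = p ≫ Spec.map (CommRingCat.ofHom κ)),
        toFunctionField g = ι.comp (β.comp κ) := by
  have hP : IsIntegral P := isIntegral_of_isOpenImmersion i
  have hA : IsAffine P := isAffine_of_isAffineHom p
  have hne : Nonempty (⊤ : P.Opens) := ⟨⟨Classical.arbitrary _, trivial⟩⟩
  have hne' : Nonempty (i ''ᵁ (⊤ : P.Opens) : C'.Opens) :=
    ⟨⟨i (Classical.arbitrary _), ⟨_, trivial, rfl⟩⟩⟩
  have haff : IsAffineOpen (i ''ᵁ (⊤ : P.Opens)) := (isAffineOpen_top P).image_of_isOpenImmersion i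
  refine ⟨Γ(P, ⊤), inferInstance, inferInstance,
    p.appTop.hom.comp (Scheme.ΓSpecIso (.of A)).inv.hom,
    (C'.germToFunctionField (i ''ᵁ (⊤ : P.Opens))).hom.comp (i.appIso ⊤).inv.hom, ?_, ?_, ?_, ?_, ?_⟩
  · apply SE3_flat_injective
    exact RingHom.Flat.comp (RingHom.Flat.of_bijective
      (ConcreteCategory.bijective_of_isIso (Scheme.ΓSpecIso (.of A)).inv)) p.flat_appTop
  · exact RingHom.Finite.comp (p.finite_app ⊤ (isAffineOpen_top _))
      (RingHom.Finite.of_surjective _
        (ConcreteCategory.bijective_of_isIso (Scheme.ΓSpecIso (.of A)).inv).surjective)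
  · exact (C'.germToFunctionField_injective (i ''ᵁ (⊤ : P.Opens))).comp
      (ConcreteCategory.bijective_of_isIso (i.appIso ⊤).inv).injective
  · intro z
    have := functionField_isFractionRing_of_isAffineOpen C' (i ''ᵁ (⊤ : P.Opens)) haff
    obtain ⟨⟨a, b⟩, h⟩ := IsLocalization.surj (nonZeroDivisors Γ(C', i ''ᵁ (⊤ : P.Opens))) z
    have h3 : ∀ t, (i.appIso ⊤).inv.hom ((i.appIso ⊤).hom.hom t) = t := fun t => by
      have := congrArg (fun f => f.hom t) (i.appIso ⊤).hom_inv_id
      exact this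
    refine ⟨(i.appIso ⊤).hom.hom a, (i.appIso ⊤).hom.hom (b : Γ(C', i ''ᵁ (⊤ : P.Opens))), ?_, ?_⟩
    · intro h0
      have h2 := congrArg (i.appIso ⊤).inv.hom h0
      rw [h3, map_zero] at h2
      exact nonZeroDivisors.ne_zero b.2 h2
    · rw [RingHom.comp_apply, RingHom.comp_apply, h3, h3]
      exact h
  · intro S _ g κ h
    have h1 : g.appTop ≫ i.appTop = (Spec.map (CommRingCat.ofHom κ)).appTop ≫ p.appTop := by
      rw [← Scheme.Hom.comp_appTop, ← Scheme.Hom.comp_appTop, h]
    have h2 : (Scheme.ΓSpecIso (.of S)).inv ≫ (Spec.map (CommRingCat.ofHom κ)).appTop =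
        CommRingCat.ofHom κ ≫ (Scheme.ΓSpecIso (.of A)).inv :=
      (Scheme.ΓSpecIso_inv_naturality _).symm
    have h3 : i.appTop ≫ (i.appIso ⊤).inv = C'.presheaf.map (homOfLE le_top).op :=
      Scheme.Hom.app_appIso_inv i ⊤
    have h4 : C'.presheaf.germ ⊤ (genericPoint C') trivial =
        C'.presheaf.map (homOfLE (le_top : i ''ᵁ (⊤ : P.Opens) ≤ ⊤)).op ≫
          C'.germToFunctionField (i ''ᵁ (⊤ : P.Opens)) :=
      (TopCat.Presheaf.germ_res _ _ _ _).symm
    have h5 : CommRingCat.ofHom (toFunctionField g) =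
        (Scheme.ΓSpecIso (.of S)).inv ≫ g.appTop ≫
          C'.presheaf.germ ⊤ (genericPoint C') trivial := rfl
    have h6 : (Scheme.ΓSpecIso (.of S)).inv ≫ g.appTop ≫
          C'.presheaf.germ ⊤ (genericPoint C') trivial =
        CommRingCat.ofHom κ ≫ (Scheme.ΓSpecIso (.of A)).inv ≫ p.appTop ≫ (i.appIso ⊤).inv ≫
          C'.germToFunctionField (i ''ᵁ (⊤ : P.Opens)) := by
      rw [h4, ← h3, Category.assoc, reassoc_of% h1, reassoc_of% h2]
    have h7 := congrArg CommRingCat.Hom.hom (h5.trans h6)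
    exact h7

/-- The ring of functions on the preimage of the first chart: `P := pullback π (chart0 K c)` is
affine and integral, `p₂ : P → Spec A0` is finite and flat with nonempty source, `A0` is a domain,
so `A0 → B := Γ(P, ⊤)` is finite and injective; `P → C'` is an open immersion, so `Γ(P, ⊤)` is
`Γ(C', W)` for an affine open `W`, and `C'.functionField` is its fraction field
(`functionField_isFractionRing_of_isAffineOpen`). -/
theorem exists_chart_ring (K : Type u) [Field K] (c : K) (hc : c ≠ 0) {C' : Scheme.{u}}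
    [IsIntegral C'] (π : C' ⟶ curve K c) [IsFinite π] [Etale π] :
    ∃ (B : Type u) (_ : CommRing B) (_ : IsDomain B) (β : A0 c →+* B)
      (ι : B →+* C'.functionField), Function.Injective β ∧ β.Finite ∧ Function.Injective ι ∧
      (∀ z : C'.functionField, ∃ a b : B, b ≠ 0 ∧ z * ι b = ι a) ∧
      toFunctionField (π ≫ toSpec K c) = ι.comp (β.comp (algebraMap K (A0 c))) := by
  have h0 : Nonempty ↥(pullback π (chart0 K c)) := nonempty_preimage_chart0 K c hc π
  have h1 : IsDomain (A0 c) := isDomain_A0 c hc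
  have h2 : IsOpenImmersion (pullback.fst π (chart0 K c)) := inferInstance
  have h3 : IsFinite (pullback.snd π (chart0 K c)) := inferInstance
  have h4 : Flat (pullback.snd π (chart0 K c)) := inferInstance
  obtain ⟨B, i1, i2, β, ι, hβ, hfin, hι, hfrac, h⟩ :=
    SE3_main (pullback.fst π (chart0 K c)) (pullback.snd π (chart0 K c))
  refine ⟨B, i1, i2, β, ι, hβ, hfin, hι, hfrac, h _ _ ?_⟩
  rw [← chart0_toSpec, pullback.condition_assoc]
-- END SE3

theorem curve_functions' (K : Type u) [Field K] (c : K) (hc : c ≠ 0) {C' : Scheme.{u}}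
    [IsIntegral C'] (π : C' ⟶ curve K c) [IsFinite π] [Etale π] :
    letI := (toFunctionField (π ≫ toSpec K c)).toAlgebra
    ∃ x y : C'.functionField, y ^ 2 = x * (x ^ 2 - 1) * (1 - algebraMap K C'.functionField c * x ^ 2) ∧
      Transcendental K x ∧ Algebra.IsAlgebraic (Algebra.adjoin K {x}) C'.functionField := by
  obtain ⟨B, _, _, β, ι, hβ, hfin, hι, hfrac, hκ⟩ := exists_chart_ring K c hc π
  exact functions_alg c hc β hβ hfin ι hι hfrac _ hκ

end Pool.Agent.Lib.MP_211349_ag
end
end

section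

/-!
# Part S: the curve as a scheme
-/

open CategoryTheory Limits AlgebraicGeometry Polynomial

universe u

noncomputable section

namespace Pool.Agent.Lib.MP_211349_ag

theorem curve_isProper (R : Type u) [CommRing R] (c : R) : IsProper (toSpec R c) :=
  curve_isProper' R c

theorem curve_smooth (R : Type u) [CommRing R] (c : R) (h2 : IsUnit (2 : R)) (hc : IsUnit c)
    (hc1 : IsUnit (1 - c)) : Smooth (toSpec R c) :=
  curve_smooth' R c h2 hc hc1

theorem curve_isIntegral (K : Type u) [Field K] (c : K) (hc : c ≠ 0) : IsIntegral (curve K c) :=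
  curve_isIntegral' K c hc

/-- Base change of the curve. -/
theorem curve_baseChange (R T : Type u) [CommRing R] [CommRing T] [Algebra R T] (c : R) :
    ∃ i : curve T (algebraMap R T c) ⟶ curve R c,
      IsPullback i (toSpec T (algebraMap R T c)) (toSpec R c)
        (Spec.map (CommRingCat.ofHom (algebraMap R T))) :=
  ⟨curveMap (algebraMap R T) c, isPullback_curveMap (algebraMap R T) c⟩

/-- A finite étale covering of the curve has nonconstant functions `x`, `y` satisfying the
equation of the curve. -/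
theorem curve_functions (K : Type u) [Field K] (c : K) (hc : c ≠ 0) {C' : Scheme.{u}}
    [IsIntegral C'] (π : C' ⟶ curve K c) [IsFinite π] [Etale π] :
    letI := (toFunctionField (π ≫ toSpec K c)).toAlgebra
    ∃ x y : C'.functionField, y ^ 2 = x * (x ^ 2 - 1) * (1 - algebraMap K C'.functionField c * x ^ 2) ∧
      Transcendental K x ∧ Algebra.IsAlgebraic (Algebra.adjoin K {x}) C'.functionField :=
  curve_functions' K c hc π

end Pool.Agent.Lib.MP_211349_ag
end
end
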