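import Pool.Agent.Lib.MP_211349_ag.N.Geom
import Pool.Agent.Lib.MP_211349_ag.Mg.G005
import Pool.Agent.Lib.MP_211349_ag.S.Alg
import Pool.Agent.Lib.MP_211349_ag.Mg.G006
import Pool.Agent.Lib.MP_211349_ag.Mg.G007
import Pool.Agent.Lib.MP_211349_ag.Mg.G002
import Pool.Agent.Lib.MP_211349_ag.Mg.G010

section

/-!
# PART N: good reduction of the finite étale coverings of a constant curve
-/

open CategoryTheory Limits AlgebraicGeometry Polynomial

universe u

noncomputable section

namespace Pool.Agent.Lib.MP_211349_ag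

theorem str_smooth {R : Type u} [CommRing R] {X : Scheme.{u}} (s : X ⟶ Spec (.of R)) [Smooth s]
    {U : X.Opens} (hU : IsAffineOpen U) : (str s U).Smooth := by
  unfold str
  refine RingHom.Smooth.comp ?_ (s.smooth_appLE (isAffineOpen_top _) hU (le_preimage_top s U))
  exact RingHom.Smooth.of_bijective (ConcreteCategory.bijective_of_isIso (Scheme.ΓSpecIso (.of R)).inv)

theorem nonempty_of_nontrivial {X : Scheme.{u}} {U : X.Opens} (h : Nontrivial Γ(X, U)) :
    Nonempty U := by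
  by_contra h'
  have hU : U = ⊥ := by
    ext x
    constructor
    · intro hx
      exact (h' ⟨x, hx⟩).elim
    · intro hx
      exact hx.elim
  subst hU
  exact not_subsingleton Γ(X, ⊥) inferInstance

/-- Everything about one chart. -/
theorem one_chart {F K : Type u} [Field F] [IsAlgClosed F] [Field K] [IsAlgClosed K]
    (O : ValuationSubring K) (φ : F →+* O) {X Y Z C : Scheme.{u}} {s : X ⟶ Spec (.of F)}
    [Smooth s] (T : TwoCharts s) {t : Y ⟶ Spec (.of O)} {i : Y ⟶ X}
    (H : IsPullback i t s (Spec.map (CommRingCat.ofHom φ))) {z : Z ⟶ Spec (.of K)} [IsIntegral Z]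
    {j : Z ⟶ Y} (H' : IsPullback j z t (genPt O)) [IsIntegral C] (π : C ⟶ Z) [IsFinite π]
    [Etale π] [QuasiCompact (π ≫ j)] [QuasiSeparated (π ≫ j)] :
    ((π ≫ j).fromNormalization.app (i ⁻¹ᵁ T.U)).hom.Finite ∧
      ((π ≫ j).fromNormalization.app (i ⁻¹ᵁ T.U)).hom.Etale ∧
      ∃ (B₀ : Type u) (_ : CommRing B₀) (_ : IsDomain B₀) (τ : Γ(X, T.U) →+* B₀)
        (v : B₀ →+* Γ((π ≫ j).normalization, (π ≫ j).fromNormalization ⁻¹ᵁ (i ⁻¹ᵁ T.U))),
        τ.Etale ∧ (τ.comp (str s T.U)).FiniteType ∧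
        v.comp τ = ((π ≫ j).fromNormalization.app (i ⁻¹ᵁ T.U)).hom.comp (i.app T.U).hom ∧
        IsPushout (CommRingCat.ofHom φ) (CommRingCat.ofHom (τ.comp (str s T.U)))
          (CommRingCat.ofHom (str ((π ≫ j).fromNormalization ≫ t)
            ((π ≫ j).fromNormalization ⁻¹ᵁ (i ⁻¹ᵁ T.U)))) (CommRingCat.ofHom v) := by
  have H'' : IsPullback (j ≫ i) z s (Spec.map (CommRingCat.ofHom ((algebraMap O K).comp φ))) := by
    have := H'.paste_horiz H
    rwa [genPt, ← Spec.map_comp, ← CommRingCat.ofHom_comp] at this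
  obtain ⟨B₀, iB, τ, w, hτ, hτf, hw, hB⟩ := exists_constant ((algebraMap O K).comp φ) H'' T π
  have hu : (π ≫ j) ≫ t = (π ≫ z) ≫ genPt O := by
    rw [Category.assoc, Category.assoc, H'.w]
  have hsm : (τ.comp (str s T.U)).Smooth :=
    (str_smooth s T.isAffine).comp (RingHom.etale_iff_formallyUnramified_and_smooth _ |>.mp hτ).2
  have hBd : IsDomain B₀ := by
    have h1 := sec_pullback _ H'' T.isAffine rfl
    have h2 := injective_of_isPushout _ _ _ ((j ≫ i).appLE T.U _ le_rfl).hom h1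
    have : Nontrivial Γ(X, T.U) := T.nontrivial
    have h3 : Nonempty ↥((j ≫ i) ⁻¹ᵁ T.U) := nonempty_of_nontrivial h2.nontrivial
    have h4 := nonempty_preimage π ((j ≫ i) ⁻¹ᵁ T.U) h3
    have h5 : IsDomain Γ(C, π ⁻¹ᵁ ((j ≫ i) ⁻¹ᵁ T.U)) :=
      @AlgebraicGeometry.IsIntegral.component_integral C _ _ h4
    exact (injective_of_isPushout _ _ _ _ hB).isDomain w
  obtain ⟨h1, h2, v, hv, hp⟩ := chart_normalization O φ H (π ≫ j) (π ≫ z) hu T.U T.isAffine τ w
    hτ hτf hsm (by
      refine hw.trans ?_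
      rw [← CommRingCat.hom_comp, ← CommRingCat.hom_comp]
      congr 1) hB
  exact ⟨h1, h2, B₀, iB, hBd, τ, v, hτ,
    RingHom.FiniteType.of_finitePresentation hsm.finitePresentation, hv, hp⟩

/-- The special fibre is integral. -/
theorem special_isIntegral {F K : Type u} [Field F] [IsAlgClosed F] [Field K]
    (O : ValuationSubring K) (φ : F →+* O) {X Y N : Scheme.{u}} {s : X ⟶ Spec (.of F)}
    (T : TwoCharts s) {t : Y ⟶ Spec (.of O)} (i : Y ⟶ X) [IsAffineHom i] (n : N ⟶ Y) [IsAffineHom n]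
    {B₀ B₁ : Type u} [CommRing B₀] [IsDomain B₀] [CommRing B₁] [IsDomain B₁]
    {τ : Γ(X, T.U) →+* B₀} {τ' : Γ(X, T.U') →+* B₁}
    (v : B₀ →+* Γ(N, n ⁻¹ᵁ (i ⁻¹ᵁ T.U))) (v' : B₁ →+* Γ(N, n ⁻¹ᵁ (i ⁻¹ᵁ T.U')))
    (hv : v.comp τ = (n.app (i ⁻¹ᵁ T.U)).hom.comp (i.app T.U).hom)
    (hp : IsPushout (CommRingCat.ofHom φ) (CommRingCat.ofHom (τ.comp (str s T.U)))
          (CommRingCat.ofHom (str (n ≫ t) (n ⁻¹ᵁ (i ⁻¹ᵁ T.U)))) (CommRingCat.ofHom v))
    (hp' : IsPushout (CommRingCat.ofHom φ) (CommRingCat.ofHom (τ'.comp (str s T.U')))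
          (CommRingCat.ofHom (str (n ≫ t) (n ⁻¹ᵁ (i ⁻¹ᵁ T.U')))) (CommRingCat.ofHom v'))
    (hft : (τ.comp (str s T.U)).FiniteType) (hft' : (τ'.comp (str s T.U')).FiniteType)
    (hτ : τ.Etale) : IsIntegral (specialFibre O (n ≫ t)) := by
  have hres : IsAffineHom (resPt O) := by
    unfold resPt
    infer_instance
  have H : IsPullback (pullback.fst (n ≫ t) (resPt O)) (pullback.snd (n ≫ t) (resPt O)) (n ≫ t)
      (Spec.map (CommRingCat.ofHom (algebraMap O (IsLocalRing.ResidueField O)))) :=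
    IsPullback.of_hasPullback (n ≫ t) (resPt O)
  set p := pullback.fst (n ≫ t) (resPt O) with hpdef
  have hpaff : IsAffineHom p := MorphismProperty.of_isPullback H.flip hres
  have hW : IsAffineOpen (n ⁻¹ᵁ (i ⁻¹ᵁ T.U)) := (T.isAffine.preimage i).preimage n
  have hW' : IsAffineOpen (n ⁻¹ᵁ (i ⁻¹ᵁ T.U')) := (T.isAffine'.preimage i).preimage n
  have q := chart_special φ (algebraMap O (IsLocalRing.ResidueField O)) H hW _ v hp
  have q' := chart_special φ (algebraMap O (IsLocalRing.ResidueField O)) H hW' _ v' hp'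
  have hD : IsDomain Γ(specialFibre O (n ≫ t), p ⁻¹ᵁ (n ⁻¹ᵁ (i ⁻¹ᵁ T.U))) :=
    isDomain_of_isPushout _ _ hft _ _ q
  have hD' : IsDomain Γ(specialFibre O (n ≫ t), p ⁻¹ᵁ (n ⁻¹ᵁ (i ⁻¹ᵁ T.U'))) :=
    isDomain_of_isPushout _ _ hft' _ _ q'
  have hx := ne_zero_of_freeOver (str s T.U) T.x T.free τ hτ
  have hinj := injective_of_isPushout _ _ _ _ q
  have hx2 : (p.app (n ⁻¹ᵁ (i ⁻¹ᵁ T.U))).hom ((n.app (i ⁻¹ᵁ T.U)).hom ((i.app T.U).hom T.x)) ≠ 0 := by
    have h1 : (n.app (i ⁻¹ᵁ T.U)).hom ((i.app T.U).hom T.x) = v (τ T.x) :=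
      (RingHom.congr_fun hv T.x).symm
    rw [h1]
    intro h0
    exact hx (hinj (h0.trans (map_zero _).symm))
  refine isIntegral_of_two_charts (p ⁻¹ᵁ (n ⁻¹ᵁ (i ⁻¹ᵁ T.U))) (p ⁻¹ᵁ (n ⁻¹ᵁ (i ⁻¹ᵁ T.U')))
    (hW.preimage p) (hW'.preimage p) ?_ _ hx2 ?_
  · rw [← Scheme.Hom.preimage_sup, ← Scheme.Hom.preimage_sup, ← Scheme.Hom.preimage_sup, T.cover]
    rfl
  · have h1 : (specialFibre O (n ≫ t)).basicOpen
        ((p.app (n ⁻¹ᵁ (i ⁻¹ᵁ T.U))).hom ((n.app (i ⁻¹ᵁ T.U)).hom ((i.app T.U).hom T.x))) =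
        p ⁻¹ᵁ (n ⁻¹ᵁ (i ⁻¹ᵁ (X.basicOpen T.x))) := by
      rw [Scheme.preimage_basicOpen, Scheme.preimage_basicOpen, Scheme.preimage_basicOpen]
    rw [h1, ← T.inf_eq]
    exact p.preimage_mono (n.preimage_mono (i.preimage_mono inf_le_right))

/-- Good reduction of the finite étale coverings of a constant curve. -/
theorem good_reduction {F K : Type u} [Field F] [IsAlgClosed F] [Field K] [IsAlgClosed K]
    (O : ValuationSubring K) (hO : RankOne O) (φ : F →+* O) {X Y Z C : Scheme.{u}}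
    {s : X ⟶ Spec (.of F)} [Smooth s] (T : TwoCharts s) {t : Y ⟶ Spec (.of O)} [IsProper t]
    [Smooth t] {i : Y ⟶ X} (H : IsPullback i t s (Spec.map (CommRingCat.ofHom φ)))
    {z : Z ⟶ Spec (.of K)} [IsIntegral Z] {j : Z ⟶ Y} (H' : IsPullback j z t (genPt O))
    [IsIntegral C] (π : C ⟶ Z) [IsFinite π] [Etale π] :
    ∃ (X' : Scheme.{u}) (f : X' ⟶ Spec (.of O)), IsProper f ∧ Smooth f ∧
      HasGenericFibre O f (π ≫ z) ∧ IsIntegral (specialFibre O f) := by
  have : IsOpenImmersion (genPt O) := isOpenImmersion_genPt O hO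
  have : IsOpenImmersion j := MorphismProperty.of_isPullback H'.flip this
  have : IsAffineHom j := MorphismProperty.of_isPullback H'.flip (inferInstanceAs (IsAffineHom (genPt O)))
  have : IsAffineHom i := MorphismProperty.of_isPullback H.flip (inferInstanceAs (IsAffineHom (Spec.map (CommRingCat.ofHom φ))))
  obtain ⟨a1, a2, B₀, iB, hBd, τ, v, hτ, hft, hv, hp⟩ := one_chart O φ T H H' π
  obtain ⟨b1, b2, B₁, iB', hBd', τ', v', hτ', hft', hv', hp'⟩ := one_chart O φ T.symm H H' π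
  have hU : IsAffineOpen (i ⁻¹ᵁ T.U) := T.isAffine.preimage i
  have hU' : IsAffineOpen (i ⁻¹ᵁ T.U') := T.isAffine'.preimage i
  obtain ⟨c1, c2⟩ := finite_etale_of_cover (π ≫ j).fromNormalization (i ⁻¹ᵁ T.U) (i ⁻¹ᵁ T.U') hU
    hU' (by rw [← Scheme.Hom.preimage_sup, T.cover]; rfl) a1 a2 b1 b2
  refine ⟨(π ≫ j).normalization, (π ≫ j).fromNormalization ≫ t, inferInstance, inferInstance, ?_, ?_⟩
  · exact ⟨_, (isPullback_toNormalization π j).paste_vert H'⟩
  · exact special_isIntegral O φ T i _ v v' hv hp hp' hft hft' hτ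

end Pool.Agent.Lib.MP_211349_ag
end
end

section

/-!
# PART N: the two charts of the curve
-/

open CategoryTheory Limits AlgebraicGeometry Polynomial

universe u

noncomputable section

namespace Pool.Agent.Lib.MP_211349_ag

section general

variable {A : Type u} [CommRing A] {X : Scheme.{u}} (h : Spec (.of A) ⟶ X) [IsOpenImmersion h]

/-- The ring of an affine chart as sections. -/
def chartHom : A →+* Γ(X, h ''ᵁ ⊤) :=
  ((Scheme.ΓSpecIso (.of A)).inv ≫ (h.appIso ⊤).inv).hom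

theorem chartHom_bijective : Function.Bijective (chartHom h) :=
  ConcreteCategory.bijective_of_isIso ((Scheme.ΓSpecIso (.of A)).inv ≫ (h.appIso ⊤).inv)

theorem isAffineOpen_chart : IsAffineOpen (h ''ᵁ ⊤) :=
  (isAffineOpen_top _).image_of_isOpenImmersion h

theorem chartHom_str {R : Type u} [CommRing R] (s : X ⟶ Spec (.of R)) (ρ : R →+* A)
    (hs : h ≫ s = Spec.map (CommRingCat.ofHom ρ)) : str s (h ''ᵁ ⊤) = (chartHom h).comp ρ := by
  have h1 : (h.appLE (h ''ᵁ ⊤) ⊤ (h.preimage_image_eq ⊤).ge).hom.comp (str s (h ''ᵁ ⊤)) =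
      str (h ≫ s) ⊤ := str_appLE h s _ _ _
  have h2 : str (Spec.map (CommRingCat.ofHom ρ)) ⊤ = (Scheme.ΓSpecIso (.of A)).inv.hom.comp ρ := by
    have h3 := str_base ρ (𝟙 (Spec (.of A))) ⊤
    rw [Category.id_comp] at h3
    rw [h3]
    congr 1
  have h4 : (h.appLE (h ''ᵁ ⊤) ⊤ (h.preimage_image_eq ⊤).ge).hom.comp (chartHom h) =
      (Scheme.ΓSpecIso (.of A)).inv.hom := by
    unfold chartHom
    rw [← CommRingCat.hom_comp, ← Scheme.Hom.appIso_hom']
    simp
  have h5 : Function.Injective (h.appLE (h ''ᵁ ⊤) ⊤ (h.preimage_image_eq ⊤).ge).hom := by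
    rw [← Scheme.Hom.appIso_hom']
    exact (ConcreteCategory.bijective_of_isIso (h.appIso ⊤).hom).1
  ext a
  apply h5
  have h6 := RingHom.congr_fun h1 a
  rw [hs, h2] at h6
  refine h6.trans ?_
  exact (RingHom.congr_fun h4 (ρ a)).symm

theorem basicOpen_chartHom (a : A) :
    X.basicOpen (chartHom h a) = h ''ᵁ (PrimeSpectrum.basicOpen a) := by
  unfold chartHom
  rw [CommRingCat.hom_comp, RingHom.comp_apply]
  have h1 := Scheme.image_basicOpen h ((Scheme.ΓSpecIso (.of A)).inv.hom a)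
  refine h1.symm.trans ?_
  congr 1
  exact basicOpen_eq_of_affine (R := .of A) a

theorem chartHom_restrict {Q : Type u} [CommRing Q] (q : Spec (.of Q) ⟶ X) (ψ : A →+* Q)
    (hq : q = Spec.map (CommRingCat.ofHom ψ) ≫ h) (W : X.Opens) (hW : W ≤ h ''ᵁ ⊤)
    (e : ⊤ ≤ q ⁻¹ᵁ W) (a : A) :
    (q.appLE W ⊤ e).hom ((X.presheaf.map (homOfLE hW).op).hom (chartHom h a)) =
      (Scheme.ΓSpecIso (.of Q)).inv.hom (ψ a) := by
  subst hq
  have h1 : chartHom h a = (CommRingCat.Hom.hom ((Scheme.ΓSpecIso (.of A)).inv ≫ (h.appIso ⊤).inv)) a := rfl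
  rw [h1]
  rw [← RingHom.comp_apply, ← RingHom.comp_apply, ← CommRingCat.hom_comp, ← CommRingCat.hom_comp]
  rw [Category.assoc, Scheme.Hom.map_appLE]
  rw [← Scheme.Hom.appLE_comp_appLE (Spec.map (CommRingCat.ofHom ψ)) h (h ''ᵁ ⊤) ⊤ ⊤
    (h.preimage_image_eq ⊤).ge (le_preimage_top _ _)]
  rw [← Scheme.Hom.appIso_hom', Iso.inv_hom_id_assoc]
  have h3 : (Scheme.ΓSpecIso (.of A)).inv ≫ (Spec.map (CommRingCat.ofHom ψ)).appLE ⊤ ⊤ (le_preimage_top _ _) =
      CommRingCat.ofHom ψ ≫ (Scheme.ΓSpecIso (.of Q)).inv := by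
    rw [Scheme.ΓSpecIso_inv_naturality]
    simp [Scheme.Hom.appTop, Scheme.Hom.app_eq_appLE]
  rw [h3]
  rfl

theorem appLE_injective {Q : Type u} [CommRing Q] (q : Spec (.of Q) ⟶ X) [IsOpenImmersion q]
    (W : X.Opens) (hW : W = q ''ᵁ ⊤) (e : ⊤ ≤ q ⁻¹ᵁ W) :
    Function.Injective (q.appLE W ⊤ e).hom := by
  subst hW
  rw [← Scheme.Hom.appIso_hom']
  exact (ConcreteCategory.bijective_of_isIso (q.appIso ⊤).hom).1

end general

section curve

variable {F : Type u} [Field F] (c : F)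

theorem opensRange_ov0 : (ov0 F c).opensRange = PrimeSpectrum.basicOpen (DC.x (f0 c)) := by
  unfold ov0
  exact Scheme.Hom.opensRange_localizationAway (R := .of (A0 c)) (DC.x (f0 c))

theorem opensRange_ov1 : (ov1 F c).opensRange = PrimeSpectrum.basicOpen (DC.x (f1 c)) := by
  let _ := (toOv c).toAlgebra
  have h := isLocalization_toOv c
  ext z
  have h1 := PrimeSpectrum.localization_away_comap_range (Ov c) (DC.x (f1 c))
  exact (Set.ext_iff.mp h1 z)

/-- The two charts of the curve. -/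
def curveCharts (hc : c ≠ 0) : TwoCharts (toSpec F c) where
  U := chart0 F c ''ᵁ ⊤
  U' := chart1 F c ''ᵁ ⊤
  isAffine := isAffineOpen_chart _
  isAffine' := isAffineOpen_chart _
  cover := by
    rw [Scheme.Hom.image_top_eq_opensRange, Scheme.Hom.image_top_eq_opensRange]
    exact chart_opensRange_sup F c
  x := chartHom (chart0 F c) (DC.x (f0 c))
  x' := chartHom (chart1 F c) (DC.x (f1 c))
  inf_eq := by
    rw [basicOpen_chartHom, ← opensRange_ov0, ← Scheme.Hom.opensRange_comp,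
      Scheme.Hom.image_top_eq_opensRange, Scheme.Hom.image_top_eq_opensRange]
    exact chart_opensRange_inf F c
  inf_eq' := by
    rw [basicOpen_chartHom, ← opensRange_ov1, ← Scheme.Hom.opensRange_comp,
      Scheme.Hom.image_top_eq_opensRange, Scheme.Hom.image_top_eq_opensRange, inf_comm]
    exact (chart_opensRange_inf F c).trans (by simp only [ov0_chart0])
  mul_eq := by
    have hW : chart0 F c ''ᵁ ⊤ ⊓ chart1 F c ''ᵁ ⊤ = (ov0 F c ≫ chart0 F c) ''ᵁ ⊤ := by
      rw [Scheme.Hom.image_top_eq_opensRange, Scheme.Hom.image_top_eq_opensRange,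
        Scheme.Hom.image_top_eq_opensRange]
      exact chart_opensRange_inf F c
    have e : ⊤ ≤ (ov0 F c ≫ chart0 F c) ⁻¹ᵁ (chart0 F c ''ᵁ ⊤ ⊓ chart1 F c ''ᵁ ⊤) := by
      rw [hW, Scheme.Hom.preimage_image_eq]
    have h0 := chartHom_restrict (chart0 F c) (ov0 F c ≫ chart0 F c) (algebraMap (A0 c) (Ov c)) rfl
      _ inf_le_left e (DC.x (f0 c))
    have h1 := chartHom_restrict (chart1 F c) (ov0 F c ≫ chart0 F c) (toOv c) (ov0_chart0 F c)
      _ inf_le_right e (DC.x (f1 c))
    refine appLE_injective (ov0 F c ≫ chart0 F c) _ hW e ?_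
    refine (RingHom.map_mul _ _ _).trans ?_
    refine (congrArg₂ (· * ·) h0 h1).trans ?_
    refine (RingHom.map_mul _ _ _).symm.trans ?_
    rw [toOv_x, Ov.x_mul_xinv]
    exact (RingHom.map_one _).trans (RingHom.map_one _).symm
  free := by
    rw [chartHom_str (chart0 F c) _ (algebraMap F (A0 c)) (chart0_toSpec F c)]
    refine freeOver_transport _ _ (chartHom_bijective _) _ ?_
    have h := freeOver_dc (f0 c)
    rwa [← _root_.toAlgebra_algebraMap (R := F) (S := A0 c)] at h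
  free' := by
    rw [chartHom_str (chart1 F c) _ (algebraMap F (A1 c)) (chart1_toSpec F c)]
    refine freeOver_transport _ _ (chartHom_bijective _) _ ?_
    have h := freeOver_dc (f1 c)
    rwa [← _root_.toAlgebra_algebraMap (R := F) (S := A1 c)] at h
  nontrivial := by
    have := isDomain_A0 c hc
    exact (chartHom_bijective (chart0 F c)).1.nontrivial
  nontrivial' := by
    have := isDomain_A1 c
    exact (chartHom_bijective (chart1 F c)).1.nontrivial

end curve

end Pool.Agent.Lib.MP_211349_ag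
end
end

section

/-!
# PART N: the main theorem
-/

open CategoryTheory Limits AlgebraicGeometry Polynomial

universe u

noncomputable section

namespace Pool.Agent.Lib.MP_211349_ag

theorem exists_smooth_model_aux {F K : Type u} [Field F] [IsAlgClosed F] [Field K] [IsAlgClosed K]
    (O : ValuationSubring K) (hO : RankOne O) (φ : F →+* O)
    (h2 : (2 : F) ≠ 0) (c : F) (hc : c ≠ 0) (hc1 : c ≠ 1) (cK : K) (hcK : cK = algebraMap O K (φ c))
    {C' : Scheme.{u}} [IsIntegral C'] (π : C' ⟶ curve K cK) [IsFinite π] [Etale π] :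
    ∃ (X : Scheme.{u}) (f : X ⟶ Spec (.of O)), IsProper f ∧ Smooth f ∧
      HasGenericFibre O f (π ≫ toSpec K _) ∧ IsIntegral (specialFibre O f) := by
  subst hcK
  have h2O : IsUnit (2 : O) := by
    have h := (isUnit_iff_ne_zero.mpr h2).map φ
    rwa [map_ofNat] at h
  have hcO : IsUnit (φ c) := (isUnit_iff_ne_zero.mpr hc).map φ
  have hcO1 : IsUnit (1 - φ c) := by
    have h := (isUnit_iff_ne_zero.mpr (sub_ne_zero.mpr hc1.symm)).map φ
    rwa [map_sub, map_one] at h
  have hsF : Smooth (toSpec F c) := curve_smooth' F c (isUnit_iff_ne_zero.mpr h2)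
    (isUnit_iff_ne_zero.mpr hc) (isUnit_iff_ne_zero.mpr (sub_ne_zero.mpr hc1.symm))
  have hsO : Smooth (toSpec O (φ c)) := curve_smooth' O (φ c) h2O hcO hcO1
  have hpO : IsProper (toSpec O (φ c)) := curve_isProper' O (φ c)
  have hK : IsIntegral (curve K (algebraMap O K (φ c))) := curve_isIntegral' K _
    (hcO.map (algebraMap O K)).ne_zero
  exact good_reduction O hO φ (curveCharts c hc) (isPullback_curveMap φ c)
    (isPullback_curveMap (algebraMap O K) (φ c)) π

/-- The theorem `exists_smooth_model` of Interface.lean. -/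
theorem exists_smooth_model' {F K : Type u} [Field F] [IsAlgClosed F] [Field K] [IsAlgClosed K]
    (O : ValuationSubring K) (hO : RankOne O) [Algebra F K] [Algebra F O] [IsScalarTower F O K]
    (h2 : (2 : F) ≠ 0) (c : F) (hc : c ≠ 0) (hc1 : c ≠ 1) {C' : Scheme.{u}} [IsIntegral C']
    (π : C' ⟶ curve K (algebraMap F K c)) [IsFinite π] [Etale π] :
    ∃ (X : Scheme.{u}) (f : X ⟶ Spec (.of O)), IsProper f ∧ Smooth f ∧
      HasGenericFibre O f (π ≫ toSpec K _) ∧ IsIntegral (specialFibre O f) :=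
  exists_smooth_model_aux O hO (algebraMap F O) h2 c hc hc1 _
    (IsScalarTower.algebraMap_apply F O K c) π

end Pool.Agent.Lib.MP_211349_ag
end
end

section

/-!
# Good reduction of the coverings of a constant curve in characteristic two
-/

open CategoryTheory Limits AlgebraicGeometry Polynomial

universe u

noncomputable section

namespace Pool.Agent.Lib.MP_211349_ag.Even

/-- Basis `x^i y^j`, `j < 2`. -/
theorem freeOver_dc {F : Type u} [CommRing F] [Nontrivial F] (f : F[X]) :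
    FreeOver (F := F) (DC.x f) := by
  let pb := AdjoinRoot.powerBasis' (rel_monic f)
  let e := ((Polynomial.basisMonomials F).smulTower pb.basis).reindex (Equiv.prodComm _ _)
  refine ⟨pb.dim, e, fun j i => ?_⟩
  have h1 : ∀ i, e (j, i) = (monomial i 1 : F[X]) • pb.basis j := by
    intro i
    simp only [e, Module.Basis.reindex_apply, Equiv.prodComm_symm, Equiv.prodComm_apply,
      Prod.swap_prod_mk, Module.Basis.smulTower_apply, Polynomial.coe_basisMonomials]
  rw [h1, h1, Algebra.smul_def, Algebra.smul_def, ← mul_assoc]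
  congr 1
  change algebraMap F[X] (DC f) X * algebraMap F[X] (DC f) _ = algebraMap F[X] (DC f) _
  rw [← map_mul, Polynomial.X_mul_monomial]

section curve

variable {F : Type u} [Field F] (c : F)

theorem opensRange_ov0 : (ov0 F c).opensRange = PrimeSpectrum.basicOpen (DC.x (f0 c)) := by
  unfold ov0
  exact Scheme.Hom.opensRange_localizationAway (R := .of (A0 c)) (DC.x (f0 c))

theorem opensRange_ov1 : (ov1 F c).opensRange = PrimeSpectrum.basicOpen (DC.x (f1 c)) := by
  let _ := (toOv c).toAlgebra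
  have h := isLocalization_toOv c
  ext z
  have h1 := PrimeSpectrum.localization_away_comap_range (Ov c) (DC.x (f1 c))
  exact (Set.ext_iff.mp h1 z)

/-- The two charts of the curve. -/
def curveCharts (hc : c ≠ 0) : TwoCharts (toSpec F c) where
  U := chart0 F c ''ᵁ ⊤
  U' := chart1 F c ''ᵁ ⊤
  isAffine := isAffineOpen_chart _
  isAffine' := isAffineOpen_chart _
  cover := by
    rw [Scheme.Hom.image_top_eq_opensRange, Scheme.Hom.image_top_eq_opensRange]
    exact chart_opensRange_sup F c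
  x := chartHom (chart0 F c) (DC.x (f0 c))
  x' := chartHom (chart1 F c) (DC.x (f1 c))
  inf_eq := by
    rw [basicOpen_chartHom, ← opensRange_ov0, ← Scheme.Hom.opensRange_comp,
      Scheme.Hom.image_top_eq_opensRange, Scheme.Hom.image_top_eq_opensRange]
    exact chart_opensRange_inf F c
  inf_eq' := by
    rw [basicOpen_chartHom, ← opensRange_ov1, ← Scheme.Hom.opensRange_comp,
      Scheme.Hom.image_top_eq_opensRange, Scheme.Hom.image_top_eq_opensRange, inf_comm]
    exact (chart_opensRange_inf F c).trans (by simp only [ov0_chart0])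
  mul_eq := by
    have hW : chart0 F c ''ᵁ ⊤ ⊓ chart1 F c ''ᵁ ⊤ = (ov0 F c ≫ chart0 F c) ''ᵁ ⊤ := by
      rw [Scheme.Hom.image_top_eq_opensRange, Scheme.Hom.image_top_eq_opensRange,
        Scheme.Hom.image_top_eq_opensRange]
      exact chart_opensRange_inf F c
    have e : ⊤ ≤ (ov0 F c ≫ chart0 F c) ⁻¹ᵁ (chart0 F c ''ᵁ ⊤ ⊓ chart1 F c ''ᵁ ⊤) := by
      rw [hW, Scheme.Hom.preimage_image_eq]
    have h0 := chartHom_restrict (chart0 F c) (ov0 F c ≫ chart0 F c) (algebraMap (A0 c) (Ov c)) rfl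
      _ inf_le_left e (DC.x (f0 c))
    have h1 := chartHom_restrict (chart1 F c) (ov0 F c ≫ chart0 F c) (toOv c) (ov0_chart0 F c)
      _ inf_le_right e (DC.x (f1 c))
    refine appLE_injective (ov0 F c ≫ chart0 F c) _ hW e ?_
    refine (RingHom.map_mul _ _ _).trans ?_
    refine (congrArg₂ (· * ·) h0 h1).trans ?_
    refine (RingHom.map_mul _ _ _).symm.trans ?_
    rw [toOv_x, Ov.x_mul_xinv]
    exact (RingHom.map_one _).trans (RingHom.map_one _).symm
  free := by
    rw [chartHom_str (chart0 F c) _ (algebraMap F (A0 c)) (chart0_toSpec F c)]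
    refine freeOver_transport _ _ (chartHom_bijective _) _ ?_
    have h := freeOver_dc (f0 c)
    rwa [← _root_.toAlgebra_algebraMap (R := F) (S := A0 c)] at h
  free' := by
    rw [chartHom_str (chart1 F c) _ (algebraMap F (A1 c)) (chart1_toSpec F c)]
    refine freeOver_transport _ _ (chartHom_bijective _) _ ?_
    have h := freeOver_dc (f1 c)
    rwa [← _root_.toAlgebra_algebraMap (R := F) (S := A1 c)] at h
  nontrivial := by
    have := isDomain_A0 c
    exact (chartHom_bijective (chart0 F c)).1.nontrivial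
  nontrivial' := by
    have := isDomain_A1 c hc
    exact (chartHom_bijective (chart1 F c)).1.nontrivial

end curve

theorem exists_smooth_model_aux {F K : Type u} [Field F] [IsAlgClosed F] [Field K] [IsAlgClosed K]
    (O : ValuationSubring K) (hO : RankOne O) (φ : F →+* O)
    (h2 : (2 : F) = 0) (c : F) (hc : c ≠ 0) (cK : K) (hcK : cK = algebraMap O K (φ c))
    {C' : Scheme.{u}} [IsIntegral C'] (π : C' ⟶ curve K cK) [IsFinite π] [Etale π] :
    ∃ (X : Scheme.{u}) (f : X ⟶ Spec (.of O)), IsProper f ∧ Smooth f ∧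
      HasGenericFibre O f (π ≫ toSpec K _) ∧ IsIntegral (specialFibre O f) := by
  subst hcK
  have h2O : (2 : O) = 0 := by
    have h := congrArg φ h2
    rwa [map_ofNat, map_zero] at h
  have hcO : IsUnit (φ c) := (isUnit_iff_ne_zero.mpr hc).map φ
  have hsF : Smooth (toSpec F c) := curve_smooth' F c h2 (isUnit_iff_ne_zero.mpr hc)
  have hsO : Smooth (toSpec O (φ c)) := curve_smooth' O (φ c) h2O hcO
  have hpO : IsProper (toSpec O (φ c)) := curve_isProper' O (φ c)
  have hK : IsIntegral (curve K (algebraMap O K (φ c))) := curve_isIntegral' K _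
    (hcO.map (algebraMap O K)).ne_zero
  exact good_reduction O hO φ (curveCharts c hc) (isPullback_curveMap φ c)
    (isPullback_curveMap (algebraMap O K) (φ c)) π

theorem exists_smooth_model' {F K : Type u} [Field F] [IsAlgClosed F] [Field K] [IsAlgClosed K]
    (O : ValuationSubring K) (hO : RankOne O) [Algebra F K] [Algebra F O] [IsScalarTower F O K]
    (h2 : (2 : F) = 0) (c : F) (hc : c ≠ 0) {C' : Scheme.{u}} [IsIntegral C']
    (π : C' ⟶ curve K (algebraMap F K c)) [IsFinite π] [Etale π] :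
    ∃ (X : Scheme.{u}) (f : X ⟶ Spec (.of O)), IsProper f ∧ Smooth f ∧
      HasGenericFibre O f (π ≫ toSpec K _) ∧ IsIntegral (specialFibre O f) :=
  exists_smooth_model_aux O hO (algebraMap F O) h2 c hc _
    (IsScalarTower.algebraMap_apply F O K c) π

end Pool.Agent.Lib.MP_211349_ag.Even
end
end
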