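import Pool.Agent.Lib.MP_211349_ag.Mg.G002
import Pool.Agent.Lib.MP_211349_ag.Mg.G009
import Pool.Agent.Lib.MP_211349_ag.Y.Stmt
import Pool.Agent.Lib.MP_211349_ag.M.Sch

section

/-!
# Algebraic numbers in a field of mixed characteristic
-/

open Polynomial

universe u

noncomputable section

namespace Pool.Agent.Lib.MP_211349_ag

-- BEGIN BA1
/-- (BA1) The algebraic closure of `ℚ` in `K` (`algebraicClosure ℚ K`, compare `algebraic_closure_facts` in F/Norm.lean). -/
theorem exists_algebraic_numbers (K : Type u) [Field K] [CharZero K] [IsAlgClosed K] :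
    ∃ (F : Type u) (_ : Field F) (_ : IsAlgClosed F) (φ : F →+* K),
      (∀ a : K, IsAlgebraic ℚ a → a ∈ φ.range) ∧ ∀ a : F, IsAlgebraic ℚ (φ a) := by
  let F := algebraicClosure ℚ K
  have hF : IsAlgClosed F := (algebraicClosure.isAlgClosure ℚ K).isAlgClosed
  refine ⟨F, inferInstance, hF, algebraMap F K, ?_, ?_⟩
  · intro a ha
    exact ⟨⟨a, mem_algebraicClosure_iff.mpr ha⟩, rfl⟩
  · intro a
    exact mem_algebraicClosure_iff.mp a.2
-- END BA1

-- BEGIN BA2
/-- (BA2) An integral element `c` with transcendental residue is not congruent to an algebraic number `a`: `a` is a root of a primitive `P ∈ ℤ[X]`, so `p` does not divide `P`, `‖P(c)‖ = 1`; but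
`P(c) - P(a)` is `c - a` times an element of norm `≤ 1` (`‖c‖ ≤ 1` by `hc` for `P = X`, `‖a‖ ≤ 1` then). -/
theorem norm_sub_algebraic {K : Type u} [NontriviallyNormedField K] [IsUltrametricDist K]
    [CharZero K] (p : ℕ) [Fact p.Prime] (hp : ‖(p : K)‖ < 1) (c : K)
    (hc : ∀ P : ℤ[X], ¬ C (p : ℤ) ∣ P → ‖aeval c P‖ = 1) (a : K) (ha : IsAlgebraic ℚ a) :
    ¬ ‖c - a‖ < 1 := by
  intro hca
  have hpp : ¬ IsUnit (p : ℤ) := by
    rw [Int.isUnit_iff_natAbs_eq, Int.natAbs_natCast]
    exact (Fact.out : p.Prime).one_lt.ne'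
  have hc1 : ‖c‖ ≤ 1 := by
    have h1 := hc X (by
      intro h
      exact hpp ((monic_X (R := ℤ)).isPrimitive _ h))
    rw [aeval_X] at h1
    exact h1.le
  have ha1 : ‖a‖ ≤ 1 := by
    have h1 : a = c + -(c - a) := by ring
    rw [h1]
    refine (IsUltrametricDist.norm_add_le_max c (-(c - a))).trans (max_le hc1 ?_)
    rw [norm_neg]
    exact hca.le
  have haz : IsAlgebraic ℤ a := (IsFractionRing.isAlgebraic_iff ℤ ℚ K).mpr ha
  obtain ⟨f, hf0, hfa⟩ := haz
  set P := f.primPart with hP
  have hPa : aeval a P = 0 := by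
    have h1 := f.eq_C_content_mul_primPart
    rw [h1, map_mul, aeval_C] at hfa
    rcases mul_eq_zero.mp hfa with h2 | h2
    · exfalso
      have h3 : f.content ≠ 0 := fun h => hf0 (content_eq_zero_iff.mp h)
      exact h3 ((map_eq_zero_iff (algebraMap ℤ K) (algebraMap ℤ K).injective_int).mp h2)
    · exact h2
  have hPp : ¬ C (p : ℤ) ∣ P := fun h => hpp (f.isPrimitive_primPart _ h)
  have h1 := hc P hPp
  let O := (NormedField.valuation (K := K)).valuationSubring
  have hd := sub_dvd_eval_sub (⟨c, (mem_unitBall c).mpr hc1⟩ : O) ⟨a, (mem_unitBall a).mpr ha1⟩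
    (P.map (algebraMap ℤ O))
  obtain ⟨r, hr⟩ := hd
  have hr' := congrArg (Subtype.val) hr
  have e1 : ∀ b : O, ((((P.map (algebraMap ℤ O)).eval b : O)) : K) = aeval (b : K) P := by
    intro b
    have h3 : algebraMap ℤ K = O.subtype.comp (algebraMap ℤ O) := RingHom.ext_int _ _
    rw [aeval_def, h3, eval_map]
    exact hom_eval₂ P (algebraMap ℤ O) O.subtype b
  have hr2 : aeval c P - aeval a P = (c - a) * (r : K) := by
    have h3 := e1 ⟨c, (mem_unitBall c).mpr hc1⟩
    have h4 := e1 ⟨a, (mem_unitBall a).mpr ha1⟩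
    rw [← h3, ← h4]
    exact hr'
  rw [hPa, sub_zero] at hr2
  rw [hr2, norm_mul] at h1
  have h5 : ‖(r : K)‖ ≤ 1 := (mem_unitBall (r : K)).mp r.2
  have h6 : ‖c - a‖ * ‖(r : K)‖ < 1 := by
    calc ‖c - a‖ * ‖(r : K)‖ ≤ ‖c - a‖ * 1 := by gcongr
      _ < 1 := by rw [mul_one]; exact hca
  exact absurd h1 h6.ne
-- END BA2

end Pool.Agent.Lib.MP_211349_ag
end
end

section

/-!
# Solutions in residue fields, definitions
-/

open CategoryTheory Limits AlgebraicGeometry Polynomial

universe u

noncomputable section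

namespace Pool.Agent.Lib.MP_211349_ag

section relations

variable {R S T : Type*} [CommRing R] [CommRing S] [CommRing T]

/-- The value of the polynomial `G` in two variables at `(x, y)`. -/
def evalAt (φ : R →+* S) (G : R[X][X]) (x y : S) : S := G.eval₂ (eval₂RingHom φ x) y

theorem map_evalAt (ψ : S →+* T) (φ : R →+* S) (G : R[X][X]) (x y : S) :
    ψ (evalAt φ G x y) = evalAt (ψ.comp φ) G (ψ x) (ψ y) := by
  unfold evalAt
  rw [hom_eval₂]
  congr 1
  apply Polynomial.ringHom_ext <;> simp

end relations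

section sol

variable {K L : Type u} [Field K] [Field L] [Algebra K L] (O : ValuationSubring K)

/-- The residue field of `v` contains a solution `(x, y)` of `G` with `x` not constant. -/
def Sol (v : ValuationSubring L) (G : O[X][X]) : Prop :=
  ∃ x y : L, ResTrans O v x ∧ y ∈ v ∧
    evalAt ((algebraMap K L).comp O.subtype) G x y ∈ v.nonunits

/-- The curve `G = 0` has no rational parametrization over the residue field of `O`. -/
def NoParam (G : O[X][X]) : Prop :=
  ∀ x y : RatFunc (IsLocalRing.ResidueField O),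
    evalAt (RatFunc.C.comp (IsLocalRing.residue O)) G x y = 0 →
    ∃ c, x = RatFunc.C c

end sol

/-- The polynomial `y² - x (x² - 1) (1 - c x²)`. -/
def relOdd {R : Type*} [CommRing R] (c : R) : R[X][X] :=
  X ^ 2 - C (X * (X ^ 2 - 1) * (1 - C c * X ^ 2))

theorem evalAt_relOdd {R S : Type*} [CommRing R] [CommRing S] (φ : R →+* S) (c : R) (x y : S) :
    evalAt φ (relOdd c) x y = y ^ 2 - x * (x ^ 2 - 1) * (1 - φ c * x ^ 2) := by
  unfold evalAt relOdd
  rw [eval₂_sub, eval₂_pow, eval₂_X, eval₂_C]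
  simp

end Pool.Agent.Lib.MP_211349_ag
end
end

section

/-!
# Homomorphisms of valuation rings and their residue fields, composites of fields
-/

open CategoryTheory Limits AlgebraicGeometry Polynomial

universe u

noncomputable section

namespace Pool.Agent.Lib.MP_211349_ag

section homs

variable {K K' : Type u} [Field K] [Field K'] {O : ValuationSubring K} {O' : ValuationSubring K'}
  (σ : K →+* K') (hσ : O'.comap σ = O)

/-- The homomorphism `O → O'` induced by a homomorphism of fields. -/
def valHom : O →+* O' :=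
  (σ.comp O.subtype).codRestrict O'.toSubring fun a => by
    have h : (a : K) ∈ O'.comap σ := by
      rw [hσ]
      exact a.2
    exact h

theorem valHom_coe (a : O) : ((valHom σ hσ a : O') : K') = σ a := rfl

include hσ in
theorem map_mem_iff (a : K) : σ a ∈ O' ↔ a ∈ O := by
  rw [← hσ]
  rfl

include hσ in
theorem map_mem_nonunits_iff (a : K) : σ a ∈ O'.nonunits ↔ a ∈ O.nonunits := by
  let _ : Algebra K K' := σ.toAlgebra
  exact Over.nonunits_iff (O := O) (v := O') (K := K) (L := K') hσ a

theorem valHom_local : IsLocalHom (valHom σ hσ) := by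
  let _ : Algebra K K' := σ.toAlgebra
  exact overHom_local (K := K) (L := K') (v := O') (O := O) hσ

/-- The homomorphism of the residue fields induced by a homomorphism of fields. -/
def resHom : IsLocalRing.ResidueField O →+* IsLocalRing.ResidueField O' :=
  haveI := valHom_local σ hσ
  IsLocalRing.ResidueField.map (valHom σ hσ)

theorem resHom_residue (a : O) :
    resHom σ hσ (IsLocalRing.residue O a) = IsLocalRing.residue O' (valHom σ hσ a) := rfl

end homs

/-- For `v` over `O`, the homomorphism of the residue fields. -/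
abbrev resMap {K L : Type u} [Field K] [Field L] [Algebra K L] {O : ValuationSubring K}
    {v : ValuationSubring L} (hv : Over O v) :
    IsLocalRing.ResidueField O →+* IsLocalRing.ResidueField v :=
  resHom (algebraMap K L) hv

/-- `L'` is a composite of `K'` and `L` over `K`: `θ : L → L'` extends `σ : K → K'`, `L` and `K'` are
linearly disjoint over `K`, and `L'` is generated by them as a field. (`L` may be a ring.) -/
structure FracExt {K L K' L' : Type*} [CommRing K] [CommRing L] [CommRing K'] [Field L']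
    (κ : K →+* L) (κ' : K' →+* L') (σ : K →+* K') (θ : L →+* L') : Prop where
  comm : ∀ a, θ (κ a) = κ' (σ a)
  lin : ∀ (n : ℕ) (b : Fin n → L), (∀ c : Fin n → K, ∑ i, κ (c i) * b i = 0 → ∀ i, c i = 0) →
    ∀ c : Fin n → K', ∑ i, κ' (c i) * θ (b i) = 0 → ∀ i, c i = 0
  frac : ∀ z : L', ∃ (n : ℕ) (c d : Fin n → K') (b : Fin n → L),
    ∑ i, κ' (d i) * θ (b i) ≠ 0 ∧ z = (∑ i, κ' (c i) * θ (b i)) / ∑ i, κ' (d i) * θ (b i)

end Pool.Agent.Lib.MP_211349_ag
end
end

section

/-!
# Composites of fields and tensor products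
-/

open Polynomial TensorProduct

universe u

noncomputable section

namespace Pool.Agent.Lib.MP_211349_ag

section tensor

variable {K L K' L' : Type u} [Field K] [CommRing L] [Field K'] [Field L'] [Algebra K L]
  [Algebra K K'] [Algebra K' L'] [Algebra L L'] [Algebra K L'] [IsScalarTower K K' L']
  [IsScalarTower K L L']

-- BEGIN FR1
/-- (FR1) Linear disjointness in terms of the tensor product. Write `x` as a finite sum of `c_i ⊗ b_i` with
`b_i` in a basis of the vector space `L` over `K` (`TensorProduct.equivFinsuppOfBasisRight` or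
`Algebra.TensorProduct.basis`), index the finite set by `Fin n`; the image of `x` is
`∑ algebraMap (c_i) * algebraMap (b_i)`; use `h.lin`. -/
theorem FracExt.tensor_injective
    (h : FracExt (algebraMap K L) (algebraMap K' L') (algebraMap K K') (algebraMap L L')) :
    Function.Injective (Algebra.TensorProduct.lift (Algebra.ofId K' L')
      (IsScalarTower.toAlgHom K L L') (fun _ _ => Commute.all _ _) : K' ⊗[K] L →ₐ[K'] L') := by
  rw [injective_iff_map_eq_zero]
  intro x hx
  obtain ⟨f, rfl⟩ := TensorProduct.eq_repr_basis_right (Module.Free.chooseBasis K L) x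
  have himg : ∑ i ∈ f.support, algebraMap K' L' (f i) *
      algebraMap L L' (Module.Free.chooseBasis K L i) = 0 := by
    rw [← hx, Finsupp.sum, map_sum]
    refine Finset.sum_congr rfl fun i _ => ?_
    rw [Algebra.TensorProduct.lift_tmul]
    rfl
  have e := f.support.equivFin
  have hsum : ∑ j : Fin f.support.card, algebraMap K' L' (f (e.symm j)) *
      algebraMap L L' (Module.Free.chooseBasis K L (e.symm j)) = 0 := by
    rw [← himg, ← Finset.sum_coe_sort f.support]
    exact Equiv.sum_comp e.symm (fun i : f.support => algebraMap K' L' (f i) *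
      algebraMap L L' (Module.Free.chooseBasis K L i))
  have hli : LinearIndependent K (fun j : Fin f.support.card =>
      Module.Free.chooseBasis K L (e.symm j)) :=
    (Module.Free.chooseBasis K L).linearIndependent.comp (fun j => ((e.symm j : f.support) : _))
      (Subtype.val_injective.comp e.symm.injective)
  have h0 := h.lin _ (fun j => Module.Free.chooseBasis K L (e.symm j)) (by
    intro c hc j
    refine Fintype.linearIndependent_iff.1 hli c ?_ j
    rw [← hc]
    refine Finset.sum_congr rfl fun i _ => ?_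
    rw [Algebra.smul_def]) (fun j => f (e.symm j)) hsum
  have hf : f = 0 := by
    ext i
    by_contra hi
    have hi' : i ∈ f.support := Finsupp.mem_support_iff.2 hi
    have h1 := h0 (e ⟨i, hi'⟩)
    rw [Equiv.symm_apply_apply] at h1
    exact hi h1
  rw [hf, Finsupp.sum_zero_index]
-- END FR1

-- BEGIN FR2
private theorem FR2_repr (x : K' ⊗[K] L) : ∃ (n : ℕ) (c : Fin n → K') (b : Fin n → L),
    x = ∑ i, c i ⊗ₜ[K] b i := by
  induction x with
  | zero => exact ⟨0, Fin.elim0, Fin.elim0, by simp⟩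
  | tmul c b => exact ⟨1, fun _ => c, fun _ => b, by simp⟩
  | add x y hx hy =>
    obtain ⟨n, c, b, rfl⟩ := hx
    obtain ⟨m, c', b', rfl⟩ := hy
    refine ⟨n + m, Fin.append c c', Fin.append b b', ?_⟩
    rw [Fin.sum_univ_add]
    simp

/-- (FR2) The converse of (FR1): linearly independent families of `L` over `K` give linearly
independent families `1 ⊗ b_i` of `K' ⊗ L` over `K'` (`LinearIndependent.baseChange` or similar), and the elements of
`K' ⊗ L` are sums `∑ c_i ⊗ b_i`; for `frac` take the concatenation of the two families. -/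
theorem fracExt_of_tensor
    (hinj : Function.Injective (Algebra.TensorProduct.lift (Algebra.ofId K' L')
      (IsScalarTower.toAlgHom K L L') (fun _ _ => Commute.all _ _) : K' ⊗[K] L →ₐ[K'] L'))
    (hfrac : ∀ z : L', ∃ a b : K' ⊗[K] L,
      (Algebra.TensorProduct.lift (Algebra.ofId K' L')
        (IsScalarTower.toAlgHom K L L') (fun _ _ => Commute.all _ _) : K' ⊗[K] L →ₐ[K'] L') b ≠ 0 ∧
      z = (Algebra.TensorProduct.lift (Algebra.ofId K' L')
        (IsScalarTower.toAlgHom K L L') (fun _ _ => Commute.all _ _) : K' ⊗[K] L →ₐ[K'] L') a /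
        (Algebra.TensorProduct.lift (Algebra.ofId K' L')
        (IsScalarTower.toAlgHom K L L') (fun _ _ => Commute.all _ _) : K' ⊗[K] L →ₐ[K'] L') b) :
    FracExt (algebraMap K L) (algebraMap K' L') (algebraMap K K') (algebraMap L L') := by
  set Λ : K' ⊗[K] L →ₐ[K'] L' := Algebra.TensorProduct.lift (Algebra.ofId K' L')
      (IsScalarTower.toAlgHom K L L') (fun _ _ => Commute.all _ _) with hΛ
  have hΛt : ∀ (c : K') (b : L), Λ (c ⊗ₜ[K] b) = algebraMap K' L' c * algebraMap L L' b := by
    intro c b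
    rw [hΛ, Algebra.TensorProduct.lift_tmul]
    rfl
  refine ⟨fun a => ?_, fun n b hb c hc => ?_, fun z => ?_⟩
  · rw [← IsScalarTower.algebraMap_apply, ← IsScalarTower.algebraMap_apply]
  · have h1 : LinearIndependent K b := by
      rw [Fintype.linearIndependent_iff]
      intro g hg
      apply hb g
      simpa [Algebra.smul_def] using hg
    have h2 := Module.Flat.linearIndependent_one_tmul (S := K') h1
    rw [Fintype.linearIndependent_iff] at h2
    apply h2 c
    apply hinj
    rw [map_zero, map_sum, ← hc]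
    refine Finset.sum_congr rfl fun i _ => ?_
    rw [map_smul, hΛt, Algebra.smul_def, map_one, one_mul]
  · obtain ⟨a, b, hb, hz⟩ := hfrac z
    obtain ⟨n, c, u, rfl⟩ := FR2_repr a
    obtain ⟨m, d, w, rfl⟩ := FR2_repr b
    refine ⟨n + m, Fin.append c 0, Fin.append 0 d, Fin.append u w, ?_, ?_⟩
    · rw [Fin.sum_univ_add]
      simpa [map_sum, hΛt] using hb
    · rw [Fin.sum_univ_add, Fin.sum_univ_add]
      simpa [map_sum, hΛt] using hz
-- END FR2

end tensor

section model

variable {R S A K L K' L' : Type u} [CommRing R] [CommRing S] [CommRing A] [Field K] [CommRing L]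
  [Field K'] [Field L'] [Algebra R K] [IsFractionRing R K] [Algebra S K'] [Algebra R S]
  [Algebra R A] {κ : K →+* L} {κ' : K' →+* L'} {σ : K →+* K'} {θ : L →+* L'}

-- BEGIN FR3
private theorem FR3_repr {R K' A : Type u} [CommRing R] [CommRing K'] [CommRing A] [Algebra R K']
    [Algebra R A] (x : K' ⊗[R] A) : ∃ (n : ℕ) (c : Fin n → K') (b : Fin n → A),
    x = ∑ i, c i ⊗ₜ[R] b i := by
  induction x with
  | zero => exact ⟨0, Fin.elim0, Fin.elim0, by simp⟩
  | tmul c b => exact ⟨1, fun _ => c, fun _ => b, by simp⟩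
  | add x y hx hy =>
    obtain ⟨n, c, b, rfl⟩ := hx
    obtain ⟨m, c', b', rfl⟩ := hy
    refine ⟨n + m, Fin.append c c', Fin.append b b', ?_⟩
    rw [Fin.sum_univ_add]
    simp

private theorem FR3_aux [Algebra R K'] (hRK : ∀ r : R, algebraMap R K' r = σ (algebraMap R K r))
    (h : FracExt κ κ' σ θ) (φ : A →+* L) (hφ : Function.Injective φ)
    (hφR : ∀ r : R, φ (algebraMap R A r) = κ (algebraMap R K r)) (n : ℕ) :
    ∀ (c : Fin n → K') (a : Fin n → A), ∑ i, κ' (c i) * θ (φ (a i)) = 0 →
      ∑ i, c i ⊗ₜ[R] a i = 0 := by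
  induction n with
  | zero => intro c a _; simp
  | succ n ih =>
    intro c a hc
    by_cases hi : ∀ k : Fin (n + 1) → K, ∑ i, κ (k i) * φ (a i) = 0 → ∀ i, k i = 0
    · have h1 := h.lin (n + 1) (fun i => φ (a i)) hi c hc
      simp [h1]
    · push Not at hi
      obtain ⟨k, hk, i0, hi0⟩ := hi
      obtain ⟨r, hr⟩ := IsLocalization.exist_integer_multiples_of_finite (nonZeroDivisors R) k
      choose q hq using hr
      haveI : Nontrivial R := (algebraMap R K).domain_nontrivial
      have hr0 : (r : R) ≠ 0 := nonZeroDivisors.coe_ne_zero r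
      have hinjK : Function.Injective (algebraMap R K) := IsFractionRing.injective R K
      have hrK : algebraMap R K r ≠ 0 := fun h0 => hr0 (hinjK (by rw [h0, map_zero]))
      have hq' : ∀ i, algebraMap R K (q i) = algebraMap R K r * k i := fun i => by
        rw [hq i, Algebra.smul_def]
      have hq0 : algebraMap R K (q i0) ≠ 0 := by
        rw [hq' i0]; exact mul_ne_zero hrK hi0
      have hsum : ∑ i, algebraMap R A (q i) * a i = 0 := by
        apply hφ
        rw [map_zero, map_sum]
        have : ∑ i, φ (algebraMap R A (q i) * a i) = κ (algebraMap R K r) * ∑ i, κ (k i) * φ (a i) := by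
          rw [Finset.mul_sum]
          refine Finset.sum_congr rfl fun i _ => ?_
          rw [map_mul, hφR, hq', map_mul, mul_assoc]
        rw [this, hk, mul_zero]
      have hρ : ∀ i, algebraMap R K' (q i) = σ (algebraMap R K (q i)) := fun i => hRK _
      have hρ0 : algebraMap R K' (q i0) ≠ 0 := by
        rw [hρ]
        intro h0
        exact hq0 (σ.injective (by rw [h0, map_zero]))
      -- the relation for the term i0
      have h3 : ∀ (e : K') (i : Fin (n + 1)), e ⊗ₜ[R] (algebraMap R A (q i) * a i) =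
          (e * algebraMap R K' (q i)) ⊗ₜ[R] a i := by
        intro e i
        rw [← Algebra.smul_def, TensorProduct.tmul_smul, TensorProduct.smul_tmul', Algebra.smul_def,
          mul_comm]
      have h4 : ∑ i, (c i0 / algebraMap R K' (q i0) * algebraMap R K' (q i)) ⊗ₜ[R] a i = 0 := by
        have : ∑ i, (c i0 / algebraMap R K' (q i0)) ⊗ₜ[R] (algebraMap R A (q i) * a i) = 0 := by
          rw [← TensorProduct.tmul_sum, hsum, TensorProduct.tmul_zero]
        rw [← this]
        exact Finset.sum_congr rfl fun i _ => (h3 _ i).symm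
      have h5 : ∑ i, c i ⊗ₜ[R] a i = ∑ j : Fin n, (c (i0.succAbove j) -
          c i0 / algebraMap R K' (q i0) * algebraMap R K' (q (i0.succAbove j))) ⊗ₜ[R]
            a (i0.succAbove j) := by
        have h6 : ∑ i, c i ⊗ₜ[R] a i = ∑ i, (c i -
          c i0 / algebraMap R K' (q i0) * algebraMap R K' (q i)) ⊗ₜ[R] a i := by
          have : ∑ i, (c i - c i0 / algebraMap R K' (q i0) * algebraMap R K' (q i)) ⊗ₜ[R] a i =
              ∑ i, c i ⊗ₜ[R] a i -
              ∑ i, (c i0 / algebraMap R K' (q i0) * algebraMap R K' (q i)) ⊗ₜ[R] a i := by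
            rw [← Finset.sum_sub_distrib]
            refine Finset.sum_congr rfl fun i _ => ?_
            rw [TensorProduct.sub_tmul]
          rw [this, h4, sub_zero]
        rw [h6, Fin.sum_univ_succAbove _ i0, div_mul_cancel₀ _ hρ0, sub_self,
          TensorProduct.zero_tmul, zero_add]
      rw [h5]
      apply ih
      have h7 : ∑ i, κ' (c i0 / algebraMap R K' (q i0) * algebraMap R K' (q i)) * θ (φ (a i)) =
          0 := by
        have : ∑ i, κ' (c i0 / algebraMap R K' (q i0) * algebraMap R K' (q i)) * θ (φ (a i)) =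
            κ' (c i0 / algebraMap R K' (q i0)) * θ (φ (∑ i, algebraMap R A (q i) * a i)) := by
          rw [map_sum, map_sum, Finset.mul_sum]
          refine Finset.sum_congr rfl fun i _ => ?_
          rw [map_mul κ', map_mul φ, map_mul θ, hφR, h.comm, ← hρ i, mul_assoc]
        rw [this, hsum, map_zero, map_zero, mul_zero]
      have h8 : ∑ i, κ' (c i - c i0 / algebraMap R K' (q i0) * algebraMap R K' (q i)) *
          θ (φ (a i)) = 0 := by
        have : ∑ i, κ' (c i - c i0 / algebraMap R K' (q i0) * algebraMap R K' (q i)) *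
          θ (φ (a i)) = ∑ i, κ' (c i) * θ (φ (a i)) -
            ∑ i, κ' (c i0 / algebraMap R K' (q i0) * algebraMap R K' (q i)) * θ (φ (a i)) := by
          rw [← Finset.sum_sub_distrib]
          refine Finset.sum_congr rfl fun i _ => ?_
          rw [map_sub, sub_mul]
        rw [this, hc, h7, sub_zero]
      rw [Fin.sum_univ_succAbove _ i0, div_mul_cancel₀ _ hρ0, sub_self, map_zero, zero_mul,
        zero_add] at h8
      exact h8

/-- (FR3) Linear disjointness for flat models. `S ⊗[R] A → K' ⊗[R] A` is injective since `A` is flat over `R`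
and `S → K'` is injective; `K' ⊗[R] A = K' ⊗[K] (K ⊗[R] A)`; `K ⊗[R] A → L` is injective: every element of `K ⊗[R] A`
is `r⁻¹ ⊗ a` with `r ≠ 0` (`IsLocalization`), its image is `κ(r)⁻¹ φ(a)`; tensor with `K'` over the field `K` (flat), then
use (FR1) (the algebra structures by `RingHom.toAlgebra`). The homomorphism `Φ` itself: `Algebra.TensorProduct.lift` for the
algebra structures given by `κ'`, `θ ∘ φ`. -/
theorem exists_model_hom (h : FracExt κ κ' σ θ) (hS : Function.Injective (algebraMap S K'))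
    (hRS : ∀ r : R, algebraMap S K' (algebraMap R S r) = σ (algebraMap R K r)) [Module.Flat R A]
    (φ : A →+* L) (hφ : Function.Injective φ)
    (hφR : ∀ r : R, φ (algebraMap R A r) = κ (algebraMap R K r)) :
    ∃ Φ : S ⊗[R] A →+* L', Function.Injective Φ ∧ (∀ s : S, Φ (s ⊗ₜ 1) = κ' (algebraMap S K' s)) ∧
      ∀ a : A, Φ (1 ⊗ₜ a) = θ (φ a) := by
  letI : Algebra R K' := (σ.comp (algebraMap R K)).toAlgebra
  letI : Algebra R L' := (κ'.comp (σ.comp (algebraMap R K))).toAlgebra
  have hRK : ∀ r : R, algebraMap R K' r = σ (algebraMap R K r) := fun r => rfl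
  have hRL : ∀ r : R, algebraMap R L' r = κ' (σ (algebraMap R K r)) := fun r => rfl
  haveI : IsScalarTower R S K' := IsScalarTower.of_algebraMap_eq fun r => by rw [hRK, hRS]
  let f : K' →ₐ[R] L' := { κ' with commutes' := fun r => rfl }
  have hg : ∀ r : R, θ (φ (algebraMap R A r)) = κ' (σ (algebraMap R K r)) := fun r => by
    rw [hφR, h.comm]
  let g : A →ₐ[R] L' := { θ.comp φ with commutes' := hg }
  let Ψ : K' ⊗[R] A →ₐ[R] L' := Algebra.TensorProduct.productMap f g
  have hΨ : ∀ (c : K') (a : A), Ψ (c ⊗ₜ a) = κ' c * θ (φ a) := fun c a => by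
    rw [Algebra.TensorProduct.productMap_apply_tmul]; rfl
  have hΨi : Function.Injective Ψ := by
    rw [injective_iff_map_eq_zero]
    intro x hx
    obtain ⟨n, c, a, rfl⟩ := FR3_repr x
    refine FR3_aux hRK h φ hφ hφR n c a ?_
    rw [← hx, map_sum]
    exact Finset.sum_congr rfl fun i _ => (hΨ _ _).symm
  let e : S ⊗[R] A →ₐ[R] K' ⊗[R] A :=
    Algebra.TensorProduct.map (IsScalarTower.toAlgHom R S K') (AlgHom.id R A)
  have he : Function.Injective e := by
    have h1 := Module.Flat.rTensor_preserves_injective_linearMap (M := A)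
      (IsScalarTower.toAlgHom R S K').toLinearMap (by
        intro x y hxy
        exact hS hxy)
    exact h1
  refine ⟨(Ψ.comp e).toRingHom, ?_, fun s => ?_, fun a => ?_⟩
  · exact hΨi.comp he
  · change Ψ (e (s ⊗ₜ 1)) = _
    rw [Algebra.TensorProduct.map_tmul, hΨ]
    simp
  · change Ψ (e (1 ⊗ₜ a)) = _
    rw [Algebra.TensorProduct.map_tmul, hΨ]
    simp
-- END FR3

-- BEGIN FR4
/-- (FR4) The field of fractions of a flat model: by `h.frac` every `z : L'` is a quotient of sums
`∑ κ'(c_i) θ(b_i)`; clear the (finitely many) denominators of the `c_i, d_i : K'` (fractions of `S`) and of the `b_i`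
(`φ(s_i) b_i = φ(a_i)` with `θ(φ(s_i)) ≠ 0`; multiply all by `θ(φ(∏ s_i))`). -/
theorem model_frac (h : FracExt κ κ' σ θ) [IsDomain S] [IsFractionRing S K'] (φ : A →+* L)
    (hL : ∀ z : L, ∃ a b : A, θ (φ b) ≠ 0 ∧ φ b * z = φ a) (Φ : S ⊗[R] A →+* L')
    (hΦ : ∀ s : S, Φ (s ⊗ₜ 1) = κ' (algebraMap S K' s)) (hΦ' : ∀ a : A, Φ (1 ⊗ₜ a) = θ (φ a))
    (z : L') : ∃ a b : S ⊗[R] A, Φ b ≠ 0 ∧ z = Φ a / Φ b := by
  have hadd : ∀ x y : L', (∃ a b : S ⊗[R] A, Φ b ≠ 0 ∧ x * Φ b = Φ a) →
      (∃ a b : S ⊗[R] A, Φ b ≠ 0 ∧ y * Φ b = Φ a) →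
      ∃ a b : S ⊗[R] A, Φ b ≠ 0 ∧ (x + y) * Φ b = Φ a := by
    rintro x y ⟨a, b, hb, h1⟩ ⟨a', b', hb', h2⟩
    refine ⟨a * b' + a' * b, b * b', by rw [map_mul]; exact mul_ne_zero hb hb', ?_⟩
    rw [map_mul, map_add, map_mul, map_mul, ← h1, ← h2]
    ring
  have hmul : ∀ x y : L', (∃ a b : S ⊗[R] A, Φ b ≠ 0 ∧ x * Φ b = Φ a) →
      (∃ a b : S ⊗[R] A, Φ b ≠ 0 ∧ y * Φ b = Φ a) →
      ∃ a b : S ⊗[R] A, Φ b ≠ 0 ∧ (x * y) * Φ b = Φ a := by
    rintro x y ⟨a, b, hb, h1⟩ ⟨a', b', hb', h2⟩
    refine ⟨a * a', b * b', by rw [map_mul]; exact mul_ne_zero hb hb', ?_⟩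
    rw [map_mul, map_mul, ← h1, ← h2]
    ring
  have hzero : ∃ a b : S ⊗[R] A, Φ b ≠ 0 ∧ (0 : L') * Φ b = Φ a :=
    ⟨0, 1, by rw [map_one]; exact one_ne_zero, by rw [map_zero, zero_mul]⟩
  have hκ : ∀ c : K', ∃ a b : S ⊗[R] A, Φ b ≠ 0 ∧ κ' c * Φ b = Φ a := by
    intro c
    obtain ⟨s, t, ht, rfl⟩ := IsFractionRing.div_surjective (A := S) c
    have ht0 : algebraMap S K' t ≠ 0 :=
      IsFractionRing.to_map_ne_zero_of_mem_nonZeroDivisors ht
    refine ⟨s ⊗ₜ 1, t ⊗ₜ 1, ?_, ?_⟩
    · rw [hΦ]
      exact (map_ne_zero κ').2 ht0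
    · rw [hΦ, hΦ, ← map_mul, div_mul_cancel₀ _ ht0]
  have hθ : ∀ b : L, ∃ a b' : S ⊗[R] A, Φ b' ≠ 0 ∧ θ b * Φ b' = Φ a := by
    intro b
    obtain ⟨a, s, hs, hab⟩ := hL b
    refine ⟨1 ⊗ₜ a, 1 ⊗ₜ s, ?_, ?_⟩
    · rw [hΦ']
      exact hs
    · rw [hΦ', hΦ', ← hab, map_mul, mul_comm]
  have hsum : ∀ (n : ℕ) (c : Fin n → K') (b : Fin n → L),
      ∃ a b' : S ⊗[R] A, Φ b' ≠ 0 ∧ (∑ i, κ' (c i) * θ (b i)) * Φ b' = Φ a := by
    intro n c b
    exact Finset.sum_induction (fun i => κ' (c i) * θ (b i))
      (fun x => ∃ a b' : S ⊗[R] A, Φ b' ≠ 0 ∧ x * Φ b' = Φ a) hadd hzero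
      (fun i _ => hmul _ _ (hκ (c i)) (hθ (b i)))
  obtain ⟨n, c, d, b, hd, rfl⟩ := h.frac z
  obtain ⟨a₁, b₁, hb₁, h1⟩ := hsum n c b
  obtain ⟨a₂, b₂, hb₂, h2⟩ := hsum n d b
  have ha₂ : Φ a₂ ≠ 0 := by
    rw [← h2]
    exact mul_ne_zero hd hb₂
  refine ⟨a₁ * b₂, a₂ * b₁, by rw [map_mul]; exact mul_ne_zero ha₂ hb₁, ?_⟩
  rw [map_mul, map_mul, ← h1, ← h2]
  field_simp
-- END FR4

end model

section etale

variable (R S A : Type u) [CommRing R] [CommRing S] [CommRing A] [Algebra R S] [Algebra R A]
  [Algebra R[X] A] [IsScalarTower R R[X] A] [Algebra.IsStandardEtale R[X] A]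

-- BEGIN FR5
/-- (FR5) Base change of a standard étale algebra over a polynomial ring: `S ⊗[R] A = S[X] ⊗[R[X]] A`
(`Algebra.IsPushout` for `R → R[X]`, `S → S[X]`, or transport the standard étale presentation by hand), and base change of
standard étale algebras (Mathlib.RingTheory.Etale.StandardEtale; compare `M5_transfer` and `chart_polynomial` in
M/Alg.lean). -/
theorem exists_standardEtale_baseChange :
    ∃ (_ : Algebra S[X] (S ⊗[R] A)), IsScalarTower S S[X] (S ⊗[R] A) ∧
      Algebra.IsStandardEtale S[X] (S ⊗[R] A) ∧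
      algebraMap S[X] (S ⊗[R] A) X = 1 ⊗ₜ algebraMap R[X] A X := by
  let alg : Algebra R[X] S[X] := Polynomial.algebra R S
  let e := Algebra.IsPushout.cancelBaseChangeAlg R S R[X] S[X] A
  let a : Algebra S[X] (S ⊗[R] A) :=
    ((e : (S[X] ⊗[R[X]] A) →+* (S ⊗[R] A)).comp
      (algebraMap S[X] (S[X] ⊗[R[X]] A))).toAlgebra
  let e' : (S[X] ⊗[R[X]] A) ≃ₐ[S[X]] (S ⊗[R] A) :=
    AlgEquiv.ofRingEquiv (f := e.toRingEquiv) (fun _ => rfl)
  refine ⟨a, ?_, ?_, ?_⟩
  · refine IsScalarTower.of_algebraMap_eq (fun s => ?_)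
    have h1 : algebraMap S[X] (S ⊗[R] A) (algebraMap S S[X] s) =
      e (algebraMap S (S[X] ⊗[R[X]] A) s) := rfl
    rw [h1, e.commutes]
  · exact Algebra.IsStandardEtale.of_equiv e'
  · have h1 : algebraMap S[X] (S ⊗[R] A) X = e (X ⊗ₜ[R[X]] 1) := rfl
    have h2 : (X : S[X]) ⊗ₜ[R[X]] (1 : A) = 1 ⊗ₜ[R[X]] algebraMap R[X] A X := by
      have h3 : (X : S[X]) = (X : R[X]) • (1 : S[X]) := by
        rw [Algebra.smul_def, mul_one, Polynomial.algebraMap_def]
        simp
      rw [h3, TensorProduct.smul_tmul, Algebra.smul_def, mul_one]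
    rw [h1, h2]
    exact Algebra.IsPushout.cancelBaseChangeAlg_tmul R S R[X] S[X] A _
-- END FR5

end etale

end Pool.Agent.Lib.MP_211349_ag
end
end

section

/-!
# Integral standard étale charts of the special fibre
-/

open CategoryTheory Limits AlgebraicGeometry Polynomial

universe u

noncomputable section

namespace Pool.Agent.Lib.MP_211349_ag

/-- An open subscheme `Spec B` of the special fibre, where `B` is a domain and standard étale over
`k[X]`. -/
structure SpecialChart {K : Type u} [Field K] (O : ValuationSubring K) {X : Scheme.{u}}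
    (f : X ⟶ Spec (.of O)) where
  /-- the coordinate ring -/
  B : Type u
  [ring : CommRing B]
  [domain : IsDomain B]
  [alg : Algebra (IsLocalRing.ResidueField O) B]
  [algP : Algebra (IsLocalRing.ResidueField O)[X] B]
  [tower : IsScalarTower (IsLocalRing.ResidueField O) (IsLocalRing.ResidueField O)[X] B]
  [std : Algebra.IsStandardEtale (IsLocalRing.ResidueField O)[X] B]
  /-- the open immersion -/
  j : Spec (.of B) ⟶ specialFibre O f
  [op : IsOpenImmersion j]
  hj : j ≫ pullback.snd f (resPt O) =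
    Spec.map (CommRingCat.ofHom (algebraMap (IsLocalRing.ResidueField O) B))

attribute [instance] SpecialChart.ring SpecialChart.domain SpecialChart.alg SpecialChart.algP
  SpecialChart.tower SpecialChart.std SpecialChart.op

/-- Charts are transported by isomorphisms of the special fibres. -/
def SpecialChart.trans {K : Type u} [Field K] {O : ValuationSubring K} {X Y : Scheme.{u}}
    {f : X ⟶ Spec (.of O)} {g : Y ⟶ Spec (.of O)} (c : SpecialChart O f)
    (e : specialFibre O f ≅ specialFibre O g)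
    (he : e.hom ≫ pullback.snd g (resPt O) = pullback.snd f (resPt O)) : SpecialChart O g where
  B := c.B
  j := c.j ≫ e.hom
  hj := by rw [Category.assoc, he, c.hj]

end Pool.Agent.Lib.MP_211349_ag
end
end

section

/-!
# Solutions in residue fields
-/

open Polynomial

universe u

noncomputable section

namespace Pool.Agent.Lib.MP_211349_ag

variable {K L : Type u} [Field K] [Field L] [Algebra K L] {O : ValuationSubring K}
  {v : ValuationSubring L}

-- BEGIN SR1
private theorem SR1_comp1 (hv : Over O v) :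
    v.subtype.comp (valHom (algebraMap K L) hv) = (algebraMap K L).comp O.subtype := by
  ext a
  rfl

private theorem SR1_comp2 (hv : Over O v) :
    (IsLocalRing.residue v).comp (valHom (algebraMap K L) hv) =
      (resMap hv).comp (IsLocalRing.residue O) := by
  ext a
  rfl

private theorem SR1_eval (hv : Over O v) (G : O[X][X]) (x y : v) :
    evalAt ((algebraMap K L).comp O.subtype) G (x : L) (y : L) ∈ v.nonunits ↔
      evalAt ((resMap hv).comp (IsLocalRing.residue O)) G (IsLocalRing.residue v x)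
        (IsLocalRing.residue v y) = 0 := by
  have h1 : evalAt ((algebraMap K L).comp O.subtype) G (x : L) (y : L) =
      ((evalAt (valHom (algebraMap K L) hv) G x y : v) : L) := by
    rw [← SR1_comp1 hv]
    exact (map_evalAt v.subtype (valHom (algebraMap K L) hv) G x y).symm
  have h2 : evalAt ((resMap hv).comp (IsLocalRing.residue O)) G (IsLocalRing.residue v x)
        (IsLocalRing.residue v y) =
      IsLocalRing.residue v (evalAt (valHom (algebraMap K L) hv) G x y) := by
    rw [← SR1_comp2 hv]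
    exact (map_evalAt (IsLocalRing.residue v) (valHom (algebraMap K L) hv) G x y).symm
  rw [h1, h2, ValuationSubring.coe_mem_nonunits_iff, IsLocalRing.residue_eq_zero_iff]

private theorem SR1_sub (hv : Over O v) (x : v) (a : O) :
    (x : L) - algebraMap K L a ∈ v.nonunits ↔
      IsLocalRing.residue v x = resMap hv (IsLocalRing.residue O a) := by
  have h1 : (x : L) - algebraMap K L a = ((x - valHom (algebraMap K L) hv a : v) : L) := rfl
  rw [h1, ValuationSubring.coe_mem_nonunits_iff, ← IsLocalRing.residue_eq_zero_iff, map_sub,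
    sub_eq_zero]
  rfl

/-- (SR1) `Sol` in terms of the residue field (`map_evalAt` for `v.subtype` and for the residue map; `evalAt` of elements of `v` with
coefficients in `O` is in `v`: it is the image of `evalAt (valHom ..) G x y` for `x, y : v`). -/
theorem sol_iff_residue (hv : Over O v) (G : O[X][X]) :
    Sol O v G ↔ ∃ x y : IsLocalRing.ResidueField v,
      (∀ a : IsLocalRing.ResidueField O, x ≠ resMap hv a) ∧
      evalAt ((resMap hv).comp (IsLocalRing.residue O)) G x y = 0 := by
  constructor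
  · rintro ⟨x, y, ⟨hx, hx'⟩, hy, h⟩
    refine ⟨IsLocalRing.residue v ⟨x, hx⟩, IsLocalRing.residue v ⟨y, hy⟩, ?_,
      (SR1_eval hv G ⟨x, hx⟩ ⟨y, hy⟩).1 h⟩
    intro a ha
    obtain ⟨a', rfl⟩ := IsLocalRing.residue_surjective a
    exact hx' a' a'.2 ((SR1_sub hv ⟨x, hx⟩ a').2 ha)
  · rintro ⟨x, y, hx, h⟩
    obtain ⟨x', rfl⟩ := IsLocalRing.residue_surjective x
    obtain ⟨y', rfl⟩ := IsLocalRing.residue_surjective y
    refine ⟨x', y', ⟨x'.2, ?_⟩, y'.2, (SR1_eval hv G x' y').2 h⟩
    intro a ha h'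
    exact hx (IsLocalRing.residue O ⟨a, ha⟩) ((SR1_sub hv x' ⟨a, ha⟩).1 h')
-- END SR1

-- BEGIN SR2
/-- (SR2) A composite with `K' = K` (`σ` surjective) is the field of fractions of the image of `L`. -/
theorem FracExt.fraction {K L K' L' : Type u} [Field K] [CommRing L] [IsDomain L] [Field K']
    [Field L'] {κ : K →+* L} {κ' : K' →+* L'} {σ : K →+* K'} {θ : L →+* L'}
    (h : FracExt κ κ' σ θ) (hσ : Function.Surjective σ) :
    Function.Injective θ ∧ ∀ z : L', ∃ a b : L, θ b ≠ 0 ∧ z = θ a / θ b := by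
  refine ⟨?_, fun z => ?_⟩
  · rw [injective_iff_map_eq_zero]
    intro a ha
    by_contra hne
    have h1 := h.lin 1 (fun _ => a) (fun c hc i => ?_) (fun _ => 1) (by simp [ha]) 0
    · exact one_ne_zero h1
    · rw [Finset.univ_unique, Finset.sum_singleton] at hc
      rcases mul_eq_zero.mp hc with h2 | h2
      · have h3 := (injective_iff_map_eq_zero κ).mp κ.injective _ h2
        rw [Subsingleton.elim i default]
        exact h3
      · exact absurd h2 hne
  · obtain ⟨n, c, d, b, h0, hz⟩ := h.frac z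
    have key : ∀ c : Fin n → K', ∃ a : L, θ a = ∑ i, κ' (c i) * θ (b i) := by
      intro c
      choose c' hc' using fun i => hσ (c i)
      refine ⟨∑ i, κ (c' i) * b i, ?_⟩
      rw [map_sum]
      refine Finset.sum_congr rfl fun i _ => ?_
      rw [map_mul, h.comm, hc']
    obtain ⟨a, ha⟩ := key c
    obtain ⟨b', hb'⟩ := key d
    exact ⟨a, b', by rw [hb']; exact h0, by rw [hz, ha, hb']⟩
-- END SR2

-- BEGIN SR3
/-- (SR3) -/
theorem FracExt.refl {K L : Type u} [Field K] [Field L] (κ : K →+* L) :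
    FracExt κ κ (RingHom.id K) (RingHom.id L) := by
  refine ⟨fun a => rfl, fun n b h c hc => h c hc, fun z => ?_⟩
  refine ⟨2, ![1, 0], ![0, 1], ![z, 1], ?_, ?_⟩
  · simp
  · simp
-- END SR3

end Pool.Agent.Lib.MP_211349_ag
end
end
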