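import Mathlib

section

/-!
# Coordinates at an ordinary double point
-/

universe u

namespace Pool.Agent.Lib.MP_211349_ag

open IsLocalRing

-- BEGIN ND1
/-- (ND1) A power series in two variables with constant coefficient `0` is in the ideal generated by the variables. -/
theorem mem_span_X_of_constantCoeff {k : Type u} [Field k] (F : MvPowerSeries (Fin 2) k)
    (h : MvPowerSeries.constantCoeff F = 0) :
    F ∈ Ideal.span {(MvPowerSeries.X 0 : MvPowerSeries (Fin 2) k), MvPowerSeries.X 1} := by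
  classical
  let F1 : MvPowerSeries (Fin 2) k := fun m => if m 0 = 0 then 0 else MvPowerSeries.coeff m F
  have hF1 : ∀ m, MvPowerSeries.coeff m F1 = if m 0 = 0 then 0 else MvPowerSeries.coeff m F :=
    fun m => rfl
  have h1 : (MvPowerSeries.X 0 : MvPowerSeries (Fin 2) k) ∣ F1 := by
    rw [MvPowerSeries.X_dvd_iff]
    intro m hm
    rw [hF1, if_pos hm]
  have h2 : (MvPowerSeries.X 1 : MvPowerSeries (Fin 2) k) ∣ F - F1 := by
    rw [MvPowerSeries.X_dvd_iff]
    intro m hm
    rw [map_sub, hF1]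
    by_cases h0 : m 0 = 0
    · have hm0 : m = 0 := by
        ext i
        fin_cases i
        · exact h0
        · exact hm
      rw [if_pos h0, sub_zero, hm0, MvPowerSeries.coeff_zero_eq_constantCoeff_apply, h]
    · rw [if_neg h0, sub_self]
  obtain ⟨G, hG⟩ := h1
  obtain ⟨H, hH⟩ := h2
  rw [Ideal.mem_span_pair]
  refine ⟨G, H, ?_⟩
  rw [mul_comm G, mul_comm H, ← hG, ← hH]
  ring
-- END ND1

-- BEGIN ND2
/-- Evaluations of an element of the completion at different levels. -/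
private theorem ND2_compat {R : Type u} [CommRing R] (I : Ideal R) (r : AdicCompletion I R)
    {m n : ℕ} (h : m ≤ n) (x : R)
    (hx : AdicCompletion.evalₐ I n r = Ideal.Quotient.mk (I ^ n) x) :
    AdicCompletion.evalₐ I m r = Ideal.Quotient.mk (I ^ m) x := by
  obtain ⟨s, rfl⟩ := AdicCompletion.mk_surjective I R r
  rw [AdicCompletion.evalₐ_mk] at hx ⊢
  rw [Ideal.Quotient.eq] at hx ⊢
  have h1 : (s.val m : R) - s.val n ∈ I ^ m := by
    have h2 := s.property h
    rw [SModEq.sub_mem] at h2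
    simpa using h2
  have h3 : (s.val n : R) - x ∈ I ^ m := Ideal.pow_le_pow_right h hx
  have h4 := (I ^ m).add_mem h1 h3
  rwa [sub_add_sub_cancel] at h4

/-- `node_data` for an ideal equal to the maximal ideal. -/
private theorem ND2_aux {k R : Type u} [Field k] [CommRing R] [IsLocalRing R] (m : Ideal R)
    (hm : m = maximalIdeal R) (hfg : m.FG) (ι : k →+* R)
    (e : AdicCompletion m R ≃+* (MvPowerSeries (Fin 2) k ⧸
      Ideal.span {(MvPowerSeries.X 0 * MvPowerSeries.X 1 : MvPowerSeries (Fin 2) k)}))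
    (he : ∀ a : k, e (algebraMap R _ (ι a)) = Ideal.Quotient.mk _ (MvPowerSeries.C a)) :
    ∃ x y : R, m = Ideal.span {x, y} ∧ x * y ∈ m ^ 3 ∧ ∀ r : R, ∃ a : k, r - ι a ∈ m := by
  have hne : m ≠ ⊤ := by
    rw [hm]
    exact Ideal.IsPrime.ne_top inferInstance
  let q : MvPowerSeries (Fin 2) k →+* (MvPowerSeries (Fin 2) k ⧸
      Ideal.span {(MvPowerSeries.X 0 * MvPowerSeries.X 1 : MvPowerSeries (Fin 2) k)}) :=
    Ideal.Quotient.mk _
  let g : MvPowerSeries (Fin 2) k →+* AdicCompletion m R := e.symm.toRingHom.comp q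
  have hg : ∀ F, e (g F) = q F := fun F => e.apply_symm_apply _
  have hgs : Function.Surjective g := e.symm.surjective.comp Ideal.Quotient.mk_surjective
  have hgC : ∀ a : k, g (MvPowerSeries.C a) = algebraMap R _ (ι a) := fun a => by
    apply e.injective
    rw [hg, he]
  have hgXY : g (MvPowerSeries.X 0) * g (MvPowerSeries.X 1) = 0 := by
    rw [← map_mul]
    apply e.injective
    rw [hg, map_zero]
    exact Ideal.Quotient.eq_zero_iff_mem.2 (Ideal.subset_span rfl)
  -- evaluations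
  let ev : ∀ n : ℕ, AdicCompletion m R →ₐ[R] R ⧸ m ^ n := fun n => AdicCompletion.evalₐ m n
  have hev : ∀ (n : ℕ) (r : R), ev n (algebraMap R _ r) = Ideal.Quotient.mk (m ^ n) r := fun n r =>
    (ev n).commutes r
  have hm1 : m ^ 1 = m := pow_one m
  have hnt : Nontrivial (R ⧸ m ^ 1) := by
    rw [hm1]
    exact Ideal.Quotient.nontrivial_iff.2 hne
  -- power series without constant term are mapped to the kernel of the first evaluation
  have hker : ∀ F, ev 1 (g F) = 0 → MvPowerSeries.constantCoeff F = 0 := by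
    intro F hF
    by_contra hc
    have hu : IsUnit (ev 1 (g F)) :=
      ((MvPowerSeries.isUnit_iff_constantCoeff.2 (isUnit_iff_ne_zero.2 hc)).map g).map (ev 1)
    rw [hF] at hu
    exact not_isUnit_zero hu
  have hker' : ∀ F, MvPowerSeries.constantCoeff F = 0 → ev 1 (g F) = 0 := by
    intro F hF
    by_contra hc
    obtain ⟨r, hr⟩ := Ideal.Quotient.mk_surjective (ev 1 (g F))
    have hrm : r ∉ m := by
      intro h
      apply hc
      rw [← hr]
      rw [← hm1] at h
      exact Ideal.Quotient.eq_zero_iff_mem.2 h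
    have hru : IsUnit r := by
      by_contra h
      apply hrm
      rw [hm]
      exact h
    obtain ⟨s, hs⟩ := hru.exists_right_inv
    -- `1 - s F` is a unit with image `0`
    obtain ⟨G, hG⟩ := hgs (algebraMap R _ s)
    have hu : IsUnit (ev 1 (g (1 - G * F))) := by
      refine ((MvPowerSeries.isUnit_iff_constantCoeff.2 ?_).map g).map (ev 1)
      rw [map_sub, map_mul, hF, mul_zero, sub_zero, map_one]
      exact isUnit_one
    rw [map_sub, map_mul, hG, map_sub, map_mul, hev, ← hr, map_one, map_one, ← map_mul,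
      mul_comm s r, hs, map_one, sub_self] at hu
    exact not_isUnit_zero hu
  -- generators of the kernel
  have hgen : ∀ r : AdicCompletion m R, ev 1 r = 0 → ∃ α β : AdicCompletion m R,
      r = α * g (MvPowerSeries.X 0) + β * g (MvPowerSeries.X 1) := by
    intro r hr
    obtain ⟨F, rfl⟩ := hgs r
    obtain ⟨α, β, h⟩ := Ideal.mem_span_pair.1 (mem_span_X_of_constantCoeff F (hker F hr))
    exact ⟨g α, g β, by rw [← h, map_add, map_mul, map_mul]⟩
  obtain ⟨x, hx⟩ := Ideal.Quotient.mk_surjective (ev 3 (g (MvPowerSeries.X 0)))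
  obtain ⟨y, hy⟩ := Ideal.Quotient.mk_surjective (ev 3 (g (MvPowerSeries.X 1)))
  have hx1 := ND2_compat m _ (by norm_num : 1 ≤ 3) x hx.symm
  have hy1 := ND2_compat m _ (by norm_num : 1 ≤ 3) y hy.symm
  have hx2 := ND2_compat m _ (by norm_num : 2 ≤ 3) x hx.symm
  have hy2 := ND2_compat m _ (by norm_num : 2 ≤ 3) y hy.symm
  have hmem1 : ∀ r : R, Ideal.Quotient.mk (m ^ 1) r = 0 → r ∈ m := by
    intro r h
    rw [Ideal.Quotient.eq_zero_iff_mem, hm1] at h
    exact h
  have hxm : x ∈ m := by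
    apply hmem1
    rw [← hx1]
    exact hker' _ (MvPowerSeries.constantCoeff_X 0)
  have hym : y ∈ m := by
    apply hmem1
    rw [← hy1]
    exact hker' _ (MvPowerSeries.constantCoeff_X 1)
  refine ⟨x, y, ?_, ?_, ?_⟩
  · apply le_antisymm
    · have hle : m ≤ Ideal.span {x, y} ⊔ m • m := by
        intro r hr
        have h1 : ev 1 (algebraMap R _ r) = 0 := by
          rw [hev, Ideal.Quotient.eq_zero_iff_mem, hm1]
          exact hr
        obtain ⟨α, β, h⟩ := hgen _ h1
        obtain ⟨a, ha⟩ := Ideal.Quotient.mk_surjective (ev 2 α)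
        obtain ⟨b, hb⟩ := Ideal.Quotient.mk_surjective (ev 2 β)
        have h2 := congrArg (ev 2) h
        rw [hev, map_add, map_mul, map_mul, ← ha, ← hb] at h2
        have hx2' : ev 2 (g (MvPowerSeries.X 0)) = Ideal.Quotient.mk (m ^ 2) x := hx2
        have hy2' : ev 2 (g (MvPowerSeries.X 1)) = Ideal.Quotient.mk (m ^ 2) y := hy2
        rw [hx2', hy2', ← map_mul, ← map_mul, ← map_add, Ideal.Quotient.eq] at h2
        have h3 : r = (a * x + b * y) + (r - (a * x + b * y)) := by ring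
        rw [h3]
        refine Submodule.add_mem_sup ?_ ?_
        · exact Ideal.add_mem _ (Ideal.mul_mem_left _ _ (Ideal.subset_span (by simp)))
            (Ideal.mul_mem_left _ _ (Ideal.subset_span (by simp)))
        · rw [smul_eq_mul, ← pow_two]
          exact h2
      refine Submodule.le_of_le_smul_of_le_jacobson_bot hfg ?_ hle
      rw [hm]
      exact (IsLocalRing.jacobson_eq_maximalIdeal ⊥ bot_ne_top).ge
    · rw [Ideal.span_le]
      rintro z (rfl | rfl)
      · exact hxm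
      · exact hym
  · have h := congrArg (ev 3) hgXY
    rw [map_mul, ← hx, ← hy, ← map_mul, map_zero, Ideal.Quotient.eq_zero_iff_mem] at h
    exact h
  · intro r
    obtain ⟨F, hF⟩ := hgs (algebraMap R _ r)
    refine ⟨MvPowerSeries.constantCoeff F, hmem1 _ ?_⟩
    rw [← hev, map_sub, ← hF, ← hgC, ← map_sub]
    apply hker'
    rw [map_sub, MvPowerSeries.constantCoeff_C, sub_self]

/-- (ND2) Coordinates at a node. Let `R'` be the completion, `Q = k[[X, Y]] / (X Y)` (a local ring, being a nonzero quotient of a local ring), `e : R' ≃ Q`,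
`π_n : R' → R / m ^ n` the (surjective) evaluations (`AdicCompletion.eval`, `AdicCompletion.evalₐ`, ..). `R' ≃ Q` is local, so its maximal ideal
is the kernel of `R' → R / m` (a maximal ideal), and corresponds by `e` to the ideal `(X, Y)` of `Q` (ND1). Choose `x, y : R` with the same
image in `R / m ^ 3` as `e⁻¹ X`, `e⁻¹ Y`. Then `x, y ∈ m`; `x y ∈ m ^ 3`; for `r ∈ m`, `e r = X α + Y β`, so `r ∈ (x, y) + m ^ 2` (apply `π_2`), and
`m = (x, y)` by Nakayama (`Submodule.le_of_le_smul_of_le_jacobson_bot` or similar); for `r : R`, `e r = C a + X α + Y β`, so `r - ι a ∈ m`. -/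
theorem node_data {k R : Type u} [Field k] [CommRing R] [IsLocalRing R]
    (hfg : (maximalIdeal R).FG) (ι : k →+* R)
    (e : AdicCompletion (maximalIdeal R) R ≃+* (MvPowerSeries (Fin 2) k ⧸
      Ideal.span {(MvPowerSeries.X 0 * MvPowerSeries.X 1 : MvPowerSeries (Fin 2) k)}))
    (he : ∀ a : k, e (algebraMap R _ (ι a)) = Ideal.Quotient.mk _ (MvPowerSeries.C a)) :
    ∃ x y : R, maximalIdeal R = Ideal.span {x, y} ∧ x * y ∈ maximalIdeal R ^ 3 ∧
      ∀ r : R, ∃ a : k, r - ι a ∈ maximalIdeal R :=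
  ND2_aux _ rfl hfg ι e he
-- END ND2

end Pool.Agent.Lib.MP_211349_ag
end

section

/-!
# Spreading out the coordinates at a node
-/

universe u

namespace Pool.Agent.Lib.MP_211349_ag

open IsLocalRing

-- BEGIN NC1
private theorem NC1_mem {A T : Type u} [CommRing A] [CommRing T] [IsLocalRing T] {q : Ideal A}
    {ρ : A →+* T} (hloc : ∀ a, IsUnit (ρ a) ↔ a ∉ q) (a : A) : ρ a ∈ maximalIdeal T ↔ a ∈ q := by
  rw [mem_maximalIdeal, mem_nonunits_iff, hloc, not_not]

private theorem NC1_one {A T : Type u} [CommRing A] [CommRing T] [IsLocalRing T] {q : Ideal A}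
    {ρ : A →+* T} (hloc : ∀ a, IsUnit (ρ a) ↔ a ∉ q) : (1 : A) ∉ q := by
  rw [← hloc, map_one]
  exact isUnit_one

private theorem NC1_mul {A : Type u} [CommRing A] {q : Ideal A} [hq : q.IsPrime] {a b : A}
    (ha : a ∉ q) (hb : b ∉ q) : a * b ∉ q := by
  intro h
  rcases hq.mem_or_mem h with h | h
  · exact ha h
  · exact hb h

/-- clearing denominators -/
private theorem NC1_clear {A T : Type u} [CommRing A] {q : Ideal A} [q.IsPrime] [CommRing T]
    [IsLocalRing T] {ρ : A →+* T} (hloc : ∀ a, IsUnit (ρ a) ↔ a ∉ q)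
    (hsurj : ∀ t, ∃ a s, s ∉ q ∧ t * ρ s = ρ a) (M : Ideal A)
    (hker : ∀ a, ρ a = 0 → ∃ s, s ∉ q ∧ s * a ∈ M) (I : Ideal A) (b : A)
    (hb : ρ b ∈ I.map ρ) : ∃ s, s ∉ q ∧ s * b ∈ I ⊔ M := by
  have key : ∀ t ∈ I.map ρ, ∃ s, s ∉ q ∧ ∃ i ∈ I, t * ρ s = ρ i := by
    intro t ht
    induction ht using Submodule.span_induction with
    | mem t ht =>
      obtain ⟨i, hi, rfl⟩ := ht
      exact ⟨1, NC1_one hloc, i, hi, by rw [map_one, mul_one]⟩
    | zero => exact ⟨1, NC1_one hloc, 0, I.zero_mem, by rw [zero_mul, map_zero]⟩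
    | add t₁ t₂ _ _ h₁ h₂ =>
      obtain ⟨s₁, hs₁, i₁, hi₁, e₁⟩ := h₁
      obtain ⟨s₂, hs₂, i₂, hi₂, e₂⟩ := h₂
      refine ⟨s₁ * s₂, NC1_mul hs₁ hs₂, s₂ * i₁ + s₁ * i₂,
        I.add_mem (I.mul_mem_left _ hi₁) (I.mul_mem_left _ hi₂), ?_⟩
      simp only [map_mul, map_add]
      rw [← e₁, ← e₂]
      ring
    | smul r t _ h =>
      obtain ⟨s, hs, i, hi, e⟩ := h
      obtain ⟨a', s', hs', e'⟩ := hsurj r
      refine ⟨s' * s, NC1_mul hs' hs, a' * i, I.mul_mem_left _ hi, ?_⟩
      simp only [map_mul, smul_eq_mul]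
      rw [← e, ← e']
      ring
  obtain ⟨s, hs, i, hi, e⟩ := key _ hb
  obtain ⟨s', hs', h⟩ := hker (s * b - i) (by
    rw [map_sub, map_mul, ← e]
    ring)
  refine ⟨s' * s, NC1_mul hs' hs, ?_⟩
  have h2 : s' * s * b = s' * i + s' * (s * b - i) := by ring
  rw [h2]
  exact Ideal.add_mem _ (Ideal.mem_sup_left (I.mul_mem_left _ hi)) (Ideal.mem_sup_right h)

private theorem NC1_sq {B : Type u} [CommRing B] {u v : B} {z : B}
    (hz : z ∈ (Ideal.span {u, v}) * (Ideal.span {u, v} : Ideal B)) :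
    ∃ α β γ : B, z = α * u ^ 2 + β * (u * v) + γ * v ^ 2 := by
  induction hz using Submodule.mul_induction_on' with
  | mem_mul_mem m hm n hn =>
    obtain ⟨a, b, rfl⟩ := Ideal.mem_span_pair.mp hm
    obtain ⟨c, d, rfl⟩ := Ideal.mem_span_pair.mp hn
    exact ⟨a * c, a * d + b * c, b * d, by ring⟩
  | add x _ y _ hx hy =>
    obtain ⟨a, b, c, e⟩ := hx
    obtain ⟨a', b', c', e'⟩ := hy
    exact ⟨a + a', b + b', c + c', by rw [e, e']; ring⟩

private theorem NC1_cube {B : Type u} [CommRing B] {u v : B} {z : B}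
    (hz : z ∈ (Ideal.span {u, v} : Ideal B) ^ 3) :
    ∃ α β γ δ : B, z = α * u ^ 3 + β * (u ^ 2 * v) + γ * (u * v ^ 2) + δ * v ^ 3 := by
  rw [show (3 : ℕ) = 2 + 1 from rfl, pow_succ, pow_two] at hz
  induction hz using Submodule.mul_induction_on' with
  | mem_mul_mem m hm n hn =>
    obtain ⟨a, b, e, rfl⟩ := NC1_sq hm
    obtain ⟨c, d, rfl⟩ := Ideal.mem_span_pair.mp hn
    exact ⟨a * c, a * d + b * c, b * d + e * c, e * d, by ring⟩
  | add x _ y _ hx hy =>
    obtain ⟨a, b, c, d, e⟩ := hx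
    obtain ⟨a', b', c', d', e'⟩ := hy
    exact ⟨a + a', b + b', c + c', d + d', by rw [e, e']; ring⟩

/-- the elements congruent to a constant -/
private def NC1_sub (O : Type u) {B : Type u} [CommRing O] [CommRing B] [Algebra O B]
    (J : Ideal B) : Subalgebra O B where
  carrier := {z | ∃ s : O, z - algebraMap O B s ∈ J}
  mul_mem' := by
    rintro a b ⟨s, hs⟩ ⟨t, ht⟩
    refine ⟨s * t, ?_⟩
    have : a * b - algebraMap O B (s * t) =
        b * (a - algebraMap O B s) + algebraMap O B s * (b - algebraMap O B t) := by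
      rw [map_mul]
      ring
    rw [this]
    exact J.add_mem (J.mul_mem_left _ hs) (J.mul_mem_left _ ht)
  add_mem' := by
    rintro a b ⟨s, hs⟩ ⟨t, ht⟩
    refine ⟨s + t, ?_⟩
    have : a + b - algebraMap O B (s + t) =
        (a - algebraMap O B s) + (b - algebraMap O B t) := by
      rw [map_add]
      ring
    rw [this]
    exact J.add_mem hs ht
  algebraMap_mem' := fun r => ⟨r, by rw [sub_self]; exact J.zero_mem⟩

private theorem NC1_all {O B : Type u} [CommRing O] [CommRing B] [Algebra O B] (J : Ideal B)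
    (S : Set B) (hS : Algebra.adjoin O S = ⊤) (h : ∀ x ∈ S, ∃ s : O, x - algebraMap O B s ∈ J)
    (z : B) : ∃ s : O, z - algebraMap O B s ∈ J := by
  have h1 : Algebra.adjoin O S ≤ NC1_sub O J := Algebra.adjoin_le h
  rw [hS] at h1
  exact h1 (Algebra.mem_top : z ∈ (⊤ : Subalgebra O B))

private theorem NC1_div {O B : Type u} [CommRing O] [IsDomain O] [ValuationRing O] [CommRing B]
    [Algebra O B] {z : B} (hz : z ∈ (maximalIdeal O).map (algebraMap O B)) :
    ∃ a ∈ maximalIdeal O, ∃ r, z = algebraMap O B a * r := by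
  induction hz using Submodule.span_induction with
  | mem t ht =>
    obtain ⟨a, ha, rfl⟩ := ht
    exact ⟨a, ha, 1, by rw [mul_one]⟩
  | zero => exact ⟨0, Ideal.zero_mem _, 0, by rw [mul_zero]⟩
  | add t₁ t₂ _ _ h₁ h₂ =>
    obtain ⟨a₁, ha₁, r₁, rfl⟩ := h₁
    obtain ⟨a₂, ha₂, r₂, rfl⟩ := h₂
    rcases ValuationRing.dvd_total a₁ a₂ with ⟨c, rfl⟩ | ⟨c, rfl⟩
    · exact ⟨a₁, ha₁, r₁ + algebraMap O B c * r₂, by rw [map_mul]; ring⟩
    · exact ⟨a₂, ha₂, algebraMap O B c * r₁ + r₂, by rw [map_mul]; ring⟩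
  | smul r t _ h =>
    obtain ⟨a, ha, r', rfl⟩ := h
    exact ⟨a, ha, r * r', by rw [smul_eq_mul]; ring⟩

private theorem NC1_fin {O B : Type u} [CommRing O] [IsDomain O] [ValuationRing O] [CommRing B]
    [Algebra O B] (F : Finset B) (hF : ∀ z ∈ F, z ∈ (maximalIdeal O).map (algebraMap O B)) :
    ∃ a ∈ maximalIdeal O, ∀ z ∈ F, ∃ r, z = algebraMap O B a * r := by
  classical
  induction F using Finset.induction_on with
  | empty => exact ⟨0, Ideal.zero_mem _, fun z hz => absurd hz (Finset.notMem_empty z)⟩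
  | insert w F _ ih =>
    obtain ⟨a₁, ha₁, h₁⟩ := ih (fun z hz => hF z (Finset.mem_insert_of_mem hz))
    obtain ⟨a₂, ha₂, r₂, h₂⟩ := NC1_div (hF w (Finset.mem_insert_self _ _))
    rcases ValuationRing.dvd_total a₁ a₂ with ⟨c, rfl⟩ | ⟨c, rfl⟩
    · refine ⟨a₁, ha₁, fun z hz => ?_⟩
      rcases Finset.mem_insert.mp hz with rfl | hz
      · exact ⟨algebraMap O B c * r₂, by rw [h₂, map_mul]; ring⟩
      · exact h₁ z hz
    · refine ⟨a₂, ha₂, fun z hz => ?_⟩
      rcases Finset.mem_insert.mp hz with rfl | hz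
      · exact ⟨r₂, h₂⟩
      · obtain ⟨r, hr⟩ := h₁ z hz
        exact ⟨algebraMap O B c * r, by rw [hr, map_mul]; ring⟩

/-- (NC1) Spreading out the coordinates at a node. `T` is the localization of `A ⧸ m A` at the prime ideal `q / m A`. Multiplying `x, y` by units we may take `x = ρ a₁`,
`y = ρ a₂`, `a₁, a₂ ∈ q`. (1) `A = O + q` by `hres`, and `m A ≤ q` by `hm`. (2) `A ⧸ m A` is of finite type over the field `O / m`, hence Noetherian: `q = (g_1, .., g_r) + m A`.
As `ρ g_i ∈ (ρ a₁, ρ a₂)`, clearing denominators (`hsurj`, `hker`) there are `s_i ∉ q` with `s_i g_i ∈ (a₁, a₂) A + m A`; similarly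
`s a₁ a₂ ∈ (a₁, a₂) ^ 3 A + m A` with `s ∉ q`. Let `h` be the product. In `A_h`: `q A_h = (a₁, a₂) A_h + m A_h` and `A_h = O + q A_h` (`h` is congruent modulo `q` to a unit
of `O`). (3) `A_h` is generated as an `O`-algebra by finitely many elements, each in `O + (a₁, a₂) A_h + m A_h`; let `a ∈ m` divide the (finitely many) elements
of `m` used for them and for the relation for `a₁ a₂` (`O` is a valuation ring). Then `O + (a₁, a₂, a) A_h` is a subring containing the
generators, hence everything. -/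
theorem spread_node {O A T : Type u} [CommRing O] [IsDomain O] [ValuationRing O] [CommRing A]
    [Algebra O A] [Algebra.FiniteType O A] (q : Ideal A) [q.IsPrime] [CommRing T] [IsLocalRing T]
    (ρ : A →+* T) (hloc : ∀ a, IsUnit (ρ a) ↔ a ∉ q)
    (hsurj : ∀ t, ∃ a s, s ∉ q ∧ t * ρ s = ρ a)
    (hker : ∀ a, ρ a = 0 → ∃ s, s ∉ q ∧ s * a ∈ (maximalIdeal O).map (algebraMap O A))
    (hm : ∀ c ∈ maximalIdeal O, ρ (algebraMap O A c) = 0) (x y : T)
    (hxy : maximalIdeal T = Ideal.span {x, y}) (hnode : x * y ∈ maximalIdeal T ^ 3)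
    (hres : ∀ t : T, ∃ c : O, t - ρ (algebraMap O A c) ∈ maximalIdeal T) :
    ∃ h : A, h ∉ q ∧ ∃ (a : O) (u v : Localization.Away h), a ∈ maximalIdeal O ∧
      u ∈ q.map (algebraMap A (Localization.Away h)) ∧
      v ∈ q.map (algebraMap A (Localization.Away h)) ∧
      (∀ z : Localization.Away h, ∃ (s : O) (p q r : Localization.Away h),
        z = algebraMap O (Localization.Away h) s + u * p + v * q +
          algebraMap O (Localization.Away h) a * r) ∧
      ∃ α β γ δ ε : Localization.Away h,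
        u * v = α * u ^ 3 + β * (u ^ 2 * v) + γ * (u * v ^ 2) + δ * v ^ 3 +
          algebraMap O (Localization.Away h) a * ε := by
  classical
  have hmem := NC1_mem hloc
  -- the coordinates
  obtain ⟨a₁, s₁, hs₁, e₁⟩ := hsurj x
  obtain ⟨a₂, s₂, hs₂, e₂⟩ := hsurj y
  have hu₁ : IsUnit (ρ s₁) := (hloc s₁).mpr hs₁
  have hu₂ : IsUnit (ρ s₂) := (hloc s₂).mpr hs₂
  have hxm : x ∈ maximalIdeal T := by rw [hxy]; exact Ideal.subset_span (by simp)
  have hym : y ∈ maximalIdeal T := by rw [hxy]; exact Ideal.subset_span (by simp)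
  have ha₁ : a₁ ∈ q := by rw [← hmem, ← e₁]; exact Ideal.mul_mem_right _ _ hxm
  have ha₂ : a₂ ∈ q := by rw [← hmem, ← e₂]; exact Ideal.mul_mem_right _ _ hym
  have hspan : maximalIdeal T = (Ideal.span {a₁, a₂}).map ρ := by
    rw [Ideal.map_span, Set.image_pair, ← e₁, ← e₂]
    apply le_antisymm
    · rw [hxy, Ideal.span_le, Set.insert_subset_iff, Set.singleton_subset_iff]
      constructor
      · have : x * ρ s₁ ∈ Ideal.span {x * ρ s₁, y * ρ s₂} := Ideal.subset_span (by simp)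
        exact (Ideal.mul_unit_mem_iff_mem _ hu₁).mp this
      · have : y * ρ s₂ ∈ Ideal.span {x * ρ s₁, y * ρ s₂} := Ideal.subset_span (by simp)
        exact (Ideal.mul_unit_mem_iff_mem _ hu₂).mp this
    · rw [Ideal.span_le, Set.insert_subset_iff, Set.singleton_subset_iff]
      exact ⟨Ideal.mul_mem_right _ _ hxm, Ideal.mul_mem_right _ _ hym⟩
  -- `m A ≤ q`, and constants
  have hmq : (maximalIdeal O).map (algebraMap O A) ≤ q := by
    rw [Ideal.map_le_iff_le_comap]
    intro c hc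
    rw [Ideal.mem_comap, ← hmem, hm c hc]
    exact Ideal.zero_mem _
  have hunit : ∀ c : O, algebraMap O A c ∉ q → IsUnit c := by
    intro c hc
    by_contra h
    exact hc (hmq (Ideal.mem_map_of_mem _ ((mem_maximalIdeal _).mpr h)))
  have hconst : ∀ c : O, algebraMap O A c ∈ q → c ∈ maximalIdeal O := by
    intro c hc
    rw [mem_maximalIdeal, mem_nonunits_iff]
    intro hu
    exact NC1_one hloc ((Ideal.eq_top_iff_one q).mp
      (Ideal.eq_top_of_isUnit_mem q hc (hu.map (algebraMap O A))))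
  have hdec : ∀ b : A, ∃ c : O, b - algebraMap O A c ∈ q := by
    intro b
    obtain ⟨c, hc⟩ := hres (ρ b)
    refine ⟨c, ?_⟩
    rw [← hmem, map_sub]
    exact hc
  choose cst hcst using hdec
  -- generators
  obtain ⟨S, hS⟩ : (⊤ : Subalgebra O A).FG := Algebra.FiniteType.out
  set Q : Ideal A := Ideal.span ((fun b : A => b - algebraMap O A (cst b)) '' (S : Set A)) ⊔
    (maximalIdeal O).map (algebraMap O A) with hQ
  have hQq : Q ≤ q := by
    rw [hQ]
    apply sup_le _ hmq
    rw [Ideal.span_le]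
    rintro _ ⟨b, _, rfl⟩
    exact hcst b
  have hqQ : q ≤ Q := by
    intro b hb
    obtain ⟨c, hc⟩ := NC1_all Q (S : Set A) hS (fun b hb => ⟨cst b, Ideal.mem_sup_left
      (Ideal.subset_span ⟨b, hb, rfl⟩)⟩) b
    have h1 : algebraMap O A c ∈ q := by
      have : algebraMap O A c = b - (b - algebraMap O A c) := by ring
      rw [this]
      exact q.sub_mem hb (hQq hc)
    have h2 : algebraMap O A c ∈ Q :=
      Ideal.mem_sup_right (Ideal.mem_map_of_mem _ (hconst c h1))
    have : b = (b - algebraMap O A c) + algebraMap O A c := by ring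
    rw [this]
    exact Q.add_mem hc h2
  -- denominators
  have hclear := NC1_clear hloc hsurj ((maximalIdeal O).map (algebraMap O A)) hker
  have hS1 : ∀ b : A, ∃ s, s ∉ q ∧ s * (b - algebraMap O A (cst b)) ∈
      Ideal.span {a₁, a₂} ⊔ (maximalIdeal O).map (algebraMap O A) := by
    intro b
    apply hclear
    rw [← hspan, hmem]
    exact hcst b
  choose den hden1 hden2 using hS1
  obtain ⟨s₃, hs₃, hs₃'⟩ := hclear (Ideal.span {a₁, a₂} ^ 3) (a₁ * a₂) (by
    rw [Ideal.map_pow, ← hspan, map_mul, ← e₁, ← e₂]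
    have : x * ρ s₁ * (y * ρ s₂) = (ρ s₁ * ρ s₂) * (x * y) := by ring
    rw [this]
    exact Ideal.mul_mem_left _ _ hnode)
  set h : A := (∏ b ∈ S, den b) * s₃ with hh
  have hprod : (∏ b ∈ S, den b) ∉ q := by
    rw [Ideal.IsPrime.prod_mem_iff]
    rintro ⟨b, _, hb⟩
    exact hden1 b hb
  have hhq : h ∉ q := NC1_mul hprod hs₃
  refine ⟨h, hhq, ?_⟩
  set B := Localization.Away h with hB
  set φ := algebraMap A B with hφ
  have hφh : IsUnit (φ h) := IsLocalization.Away.algebraMap_isUnit h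
  have hφd : ∀ b ∈ S, IsUnit (φ (den b)) := by
    intro b hb
    have h1 : φ (∏ b ∈ S, den b) * φ s₃ = φ h := (map_mul φ _ _).symm
    have h2 : IsUnit (φ (∏ b ∈ S, den b)) := isUnit_of_mul_isUnit_left (h1 ▸ hφh)
    exact isUnit_of_dvd_unit (map_dvd φ (Finset.dvd_prod_of_mem den hb)) h2
  have hφs : IsUnit (φ s₃) := by
    have h1 : φ (∏ b ∈ S, den b) * φ s₃ = φ h := (map_mul φ _ _).symm
    exact isUnit_of_mul_isUnit_right (h1 ▸ hφh)
  set u := φ a₁ with hu
  set v := φ a₂ with hv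
  have hmB : ((maximalIdeal O).map (algebraMap O A)).map φ =
      (maximalIdeal O).map (algebraMap O B) := by
    rw [Ideal.map_map, hφ, ← IsScalarTower.algebraMap_eq]
  have huv : (Ideal.span {a₁, a₂}).map φ = Ideal.span {u, v} := by
    rw [Ideal.map_span, Set.image_pair]
  set J : Ideal B := Ideal.span {u, v} ⊔ (maximalIdeal O).map (algebraMap O B) with hJ
  have hQJ : Q.map φ ≤ J := by
    rw [hQ, Ideal.map_sup, hmB, Ideal.map_span]
    apply sup_le _ le_sup_right
    rw [Ideal.span_le]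
    rintro _ ⟨_, ⟨b, hb, rfl⟩, rfl⟩
    have h1 := Ideal.mem_map_of_mem φ (hden2 b)
    rw [Ideal.map_sup, hmB, huv, map_mul] at h1
    exact (Ideal.unit_mul_mem_iff_mem _ (hφd b hb)).mp h1
  have hall : ∀ z : B, ∃ s : O, z - algebraMap O B s ∈ J := by
    intro z
    obtain ⟨n, b, hz⟩ := IsLocalization.Away.surj h z
    have hhn : h ^ n ∉ q := by
      intro h1
      exact hhq (Ideal.IsPrime.mem_of_pow_mem inferInstance n h1)
    have h1 : IsUnit (cst (h ^ n)) := by
      apply hunit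
      intro h2
      apply hhn
      have : h ^ n = (h ^ n - algebraMap O A (cst (h ^ n))) + algebraMap O A (cst (h ^ n)) := by
        ring
      rw [this]
      exact q.add_mem (hcst _) h2
    obtain ⟨w, hw⟩ := h1
    have h3 := hQJ (Ideal.mem_map_of_mem φ (hqQ (hcst (h ^ n))))
    have h4 := hQJ (Ideal.mem_map_of_mem φ (hqQ (hcst b)))
    have hsc : ∀ c : O, φ (algebraMap O A c) = algebraMap O B c := by
      intro c
      rw [hφ, ← IsScalarTower.algebraMap_apply]
    rw [map_sub, hsc] at h3 h4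
    rw [← hw] at h3
    have hinv : algebraMap O B (w : O) * algebraMap O B ((w⁻¹ : Oˣ) : O) = 1 := by
      rw [← map_mul, Units.mul_inv, map_one]
    refine ⟨cst b * ((w⁻¹ : Oˣ) : O), ?_⟩
    have h5 : z - algebraMap O B (cst b * ((w⁻¹ : Oˣ) : O)) =
        algebraMap O B ((w⁻¹ : Oˣ) : O) * (φ b - algebraMap O B (cst b)) -
          (algebraMap O B ((w⁻¹ : Oˣ) : O) * z) * (φ (h ^ n) - algebraMap O B (w : O)) := by
      have h6 : φ b = z * φ (h ^ n) := by
        rw [map_pow]
        exact hz.symm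
      rw [h6, map_mul]
      linear_combination (-z) * hinv
    rw [h5]
    exact J.sub_mem (J.mul_mem_left _ h4) (J.mul_mem_left _ h3)
  -- the relation
  have hrel : u * v ∈ Ideal.span {u, v} ^ 3 ⊔ (maximalIdeal O).map (algebraMap O B) := by
    have h1 := Ideal.mem_map_of_mem φ hs₃'
    rw [Ideal.map_sup, hmB, Ideal.map_pow, huv, map_mul, map_mul] at h1
    exact (Ideal.unit_mul_mem_iff_mem _ hφs).mp h1
  obtain ⟨ζ, hζ, μ, hμ, hζμ⟩ := Submodule.mem_sup.mp hrel
  obtain ⟨α, β, γ, δ, hcub⟩ := NC1_cube hζ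
  -- finitely many generators of `B`
  have hft : Algebra.FiniteType O B :=
    (inferInstance : Algebra.FiniteType O (Localization.Away h))
  obtain ⟨Z, hZ⟩ : (⊤ : Subalgebra O B).FG := hft.out
  have hall' : ∀ z : B, ∃ s : O, ∃ μ ∈ (maximalIdeal O).map (algebraMap O B),
      z - algebraMap O B s - μ ∈ Ideal.span {u, v} := by
    intro z
    obtain ⟨s, hs⟩ := hall z
    obtain ⟨ζ, hζ, μ, hμ, e⟩ := Submodule.mem_sup.mp hs
    exact ⟨s, μ, hμ, by rw [← e, add_sub_cancel_right]; exact hζ⟩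
  choose sB μB hμB hsB using hall'
  obtain ⟨a, ha, hdiv⟩ := NC1_fin (O := O) (insert μ (Z.image μB)) (by
    intro z hz
    rcases Finset.mem_insert.mp hz with rfl | hz
    · exact hμ
    · obtain ⟨w, _, rfl⟩ := Finset.mem_image.mp hz
      exact hμB w)
  refine ⟨a, u, v, ha, Ideal.mem_map_of_mem _ ha₁, Ideal.mem_map_of_mem _ ha₂, ?_, ?_⟩
  · intro z
    obtain ⟨s, hs⟩ := NC1_all (Ideal.span {u, v} ⊔ Ideal.span {algebraMap O B a}) (Z : Set B) hZ
      (by
        intro z hz
        refine ⟨sB z, ?_⟩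
        have h1 := hsB z
        obtain ⟨r, hr⟩ := hdiv (μB z) (Finset.mem_insert_of_mem (Finset.mem_image_of_mem _ hz))
        have h2 : z - algebraMap O B (sB z) = (z - algebraMap O B (sB z) - μB z) + μB z := by ring
        rw [h2]
        apply Ideal.add_mem _ (Ideal.mem_sup_left h1) (Ideal.mem_sup_right _)
        rw [hr]
        exact Ideal.mul_mem_right _ _ (Ideal.mem_span_singleton_self _)) z
    obtain ⟨ζ, hζ, μ, hμ, e⟩ := Submodule.mem_sup.mp hs
    obtain ⟨p, q, rfl⟩ := Ideal.mem_span_pair.mp hζ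
    obtain ⟨r, rfl⟩ := Ideal.mem_span_singleton'.mp hμ
    refine ⟨s, p, q, r, ?_⟩
    linear_combination -e
  · obtain ⟨ε, hε⟩ := hdiv μ (Finset.mem_insert_self _ _)
    refine ⟨α, β, γ, δ, ε, ?_⟩
    rw [← hζμ, ← hε, hcub]
-- END NC1

end Pool.Agent.Lib.MP_211349_ag
end

section

/-!
# The normal form of a node in a nilpotent thickening
-/

universe u

namespace Pool.Agent.Lib.MP_211349_ag

variable {R : Type u} [CommRing R]

-- BEGIN NI1
private theorem NI1_mem_span_pair {R : Type u} [CommRing R] {u v x : R} (h : x ∈ Ideal.span {u, v}) :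
    ∃ p q : R, x = u * p + v * q := by
  obtain ⟨p, q, h⟩ := Ideal.mem_span_pair.1 h
  exact ⟨p, q, by rw [← h]; ring⟩

private theorem NI1_pow {R : Type u} [CommRing R] (u v : R) (n : ℕ) :
    ∀ x ∈ Ideal.span {u, v} ^ (n + 2), ∃ α β γ : R, γ ∈ Ideal.span {u, v} ^ n ∧
      x = α * u ^ (n + 2) + β * v ^ (n + 2) + u * v * γ := by
  have hu : u ∈ Ideal.span {u, v} := Ideal.subset_span (by simp)
  have hv : v ∈ Ideal.span {u, v} := Ideal.subset_span (by simp)
  induction n with
  | zero =>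
    intro x hx
    rw [zero_add, pow_two] at hx
    refine Submodule.mul_induction_on hx ?_ ?_
    · intro i hi j hj
      obtain ⟨p, q, rfl⟩ := NI1_mem_span_pair hi
      obtain ⟨p', q', rfl⟩ := NI1_mem_span_pair hj
      exact ⟨p * p', q * q', p * q' + q * p', by simp, by ring⟩
    · rintro x y ⟨α, β, γ, h, rfl⟩ ⟨α', β', γ', h', rfl⟩
      exact ⟨α + α', β + β', γ + γ', Ideal.add_mem _ h h', by ring⟩
  | succ n ih =>
    intro x hx
    rw [show n + 1 + 2 = (n + 2) + 1 by ring, pow_succ'] at hx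
    refine Submodule.mul_induction_on hx ?_ ?_
    · intro i hi j hj
      obtain ⟨α, β, γ, hγ, rfl⟩ := ih j hj
      obtain ⟨p, q, rfl⟩ := NI1_mem_span_pair hi
      refine ⟨p * α, q * β, p * β * v ^ (n + 1) + q * α * u ^ (n + 1) + (u * p + v * q) * γ,
        ?_, by ring⟩
      refine Ideal.add_mem _ (Ideal.add_mem _ (Ideal.mul_mem_left _ _ (Ideal.pow_mem_pow hv _))
        (Ideal.mul_mem_left _ _ (Ideal.pow_mem_pow hu _))) ?_
      rw [pow_succ']
      exact Ideal.mul_mem_mul hi hγ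
    · rintro x y ⟨α, β, γ, h, rfl⟩ ⟨α', β', γ', h', rfl⟩
      exact ⟨α + α', β + β', γ + γ', Ideal.add_mem _ h h', by ring⟩

private theorem NI1_nil {R : Type u} [CommRing R] {u v : R} (hu : IsNilpotent u)
    (hv : IsNilpotent v) : Ideal.span {u, v} ≤ nilradical R := by
  rw [Ideal.span_le]
  rintro x (rfl | rfl)
  · exact hu
  · exact hv

private theorem NI1_step {R : Type u} [CommRing R] (u v : R) (hu : IsNilpotent u)
    (hv : IsNilpotent v) (n : ℕ) (h : u * v ∈ Ideal.span {u, v} ^ (n + 3)) :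
    ∃ u' v' : R, Ideal.span {u', v'} = Ideal.span {u, v} ∧
      u' * v' ∈ Ideal.span {u', v'} ^ (n + 4) := by
  have hu0 : u ∈ Ideal.span {u, v} := Ideal.subset_span (by simp)
  have hv0 : v ∈ Ideal.span {u, v} := Ideal.subset_span (by simp)
  obtain ⟨α, β, γ, hγ, hh⟩ := NI1_pow u v (n + 1) _ h
  have hγn : IsNilpotent γ := NI1_nil hu hv
    (Ideal.pow_le_self (by omega : n + 1 ≠ 0) hγ)
  obtain ⟨w, hw⟩ := (hγn.isUnit_one_sub : IsUnit (1 - γ))
  have h1 : u * v * (w : R) = α * u ^ (n + 3) + β * v ^ (n + 3) := by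
    rw [hw]
    have h2 : n + 1 + 2 = n + 3 := by ring
    rw [h2] at hh
    linear_combination hh
  obtain ⟨α', β', h2⟩ : ∃ α' β' : R, u * v = α' * u ^ (n + 3) + β' * v ^ (n + 3) := by
    refine ⟨α * (↑w⁻¹ : R), β * (↑w⁻¹ : R), ?_⟩
    have h3 : (w : R) * (↑w⁻¹ : R) = 1 := Units.mul_inv w
    calc u * v = u * v * (w : R) * (↑w⁻¹ : R) := by rw [mul_assoc (u * v), h3, mul_one]
      _ = _ := by rw [h1]; ring
  have hspan : Ideal.span {u - β' * v ^ (n + 2), v - α' * u ^ (n + 2)} = Ideal.span {u, v} := by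
    refine le_antisymm ?_ ?_
    · rw [Ideal.span_le]
      rintro x (rfl | rfl)
      · exact Ideal.sub_mem _ hu0 (Ideal.mul_mem_left _ _
          (Ideal.pow_mem_of_mem _ hv0 _ (by omega)))
      · exact Ideal.sub_mem _ hv0 (Ideal.mul_mem_left _ _
          (Ideal.pow_mem_of_mem _ hu0 _ (by omega)))
    · have hfg : (Ideal.span {u, v}).FG := Submodule.fg_span (Set.toFinite _)
      have hle : Ideal.span {u, v} ≤ Ideal.jacobson ⊥ :=
        (NI1_nil hu hv).trans ((nilradical_le_jacobson R).trans (Ideal.jacobson_bot (R := R)).ge)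
      refine Submodule.le_of_le_smul_of_le_jacobson_bot hfg hle ?_
      refine Submodule.span_le.2 ?_
      have hsq : ∀ x ∈ Ideal.span {u, v}, ∀ c : R, c * x ^ (n + 2) ∈
          Ideal.span {u, v} • Ideal.span {u, v} := by
        intro x hx c
        have : x ^ 2 ∈ Ideal.span {u, v} • Ideal.span {u, v} := by
          rw [pow_two]
          exact Ideal.mul_mem_mul hx hx
        rw [pow_add, ← mul_assoc]
        exact Ideal.mul_mem_left _ _ this
      rintro x (rfl | rfl)
      · refine Submodule.mem_sup.2 ⟨_, Ideal.subset_span (by simp : x - β' * v ^ (n + 2) ∈ _), _,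
          hsq v hv0 β', by ring⟩
      · refine Submodule.mem_sup.2 ⟨_, Ideal.subset_span (by simp : x - α' * u ^ (n + 2) ∈ _), _,
          hsq u hu0 α', by ring⟩
  refine ⟨_, _, hspan, ?_⟩
  rw [hspan]
  have h4 : (u - β' * v ^ (n + 2)) * (v - α' * u ^ (n + 2)) = α' * β' * (u * v) ^ (n + 2) := by
    linear_combination h2
  rw [h4]
  refine Ideal.mul_mem_left _ _ ?_
  have h5 : (u * v) ^ (n + 2) ∈ (Ideal.span {u, v} ^ 2) ^ (n + 2) := by
    refine Ideal.pow_mem_pow ?_ _
    rw [pow_two]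
    exact Ideal.mul_mem_mul hu0 hv0
  rw [← pow_mul] at h5
  exact Ideal.pow_le_pow_right (by omega) h5

private theorem NI1_all {R : Type u} [CommRing R] (u v : R) (hu : IsNilpotent u)
    (hv : IsNilpotent v) (h : u * v ∈ Ideal.span {u, v} ^ 3) (n : ℕ) :
    ∃ u' v' : R, Ideal.span {u', v'} = Ideal.span {u, v} ∧
      u' * v' ∈ Ideal.span {u', v'} ^ (n + 3) := by
  induction n with
  | zero => exact ⟨u, v, rfl, h⟩
  | succ n ih =>
    obtain ⟨u', v', h1, h2⟩ := ih
    have hn := NI1_nil hu hv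
    rw [← h1] at hn
    have hu' : IsNilpotent u' := hn (Ideal.subset_span (by simp))
    have hv' : IsNilpotent v' := hn (Ideal.subset_span (by simp))
    obtain ⟨u'', v'', h3, h4⟩ := NI1_step u' v' hu' hv' n h2
    exact ⟨u'', v'', h3.trans h1, h4⟩

private theorem NI1_quot {R : Type u} [CommRing R] (u v : R) (hu : IsNilpotent u)
    (hv : IsNilpotent v) (h : u * v ∈ Ideal.span {u, v} ^ 3) :
    ∃ u' v' : R, Ideal.span {u', v'} = Ideal.span {u, v} ∧ u' * v' = 0 := by
  have hfg : (Ideal.span {u, v}).FG := Submodule.fg_span (Set.toFinite _)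
  obtain ⟨N, hN⟩ := (Ideal.FG.isNilpotent_iff_le_nilradical hfg).2 (NI1_nil hu hv)
  obtain ⟨u', v', h1, h2⟩ := NI1_all u v hu hv h N
  refine ⟨u', v', h1, ?_⟩
  rw [h1, pow_add, hN] at h2
  simpa using h2

/-- (NI1) First step: make `u v` divisible by `a`. Let `I = (u, v, a)`, nilpotent. Claim by induction on `n ≥ 3`: there are `u', v'`
with `(u', v', a) = I` (ideals) and `u' v' ∈ (u', v') ^ n + (a)`. For `n = 3` this is `huv`. Step: `(u, v) ^ n` is generated by `u ^ n`, `v ^ n` and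
`u v (u, v) ^ (n - 2)`, so `u v (1 - γ) = α u ^ n + β v ^ n + a ε` with `γ` nilpotent, and (dividing by the unit `1 - γ`) we may take `γ = 0`.
For `u' = u - β v ^ (n - 1)`, `v' = v - α u ^ (n - 1)`: `u' v' = a ε + α β (u v) ^ (n - 1)`, and `(u v) ^ (n - 1)` is in
`(a) + (u, v) ^ (2 (n - 1))`, hence in `(a) + (u', v') ^ (n + 1)` since `(u, v, a) = (u', v', a)` (nilpotent Nakayama:
`u, v ∈ (u', v') + (u, v) ^ 2`). For large `n`, `(u, v) ^ n = 0`. -/
theorem node_first (a u v : R) (hu : IsNilpotent u) (hv : IsNilpotent v) (ha : IsNilpotent a)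
    (huv : ∃ α β γ δ ε : R,
      u * v = α * u ^ 3 + β * (u ^ 2 * v) + γ * (u * v ^ 2) + δ * v ^ 3 + a * ε) :
    ∃ u' v' ε : R, Ideal.span {u', v', a} = Ideal.span {u, v, a} ∧ u' * v' = a * ε := by
  obtain ⟨α, β, γ, δ, ε, h⟩ := huv
  set π := Ideal.Quotient.mk (Ideal.span {a}) with hπ
  have hu0 : π u ∈ Ideal.span {π u, π v} := Ideal.subset_span (by simp)
  have hv0 : π v ∈ Ideal.span {π u, π v} := Ideal.subset_span (by simp)
  have hπa : π a = 0 := by
    rw [hπ, Ideal.Quotient.eq_zero_iff_mem]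
    exact Ideal.mem_span_singleton_self a
  have h1 : π u * π v ∈ Ideal.span {π u, π v} ^ 3 := by
    have h2 : π u * π v = π α * π u ^ 3 + π β * (π u ^ 2 * π v) + π γ * (π u * π v ^ 2) +
        π δ * π v ^ 3 := by
      have := congrArg π h
      simpa only [map_add, map_mul, map_pow, hπa, zero_mul, add_zero] using this
    rw [h2]
    refine Ideal.add_mem _ (Ideal.add_mem _ (Ideal.add_mem _ ?_ ?_) ?_) ?_
    · exact Ideal.mul_mem_left _ _ (Ideal.pow_mem_pow hu0 _)
    · refine Ideal.mul_mem_left _ _ ?_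
      rw [pow_succ (Ideal.span {π u, π v}) 2]
      exact Ideal.mul_mem_mul (Ideal.pow_mem_pow hu0 _) hv0
    · refine Ideal.mul_mem_left _ _ ?_
      rw [pow_succ' (Ideal.span {π u, π v}) 2]
      exact Ideal.mul_mem_mul hu0 (Ideal.pow_mem_pow hv0 _)
    · exact Ideal.mul_mem_left _ _ (Ideal.pow_mem_pow hv0 _)
  obtain ⟨x, y, h3, h4⟩ := NI1_quot (π u) (π v) (hu.map π) (hv.map π) h1
  obtain ⟨u', rfl⟩ := Ideal.Quotient.mk_surjective x
  obtain ⟨v', rfl⟩ := Ideal.Quotient.mk_surjective y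
  have h5 : u' * v' ∈ Ideal.span {a} := by
    rw [← Ideal.Quotient.eq_zero_iff_mem, map_mul]
    exact h4
  obtain ⟨ε', h6⟩ := Ideal.mem_span_singleton'.1 h5
  refine ⟨u', v', ε', ?_, by rw [← h6, mul_comm]⟩
  have key : ∀ x y : R, Ideal.span {x, y, a} =
      Ideal.comap π (Ideal.span {π x, π y}) := by
    intro x y
    have h7 : Ideal.span {π x, π y} = Ideal.map π (Ideal.span {x, y}) := by
      rw [Ideal.map_span, Set.image_pair]
    rw [h7, Ideal.comap_map_of_surjective' π Ideal.Quotient.mk_surjective, hπ, Ideal.mk_ker,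
      ← Ideal.span_union]
    congr 1
    ext z
    simp only [Set.mem_insert_iff, Set.mem_singleton_iff, Set.mem_union]
    tauto
  rw [key, key]
  exact congrArg _ h3
-- END NI1

-- BEGIN NI2
private theorem NI2_gen {R : Type u} [CommRing R] (S : Subring R) (a u v : R) (haS : a ∈ S)
    (ha : IsNilpotent a)
    (hgen : ∀ z : R, ∃ s ∈ S, z - s ∈ Ideal.span {u, v, a}) (z : R) :
    ∃ s ∈ S, ∃ p q : R, z = s + (u * p + v * q) := by
  have h0 : ∀ z : R, ∃ s ∈ S, ∃ p q r : R, z = s + (u * p + v * q) + a * r := by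
    intro z
    obtain ⟨s, hs, h⟩ := hgen z
    obtain ⟨p, y, hy, h1⟩ := Ideal.mem_span_insert.1 h
    obtain ⟨q, r, h2⟩ := Ideal.mem_span_pair.1 hy
    refine ⟨s, hs, p, q, r, ?_⟩
    linear_combination h1 - h2
  have h1 : ∀ n : ℕ, ∀ z : R, ∃ s ∈ S, ∃ p q r : R, z = s + (u * p + v * q) + a ^ n * r := by
    intro n
    induction n with
    | zero => exact fun z => ⟨0, S.zero_mem, 0, 0, z, by ring⟩
    | succ n ih =>
      intro z
      obtain ⟨s, hs, p, q, r, rfl⟩ := ih z
      obtain ⟨s', hs', p', q', r', rfl⟩ := h0 r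
      exact ⟨s + a ^ n * s', S.add_mem hs (S.mul_mem (S.pow_mem haS n) hs'),
        p + a ^ n * p', q + a ^ n * q', r', by ring⟩
  obtain ⟨N, hN⟩ := ha
  obtain ⟨s, hs, p, q, r, h⟩ := h1 N z
  exact ⟨s, hs, p, q, by rw [h, hN]; ring⟩

private theorem NI2_all {R : Type u} [CommRing R] (S : Subring R) (a u v ε : R) (haS : a ∈ S)
    (ha : IsNilpotent a)
    (hgen : ∀ z : R, ∃ s ∈ S, z - s ∈ Ideal.span {u, v, a}) (huv : u * v = a * ε) (j : ℕ) :
    ∃ u' v' : R, Ideal.span {u', v', a} = Ideal.span {u, v, a} ∧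
      ∃ s ∈ S, ∃ p q : R, u' * v' = s + a ^ (j + 1) * (u' * p + v' * q) := by
  induction j with
  | zero =>
    obtain ⟨s, hs, p, q, h⟩ := NI2_gen S a u v haS ha hgen ε
    exact ⟨u, v, rfl, a * s, S.mul_mem haS hs, p, q, by rw [huv, h]; ring⟩
  | succ j ih =>
    obtain ⟨u', v', h1, s, hs, p, q, h2⟩ := ih
    have ha' : ∀ x y : R, a ∈ Ideal.span {x, y, a} := fun x y => Ideal.subset_span (by simp)
    have hx' : ∀ x y : R, x ∈ Ideal.span {x, y, a} := fun x y => Ideal.subset_span (by simp)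
    have hy' : ∀ x y : R, y ∈ Ideal.span {x, y, a} := fun x y => Ideal.subset_span (by simp)
    have h3 : Ideal.span {u' - a ^ (j + 1) * q, v' - a ^ (j + 1) * p, a} =
        Ideal.span {u', v', a} := by
      have hpow : ∀ x y z : R, a ^ (j + 1) * z ∈ Ideal.span {x, y, a} := fun x y z =>
        Ideal.mul_mem_right _ _ (Ideal.pow_mem_of_mem _ (ha' x y) _ (by omega))
      refine le_antisymm ?_ ?_
      · rw [Ideal.span_le]
        rintro x (rfl | rfl | rfl)
        · exact Ideal.sub_mem _ (hx' _ _) (hpow _ _ _)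
        · exact Ideal.sub_mem _ (hy' _ _) (hpow _ _ _)
        · exact ha' _ _
      · rw [Ideal.span_le]
        rintro x (rfl | rfl | rfl)
        · have := Ideal.add_mem _ (hx' (x - a ^ (j + 1) * q) (v' - a ^ (j + 1) * p))
            (hpow (x - a ^ (j + 1) * q) (v' - a ^ (j + 1) * p) q)
          rwa [sub_add_cancel] at this
        · have := Ideal.add_mem _ (hy' (u' - a ^ (j + 1) * q) (x - a ^ (j + 1) * p))
            (hpow (u' - a ^ (j + 1) * q) (x - a ^ (j + 1) * p) p)
          rwa [sub_add_cancel] at this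
        · exact ha' _ _
    obtain ⟨s', hs', p', q', h4⟩ := NI2_gen S a (u' - a ^ (j + 1) * q) (v' - a ^ (j + 1) * p)
      haS ha (fun z => by rw [h3, h1]; exact hgen z) (p * q)
    refine ⟨_, _, h3.trans h1, s + a ^ (2 * (j + 1)) * s',
      S.add_mem hs (S.mul_mem (S.pow_mem haS _) hs'), a ^ j * p', a ^ j * q', ?_⟩
    linear_combination h2 + a ^ (2 * (j + 1)) * h4

/-- (NI2) Second step. Absorption: for every `m`, `a ^ m R ⊆ a ^ m S + a ^ m (u, v) R` (downward induction on `m`, `a` nilpotent, from `hgen`).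
Claim by induction on `j ≥ 1`: there are `u', v'` with `(u', v', a) = (u, v, a)` and `u' v' ∈ S + a ^ j (u', v') R`. `j = 1`: absorption for `a ε`.
Step: `u v = s + a ^ j (u G₁ + v G₂)`, put `u' = u - a ^ j G₂`, `v' = v - a ^ j G₁`; `u' v' = s + a ^ (2 j) G₁ G₂`; absorption
(`hgen` holds for `u', v'` as it only depends on the ideal `(u, v, a)`). For large `j`, `a ^ j = 0`. -/
theorem node_second (S : Subring R) (a u v ε : R) (haS : a ∈ S) (ha : IsNilpotent a)
    (hgen : ∀ z : R, ∃ s ∈ S, z - s ∈ Ideal.span {u, v, a}) (huv : u * v = a * ε) :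
    ∃ u' v' : R, Ideal.span {u', v', a} = Ideal.span {u, v, a} ∧ u' * v' ∈ S := by
  obtain ⟨N, hN⟩ := ha
  obtain ⟨u', v', h1, s, hs, p, q, h2⟩ := NI2_all S a u v ε haS ⟨N, hN⟩ hgen huv N
  refine ⟨u', v', h1, ?_⟩
  rw [h2, pow_succ, hN]
  simpa using hs
-- END NI2

-- BEGIN NI3
private theorem NI3_step {R : Type u} [CommRing R] (T : Subring R) (a u v : R) (haT : a ∈ T)
    (huT : u ∈ T) (hvT : v ∈ T) (hgen : ∀ z : R, ∃ s ∈ T, z - s ∈ Ideal.span {u, v, a}) (n : ℕ) :
    ∀ x ∈ Ideal.span {u, v, a} ^ n, ∃ t ∈ T, x - t ∈ Ideal.span {u, v, a} ^ (n + 1) := by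
  induction n with
  | zero =>
    intro x _
    obtain ⟨s, hs, h⟩ := hgen x
    exact ⟨s, hs, by simpa using h⟩
  | succ n ih =>
    intro x hx
    rw [pow_succ'] at hx
    refine Submodule.mul_induction_on hx ?_ ?_
    · intro i hi j hj
      have key : ∀ w ∈ T, w ∈ Ideal.span {u, v, a} → ∀ c : R, ∃ t ∈ T,
          w * (c * j) - t ∈ Ideal.span {u, v, a} ^ (n + 1 + 1) := by
        intro w hw hwI c
        obtain ⟨t, ht, h⟩ := ih (c * j) (Ideal.mul_mem_left _ _ hj)
        refine ⟨w * t, T.mul_mem hw ht, ?_⟩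
        rw [← mul_sub, pow_succ']
        exact Ideal.mul_mem_mul hwI h
      obtain ⟨p, y, hy, h1⟩ := Ideal.mem_span_insert.1 hi
      obtain ⟨q, r, h2⟩ := Ideal.mem_span_pair.1 hy
      obtain ⟨t1, ht1, k1⟩ := key u huT (Ideal.subset_span (by simp)) p
      obtain ⟨t2, ht2, k2⟩ := key v hvT (Ideal.subset_span (by simp)) q
      obtain ⟨t3, ht3, k3⟩ := key a haT (Ideal.subset_span (by simp)) r
      refine ⟨t1 + t2 + t3, T.add_mem (T.add_mem ht1 ht2) ht3, ?_⟩
      have h3 : i * j - (t1 + t2 + t3) =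
          (u * (p * j) - t1) + (v * (q * j) - t2) + (a * (r * j) - t3) := by
        linear_combination j * h1 - j * h2
      rw [h3]
      exact Ideal.add_mem _ (Ideal.add_mem _ k1 k2) k3
    · rintro x y ⟨t, ht, h⟩ ⟨t', ht', h'⟩
      refine ⟨t + t', T.add_mem ht ht', ?_⟩
      rw [add_sub_add_comm]
      exact Ideal.add_mem _ h h'

/-- (NI3) If `R = S + I` for a nilpotent ideal `I = (u, v, a)` with `a ∈ S` then `R = S[u, v]`: by induction
`R = S[u, v] + I ^ n` (write the elements of `I ^ n` as sums of monomials of degree `n` in `u, v, a` times elements of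
`R = S + I`). -/
theorem closure_eq_top (S : Subring R) (a u v : R) (haS : a ∈ S) (hu : IsNilpotent u)
    (hv : IsNilpotent v) (ha : IsNilpotent a)
    (hgen : ∀ z : R, ∃ s ∈ S, z - s ∈ Ideal.span {u, v, a}) :
    Subring.closure ((S : Set R) ∪ {u, v}) = ⊤ := by
  set T := Subring.closure ((S : Set R) ∪ {u, v}) with hT
  have hST : ∀ s ∈ S, s ∈ T := fun s hs => Subring.subset_closure (Or.inl hs)
  have huT : u ∈ T := Subring.subset_closure (Or.inr (by simp))
  have hvT : v ∈ T := Subring.subset_closure (Or.inr (by simp))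
  have hle : Ideal.span {u, v, a} ≤ nilradical R := by
    rw [Ideal.span_le]
    rintro x (rfl | rfl | rfl)
    · exact hu
    · exact hv
    · exact ha
  have hfg : (Ideal.span {u, v, a}).FG := Submodule.fg_span (Set.toFinite _)
  obtain ⟨N, hN⟩ := (Ideal.FG.isNilpotent_iff_le_nilradical hfg).2 hle
  have hgen' : ∀ z : R, ∃ s ∈ T, z - s ∈ Ideal.span {u, v, a} := fun z => by
    obtain ⟨s, hs, h⟩ := hgen z
    exact ⟨s, hST s hs, h⟩
  have h1 : ∀ n : ℕ, ∀ z : R, ∃ t ∈ T, z - t ∈ Ideal.span {u, v, a} ^ n := by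
    intro n
    induction n with
    | zero => exact fun z => ⟨0, T.zero_mem, by simp⟩
    | succ n ih =>
      intro z
      obtain ⟨t, ht, h⟩ := ih z
      obtain ⟨t', ht', h'⟩ := NI3_step T a u v (hST a haS) huT hvT hgen' n _ h
      exact ⟨t + t', T.add_mem ht ht', by rwa [← sub_sub]⟩
  rw [eq_top_iff]
  intro z _
  obtain ⟨t, ht, h⟩ := h1 N z
  rw [hN] at h
  have h2 : z = t := sub_eq_zero.1 (by simpa using h)
  rw [h2]
  exact ht
-- END NI3

/-- The normal form of a node. -/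
theorem node_normal_form (S : Subring R) (a u v : R) (haS : a ∈ S) (hu : IsNilpotent u)
    (hv : IsNilpotent v) (ha : IsNilpotent a)
    (hgen : ∀ z : R, ∃ s ∈ S, z - s ∈ Ideal.span {u, v, a})
    (huv : ∃ α β γ δ ε : R,
      u * v = α * u ^ 3 + β * (u ^ 2 * v) + γ * (u * v ^ 2) + δ * v ^ 3 + a * ε) :
    ∃ u' v' : R, IsNilpotent u' ∧ IsNilpotent v' ∧ u' * v' ∈ S ∧
      Subring.closure ((S : Set R) ∪ {u', v'}) = ⊤ := by
  obtain ⟨u₁, v₁, ε, h1, h2⟩ := node_first a u v hu hv ha huv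
  obtain ⟨u₂, v₂, h3, h4⟩ := node_second S a u₁ v₁ ε haS ha
    (fun z => by rw [h1]; exact hgen z) h2
  have hle : Ideal.span {u, v, a} ≤ nilradical R := by
    rw [Ideal.span_le]
    rintro x (rfl | rfl | rfl)
    · exact hu
    · exact hv
    · exact ha
  have hu₂ : IsNilpotent u₂ := by
    have : u₂ ∈ Ideal.span {u₂, v₂, a} := Ideal.subset_span (by simp)
    rw [h3, h1] at this
    exact hle this
  have hv₂ : IsNilpotent v₂ := by
    have : v₂ ∈ Ideal.span {u₂, v₂, a} := Ideal.subset_span (by simp)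
    rw [h3, h1] at this
    exact hle this
  refine ⟨u₂, v₂, hu₂, hv₂, h4, closure_eq_top S a u₂ v₂ haS hu₂ hv₂ ha fun z => ?_⟩
  rw [h3, h1]
  exact hgen z

end Pool.Agent.Lib.MP_211349_ag
end
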