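import Pool.Agent.Lib.MP_211349_ag.Mg.G011
import Pool.Agent.Lib.MP_211349_ag.Mg.G006
import Pool.Agent.Lib.MP_211349_ag.Mg.G014
import Pool.Agent.Lib.MP_211349_ag.Mg.G010
import Pool.Agent.Lib.MP_211349_ag.Mg.G001

section

/-!
# Charts: localization, stalks of the special fibre
-/

open CategoryTheory Limits AlgebraicGeometry Polynomial TensorProduct

universe u

noncomputable section

namespace Pool.Agent.Lib.MP_211349_ag

section general

variable {R : Type u} [CommRing R] {X : Scheme.{u}} {f : X ⟶ Spec (.of R)}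

-- BEGIN CB1
/-- (CB1) Every point has a chart of finite presentation (compare `exists_chart` in M/Sch.lean). -/
theorem exists_chart_fp [LocallyOfFinitePresentation f] (x : X) :
    ∃ c : Chart f, Algebra.FinitePresentation R c.A ∧ x ∈ Set.range c.j := by
  obtain ⟨B, j₀, hop, y, hy⟩ : ∃ (B : CommRingCat.{u}) (j₀ : Spec B ⟶ X), IsOpenImmersion j₀ ∧
      ∃ y, j₀ y = x :=
    ⟨X.affineOpenCover.X (X.affineOpenCover.idx x), X.affineOpenCover.f (X.affineOpenCover.idx x),
      inferInstance, X.affineOpenCover.covers x⟩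
  have hfp : LocallyOfFinitePresentation (Spec.map (Spec.preimage (j₀ ≫ f))) := by
    rw [Spec.map_preimage]
    infer_instance
  rw [HasRingHomProperty.Spec_iff (P := @LocallyOfFinitePresentation)] at hfp
  let : Algebra R B := (Spec.preimage (j₀ ≫ f)).hom.toAlgebra
  have hfp' : Algebra.FinitePresentation R B := hfp
  have hj : j₀ ≫ f = Spec.map (CommRingCat.ofHom (algebraMap R B)) :=
    (Spec.map_preimage (j₀ ≫ f)).symm
  exact ⟨{ A := B, j := j₀, hj := hj, op := hop }, hfp', y, hy⟩
-- END CB1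

/-- A basic open subset of a chart. -/
def Chart.away (c : Chart f) (h : c.A) : Chart f where
  A := Localization.Away h
  j := Spec.map (CommRingCat.ofHom (algebraMap c.A (Localization.Away h))) ≫ c.j
  hj := by
    rw [Category.assoc, c.hj, ← Spec.map_comp]
    congr 1

-- BEGIN CB2
/-- (CB2) The points of `c.away h`. -/
theorem Chart.mem_range_away (c : Chart f) (h : c.A) (y : Spec (.of c.A)) (hy : h ∉ y.asIdeal) :
    ∃ y' : Spec (.of (c.away h).A), (c.away h).j y' = c.j y ∧
      y'.asIdeal.comap (algebraMap c.A (Localization.Away h)) = y.asIdeal ∧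
      y'.asIdeal = y.asIdeal.map (algebraMap c.A (Localization.Away h)) := by
  have hyr : y ∈ Set.range (Spec.map (CommRingCat.ofHom (algebraMap c.A (Localization.Away h)))) := by
    have h1 := PrimeSpectrum.localization_away_comap_range (Localization.Away h) h
    have h2 : y ∈ (PrimeSpectrum.basicOpen h : Set (PrimeSpectrum c.A)) := hy
    rw [← h1] at h2
    exact h2
  obtain ⟨z, hz⟩ := hyr
  have hz' : z.asIdeal.comap (algebraMap c.A (Localization.Away h)) = y.asIdeal :=
    congrArg PrimeSpectrum.asIdeal hz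
  refine ⟨z, ?_, hz', ?_⟩
  · change (Spec.map (CommRingCat.ofHom (algebraMap c.A (Localization.Away h))) ≫ c.j) z = c.j y
    rw [Scheme.Hom.comp_apply, hz]
  · rw [← hz']
    exact (IsLocalization.map_comap (Submonoid.powers h) (Localization.Away h) z.asIdeal).symm
-- END CB2

-- BEGIN CB3
/-- (CB3) The coordinate ring of a chart of a flat scheme is flat. -/
theorem Chart.flat (c : Chart f) [Flat f] : Module.Flat R c.A := by
  have h1 : Flat (c.j ≫ f) := inferInstance
  rw [c.hj, HasRingHomProperty.Spec_iff (P := @Flat)] at h1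
  exact RingHom.flat_algebraMap_iff.mp h1
-- END CB3

end general

section special

variable {K : Type u} [Field K] {O : ValuationSubring K} {X : Scheme.{u}} {f : X ⟶ Spec (.of O)}

-- BEGIN CB4
/-- (CB4) The special fibre of a chart. `j` is the composition of `Spec` of the isomorphism `A ⊗ k ≃ k ⊗ A` with `c.base k`
(M/Sch.lean, `Chart.base_isOpenImmersion`), `k` the residue field. -/
theorem Chart.exists_special (c : Chart f) :
    ∃ j : Spec (.of (IsLocalRing.ResidueField O ⊗[O] c.A)) ⟶ specialFibre O f, IsOpenImmersion j ∧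
      j ≫ pullback.snd f (resPt O) = Spec.map (CommRingCat.ofHom
        (algebraMap (IsLocalRing.ResidueField O) (IsLocalRing.ResidueField O ⊗[O] c.A))) ∧
      j ≫ pullback.fst f (resPt O) = Spec.map (CommRingCat.ofHom
        (Algebra.TensorProduct.includeRight (R := O) (A := IsLocalRing.ResidueField O)
          (B := c.A)).toRingHom) ≫ c.j := by
  have hiso : IsIso (CommRingCat.ofHom
      (Algebra.TensorProduct.comm O c.A (IsLocalRing.ResidueField O)).toRingEquiv.toRingHom) :=
    (Algebra.TensorProduct.comm O c.A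
      (IsLocalRing.ResidueField O)).toRingEquiv.toCommRingCatIso.isIso_hom
  have hbase := c.base_isOpenImmersion (IsLocalRing.ResidueField O)
  obtain ⟨b, hb, h1, h2⟩ : ∃ b : Spec (.of (c.A ⊗[O] IsLocalRing.ResidueField O)) ⟶
      specialFibre O f, IsOpenImmersion b ∧ b ≫ pullback.snd f (resPt O) =
        Spec.map (CommRingCat.ofHom (Algebra.TensorProduct.includeRight (R := O) (A := c.A)
          (B := IsLocalRing.ResidueField O)).toRingHom) ∧
      b ≫ pullback.fst f (resPt O) =
        Spec.map (CommRingCat.ofHom (Algebra.TensorProduct.includeLeft (R := O) (S := O) (A := c.A)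
          (B := IsLocalRing.ResidueField O)).toRingHom) ≫ c.j :=
    ⟨c.base (IsLocalRing.ResidueField O), hbase, pullback.lift_snd _ _ _, pullback.lift_fst _ _ _⟩
  refine ⟨Spec.map (CommRingCat.ofHom
      (Algebra.TensorProduct.comm O c.A (IsLocalRing.ResidueField O)).toRingEquiv.toRingHom) ≫ b,
      inferInstance, ?_, ?_⟩
  · rw [Category.assoc, h1, ← Spec.map_comp, ← CommRingCat.ofHom_comp]
    congr 2
  · rw [Category.assoc, h2, ← Category.assoc, ← Spec.map_comp, ← CommRingCat.ofHom_comp]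
    congr 3
-- END CB4

-- BEGIN CB5
/-- (CB5) A point of the special fibre whose image lies in a chart is a point of the special fibre of the
chart. (The square of `j`, `c.j` is cartesian; or: `c.base k` is the base change of `c.j`, `IsOpenImmersion.range_pullback..`.) -/
theorem Chart.exists_special_point (c : Chart f)
    (j : Spec (.of (IsLocalRing.ResidueField O ⊗[O] c.A)) ⟶ specialFibre O f)
    (hj : j ≫ pullback.snd f (resPt O) = Spec.map (CommRingCat.ofHom
        (algebraMap (IsLocalRing.ResidueField O) (IsLocalRing.ResidueField O ⊗[O] c.A))))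
    (hj' : j ≫ pullback.fst f (resPt O) = Spec.map (CommRingCat.ofHom
        (Algebra.TensorProduct.includeRight (R := O) (A := IsLocalRing.ResidueField O)
          (B := c.A)).toRingHom) ≫ c.j)
    (z : specialFibre O f) (hz : pullback.fst f (resPt O) z ∈ Set.range c.j) :
    z ∈ Set.range j := by
  let κ : CommRingCat.{u} := (specialFibre O f).residueField z
  let t : Spec κ ⟶ specialFibre O f := (specialFibre O f).fromSpecResidueField z
  have ht : ∀ s, t s = z := (specialFibre O f).fromSpecResidueField_apply z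
  have hr : Set.range (t ≫ pullback.fst f (resPt O)) ⊆ Set.range c.j := by
    rintro _ ⟨s, rfl⟩
    rw [Scheme.Hom.comp_apply, ht s]
    exact hz
  let α : CommRingCat.of c.A ⟶ κ :=
    Spec.preimage (IsOpenImmersion.lift c.j (t ≫ pullback.fst f (resPt O)) hr)
  have hα : Spec.map α ≫ c.j = t ≫ pullback.fst f (resPt O) := by
    rw [Spec.map_preimage, IsOpenImmersion.lift_fac]
  let β : CommRingCat.of (IsLocalRing.ResidueField O) ⟶ κ :=
    Spec.preimage (t ≫ pullback.snd f (resPt O))
  have hβ : Spec.map β = t ≫ pullback.snd f (resPt O) := Spec.map_preimage _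
  have hcomm : CommRingCat.ofHom (algebraMap O c.A) ≫ α =
      CommRingCat.ofHom (algebraMap O (IsLocalRing.ResidueField O)) ≫ β := by
    apply Spec.map_injective
    rw [Spec.map_comp, Spec.map_comp, hβ, ← c.hj, ← Category.assoc, hα, Category.assoc,
      Category.assoc, pullback.condition]
    rfl
  let : Algebra O κ := (β.hom.comp (algebraMap O (IsLocalRing.ResidueField O))).toAlgebra
  let βa : IsLocalRing.ResidueField O →ₐ[O] κ := { β.hom with commutes' := fun _ => rfl }
  let αa : c.A →ₐ[O] κ := { α.hom with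
    commutes' := fun a => congrArg (fun g : CommRingCat.of O ⟶ κ => g.hom a) hcomm }
  let γ : IsLocalRing.ResidueField O ⊗[O] c.A →ₐ[O] κ := Algebra.TensorProduct.productMap βa αa
  have hγ : Spec.map (CommRingCat.ofHom γ.toRingHom) ≫ j = t := by
    apply pullback.hom_ext
    · rw [Category.assoc, hj', ← hα, ← Category.assoc, ← Spec.map_comp]
      congr 2
      ext a
      exact Algebra.TensorProduct.productMap_right_apply βa αa a
    · rw [Category.assoc, hj, ← hβ, ← Spec.map_comp]
      congr 1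
      ext a
      exact Algebra.TensorProduct.productMap_left_apply βa αa a
  obtain ⟨s⟩ : Nonempty (Spec κ) := inferInstance
  refine ⟨Spec.map (CommRingCat.ofHom γ.toRingHom) s, ?_⟩
  rw [← Scheme.Hom.comp_apply, hγ, ht]
-- END CB5

-- BEGIN CB6
private theorem CB6_germ {S : CommRingCat.{u}} {k : Type u} [Field k] {Z : Scheme.{u}}
    (g : Z ⟶ Spec (.of k)) (j : Spec S ⟶ Z) (φ : k →+* S)
    (hj : j ≫ g = Spec.map (CommRingCat.ofHom φ)) (y : Spec S) (r : k) :
    (j.stalkMap y).hom (toStalk g (j y) r) = StructureSheaf.toStalk S y (φ r) := by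
  have h1 : (CommRingCat.ofHom φ) ≫ StructureSheaf.toStalk S y =
      (Scheme.ΓSpecIso (.of k)).inv ≫ (j ≫ g).appTop ≫ (Spec S).presheaf.germ ⊤ y trivial := by
    rw [hj]
    have h2 := Scheme.ΓSpecIso_inv_naturality (CommRingCat.ofHom φ)
    rw [← Category.assoc, ← h2]
    rfl
  have h3 : (CommRingCat.ofHom φ) ≫ StructureSheaf.toStalk S y =
      (Scheme.ΓSpecIso (.of k)).inv ≫ g.appTop ≫ Z.presheaf.germ ⊤ (j y) trivial ≫ j.stalkMap y := by
    rw [h1, Scheme.Hom.comp_appTop, Scheme.Hom.germ_stalkMap]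
    rfl
  exact (congrArg (fun m : CommRingCat.of k ⟶ _ => m.hom r) h3).symm

private theorem CB6_ker (A : Type u) [CommRing A] [Algebra O A] (a : A)
    (h : (1 : IsLocalRing.ResidueField O) ⊗ₜ[O] a = 0) :
    a ∈ (IsLocalRing.maximalIdeal O).map (algebraMap O A) := by
  have h1 : TensorProduct.quotTensorEquivQuotSMul A (IsLocalRing.maximalIdeal O)
      ((1 : IsLocalRing.ResidueField O) ⊗ₜ[O] a) = 0 :=
    (congrArg (TensorProduct.quotTensorEquivQuotSMul A (IsLocalRing.maximalIdeal O)) h).trans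
      (LinearEquiv.map_zero _)
  have h2 : TensorProduct.quotTensorEquivQuotSMul A (IsLocalRing.maximalIdeal O)
      ((1 : IsLocalRing.ResidueField O) ⊗ₜ[O] a) = Submodule.Quotient.mk a := by
    have h3 := TensorProduct.quotTensorEquivQuotSMul_mk_tmul (IsLocalRing.maximalIdeal O) (1 : O) a
    rw [one_smul] at h3
    exact h3
  rw [h2, Submodule.Quotient.mk_eq_zero] at h1
  refine Submodule.smul_induction_on h1 ?_ ?_
  · intro r hr n _
    rw [Algebra.smul_def]
    exact Ideal.mul_mem_right _ _ (Ideal.mem_map_of_mem _ hr)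
  · intro x y hx hy
    exact Ideal.add_mem _ hx hy

/-- (CB6) The stalk of the special fibre at a point `z` above the point `y` of a chart is the localization of `A ⧸ m A` at
`y`. By (CB4), (CB5) the stalk is isomorphic to the stalk of `Spec (k ⊗ A)` at a point `y₁` with preimage `y` in `A`, i.e. to the localization
of `k ⊗ A = A ⧸ m A` at `y₁`; `ρ` is `A → k ⊗ A → (k ⊗ A)_{y₁} ≅ stalk`. -/
theorem Chart.exists_stalk_hom (c : Chart f) (y : Spec (.of c.A)) (z : specialFibre O f)
    (hz : c.j y = pullback.fst f (resPt O) z) :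
    ∃ ρ : c.A →+* (specialFibre O f).presheaf.stalk z,
      (∀ a, IsUnit (ρ a) ↔ a ∉ y.asIdeal) ∧
      (∀ t, ∃ a s, s ∉ y.asIdeal ∧ t * ρ s = ρ a) ∧
      (∀ a, ρ a = 0 → ∃ s, s ∉ y.asIdeal ∧
        s * a ∈ (IsLocalRing.maximalIdeal O).map (algebraMap O c.A)) ∧
      ∀ a : O, ρ (algebraMap O c.A a) =
        toStalk (pullback.snd f (resPt O)) z (IsLocalRing.residue O a) := by
  obtain ⟨j, hop, hj, hj'⟩ := c.exists_special
  obtain ⟨y₁, rfl⟩ := c.exists_special_point j hj hj' z ⟨y, hz⟩
  let ι : c.A →+* IsLocalRing.ResidueField O ⊗[O] c.A :=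
    (Algebra.TensorProduct.includeRight (R := O) (A := IsLocalRing.ResidueField O)
          (B := c.A)).toRingHom
  have hy : Spec.map (CommRingCat.ofHom ι) y₁ = y := by
    have h1 : c.j (Spec.map (CommRingCat.ofHom ι) y₁) = c.j y := by
      rw [hz, ← Scheme.Hom.comp_apply, ← Scheme.Hom.comp_apply, hj']
    exact c.j.isOpenEmbedding.injective h1
  have hmem : ∀ a, a ∈ y.asIdeal ↔ ι a ∈ y₁.asIdeal := by
    intro a
    rw [← hy]
    rfl
  have hsurj : Function.Surjective ι :=
    Algebra.TensorProduct.includeRight_surjective (R := O) (S := IsLocalRing.ResidueField O)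
      (T := c.A) IsLocalRing.residue_surjective
  let T := (Spec (.of (IsLocalRing.ResidueField O ⊗[O] c.A))).presheaf.stalk y₁
  let alg : Algebra (IsLocalRing.ResidueField O ⊗[O] c.A) T :=
    (StructureSheaf.toStalk (IsLocalRing.ResidueField O ⊗[O] c.A) y₁).hom.toAlgebra
  have hloc : IsLocalization.AtPrime T y₁.asIdeal :=
    inferInstanceAs (IsLocalization.AtPrime
      ((Spec.structureSheaf (IsLocalRing.ResidueField O ⊗[O] c.A)).presheaf.stalk y₁) y₁.asIdeal)
  let E : (specialFibre O f).presheaf.stalk (j y₁) ≃+* T :=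
    (asIso (j.stalkMap y₁)).commRingCatIsoToRingEquiv
  have hE : ∀ s, E s = (j.stalkMap y₁).hom s := fun _ => rfl
  let ρ : c.A →+* (specialFibre O f).presheaf.stalk (j y₁) :=
    (E.symm : T →+* _).comp ((algebraMap (IsLocalRing.ResidueField O ⊗[O] c.A) T).comp ι)
  have hρ : ∀ a, E (ρ a) = algebraMap (IsLocalRing.ResidueField O ⊗[O] c.A) T (ι a) :=
    fun a => E.apply_symm_apply _
  refine ⟨ρ, fun a => ?_, fun t => ?_, fun a ha => ?_, fun a => ?_⟩
  · rw [← MulEquiv.isUnit_map (E : _ ≃* T)]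
    change IsUnit (E (ρ a)) ↔ _
    rw [hρ, IsLocalization.AtPrime.isUnit_to_map_iff T y₁.asIdeal, hmem]
    rfl
  · obtain ⟨⟨x, s'⟩, hx⟩ := IsLocalization.surj (M := y₁.asIdeal.primeCompl) (E t)
    obtain ⟨a, rfl⟩ := hsurj x
    obtain ⟨s, hs⟩ := hsurj (s' : IsLocalRing.ResidueField O ⊗[O] c.A)
    refine ⟨a, s, ?_, ?_⟩
    · rw [hmem, hs]
      exact s'.2
    · apply E.injective
      rw [map_mul, hρ, hρ, hs]
      exact hx
  · have h1 : algebraMap (IsLocalRing.ResidueField O ⊗[O] c.A) T (ι a) = 0 := by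
      rw [← hρ, ha, map_zero]
    rw [IsLocalization.map_eq_zero_iff y₁.asIdeal.primeCompl] at h1
    obtain ⟨s', hs'⟩ := h1
    obtain ⟨s, hs⟩ := hsurj (s' : IsLocalRing.ResidueField O ⊗[O] c.A)
    refine ⟨s, ?_, CB6_ker c.A _ ?_⟩
    · rw [hmem, hs]
      exact s'.2
    · have h2 : ι (s * a) = 0 := by
        rw [map_mul, hs, hs']
      exact h2
  · apply E.injective
    rw [hρ, hE, CB6_germ (pullback.snd f (resPt O)) j _ hj]
    change StructureSheaf.toStalk (IsLocalRing.ResidueField O ⊗[O] c.A) y₁ _ = _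
    congr 1
    change (1 : IsLocalRing.ResidueField O) ⊗ₜ[O] algebraMap O c.A a =
      (IsLocalRing.residue O a) ⊗ₜ[O] (1 : c.A)
    rw [Algebra.algebraMap_eq_smul_one, ← TensorProduct.smul_tmul, Algebra.smul_def, mul_one]
    rfl
-- END CB6

-- BEGIN CB7
/-- (CB7) The maximal ideals of the stalks of the special fibre are finitely generated (locally of finite type over a
field, hence locally Noetherian). -/
theorem stalk_fg [LocallyOfFinitePresentation f] (z : specialFibre O f) :
    (IsLocalRing.maximalIdeal ((specialFibre O f).presheaf.stalk z)).FG := by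
  have h1 : LocallyOfFinitePresentation (pullback.snd f (resPt O)) := inferInstance
  have h2 : LocallyOfFiniteType (pullback.snd f (resPt O)) := inferInstance
  have h3 : IsLocallyNoetherian (Spec (.of (IsLocalRing.ResidueField O))) := inferInstance
  have h4 : IsLocallyNoetherian (specialFibre O f) :=
    LocallyOfFiniteType.isLocallyNoetherian (pullback.snd f (resPt O))
  have h5 : IsNoetherianRing ((specialFibre O f).presheaf.stalk z) := inferInstance
  exact h5.noetherian _
-- END CB7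

-- BEGIN CB8
/-- (CB8) A point over the closed point of `Spec O` lifts to the special fibre. (Points of pullbacks: `Scheme.Pullback.exists_preimage_pullback`
or similar.) -/
theorem exists_special_lift (x : X) (hx : f x = IsLocalRing.closedPoint O) :
    ∃ z : specialFibre O f, pullback.fst f (resPt O) z = x := by
  obtain ⟨s⟩ : Nonempty (Spec (CommRingCat.of (IsLocalRing.ResidueField O))) := inferInstance
  have hs : resPt O s = IsLocalRing.closedPoint O := by
    apply PrimeSpectrum.ext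
    have h1 : (resPt O s).asIdeal =
        s.asIdeal.comap (algebraMap O (IsLocalRing.ResidueField O)) := rfl
    have h2 : s.asIdeal = ⊥ := (Ideal.eq_bot_or_top s.asIdeal).resolve_right s.isPrime.ne_top
    rw [h1, h2]
    exact IsLocalRing.ker_residue
  obtain ⟨z, hz, -⟩ := Scheme.Pullback.exists_preimage_pullback x s (hx.trans hs.symm)
  exact ⟨z, hz⟩
-- END CB8

end special

end Pool.Agent.Lib.MP_211349_ag
end
end

section

/-!
# Charts at a node of the special fibre
-/

open CategoryTheory Limits AlgebraicGeometry Polynomial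

universe u

noncomputable section

namespace Pool.Agent.Lib.MP_211349_ag

section

variable {k : Type u} [Field k] {Z : Scheme.{u}}

/-- The isomorphism in the definition of an ordinary double point. -/
theorem IsNode.exists_equiv {g : Z ⟶ Spec (.of k)} {z : Z} (h : IsNode g z) :
    ∃ e : AdicCompletion (IsLocalRing.maximalIdeal (Z.presheaf.stalk z)) (Z.presheaf.stalk z) ≃+*
      (MvPowerSeries (Fin 2) k ⧸
        Ideal.span {(MvPowerSeries.X 0 * MvPowerSeries.X 1 : MvPowerSeries (Fin 2) k)}),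
    ∀ a : k, e (algebraMap (Z.presheaf.stalk z) _ (toStalk g z a)) =
      Ideal.Quotient.mk _ (MvPowerSeries.C a) := by
  obtain ⟨φ, h1, h2, h3⟩ := h
  refine ⟨((Ideal.quotEquivOfEq h2.symm).trans
    (RingHom.quotientKerEquivOfSurjective h1)).symm, fun a => ?_⟩
  rw [RingEquiv.symm_apply_eq, ← h3]
  rfl

end

variable {K : Type u} [Field K] (O : ValuationSubring K) {X : Scheme.{u}} (f : X ⟶ Spec (.of O))

-- BEGIN NC2
/-- (NC2) A chart at a node: `exists_chart_fp`, `Chart.exists_stalk_hom`, `stalk_fg` (Y/ChartBasic.lean), `node_data` (Y/NodeData.lean) for the stalk and `toStalk`,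
`spread_node` (Y/NodeSpread.lean) for `ρ` and the ideal of `y`; the chart is `Chart.away h`, its point by `Chart.mem_range_away`. -/
theorem node_chart [LocallyOfFinitePresentation f] (z : specialFibre O f)
    (hz : IsNode (pullback.snd f (resPt O)) z) :
    ∃ (c : Chart f) (y : Spec (.of c.A)), c.j y = pullback.fst f (resPt O) z ∧
      ∃ (a : O) (u v : c.A), a ∈ IsLocalRing.maximalIdeal O ∧ u ∈ y.asIdeal ∧ v ∈ y.asIdeal ∧
      (∀ r : c.A, ∃ (s : O) (p q r' : c.A),
        r = algebraMap O c.A s + u * p + v * q + algebraMap O c.A a * r') ∧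
      ∃ α β γ δ ε : c.A, u * v = α * u ^ 3 + β * (u ^ 2 * v) + γ * (u * v ^ 2) + δ * v ^ 3 +
        algebraMap O c.A a * ε := by
  obtain ⟨c, hfp, y, hy⟩ := exists_chart_fp (f := f) (pullback.fst f (resPt O) z)
  have hft : Algebra.FiniteType O c.A := inferInstance
  have hp : y.asIdeal.IsPrime := y.isPrime
  obtain ⟨ρ, hρ1, hρ2, hρ3, hρ4⟩ := c.exists_stalk_hom y z hy
  obtain ⟨e, he⟩ := hz.exists_equiv
  obtain ⟨x, x', hxx, hx3, hres⟩ := node_data (stalk_fg z)
    (toStalk (pullback.snd f (resPt O)) z) e he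
  obtain ⟨h, hh, a, u, v, ha, hu, hv, h1, h2⟩ := spread_node (O := O) (A := c.A)
    (T := (specialFibre O f).presheaf.stalk z) y.asIdeal ρ hρ1 hρ2 hρ3
    (by
      intro b hb
      rw [hρ4, (IsLocalRing.residue_eq_zero_iff b).2 hb, map_zero]) x x' hxx hx3
    (by
      intro t
      obtain ⟨b, hb⟩ := hres t
      obtain ⟨b', rfl⟩ := IsLocalRing.residue_surjective b
      refine ⟨b', ?_⟩
      rw [hρ4]
      exact hb)
  obtain ⟨y', hy', -, hy''⟩ := c.mem_range_away h y hh
  refine ⟨c.away h, y', hy'.trans hy, a, u, v, ha, ?_, ?_, h1, h2⟩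
  · rw [hy'']
    exact hu
  · rw [hy'']
    exact hv
-- END NC2

end Pool.Agent.Lib.MP_211349_ag
end
end

section

/-!
# Valuation rings over a valuation ring of rank one: bounds
-/

open Polynomial IntermediateField

universe u

noncomputable section

namespace Pool.Agent.Lib.MP_211349_ag

variable {K L : Type u} [Field K] [Field L] [Algebra K L] {O : ValuationSubring K}
  {v : ValuationSubring L}

/-- Elements different from zero are bounded below by constants. -/
theorem exists_lower [IsAlgClosed K] (hv : Over O v) (s : L) (hs : ResTrans O v s)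
    (halg : Algebra.IsAlgebraic K⟮s⟯ L) (z : L) :
    ∃ c : K, c ≠ 0 ∧ algebraMap K L c / z ∈ v := by
  obtain ⟨c, hc, h⟩ := exists_bound hv s hs halg z⁻¹
  refine ⟨c⁻¹, inv_ne_zero hc, ?_⟩
  rw [map_inv₀, div_eq_mul_inv, mul_comm, ← div_eq_mul_inv]
  exact h

-- BEGIN AR2
private theorem AR2_aux [IsAlgClosed K] (hv : Over O v) (s : L) (hs : ResTrans O v s) (z : L)
    (hz0 : z ≠ 0) (a b : K⟮s⟯) (ha : a ≠ 0) (hb : b ≠ 0) (i j : ℕ) (hij : i < j)
    (h : v.valuation ((a : L) * z ^ i) = v.valuation ((b : L) * z ^ j)) :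
    ∃ m : ℕ, 1 ≤ m ∧ ∃ c : K, c ≠ 0 ∧ v.valuation z ^ m = v.valuation (algebraMap K L c) := by
  have ha' : (a : L) ≠ 0 := by simpa using ha
  have hb' : (b : L) ≠ 0 := by simpa using hb
  have hab : ((a / b : K⟮s⟯) : L) = (a : L) / b := by push_cast; rfl
  obtain ⟨c, hc, h1, h2⟩ := ResTrans.exists_const hv hs ((a / b : K⟮s⟯) : L) (a / b).2
    (by rw [hab]; exact div_ne_zero ha' hb')
  refine ⟨j - i, by omega, c, hc, ?_⟩
  have hcne : v.valuation (algebraMap K L c) ≠ 0 := by
    rw [Valuation.ne_zero_iff]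
    simpa using hc
  have h3 : v.valuation ((a : L) / b) = v.valuation (algebraMap K L c) := by
    rw [← v.valuation_le_one_iff] at h1
    rw [ValuationSubring.mem_nonunits_iff, not_lt] at h2
    have h4 := le_antisymm h1 h2
    rw [map_div₀, div_eq_one_iff_eq hcne] at h4
    rw [← h4, hab]
  have hvz : v.valuation z ≠ 0 := (Valuation.ne_zero_iff _).2 hz0
  have hvb : v.valuation (b : L) ≠ 0 := (Valuation.ne_zero_iff _).2 hb'
  rw [← h3, map_div₀]
  rw [map_mul, map_mul, map_pow, map_pow] at h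
  have hj : j = (j - i) + i := by omega
  rw [hj, pow_add, ← mul_assoc] at h
  have h5 := mul_right_cancel₀ (pow_ne_zero i hvz) h
  rw [h5, mul_comm, mul_div_assoc, div_self hvb, mul_one]

/-- (AR2) Archimedean property. If `d ∉ O` take `n = 0`. If `z = 0` take `n = 1`. In general `z` is a root of a nonzero
polynomial over `K(s)`; two of its terms have the same (maximal) valuation: `z ^ m` (`m ≥ 1`) has the valuation of an element of
`K(s)`, hence (`ResTrans.exists_const`, V/Val1.lean) of a constant `c ∈ K`; `c` is a nonunit of `O`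
and `RankOne` gives `N` with `c ^ N ∈ d O`. -/
theorem exists_pow_div_mem [IsAlgClosed K] (hO : RankOne O) (hv : Over O v) (s : L)
    (hs : ResTrans O v s) (halg : Algebra.IsAlgebraic K⟮s⟯ L) (z : L) (hz : z ∈ v.nonunits) (d : K)
    (hd : d ≠ 0) : ∃ n : ℕ, z ^ n / algebraMap K L d ∈ v := by
  have hdne : v.valuation (algebraMap K L d) ≠ 0 := by
    rw [Valuation.ne_zero_iff]
    simpa using hd
  rcases eq_or_ne z 0 with rfl | hz0
  · exact ⟨1, by simp⟩
  have hex : ∃ m : ℕ, 1 ≤ m ∧ ∃ c : K, c ≠ 0 ∧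
      v.valuation z ^ m = v.valuation (algebraMap K L c) := by
    have hint : IsIntegral K⟮s⟯ z := (halg.isAlgebraic z).isIntegral
    set p := minpoly K⟮s⟯ z with hp
    have hp0 : p ≠ 0 := minpoly.ne_zero hint
    have hroot : aeval z p = 0 := minpoly.aeval _ _
    obtain ⟨i, hi, hmax⟩ := Finset.exists_max_image p.support
      (fun i => v.valuation ((p.coeff i : L) * z ^ i)) (Polynomial.support_nonempty.2 hp0)
    have hterm : ∀ j ∈ p.support, ((p.coeff j : L) * z ^ j) ≠ 0 := by
      intro j hj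
      refine mul_ne_zero ?_ (pow_ne_zero _ hz0)
      have := Polynomial.mem_support_iff.1 hj
      simpa using this
    have hexj : ∃ j ∈ p.support, j ≠ i ∧
        v.valuation ((p.coeff j : L) * z ^ j) = v.valuation ((p.coeff i : L) * z ^ i) := by
      by_contra hcon
      push Not at hcon
      have hlt : v.valuation (∑ j ∈ p.support.erase i, (p.coeff j : L) * z ^ j) <
          v.valuation ((p.coeff i : L) * z ^ i) := by
        apply Valuation.map_sum_lt
        · rw [Valuation.ne_zero_iff]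
          exact hterm i hi
        · intro j hj
          obtain ⟨hj1, hj2⟩ := Finset.mem_erase.1 hj
          exact lt_of_le_of_ne (hmax j hj2) (hcon j hj2 hj1)
      have hsum : (p.coeff i : L) * z ^ i = -∑ j ∈ p.support.erase i, (p.coeff j : L) * z ^ j := by
        rw [eq_neg_iff_add_eq_zero, Finset.add_sum_erase _ (fun j => (p.coeff j : L) * z ^ j) hi,
          ← hroot, aeval_def, eval₂_eq_sum, Polynomial.sum]
        rfl
      rw [hsum, Valuation.map_neg] at hlt
      exact lt_irrefl _ hlt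
    obtain ⟨j, hj, hji, he⟩ := hexj
    have hi' := Polynomial.mem_support_iff.1 hi
    have hj' := Polynomial.mem_support_iff.1 hj
    rcases lt_or_gt_of_ne hji with hlt | hgt
    · exact AR2_aux hv s hs z hz0 _ _ hj' hi' j i hlt he
    · exact AR2_aux hv s hs z hz0 _ _ hi' hj' i j hgt he.symm
  obtain ⟨m, hm, c, hc, hzc⟩ := hex
  have hz1 : v.valuation z < 1 := (ValuationSubring.mem_nonunits_iff v).1 hz
  have hcn : c ∈ O.nonunits := by
    rw [← hv.nonunits_iff, ValuationSubring.mem_nonunits_iff, ← hzc]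
    exact pow_lt_one₀ zero_le hz1 (by omega)
  by_cases hdO : d ∈ O
  · have hcO : c ∈ O := ValuationSubring.nonunits_subset hcn
    have hcnu : ¬ IsUnit (⟨c, hcO⟩ : O) := by
      have := (ValuationSubring.coe_mem_nonunits_iff (A := O) (a := ⟨c, hcO⟩)).1 hcn
      exact (IsLocalRing.mem_maximalIdeal _).1 this
    obtain ⟨n, e, he⟩ := hO.2 ⟨c, hcO⟩ ⟨d, hdO⟩ hcnu (by
      intro h
      exact hd (by simpa using congrArg Subtype.val h))
    have he' : c ^ n = d * e := by simpa using congrArg Subtype.val he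
    refine ⟨m * n, ?_⟩
    rw [← v.valuation_le_one_iff, map_div₀, map_pow, pow_mul, hzc, ← map_pow, ← map_pow, he', map_mul,
      map_mul, mul_comm, mul_div_assoc, div_self hdne, mul_one, v.valuation_le_one_iff]
    exact (hv.mem_iff _).2 e.2
  · refine ⟨0, ?_⟩
    rw [pow_zero, one_div, ← map_inv₀]
    exact (hv.mem_iff _).2 ((O.mem_or_inv_mem d).resolve_left hdO)
-- END AR2

-- BEGIN AR3
/-- (AR3) Exchange in transcendence degree one: `x` is transcendental over `K` (since `y` is, `L` being algebraic over `K(x)`),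
`y` is a root of a nonzero polynomial over `K(x)`, equivalently `P(x, y) = 0` for a nonzero polynomial in two variables; as
`y` is transcendental, `x` is algebraic over `K(y)`. (Or transcendence bases: Mathlib.RingTheory.AlgebraicIndependent.TranscendenceBasis.) -/
theorem isAlgebraic_adjoin_simple (x y : L) (hx : Algebra.IsAlgebraic K⟮x⟯ L)
    (hy : Transcendental K y) : Algebra.IsAlgebraic K⟮y⟯ L := by
  have h1 : Algebra.IsAlgebraic (Algebra.adjoin K {x}) L :=
    IntermediateField.isAlgebraic_adjoin_iff_top.1 hx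
  have h2 : Algebra.trdeg K L ≤ 1 := by
    have h := Algebra.IsAlgebraic.trdeg_le_cardinalMk K (A := L) {x}
    rwa [Cardinal.mk_singleton] at h
  have h3 : AlgebraicIndependent K (fun _ : Unit => y) :=
    algebraicIndependent_unique_type_iff.2 hy
  have h4 : IsTranscendenceBasis K (fun _ : Unit => y) := by
    refine h3.isTranscendenceBasis_of_lift_trdeg_le_of_finite ?_
    simpa using h2
  have h5 := h4.isAlgebraic_field
  rwa [Set.range_const] at h5
-- END AR3

-- BEGIN AR4
/-- (AR4) A composite of `K'` and `M` is algebraic over any intermediate field `E` of `L' / K'` over which the `θ b` are algebraic: the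
algebraic elements form a field, and `h.frac`. -/
theorem FracExt.isAlgebraic_of_forall {K M K' L' : Type u} [CommRing K] [CommRing M] [Field K']
    [Field L'] [Algebra K' L'] {κ : K →+* M} {σ : K →+* K'} {θ : M →+* L'}
    (h : FracExt κ (algebraMap K' L') σ θ) (E : IntermediateField K' L')
    (hE : ∀ b : M, IsAlgebraic E (θ b)) : Algebra.IsAlgebraic E L' := by
  have hs : ∀ (n : ℕ) (c : Fin n → K') (b : Fin n → M),
      IsAlgebraic E (∑ i, algebraMap K' L' (c i) * θ (b i)) := by
    intro n c b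
    refine Finset.sum_induction _ (fun z => IsAlgebraic E z) (fun _ _ => IsAlgebraic.add) isAlgebraic_zero fun i _ => ?_
    refine IsAlgebraic.mul ?_ (hE (b i))
    have h1 : algebraMap K' L' (c i) = algebraMap E L' (algebraMap K' E (c i)) :=
      (IsScalarTower.algebraMap_apply K' E L' (c i)).symm ▸ rfl
    rw [h1]
    exact isAlgebraic_algebraMap _
  refine ⟨fun z => ?_⟩
  obtain ⟨n, c, d, b, -, hz⟩ := h.frac z
  rw [hz, div_eq_mul_inv]
  exact (hs n c b).mul (hs n d b).inv
-- END AR4

-- BEGIN AR5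
/-- (AR5) A composite of `K'` and an algebraic extension `M` of `K(x)` is algebraic over `K'(θ x)`: each `b ∈ M` is a root of a nonzero polynomial over
`K[x]`; apply `θ` (injective) and `θ κ = κ' σ`; (AR4). -/
theorem FracExt.isAlgebraic {M K' L' : Type u} [Field M] [Field K'] [Field L'] [Algebra K' L']
    {κ : K →+* M} {σ : K →+* K'} {θ : M →+* L'} (h : FracExt κ (algebraMap K' L') σ θ) (x : M)
    (hx : letI := κ.toAlgebra; Algebra.IsAlgebraic (Algebra.adjoin K {x}) M) :
    Algebra.IsAlgebraic K'⟮θ x⟯ L' := by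
  let _ : Algebra K M := κ.toAlgebra
  have hx' : Algebra.IsAlgebraic (Algebra.adjoin K {x}) M := hx
  refine h.isAlgebraic_of_forall K'⟮θ x⟯ fun b => ?_
  have hmem : ∀ a : Algebra.adjoin K {x}, θ (a : M) ∈ K'⟮θ x⟯ := by
    rintro ⟨a, ha⟩
    refine Algebra.adjoin_induction (p := fun a _ => θ a ∈ K'⟮θ x⟯) ?_ ?_ ?_ ?_ ha
    · intro a ha
      rw [Set.mem_singleton_iff] at ha
      rw [ha]
      exact IntermediateField.mem_adjoin_simple_self K' (θ x)
    · intro r
      have h1 : θ (algebraMap K M r) = algebraMap K' L' (σ r) := h.comm r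
      rw [h1]
      exact IntermediateField.algebraMap_mem _ _
    · intro a b _ _ ha hb
      rw [map_add]
      exact add_mem ha hb
    · intro a b _ _ ha hb
      rw [map_mul]
      exact mul_mem ha hb
  let ψ : Algebra.adjoin K {x} →+* K'⟮θ x⟯ :=
    (θ.comp (algebraMap (Algebra.adjoin K {x}) M)).codRestrict K'⟮θ x⟯ hmem
  have hψ : (algebraMap K'⟮θ x⟯ L').comp ψ = θ.comp (algebraMap (Algebra.adjoin K {x}) M) := rfl
  have hinj : Function.Injective ψ := by
    intro a a' haa
    have h1 : (algebraMap K'⟮θ x⟯ L') (ψ a) = (algebraMap K'⟮θ x⟯ L') (ψ a') := by rw [haa]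
    have h2 : θ (a : M) = θ (a' : M) := h1
    exact Subtype.ext (θ.injective h2)
  obtain ⟨P, hP, hb⟩ := hx'.isAlgebraic b
  refine ⟨P.map ψ, (Polynomial.map_ne_zero_iff hinj).2 hP, ?_⟩
  rw [Polynomial.aeval_def, Polynomial.eval₂_map, hψ, ← Polynomial.hom_eval₂,
    ← Polynomial.aeval_def, hb, map_zero]
-- END AR5

end Pool.Agent.Lib.MP_211349_ag
end
end

section

/-!
# Approximation by rational functions
-/

open Polynomial IntermediateField

universe u

noncomputable section

namespace Pool.Agent.Lib.MP_211349_ag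

variable {K L : Type u} [Field K] [Field L] [Algebra K L] {O : ValuationSubring K}
  {v : ValuationSubring L}

-- BEGIN AP1
/-- (AP1) A residue field with a nonconstant solution of an equation without rational parametrization is not
rational. As `NR_of_eq` in P2/Pair.lean: `exists_ratFunc_hom` (V/Val3.lean) gives a surjective (injective, being a
homomorphism of fields) `ψ : k(X) → κ(v)` over `k`; pull back the residues of the solution, `map_evalAt` (Y/Defs.lean), `NoParam`. -/
theorem NR_of_sol [IsAlgClosed K] (hv : Over O v) (G : O[X][X]) (hG : NoParam O G)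
    (hs : Sol O v G) : NR O v := by
  obtain ⟨X, Y, hX, hY, hXY⟩ := hs
  refine ⟨⟨X, hX⟩, ?_⟩
  intro s hs hd
  obtain ⟨hX, hne⟩ := hX
  obtain ⟨ψ, hψ, hC⟩ := exists_ratFunc_hom hv s hs hd
  obtain ⟨x, hx⟩ := hψ (IsLocalRing.residue v ⟨X, hX⟩)
  obtain ⟨y, hy⟩ := hψ (IsLocalRing.residue v ⟨Y, hY⟩)
  have hnon : ∀ z : v, (z : L) ∈ v.nonunits ↔ IsLocalRing.residue v z = 0 := by
    intro z
    rw [IsLocalRing.residue_eq_zero_iff]
    exact ValuationSubring.coe_mem_nonunits_iff
  have hxy : evalAt (RatFunc.C.comp (IsLocalRing.residue O)) G x y = 0 := by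
    apply ψ.injective
    rw [map_zero, map_evalAt, hx, hy]
    have h1 : ψ.comp (RatFunc.C.comp (IsLocalRing.residue O)) =
        (IsLocalRing.residue v).comp (valHom (algebraMap K L) hv) := by
      ext a
      exact hC a _ (valHom_coe _ _ a)
    rw [h1, ← map_evalAt, ← hnon]
    have h2 : ((evalAt (valHom (algebraMap K L) hv) G ⟨X, hX⟩ ⟨Y, hY⟩ : v) : L) =
        evalAt ((algebraMap K L).comp O.subtype) G X Y := by
      change v.subtype _ = _
      rw [map_evalAt]
      rfl
    rw [h2]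
    exact hXY
  obtain ⟨a, ha⟩ := hG x y hxy
  obtain ⟨b, rfl⟩ := IsLocalRing.residue_surjective a
  have hbv : algebraMap K L b ∈ v := (Over.mem_iff hv _).2 b.2
  have h3 := hC b ⟨_, hbv⟩ rfl
  rw [← ha, hx, ← sub_eq_zero, ← map_sub, ← hnon] at h3
  exact hne b b.2 h3
-- END AP1

-- BEGIN AP2
private theorem AP2_mem_gen (s : L) (z : K⟮s⟯) : z ∈ K⟮IntermediateField.AdjoinSimple.gen K s⟯ := by
  obtain ⟨p, q, hpq⟩ := (IntermediateField.mem_adjoin_simple_iff K (z : L)).1 z.2
  refine (IntermediateField.mem_adjoin_simple_iff K z).2 ⟨p, q, ?_⟩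
  apply Subtype.ext
  have h : ∀ r : K[X], ((aeval (IntermediateField.AdjoinSimple.gen K s) r : K⟮s⟯) : L) = aeval s r := by
    intro r
    exact (Polynomial.aeval_algHom_apply (K⟮s⟯).val (IntermediateField.AdjoinSimple.gen K s) r).symm
  rw [hpq]
  push_cast
  rw [h, h]

/-- (AP2) No solutions in `K(t)`. `exists_resTrans_linear` (V/Val2.lean) gives `s = (t - a) / c` residually transcendental
with `K(s) = K(t)` (compare `rational_of_root` in P2/Val.lean). Let `E = K⟮s⟯`, `vE = v.comap (algebraMap E L)`, over `O`. If `evalAt .. ∈ v.nonunits` then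
`Sol O vE G` for the generator `s` of `E`, and (AP1) for `E`, `vE` gives `NR O vE`, which is false since
`K⟮s⟯ = ⊤` in `E` is dense (`z' = z`). -/
theorem not_sol_adjoin [IsAlgClosed K] (hv : Over O v) (G : O[X][X]) (hG : NoParam O G)
    (t x y : L) (hx : x ∈ K⟮t⟯) (hy : y ∈ K⟮t⟯) (hxr : ResTrans O v x) (hyv : y ∈ v) :
    evalAt ((algebraMap K L).comp O.subtype) G x y ∉ v.nonunits := by
  intro hbad
  obtain ⟨a, c, hc, hs⟩ := exists_resTrans_linear hv t x hx hxr
  have hc0 : algebraMap K L c ≠ 0 := (_root_.map_ne_zero _).2 hc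
  have hst : K⟮t⟯ ≤ K⟮(t - algebraMap K L a) / algebraMap K L c⟯ := by
    rw [IntermediateField.adjoin_simple_le_iff]
    have h1 : t = (t - algebraMap K L a) / algebraMap K L c * algebraMap K L c +
        algebraMap K L a := by
      rw [div_mul_cancel₀ _ hc0]; ring
    rw [h1]
    refine add_mem (mul_mem ?_ (IntermediateField.algebraMap_mem _ c))
      (IntermediateField.algebraMap_mem _ a)
    rw [← h1]
    exact IntermediateField.mem_adjoin_simple_self K _
  set s : L := (t - algebraMap K L a) / algebraMap K L c with hsdef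
  let vE : ValuationSubring K⟮s⟯ := v.comap (algebraMap K⟮s⟯ L)
  have hvE : Over O vE := by
    unfold Over at hv ⊢
    rw [← hv]
    rfl
  have hnon : ∀ z : K⟮s⟯, (z : L) ∈ v.nonunits ↔ z ∈ vE.nonunits := fun z =>
    map_mem_nonunits_iff (algebraMap K⟮s⟯ L) (O := vE) (O' := v) rfl z
  have hres : ∀ z : K⟮s⟯, ResTrans O v (z : L) → ResTrans O vE z := by
    rintro z ⟨h1, h2⟩
    refine ⟨h1, fun b hb hb' => h2 b hb ?_⟩
    have := (hnon _).2 hb'
    exact this
  have hsol : Sol O vE G := by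
    refine ⟨⟨x, hst hx⟩, ⟨y, hst hy⟩, hres ⟨x, hst hx⟩ hxr, hyv, ?_⟩
    rw [← hnon]
    have h := map_evalAt (algebraMap K⟮s⟯ L) ((algebraMap K K⟮s⟯).comp O.subtype) G
      ⟨x, hst hx⟩ ⟨y, hst hy⟩
    change (algebraMap K⟮s⟯ L) _ ∈ _
    rw [h]
    exact hbad
  obtain ⟨-, h2⟩ := NR_of_sol hvE G hG hsol
  refine h2 (IntermediateField.AdjoinSimple.gen K s) (hres _ hs) fun z _ => ⟨z, AP2_mem_gen s z, ?_⟩
  rw [sub_self, ValuationSubring.mem_nonunits_iff, map_zero]
  exact zero_lt_one
-- END AP2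

-- BEGIN AP3
/-- (AP3) Approximation of fractions. Let `z₁ = a₁ / b₁`, `z₂ = a₂ / b₂` with elements of `D`; `b = b₁ b₂` is a common denominator, so `z_i = a_i / b` (new `a_i ∈ D`), `b ≠ 0`. `exists_lower`
(Y/Arch.lean) gives `e ∈ K`, `e ≠ 0`, `|e| ≤ |b|` (`|.|` is `v.valuation`). Let `d = ϖ e ^ 2` with a nonzero nonunit `ϖ` of `O` (`hO.1`). If `a_i', b' ∈ K(t)` approximate `a_i, b` up to `d` then
`|b'| = |b|`, `b' ≠ 0`, and `z_i' = a_i' / b'` satisfies `z_i - z_i' = (a_i b' - a_i' b) / (b b') = ((a_i - a_i') b - a_i (b - b')) / (b b')`, of absolute value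
`≤ |d| / |e| ^ 2 = |ϖ| < 1`. -/
theorem exists_approx [IsAlgClosed K] (hO : RankOne O) (hv : Over O v) (D : Subring L)
    (hDv : ∀ a ∈ D, a ∈ v) (hfrac : ∀ z : L, ∃ a ∈ D, ∃ b ∈ D, b ≠ 0 ∧ z = a / b) (s : L)
    (hs : ResTrans O v s) (halg : Algebra.IsAlgebraic K⟮s⟯ L) (z₁ z₂ : L) :
    ∃ d : K, d ≠ 0 ∧ ∀ t : L, (∀ a ∈ D, ∃ a' ∈ K⟮t⟯, (a - a') / algebraMap K L d ∈ v) →
      ∃ z₁' ∈ K⟮t⟯, ∃ z₂' ∈ K⟮t⟯, z₁ - z₁' ∈ v.nonunits ∧ z₂ - z₂' ∈ v.nonunits := by
  obtain ⟨a₁, ha₁, b₁, hb₁, hb₁0, hz₁⟩ := hfrac z₁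
  obtain ⟨a₂, ha₂, b₂, hb₂, hb₂0, hz₂⟩ := hfrac z₂
  have hb0 : b₁ * b₂ ≠ 0 := mul_ne_zero hb₁0 hb₂0
  have hbD : b₁ * b₂ ∈ D := D.mul_mem hb₁ hb₂
  obtain ⟨e, he, heb⟩ := exists_lower hv s hs halg (b₁ * b₂)
  obtain ⟨⟨ϖ, hϖO⟩, hϖ0, hϖu⟩ := hO.1
  have hϖ0' : ϖ ≠ 0 := fun h => hϖ0 (Subtype.ext h)
  have hϖn : algebraMap K L ϖ ∈ v.nonunits := by
    rw [Over.nonunits_iff hv]
    exact (ValuationSubring.mem_nonunits_iff_exists_mem_maximalIdeal).2
      ⟨hϖO, (IsLocalRing.mem_maximalIdeal _).2 hϖu⟩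
  rw [ValuationSubring.mem_nonunits_iff] at hϖn
  have hev : v.valuation (algebraMap K L e) ≤ v.valuation (b₁ * b₂) := by
    have h1 := (v.valuation_le_one_iff _).2 heb
    rw [map_div₀, div_le_one₀ (zero_lt_iff.2 ((Valuation.ne_zero_iff _).2 hb0))] at h1
    exact h1
  have hbv : v.valuation (b₁ * b₂) ≤ 1 := (v.valuation_le_one_iff _).2 (hDv _ hbD)
  have hbpos : 0 < v.valuation (b₁ * b₂) := zero_lt_iff.2 ((Valuation.ne_zero_iff _).2 hb0)
  have hepos : 0 < v.valuation (algebraMap K L e) :=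
    zero_lt_iff.2 ((Valuation.ne_zero_iff _).2 ((_root_.map_ne_zero _).2 he))
  refine ⟨ϖ * e ^ 2, mul_ne_zero hϖ0' (pow_ne_zero 2 he), fun t ht => ?_⟩
  set δ := v.valuation (algebraMap K L (ϖ * e ^ 2)) with hδ
  have hδpos : 0 < δ := zero_lt_iff.2 ((Valuation.ne_zero_iff _).2
    ((_root_.map_ne_zero _).2 (mul_ne_zero hϖ0' (pow_ne_zero 2 he))))
  have hδeq : δ = v.valuation (algebraMap K L ϖ) * v.valuation (algebraMap K L e) ^ 2 := by
    rw [hδ, map_mul, map_mul, map_pow, map_pow]
  have happ : ∀ a ∈ D, ∃ a' ∈ K⟮t⟯, v.valuation (a - a') ≤ δ := by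
    intro a ha
    obtain ⟨a', ha', h⟩ := ht a ha
    refine ⟨a', ha', ?_⟩
    have h1 := (v.valuation_le_one_iff _).2 h
    rwa [map_div₀, div_le_one₀ hδpos] at h1
  -- `δ < |b| ^ 2`
  have hδb2 : δ < v.valuation (b₁ * b₂) ^ 2 := by
    rw [hδeq]
    calc v.valuation (algebraMap K L ϖ) * v.valuation (algebraMap K L e) ^ 2
        < 1 * v.valuation (algebraMap K L e) ^ 2 :=
          mul_lt_mul_of_pos_right hϖn (pow_pos hepos 2)
      _ ≤ v.valuation (b₁ * b₂) ^ 2 := by
          rw [one_mul]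
          exact pow_le_pow_left₀ zero_le hev 2
  have hδb : δ < v.valuation (b₁ * b₂) := by
    refine hδb2.trans_le ?_
    rw [sq]
    exact mul_le_of_le_one_left' hbv
  obtain ⟨b', hb'K, hb'⟩ := happ _ hbD
  have hbb' : v.valuation b' = v.valuation (b₁ * b₂) := by
    have h1 : b' = b₁ * b₂ - (b₁ * b₂ - b') := by ring
    rw [h1]
    exact Valuation.map_sub_eq_of_lt_left _ (hb'.trans_lt hδb)
  have hb'0 : b' ≠ 0 := by
    rintro rfl
    rw [map_zero] at hbb'
    exact hbpos.ne hbb'
  have key : ∀ A ∈ D, ∃ z' ∈ K⟮t⟯, A / (b₁ * b₂) - z' ∈ v.nonunits := by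
    intro A hA
    obtain ⟨A', hA'K, hA'⟩ := happ A hA
    refine ⟨A' / b', div_mem hA'K hb'K, ?_⟩
    rw [ValuationSubring.mem_nonunits_iff]
    have h1 : A / (b₁ * b₂) - A' / b'
        = ((A - A') * (b₁ * b₂) - A * (b₁ * b₂ - b')) / ((b₁ * b₂) * b') := by
      field_simp
      ring
    rw [h1, map_div₀, map_mul v.valuation (b₁ * b₂) b', hbb', ← sq,
      div_lt_one₀ (pow_pos hbpos 2)]
    refine lt_of_le_of_lt ?_ hδb2
    refine (v.valuation.map_sub_le ?_ ?_)
    · rw [map_mul]
      exact (mul_le_of_le_one_right' hbv).trans hA'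
    · rw [map_mul]
      exact (mul_le_of_le_one_left' ((v.valuation_le_one_iff _).2 (hDv A hA))).trans hb'
  have e₁ : z₁ = a₁ * b₂ / (b₁ * b₂) := by
    rw [hz₁]
    field_simp
  have e₂ : z₂ = a₂ * b₁ / (b₁ * b₂) := by
    rw [hz₂]
    field_simp
  obtain ⟨z₁', h₁, h₁'⟩ := key (a₁ * b₂) (D.mul_mem ha₁ hb₂)
  obtain ⟨z₂', h₂, h₂'⟩ := key (a₂ * b₁) (D.mul_mem ha₂ hb₁)
  exact ⟨z₁', h₁, z₂', h₂, by rw [e₁]; exact h₁', by rw [e₂]; exact h₂'⟩
-- END AP3

-- BEGIN AP5
private theorem AP5_nonunits_iff (z : v) : (z : L) ∈ v.nonunits ↔ IsLocalRing.residue v z = 0 := by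
  rw [IsLocalRing.residue_eq_zero_iff, ValuationSubring.mem_nonunits_iff_exists_mem_maximalIdeal]
  constructor
  · rintro ⟨h, h'⟩
    exact h'
  · intro h
    exact ⟨z.2, h⟩

private theorem AP5_cong (hv : Over O v) (G : O[X][X]) (x y x' y' : v)
    (hx : (x : L) - x' ∈ v.nonunits) (hy : (y : L) - y' ∈ v.nonunits)
    (h : evalAt ((algebraMap K L).comp O.subtype) G (x : L) (y : L) ∈ v.nonunits) :
    evalAt ((algebraMap K L).comp O.subtype) G (x' : L) (y' : L) ∈ v.nonunits := by
  let φ : O →+* v := valHom (algebraMap K L) hv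
  have hφ : v.subtype.comp φ = (algebraMap K L).comp O.subtype := by
    ext a
    rfl
  have e : ∀ a b : v, evalAt ((algebraMap K L).comp O.subtype) G (a : L) (b : L)
      = ((evalAt φ G a b : v) : L) := by
    intro a b
    rw [← hφ]
    exact (map_evalAt v.subtype φ G a b).symm
  rw [e, AP5_nonunits_iff, map_evalAt] at h ⊢
  have hx' : IsLocalRing.residue v x = IsLocalRing.residue v x' := by
    rw [← sub_eq_zero, ← map_sub, ← AP5_nonunits_iff]
    exact hx
  have hy' : IsLocalRing.residue v y = IsLocalRing.residue v y' := by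
    rw [← sub_eq_zero, ← map_sub, ← AP5_nonunits_iff]
    exact hy
  rw [← hx', ← hy']
  exact h

/-- (AP5) If all elements of a subring `D ⊆ v` with field of fractions `L` are approximated, as well as we want, by
elements of some rational function field `K(t)`, then the residue field of `v` has no nonconstant solution of `G`. Let
`(x, y)` be a solution; `d` by (AP3), `t` by `happ`, `x', y' ∈ K(t)` with `x - x', y - y' ∈ v.nonunits`; so `x'` is residually transcendental, `y' ∈ v`,
and `evalAt .. G x' y' ∈ v.nonunits` (the values of a polynomial with coefficients in `v` at congruent arguments in `v` are congruent, e.g.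
by `map_evalAt` for the residue map `v → κ(v)`). Contradiction to (AP2). -/
theorem not_sol_of_approx [IsAlgClosed K] (hO : RankOne O) (hv : Over O v) (G : O[X][X])
    (hG : NoParam O G) (D : Subring L) (hDv : ∀ a ∈ D, a ∈ v)
    (hfrac : ∀ z : L, ∃ a ∈ D, ∃ b ∈ D, b ≠ 0 ∧ z = a / b) (s : L) (hs : ResTrans O v s)
    (halg : Algebra.IsAlgebraic K⟮s⟯ L)
    (happ : ∀ d : K, d ≠ 0 → ∃ t : L, ∀ a ∈ D, ∃ a' ∈ K⟮t⟯, (a - a') / algebraMap K L d ∈ v) :
    ¬ Sol O v G := by
  rintro ⟨x, y, hx, hy, hxy⟩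
  obtain ⟨d, hd, h⟩ := exists_approx hO hv D hDv hfrac s hs halg x y
  obtain ⟨t, ht⟩ := happ d hd
  obtain ⟨x', hx', y', hy', hxx, hyy⟩ := h t ht
  have hsub : ∀ z z' : L, z ∈ v → z - z' ∈ v.nonunits → z' ∈ v := by
    intro z z' hz hzz
    have e : z' = z - (z - z') := by ring
    rw [e]
    exact sub_mem hz (v.nonunits_le hzz)
  have hx'v := hsub x x' hx.1 hxx
  have hy'v := hsub y y' hy hyy
  have hx'r : ResTrans O v x' := by
    refine ⟨hx'v, fun a ha ha' => hx.2 a ha ?_⟩
    rw [ValuationSubring.mem_nonunits_iff] at hxx ha' ⊢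
    have e : x - algebraMap K L a = (x - x') + (x' - algebraMap K L a) := by ring
    rw [e]
    exact Valuation.map_add_lt _ hxx ha'
  exact not_sol_adjoin hv G hG t x' y' hx' hy' hx'r hy'v
    (AP5_cong hv G ⟨x, hx.1⟩ ⟨y, hy⟩ ⟨x', hx'v⟩ ⟨y', hy'v⟩ hxx hyy hxy)
-- END AP5

-- BEGIN AP6
/-- (AP6) If `K(t)` is dense then the residue field is rational. Suppose `NR O v`. By (AP3) every `z : L` is congruent to an element `z'` of `K(t)`. For
`z = s`: `s'` is residually transcendental, so `exists_resTrans_linear` (V/Val2.lean) gives `s₀ = (t - a) / c` residually transcendental with `K(s₀) = K(t)` (see the proof of `rational_of_root` in P2/Val.lean); contradiction to `NR`. -/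
theorem not_NR_of_dense [IsAlgClosed K] (hO : RankOne O) (hv : Over O v) (D : Subring L)
    (hDv : ∀ a ∈ D, a ∈ v) (hfrac : ∀ z : L, ∃ a ∈ D, ∃ b ∈ D, b ≠ 0 ∧ z = a / b) (s : L)
    (hs : ResTrans O v s) (halg : Algebra.IsAlgebraic K⟮s⟯ L) (t : L)
    (happ : ∀ d : K, d ≠ 0 → ∀ a ∈ D, ∃ a' ∈ K⟮t⟯, (a - a') / algebraMap K L d ∈ v) :
    ¬ NR O v := by
  rintro ⟨-, h2⟩
  have happr : ∀ z : L, ∃ z' ∈ K⟮t⟯, z - z' ∈ v.nonunits := by
    intro z
    obtain ⟨d, hd, h⟩ := exists_approx hO hv D hDv hfrac s hs halg z z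
    obtain ⟨z', hz', _, _, hzz, _⟩ := h t (happ d hd)
    exact ⟨z', hz', hzz⟩
  obtain ⟨s', hs', hss⟩ := happr s
  have hs'v : s' ∈ v := by
    have e : s' = s - (s - s') := by ring
    rw [e]
    exact sub_mem hs.1 (v.nonunits_le hss)
  have hs'r : ResTrans O v s' := by
    refine ⟨hs'v, fun a ha ha' => hs.2 a ha ?_⟩
    rw [ValuationSubring.mem_nonunits_iff] at hss ha' ⊢
    have e : s - algebraMap K L a = (s - s') + (s' - algebraMap K L a) := by ring
    rw [e]
    exact Valuation.map_add_lt _ hss ha'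
  obtain ⟨a, c, hc, h0⟩ := exists_resTrans_linear hv t s' hs' hs'r
  have hc0 : algebraMap K L c ≠ 0 := (_root_.map_ne_zero _).2 hc
  have hst : K⟮t⟯ ≤ K⟮(t - algebraMap K L a) / algebraMap K L c⟯ := by
    rw [IntermediateField.adjoin_simple_le_iff]
    have h1 : t = (t - algebraMap K L a) / algebraMap K L c * algebraMap K L c +
        algebraMap K L a := by
      rw [div_mul_cancel₀ _ hc0]; ring
    rw [h1]
    refine add_mem (mul_mem ?_ (IntermediateField.algebraMap_mem _ c))
      (IntermediateField.algebraMap_mem _ a)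
    rw [← h1]
    exact IntermediateField.mem_adjoin_simple_self K _
  refine h2 _ h0 fun z _ => ?_
  obtain ⟨z', hz', hzz⟩ := happr z
  exact ⟨z', hst hz', hzz⟩
-- END AP6

-- BEGIN AP4
/-- (AP4) The elements approximated up to `d ∈ O` by `K(t)` form a subring: `Subring.closure_induction`. -/
theorem approx_closure (hv : Over O v) (d : K) (hd : d ∈ O) (hd0 : d ≠ 0) (t : L) (S : Set L)
    (hSv : ∀ a ∈ S, a ∈ v) (hS : ∀ a ∈ S, ∃ a' ∈ K⟮t⟯, (a - a') / algebraMap K L d ∈ v) (a : L)
    (ha : a ∈ Subring.closure S) : ∃ a' ∈ K⟮t⟯, (a - a') / algebraMap K L d ∈ v := by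
  have hd0' : algebraMap K L d ≠ 0 := (_root_.map_ne_zero _).2 hd0
  have hdv : algebraMap K L d ∈ v := (Over.mem_iff hv d).2 hd
  have key : a ∈ v ∧ ∃ a' ∈ K⟮t⟯, (a - a') / algebraMap K L d ∈ v := by
    induction ha using Subring.closure_induction with
    | mem x hx => exact ⟨hSv x hx, hS x hx⟩
    | zero => exact ⟨v.zero_mem, 0, zero_mem _, by rw [sub_self, zero_div]; exact v.zero_mem⟩
    | one => exact ⟨v.one_mem, 1, one_mem _, by rw [sub_self, zero_div]; exact v.zero_mem⟩
    | add x y _ _ hx hy =>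
      obtain ⟨hx1, x', hx', hx2⟩ := hx
      obtain ⟨hy1, y', hy', hy2⟩ := hy
      refine ⟨v.add_mem _ _ hx1 hy1, x' + y', add_mem hx' hy', ?_⟩
      have h : (x + y - (x' + y')) / algebraMap K L d
          = (x - x') / algebraMap K L d + (y - y') / algebraMap K L d := by
        rw [← add_div]
        congr 1
        ring
      rw [h]
      exact v.add_mem _ _ hx2 hy2
    | neg x _ hx =>
      obtain ⟨hx1, x', hx', hx2⟩ := hx
      refine ⟨v.neg_mem _ hx1, -x', neg_mem hx', ?_⟩
      have h : (-x - -x') / algebraMap K L d = -((x - x') / algebraMap K L d) := by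
        rw [← neg_div]
        congr 1
        ring
      rw [h]
      exact v.neg_mem _ hx2
    | mul x y _ _ hx hy =>
      obtain ⟨hx1, x', hx', hx2⟩ := hx
      obtain ⟨hy1, y', hy', hy2⟩ := hy
      have hy1' : y' ∈ v := by
        have h : y' = y - (y - y') / algebraMap K L d * algebraMap K L d := by
          rw [div_mul_cancel₀ _ hd0']
          ring
        rw [h]
        exact sub_mem hy1 (v.mul_mem _ _ hy2 hdv)
      refine ⟨v.mul_mem _ _ hx1 hy1, x' * y', mul_mem hx' hy', ?_⟩
      have h : (x * y - x' * y') / algebraMap K L d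
          = x * ((y - y') / algebraMap K L d) + (x - x') / algebraMap K L d * y' := by
        field_simp
        ring
      rw [h]
      exact v.add_mem _ _ (v.mul_mem _ _ hx1 hy2) (v.mul_mem _ _ hx2 hy1')
  exact key.2
-- END AP4

end Pool.Agent.Lib.MP_211349_ag
end
end

section

/-!
# Valuation rings centred at a node
-/

open Polynomial IntermediateField

universe u

noncomputable section

namespace Pool.Agent.Lib.MP_211349_ag

variable {K L : Type u} [Field K] [Field L] [Algebra K L] {O : ValuationSubring K}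
  {v : ValuationSubring L}

-- BEGIN NV1
/-- Membership of quotients in a valuation ring in terms of the valuation. -/
private theorem NV1_div {v : ValuationSubring L} (x y : L) (hy : y ≠ 0) :
    x / y ∈ v ↔ v.valuation x ≤ v.valuation y := by
  rw [← ValuationSubring.valuation_le_one_iff, map_div₀]
  exact div_le_one₀ (lt_of_le_of_ne zero_le ((v.valuation.ne_zero_iff).2 hy).symm)

/-- The elements of a subring of small absolute value form an ideal. -/
private theorem NV1_ideal (v : ValuationSubring L) (A : Subring L) (hAv : ∀ z ∈ A, z ∈ v)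
    (D : L) : ∃ J : Ideal A, ∀ z : A, z ∈ J ↔ v.valuation (z : L) ≤ v.valuation D := by
  refine ⟨{ carrier := {z | v.valuation (z : L) ≤ v.valuation D}, add_mem' := ?_,
            zero_mem' := ?_, smul_mem' := ?_ }, fun z => Iff.rfl⟩
  · intro x y hx hy
    change v.valuation ((x + y : A) : L) ≤ v.valuation D
    exact (v.valuation.map_add (x : L) y).trans (max_le
      (show v.valuation (x : L) ≤ v.valuation D from hx)
      (show v.valuation (y : L) ≤ v.valuation D from hy))
  · change v.valuation ((0 : A) : L) ≤ v.valuation D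
    rw [ZeroMemClass.coe_zero, map_zero]
    exact zero_le
  · intro c x hx
    change v.valuation ((c * x : A) : L) ≤ v.valuation D
    have h1 : v.valuation (c : L) ≤ 1 := (v.valuation_le_one_iff _).2 (hAv c c.2)
    rw [MulMemClass.coe_mul, map_mul]
    exact (mul_le_of_le_one_left' h1).trans hx

/-- The normal form of a node, in the coordinate ring. -/
private theorem NV1_normal (v : ValuationSubring L)
    (S A : Subring L) (hSA : S ≤ A)
    (hAv : ∀ z ∈ A, z ∈ v) (a u₁ u₂ : L) (haS : a ∈ S) (h₁ : u₁ ∈ A)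
    (h₂ : u₂ ∈ A) (D : L)
    (hn₁ : ∃ n : ℕ, v.valuation (u₁ ^ n) ≤ v.valuation D)
    (hn₂ : ∃ n : ℕ, v.valuation (u₂ ^ n) ≤ v.valuation D)
    (hna : ∃ n : ℕ, v.valuation (a ^ n) ≤ v.valuation D)
    (hgen : ∀ z ∈ A, ∃ s ∈ S, ∃ p ∈ A, ∃ q ∈ A, ∃ r ∈ A, z = s + u₁ * p + u₂ * q + a * r)
    (hnode : ∃ α ∈ A, ∃ β ∈ A, ∃ γ ∈ A, ∃ δ ∈ A, ∃ ε ∈ A,
      u₁ * u₂ = α * u₁ ^ 3 + β * (u₁ ^ 2 * u₂) + γ * (u₁ * u₂ ^ 2) + δ * u₂ ^ 3 + a * ε) :
    ∃ x₁ ∈ A, ∃ x₂ ∈ A, ∃ c ∈ S, v.valuation (x₁ * x₂ - c) ≤ v.valuation D ∧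
      ∀ z ∈ A, ∃ y ∈ Subring.closure ((S : Set L) ∪ {x₁, x₂}),
        v.valuation (z - y) ≤ v.valuation D := by
  obtain ⟨J, hJ⟩ : ∃ J : Ideal A, ∀ z : A, z ∈ J ↔ v.valuation (z : L) ≤ v.valuation D :=
    NV1_ideal v A hAv D
  let π : A →+* A ⧸ J := Ideal.Quotient.mk J
  have hπ : Function.Surjective π := Ideal.Quotient.mk_surjective
  have hπ0 : ∀ z : A, π z = 0 ↔ v.valuation (z : L) ≤ v.valuation D := fun z => by
    rw [← hJ]
    exact Ideal.Quotient.eq_zero_iff_mem
  have hnil : ∀ (z : L) (hz : z ∈ A), (∃ n : ℕ, v.valuation (z ^ n) ≤ v.valuation D) →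
      IsNilpotent (π ⟨z, hz⟩) := by
    rintro z hz ⟨n, hn⟩
    refine ⟨n, ?_⟩
    rw [← map_pow, hπ0]
    exact hn
  let S' : Subring (A ⧸ J) := (S.comap A.subtype).map π
  have hS' : ∀ (s : L) (hs : s ∈ S), π ⟨s, hSA hs⟩ ∈ S' := fun s hs => ⟨⟨s, hSA hs⟩, hs, rfl⟩
  obtain ⟨α, hα, β, hβ, γ, hγ, δ, hδ, ε, hε, hn⟩ := hnode
  obtain ⟨w₁, w₂, -, -, hw, hcl⟩ := node_normal_form S' (π ⟨a, hSA haS⟩) (π ⟨u₁, h₁⟩)
    (π ⟨u₂, h₂⟩) (hS' a haS) (hnil _ _ hn₁) (hnil _ _ hn₂) (hnil _ _ hna) (by
      intro z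
      obtain ⟨⟨z, hz⟩, rfl⟩ := hπ z
      obtain ⟨s, hs, p, hp, q, hq, r, hr, h⟩ := hgen z hz
      refine ⟨π ⟨s, hSA hs⟩, hS' s hs, ?_⟩
      have h1 : (⟨z, hz⟩ : A) = ⟨s, hSA hs⟩ + ⟨u₁, h₁⟩ * ⟨p, hp⟩ + ⟨u₂, h₂⟩ * ⟨q, hq⟩ +
          ⟨a, hSA haS⟩ * ⟨r, hr⟩ := Subtype.ext h
      rw [h1, map_add, map_add, map_add, map_mul, map_mul, map_mul, add_assoc, add_assoc,
        add_sub_cancel_left, mul_comm (π ⟨u₁, h₁⟩), mul_comm (π ⟨u₂, h₂⟩), mul_comm (π ⟨a, _⟩)]
      refine Ideal.add_mem _ (Ideal.mul_mem_left _ _ (Ideal.subset_span (by simp)))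
        (Ideal.add_mem _ (Ideal.mul_mem_left _ _ (Ideal.subset_span (by simp)))
        (Ideal.mul_mem_left _ _ (Ideal.subset_span (by simp))))) (by
      refine ⟨π ⟨α, hα⟩, π ⟨β, hβ⟩, π ⟨γ, hγ⟩, π ⟨δ, hδ⟩, π ⟨ε, hε⟩, ?_⟩
      have h1 : (⟨u₁, h₁⟩ : A) * ⟨u₂, h₂⟩ = ⟨α, hα⟩ * ⟨u₁, h₁⟩ ^ 3 +
          ⟨β, hβ⟩ * (⟨u₁, h₁⟩ ^ 2 * ⟨u₂, h₂⟩) + ⟨γ, hγ⟩ * (⟨u₁, h₁⟩ * ⟨u₂, h₂⟩ ^ 2) +
          ⟨δ, hδ⟩ * ⟨u₂, h₂⟩ ^ 3 + ⟨a, hSA haS⟩ * ⟨ε, hε⟩ := Subtype.ext hn
      rw [← map_mul, h1]
      simp only [map_add, map_mul, map_pow])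
  obtain ⟨⟨x₁, hx₁⟩, rfl⟩ := hπ w₁
  obtain ⟨⟨x₂, hx₂⟩, rfl⟩ := hπ w₂
  obtain ⟨⟨c, hcA⟩, hcS, hc⟩ := hw
  refine ⟨x₁, hx₁, x₂, hx₂, c, hcS, ?_, ?_⟩
  · have h1 : π (⟨x₁, hx₁⟩ * ⟨x₂, hx₂⟩ - ⟨c, hcA⟩) = 0 := by
      rw [map_sub, map_mul, hc, sub_self]
    rw [hπ0] at h1
    exact h1
  · intro z hz
    -- the closure in `A`
    let T₀ : Subring A := Subring.closure ((A.subtype ⁻¹' (S : Set L)) ∪ {⟨x₁, hx₁⟩, ⟨x₂, hx₂⟩})
    have hT : T₀.map π = ⊤ := by
      rw [← hcl]
      change (Subring.closure _).map π = _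
      rw [RingHom.map_closure]
      congr 1
      rw [Set.image_union, Set.image_pair]
      rfl
    have hzT : π ⟨z, hz⟩ ∈ T₀.map π := by
      rw [hT]
      trivial
    obtain ⟨y, hyT, hy⟩ := hzT
    refine ⟨(y : L), ?_, ?_⟩
    · have h1 : (y : L) ∈ T₀.map A.subtype := ⟨y, hyT, rfl⟩
      change (y : L) ∈ (Subring.closure _).map A.subtype at h1
      rw [RingHom.map_closure] at h1
      refine Subring.closure_mono ?_ h1
      rw [Set.image_union, Set.image_pair]
      refine Set.union_subset_union ?_ subset_rfl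
      rintro _ ⟨s, hs, rfl⟩
      exact hs
    · have h1 : π (⟨z, hz⟩ - y) = 0 := by
        rw [map_sub, ← hy, sub_self]
      rw [hπ0] at h1
      exact h1

/-- (NV1) Near a node the coordinate ring `A` is approximated by rational functions. If `d ∉ O.nonunits` then `z' = 0` works. Let
`d ∈ O.nonunits`, `D = d ^ 3`. Let `J` be the ideal of `A` of the `z` with `z / D ∈ v` and `R = A ⧸ J`; by `harch` the classes
of `u₁, u₂, a` in `R` are nilpotent. `node_normal_form` (Y/Nil.lean), for the image of `S` in `R`, gives (after lifting from `R` to `A`) `x₁, x₂ ∈ A` and `c ∈ O` with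
`(x₁ x₂ - c) / D ∈ v`, `x₁, x₂` nonunits of `v`, such that every `z ∈ A` is congruent modulo `D v` to an element of
`Subring.closure (S ∪ {x₁, x₂})`. By `approx_closure` (Y/Approx.lean) it is enough to approximate `x₁, x₂` up to `d` by some `K(t)`.
Case `|c| ≤ |d| ^ 2`: then `|x₁ x₂| ≤ |d| ^ 2`, so `|x₂| ≤ |d|` (take `t = x₁`, `x₂ ≈ 0`) or `|x₁| ≤ |d|` (take `t = x₂`).
Case `|c| > |d| ^ 2`: then `|x₁| ≥ |x₁ x₂| = |c|`, `|x₂ - c / x₁| ≤ |D| / |c| ≤ |d|`: take `t = x₁`, `x₂ ≈ c / x₁`. (Absolute values are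
`v.valuation`.) -/
theorem node_approx (hv : Over O v)
    (harch : ∀ z ∈ v.nonunits, ∀ d : K, d ≠ 0 → ∃ n : ℕ, z ^ n / algebraMap K L d ∈ v)
    (S A : Subring L) (hSO : ∀ s ∈ S, ∃ c ∈ O, algebraMap K L c = s) (hSA : S ≤ A)
    (hAv : ∀ z ∈ A, z ∈ v) (a u₁ u₂ : L) (haS : a ∈ S) (ha : a ∈ v.nonunits) (h₁ : u₁ ∈ A)
    (h₂ : u₂ ∈ A) (hn₁ : u₁ ∈ v.nonunits) (hn₂ : u₂ ∈ v.nonunits)
    (hgen : ∀ z ∈ A, ∃ s ∈ S, ∃ p ∈ A, ∃ q ∈ A, ∃ r ∈ A, z = s + u₁ * p + u₂ * q + a * r)
    (hnode : ∃ α ∈ A, ∃ β ∈ A, ∃ γ ∈ A, ∃ δ ∈ A, ∃ ε ∈ A,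
      u₁ * u₂ = α * u₁ ^ 3 + β * (u₁ ^ 2 * u₂) + γ * (u₁ * u₂ ^ 2) + δ * u₂ ^ 3 + a * ε)
    (d : K) (hd : d ≠ 0) :
    ∃ t : L, ∀ z ∈ A, ∃ z' ∈ K⟮t⟯, (z - z') / algebraMap K L d ∈ v := by
  obtain ⟨D, hD⟩ : ∃ D, D = algebraMap K L d := ⟨_, rfl⟩
  have hD0 : D ≠ 0 := by
    rw [hD]
    exact (_root_.map_ne_zero _).2 hd
  have hv1 : ∀ z ∈ A, v.valuation z ≤ 1 := fun z hz => (v.valuation_le_one_iff _).2 (hAv z hz)
  rw [← hD]
  rcases le_or_gt 1 (v.valuation D) with h1 | h1
  · refine ⟨0, fun z hz => ⟨0, zero_mem _, ?_⟩⟩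
    rw [sub_zero, NV1_div _ _ hD0]
    exact (hv1 z hz).trans h1
  have hdO : d ∈ O := by
    have h2 : d ∈ v.comap (algebraMap K L) := by
      rw [ValuationSubring.mem_comap, ← hD, ← v.valuation_le_one_iff]
      exact h1.le
    rwa [hv] at h2
  have hd3 : d ^ 3 ≠ 0 := pow_ne_zero _ hd
  have hD3 : algebraMap K L (d ^ 3) = D ^ 3 := by rw [map_pow, hD]
  have hnil : ∀ z ∈ v.nonunits, ∃ n : ℕ, v.valuation (z ^ n) ≤ v.valuation (D ^ 3) := by
    intro z hz
    obtain ⟨n, hn⟩ := harch z hz (d ^ 3) hd3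
    rw [hD3, NV1_div _ _ (pow_ne_zero _ hD0)] at hn
    exact ⟨n, hn⟩
  obtain ⟨x₁, hx₁, x₂, hx₂, c', hc', hcx, happ⟩ := NV1_normal v S A hSA hAv a u₁ u₂ haS h₁ h₂
    (D ^ 3) (hnil _ hn₁) (hnil _ hn₂) (hnil _ ha) hgen hnode
  obtain ⟨c, -, rfl⟩ := hSO c' hc'
  -- absolute value of `d`
  obtain ⟨δ, hδ⟩ : ∃ δ, δ = v.valuation D := ⟨_, rfl⟩
  have hδ0 : 0 < δ := by
    rw [hδ]
    exact lt_of_le_of_ne zero_le ((v.valuation.ne_zero_iff).2 hD0).symm
  rw [map_pow, ← hδ] at hcx happ
  rw [← hδ] at h1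
  have h31 : δ ^ 3 ≤ δ := by
    calc δ ^ 3 ≤ δ ^ 1 := pow_le_pow_right_of_le_one' h1.le (by norm_num)
      _ = δ := pow_one δ
  have h32 : δ ^ 3 < δ ^ 2 := by
    rw [pow_succ]
    exact mul_lt_of_lt_one_right (pow_pos hδ0 2) h1
  -- reduction to the approximation of the two coordinates
  suffices hkey : ∃ t : L, (∃ z' ∈ K⟮t⟯, v.valuation (x₁ - z') ≤ δ) ∧
      ∃ z' ∈ K⟮t⟯, v.valuation (x₂ - z') ≤ δ by
    obtain ⟨t, ht₁, ht₂⟩ := hkey
    refine ⟨t, fun z hz => ?_⟩
    obtain ⟨y, hy, hzy⟩ := happ z hz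
    obtain ⟨z', hz', hyz⟩ := approx_closure (O := O) hv d hdO hd t
      ((S : Set L) ∪ {x₁, x₂}) (by
        rintro w (hw | rfl | rfl)
        · exact hAv _ (hSA hw)
        · exact hAv _ hx₁
        · exact hAv _ hx₂) (by
        rintro w (hw | rfl | rfl)
        · obtain ⟨e, -, rfl⟩ := hSO w hw
          refine ⟨algebraMap K L e, _root_.algebraMap_mem _ _, ?_⟩
          rw [sub_self, zero_div]
          exact zero_mem _
        · obtain ⟨z', hz', h⟩ := ht₁
          refine ⟨z', hz', ?_⟩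
          rw [← hD, NV1_div _ _ hD0, ← hδ]
          exact h
        · obtain ⟨z', hz', h⟩ := ht₂
          refine ⟨z', hz', ?_⟩
          rw [← hD, NV1_div _ _ hD0, ← hδ]
          exact h) y hy
    refine ⟨z', hz', ?_⟩
    rw [← hD, NV1_div _ _ hD0, ← hδ] at hyz
    rw [NV1_div _ _ hD0, ← hδ]
    have h2 : z - z' = (z - y) + (y - z') := by ring
    rw [h2]
    exact (v.valuation.map_add _ _).trans (max_le (hzy.trans h31) hyz)
  rcases le_or_gt (v.valuation (algebraMap K L c)) (δ ^ 2) with hc | hc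
  · have hxx : v.valuation (x₁ * x₂) ≤ δ ^ 2 := by
      have h2 : x₁ * x₂ = (x₁ * x₂ - algebraMap K L c) + algebraMap K L c := by ring
      rw [h2]
      exact (v.valuation.map_add _ _).trans (max_le (hcx.trans h32.le) hc)
    rcases le_or_gt (v.valuation x₂) δ with h2 | h2
    · refine ⟨x₁, ⟨x₁, mem_adjoin_simple_self K x₁, ?_⟩, ⟨0, zero_mem _, by rwa [sub_zero]⟩⟩
      rw [sub_self, map_zero]
      exact zero_le
    · have h3 : v.valuation x₁ ≤ δ := by
        by_contra h3
        rw [not_le] at h3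
        rw [map_mul, pow_two] at hxx
        exact absurd hxx (not_le.2 (mul_lt_mul'' h3 h2 hδ0.le hδ0.le))
      refine ⟨x₂, ⟨0, zero_mem _, by rwa [sub_zero]⟩, ⟨x₂, mem_adjoin_simple_self K x₂, ?_⟩⟩
      rw [sub_self, map_zero]
      exact zero_le
  · have hlt : v.valuation (x₁ * x₂ - algebraMap K L c) < v.valuation (algebraMap K L c) :=
      (hcx.trans_lt h32).trans hc
    have hxx : v.valuation (x₁ * x₂) = v.valuation (algebraMap K L c) := by
      have h2 : x₁ * x₂ = algebraMap K L c + (x₁ * x₂ - algebraMap K L c) := by ring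
      rw [h2]
      exact v.valuation.map_add_eq_of_lt_left hlt
    have hx1c : v.valuation (algebraMap K L c) ≤ v.valuation x₁ := by
      rw [← hxx, map_mul]
      exact mul_le_of_le_one_right' (hv1 _ hx₂)
    have hx10 : x₁ ≠ 0 := by
      rintro rfl
      rw [map_zero] at hx1c
      exact absurd (lt_of_lt_of_le hc hx1c) (not_lt.2 zero_le)
    refine ⟨x₁, ⟨x₁, mem_adjoin_simple_self K x₁, ?_⟩,
      ⟨algebraMap K L c / x₁, div_mem (_root_.algebraMap_mem _ _) (mem_adjoin_simple_self K x₁), ?_⟩⟩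
    · rw [sub_self, map_zero]
      exact zero_le
    · have h2 : x₂ - algebraMap K L c / x₁ = (x₁ * x₂ - algebraMap K L c) / x₁ := by
        field_simp
      have hx1p : 0 < v.valuation x₁ := lt_of_lt_of_le (lt_of_le_of_lt zero_le hc) hx1c
      rw [h2, map_div₀, div_le_iff₀ hx1p]
      refine hcx.trans ?_
      calc δ ^ 3 = δ * δ ^ 2 := by rw [pow_succ, mul_comm]
        _ ≤ δ * v.valuation x₁ := mul_le_mul_right (hc.le.trans hx1c) _
-- END NV1

end Pool.Agent.Lib.MP_211349_ag
end
end

section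

/-!
# Smooth points of the special fibre
-/

open CategoryTheory Limits AlgebraicGeometry Polynomial TensorProduct

universe u

noncomputable section

namespace Pool.Agent.Lib.MP_211349_ag

-- BEGIN SP1
/-- Open subsets of a cartesian square. -/
private theorem SP1_key {X Z S T : Scheme.{u}} {f : X ⟶ S} {b : T ⟶ S} {i : Z ⟶ X} {g : Z ⟶ T}
    (h : IsPullback i g f b) (U : X.Opens) (hs : Smooth ((i ⁻¹ᵁ U).ι ≫ g)) :
    Smooth (pullback.snd (U.ι ≫ f) b) := by
  have h1 : IsPullback (i ∣_ U) (i ⁻¹ᵁ U).ι U.ι i := isPullback_morphismRestrict i U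
  have h2 := h1.paste_vert h
  have e : pullback.snd (U.ι ≫ f) b = h2.isoPullback.inv ≫ ((i ⁻¹ᵁ U).ι ≫ g) := by
    rw [Iso.eq_inv_comp, IsPullback.isoPullback_hom_snd]
  rw [e]
  infer_instance

/-- (SP1) If the special fibre is smooth at `z` then the model is smooth near `z`. Let `V ∋ z` be an open subset of the special fibre `X_s`, smooth over `k`.
`pullback.fst f (resPt O) : X_s → X` is a closed immersion; let `U` be the complement of the image of the closed set `X_s \ V`. The base change of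
`U.ι ≫ f` to `k` is `V → Spec k` (isomorphic), its base change to `K` is the restriction of `g` to the open subset `i ⁻¹ᵁ U` of `C`. Flat and finitely presented with
smooth fibres implies smooth: exactly as in `smooth_of_isoMod'` (R/Main.lean), with `RankOne.prime`, `fromSpecResidueField_bot`,
`fromSpecResidueField_max`, `smooth_pullback_comp`. -/
theorem exists_smooth_open {K : Type u} [Field K] (O : ValuationSubring K) (hO : RankOne O)
    {X C : Scheme.{u}} (f : X ⟶ Spec (.of O)) [Flat f] [LocallyOfFinitePresentation f]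
    (g : C ⟶ Spec (.of K)) [Smooth g] (hg : HasGenericFibre O f g) (z : specialFibre O f)
    (hz : SmoothAt (pullback.snd f (resPt O)) z) :
    ∃ U : X.Opens, pullback.fst f (resPt O) z ∈ U ∧ Smooth (U.ι ≫ f) := by
  obtain ⟨V, hzV, hV⟩ := hz
  have hr : IsClosedImmersion (resPt O) := by
    unfold resPt
    exact IsClosedImmersion.spec_of_surjective _ IsLocalRing.residue_surjective
  have hc : IsClosedImmersion (pullback.fst f (resPt O)) := inferInstance
  have hemb : Topology.IsEmbedding (pullback.fst f (resPt O)) := Scheme.Hom.isEmbedding _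
  obtain ⟨U₀, hU₀, hUV⟩ := hemb.isInducing.isOpen_iff.1 V.isOpen
  obtain ⟨U, hU⟩ : ∃ U : X.Opens, (pullback.fst f (resPt O)) ⁻¹ᵁ U = V :=
    ⟨⟨U₀, hU₀⟩, by ext1; exact hUV⟩
  subst hU
  refine ⟨U, hzV, ?_⟩
  apply Smooth.of_smooth_fiberToSpecResidueField
  intro y
  change Smooth (pullback.snd (U.ι ≫ f) ((Spec (.of O)).fromSpecResidueField y))
  have : y.asIdeal.IsPrime := y.isPrime
  rcases RankOne.prime hO y.asIdeal with hy | hy
  · obtain ⟨a, ha⟩ := fromSpecResidueField_bot y hy
    rw [ha]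
    apply smooth_pullback_comp
    obtain ⟨i, hi⟩ := hg
    exact SP1_key hi U inferInstance
  · obtain ⟨a, ha⟩ := fromSpecResidueField_max y hy
    rw [ha]
    apply smooth_pullback_comp
    exact SP1_key (IsPullback.of_hasPullback f (resPt O)) U hV
-- END SP1

-- BEGIN SP2
private theorem SP2_tensor {k B : Type u} [Field k] [CommRing B] [Algebra k[X] B]
    [Algebra.Smooth k[X] B] (x : FractionRing k[X] ⊗[k[X]] B) (hx : x * x = x) :
    ∃ b : B, x = 1 ⊗ₜ[k[X]] b := by
  have hcl : IsIntegrallyClosedIn B (B ⊗[k[X]] FractionRing k[X]) := integrallyClosedIn_tensor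
  set y := Algebra.TensorProduct.comm k[X] (FractionRing k[X]) B x with hy
  have hyy : y * y = y := by rw [hy, ← map_mul, hx]
  have hint : IsIntegral B y := by
    refine ⟨X ^ 2 - X, ?_, ?_⟩
    · exact monic_X_pow_sub (lt_of_le_of_lt degree_X_le (by norm_num))
    · simp [pow_two, hyy]
  obtain ⟨b, hb⟩ := hcl.algebraMap_eq_of_integral hint
  refine ⟨b, ?_⟩
  apply (Algebra.TensorProduct.comm k[X] (FractionRing k[X]) B).injective
  rw [← hy, ← hb, Algebra.TensorProduct.comm_tmul]
  rfl

/-- (SP2) An open neighbourhood of a point of a standard étale curve is integral. `B` is flat over `k[X]`, hence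
embeds into `E = B ⊗ k(X)`, an étale algebra over the field `k(X)`: a finite product of fields. The idempotents of `E` are integral over
`B`, so they lie in `B` (`integrallyClosedIn_tensor`, M/Alg.lean). `1` is the sum of the primitive idempotents `e_i`; some `e_i ∉ q`;
take `h = e_i`: the localization of `B` away from `e_i` is `e_i B ⊆ e_i E`, a field. -/
theorem exists_domain_nhbd {k B : Type u} [Field k] [CommRing B] [Algebra k B] [Algebra k[X] B]
    [IsScalarTower k k[X] B] [Algebra.IsStandardEtale k[X] B] (q : Ideal B) [q.IsPrime] :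
    ∃ h : B, h ∉ q ∧ IsDomain (Localization.Away h) := by
  classical
  have hflat : Module.Flat k[X] B := inferInstance
  obtain ⟨I, hI, Ai, hf, ha, e, -⟩ :=
    (Algebra.Etale.iff_exists_algEquiv_prod (FractionRing k[X]) (FractionRing k[X] ⊗[k[X]] B)).mp
      inferInstance
  have := Fintype.ofFinite I
  let Φ : B →+* (Π i, Ai i) := (e : _ →+* _).comp
    (Algebra.TensorProduct.includeRight (R := k[X]) (A := FractionRing k[X]) (B := B)).toRingHom
  have hΦ : Function.Injective Φ := by
    refine e.injective.comp ?_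
    exact Algebra.TensorProduct.includeRight_injective (IsFractionRing.injective _ _)
  have hidem : ∀ i, ∃ b : B, Φ b = Pi.single i 1 := by
    intro i
    obtain ⟨b, hb⟩ := SP2_tensor (e.symm (Pi.single i 1)) (by
      rw [← map_mul, ← Pi.single_mul, one_mul])
    refine ⟨b, ?_⟩
    change e (1 ⊗ₜ[k[X]] b) = _
    rw [← hb, AlgEquiv.apply_symm_apply]
  choose h hh using hidem
  have hsum : ∑ i, h i = 1 := by
    apply hΦ
    rw [map_sum, map_one]
    simp_rw [hh]
    exact Finset.univ_sum_single (1 : Π i, Ai i)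
  have hex : ∃ i, h i ∉ q := by
    by_contra hcon
    push Not at hcon
    have : (1 : B) ∈ q := by
      rw [← hsum]
      exact Ideal.sum_mem q fun i _ => hcon i
    exact (Ideal.IsPrime.ne_top inferInstance) ((Ideal.eq_top_iff_one q).mpr this)
  obtain ⟨i, hi⟩ := hex
  refine ⟨h i, hi, ?_⟩
  let φ : B →+* Ai i := (Pi.evalRingHom Ai i).comp Φ
  have hφ1 : φ (h i) = 1 := by
    change Φ (h i) i = 1
    rw [hh, Pi.single_eq_same]
  let ψ : Localization.Away (h i) →+* Ai i := IsLocalization.Away.lift (h i) (g := φ) (by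
    rw [hφ1]; exact isUnit_one)
  have hψ : Function.Injective ψ := by
    rw [injective_iff_map_eq_zero]
    intro z hz
    obtain ⟨n, b, hb⟩ := IsLocalization.Away.surj (h i) z
    have h1 : φ b = 0 := by
      have := congrArg ψ hb
      rw [map_mul, hz, zero_mul, IsLocalization.Away.lift_eq] at this
      exact this.symm
    have h2 : h i * b = 0 := by
      apply hΦ
      rw [map_mul, map_zero, hh]
      ext j
      rw [Pi.mul_apply, Pi.zero_apply]
      by_cases hj : j = i
      · subst hj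
        rw [Pi.single_eq_same, one_mul]
        exact h1
      · rw [Pi.single_eq_of_ne hj, zero_mul]
    have hu : IsUnit (algebraMap B (Localization.Away (h i)) (h i)) :=
      IsLocalization.Away.algebraMap_isUnit (h i)
    have h3 : algebraMap B (Localization.Away (h i)) b = 0 := by
      rw [← hu.mul_right_eq_zero, ← map_mul, h2, map_zero]
    rw [h3] at hb
    exact (hu.pow n).mul_left_eq_zero.mp hb
  exact hψ.isDomain ψ
-- END SP2

section chart

variable {K : Type u} [Field K] {O : ValuationSubring K}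
  {X C : Scheme.{u}} [IsIntegral C] {f : X ⟶ Spec (.of O)} {g : C ⟶ Spec (.of K)}
  {i : C ⟶ X} (hi : IsPullback i g f (genPt O))

-- BEGIN SP3
include hi in
/-- (SP3) As `exists_good_chart` in M/Main.lean, for a model which is smooth only near the centre: apply `exists_chart` to `U.ι ≫ f` and
compose the chart with `U.ι`. -/
theorem exists_good_chart_of_open [IsAlgClosed K] :
    letI := (toFunctionField g).toAlgebra
    (∃ x : C.functionField, Transcendental K x ∧
      Algebra.IsAlgebraic (Algebra.adjoin K {x}) C.functionField) →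
    ∀ (v : ValuationSubring C.functionField) (ℓ : Spec (.of v) ⟶ X),
      Spec.map (CommRingCat.ofHom v.subtype) ≫ ℓ = ptX i →
      ∀ U : X.Opens, ℓ (IsLocalRing.closedPoint v) ∈ U → Smooth (U.ι ≫ f) →
      ∃ (c : GoodChart f i), ℓ (IsLocalRing.closedPoint v) ∈ Set.range c.j := by
  let _ := (toFunctionField g).toAlgebra
  rintro ⟨x, hx, halg⟩ v ℓ hℓ U hU hsm
  obtain ⟨c', n, hP, hT, hS, hc'⟩ := exists_chart (f := U.ι ≫ f) ⟨ℓ (IsLocalRing.closedPoint v), hU⟩
  let c : Chart f :=
    { A := c'.A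
      j := c'.j ≫ U.ι
      hj := by rw [Category.assoc, c'.hj] }
  let _ : Algebra (MvPolynomial (Fin n) O) c.A := hP
  have : IsScalarTower O (MvPolynomial (Fin n) O) c.A := hT
  have : Algebra.IsStandardEtale (MvPolynomial (Fin n) O) c.A := hS
  have hc : ℓ (IsLocalRing.closedPoint v) ∈ Set.range c.j := by
    obtain ⟨y, hy⟩ := hc'
    refine ⟨y, ?_⟩
    change (c'.j ≫ U.ι) y = _
    rw [Scheme.Hom.comp_apply, hy]
    rfl
  obtain ⟨ψ, hψ⟩ := exists_factor c v ℓ hc
  have hφ : Spec.map (CommRingCat.ofHom (v.subtype.comp ψ)) ≫ c.j = ptX i := by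
    rw [CommRingCat.ofHom_comp, Spec.map_comp, Category.assoc, hψ, hℓ]
  have : Module.Flat O c.A := flat_of_standard (n := n)
  have hinj := chart_hom_injective hi c _ hφ
  have hO : ∀ a : O, (v.subtype.comp ψ) (algebraMap O c.A a) =
      algebraMap K C.functionField (a : K) := chart_hom_algebraMap hi c _ hφ
  have hn := chart_dim_one (n := n) (v.subtype.comp ψ) hinj hO (chart_hom_frac hi c _ hφ) x hx halg
  subst hn
  obtain ⟨_, _, _⟩ := chart_polynomial (O := O) (A := c.A)
  exact ⟨{ toChart := c, φ := v.subtype.comp ψ, hφ := hφ }, hc⟩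
-- END SP3

-- BEGIN SP4
/-- Reduction modulo an ideal is surjective on algebras. -/
private theorem SP4_surj {R A k : Type u} [CommRing R] [CommRing A] [CommRing k] [Algebra R A]
    [Algebra R k] (hk : Function.Surjective (algebraMap R k)) :
    Function.Surjective (Algebra.TensorProduct.includeRight : A →ₐ[R] k ⊗[R] A) := by
  intro z
  induction z using TensorProduct.induction_on with
  | zero => exact ⟨0, map_zero _⟩
  | tmul c a =>
    obtain ⟨r, rfl⟩ := hk c
    refine ⟨r • a, ?_⟩
    rw [Algebra.TensorProduct.includeRight_apply, Algebra.algebraMap_eq_smul_one,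
      TensorProduct.smul_tmul]
  | add z w hz hw =>
    obtain ⟨a, rfl⟩ := hz
    obtain ⟨b, rfl⟩ := hw
    exact ⟨a + b, map_add _ _ _⟩

/-- `k ⊗ A_h` embeds into the localization of `k ⊗ A` away from the image of `h`. -/
private theorem SP4_domain {R A k : Type u} [CommRing R] [CommRing A] [CommRing k] [Algebra R A]
    [Algebra R k] (hk : Function.Surjective (algebraMap R k)) (h : A)
    (hd : IsDomain (Localization.Away ((1 : k) ⊗ₜ[R] h))) :
    IsDomain (k ⊗[R] Localization.Away h) := by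
  obtain ⟨L, hL⟩ : ∃ L, L = Localization.Away ((1 : k) ⊗ₜ[R] h) := ⟨_, rfl⟩
  let π : A →ₐ[R] k ⊗[R] A := Algebra.TensorProduct.includeRight
  let lam : k ⊗[R] A →ₐ[R] Localization.Away ((1 : k) ⊗ₜ[R] h) := IsScalarTower.toAlgHom R _ _
  have hu : IsUnit ((lam.comp π) h) := IsLocalization.Away.algebraMap_isUnit ((1 : k) ⊗ₜ[R] h)
  let ψ : Localization.Away h →ₐ[R] Localization.Away ((1 : k) ⊗ₜ[R] h) :=
    IsLocalization.liftAlgHom (M := Submonoid.powers h) (f := lam.comp π) (by
      rintro ⟨_, n, rfl⟩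
      rw [map_pow]
      exact hu.pow n)
  have hψ : ∀ a : A, ψ (algebraMap A (Localization.Away h) a) = lam (π a) := fun a =>
    IsLocalization.lift_eq _ a
  let Φ : k ⊗[R] Localization.Away h →ₐ[R] Localization.Away ((1 : k) ⊗ₜ[R] h) :=
    Algebra.TensorProduct.lift (lam.comp Algebra.TensorProduct.includeLeft) ψ
      (fun _ _ => Commute.all _ _)
  have hΦ : ∀ w, Φ (1 ⊗ₜ w) = ψ w := fun w => by
    change Algebra.TensorProduct.lift _ _ _ (1 ⊗ₜ w) = _
    rw [Algebra.TensorProduct.lift_tmul, map_one, one_mul]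
  have hinj : Function.Injective Φ := by
    rw [injective_iff_map_eq_zero]
    intro z hz
    obtain ⟨w, rfl⟩ := SP4_surj (A := Localization.Away h) hk z
    rw [Algebra.TensorProduct.includeRight_apply] at hz ⊢
    rw [hΦ] at hz
    obtain ⟨⟨a, s⟩, hs⟩ := IsLocalization.surj (Submonoid.powers h) w
    simp only at hs
    have h1 : lam (π a) = 0 := by
      rw [← hψ, ← hs, map_mul, hz, zero_mul]
    obtain ⟨⟨_, n, rfl⟩, hm⟩ := (IsLocalization.map_eq_zero_iff
      (Submonoid.powers ((1 : k) ⊗ₜ[R] h)) (Localization.Away ((1 : k) ⊗ₜ[R] h)) (π a)).1 h1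
    simp only at hm
    -- transport to `k ⊗ A_h`
    let θ : k ⊗[R] A →ₐ[R] k ⊗[R] Localization.Away h :=
      Algebra.TensorProduct.map (AlgHom.id R k) (IsScalarTower.toAlgHom R A (Localization.Away h))
    have h2 : θ (((1 : k) ⊗ₜ[R] h) ^ n * π a) = 0 := by rw [hm, map_zero]
    have hθ : ∀ b : A, θ ((1 : k) ⊗ₜ[R] b) = 1 ⊗ₜ algebraMap A (Localization.Away h) b := by
      intro b
      change Algebra.TensorProduct.map _ _ (1 ⊗ₜ b) = _
      rw [Algebra.TensorProduct.map_tmul]
      rfl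
    have hinc : ∀ b c : Localization.Away h, (1 : k) ⊗ₜ[R] (b * c) = (1 ⊗ₜ b) * (1 ⊗ₜ c) := by
      intro b c
      rw [Algebra.TensorProduct.tmul_mul_tmul, one_mul]
    have hu2 : ∀ b : Localization.Away h, IsUnit b → IsUnit ((1 : k) ⊗ₜ[R] b) := fun b hb =>
      hb.map (Algebra.TensorProduct.includeRight : Localization.Away h →ₐ[R] _)
    have hh : IsUnit ((1 : k) ⊗ₜ[R] algebraMap A (Localization.Away h) h) :=
      hu2 _ (IsLocalization.Away.algebraMap_isUnit h)
    rw [map_mul, map_pow, hθ] at h2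
    have h3 : θ (π a) = 0 := ((hh.pow n).mul_right_eq_zero).1 h2
    change θ (1 ⊗ₜ a) = 0 at h3
    rw [hθ, ← hs, hinc] at h3
    exact ((hu2 _ (IsLocalization.map_units (Localization.Away h) s)).mul_left_eq_zero).1 h3
  exact hinj.isDomain Φ.toRingHom

/-- (SP4) Shrink a good chart so that its special fibre is integral: let `y` be the point of `c` above `x`, `y₁` the corresponding prime ideal of
`k ⊗ A` (`f x` is the closed point: `m A ≤ y`; (CB4), (CB5), (CB8)), `h₁ ∉ y₁` by (SP2) for the standard étale algebra `k ⊗ A` over `k[X]` ((FR5)), lift `h₁` to `h : A`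
(`A → k ⊗ A` is surjective); the new chart has `A_h` (`Chart.away`), standard étale over `O[X]` as localization away from an element of a standard étale
algebra, and `k ⊗ A_h = (k ⊗ A)_{h₁}`. `φ` extends to `A_h` as `h ∉ y` and `x = ℓ (closed point)`: by hypothesis `hφ` (`φ h ≠ 0`, since `φ` is injective). -/
theorem exists_good_chart_domain [Flat f] (hi : IsPullback i g f (genPt O)) (c : GoodChart f i)
    (x : X) (hx : x ∈ Set.range c.j) (hxs : f x = IsLocalRing.closedPoint O) :
    ∃ c' : GoodChart f i, x ∈ Set.range c'.j ∧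
      IsDomain (IsLocalRing.ResidueField O ⊗[O] c'.A) := by
  obtain ⟨y, hy⟩ := hx
  have hyp : y.asIdeal.IsPrime := y.isPrime
  -- the point lies above the closed point
  have hym : y.asIdeal.comap (algebraMap O c.A) = IsLocalRing.maximalIdeal O := by
    have h1 : (Spec.map (CommRingCat.ofHom (algebraMap O c.A))) y = IsLocalRing.closedPoint O := by
      rw [← c.hj, Scheme.Hom.comp_apply, hy, hxs]
    exact congrArg PrimeSpectrum.asIdeal h1
  have hsurj : Function.Surjective (algebraMap O (IsLocalRing.ResidueField O)) :=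
    IsLocalRing.residue_surjective
  let π : c.A →ₐ[O] IsLocalRing.ResidueField O ⊗[O] c.A := Algebra.TensorProduct.includeRight
  have hπ : Function.Surjective π := SP4_surj hsurj
  -- the homomorphism to the residue ring of `y`
  let ρ₀ : IsLocalRing.ResidueField O →+* c.A ⧸ y.asIdeal :=
    Ideal.Quotient.lift _ ((Ideal.Quotient.mk y.asIdeal).comp (algebraMap O c.A)) (by
      intro a ha
      rw [← hym] at ha
      exact Ideal.Quotient.eq_zero_iff_mem.2 ha)
  let ρ₁ : IsLocalRing.ResidueField O →ₐ[O] c.A ⧸ y.asIdeal :=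
    { ρ₀ with commutes' := fun r => rfl }
  let ρ : IsLocalRing.ResidueField O ⊗[O] c.A →ₐ[O] c.A ⧸ y.asIdeal :=
    Algebra.TensorProduct.lift ρ₁ (Ideal.Quotient.mkₐ O y.asIdeal) (fun _ _ => Commute.all _ _)
  have hρ : ∀ a, ρ (π a) = Ideal.Quotient.mk y.asIdeal a := fun a => by
    change Algebra.TensorProduct.lift _ _ _ (1 ⊗ₜ a) = _
    rw [Algebra.TensorProduct.lift_tmul, map_one, one_mul]
    rfl
  let q : Ideal (IsLocalRing.ResidueField O ⊗[O] c.A) := RingHom.ker ρ
  have hq : q.IsPrime := RingHom.ker_isPrime _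
  obtain ⟨_, _, _, -⟩ := exists_standardEtale_baseChange O (IsLocalRing.ResidueField O) c.A
  obtain ⟨h₁, hh₁, hdom⟩ := exists_domain_nhbd (k := IsLocalRing.ResidueField O) q
  obtain ⟨h, rfl⟩ := hπ h₁
  have hhy : h ∉ y.asIdeal := by
    intro hc
    apply hh₁
    change ρ (π h) = 0
    rw [hρ]
    exact Ideal.Quotient.eq_zero_iff_mem.2 hc
  have hflat : Module.Flat O c.A := flat_of_standard'
  have hinj := chart_hom_injective hi c.toChart c.φ c.hφ
  have hφh : IsUnit (c.φ h) := by
    rw [isUnit_iff_ne_zero]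
    intro h0
    rw [map_eq_zero_iff _ hinj] at h0
    apply hhy
    rw [h0]
    exact zero_mem _
  have hloc : Algebra.IsStandardEtale O[X] (Localization.Away h) :=
    Algebra.IsStandardEtale.of_isLocalizationAway (S := c.A) h
  have htow : IsScalarTower O O[X] (Localization.Away h) := by
    refine IsScalarTower.of_algebraMap_eq fun r => ?_
    rw [IsScalarTower.algebraMap_apply O c.A, IsScalarTower.algebraMap_apply O[X] c.A,
      IsScalarTower.algebraMap_apply O O[X] c.A]
  have hpt : Spec.map (CommRingCat.ofHom (IsLocalization.Away.lift h hφh :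
      Localization.Away h →+* C.functionField)) ≫ (c.toChart.away h).j = ptX i := by
    change Spec.map (CommRingCat.ofHom (IsLocalization.Away.lift h hφh)) ≫
      Spec.map (CommRingCat.ofHom (algebraMap c.A (Localization.Away h))) ≫ c.j = ptX i
    rw [← Category.assoc, ← Spec.map_comp, ← CommRingCat.ofHom_comp,
      IsLocalization.Away.lift_comp, c.hφ]
  let c' : GoodChart f i := @GoodChart.mk K _ O X C _ f i (c.toChart.away h)
    (inferInstanceAs (Algebra O[X] (Localization.Away h))) htow hloc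
    (IsLocalization.Away.lift h hφh : Localization.Away h →+* C.functionField) hpt
  obtain ⟨y', hy', -⟩ := Chart.mem_range_away c.toChart h y hhy
  exact ⟨c', ⟨y', hy'.trans hy⟩, SP4_domain hsurj h hdom⟩
-- END SP4

end chart

end Pool.Agent.Lib.MP_211349_ag
end
end

section

/-!
# Valuation rings centred at a component of the special fibre
-/

open CategoryTheory Limits AlgebraicGeometry Polynomial

universe u

noncomputable section

namespace Pool.Agent.Lib.MP_211349_ag

section general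

variable {K : Type u} [Field K] {O : ValuationSubring K} {X C : Scheme.{u}} [IsIntegral C]
  {f : X ⟶ Spec (.of O)} {g : C ⟶ Spec (.of K)} {i : C ⟶ X}

-- BEGIN SC1
/-- (SC1) A nonempty chart of a flat model contains the generic point of the generic fibre. `c.A` is flat over `O`, so `c.A → K ⊗[O] c.A` is
injective and `K ⊗[O] c.A ≠ 0`; `Spec (c.A ⊗ K) → C` is an open immersion (`Chart.base`, `Chart.base_isOpenImmersion` in M/Sch.lean for `T = K`, and `hi.isoPullback`), so its range is a nonempty open subset and contains the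
generic point of `C`; a morphism from `Spec` of a local ring whose closed point maps into the open immersion factors (`exists_factor` in M/Sch.lean). -/
theorem exists_generic_hom [Flat f] (hi : IsPullback i g f (genPt O)) (c : Chart f)
    [Nontrivial c.A] :
    ∃ φ : c.A →+* C.functionField, Spec.map (CommRingCat.ofHom φ) ≫ c.j = ptX i := by
  have hflat : Module.Flat O c.A := c.flat
  have hinj : Function.Injective (Algebra.TensorProduct.includeLeft (R := O) (S := O) (A := c.A) (B := K)) :=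
    Algebra.TensorProduct.includeLeft_injective (S := O) (A := c.A) (B := K)
      (IsFractionRing.injective O K)
  have hnt : Nontrivial (TensorProduct O c.A K) := hinj.nontrivial
  have hi' : IsPullback i g f (Spec.map (CommRingCat.ofHom (algebraMap O K))) := hi
  let j' : Spec (.of (TensorProduct O c.A K)) ⟶ C := c.base K ≫ hi'.isoPullback.inv
  have hop : IsOpenImmersion j' := by
    have : IsOpenImmersion (c.base K) := c.base_isOpenImmersion K
    change IsOpenImmersion (c.base K ≫ hi'.isoPullback.inv)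
    infer_instance
  have hj' : j' ≫ i = Spec.map (CommRingCat.ofHom
      (Algebra.TensorProduct.includeLeft (R := O) (S := O) (A := c.A) (B := K)).toRingHom) ≫ c.j := by
    change (c.base K ≫ hi'.isoPullback.inv) ≫ i = _
    rw [Category.assoc, hi'.isoPullback_inv_fst, Chart.base, pullback.lift_fst]
  have hne : (j'.opensRange : Set C).Nonempty := by
    obtain ⟨p⟩ := (inferInstance : Nonempty (PrimeSpectrum (TensorProduct O c.A K)))
    exact ⟨j' p, ⟨p, rfl⟩⟩
  have hgen : genericPoint C ∈ Set.range j' := by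
    have := (genericPoint_spec C).mem_open_set_iff (U := (j'.opensRange : Set C)) j'.opensRange.isOpen
    exact this.mpr (by simpa using hne)
  obtain ⟨w, hw⟩ := hgen
  refine exists_factor c C.functionField (ptX i) ?_
  refine ⟨Spec.map (CommRingCat.ofHom
      (Algebra.TensorProduct.includeLeft (R := O) (S := O) (A := c.A) (B := K)).toRingHom) w, ?_⟩
  rw [← Scheme.Hom.comp_apply, ← hj', Scheme.Hom.comp_apply, hw]
  have h1 : (C.fromSpecStalk (genericPoint C)) (IsLocalRing.closedPoint (C.presheaf.stalk (genericPoint C))) =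
      genericPoint C := Scheme.fromSpecStalk_closedPoint
  exact (congrArg i h1).symm
-- END SC1

-- BEGIN SC2
private theorem SC2_top {k κ : Type u} [CommRing k] [Field κ] (h : Spec (.of κ) ⟶ Spec (.of k))
    (φ : k →+* κ) (hh : h = Spec.map (CommRingCat.ofHom φ)) :
    (Scheme.ΓSpecIso (.of k)).inv ≫ (Spec (.of k)).presheaf.germ ⊤
      (h (IsLocalRing.closedPoint (CommRingCat.of κ))) trivial ≫ Scheme.stalkClosedPointTo h =
      CommRingCat.ofHom φ := by
  subst hh
  rw [Scheme.germ_stalkClosedPointTo_Spec, Iso.inv_hom_id_assoc]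

private theorem SC2_toStalk {k κ : Type u} [Field k] [Field κ] {Z : Scheme.{u}}
    (g : Z ⟶ Spec (.of k)) (q : Spec (.of κ) ⟶ Z) (φ : k →+* κ)
    (h : q ≫ g = Spec.map (CommRingCat.ofHom φ)) (a : k) :
    (Scheme.stalkClosedPointTo q).hom
      (toStalk g (q (IsLocalRing.closedPoint (CommRingCat.of κ))) a) = φ a := by
  have h1 := congrArg (fun t => t.hom a) (SC2_top (q ≫ g) φ h)
  have h2 : (Spec (.of k)).presheaf.germ ⊤ ((q ≫ g) (IsLocalRing.closedPoint (CommRingCat.of κ)))
      trivial ≫ g.stalkMap (q (IsLocalRing.closedPoint (CommRingCat.of κ))) =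
      g.appTop ≫ Z.presheaf.germ ⊤ (q (IsLocalRing.closedPoint (CommRingCat.of κ))) trivial :=
    Scheme.Hom.germ_stalkMap g ⊤ _ trivial
  have h3 := congrArg (fun t => t.hom ((Spec (.of k)).presheaf.germ ⊤
    ((q ≫ g) (IsLocalRing.closedPoint (CommRingCat.of κ))) trivial
      ((Scheme.ΓSpecIso (.of k)).inv a))) (Scheme.stalkClosedPointTo_comp q g)
  have h4 := congrArg (fun t => t.hom ((Scheme.ΓSpecIso (.of k)).inv a)) h2
  exact (congrArg (Scheme.stalkClosedPointTo q).hom h4).symm.trans (h3.symm.trans h1)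

/-- (SC2) A chart at the generic point of a component of the special fibre. Let `ξ` be the generic point of `Spec B` (`B` a domain), `z = s.j ξ`, `x = pullback.fst z`; take a chart `c` (`exists_chart_fp`) with
`c.j y = x`, and `ρ : c.A → stalk z` by `Chart.exists_stalk_hom` (Y/ChartBasic.lean). The stalk at `z` is isomorphic to the stalk of `Spec B` at `ξ` (`s.j` is an open immersion), the field of
fractions of `B`, which is isomorphic to `κ` over `B`. The compatibility with `O → k → B → κ` from the formula for `toStalk` and `s.hj`. (Alternatively factor `Spec κ → Spec B → X_s → X` through `c.j` and prove the first property by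
considering the open subset `Spec (k ⊗ A) ∩ Spec B` of the special fibre.) -/
theorem exists_component_hom [LocallyOfFinitePresentation f] (s : SpecialChart O f) {κ : Type u}
    [Field κ] (ι : s.B →+* κ) (hι : Function.Injective ι)
    (hfrac : ∀ z : κ, ∃ a b : s.B, ι b ≠ 0 ∧ z = ι a / ι b) :
    ∃ (c : Chart f) (τ : c.A →+* κ), (∀ e : κ, ∃ a b : c.A, τ b ≠ 0 ∧ e = τ a / τ b) ∧
      ∀ a : O, τ (algebraMap O c.A a) =
        ι (algebraMap (IsLocalRing.ResidueField O) s.B (IsLocalRing.residue O a)) := by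
  let q : Spec (.of κ) ⟶ specialFibre O f := Spec.map (CommRingCat.ofHom ι) ≫ s.j
  obtain ⟨c, -, y, hy⟩ := exists_chart_fp (f := f)
    (pullback.fst f (resPt O) (q (IsLocalRing.closedPoint (CommRingCat.of κ))))
  obtain ⟨ρ, hρ1, hρ2, -, hρ4⟩ := c.exists_stalk_hom y
    (q (IsLocalRing.closedPoint (CommRingCat.of κ))) hy
  let δ : (specialFibre O f).presheaf.stalk (q (IsLocalRing.closedPoint (CommRingCat.of κ))) →+* κ :=
    (Scheme.stalkClosedPointTo q).hom
  have hsurj : Function.Surjective δ := by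
    intro e
    obtain ⟨a, b, hb, rfl⟩ := hfrac e
    let p : Spec (.of κ) ⟶ Spec (.of s.B) := Spec.map (CommRingCat.ofHom ι)
    let δ' : (Spec (.of s.B)).presheaf.stalk (p (IsLocalRing.closedPoint (CommRingCat.of κ))) →+* κ :=
      (Scheme.stalkClosedPointTo p).hom
    have hloc : IsLocalHom δ' := Scheme.isLocalHom_stalkClosedPointTo' p
    have hδ : δ = δ'.comp (s.j.stalkMap (p (IsLocalRing.closedPoint (CommRingCat.of κ)))).hom :=
      congrArg CommRingCat.Hom.hom (Scheme.stalkClosedPointTo_comp p s.j)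
    have hgerm : ∀ r : s.B, δ' (((Spec (.of s.B)).presheaf.germ ⊤
        (p (IsLocalRing.closedPoint (CommRingCat.of κ))) trivial).hom
        ((Scheme.ΓSpecIso (.of s.B)).inv.hom r)) = ι r := by
      intro r
      have h1 := SC2_top p ι rfl
      exact congrArg (fun t => t.hom r) h1
    have hu : IsUnit (((Spec (.of s.B)).presheaf.germ ⊤
        (p (IsLocalRing.closedPoint (CommRingCat.of κ))) trivial).hom
        ((Scheme.ΓSpecIso (.of s.B)).inv.hom b)) := by
      refine hloc.map_nonunit _ ?_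
      rw [hgerm]
      exact isUnit_iff_ne_zero.mpr hb
    obtain ⟨u, hu⟩ := hu
    obtain ⟨t, ht⟩ : ∃ t, (s.j.stalkMap (p (IsLocalRing.closedPoint (CommRingCat.of κ)))).hom t =
        (((Spec (.of s.B)).presheaf.germ ⊤
        (p (IsLocalRing.closedPoint (CommRingCat.of κ))) trivial).hom
        ((Scheme.ΓSpecIso (.of s.B)).inv.hom a)) * ↑u⁻¹ :=
      (ConcreteCategory.bijective_of_isIso
        (s.j.stalkMap (p (IsLocalRing.closedPoint (CommRingCat.of κ))))).2 _
    refine ⟨t, ?_⟩
    have h0 : δ t = δ' ((s.j.stalkMap (p (IsLocalRing.closedPoint (CommRingCat.of κ)))).hom t) :=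
      congrArg (fun w => w t) hδ
    have h2 : δ' ↑u * δ' ↑u⁻¹ = 1 := by rw [← map_mul, Units.mul_inv, map_one]
    have h3 : δ' ↑u = ι b := (congrArg δ' hu).trans (hgerm b)
    have h4 : δ' ↑u⁻¹ = (ι b)⁻¹ := by
      rw [h3] at h2
      exact eq_inv_of_mul_eq_one_right h2
    have h5 : δ t = δ' (((Spec (.of s.B)).presheaf.germ ⊤
        (p (IsLocalRing.closedPoint (CommRingCat.of κ))) trivial).hom
        ((Scheme.ΓSpecIso (.of s.B)).inv.hom a)) * δ' ↑u⁻¹ :=
      h0.trans ((congrArg δ' ht).trans (map_mul δ' _ _))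
    rw [h5, h4, div_eq_mul_inv]
    exact congrArg (· * (ι b)⁻¹) (hgerm a)
  refine ⟨c, δ.comp ρ, ?_, ?_⟩
  · intro e
    obtain ⟨t, ht⟩ := hsurj e
    obtain ⟨a, b, hb, hab⟩ := hρ2 t
    have hne : δ (ρ b) ≠ 0 := (((hρ1 b).mpr hb).map δ).ne_zero
    refine ⟨a, b, hne, ?_⟩
    have h1 : δ t * δ (ρ b) = δ (ρ a) := (map_mul δ t (ρ b)).symm.trans (congrArg δ hab)
    rw [ht] at h1
    exact eq_div_of_mul_eq hne h1
  · intro a
    have h1 : q ≫ pullback.snd f (resPt O) = Spec.map (CommRingCat.ofHom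
        (ι.comp (algebraMap (IsLocalRing.ResidueField O) s.B))) := by
      change (Spec.map (CommRingCat.ofHom ι) ≫ s.j) ≫ pullback.snd f (resPt O) = _
      rw [Category.assoc, s.hj, CommRingCat.ofHom_comp, Spec.map_comp]
    exact (congrArg δ (hρ4 a)).trans (SC2_toStalk (pullback.snd f (resPt O)) q _ h1 _)
-- END SC2

-- BEGIN SC3
private theorem SC3_loc {K L κ A S : Type u} [Field K] [Field L] [Algebra K L] [Field κ]
    [CommRing A] (O : ValuationSubring K) [Algebra O A] (φ : A →+* L) (hφ : Function.Injective φ)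
    (hφO : ∀ a : O, φ (algebraMap O A a) = algebraMap K L a) (τ : A →+* κ)
    (hτ : ∀ e : κ, ∃ a b : A, τ b ≠ 0 ∧ e = τ a / τ b) (ρ : IsLocalRing.ResidueField O →+* κ)
    (hτO : ∀ a : O, τ (algebraMap O A a) = ρ (IsLocalRing.residue O a)) (G : O[X][X]) (x y : κ)
    (hx : ∀ a : IsLocalRing.ResidueField O, x ≠ ρ a)
    (hxy : evalAt (ρ.comp (IsLocalRing.residue O)) G x y = 0)
    (q : Ideal A) [q.IsPrime] (hq : ∀ a, a ∈ q ↔ τ a = 0)
    [CommRing S] [IsLocalRing S] [Algebra A S] [IsLocalization.AtPrime S q] :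
    ∃ w : ValuationSubring L, Over O w ∧ Sol O w G := by
  have hunit : ∀ s : q.primeCompl, IsUnit (φ (s : A)) := fun s => by
    refine IsUnit.mk0 _ fun h0 => s.2 ?_
    have : (s : A) = 0 := hφ (by rw [h0, map_zero])
    rw [this]
    exact q.zero_mem
  have hunit' : ∀ s : q.primeCompl, IsUnit (τ (s : A)) := fun s => by
    refine IsUnit.mk0 _ fun h0 => s.2 ?_
    exact (hq _).2 h0
  let f : S →+* L := IsLocalization.lift (M := q.primeCompl) hunit
  let g : S →+* κ := IsLocalization.lift (M := q.primeCompl) hunit'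
  have hf : ∀ a : A, f (algebraMap _ _ a) = φ a := fun a => IsLocalization.lift_eq hunit a
  have hg : ∀ a : A, g (algebraMap _ _ a) = τ a := fun a => IsLocalization.lift_eq hunit' a
  obtain ⟨w, h, hloc⟩ := IsLocalRing.exists_factor_valuationRing f
  have hgz : ∀ s : S, ¬ IsUnit s ↔ g s = 0 := by
    intro s
    constructor
    · intro hs
      obtain ⟨a, b, rfl⟩ := IsLocalization.exists_mk'_eq q.primeCompl s
      have h1 : ¬ IsUnit (algebraMap A S a) := by
        intro h1
        apply hs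
        have h2 := IsLocalization.mk'_spec S a b
        have h3 : IsUnit (IsLocalization.mk' S a b * algebraMap A S (b : A)) := by rwa [h2]
        exact isUnit_of_mul_isUnit_left h3
      rw [IsLocalization.AtPrime.isUnit_to_map_iff S q] at h1
      have h4 : a ∈ q := by
        by_contra h5
        exact h1 h5
      have h5 : g (IsLocalization.mk' S a b) * g (algebraMap A S (b : A)) = 0 := by
        rw [← map_mul, IsLocalization.mk'_spec, hg]
        exact (hq _).1 h4
      refine (mul_eq_zero.1 h5).resolve_right ?_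
      rw [hg]
      exact (hunit' b).ne_zero
    · intro hs hu
      exact (hu.map g).ne_zero hs
  have hnon : ∀ s : S, f s ∈ w.nonunits ↔ g s = 0 := fun s => by
    rw [← hgz, ValuationSubring.mem_nonunits_iff_exists_mem_maximalIdeal]
    constructor
    · rintro ⟨h2, h3⟩ h4
      rw [IsLocalRing.mem_maximalIdeal, mem_nonunits_iff] at h3
      apply h3
      exact h4.map (f.codRestrict w.toSubring h)
    · intro h2
      refine ⟨h s, ?_⟩
      rw [IsLocalRing.mem_maximalIdeal, mem_nonunits_iff]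
      intro h3
      exact h2 (hloc.map_nonunit s h3)
  have hfO : ∀ a : O, f (algebraMap A S (algebraMap O A a)) = algebraMap K L a := fun a => by
    rw [hf, hφO]
  have hgO : ∀ a : O, g (algebraMap A S (algebraMap O A a)) = ρ (IsLocalRing.residue O a) :=
    fun a => by rw [hg, hτO]
  have hsurj : ∀ e : κ, ∃ s : S, g s = e := fun e => by
    obtain ⟨a, b, hb, rfl⟩ := hτ e
    have hbq : b ∈ q.primeCompl := fun hb' => hb ((hq _).1 hb')
    refine ⟨IsLocalization.mk' S a ⟨b, hbq⟩, ?_⟩
    rw [eq_div_iff hb, ← hg b, ← map_mul, ← hg a]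
    congr 1
    exact IsLocalization.mk'_spec S a ⟨b, hbq⟩
  obtain ⟨x', hx'⟩ := hsurj x
  obtain ⟨y', hy'⟩ := hsurj y
  refine ⟨w, over_of_le (fun a ha => ?_) (fun a ha => ?_), f x', f y', ⟨h x', fun a ha => ?_⟩,
    h y', ?_⟩
  · have h1 := h (algebraMap A S (algebraMap O A ⟨a, ha⟩))
    rw [hfO] at h1
    exact h1
  · have haO : a ∈ O := O.nonunits_subset ha
    have h1 : f (algebraMap A S (algebraMap O A ⟨a, haO⟩)) ∈ w.nonunits := by
      rw [hnon, hgO]
      have h2 : IsLocalRing.residue O ⟨a, haO⟩ = 0 := by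
        rw [IsLocalRing.residue_eq_zero_iff]
        obtain ⟨h3, h4⟩ := ValuationSubring.mem_nonunits_iff_exists_mem_maximalIdeal.mp ha
        exact h4
      rw [h2, map_zero]
    rw [hfO] at h1
    exact h1
  · intro h1
    have h2 : f (x' - algebraMap A S (algebraMap O A ⟨a, ha⟩)) ∈ w.nonunits := by
      rw [map_sub, hfO]
      exact h1
    rw [hnon, map_sub, hgO, hx', sub_eq_zero] at h2
    exact hx _ h2
  · have h1 : evalAt ((algebraMap K L).comp O.subtype) G (f x') (f y') =
        f (evalAt ((algebraMap A S).comp (algebraMap O A)) G x' y') := by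
      rw [map_evalAt]
      congr 1
      ext a
      exact (hfO a).symm
    rw [h1, hnon, map_evalAt, hx', hy', ← hxy]
    congr 1
    ext a
    exact hgO a

/-- (SC3) Let `A` be a ring with an injective homomorphism `φ` to a field `L` over `K` and a homomorphism `τ` to a field `κ`, with `κ` the fractions of `τ A`. There is
a valuation ring of `L` over `O` dominating the localization of `A` at the prime ideal `ker τ`; it has a solution of `G` if
`κ` has one. `IsLocalRing.exists_factor_valuationRing` for `A_q → L`, `q = ker τ`; `O → A → w` is local as `τ` is `0` on the maximal ideal of `O`; `over_of_le` (V/Val1.lean). The residue field of `A_q` is `κ`; lift `x, y` to `A_q`;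
`x` is not congruent to a constant as `A_q → w` is local. -/
theorem exists_valuation_of_hom {K L κ A : Type u} [Field K] [Field L] [Algebra K L] [Field κ]
    [CommRing A] (O : ValuationSubring K) [Algebra O A] (φ : A →+* L) (hφ : Function.Injective φ)
    (hφO : ∀ a : O, φ (algebraMap O A a) = algebraMap K L a) (τ : A →+* κ)
    (hτ : ∀ e : κ, ∃ a b : A, τ b ≠ 0 ∧ e = τ a / τ b) (ρ : IsLocalRing.ResidueField O →+* κ)
    (hτO : ∀ a : O, τ (algebraMap O A a) = ρ (IsLocalRing.residue O a)) (G : O[X][X]) (x y : κ)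
    (hx : ∀ a : IsLocalRing.ResidueField O, x ≠ ρ a)
    (hxy : evalAt (ρ.comp (IsLocalRing.residue O)) G x y = 0) :
    ∃ w : ValuationSubring L, Over O w ∧ Sol O w G := by
  have hprime : (RingHom.ker τ).IsPrime := RingHom.ker_isPrime τ
  exact SC3_loc (S := Localization.AtPrime (RingHom.ker τ)) O φ hφ hφO τ hτ ρ hτO G x y hx hxy
    (RingHom.ker τ) (fun a => RingHom.mem_ker)
-- END SC3

/-- A solution in the function field of a component of the special fibre gives a valuation ring of
the function field of the generic fibre. -/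
theorem exists_sol_of_special (hX : FlatModel O f g) (s : SpecialChart O f) {κ : Type u}
    [Field κ] (ι : s.B →+* κ) (hι : Function.Injective ι)
    (hfrac : ∀ z : κ, ∃ a b : s.B, ι b ≠ 0 ∧ z = ι a / ι b) (G : O[X][X]) (x y : κ)
    (hx : ∀ a : IsLocalRing.ResidueField O,
      x ≠ ι (algebraMap (IsLocalRing.ResidueField O) s.B a))
    (hxy : evalAt ((ι.comp (algebraMap (IsLocalRing.ResidueField O) s.B)).comp
      (IsLocalRing.residue O)) G x y = 0) :
    letI := (toFunctionField g).toAlgebra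
    ∃ w : ValuationSubring C.functionField, Over O w ∧ Sol O w G := by
  have := hX.flat
  have := hX.locallyOfFinitePresentation
  obtain ⟨i, hi⟩ := hX.generic
  obtain ⟨c, τ, h1, h2⟩ := exists_component_hom s ι hι hfrac
  have : Nontrivial c.A := τ.domain_nontrivial
  obtain ⟨φ, hφ⟩ := exists_generic_hom hi c
  have := c.flat
  let _ := (toFunctionField g).toAlgebra
  exact exists_valuation_of_hom O φ (chart_hom_injective hi c φ hφ)
    (chart_hom_algebraMap hi c φ hφ) τ h1
    (ι.comp (algebraMap (IsLocalRing.ResidueField O) s.B)) h2 G x y hx hxy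

end general

end Pool.Agent.Lib.MP_211349_ag
end
end
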