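import Pool.Agent.Lib.MP_211349_ag.Mg.G011
import Pool.Agent.Lib.MP_211349_ag.Mg.G004
import Pool.Agent.Lib.MP_211349_ag.N.Alg
import Pool.Agent.Lib.MP_211349_ag.Mg.G006
import Pool.Agent.Lib.MP_211349_ag.Mg.G013
import Pool.Agent.Lib.MP_211349_ag.Mg.G010

section

/-!
# Two embeddings of the function field of a covering of a constant curve
-/

open CategoryTheory Limits AlgebraicGeometry Polynomial TensorProduct

universe u

noncomputable section

namespace Pool.Agent.Lib.MP_211349_ag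

-- BEGIN DE1
/-- Elements of a tensor product are finite sums indexed by `Fin n`. -/
private theorem DE1_exists {F K B₀ : Type u} [CommRing F] [CommRing K] [CommRing B₀] [Algebra F K]
    [Algebra F B₀] (x : K ⊗[F] B₀) :
    ∃ (n : ℕ) (c : Fin n → K) (b : Fin n → B₀), x = ∑ i, c i ⊗ₜ[F] b i := by
  induction x using TensorProduct.induction_on with
  | zero => exact ⟨0, fun _ => 0, fun _ => 0, by simp⟩
  | tmul c b => exact ⟨1, fun _ => c, fun _ => b, by simp⟩
  | add x y hx hy =>
    obtain ⟨n, c, b, hx⟩ := hx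
    obtain ⟨m, d, e, hy⟩ := hy
    refine ⟨n + m, Fin.append c d, Fin.append b e, ?_⟩
    rw [Fin.sum_univ_add]
    simp only [Fin.append_left, Fin.append_right]
    rw [hx, hy]

/-- The algebraic part: a pushout of rings over a field inside a field of fractions. -/
private theorem DE1_tensor {F K B₀ D L : Type u} [Field F] [Field K] [CommRing B₀] [CommRing D]
    [Field L] (φ : F →+* K) (a : F →+* B₀) (β : K →+* D) (w : B₀ →+* D)
    (h : IsPushout (CommRingCat.ofHom φ) (CommRingCat.ofHom a) (CommRingCat.ofHom β)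
      (CommRingCat.ofHom w)) (γ : D →+* L) (hγ : Function.Injective γ)
    (hfrac : ∀ z : L, ∃ x y : D, γ y ≠ 0 ∧ z = γ x / γ y) :
    (∀ (n : ℕ) (b : Fin n → B₀), (∀ c : Fin n → F, ∑ i, a (c i) * b i = 0 → ∀ i, c i = 0) →
        ∀ c : Fin n → K, ∑ i, γ (β (c i)) * γ (w (b i)) = 0 → ∀ i, c i = 0) ∧
      ∀ z : L, ∃ (n : ℕ) (c d : Fin n → K) (b : Fin n → B₀),
        ∑ i, γ (β (d i)) * γ (w (b i)) ≠ 0 ∧
        z = (∑ i, γ (β (c i)) * γ (w (b i))) / ∑ i, γ (β (d i)) * γ (w (b i)) := by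
  let _ : Algebra F K := φ.toAlgebra
  let _ : Algebra F B₀ := a.toAlgebra
  let _ : Algebra K D := β.toAlgebra
  let _ : Algebra B₀ D := w.toAlgebra
  let _ : Algebra F D := (β.comp φ).toAlgebra
  have t1 : IsScalarTower F K D := IsScalarTower.of_algebraMap_eq' rfl
  have t2 : IsScalarTower F B₀ D := IsScalarTower.of_algebraMap_eq' (by
    have h1 := h.w
    rw [← CommRingCat.ofHom_comp, ← CommRingCat.ofHom_comp] at h1
    exact congrArg CommRingCat.Hom.hom h1)
  have hp : Algebra.IsPushout F K B₀ D := CommRingCat.isPushout_iff_isPushout.mp h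
  let e := Algebra.IsPushout.equiv F K B₀ D
  have he : ∀ (c : K) (b : B₀), e (c ⊗ₜ b) = β c * w b := fun c b => by
    rw [Algebra.IsPushout.equiv_tmul]
    rfl
  have hsum : ∀ (n : ℕ) (c : Fin n → K) (b : Fin n → B₀),
      ∑ i, γ (β (c i)) * γ (w (b i)) = γ (e (∑ i, c i ⊗ₜ[F] b i)) := by
    intro n c b
    rw [map_sum, map_sum]
    refine Finset.sum_congr rfl fun i _ => ?_
    rw [he, map_mul]
  constructor
  · intro n b hb c hc
    have hli : LinearIndependent F b := by
      rw [Fintype.linearIndependent_iff]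
      intro g hg
      apply hb
      rw [← hg]
      exact Finset.sum_congr rfl fun i _ => (Algebra.smul_def (g i) (b i)).symm
    have hli2 := Module.Flat.linearIndependent_one_tmul (S := K) hli
    rw [Fintype.linearIndependent_iff] at hli2
    apply hli2
    rw [hsum] at hc
    have h1 : ∑ i, c i ⊗ₜ[F] b i = 0 := e.injective (hγ (by rw [hc, map_zero, map_zero]))
    rw [← h1]
    refine Finset.sum_congr rfl fun i _ => ?_
    rw [TensorProduct.smul_tmul', smul_eq_mul, mul_one]
  · intro z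
    obtain ⟨x, y, hy, hz⟩ := hfrac z
    obtain ⟨n, c, b, hx'⟩ := DE1_exists (e.symm x)
    obtain ⟨m, d, b', hy'⟩ := DE1_exists (e.symm y)
    have hx2 : x = e (∑ i, c i ⊗ₜ[F] b i) := by rw [← hx', e.apply_symm_apply]
    have hy2 : y = e (∑ i, d i ⊗ₜ[F] b' i) := by rw [← hy', e.apply_symm_apply]
    have hsx : ∑ i, γ (β (Fin.append c (0 : Fin m → K) i)) * γ (w (Fin.append b b' i)) = γ x := by
      rw [Fin.sum_univ_add]
      simp only [Fin.append_left, Fin.append_right, Pi.zero_apply, map_zero, zero_mul,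
        Finset.sum_const_zero, add_zero]
      rw [hsum, ← hx2]
    have hsy : ∑ i, γ (β (Fin.append (0 : Fin n → K) d i)) * γ (w (Fin.append b b' i)) = γ y := by
      rw [Fin.sum_univ_add]
      simp only [Fin.append_left, Fin.append_right, Pi.zero_apply, map_zero, zero_mul,
        Finset.sum_const_zero, zero_add]
      rw [hsum, ← hy2]
    refine ⟨n + m, Fin.append c 0, Fin.append 0 d, Fin.append b b', ?_, ?_⟩
    · rw [hsy]
      exact hy
    · rw [hsx, hsy]
      exact hz

/-- (DE1) The function field of a covering of a constant curve is the field of fractions of `K ⊗[F] B₀`, `B₀` a domain of finite type over `F`. `exists_constant` (NG5, N/Geom.lean) gives `τ : Γ(X, T.U) → B₀`, `w : B₀ → Γ(C, W)`, `W = π ⁻¹ᵁ (i ⁻¹ᵁ T.U)`,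
and the pushout `Γ(C, W) = K ⊗[F] B₀`; `W` is affine (affine morphisms) and nonempty, as in `one_chart` (N/Main.lean), where it is also proved that `B₀` is a domain and `τ.comp (str s T.U)` is of
finite type. The function field is the field of fractions of `Γ(C, W)` (`functionField_isFractionRing_of_isAffineOpen`); `ψ` is `B₀ → Γ(C, W) → function field`. The composition of `str (π ≫ t) W` with `Γ(C, W) → function field` is
`toFunctionField (π ≫ t)`. -/
theorem exists_constant_functionField {F K : Type u} [Field F] [IsAlgClosed F] [Field K]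
    [IsAlgClosed K] (φ : F →+* K) {X Y C : Scheme.{u}} {s : X ⟶ Spec (.of F)} [Smooth s]
    {t : Y ⟶ Spec (.of K)} [IsIntegral Y] {i : Y ⟶ X}
    (H : IsPullback i t s (Spec.map (CommRingCat.ofHom φ))) (T : TwoCharts s) [IsIntegral C]
    (π : C ⟶ Y) [IsFinite π] [Etale π] :
    ∃ (B₀ : Type u) (_ : CommRing B₀) (_ : IsDomain B₀) (a : F →+* B₀) (_ : a.FiniteType)
      (ψ : B₀ →+* C.functionField), ψ.comp a = (toFunctionField (π ≫ t)).comp φ ∧
      (∀ (n : ℕ) (b : Fin n → B₀), (∀ c : Fin n → F, ∑ i, a (c i) * b i = 0 → ∀ i, c i = 0) →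
        ∀ c : Fin n → K, ∑ i, toFunctionField (π ≫ t) (c i) * ψ (b i) = 0 → ∀ i, c i = 0) ∧
      ∀ z : C.functionField, ∃ (n : ℕ) (c d : Fin n → K) (b : Fin n → B₀),
        ∑ i, toFunctionField (π ≫ t) (d i) * ψ (b i) ≠ 0 ∧
        z = (∑ i, toFunctionField (π ≫ t) (c i) * ψ (b i)) /
          ∑ i, toFunctionField (π ≫ t) (d i) * ψ (b i) := by
  obtain ⟨B₀, iB, τ, w, hτ, hτf, hw, hB⟩ := exists_constant φ H T π
  have hi : IsAffineHom i :=
    MorphismProperty.of_isPullback (P := @IsAffineHom) H.flip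
      (inferInstance : IsAffineHom (Spec.map (CommRingCat.ofHom φ)))
  have hsm : (τ.comp (str s T.U)).Smooth :=
    (str_smooth s T.isAffine).comp (RingHom.etale_iff_formallyUnramified_and_smooth _ |>.mp hτ).2
  have hWaff : IsAffineOpen (π ⁻¹ᵁ (i ⁻¹ᵁ T.U)) := (T.isAffine.preimage i).preimage π
  have hne : Nonempty ↥(π ⁻¹ᵁ (i ⁻¹ᵁ T.U)) := by
    have h1 := sec_pullback _ H T.isAffine rfl
    have h2 := injective_of_isPushout _ _ _ (i.appLE T.U _ le_rfl).hom h1
    have : Nontrivial Γ(X, T.U) := T.nontrivial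
    have h3 : Nonempty ↥(i ⁻¹ᵁ T.U) := nonempty_of_nontrivial h2.nontrivial
    exact nonempty_preimage π (i ⁻¹ᵁ T.U) h3
  have hne2 : Nonempty (π ⁻¹ᵁ (i ⁻¹ᵁ T.U)) := hne
  have hdom : IsDomain Γ(C, π ⁻¹ᵁ (i ⁻¹ᵁ T.U)) :=
    @AlgebraicGeometry.IsIntegral.component_integral C _ _ hne
  have hBd : IsDomain B₀ := (injective_of_isPushout _ _ _ _ hB).isDomain w
  have hfr := functionField_isFractionRing_of_isAffineOpen C (π ⁻¹ᵁ (i ⁻¹ᵁ T.U)) hWaff
  let γ : Γ(C, π ⁻¹ᵁ (i ⁻¹ᵁ T.U)) →+* C.functionField := algebraMap _ _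
  have hγ : Function.Injective γ := IsFractionRing.injective _ _
  have hγs : γ.comp (str (π ≫ t) (π ⁻¹ᵁ (i ⁻¹ᵁ T.U))) = toFunctionField (π ≫ t) := by
    have h1 : str (π ≫ t) (π ⁻¹ᵁ (i ⁻¹ᵁ T.U)) =
        (C.presheaf.map (homOfLE (le_top : π ⁻¹ᵁ (i ⁻¹ᵁ T.U) ≤ ⊤)).op).hom.comp
          (str (π ≫ t) ⊤) := (str_map (π ≫ t) le_top).symm
    have h2 : γ.comp (C.presheaf.map (homOfLE (le_top : π ⁻¹ᵁ (i ⁻¹ᵁ T.U) ≤ ⊤)).op).hom =
        (C.presheaf.germ ⊤ (genericPoint C) trivial).hom :=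
      congrArg CommRingCat.Hom.hom (C.presheaf.germ_res (homOfLE (le_top :
        π ⁻¹ᵁ (i ⁻¹ᵁ T.U) ≤ ⊤)) (genericPoint C) _)
    rw [h1, ← RingHom.comp_assoc, h2]
    unfold toFunctionField str
    congr 2
    rw [Scheme.Hom.appTop, Scheme.Hom.app_eq_appLE]
    rfl
  have hfrac : ∀ z : C.functionField, ∃ x y, γ y ≠ 0 ∧ z = γ x / γ y := by
    intro z
    obtain ⟨x, y, hy, rfl⟩ := IsFractionRing.div_surjective (A := Γ(C, π ⁻¹ᵁ (i ⁻¹ᵁ T.U))) z
    exact ⟨x, y, (map_ne_zero_iff _ hγ).2 (nonZeroDivisors.ne_zero hy), rfl⟩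
  obtain ⟨k1, k2⟩ := DE1_tensor φ (τ.comp (str s T.U)) _ w hB γ hγ hfrac
  have hw' : w.comp (τ.comp (str s T.U)) = (str (π ≫ t) (π ⁻¹ᵁ (i ⁻¹ᵁ T.U))).comp φ := by
    have h1 := hB.w
    rw [← CommRingCat.ofHom_comp, ← CommRingCat.ofHom_comp] at h1
    exact (congrArg CommRingCat.Hom.hom h1).symm
  rw [← hγs]
  refine ⟨B₀, iB, hBd, τ.comp (str s T.U),
    RingHom.FiniteType.of_finitePresentation hsm.finitePresentation, γ.comp w, ?_, k1, k2⟩
  rw [RingHom.comp_assoc, hw', RingHom.comp_assoc]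
-- END DE1

-- BEGIN DE2
private theorem DE2_fin {R M N : Type*} [CommRing R] [AddCommGroup M] [AddCommGroup N]
    [Module R M] [Module R N] (p : M ⊗[R] N) :
    ∃ (n : ℕ) (c : Fin n → M) (b : Fin n → N), p = ∑ i, c i ⊗ₜ[R] b i := by
  induction p using TensorProduct.induction_on with
  | zero => exact ⟨0, fun _ => 0, fun _ => 0, by simp⟩
  | tmul x y => exact ⟨1, fun _ => x, fun _ => y, by simp⟩
  | add x y hx hy =>
    obtain ⟨n, c, b, rfl⟩ := hx
    obtain ⟨m, c', b', rfl⟩ := hy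
    refine ⟨n + m, Fin.append c c', Fin.append b b', ?_⟩
    rw [Fin.sum_univ_add]
    simp

private theorem DE2_common {R M N : Type*} [CommRing R] [AddCommGroup M] [AddCommGroup N]
    [Module R M] [Module R N] (p q : M ⊗[R] N) :
    ∃ (n : ℕ) (c d : Fin n → M) (b : Fin n → N), p = ∑ i, c i ⊗ₜ[R] b i ∧
      q = ∑ i, d i ⊗ₜ[R] b i := by
  obtain ⟨n, c, b, rfl⟩ := DE2_fin p
  obtain ⟨m, c', b', rfl⟩ := DE2_fin q
  refine ⟨n + m, Fin.append c fun _ => 0, Fin.append (fun _ => 0) c', Fin.append b b', ?_, ?_⟩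
  · rw [Fin.sum_univ_add]
    simp
  · rw [Fin.sum_univ_add]
    simp

private theorem DE2_key {F K K' B₀ M L' : Type u} [Field F] [Field K] [Field K'] [CommRing B₀]
    [Field M] [Field L'] [Algebra F K] [Algebra F K'] [Algebra F B₀]
    (j : K ⊗[F] B₀ →+* M) (hj : Function.Injective j) (hjf : ∀ z : M, ∃ p q, z = j p / j q)
    (ι : K' ⊗[F] B₀ →+* L') (hι : Function.Injective ι) (hιf : ∀ z : L', ∃ p q, z = ι p / ι q)
    (ρ : K →ₐ[F] K') :
    ∃ θ : M →+* L', FracExt (j.comp Algebra.TensorProduct.includeLeftRingHom)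
      (ι.comp Algebra.TensorProduct.includeLeftRingHom) ρ.toRingHom θ := by
  let Rm : K ⊗[F] B₀ →ₐ[F] K' ⊗[F] B₀ := Algebra.TensorProduct.map ρ (AlgHom.id F B₀)
  have hRm : Function.Injective Rm :=
    Module.Flat.rTensor_preserves_injective_linearMap (M := B₀) ρ.toLinearMap ρ.injective
  have hRt : ∀ (x : K) (b : B₀), Rm (x ⊗ₜ b) = ρ x ⊗ₜ b := fun x b => rfl
  let _ : Algebra (K ⊗[F] B₀) M := j.toAlgebra
  have hfaith : FaithfulSMul (K ⊗[F] B₀) M := (faithfulSMul_iff_algebraMap_injective _ _).2 hj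
  have hfrac : IsFractionRing (K ⊗[F] B₀) M := IsFractionRing.of_field _ _ hjf
  have hginj : Function.Injective (ι.comp Rm.toRingHom) := hι.comp hRm
  let θ : M →+* L' := IsFractionRing.lift (A := K ⊗[F] B₀) (K := M) hginj
  have hθ : ∀ t, θ (j t) = ι (Rm t) := fun t => IsFractionRing.lift_algebraMap hginj t
  refine ⟨θ, ⟨fun x => hθ (x ⊗ₜ 1), ?_, ?_⟩⟩
  · -- linear disjointness
    intro n b hb c' hc'
    have hb' : ∀ c : Fin n → K, ∑ i, j (c i ⊗ₜ 1) * b i = 0 → ∀ i, c i = 0 := hb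
    have hc'' : ∑ i, ι (c' i ⊗ₜ 1) * θ (b i) = 0 := hc'
    obtain ⟨s, hs⟩ := IsLocalization.exist_integer_multiples_of_finite
      (nonZeroDivisors (K ⊗[F] B₀)) b
    choose t ht using hs
    have ht' : ∀ i, j (t i) = j s * b i := fun i => (ht i).trans (Algebra.smul_def _ _)
    have hs0 : j s ≠ 0 := by
      have h1 := IsLocalization.map_units M s
      exact h1.ne_zero
    have hlin : LinearIndependent K t := by
      rw [Fintype.linearIndependent_iff]
      intro g hg
      refine hb' g ?_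
      have h1 : j s * ∑ i, j (g i ⊗ₜ 1) * b i = 0 := by
        rw [Finset.mul_sum, ← map_zero j, ← hg, map_sum]
        refine Finset.sum_congr rfl fun i _ => ?_
        rw [Algebra.smul_def, map_mul, ht' i]
        have h2 : (algebraMap K (K ⊗[F] B₀)) (g i) = g i ⊗ₜ 1 := rfl
        rw [h2]
        ring
      exact (mul_eq_zero.1 h1).resolve_left hs0
    have hinj := hlin.fintypeLinearCombination_injective
    obtain ⟨g, hg⟩ := LinearMap.exists_leftInverse_of_injective (Fintype.linearCombination K t)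
      (LinearMap.ker_eq_bot.2 hinj)
    have hgt : ∀ i, g (t i) = Pi.single i 1 := by
      intro i
      have h1 := LinearMap.congr_fun hg (Pi.single i 1)
      rw [LinearMap.comp_apply, Fintype.linearCombination_apply_single, one_smul] at h1
      exact h1
    let l : B₀ →ₗ[F] (Fin n → K') :=
      (ρ.toLinearMap.compLeft (Fin n)) ∘ₗ (g.restrictScalars F) ∘ₗ (TensorProduct.mk F K B₀ 1)
    have hl : ∀ (b : B₀) (k : Fin n), l b k = ρ (g (1 ⊗ₜ b) k) := fun b k => rfl
    let G : K' ⊗[F] B₀ →ₗ[K'] (Fin n → K') := LinearMap.liftBaseChange K' l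
    have hG : ∀ (u : K ⊗[F] B₀) (k : Fin n), G (Rm u) k = ρ (g u k) := by
      intro u k
      induction u using TensorProduct.induction_on with
      | zero => simp
      | tmul x b =>
        rw [hRt]
        have h1 : (x ⊗ₜ[F] b : K ⊗[F] B₀) = x • ((1 : K) ⊗ₜ[F] b) := by
          rw [TensorProduct.smul_tmul', smul_eq_mul, mul_one]
        rw [h1, map_smul, LinearMap.liftBaseChange_tmul, Pi.smul_apply, Pi.smul_apply, hl,
          smul_eq_mul, smul_eq_mul, map_mul]
      | add x y hx hy =>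
        rw [map_add, map_add, map_add, Pi.add_apply, Pi.add_apply, hx, hy, map_add]
    have h1 : ∑ i, c' i • Rm (t i) = 0 := by
      apply hι
      rw [map_zero, map_sum]
      have h2 : θ (j s) * ∑ i, ι (c' i ⊗ₜ 1) * θ (b i) = 0 := by rw [hc'', mul_zero]
      rw [← h2, Finset.mul_sum]
      refine Finset.sum_congr rfl fun i _ => ?_
      rw [Algebra.smul_def, map_mul, ← hθ, ht', map_mul]
      have h3 : (algebraMap K' (K' ⊗[F] B₀)) (c' i) = c' i ⊗ₜ 1 := rfl
      rw [h3]
      ring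
    intro k
    have h2 := congrFun (congrArg G h1) k
    rw [map_sum, map_zero, Finset.sum_apply, Pi.zero_apply] at h2
    rw [← h2, Finset.sum_eq_single k]
    · rw [map_smul, Pi.smul_apply, hG, hgt, Pi.single_eq_same, map_one, smul_eq_mul, mul_one]
    · intro i _ hik
      rw [map_smul, Pi.smul_apply, hG, hgt, Pi.single_eq_of_ne hik.symm, map_zero, smul_zero]
    · intro h
      exact absurd (Finset.mem_univ k) h
  · -- generation
    intro z
    obtain ⟨p, q, hq, hz⟩ : ∃ p q, ι q ≠ 0 ∧ z = ι p / ι q := by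
      obtain ⟨p, q, hz⟩ := hιf z
      by_cases hq : ι q = 0
      · refine ⟨0, 1, ?_, ?_⟩
        · rw [map_one]
          exact one_ne_zero
        · rw [hz, hq, div_zero, map_zero, zero_div]
      · exact ⟨p, q, hq, hz⟩
    obtain ⟨n, c, d, b, hp, hq'⟩ := DE2_common p q
    have hsum : ∀ c : Fin n → K', ∑ i, ι (c i ⊗ₜ 1) * θ (j (1 ⊗ₜ b i)) = ι (∑ i, c i ⊗ₜ b i) := by
      intro c
      rw [map_sum]
      refine Finset.sum_congr rfl fun i _ => ?_
      rw [hθ, hRt, map_one, ← map_mul, Algebra.TensorProduct.tmul_mul_tmul, mul_one, one_mul]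
    refine ⟨n, c, d, fun i => j (1 ⊗ₜ b i), ?_, ?_⟩
    · have h1 := hsum d
      rw [← hq'] at h1
      exact fun h2 => hq (h1.symm.trans h2)
    · have h1 := hsum d
      have h2 := hsum c
      rw [← hq'] at h1
      rw [← hp] at h2
      rw [hz, ← h1, ← h2]
      rfl

/-- (DE2) Let `M` be the field of fractions of `K ⊗[F] B₀` in the form of (DE1): `FracExt a κ φ ψ`. Let `L' = Frac (K' ⊗[F] B₀)`: a domain by `isDomain_tensor` (NA4, N/Alg.lean) for `F → K → K'`
(the two compositions `σ φ = τ φ` agree). `κ' : K' → L'`, `ψ' : B₀ → L'`. For every `ρ : K → K'` with `ρ φ = σ φ` the homomorphism `K ⊗[F] B₀ → K' ⊗[F] B₀` is injective and extends to `θ_ρ : M → L'` with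
`θ_ρ κ = κ' ρ`, `θ_ρ ψ = ψ'`; `M` and `K'` are linearly disjoint over `K` (`K' ⊗[K] (K ⊗[F] B₀) = K' ⊗[F] B₀`; clear denominators). In terms of `FracExt`: if `b_1, .., b_n ∈ M` are linearly independent over `K`, multiply them by a common denominator to have
`b_j = ∑ κ(m_{ji}) ψ(β_i)` with `β_i` linearly independent over `F`; the rows of the matrix `m` are linearly independent over `K`, hence so are those of `ρ(m)` over `K'`. -/
theorem exists_double_of_fracExt {F K K' B₀ M : Type u} [Field F] [IsAlgClosed F] [Field K]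
    [Field K'] [CommRing B₀] [IsDomain B₀] [Field M] (a : F →+* B₀) (ha : a.FiniteType)
    (κ : K →+* M) (φ : F →+* K) (ψ : B₀ →+* M) (h : FracExt a κ φ ψ) (σ τ : K →+* K')
    (hστ : σ.comp φ = τ.comp φ) :
    ∃ (L' : Type u) (_ : Field L') (_ : Algebra K' L') (θ η : M →+* L'),
      FracExt κ (algebraMap K' L') σ θ ∧ FracExt κ (algebraMap K' L') τ η := by
  let _ : Algebra F B₀ := a.toAlgebra
  let _ : Algebra F K := φ.toAlgebra
  let _ : Algebra F K' := (σ.comp φ).toAlgebra
  let _ : Algebra B₀ M := ψ.toAlgebra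
  let _ : Algebra K M := κ.toAlgebra
  let _ : Algebra F M := (κ.comp φ).toAlgebra
  have _ : IsScalarTower F K M := IsScalarTower.of_algebraMap_eq fun x => rfl
  have _ : IsScalarTower F B₀ M := IsScalarTower.of_algebraMap_eq fun x => (h.comm x).symm
  have _ : Algebra.FiniteType F B₀ := ha
  have hj := FracExt.tensor_injective (K := F) (L := B₀) (K' := K) (L' := M) h
  obtain ⟨j, hj1⟩ : ∃ j : K ⊗[F] B₀ →+* M, j = (Algebra.TensorProduct.lift (Algebra.ofId K M)
      (IsScalarTower.toAlgHom F B₀ M) (fun _ _ => Commute.all _ _) : K ⊗[F] B₀ →ₐ[K] M).toRingHom :=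
    ⟨_, rfl⟩
  have hjt : ∀ x b, j (x ⊗ₜ b) = κ x * ψ b := by
    intro x b
    rw [hj1]
    exact Algebra.TensorProduct.lift_tmul _ _ _ x b
  have hjinj : Function.Injective j := by
    rw [hj1]
    exact hj
  have hκ : j.comp Algebra.TensorProduct.includeLeftRingHom = κ := by
    ext x
    show j (x ⊗ₜ 1) = κ x
    rw [hjt, map_one, mul_one]
  have hjf : ∀ z : M, ∃ p q, z = j p / j q := by
    intro z
    obtain ⟨n, c, d, b, -, hz⟩ := h.frac z
    refine ⟨∑ i, c i ⊗ₜ b i, ∑ i, d i ⊗ₜ b i, ?_⟩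
    rw [hz, map_sum, map_sum]
    simp only [hjt]
  have hdom : IsDomain (K' ⊗[F] B₀) := isDomain_tensor
  let ι : K' ⊗[F] B₀ →+* FractionRing (K' ⊗[F] B₀) := algebraMap _ _
  have hι : Function.Injective ι := IsFractionRing.injective _ _
  have hιf : ∀ z : FractionRing (K' ⊗[F] B₀), ∃ p q, z = ι p / ι q := by
    intro z
    obtain ⟨p, q, _, hz⟩ := IsFractionRing.div_surjective (A := K' ⊗[F] B₀) z
    exact ⟨p, q, hz.symm⟩
  let ρ₁ : K →ₐ[F] K' := { σ with commutes' := fun r => rfl }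
  let ρ₂ : K →ₐ[F] K' := { τ with commutes' := fun r => (RingHom.congr_fun hστ r).symm }
  obtain ⟨θ, hθ⟩ := DE2_key j hjinj hjf ι hι hιf ρ₁
  obtain ⟨η, hη⟩ := DE2_key j hjinj hjf ι hι hιf ρ₂
  rw [hκ] at hθ hη
  exact ⟨FractionRing (K' ⊗[F] B₀), inferInstance,
    (ι.comp Algebra.TensorProduct.includeLeftRingHom).toAlgebra, θ, η, hθ, hη⟩
-- END DE2

/-- Two embeddings of the function field of a covering of a constant curve. -/
theorem exists_double_embedding {F K K' : Type u} [Field F] [IsAlgClosed F] [Field K]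
    [IsAlgClosed K] [Field K'] (φ : F →+* K) (σ τ : K →+* K') (hστ : σ.comp φ = τ.comp φ)
    {X Y C : Scheme.{u}} {s : X ⟶ Spec (.of F)} [Smooth s] {t : Y ⟶ Spec (.of K)} [IsIntegral Y]
    {i : Y ⟶ X} (H : IsPullback i t s (Spec.map (CommRingCat.ofHom φ))) (T : TwoCharts s)
    [IsIntegral C] (π : C ⟶ Y) [IsFinite π] [Etale π] :
    ∃ (L' : Type u) (_ : Field L') (_ : Algebra K' L') (θ η : C.functionField →+* L'),
      FracExt (toFunctionField (π ≫ t)) (algebraMap K' L') σ θ ∧
      FracExt (toFunctionField (π ≫ t)) (algebraMap K' L') τ η := by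
  obtain ⟨B₀, _, _, a, ha, ψ, h1, h2, h3⟩ := exists_constant_functionField φ H T π
  exact exists_double_of_fracExt a ha (toFunctionField (π ≫ t)) φ ψ
    ⟨fun x => RingHom.congr_fun h1 x, h2, h3⟩ σ τ hστ

end Pool.Agent.Lib.MP_211349_ag
end
end

section

/-!
# Amalgamation of valuation rings
-/

open Polynomial TensorProduct

universe u

noncomputable section

namespace Pool.Agent.Lib.MP_211349_ag

-- BEGIN AM1
private theorem AM1_mem_range (k κ₁ κ₂ : Type u) [Field k] [Field κ₁] [Field κ₂]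
    [Algebra k κ₁] [Algebra k κ₂] (z : κ₁ ⊗[k] κ₂) :
    ∃ s : Set κ₂, s.Finite ∧ ∀ t : Set κ₂, s ⊆ t →
      z ∈ (Algebra.TensorProduct.map (AlgHom.id k κ₁) (Algebra.adjoin k t).val).range := by
  induction z using TensorProduct.induction_on with
  | zero => exact ⟨∅, Set.finite_empty, fun t _ => zero_mem _⟩
  | tmul a b =>
    refine ⟨{b}, Set.finite_singleton b, fun t ht => ?_⟩
    refine ⟨a ⊗ₜ ⟨b, Algebra.subset_adjoin (ht rfl)⟩, ?_⟩
    rfl
  | add x y hx hy =>
    obtain ⟨s₁, h₁, h₂⟩ := hx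
    obtain ⟨s₂, h₃, h₄⟩ := hy
    refine ⟨s₁ ∪ s₂, h₁.union h₃, fun t ht => ?_⟩
    exact add_mem (h₂ t (Set.subset_union_left.trans ht)) (h₄ t (Set.subset_union_right.trans ht))

/-- (AM1) The tensor product of two extension fields of an algebraically closed field is a domain. A zero divisor relation involves only a finitely generated subalgebra `B₀` of `κ₂`;
`κ₁ ⊗ B₀ → κ₁ ⊗ κ₂` is injective (flatness over a field) and `κ₁ ⊗ B₀` is a domain by `isDomain_tensor` (NA4, N/Alg.lean). -/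
theorem isDomain_tensor_fields (k κ₁ κ₂ : Type u) [Field k] [IsAlgClosed k] [Field κ₁] [Field κ₂]
    [Algebra k κ₁] [Algebra k κ₂] : IsDomain (κ₁ ⊗[k] κ₂) := by
  have hnt : Nontrivial (κ₁ ⊗[k] κ₂) := inferInstance
  have hnz : NoZeroDivisors (κ₁ ⊗[k] κ₂) := by
    refine ⟨fun {x y} hxy => ?_⟩
    obtain ⟨s₁, h₁, h₂⟩ := AM1_mem_range k κ₁ κ₂ x
    obtain ⟨s₂, h₃, h₄⟩ := AM1_mem_range k κ₁ κ₂ y
    obtain ⟨x', rfl⟩ := h₂ (s₁ ∪ s₂) Set.subset_union_left
    obtain ⟨y', rfl⟩ := h₄ (s₁ ∪ s₂) Set.subset_union_right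
    have hft : Algebra.FiniteType k (Algebra.adjoin k (s₁ ∪ s₂)) :=
      (Subalgebra.fg_iff_finiteType _).mp (Subalgebra.fg_def.mpr ⟨_, h₁.union h₃, rfl⟩)
    have hdom : IsDomain (κ₁ ⊗[k] (Algebra.adjoin k (s₁ ∪ s₂))) := isDomain_tensor
    have hinj : Function.Injective (Algebra.TensorProduct.map (AlgHom.id k κ₁)
        (Algebra.adjoin k (s₁ ∪ s₂)).val) :=
      Module.Flat.lTensor_preserves_injective_linearMap (M := κ₁)
        (Algebra.adjoin k (s₁ ∪ s₂)).val.toLinearMap Subtype.val_injective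
    change Algebra.TensorProduct.map (AlgHom.id k κ₁) (Algebra.adjoin k (s₁ ∪ s₂)).val x' *
      Algebra.TensorProduct.map (AlgHom.id k κ₁) (Algebra.adjoin k (s₁ ∪ s₂)).val y' = 0 at hxy
    rw [← map_mul] at hxy
    have h5 : x' * y' = 0 := hinj (by rw [hxy, map_zero])
    rcases mul_eq_zero.mp h5 with h6 | h6
    · left; rw [h6]; exact map_zero _
    · right; rw [h6]; exact map_zero _
  exact NoZeroDivisors.to_isDomain _
-- END AM1

-- BEGIN AM2
private theorem AM2_key {F K₁ K₂ E : Type u} [Field F] [Field K₁] [Field K₂] [Field E]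
    (a₁ : F →+* K₁) (a₂ : F →+* K₂) (φ₁ : K₁ →+* E) (φ₂ : K₂ →+* E)
    (hcomm : φ₁.comp a₁ = φ₂.comp a₂)
    (hlin : ∀ (n : ℕ) (b : Fin n → K₁), (∀ c : Fin n → F, ∑ i, a₁ (c i) * b i = 0 → ∀ i, c i = 0) →
      ∀ c : Fin n → K₂, ∑ i, φ₂ (c i) * φ₁ (b i) = 0 → ∀ i, c i = 0)
    (O₀ : ValuationSubring F) (O₁ : ValuationSubring K₁) (O₂ : ValuationSubring K₂)
    [Algebra O₀ O₁] [Algebra O₀ O₂]
    (h₁ : ∀ a : O₀, ((algebraMap O₀ O₁ a : O₁) : K₁) = a₁ a)
    (h₂ : ∀ a : O₀, ((algebraMap O₀ O₂ a : O₂) : K₂) = a₂ a) :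
    ∀ (n : ℕ) (b : Fin n → O₁) (c : Fin n → O₂),
      ∑ i, φ₂ (c i : K₂) * φ₁ (b i : K₁) = 0 → ∑ i, b i ⊗ₜ[O₀] c i = 0 := by
  intro n
  induction n with
  | zero => intro b c _; simp
  | succ n ih =>
    intro b c h
    by_cases hb : ∀ c : Fin (n + 1) → F, ∑ i, a₁ (c i) * (b i : K₁) = 0 → ∀ i, c i = 0
    · have h3 := hlin (n + 1) (fun i => (b i : K₁)) hb (fun i => (c i : K₂)) h
      have h4 : ∀ i, c i = 0 := fun i => Subtype.ext (h3 i)
      simp [h4]
    · push Not at hb
      obtain ⟨e, he, i₀, hi₀⟩ := hb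
      obtain ⟨j, -, hj⟩ := Finset.exists_max_image (Finset.univ : Finset (Fin (n + 1)))
        (fun i => O₀.valuation (e i)) ⟨i₀, Finset.mem_univ _⟩
      have hej : e j ≠ 0 := by
        intro h0
        have h1 := hj i₀ (Finset.mem_univ _)
        rw [h0, map_zero, le_zero_iff, map_eq_zero] at h1
        exact hi₀ h1
      have hr : ∀ i, e i / e j ∈ O₀ := by
        intro i
        rw [← O₀.valuation_le_one_iff, map_div₀]
        have h0 : 0 < O₀.valuation (e j) := zero_lt_iff.2 ((Valuation.ne_zero_iff _).2 hej)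
        exact (div_le_one₀ h0).2 (hj i (Finset.mem_univ _))
      have hbj : b j = -∑ k, (⟨e (j.succAbove k) / e j, hr _⟩ : O₀) • b (j.succAbove k) := by
        apply Subtype.ext
        push_cast
        have h5 : ∀ k : Fin n, (((⟨e (j.succAbove k) / e j, hr _⟩ : O₀) •
            b (j.succAbove k) : O₁) : K₁) = a₁ (e (j.succAbove k) / e j) *
            (b (j.succAbove k) : K₁) := by
          intro k
          rw [Algebra.smul_def]
          push_cast
          rw [h₁]
        rw [Finset.sum_congr rfl fun k _ => h5 k]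
        rw [Fin.sum_univ_succAbove _ j] at he
        have h6 : a₁ (e j) ≠ 0 := (map_ne_zero a₁).2 hej
        have h7 : ∑ k, a₁ (e (j.succAbove k) / e j) * (b (j.succAbove k) : K₁) =
            (a₁ (e j))⁻¹ * ∑ k, a₁ (e (j.succAbove k)) * (b (j.succAbove k) : K₁) := by
          rw [Finset.mul_sum]
          refine Finset.sum_congr rfl fun k _ => ?_
          rw [map_div₀]
          ring
        rw [h7]
        have h8 : ∑ k, a₁ (e (j.succAbove k)) * (b (j.succAbove k) : K₁) =
            - (a₁ (e j) * (b j : K₁)) := by linear_combination he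
        rw [h8]
        field_simp
      set r : Fin n → O₀ := fun k => ⟨e (j.succAbove k) / e j, hr _⟩ with hrdef
      have hbj' : b j = -∑ k, r k • b (j.succAbove k) := hbj
      have h9 : ∑ i, b i ⊗ₜ[O₀] c i =
          ∑ k, b (j.succAbove k) ⊗ₜ[O₀] (c (j.succAbove k) - r k • c j) := by
        rw [Fin.sum_univ_succAbove _ j]
        nth_rw 1 [hbj']
        rw [TensorProduct.neg_tmul, TensorProduct.sum_tmul]
        simp only [TensorProduct.tmul_sub, Finset.sum_sub_distrib, TensorProduct.smul_tmul]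
        abel
      rw [h9]
      refine ih _ _ ?_
      have h10 : ∀ k, φ₂ ((c (j.succAbove k) - r k • c j : O₂) : K₂) =
          φ₂ (c (j.succAbove k) : K₂) - φ₁ (a₁ (r k : F)) * φ₂ (c j : K₂) := by
        intro k
        rw [Algebra.smul_def]
        push_cast
        rw [h₂, map_sub, map_mul]
        have h11 : φ₁ (a₁ (r k : F)) = φ₂ (a₂ (r k : F)) := RingHom.congr_fun hcomm _
        rw [h11]
      have h12 : φ₁ (b j : K₁) = -∑ k, φ₁ (a₁ (r k : F)) * φ₁ (b (j.succAbove k) : K₁) := by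
        have h13 : φ₁ (b j : K₁) = φ₁ ((-∑ k, r k • b (j.succAbove k) : O₁) : K₁) :=
          congrArg (fun t : O₁ => φ₁ (t : K₁)) hbj'
        rw [h13]
        push_cast
        rw [map_neg, map_sum]
        congr 1
        refine Finset.sum_congr rfl fun k _ => ?_
        rw [Algebra.smul_def]
        push_cast
        rw [h₁, map_mul]
      rw [Fin.sum_univ_succAbove _ j, h12] at h
      rw [← h]
      simp only [h10, sub_mul, Finset.sum_sub_distrib]
      rw [mul_neg, Finset.mul_sum]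
      have h14 : ∀ k, φ₁ (a₁ (r k : F)) * φ₂ (c j : K₂) * φ₁ (b (j.succAbove k) : K₁) =
          φ₂ (c j : K₂) * (φ₁ (a₁ (r k : F)) * φ₁ (b (j.succAbove k) : K₁)) := by
        intro k
        ring
      simp only [h14]
      ring

/-- (AM2) Torsion-free modules over valuation rings are flat, so `O₁ ⊗[O₀] O₂ → K₁ ⊗[O₀] K₂ = K₁ ⊗[F] K₂` is
injective; the composition with the injective `K₁ ⊗[F] K₂ → E` is `Φ`. (Injectivity of `K₁ ⊗[F] K₂ → E` from `hlin`, as in (FR1): write an element as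
`∑ b_i ⊗ c_i` with `b_i` in a basis of `K₁` over `F`.) -/
theorem exists_tensor_hom {F K₁ K₂ E : Type u} [Field F] [Field K₁] [Field K₂] [Field E]
    (a₁ : F →+* K₁) (a₂ : F →+* K₂) (φ₁ : K₁ →+* E) (φ₂ : K₂ →+* E)
    (hcomm : φ₁.comp a₁ = φ₂.comp a₂)
    (hlin : ∀ (n : ℕ) (b : Fin n → K₁), (∀ c : Fin n → F, ∑ i, a₁ (c i) * b i = 0 → ∀ i, c i = 0) →
      ∀ c : Fin n → K₂, ∑ i, φ₂ (c i) * φ₁ (b i) = 0 → ∀ i, c i = 0)
    (O₀ : ValuationSubring F) (O₁ : ValuationSubring K₁) (O₂ : ValuationSubring K₂)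
    [Algebra O₀ O₁] [Algebra O₀ O₂]
    (h₁ : ∀ a : O₀, ((algebraMap O₀ O₁ a : O₁) : K₁) = a₁ a)
    (h₂ : ∀ a : O₀, ((algebraMap O₀ O₂ a : O₂) : K₂) = a₂ a) :
    ∃ Φ : O₁ ⊗[O₀] O₂ →+* E, Function.Injective Φ ∧ (∀ x : O₁, Φ (x ⊗ₜ 1) = φ₁ x) ∧
      ∀ y : O₂, Φ (1 ⊗ₜ y) = φ₂ y := by
  let _ : Algebra O₀ E := ((φ₁.comp a₁).comp O₀.subtype).toAlgebra
  have hE : ∀ a : O₀, algebraMap O₀ E a = φ₁ (a₁ a) := fun a => rfl
  let f : O₁ →ₐ[O₀] E := { φ₁.comp O₁.subtype with
    commutes' := fun a => by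
      change φ₁ ((algebraMap O₀ O₁ a : O₁) : K₁) = _
      rw [h₁, hE] }
  let g : O₂ →ₐ[O₀] E := { φ₂.comp O₂.subtype with
    commutes' := fun a => by
      change φ₂ ((algebraMap O₀ O₂ a : O₂) : K₂) = _
      rw [h₂, hE]
      exact (RingHom.congr_fun hcomm _).symm }
  have hf : ∀ x, f x = φ₁ (x : K₁) := fun x => rfl
  have hg : ∀ x, g x = φ₂ (x : K₂) := fun x => rfl
  refine ⟨(Algebra.TensorProduct.lift f g fun _ _ => Commute.all _ _).toRingHom, ?_, ?_, ?_⟩
  · rw [injective_iff_map_eq_zero]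
    intro x hx
    obtain ⟨n, b, c, rfl⟩ := TensorProduct.exists_sum_tmul_eq x
    refine AM2_key a₁ a₂ φ₁ φ₂ hcomm hlin O₀ O₁ O₂ h₁ h₂ n b c ?_
    rw [map_sum] at hx
    rw [← hx]
    refine Finset.sum_congr rfl fun i _ => ?_
    change _ = Algebra.TensorProduct.lift f g (fun _ _ => Commute.all _ _) (b i ⊗ₜ[O₀] c i)
    rw [Algebra.TensorProduct.lift_tmul, hf, hg, mul_comm]
  · intro x
    change Algebra.TensorProduct.lift f g (fun _ _ => Commute.all _ _) (x ⊗ₜ[O₀] 1) = _
    rw [Algebra.TensorProduct.lift_tmul, map_one, mul_one, hf]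
  · intro y
    change Algebra.TensorProduct.lift f g (fun _ _ => Commute.all _ _) (1 ⊗ₜ[O₀] y) = _
    rw [Algebra.TensorProduct.lift_tmul, map_one, one_mul, hg]
-- END AM2

-- BEGIN AM3
/-- copy of `residueField_isAlgClosed` (V/Val3.lean) -/
private theorem AM3_isAlgClosed {K : Type u} [Field K] [IsAlgClosed K] (O : ValuationSubring K) :
    IsAlgClosed (IsLocalRing.ResidueField O) := by
  refine IsAlgClosed.of_exists_root _ fun p hp hirr => ?_
  obtain ⟨P, hPp, hdeg, hPm⟩ := Polynomial.lifts_and_degree_eq_and_monic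
    ((Polynomial.lifts_iff_set_range p).2 (Polynomial.map_surjective (IsLocalRing.residue O)
      IsLocalRing.residue_surjective p)) hp
  have hdeg' : (P.map (algebraMap O K)).degree ≠ 0 := by
    rw [hPm.degree_map, hdeg]
    exact (Polynomial.degree_pos_of_irreducible hirr).ne'
  obtain ⟨x, hx⟩ := IsAlgClosed.exists_root _ hdeg'
  have hint : IsIntegral O x := ⟨P, hPm, by rwa [IsRoot.def, eval_map] at hx⟩
  obtain ⟨y, rfl⟩ := IsIntegrallyClosed.isIntegral_iff.1 hint
  refine ⟨IsLocalRing.residue O y, ?_⟩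
  have h1 : P.eval y = 0 := by
    apply IsFractionRing.injective O K
    rw [map_zero, ← Polynomial.eval_map_apply]
    exact hx
  rw [← hPp, Polynomial.eval_map_apply, h1, map_zero]

private theorem AM3_hom {R A B C : Type u} [CommRing R] [CommRing A] [CommRing B] [CommRing C]
    [Algebra R A] [Algebra R B] (f : A →+* C) (g : B →+* C)
    (h : ∀ r : R, f (algebraMap R A r) = g (algebraMap R B r)) :
    ∃ Ψ : A ⊗[R] B →+* C, (∀ a, Ψ (a ⊗ₜ 1) = f a) ∧ ∀ b, Ψ (1 ⊗ₜ b) = g b := by
  let _ : Algebra R C := (f.comp (algebraMap R A)).toAlgebra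
  let f' : A →ₐ[R] C := { f with commutes' := fun r => rfl }
  let g' : B →ₐ[R] C := { g with commutes' := fun r => (h r).symm }
  refine ⟨(Algebra.TensorProduct.lift f' g' (fun _ _ => Commute.all _ _)).toRingHom, ?_, ?_⟩
  · intro a
    have h1 := Algebra.TensorProduct.lift_tmul f' g' (fun _ _ => Commute.all _ _) a 1
    rw [map_one, mul_one] at h1
    exact h1
  · intro b
    have h1 := Algebra.TensorProduct.lift_tmul f' g' (fun _ _ => Commute.all _ _) 1 b
    rw [map_one, one_mul] at h1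
    exact h1

/-- A valuation ring of `E` dominating the localization of `D` at the kernel of `Ψ`. -/
private theorem AM3_dominate {D E C : Type u} [CommRing D] [Field E] [CommRing C] [IsDomain C]
    (Φ : D →+* E) (hΦ : Function.Injective Φ) (Ψ : D →+* C) :
    ∃ W : ValuationSubring E, (∀ d, Φ d ∈ W) ∧ ∀ d, Φ d ∈ W.nonunits ↔ Ψ d = 0 := by
  let P : Ideal D := RingHom.ker Ψ
  have hP : P.IsPrime := RingHom.ker_isPrime Ψ
  have hg : ∀ y : P.primeCompl, IsUnit (Φ y) := by
    intro y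
    refine IsUnit.mk0 _ fun h0 => y.2 ?_
    have h1 : (y : D) = 0 := hΦ (by rw [h0, map_zero])
    show (y : D) ∈ P
    rw [h1]
    exact zero_mem P
  let f : Localization.AtPrime P →+* E := IsLocalization.lift (M := P.primeCompl) hg
  have hf : ∀ d, f (algebraMap D (Localization.AtPrime P) d) = Φ d := fun d =>
    IsLocalization.lift_eq hg d
  obtain ⟨W, h, hloc⟩ := IsLocalRing.exists_factor_valuationRing f
  have hmem : ∀ d, Φ d ∈ W := by
    intro d
    rw [← hf d]
    exact h _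
  refine ⟨W, hmem, fun d => ?_⟩
  have h1 : Φ d ∈ W.nonunits ↔ ¬ IsUnit (⟨Φ d, hmem d⟩ : W) := by
    have h2 := ValuationSubring.coe_mem_nonunits_iff (A := W) (a := ⟨Φ d, hmem d⟩)
    rw [IsLocalRing.mem_maximalIdeal, mem_nonunits_iff] at h2
    exact h2
  have h3 : (⟨Φ d, hmem d⟩ : W) =
      (f.codRestrict W.toSubring h) (algebraMap D (Localization.AtPrime P) d) := by
    apply Subtype.ext
    exact (hf d).symm
  rw [h1, h3]
  have h4 : IsUnit ((f.codRestrict W.toSubring h) (algebraMap D (Localization.AtPrime P) d)) ↔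
      IsUnit (algebraMap D (Localization.AtPrime P) d) :=
    ⟨fun hu => hloc.map_nonunit _ hu, fun hu => hu.map _⟩
  have h5 : IsUnit (algebraMap D (Localization.AtPrime P) d) ↔ d ∈ P.primeCompl :=
    IsLocalization.AtPrime.isUnit_to_map_iff _ P d
  have h6 : d ∈ P.primeCompl ↔ ¬ Ψ d = 0 := Iff.rfl
  rw [h4, h5, h6, not_not]

/-- `x ⊗ 1 = 1 ⊗ y` only if `x` is a constant. -/
private theorem AM3_const {k κ₁ κ₂ : Type u} [Field k] [Field κ₁] [Field κ₂] [Algebra k κ₁]
    [Algebra k κ₂] (x : κ₁) (y : κ₂) (h : (x ⊗ₜ[k] (1 : κ₂)) = (1 : κ₁) ⊗ₜ[k] y) :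
    ∃ c : k, x = algebraMap k κ₁ c := by
  obtain ⟨l, hl⟩ := LinearMap.exists_leftInverse_of_injective (Algebra.linearMap k κ₂)
    (LinearMap.ker_eq_bot.2 (FaithfulSMul.algebraMap_injective k κ₂))
  have hl1 : l 1 = 1 := by
    have := LinearMap.congr_fun hl 1
    simpa using this
  refine ⟨l y, ?_⟩
  have h1 := congrArg (fun t => TensorProduct.rid k κ₁ (LinearMap.lTensor κ₁ l t)) h
  simp only [LinearMap.lTensor_tmul, TensorProduct.rid_tmul, hl1, one_smul] at h1
  rw [h1, Algebra.algebraMap_eq_smul_one]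

/-- (AM3) Amalgamation of valuation rings. Let `O₀` be the common restriction to `F`, `k₀, κ₁, κ₂` the residue fields, `k₀` algebraically closed (`residueField_isAlgClosed`, V/Val3.lean).
`D = O₁ ⊗[O₀] O₂` (algebra structures by `valHom`, Y/Hom.lean) embeds into `E` by (AM2), and maps to the domain `κ₁ ⊗[k₀] κ₂` (AM1) (by `Algebra.TensorProduct.lift` of `O₁ → κ₁ → κ₁ ⊗ κ₂` and `O₂ → κ₂ → κ₁ ⊗ κ₂`) with
kernel a prime ideal `P`. A valuation ring `W` of `E` dominating `D_P` (`IsLocalRing.exists_factor_valuationRing`). `O₁ → D_P → W` is local (nonunits of `O₁` map to `0` in `κ₁ ⊗ κ₂`), so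
`W.comap φ₁ = O₁` (compare `over_of_le`, V/Val1.lean). If `φ₁ x - φ₂ y ∈ W.nonunits` then `x ⊗ 1 - 1 ⊗ y ∈ P`, i.e. `x̄ ⊗ 1 = 1 ⊗ ȳ` in `κ₁ ⊗[k₀] κ₂`; if `x̄ ∉ k₀` then
`1, x̄` are linearly independent over `k₀`, a contradiction; so `x̄` is the residue of some `c ∈ O₀`. -/
theorem exists_amalgam {F K₁ K₂ E : Type u} [Field F] [IsAlgClosed F] [Field K₁] [Field K₂]
    [Field E] (a₁ : F →+* K₁) (a₂ : F →+* K₂) (φ₁ : K₁ →+* E) (φ₂ : K₂ →+* E)
    (hcomm : φ₁.comp a₁ = φ₂.comp a₂)
    (hlin : ∀ (n : ℕ) (b : Fin n → K₁), (∀ c : Fin n → F, ∑ i, a₁ (c i) * b i = 0 → ∀ i, c i = 0) →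
      ∀ c : Fin n → K₂, ∑ i, φ₂ (c i) * φ₁ (b i) = 0 → ∀ i, c i = 0)
    (O₁ : ValuationSubring K₁) (O₂ : ValuationSubring K₂) (hO : O₁.comap a₁ = O₂.comap a₂) :
    ∃ W : ValuationSubring E, W.comap φ₁ = O₁ ∧ W.comap φ₂ = O₂ ∧
      ∀ x ∈ O₁, ∀ y ∈ O₂, φ₁ x - φ₂ y ∈ W.nonunits → ∃ c : F, a₁ c ∈ O₁ ∧
        x - a₁ c ∈ O₁.nonunits := by
  obtain ⟨O₀, hO₀⟩ : ∃ O₀ : ValuationSubring F, O₀ = O₁.comap a₁ := ⟨_, rfl⟩
  have h01 : O₁.comap a₁ = O₀ := hO₀.symm
  have h02 : O₂.comap a₂ = O₀ := by rw [← hO, h01]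
  let alg1 : Algebra O₀ O₁ := (valHom a₁ h01).toAlgebra
  let alg2 : Algebra O₀ O₂ := (valHom a₂ h02).toAlgebra
  obtain ⟨Φ, hΦ, hΦ1, hΦ2⟩ := exists_tensor_hom a₁ a₂ φ₁ φ₂ hcomm hlin O₀ O₁ O₂
    (fun a => rfl) (fun a => rfl)
  have : IsAlgClosed (IsLocalRing.ResidueField O₀) := AM3_isAlgClosed O₀
  let algk1 : Algebra (IsLocalRing.ResidueField O₀) (IsLocalRing.ResidueField O₁) :=
    (resHom a₁ h01).toAlgebra
  let algk2 : Algebra (IsLocalRing.ResidueField O₀) (IsLocalRing.ResidueField O₂) :=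
    (resHom a₂ h02).toAlgebra
  have hdom := isDomain_tensor_fields (IsLocalRing.ResidueField O₀) (IsLocalRing.ResidueField O₁)
    (IsLocalRing.ResidueField O₂)
  obtain ⟨Ψ, hΨ1, hΨ2⟩ := AM3_hom (R := O₀) (A := O₁) (B := O₂)
    ((Algebra.TensorProduct.includeLeftRingHom (R := IsLocalRing.ResidueField O₀)
      (A := IsLocalRing.ResidueField O₁) (B := IsLocalRing.ResidueField O₂)).comp
      (IsLocalRing.residue O₁))
    ((Algebra.TensorProduct.includeRight (R := IsLocalRing.ResidueField O₀)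
      (A := IsLocalRing.ResidueField O₁) (B := IsLocalRing.ResidueField O₂)).toRingHom.comp
      (IsLocalRing.residue O₂)) (by
    intro r
    show (IsLocalRing.residue O₁ (valHom a₁ h01 r)) ⊗ₜ[IsLocalRing.ResidueField O₀]
      (1 : IsLocalRing.ResidueField O₂) = (1 : IsLocalRing.ResidueField O₁) ⊗ₜ
        (IsLocalRing.residue O₂ (valHom a₂ h02 r))
    rw [← resHom_residue, ← resHom_residue]
    have e1 : resHom a₁ h01 (IsLocalRing.residue O₀ r) =
      (IsLocalRing.residue O₀ r) • (1 : IsLocalRing.ResidueField O₁) := by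
      rw [Algebra.smul_def, mul_one]
      rfl
    have e2 : resHom a₂ h02 (IsLocalRing.residue O₀ r) =
      (IsLocalRing.residue O₀ r) • (1 : IsLocalRing.ResidueField O₂) := by
      rw [Algebra.smul_def, mul_one]
      rfl
    rw [e1, e2, TensorProduct.smul_tmul])
  obtain ⟨W, hW1, hW2⟩ := AM3_dominate Φ hΦ Ψ
  have hΨ1' : ∀ x : O₁, Ψ (x ⊗ₜ 1) = (IsLocalRing.residue O₁ x) ⊗ₜ[IsLocalRing.ResidueField O₀]
      (1 : IsLocalRing.ResidueField O₂) := hΨ1
  have hΨ2' : ∀ y : O₂, Ψ (1 ⊗ₜ y) = (1 : IsLocalRing.ResidueField O₁) ⊗ₜ[IsLocalRing.ResidueField O₀]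
      (IsLocalRing.residue O₂ y) := hΨ2
  have hres1 : ∀ x (hx : x ∈ O₁), x ∈ O₁.nonunits ↔ IsLocalRing.residue O₁ ⟨x, hx⟩ = 0 := by
    intro x hx
    rw [IsLocalRing.residue_eq_zero_iff]
    exact ValuationSubring.coe_mem_nonunits_iff (A := O₁) (a := ⟨x, hx⟩)
  have hres2 : ∀ x (hx : x ∈ O₂), x ∈ O₂.nonunits ↔ IsLocalRing.residue O₂ ⟨x, hx⟩ = 0 := by
    intro x hx
    rw [IsLocalRing.residue_eq_zero_iff]
    exact ValuationSubring.coe_mem_nonunits_iff (A := O₂) (a := ⟨x, hx⟩)
  refine ⟨W, ?_, ?_, ?_⟩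
  · let _ : Algebra K₁ E := φ₁.toAlgebra
    refine over_of_le (K := K₁) (L := E) (O := O₁) (v := W) (fun a ha => ?_) (fun a ha => ?_)
    · have := hW1 ((⟨a, ha⟩ : O₁) ⊗ₜ 1)
      rw [hΦ1] at this
      exact this
    · have ha' : a ∈ O₁ := O₁.nonunits_le ha
      have h1 := (hW2 ((⟨a, ha'⟩ : O₁) ⊗ₜ 1)).2 (by
        rw [hΨ1', (hres1 a ha').1 ha, TensorProduct.zero_tmul])
      rw [hΦ1] at h1
      exact h1
  · let _ : Algebra K₂ E := φ₂.toAlgebra
    refine over_of_le (K := K₂) (L := E) (O := O₂) (v := W) (fun a ha => ?_) (fun a ha => ?_)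
    · have := hW1 (1 ⊗ₜ (⟨a, ha⟩ : O₂))
      rw [hΦ2] at this
      exact this
    · have ha' : a ∈ O₂ := O₂.nonunits_le ha
      have h1 := (hW2 (1 ⊗ₜ (⟨a, ha'⟩ : O₂))).2 (by
        rw [hΨ2', (hres2 a ha').1 ha, TensorProduct.tmul_zero])
      rw [hΦ2] at h1
      exact h1
  · intro x hx y hy hxy
    have h1 := (hW2 ((⟨x, hx⟩ : O₁) ⊗ₜ 1 - 1 ⊗ₜ (⟨y, hy⟩ : O₂))).1 (by
      rw [map_sub, hΦ1, hΦ2]
      exact hxy)
    rw [map_sub, hΨ1', hΨ2', sub_eq_zero] at h1
    obtain ⟨c, hc⟩ := AM3_const _ _ h1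
    obtain ⟨c', rfl⟩ := IsLocalRing.residue_surjective (R := O₀) c
    have hc2 : a₁ c' ∈ O₁ := (valHom a₁ h01 c').2
    refine ⟨c', hc2, ?_⟩
    have h2 : x - a₁ c' ∈ O₁ := sub_mem hx hc2
    rw [hres1 _ h2]
    have h3 : (⟨x - a₁ c', h2⟩ : O₁) = ⟨x, hx⟩ - valHom a₁ h01 c' := Subtype.ext rfl
    rw [h3, map_sub, hc, sub_eq_zero]
    rfl
-- END AM3

end Pool.Agent.Lib.MP_211349_ag
end
end

section

/-!
# Two copies of a valued field in a valued field of rank one
-/

open Polynomial TensorProduct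

universe u

noncomputable section

namespace Pool.Agent.Lib.MP_211349_ag

-- BEGIN RA1
private theorem RA1_nonunits_iff {F : Type u} [Field F] (A : ValuationSubring F) (a : F) :
    a ∈ A.nonunits ↔ a = 0 ∨ a⁻¹ ∉ A := by
  rcases eq_or_ne a 0 with rfl | ha
  · simp
  · rw [ValuationSubring.mem_nonunits_iff, ← A.valuation_le_one_iff, map_inv₀, inv_le_one₀, not_le]
    · simp [ha]
    · exact zero_lt_iff.2 ((Valuation.ne_zero_iff _).2 ha)

/-- `W[1/ϖ]` -/
private theorem RA1_exists_R {E : Type u} [Field E] (W : ValuationSubring E) (ϖ : E)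
    (hϖ : ϖ ∈ W) : ∃ R : ValuationSubring E, ∀ x, x ∈ R ↔ ∃ n : ℕ, ϖ ^ n * x ∈ W := by
  let S : Subring E :=
    { carrier := {x | ∃ n : ℕ, ϖ ^ n * x ∈ W}
      mul_mem' := by
        rintro x y ⟨n, hn⟩ ⟨m, hm⟩
        refine ⟨n + m, ?_⟩
        have h1 := mul_mem hn hm
        rwa [show ϖ ^ n * x * (ϖ ^ m * y) = ϖ ^ (n + m) * (x * y) by rw [pow_add]; ring] at h1
      one_mem' := ⟨0, by simp⟩
      add_mem' := by
        rintro x y ⟨n, hn⟩ ⟨m, hm⟩
        refine ⟨n + m, ?_⟩
        have h1 := add_mem (mul_mem (pow_mem hϖ m) hn) (mul_mem (pow_mem hϖ n) hm)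
        rwa [show ϖ ^ m * (ϖ ^ n * x) + ϖ ^ n * (ϖ ^ m * y) = ϖ ^ (n + m) * (x + y) by
          rw [pow_add]; ring] at h1
      zero_mem' := ⟨0, by simp⟩
      neg_mem' := by
        rintro x ⟨n, hn⟩
        refine ⟨n, ?_⟩
        rw [mul_neg]
        exact neg_mem hn }
  refine ⟨W.ofLE S fun a ha => ⟨0, ?_⟩, fun x => Iff.rfl⟩
  rw [pow_zero, one_mul]
  exact ha

/-- the valuation ring with maximal ideal `rad (ϖ)` -/
private theorem RA1_exists_W {E : Type u} [Field E] (W : ValuationSubring E) (ϖ : E)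
    (hϖ : ϖ ∈ W) : ∃ W' : ValuationSubring E, ∀ x, x ∈ W' ↔ ∀ n : ℕ, ϖ * x ^ n ∈ W := by
  have key : ∀ x y : E, W.valuation x ≤ W.valuation y → (∀ n : ℕ, ϖ * y ^ n ∈ W) →
      ∀ n m : ℕ, W.valuation (ϖ * (x ^ n * y ^ m)) ≤ 1 := by
    intro x y hxy hy n m
    have h1 := (W.valuation_le_one_iff _).2 (hy (n + m))
    refine le_trans ?_ h1
    rw [map_mul, map_mul, map_mul, map_pow, map_pow, map_pow, pow_add]
    exact mul_le_mul_right (mul_le_mul_left (pow_le_pow_left' hxy n) _) _
  let S : Subring E :=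
    { carrier := {x | ∀ n : ℕ, ϖ * x ^ n ∈ W}
      mul_mem' := by
        intro x y hx hy n
        rw [mul_pow, ← W.valuation_le_one_iff]
        rcases le_total (W.valuation x) (W.valuation y) with h | h
        · exact key x y h hy n n
        · rw [mul_comm (x ^ n)]
          exact key y x h hx n n
      one_mem' := fun n => by
        rw [one_pow, mul_one]
        exact hϖ
      add_mem' := by
        intro x y hx hy n
        rw [← W.valuation_le_one_iff]
        rcases le_total (W.valuation x) (W.valuation y) with h | h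
        · have h1 := (W.valuation_le_one_iff _).2 (hy n)
          refine le_trans ?_ h1
          rw [map_mul, map_mul, map_pow, map_pow]
          refine mul_le_mul_right (pow_le_pow_left' ?_ n) _
          exact (W.valuation.map_add x y).trans (max_le h le_rfl)
        · have h1 := (W.valuation_le_one_iff _).2 (hx n)
          refine le_trans ?_ h1
          rw [map_mul, map_mul, map_pow, map_pow]
          refine mul_le_mul_right (pow_le_pow_left' ?_ n) _
          exact (W.valuation.map_add x y).trans (max_le le_rfl h)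
      zero_mem' := by
        intro n
        rcases n with _ | n
        · simpa using hϖ
        · simp
      neg_mem' := by
        intro x hx n
        rw [← W.valuation_le_one_iff, map_mul, map_pow, Valuation.map_neg, ← map_pow, ← map_mul,
          W.valuation_le_one_iff]
        exact hx n }
  exact ⟨W.ofLE S fun a ha n => mul_mem hϖ (pow_mem ha n), fun x => Iff.rfl⟩

/-- (RA1) Passage to rank one. `R = W[1/ϖ]` is a valuation ring of `E` containing `W`, its maximal ideal is `q = ⋂ ϖ ^ n W`; `K' = R / q` is its residue field, algebraically closed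
(`residueField_isAlgClosed`, V/Val3.lean). The image `W / q` of `W` is a valuation ring of `K'` in which every nonzero element divides a power of `ϖ`; let `O'` be its localization at the prime ideal
`rad (ϖ)`, i.e. `O' = {x : x = 0 or x⁻¹ is not in the image of q'}`, `q' = {x ∈ E : ∃ n, x ^ n / ϖ ∈ W}`. It has rank one: for nonunits `a` and `b ≠ 0`: `a ^ n ∈ ϖ O'` for some `n`, and `b` divides some `ϖ ^ m`.
(One can define `O'` as `ValuationSubring` by hand: `q'` is an ideal of `W`, `x ∈ O' ↔ ∀ y ∈ q'`-image, `x y ∈ q'`-image, for instance; or `ValuationSubring.ofPrime` and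
its residue-field constructions.) -/
theorem exists_rankOne_quotient {E : Type u} [Field E] [IsAlgClosed E] (W : ValuationSubring E)
    (ϖ : E) (hϖ0 : ϖ ≠ 0) (hϖ : ϖ ∈ W.nonunits) :
    ∃ (K' : Type u) (_ : Field K') (_ : IsAlgClosed K') (O' : ValuationSubring K') (R : Subring E)
      (π : R →+* K'), RankOne O' ∧ (∀ x : E, x ∈ R ↔ ∃ n : ℕ, ϖ ^ n * x ∈ W) ∧
      ∀ x : R, π x ∈ O'.nonunits ↔ ∃ n : ℕ, (x : E) ^ n / ϖ ∈ W := by
  have hϖW : ϖ ∈ W := W.nonunits_le hϖ
  obtain ⟨R, hR⟩ := RA1_exists_R W ϖ hϖW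
  obtain ⟨W', hW'⟩ := RA1_exists_W W ϖ hϖW
  -- basic inclusions
  have hWW' : ∀ x, x ∈ W → x ∈ W' := fun x hx => (hW' x).2 fun n => mul_mem hϖW (pow_mem hx n)
  have hW'R : ∀ x, x ∈ W' → x ∈ R := fun x hx => (hR x).2 ⟨1, by
    have := (hW' x).1 hx 1
    rwa [pow_one] at this ⊢⟩
  have hWR : ∀ x, x ∈ W → x ∈ R := fun x hx => hW'R x (hWW' x hx)
  have hϖinv : ϖ⁻¹ ∈ R := (hR _).2 ⟨1, by
    rw [pow_one, mul_inv_cancel₀ hϖ0]
    exact one_mem W⟩
  -- nonunits of `R` are in `W`
  have hRn : ∀ x, x ∈ R.nonunits → x / ϖ ∈ W := by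
    intro x hx
    rcases (RA1_nonunits_iff R x).1 hx with h | h
    · rw [h, zero_div]
      exact zero_mem W
    · have h1 : ϖ * x⁻¹ ∉ W := fun h2 => h ((hR _).2 ⟨1, by rwa [pow_one]⟩)
      have h2 := (W.mem_or_inv_mem (ϖ * x⁻¹)).resolve_left h1
      rwa [mul_inv, inv_inv, mul_comm, ← div_eq_mul_inv] at h2
  have hRnW : ∀ x, x ∈ R.nonunits → x ∈ W := by
    intro x hx
    have h1 := mul_mem (hRn x hx) hϖW
    rwa [div_mul_cancel₀ _ hϖ0] at h1
  have hϖn : ϖ⁻¹ ∉ W := by
    rcases (RA1_nonunits_iff W ϖ).1 hϖ with h | h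
    · exact absurd h hϖ0
    · exact h
  -- the residue field
  have hres : ∀ x : R, IsLocalRing.residue R x = 0 ↔ (x : E) ∈ R.nonunits := by
    intro x
    rw [IsLocalRing.residue_eq_zero_iff]
    exact (ValuationSubring.coe_mem_nonunits_iff (A := R) (a := x)).symm
  have hinv : ∀ x : R, IsLocalRing.residue R x ≠ 0 → ∃ y : R, (y : E) = (x : E)⁻¹ ∧
      IsLocalRing.residue R y = (IsLocalRing.residue R x)⁻¹ := by
    intro x hx
    have h1 : ¬ ((x : E) = 0 ∨ (x : E)⁻¹ ∉ R) := by
      rw [← RA1_nonunits_iff, ← hres]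
      exact hx
    push Not at h1
    refine ⟨⟨(x : E)⁻¹, h1.2⟩, rfl, ?_⟩
    refine eq_inv_of_mul_eq_one_right ?_
    rw [← map_mul, ← map_one (IsLocalRing.residue R)]
    congr 1
    exact Subtype.ext (mul_inv_cancel₀ h1.1)
  -- the valuation ring of the residue field
  let S : Subring (IsLocalRing.ResidueField R) :=
    (W'.toSubring.comap R.subtype).map (IsLocalRing.residue R)
  have hS : ∀ y, y ∈ S ↔ ∃ x : R, (x : E) ∈ W' ∧ IsLocalRing.residue R x = y := fun y => by
    constructor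
    · rintro ⟨x, hx, hxy⟩
      exact ⟨x, hx, hxy⟩
    · rintro ⟨x, hx, hxy⟩
      exact ⟨x, hx, hxy⟩
  let O' : ValuationSubring (IsLocalRing.ResidueField R) :=
    { S with
      mem_or_inv_mem' := by
        intro y
        rcases eq_or_ne y 0 with h0 | h0
        · left
          rw [h0]
          exact zero_mem S
        · obtain ⟨x, rfl⟩ := IsLocalRing.residue_surjective (R := R) y
          rcases W'.mem_or_inv_mem (x : E) with h1 | h1
          · left
            exact (hS _).2 ⟨x, h1, rfl⟩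
          · right
            obtain ⟨z, hz, hz2⟩ := hinv x h0
            refine (hS _).2 ⟨z, ?_, hz2⟩
            rw [hz]
            exact h1 }
  have hO' : ∀ y, y ∈ O' ↔ ∃ x : R, (x : E) ∈ W' ∧ IsLocalRing.residue R x = y := hS
  -- nonunits
  have hnon : ∀ x : R, IsLocalRing.residue R x ∈ O'.nonunits ↔ ∃ n : ℕ, (x : E) ^ n / ϖ ∈ W := by
    intro x
    rw [RA1_nonunits_iff]
    constructor
    · rintro (h | h)
      · refine ⟨1, ?_⟩
        rw [pow_one]
        exact hRn _ ((hres x).1 h)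
      · have hx0 : IsLocalRing.residue R x ≠ 0 := by
          intro h0
          rw [h0, inv_zero] at h
          exact h (zero_mem O')
        obtain ⟨z, hz, hz2⟩ := hinv x hx0
        have h1 : (x : E)⁻¹ ∉ W' := fun h2 => h ((hO' _).2 ⟨z, by rw [hz]; exact h2, hz2⟩)
        rw [hW'] at h1
        push Not at h1
        obtain ⟨n, hn⟩ := h1
        refine ⟨n, ?_⟩
        have h2 := (W.mem_or_inv_mem _).resolve_left hn
        rwa [mul_inv, inv_pow, inv_inv, mul_comm, ← div_eq_mul_inv] at h2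
    · rintro ⟨n, hn⟩
      rcases eq_or_ne (IsLocalRing.residue R x) 0 with h0 | h0
      · exact Or.inl h0
      · right
        intro h
        obtain ⟨z, hz, hz2⟩ := hinv x h0
        obtain ⟨x', hx', hxx⟩ := (hO' _).1 h
        have h1 : (x' : E) - z ∈ W' := by
          apply hWW'
          apply hRnW
          have h2 := (hres (x' - z)).1 (by rw [map_sub, hxx, hz2, sub_self])
          exact h2
        have h2 : (x : E)⁻¹ ∈ W' := by
          have h3 := sub_mem hx' h1
          rwa [sub_sub_cancel, hz] at h3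
        have hx0 : (x : E) ≠ 0 := by
          intro h3
          apply h0
          have h4 : x = 0 := Subtype.ext h3
          rw [h4, map_zero]
        have h3 := (hW' _).1 h2 (n + n)
        have h4 := mul_mem (mul_mem hn hn) h3
        apply hϖn
        rwa [show (x : E) ^ n / ϖ * ((x : E) ^ n / ϖ) * (ϖ * (x : E)⁻¹ ^ (n + n)) = ϖ⁻¹ by
          rw [pow_add, inv_pow]
          field_simp] at h4
  refine ⟨IsLocalRing.ResidueField R, inferInstance, residueField_isAlgClosed R, O', R.toSubring,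
    IsLocalRing.residue R, ⟨?_, ?_⟩, hR, hnon⟩
  · -- a nonzero nonunit
    let w : R := ⟨ϖ, hWR ϖ hϖW⟩
    have hw : IsLocalRing.residue R w ∈ O' := (hO' _).2 ⟨w, hWW' _ hϖW, rfl⟩
    refine ⟨⟨IsLocalRing.residue R w, hw⟩, ?_, ?_⟩
    · intro h0
      have h1 : IsLocalRing.residue R w = 0 := congrArg Subtype.val h0
      rw [hres, RA1_nonunits_iff] at h1
      rcases h1 with h1 | h1
      · exact hϖ0 h1
      · exact h1 hϖinv
    · have h1 : IsLocalRing.residue R w ∈ O'.nonunits := (hnon w).2 ⟨1, by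
        show ϖ ^ 1 / ϖ ∈ W
        rw [pow_one, div_self hϖ0]
        exact one_mem W⟩
      exact (ValuationSubring.coe_mem_nonunits_iff (A := O')
        (a := ⟨IsLocalRing.residue R w, hw⟩)).1 h1
  · rintro ⟨a, ha⟩ ⟨b, hb⟩ hau hb0
    have ha1 : a ∈ O'.nonunits :=
      (ValuationSubring.coe_mem_nonunits_iff (A := O') (a := ⟨a, ha⟩)).2 hau
    have hb1 : b ≠ 0 := fun h0 => hb0 (Subtype.ext h0)
    obtain ⟨x, hx, rfl⟩ := (hO' _).1 ha
    obtain ⟨y, hy, rfl⟩ := (hO' _).1 hb
    obtain ⟨n, hn⟩ := (hnon x).1 ha1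
    obtain ⟨z, hz, hz2⟩ := hinv y hb1
    obtain ⟨m, hm⟩ := (hR _).1 z.2
    have hy0 : (y : E) ≠ 0 := by
      intro h3
      apply hb1
      have h4 : y = 0 := Subtype.ext h3
      rw [h4, map_zero]
    have h1 : (x : E) ^ (n * m) * (y : E)⁻¹ ∈ W := by
      have h2 := mul_mem (pow_mem hn m) hm
      rwa [show ((x : E) ^ n / ϖ) ^ m * (ϖ ^ m * (z : E)) = (x : E) ^ (n * m) * (y : E)⁻¹ by
        rw [hz, div_pow, ← pow_mul]
        field_simp] at h2
    refine ⟨n * m, ⟨IsLocalRing.residue R ⟨_, hWR _ h1⟩, (hO' _).2 ⟨_, hWW' _ h1, rfl⟩⟩, ?_⟩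
    apply Subtype.ext
    show IsLocalRing.residue R x ^ (n * m) =
      IsLocalRing.residue R y * IsLocalRing.residue R ⟨_, hWR _ h1⟩
    rw [← map_pow, ← map_mul]
    congr 1
    apply Subtype.ext
    show (x : E) ^ (n * m) = (y : E) * ((x : E) ^ (n * m) * (y : E)⁻¹)
    field_simp
-- END RA1

-- BEGIN RA2
/-- A linearly independent family stays independent after extension of scalars. -/
private theorem RA2_lin {F K : Type u} [Field F] [Field K] [Algebra F K] (n : ℕ) (b : Fin n → K)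
    (hb : ∀ c : Fin n → F, ∑ i, algebraMap F K (c i) * b i = 0 → ∀ i, c i = 0)
    (c : Fin n → K) (h : ∑ i, b i ⊗ₜ[F] c i = 0) : ∀ i, c i = 0 := by
  let f : (Fin n → F) →ₗ[F] K := Fintype.linearCombination F b
  have hf : Function.Injective f := by
    rw [← LinearMap.ker_eq_bot, LinearMap.ker_eq_bot']
    intro a ha
    funext i
    refine hb a ?_ i
    rw [Fintype.linearCombination_apply] at ha
    rw [← ha]
    exact Finset.sum_congr rfl fun i _ => (Algebra.smul_def _ _).symm
  have hf2 := Module.Flat.rTensor_preserves_injective_linearMap (M := K) f hf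
  have h2 : ∑ i, (Pi.basisFun F (Fin n)) i ⊗ₜ[F] c i = 0 := by
    apply hf2
    rw [map_zero, map_sum, ← h]
    refine Finset.sum_congr rfl fun i _ => ?_
    rw [LinearMap.rTensor_tmul, Pi.basisFun_apply, Fintype.linearCombination_apply_single, one_smul]
  have h3 := TensorProduct.sum_tmul_basis_left_eq_zero (Pi.basisFun F (Fin n))
    (Finsupp.equivFunOnFinite.symm c) (by
      rw [Finsupp.sum_fintype _ _ (fun i => by simp)]
      exact h2)
  intro i
  have h4 := DFunLike.congr_fun h3 i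
  simpa using h4

private theorem RA2_nonunits {F : Type u} [Field F] (A : ValuationSubring F) (a : F) :
    a ∈ A.nonunits ↔ a = 0 ∨ a⁻¹ ∉ A := by
  rcases eq_or_ne a 0 with rfl | ha
  · simp
  · rw [ValuationSubring.mem_nonunits_iff, ← A.valuation_le_one_iff, map_inv₀, inv_le_one₀, not_le]
    · simp [ha]
    · exact zero_lt_iff.2 ((Valuation.ne_zero_iff _).2 ha)

private theorem RA2_pow {F : Type u} [Field F] (A : ValuationSubring F) {ϖ x : F} (hϖ0 : ϖ ≠ 0)
    (hϖ : ϖ ∈ A.nonunits) {n : ℕ} (h : x ^ n / ϖ ∈ A) : x ∈ A.nonunits := by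
  rw [ValuationSubring.mem_nonunits_iff] at hϖ ⊢
  rw [← A.valuation_le_one_iff, map_div₀, map_pow,
    div_le_one₀ (zero_lt_iff.2 ((Valuation.ne_zero_iff _).2 hϖ0))] at h
  by_contra hcon
  rw [not_lt] at hcon
  exact absurd (lt_of_le_of_lt h hϖ) (not_lt.2 (one_le_pow₀ hcon))

private theorem RA2_comap {K K' : Type u} [Field K] [Field K'] (O : ValuationSubring K)
    (O' : ValuationSubring K') (σ : K →+* K') (h : ∀ a, σ a ∈ O'.nonunits ↔ a ∈ O.nonunits) :
    O'.comap σ = O := by
  ext a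
  rw [ValuationSubring.mem_comap]
  rcases eq_or_ne a 0 with rfl | ha
  · rw [map_zero]
    exact ⟨fun _ => zero_mem O, fun _ => zero_mem O'⟩
  · have h1 := h a⁻¹
    rw [RA2_nonunits, RA2_nonunits, map_inv₀, inv_inv, inv_inv, inv_eq_zero, inv_eq_zero,
      map_eq_zero] at h1
    simp only [ha, false_or] at h1
    exact not_iff_not.1 h1

/-- (RA2) Two independent copies of `K` over `F`. Let `E` be an algebraic closure of the field of fractions of the domain `K ⊗[F] K` (AM1), `φ₁, φ₂ : K → E` the two embeddings; `exists_amalgam` gives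
`W` (`hlin` since `K ⊗[F] K → E` is injective). Apply (RA1) with `ϖ' = φ₁ (φ ϖ) = φ₂ (φ ϖ)`. As `O` has rank one, `K = O[1/ϖ]`, so `φ₁, φ₂` map `K` into `R`: let `σ, τ` be the compositions with `π`.
`σ a ∈ O'.nonunits ↔ ∃ n, φ₁ a ^ n / ϖ' ∈ W ↔ ∃ n, a ^ n / ϖ ∈ O ↔ a ∈ O.nonunits` (rank one), hence `O'.comap σ = O`. If `σ a - τ b ∈ O'.nonunits` then `φ₁ a - φ₂ b ∈ W.nonunits`
(an element with `x ^ n / ϖ' ∈ W` is a nonunit of `W`), so the last property follows from that of `W`. -/
theorem exists_rankOne_amalgam {F K : Type u} [Field F] [IsAlgClosed F] [Field K] [IsAlgClosed K]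
    (φ : F →+* K) (O : ValuationSubring K) (hO : RankOne O) (ϖ : F) (hϖ0 : ϖ ≠ 0)
    (hϖ : φ ϖ ∈ O.nonunits) :
    ∃ (K' : Type u) (_ : Field K') (_ : IsAlgClosed K') (O' : ValuationSubring K')
      (σ τ : K →+* K'), RankOne O' ∧ O'.comap σ = O ∧ O'.comap τ = O ∧ σ.comp φ = τ.comp φ ∧
      ∀ a ∈ O, ∀ b ∈ O, σ a - τ b ∈ O'.nonunits → ∃ c : F, φ c ∈ O ∧ a - φ c ∈ O.nonunits := by
  let _ : Algebra F K := φ.toAlgebra
  have : IsDomain (K ⊗[F] K) := isDomain_tensor_fields F K K
  let E := AlgebraicClosure (FractionRing (K ⊗[F] K))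
  let ι : K ⊗[F] K →+* E := (algebraMap (FractionRing (K ⊗[F] K)) E).comp
    (algebraMap (K ⊗[F] K) (FractionRing (K ⊗[F] K)))
  have hι : Function.Injective ι :=
    (RingHom.injective (algebraMap (FractionRing (K ⊗[F] K)) E)).comp
      (IsFractionRing.injective (K ⊗[F] K) (FractionRing (K ⊗[F] K)))
  let φ₁ : K →+* E := ι.comp Algebra.TensorProduct.includeLeftRingHom
  let φ₂ : K →+* E := ι.comp
    (Algebra.TensorProduct.includeRight : K →ₐ[F] K ⊗[F] K).toRingHom
  have e₁ : ∀ x, φ₁ x = ι (x ⊗ₜ[F] 1) := fun x => rfl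
  have e₂ : ∀ x, φ₂ x = ι (1 ⊗ₜ[F] x) := fun x => rfl
  have hcomm : φ₁.comp φ = φ₂.comp φ := by
    refine RingHom.ext fun a => ?_
    change φ₁ (φ a) = φ₂ (φ a)
    rw [e₁, e₂]
    have h1 : φ a = a • (1 : K) := by
      rw [Algebra.smul_def, mul_one]
      rfl
    rw [h1, TensorProduct.smul_tmul]
  have hlin : ∀ (n : ℕ) (b : Fin n → K), (∀ c : Fin n → F, ∑ i, φ (c i) * b i = 0 → ∀ i, c i = 0) →
      ∀ c : Fin n → K, ∑ i, φ₂ (c i) * φ₁ (b i) = 0 → ∀ i, c i = 0 := by
    intro n b hb c hc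
    refine RA2_lin n b hb c ?_
    apply hι
    rw [map_zero, map_sum, ← hc]
    refine Finset.sum_congr rfl fun i _ => ?_
    rw [e₁, e₂, ← map_mul, Algebra.TensorProduct.tmul_mul_tmul, one_mul, mul_one]
  obtain ⟨W, hW1, hW2, hW3⟩ := exists_amalgam φ φ φ₁ φ₂ hcomm hlin O O rfl
  have hc1 : ∀ a, φ₁ (φ a) = φ₂ (φ a) := fun a => RingHom.congr_fun hcomm a
  have hϖ1 : φ₁ (φ ϖ) ≠ 0 := (map_ne_zero φ₁).2 ((map_ne_zero φ).2 hϖ0)
  have hϖ2 : φ₁ (φ ϖ) ∈ W.nonunits := (map_mem_nonunits_iff φ₁ hW1 _).2 hϖ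
  obtain ⟨K', iF, iA, O', R, π, hO', hR, hπ⟩ :=
    exists_rankOne_quotient W (φ₁ (φ ϖ)) hϖ1 hϖ2
  have hOϖ0 : φ ϖ ≠ 0 := (map_ne_zero φ).2 hϖ0
  have hOϖ : φ ϖ ∈ O := by
    rw [← O.valuation_le_one_iff]
    exact le_of_lt ((ValuationSubring.mem_nonunits_iff O).1 hϖ)
  have hnu : ∀ a : O, (a : K) ∈ O.nonunits → ¬ IsUnit a := by
    intro a ha hu
    obtain ⟨c, hc⟩ := hu.exists_right_inv
    have hc' : (a : K) * (c : K) = 1 := congrArg (fun t : O => (t : K)) hc
    rw [ValuationSubring.mem_nonunits_iff] at ha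
    have h1 : O.valuation ((a : K) * (c : K)) < 1 := by
      rw [map_mul]
      exact mul_lt_one_of_lt_of_le ha ((O.valuation_le_one_iff _).2 c.2)
    rw [hc', map_one] at h1
    exact lt_irrefl _ h1
  have key1 : ∀ a : K, ∃ n : ℕ, φ ϖ ^ n * a ∈ O := by
    intro a
    by_cases ha : a ∈ O
    · exact ⟨0, by rw [pow_zero, one_mul]; exact ha⟩
    · have ha0 : a ≠ 0 := by
        rintro rfl
        exact ha (zero_mem O)
      have hinv : a⁻¹ ∈ O := (O.mem_or_inv_mem a).resolve_left ha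
      obtain ⟨n, c, hn⟩ := hO.2 ⟨φ ϖ, hOϖ⟩ ⟨a⁻¹, hinv⟩ (hnu _ hϖ) (by
        intro h0
        have h1 : a⁻¹ = 0 := congrArg (fun t : O => (t : K)) h0
        exact ha0 (inv_eq_zero.1 h1))
      refine ⟨n, ?_⟩
      have h1 : φ ϖ ^ n = a⁻¹ * (c : K) := congrArg (fun t : O => (t : K)) hn
      rw [h1, mul_comm, ← mul_assoc, mul_inv_cancel₀ ha0, one_mul]
      exact c.2
  have key2 : ∀ a : K, a ∈ O.nonunits → ∃ n : ℕ, a ^ n / φ ϖ ∈ O := by
    intro a ha
    have haO : a ∈ O := by
      rw [← O.valuation_le_one_iff]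
      exact le_of_lt ((ValuationSubring.mem_nonunits_iff O).1 ha)
    obtain ⟨n, c, hn⟩ := hO.2 ⟨a, haO⟩ ⟨φ ϖ, hOϖ⟩ (hnu _ ha) (by
      intro h0
      exact hOϖ0 (congrArg (fun t : O => (t : K)) h0))
    refine ⟨n, ?_⟩
    have h1 : a ^ n = φ ϖ * (c : K) := congrArg (fun t : O => (t : K)) hn
    rw [h1, mul_comm, mul_div_assoc, div_self hOϖ0, mul_one]
    exact c.2
  have hR1 : ∀ a, φ₁ a ∈ R := by
    intro a
    rw [hR]
    obtain ⟨n, hn⟩ := key1 a
    refine ⟨n, ?_⟩
    rw [← map_pow, ← map_mul]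
    exact (map_mem_iff φ₁ hW1 _).2 hn
  have hR2 : ∀ a, φ₂ a ∈ R := by
    intro a
    rw [hR]
    obtain ⟨n, hn⟩ := key1 a
    refine ⟨n, ?_⟩
    rw [hc1, ← map_pow, ← map_mul]
    exact (map_mem_iff φ₂ hW2 _).2 hn
  let s₁ : K →+* R := φ₁.codRestrict R hR1
  let s₂ : K →+* R := φ₂.codRestrict R hR2
  have hs₁ : ∀ a, ((s₁ a : R) : E) = φ₁ a := fun a => rfl
  have hs₂ : ∀ a, ((s₂ a : R) : E) = φ₂ a := fun a => rfl
  have hn1 : ∀ a, (π.comp s₁) a ∈ O'.nonunits ↔ a ∈ O.nonunits := by
    intro a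
    rw [RingHom.comp_apply, hπ, hs₁]
    constructor
    · rintro ⟨n, hn⟩
      rw [← map_pow, ← map_div₀] at hn
      exact RA2_pow O hOϖ0 hϖ ((map_mem_iff φ₁ hW1 _).1 hn)
    · intro ha
      obtain ⟨n, hn⟩ := key2 a ha
      refine ⟨n, ?_⟩
      rw [← map_pow, ← map_div₀]
      exact (map_mem_iff φ₁ hW1 _).2 hn
  have hn2 : ∀ a, (π.comp s₂) a ∈ O'.nonunits ↔ a ∈ O.nonunits := by
    intro a
    rw [RingHom.comp_apply, hπ, hs₂, hc1]
    constructor
    · rintro ⟨n, hn⟩
      rw [← map_pow, ← map_div₀] at hn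
      exact RA2_pow O hOϖ0 hϖ ((map_mem_iff φ₂ hW2 _).1 hn)
    · intro ha
      obtain ⟨n, hn⟩ := key2 a ha
      refine ⟨n, ?_⟩
      rw [← map_pow, ← map_div₀]
      exact (map_mem_iff φ₂ hW2 _).2 hn
  refine ⟨K', iF, iA, O', π.comp s₁, π.comp s₂, hO', RA2_comap O O' _ hn1, RA2_comap O O' _ hn2,
    ?_, ?_⟩
  · ext a
    rw [RingHom.comp_apply, RingHom.comp_apply, RingHom.comp_apply, RingHom.comp_apply]
    congr 1
    apply Subtype.ext
    rw [hs₁, hs₂, hc1]
  · intro a ha b hb hab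
    refine hW3 a ha b hb ?_
    rw [RingHom.comp_apply, RingHom.comp_apply, ← map_sub, hπ] at hab
    obtain ⟨n, hn⟩ := hab
    exact RA2_pow W hϖ1 hϖ2 hn
-- END RA2

end Pool.Agent.Lib.MP_211349_ag
end
end

section

/-!
# Generic centres: residue fields
-/

open Polynomial TensorProduct IntermediateField

universe u

noncomputable section

namespace Pool.Agent.Lib.MP_211349_ag

-- BEGIN GC1
/-- a primitive equation for `z`: polynomials `q i` over `O`, one of them primitive -/
private theorem GC1_eq {K L : Type u} [Field K] [Field L] [Algebra K L] (O : ValuationSubring K)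
    (t : L) (halg : Algebra.IsAlgebraic K⟮t⟯ L)
    (z : L) : ∃ (N : ℕ) (q : ℕ → K[X]), (∀ i n, (q i).coeff n ∈ O) ∧
      (∃ i ≤ N, ∃ n, (q i).coeff n ∉ O.nonunits) ∧
      ∑ i ∈ Finset.range (N + 1), aeval t (q i) * z ^ i = 0 := by
  classical
  open scoped IntermediateField.algebraAdjoinAdjoin in
  have h1 : IsAlgebraic (Algebra.adjoin K {t}) z :=
    (IsFractionRing.isAlgebraic_iff (Algebra.adjoin K {t}) K⟮t⟯ L).mpr (halg.isAlgebraic z)
  obtain ⟨Q, hQ0, hQ⟩ := h1
  have h3 : ∀ x ∈ Algebra.adjoin K {t}, ∃ p : K[X], aeval t p = x := fun x hx => by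
    rw [Algebra.adjoin_singleton_eq_range_aeval] at hx
    exact hx
  have h2 : ∀ i, ∃ p : K[X], aeval t p = ((Q.coeff i : Algebra.adjoin K {t}) : L) := fun i =>
    h3 _ (Q.coeff i).2
  choose p hp using h2
  set N := Q.natDegree with hN
  have hsum : ∑ i ∈ Finset.range (N + 1), aeval t (p i) * z ^ i = 0 := by
    rw [aeval_eq_sum_range] at hQ
    rw [← hQ]
    refine Finset.sum_congr rfl fun i _ => ?_
    rw [hp, Algebra.smul_def]
    rfl
  have hpN : p N ≠ 0 := fun h0 => by
    have h3 := hp N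
    rw [h0, map_zero] at h3
    have h4 : Q.coeff N = 0 := Subtype.ext h3.symm
    exact hQ0 (Polynomial.leadingCoeff_eq_zero.mp h4)
  -- the largest coefficient
  let S : Finset (ℕ × ℕ) := (Finset.range (N + 1)).biUnion fun i => (p i).support.image fun n => (i, n)
  have hS : ∀ i n, (i, n) ∈ S ↔ i ≤ N ∧ (p i).coeff n ≠ 0 := fun i n => by
    simp only [S, Finset.mem_biUnion, Finset.mem_range, Finset.mem_image,
      Polynomial.mem_support_iff, Prod.mk.injEq]
    constructor
    · rintro ⟨a, ha, b, hb, rfl, rfl⟩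
      exact ⟨by omega, hb⟩
    · rintro ⟨ha, hb⟩
      exact ⟨i, by omega, n, hb, rfl, rfl⟩
  have hSne : S.Nonempty := by
    refine ⟨(N, (p N).natDegree), (hS _ _).mpr ⟨le_rfl, ?_⟩⟩
    exact fun h => hpN (Polynomial.leadingCoeff_eq_zero.mp h)
  obtain ⟨⟨i₀, n₀⟩, hm, hmax⟩ := Finset.exists_max_image S
    (fun x => O.valuation ((p x.1).coeff x.2)) hSne
  obtain ⟨hi₀, hc⟩ := (hS _ _).mp hm
  set c := (p i₀).coeff n₀ with hcdef
  refine ⟨N, fun i => if i ≤ N then C c⁻¹ * p i else 0, fun i n => ?_, ⟨i₀, hi₀, n₀, ?_⟩, ?_⟩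
  · beta_reduce
    by_cases hi : i ≤ N
    · rw [if_pos hi, coeff_C_mul, ← O.valuation_le_one_iff, map_mul, map_inv₀]
      by_cases hn : (p i).coeff n = 0
      · rw [hn, map_zero, mul_zero]
        exact zero_le
      · exact inv_mul_le_one_of_le₀ (hmax (i, n) ((hS i n).mpr ⟨hi, hn⟩)) zero_le
    · rw [if_neg hi, coeff_zero]
      exact zero_mem O
  · beta_reduce
    rw [if_pos hi₀, coeff_C_mul, ← hcdef, inv_mul_cancel₀ hc, ValuationSubring.mem_nonunits_iff,
      map_one]
    exact lt_irrefl _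
  · have h3 : ∀ i ∈ Finset.range (N + 1), aeval t (if i ≤ N then C c⁻¹ * p i else 0) * z ^ i =
        algebraMap K L c⁻¹ * (aeval t (p i) * z ^ i) := fun i hi => by
      rw [if_pos (by rw [Finset.mem_range] at hi; omega), map_mul, aeval_C, mul_assoc]
    rw [Finset.sum_congr rfl h3, ← Finset.mul_sum, hsum, mul_zero]

/-- (GC1) In the situation of `eq_of_same_center` (V/Val4.lean), the elements of `v` are quotients `a / b` with `a, b ∈ A`, `b` a
unit of `v`. In the proof of `eq_of_same_center` the statement `key` gives `z = a / b` or `z⁻¹ = a / b` with `b ∉ v.nonunits`; in the second case `a` is a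
unit of `v` as `z ∈ v`. (Copy that proof; `V26_eq` is private there: copy it too.) -/
theorem eq_div_of_generic {K L : Type u} [Field K] [Field L] [Algebra K L]
    {O : ValuationSubring K} {v : ValuationSubring L} [IsAlgClosed K] (A : Subring L)
    (hA : IsIntegrallyClosedIn A L) (hOA : ∀ a ∈ O, algebraMap K L a ∈ A) (t : L) (ht : t ∈ A)
    (halg : Algebra.IsAlgebraic K⟮t⟯ L) (hv : Over O v) (hAv : ∀ a ∈ A, a ∈ v)
    (hs : ResTrans O v t) (z : L) (hz : z ∈ v) :
    ∃ a ∈ A, ∃ b ∈ A, b ∉ v.nonunits ∧ z = a / b := by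
  classical
  let p : Ideal A :=
    { carrier := {a | (a : L) ∈ v.nonunits}
      add_mem' := fun {a b} ha hb => by
        have ha' : v.valuation (a : L) < 1 := (ValuationSubring.mem_nonunits_iff _).mp ha
        have hb' : v.valuation (b : L) < 1 := (ValuationSubring.mem_nonunits_iff _).mp hb
        exact (ValuationSubring.mem_nonunits_iff _).mpr
          (lt_of_le_of_lt (Valuation.map_add _ _ _) (max_lt ha' hb'))
      zero_mem' := by
        refine (ValuationSubring.mem_nonunits_iff _).mpr ?_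
        change v.valuation (0 : L) < 1
        rw [map_zero]
        exact zero_lt_one
      smul_mem' := fun a b hb => by
        have hb' : v.valuation (b : L) < 1 := (ValuationSubring.mem_nonunits_iff _).mp hb
        have ha' : v.valuation (a : L) ≤ 1 := (v.valuation_le_one_iff _).mpr (hAv _ a.2)
        refine (ValuationSubring.mem_nonunits_iff _).mpr ?_
        change v.valuation ((a : L) * (b : L)) < 1
        rw [map_mul, mul_comm]
        exact mul_lt_one_of_lt_of_le hb' ha' }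
  have hp : ∀ a : A, a ∈ p ↔ (a : L) ∈ v.nonunits := fun a => Iff.rfl
  have key : (∃ a b : A, b ∉ p ∧ z * (b : L) = (a : L)) ∨
      (∃ a b : A, b ∉ p ∧ z⁻¹ * (b : L) = (a : L) ∧ z ≠ 0) := by
    obtain ⟨N, q, hq, ⟨i, hi, n, hn⟩, hsum⟩ := GC1_eq O t halg z
    have hqA : ∀ i, aeval t (q i) ∈ A := fun i => by
      rw [aeval_eq_sum_range]
      refine sum_mem fun j _ => ?_
      rw [Algebra.smul_def]
      exact mul_mem (hOA _ (hq i j)) (pow_mem ht j)
    let P : A[X] := ∑ i ∈ Finset.range (N + 1), monomial i (⟨aeval t (q i), hqA i⟩ : A)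
    have hPc : P.coeff i = ⟨aeval t (q i), hqA i⟩ := by
      simp only [P, Polynomial.finsetSum_coeff, Polynomial.coeff_monomial]
      rw [Finset.sum_ite_eq' , if_pos (Finset.mem_range.mpr (by omega))]
    have hPz : aeval z P = 0 := by
      simp only [P, map_sum, aeval_monomial]
      exact hsum
    exact V25_aux (R := A) p z P.natDegree P le_rfl
      ⟨i, by rw [hPc, hp]; exact (hs.isUnit_aeval hv (q i) (hq i) ⟨n, hn⟩).2⟩ hPz
  have hne : ∀ b : L, b ∉ v.nonunits → b ≠ 0 := by
    rintro b hb rfl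
    apply hb
    rw [ValuationSubring.mem_nonunits_iff, map_zero]
    exact zero_lt_one
  rcases key with ⟨a, b, hb, h⟩ | ⟨a, b, hb, h, hz0⟩
  · rw [hp] at hb
    exact ⟨a, a.2, b, b.2, hb, by rw [eq_div_iff (hne _ hb)]; exact h⟩
  · rw [hp] at hb
    have hb0 := hne _ hb
    have hba : (b : L) = z * a := by
      rw [← h]
      field_simp
    have ha : (a : L) ∉ v.nonunits := by
      intro ha
      apply hb
      rw [hba, ValuationSubring.mem_nonunits_iff, map_mul, mul_comm]
      exact mul_lt_one_of_lt_of_le ((ValuationSubring.mem_nonunits_iff _).mp ha)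
        ((v.valuation_le_one_iff _).mpr hz)
    exact ⟨b, b.2, a, a.2, ha, by rw [eq_div_iff (hne _ ha)]; exact hba.symm⟩
-- END GC1

-- BEGIN GC2
/-- (GC2) `A' = O' ⊗[O] A`, `A' ⧸ m' A' = k' ⊗[k] (k ⊗[O] A)` is a domain: `isDomain_tensor` (NA4, N/Alg.lean), `k` is algebraically closed. -/
theorem map_maximalIdeal_isPrime {O O' A : Type u} [CommRing O] [IsLocalRing O] [CommRing O']
    [IsLocalRing O'] [Algebra O O'] [IsLocalHom (algebraMap O O')] [CommRing A] [Algebra O A]
    [Algebra.FiniteType O A] (hk : IsAlgClosed (IsLocalRing.ResidueField O))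
    (hdom : IsDomain (IsLocalRing.ResidueField O ⊗[O] A)) :
    ((IsLocalRing.maximalIdeal O').map (algebraMap O' (O' ⊗[O] A))).IsPrime := by
  have hft : Algebra.FiniteType (IsLocalRing.ResidueField O) (IsLocalRing.ResidueField O ⊗[O] A) :=
    inferInstance
  have h1 : IsDomain (IsLocalRing.ResidueField O' ⊗[IsLocalRing.ResidueField O]
      (IsLocalRing.ResidueField O ⊗[O] A)) := isDomain_tensor
  have h2 : IsDomain (IsLocalRing.ResidueField O' ⊗[O] A) :=
    (Algebra.TensorProduct.cancelBaseChange O (IsLocalRing.ResidueField O)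
      (IsLocalRing.ResidueField O') (IsLocalRing.ResidueField O') A).symm.toMulEquiv.isDomain _
  have htow : IsScalarTower O O' (IsLocalRing.ResidueField O') :=
    IsScalarTower.of_algebraMap_eq fun _ => rfl
  let f : O' →ₐ[O] IsLocalRing.ResidueField O' :=
    @IsScalarTower.toAlgHom O O' (IsLocalRing.ResidueField O') _ _ _ _ _ _ htow
  have hf : Function.Surjective f := IsLocalRing.residue_surjective
  have h3 := Algebra.TensorProduct.rTensor_ker (R := O) (A := O') (B := IsLocalRing.ResidueField O')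
    (C := A) f hf
  have h4 : RingHom.ker f = IsLocalRing.maximalIdeal O' := IsLocalRing.ker_residue
  rw [h4] at h3
  have h5 : ((IsLocalRing.maximalIdeal O').map (algebraMap O' (O' ⊗[O] A))) =
      RingHom.ker (Algebra.TensorProduct.map f (AlgHom.id O A)) := h3.symm
  rw [h5]
  exact RingHom.ker_isPrime _
-- END GC2

-- BEGIN GC3
private theorem GC3_exists_rep {O O' A : Type u} [CommRing O] [CommRing O'] [CommRing A]
    [Algebra O O'] [Algebra O A] (x : O' ⊗[O] A) :
    ∃ (n : ℕ) (s : Fin n → O') (a : Fin n → A), x = ∑ i, s i ⊗ₜ[O] a i := by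
  induction x using TensorProduct.induction_on with
  | zero => exact ⟨0, 0, 0, by simp⟩
  | tmul s a => exact ⟨1, fun _ => s, fun _ => a, by simp⟩
  | add x y hx hy =>
    obtain ⟨n, s, a, rfl⟩ := hx
    obtain ⟨m, t, b, rfl⟩ := hy
    refine ⟨n + m, Fin.append s t, Fin.append a b, ?_⟩
    rw [Fin.sum_univ_add]
    simp

/-- (GC3) The residue field of a valuation ring with generic centre. `Φ` maps `A' = O' ⊗[O] A` into `w`, with `Φ a ∈ w.nonunits ↔ a ∈ m' A'`, and the elements of `w`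
are quotients of elements of `Φ A'` by units. Let `B = k ⊗[O] A` (`= A ⧸ m A`, `A → B` is surjective with kernel `m A`: `Ideal.qoutMapEquivTensorQout` or similar).
`ι : B → κ(w)` is induced by `A → w`, `a ↦ Φ (1 ⊗ a)`. `lin`: lift `b_i` to `A` and `c_i` to `O'`; `∑ c_i ⊗ b_i ∈ m' A'` implies that `∑ c_i ⊗ b_i = 0` in `A' ⧸ m' A' = k' ⊗[k] B`,
and the `b_i ∈ B` are linearly independent over `k`. `frac`: lift `z ∈ κ(w)` to `w`, write it as `Φ a / Φ b`, and `a`, `b` as sums of `c_i ⊗ b_i`. -/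
theorem fracExt_residue {K K' L' : Type u} [Field K] [Field K'] [Field L'] [Algebra K' L']
    {O : ValuationSubring K} {O' : ValuationSubring K'} (σ : K →+* K') (hσ : O'.comap σ = O)
    {w : ValuationSubring L'} (hw : Over O' w) {A : Type u} [CommRing A] [Algebra O A]
    [Algebra O O'] (hOO' : algebraMap O O' = valHom σ hσ) (Φ : O' ⊗[O] A →+* L')
    (hΦO : ∀ s : O', Φ (s ⊗ₜ 1) = algebraMap K' L' s) (hΦw : ∀ a, Φ a ∈ w)
    (hcen : ∀ a, Φ a ∈ w.nonunits ↔
      a ∈ (IsLocalRing.maximalIdeal O').map (algebraMap O' (O' ⊗[O] A)))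
    (hdiv : ∀ z ∈ w, ∃ a b : O' ⊗[O] A, Φ b ∉ w.nonunits ∧ z = Φ a / Φ b) :
    ∃ ι : IsLocalRing.ResidueField O ⊗[O] A →+* IsLocalRing.ResidueField w,
      FracExt (algebraMap (IsLocalRing.ResidueField O) (IsLocalRing.ResidueField O ⊗[O] A))
        (resMap hw) (resHom σ hσ) ι := by
  let ψ : O' ⊗[O] A →+* w := Φ.codRestrict w.toSubring hΦw
  let ρ : O' ⊗[O] A →+* IsLocalRing.ResidueField w := (IsLocalRing.residue w).comp ψ
  have hρ : ∀ a, ρ a = 0 ↔
      a ∈ (IsLocalRing.maximalIdeal O').map (algebraMap O' (O' ⊗[O] A)) := by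
    intro a
    rw [← hcen]
    change IsLocalRing.residue w (ψ a) = 0 ↔ ((ψ a : w) : L') ∈ w.nonunits
    rw [IsLocalRing.residue_eq_zero_iff, ValuationSubring.coe_mem_nonunits_iff]
  have hρO : ∀ s : O', ρ (s ⊗ₜ 1) = resMap hw (IsLocalRing.residue O' s) := by
    intro s
    change IsLocalRing.residue w (ψ (s ⊗ₜ 1)) =
      IsLocalRing.residue w (valHom (algebraMap K' L') hw s)
    congr 1
    apply Subtype.ext
    exact hΦO s
  let α : A →+* IsLocalRing.ResidueField w :=
    ρ.comp (Algebra.TensorProduct.includeRight : A →ₐ[O] O' ⊗[O] A).toRingHom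
  have hα : ∀ a, α a = ρ (1 ⊗ₜ a) := fun _ => rfl
  let β : IsLocalRing.ResidueField O →+* IsLocalRing.ResidueField w :=
    (resMap hw).comp (resHom σ hσ)
  have hαβ : ∀ c : O, α (algebraMap O A c) = β (IsLocalRing.residue O c) := by
    intro c
    rw [hα]
    have h1 : (1 : O') ⊗ₜ[O] (algebraMap O A c) = (algebraMap O O' c) ⊗ₜ[O] (1 : A) := by
      rw [Algebra.algebraMap_eq_smul_one, Algebra.algebraMap_eq_smul_one, TensorProduct.tmul_smul,
        TensorProduct.smul_tmul']
    rw [h1, hρO, hOO']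
    rfl
  let algw : Algebra O (IsLocalRing.ResidueField w) := (β.comp (IsLocalRing.residue O)).toAlgebra
  let f : IsLocalRing.ResidueField O →ₐ[O] IsLocalRing.ResidueField w :=
    { β with commutes' := fun _ => rfl }
  let g : A →ₐ[O] IsLocalRing.ResidueField w :=
    { α with commutes' := fun c => hαβ c }
  let ι : IsLocalRing.ResidueField O ⊗[O] A →+* IsLocalRing.ResidueField w :=
    (Algebra.TensorProduct.lift f g (fun _ _ => Commute.all _ _)).toRingHom
  have hι : ∀ a : A, ι (1 ⊗ₜ a) = ρ (1 ⊗ₜ a) := by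
    intro a
    change Algebra.TensorProduct.lift f g _ (1 ⊗ₜ a) = _
    rw [Algebra.TensorProduct.lift_tmul, map_one, one_mul]
    rfl
  have hιk : ∀ c : IsLocalRing.ResidueField O, ι (c ⊗ₜ 1) = β c := by
    intro c
    change Algebra.TensorProduct.lift f g _ (c ⊗ₜ 1) = _
    rw [Algebra.TensorProduct.lift_tmul, map_one, mul_one]
    rfl
  -- every element of `B` is `1 ⊗ a`
  have hsurj : ∀ b : IsLocalRing.ResidueField O ⊗[O] A, ∃ a : A, b = 1 ⊗ₜ a := by
    intro b
    induction b using TensorProduct.induction_on with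
    | zero => exact ⟨0, by simp⟩
    | tmul c a =>
      obtain ⟨c, rfl⟩ := IsLocalRing.residue_surjective c
      refine ⟨c • a, ?_⟩
      rw [TensorProduct.tmul_smul, TensorProduct.smul_tmul']
      congr 1
      rw [Algebra.smul_def, mul_one]
      rfl
    | add x y hx hy =>
      obtain ⟨a, rfl⟩ := hx
      obtain ⟨b, rfl⟩ := hy
      exact ⟨a + b, by rw [TensorProduct.tmul_add]⟩
  -- sums
  have hsum : ∀ (n : ℕ) (s : Fin n → O') (a : Fin n → A),
      ρ (∑ i, s i ⊗ₜ a i) =
        ∑ i, resMap hw (IsLocalRing.residue O' (s i)) * ι (1 ⊗ₜ a i) := by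
    intro n s a
    rw [map_sum]
    refine Finset.sum_congr rfl fun i _ => ?_
    rw [hι, ← hρO, ← map_mul, Algebra.TensorProduct.tmul_mul_tmul, one_mul, mul_one]
  refine ⟨ι, ?_, ?_, ?_⟩
  · intro a
    rw [Algebra.TensorProduct.algebraMap_apply]
    exact hιk a
  · intro n b hb c hc
    choose a ha using fun i => hsurj (b i)
    choose s hs using fun i => IsLocalRing.residue_surjective (R := O') (c i)
    have h1 : ρ (∑ i, s i ⊗ₜ a i) = 0 := by
      rw [hsum, ← hc]
      refine Finset.sum_congr rfl fun i _ => ?_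
      rw [hs, ha]
    rw [hρ] at h1
    -- functionals
    have hli : LinearIndependent (IsLocalRing.ResidueField O) b := by
      rw [Fintype.linearIndependent_iff]
      intro c hc
      apply hb c
      rw [← hc]
      refine Finset.sum_congr rfl fun i _ => ?_
      rw [Algebra.smul_def]
    intro j
    obtain ⟨F, hF⟩ : ∃ F : (IsLocalRing.ResidueField O ⊗[O] A) →ₗ[IsLocalRing.ResidueField O]
        IsLocalRing.ResidueField O, ∀ i, F (b i) = if i = j then 1 else 0 := by
      obtain ⟨G, hG⟩ := LinearMap.exists_leftInverse_of_injective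
        (Finsupp.linearCombination (IsLocalRing.ResidueField O) b) (LinearMap.ker_eq_bot.2 hli)
      refine ⟨(Finsupp.lapply j).comp G, fun i => ?_⟩
      have h2 : b i = Finsupp.linearCombination (IsLocalRing.ResidueField O) b
          (Finsupp.single i 1) := by
        rw [Finsupp.linearCombination_single, one_smul]
      have h3 : G (b i) = Finsupp.single i 1 := by
        rw [h2]
        exact LinearMap.congr_fun hG _
      rw [LinearMap.comp_apply, h3, Finsupp.lapply_apply, Finsupp.single_apply]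
    let l : A →ₗ[O] IsLocalRing.ResidueField O' :=
      { toFun := fun a => resHom σ hσ (F (1 ⊗ₜ a))
        map_add' := fun x y => by rw [TensorProduct.tmul_add, map_add, map_add]
        map_smul' := fun r x => by
          have h2 : (1 : IsLocalRing.ResidueField O) ⊗ₜ[O] (r • x) =
              (IsLocalRing.residue O r) • ((1 : IsLocalRing.ResidueField O) ⊗ₜ[O] x) := by
            rw [TensorProduct.tmul_smul, TensorProduct.smul_tmul', TensorProduct.smul_tmul']
            congr 1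
          rw [h2, map_smul, smul_eq_mul, map_mul, RingHom.id_apply, Algebra.smul_def]
          congr 1
          change _ = IsLocalRing.residue O' (algebraMap O O' r)
          rw [hOO']
          rfl }
    let gj : O' ⊗[O] A →ₗ[O'] IsLocalRing.ResidueField O' := l.liftBaseChange O'
    have h4 : ∀ z ∈ (IsLocalRing.maximalIdeal O').map (algebraMap O' (O' ⊗[O] A)),
        gj z = 0 := by
      intro z hz
      have h5 : z ∈ (IsLocalRing.maximalIdeal O' • (⊤ : Submodule O' (O' ⊗[O] A))) := by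
        rw [Ideal.smul_top_eq_map]
        exact hz
      refine Submodule.smul_induction_on h5 ?_ ?_
      · intro r hr y _
        rw [map_smul, Algebra.smul_def]
        have h6 : algebraMap O' (IsLocalRing.ResidueField O') r = 0 :=
          (IsLocalRing.residue_eq_zero_iff r).2 hr
        rw [h6, zero_mul]
      · intro x y hx hy
        rw [map_add, hx, hy, add_zero]
    have h5 := h4 _ h1
    rw [map_sum] at h5
    have h6 : ∀ i, gj (s i ⊗ₜ a i) = c i * (if i = j then 1 else 0) := by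
      intro i
      change (l.liftBaseChange O') (s i ⊗ₜ a i) = _
      rw [LinearMap.liftBaseChange_tmul, Algebra.smul_def]
      congr 1
      · exact hs i
      · change resHom σ hσ (F (1 ⊗ₜ a i)) = _
        rw [← ha i, hF]
        split_ifs
        · exact map_one _
        · exact map_zero _
    rw [Finset.sum_congr rfl fun i _ => h6 i] at h5
    simpa using h5
  · intro z
    obtain ⟨z, rfl⟩ := IsLocalRing.residue_surjective z
    obtain ⟨x, y, hy, hz⟩ := hdiv z z.2
    have hy' : ρ y ≠ 0 := by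
      rw [Ne, hρ, ← hcen]
      exact hy
    have hzz : IsLocalRing.residue w z = ρ x / ρ y := by
      rw [eq_div_iff hy']
      change IsLocalRing.residue w z * IsLocalRing.residue w (ψ y) =
        IsLocalRing.residue w (ψ x)
      rw [← map_mul]
      congr 1
      apply Subtype.ext
      change (z : L') * Φ y = Φ x
      have hy0 : Φ y ≠ 0 := by
        intro h0
        apply hy
        rw [h0]
        exact w.nonunits.zero_mem
      rw [hz, div_mul_cancel₀ _ hy0]
    obtain ⟨n, s, a, rfl⟩ := GC3_exists_rep x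
    obtain ⟨m, t, b, rfl⟩ := GC3_exists_rep y
    rw [hsum] at hzz hy'
    rw [hsum] at hzz
    refine ⟨n + m, Fin.append (fun i => IsLocalRing.residue O' (s i)) 0,
      Fin.append 0 (fun i => IsLocalRing.residue O' (t i)),
      Fin.append (fun i => 1 ⊗ₜ a i) (fun i => 1 ⊗ₜ b i), ?_, ?_⟩
    · rw [Fin.sum_univ_add]
      simpa using hy'
    · rw [Fin.sum_univ_add, Fin.sum_univ_add]
      simpa using hzz
-- END GC3

end Pool.Agent.Lib.MP_211349_ag
end
end

section

/-!
# The residue field of a valuation ring with nonrational residue field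
-/

open CategoryTheory Limits AlgebraicGeometry Polynomial TensorProduct

universe u

noncomputable section

namespace Pool.Agent.Lib.MP_211349_ag

section setup

variable {K K' L' : Type u} [Field K] [IsAlgClosed K] [Field K'] [IsAlgClosed K'] [Field L']
  [Algebra K' L'] {O : ValuationSubring K} (hO : RankOne O) {O' : ValuationSubring K'}
  (hO' : RankOne O') {σ : K →+* K'} (hσ : O'.comap σ = O) {X C : Scheme.{u}} [IsIntegral C]
  {f : X ⟶ Spec (.of O)} {g : C ⟶ Spec (.of K)} {i : C ⟶ X}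
  (hi : IsPullback i g f (genPt O))
  (htr : letI := (toFunctionField g).toAlgebra
    ∃ x : C.functionField, Transcendental K x ∧
      Algebra.IsAlgebraic (Algebra.adjoin K {x}) C.functionField)
  {θ : C.functionField →+* L'} (hθ : FracExt (toFunctionField g) (algebraMap K' L') σ θ)
  (G : O'[X][X]) (hG : NoParam O' G) {w : ValuationSubring L'} (hw : Over O' w) (hsol : Sol O' w G)

include hσ hθ hw in
/-- The restriction of `w` to the function field lies over `O`. -/
theorem over_comap : letI := (toFunctionField g).toAlgebra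
    Over O (w.comap θ) := by
  let _ := (toFunctionField g).toAlgebra
  have h1 : (w.comap θ).comap (algebraMap K C.functionField) =
      (w.comap (algebraMap K' L')).comap σ := by
    ext a
    simp only [ValuationSubring.mem_comap]
    rw [← hθ.comm a]
    rfl
  change (w.comap θ).comap (algebraMap K C.functionField) = O
  rw [h1, show w.comap (algebraMap K' L') = O' from hw, hσ]

-- BEGIN RK1
private theorem RK1_mem {K' L' R A : Type u} [Field K'] [Field L'] [Algebra K' L'] [CommRing R]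
    [CommRing A] {O' : ValuationSubring K'} [Algebra R O'] [Algebra R A] (Φ : O' ⊗[R] A →+* L')
    (hΦ1 : ∀ s : O', Φ (s ⊗ₜ 1) = algebraMap K' L' (algebraMap O' K' s)) (D : Subring L')
    (h1 : ∀ s ∈ O', algebraMap K' L' s ∈ D) (h2 : ∀ a : A, Φ (1 ⊗ₜ a) ∈ D) (x : O' ⊗[R] A) :
    Φ x ∈ D := by
  induction x using TensorProduct.induction_on with
  | zero =>
    rw [map_zero]
    exact zero_mem D
  | tmul s a =>
    have h3 : s ⊗ₜ[R] a = s ⊗ₜ[R] (1 : A) * (1 : O') ⊗ₜ[R] a := by
      rw [Algebra.TensorProduct.tmul_mul_tmul, mul_one, one_mul]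
    rw [h3, map_mul, hΦ1]
    exact mul_mem (h1 _ s.2) (h2 a)
  | add x y hx hy =>
    rw [map_add]
    exact add_mem hx hy

include hO' hσ hi htr hθ hG hw in
/-- (RK1) The centre is not a node. Let `w₀ = w.comap θ`. `node_chart` gives `c`, `y`, `a`, `u`, `v`; `exists_factor` (M/Sch.lean) gives
`ψ : c.A → w₀` with `Spec ψ ≫ c.j = ℓ`, and `y` is the preimage of the maximal ideal (`c.j` is injective), so
`ψ u`, `ψ v` are nonunits. Let `φ = w₀.subtype.comp ψ : c.A → K(C)`, with `Spec φ ≫ c.j = ptX i`; injective, compatible with `O`, with fractions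
everything: `chart_hom_injective`, `chart_hom_algebraMap`, `chart_hom_frac` (M/Sch.lean; flatness by `Chart.flat`). Let `A = (θ.comp φ).range`, `S` the image of `O`; `node_approx` (Y/NodeVal.lean) with
`exists_pow_div_mem` (Y/Arch.lean) for `s = x` with `(x, y)` the solution (Suppose `Sol O' w G`); `L'` is algebraic over `K'(x)` by `FracExt.isAlgebraic` and `isAlgebraic_adjoin_simple`,
`ResTrans.transcendental`. Let `D` be the subring generated by `O'` and `A`; `approx_closure` (for `d ∈ O'`; for `d ∉ O'` use `1`), the fractions of `D` are everything by `model_frac` and `exists_model_hom` (Y/Frac.lean, `R = O`, `S = O'`).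
Contradiction by `not_sol_of_approx`. -/
theorem relative_node [Flat f] [LocallyOfFinitePresentation f]
    (ℓ : Spec (.of (w.comap θ)) ⟶ X)
    (hℓ : Spec.map (CommRingCat.ofHom (w.comap θ).subtype) ≫ ℓ = ptX i) (z : specialFibre O f)
    (hz : pullback.fst f (resPt O) z = ℓ (IsLocalRing.closedPoint (w.comap θ)))
    (hnode : IsNode (pullback.snd f (resPt O)) z) : ¬ Sol O' w G := by
  intro hsol
  obtain ⟨c, y, hcy, a, u, v, ha, hu, hv, hgen, hrel⟩ := node_chart O f z hnode
  obtain ⟨ψ, hψ⟩ := exists_factor c _ ℓ ⟨y, by rw [hcy, hz]⟩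
  have hy : y = Spec.map (CommRingCat.ofHom ψ) (IsLocalRing.closedPoint (w.comap θ)) := by
    apply c.j.isOpenEmbedding.injective
    have h1 : c.j (Spec.map (CommRingCat.ofHom ψ) (IsLocalRing.closedPoint (w.comap θ))) =
        (Spec.map (CommRingCat.ofHom ψ) ≫ c.j) (IsLocalRing.closedPoint (w.comap θ)) := rfl
    rw [h1, hψ, ← hz, hcy]
  have hyI : ∀ b : c.A, b ∈ y.asIdeal → θ ((ψ b : w.comap θ) : C.functionField) ∈ w.nonunits := by
    intro b hb
    rw [hy] at hb
    have h1 : ψ b ∈ IsLocalRing.maximalIdeal (w.comap θ) := hb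
    rw [mem_maximalIdeal_iff] at h1
    rwa [map_mem_nonunits_iff θ (O := w.comap θ) rfl]
  set φ : c.A →+* C.functionField := (w.comap θ).subtype.comp ψ with hφdef
  have hφ : Spec.map (CommRingCat.ofHom φ) ≫ c.j = ptX i := by
    rw [hφdef, CommRingCat.ofHom_comp, Spec.map_comp, Category.assoc, hψ, hℓ]
  have := c.flat
  have hinj := chart_hom_injective hi c φ hφ
  have hφO := chart_hom_algebraMap hi c φ hφ
  have hfrac := chart_hom_frac hi c φ hφ
  let _ : Algebra O O' := (valHom σ hσ).toAlgebra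
  obtain ⟨Φ, -, hΦ1, hΦ2⟩ := exists_model_hom (R := O) (S := O') (A := c.A) hθ
    Subtype.val_injective (fun r => rfl) φ hinj hφO
  have hL : ∀ z : C.functionField, ∃ a b : c.A, θ (φ b) ≠ 0 ∧ φ b * z = φ a := by
    intro z
    obtain ⟨a, b, hb, rfl⟩ := hfrac z
    exact ⟨a, b, (map_ne_zero θ).mpr hb, mul_div_cancel₀ _ hb⟩
  have hfrac' := model_frac (R := O) (S := O') hθ φ hL Φ hΦ1 hΦ2
  obtain ⟨s, y', hs, hy', hG'⟩ := id hsol
  obtain ⟨x₀, -, hx₀⟩ := htr
  have halg : Algebra.IsAlgebraic (IntermediateField.adjoin K' {s}) L' :=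
    isAlgebraic_adjoin_simple (θ x₀) s (hθ.isAlgebraic x₀ hx₀) (hs.transcendental hw)
  have harch := exists_pow_div_mem hO' hw s hs halg
  let A : Subring L' := (θ.comp φ).range
  let S : Subring L' := ((algebraMap K' L').comp (σ.comp O.subtype)).range
  have hSmem : ∀ r : O, θ (φ (algebraMap O c.A r)) = algebraMap K' L' (σ r) := by
    intro r
    rw [hφO, hθ.comm]
  have hAw : ∀ b ∈ A, b ∈ w := by
    rintro _ ⟨b, rfl⟩
    exact (ψ b).2
  have happ : ∀ d : K', d ≠ 0 → ∃ t : L', ∀ z ∈ A, ∃ z' ∈ IntermediateField.adjoin K' {t},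
      (z - z') / algebraMap K' L' d ∈ w := by
    refine node_approx hw harch S A ?_ ?_ hAw (θ (φ (algebraMap O c.A a))) (θ (φ u)) (θ (φ v))
      ?_ ?_ ⟨u, rfl⟩ ⟨v, rfl⟩ (hyI u hu) (hyI v hv) ?_ ?_
    · rintro _ ⟨r, rfl⟩
      exact ⟨σ r, (map_mem_iff σ hσ (r : K)).2 r.2, rfl⟩
    · rintro _ ⟨r, rfl⟩
      exact ⟨algebraMap O c.A r, hSmem r⟩
    · exact ⟨a, (hSmem a).symm⟩
    · rw [hSmem, Over.nonunits_iff hw, map_mem_nonunits_iff σ hσ,
        ValuationSubring.coe_mem_nonunits_iff]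
      exact ha
    · rintro _ ⟨b, rfl⟩
      obtain ⟨r, p, q, r', hb⟩ := hgen b
      refine ⟨_, ⟨r, (hSmem r).symm⟩, _, ⟨p, rfl⟩, _, ⟨q, rfl⟩, _, ⟨r', rfl⟩, ?_⟩
      rw [hb]
      simp only [RingHom.comp_apply, map_add, map_mul]
    · obtain ⟨α, β, γ, δ, ε, h⟩ := hrel
      refine ⟨_, ⟨α, rfl⟩, _, ⟨β, rfl⟩, _, ⟨γ, rfl⟩, _, ⟨δ, rfl⟩, _, ⟨ε, rfl⟩, ?_⟩
      have h' := congrArg (θ.comp φ) h
      simpa only [RingHom.comp_apply, map_add, map_mul, map_pow] using h'
  set T : Set L' := (algebraMap K' L') '' (O' : Set K') ∪ (A : Set L') with hT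
  let D : Subring L' := Subring.closure T
  have hTw : ∀ b ∈ T, b ∈ w := by
    rintro b (⟨r, hr, rfl⟩ | hb)
    · exact (Over.mem_iff hw _).2 hr
    · exact hAw b hb
  have hDw : ∀ b ∈ D, b ∈ w := by
    intro b hb
    have h1 : D ≤ w.toSubring := Subring.closure_le.mpr fun x hx => hTw x hx
    exact h1 hb
  refine not_sol_of_approx hO' hw G hG D hDw ?_ s hs halg ?_ hsol
  · intro z
    obtain ⟨p, q, hq, rfl⟩ := hfrac' z
    have hmem : ∀ x, Φ x ∈ D := RK1_mem Φ hΦ1 D
      (fun r hr => Subring.subset_closure (Or.inl ⟨r, hr, rfl⟩))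
      (fun b => Subring.subset_closure (Or.inr ⟨b, (hΦ2 b).symm⟩))
    exact ⟨Φ p, hmem p, Φ q, hmem q, hq, rfl⟩
  · have key : ∀ d : K', d ∈ O' → d ≠ 0 → ∃ t : L', ∀ b ∈ D,
        ∃ b' ∈ IntermediateField.adjoin K' {t}, (b - b') / algebraMap K' L' d ∈ w := by
      intro d hd hd0
      obtain ⟨t, ht⟩ := happ d hd0
      refine ⟨t, fun b hb => approx_closure hw d hd hd0 t T hTw ?_ b hb⟩
      rintro b (⟨r, hr, rfl⟩ | hb)
      · refine ⟨_, IntermediateField.algebraMap_mem _ r, ?_⟩
        rw [sub_self, zero_div]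
        exact zero_mem w
      · exact ht b hb
    intro d hd
    by_cases hdO : d ∈ O'
    · exact key d hdO hd
    · obtain ⟨t, ht⟩ := key 1 (one_mem O') one_ne_zero
      refine ⟨t, fun b hb => ?_⟩
      obtain ⟨b', hb', h⟩ := ht b hb
      refine ⟨b', hb', ?_⟩
      rw [map_one, div_one] at h
      rw [div_eq_mul_inv, ← map_inv₀]
      exact mul_mem h ((Over.mem_iff hw _).2 ((O'.mem_or_inv_mem d).resolve_left hdO))
-- END RK1

-- BEGIN RK2
/-- A point of the special fibre lies over the closed point of `Spec O`. -/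
private theorem RK2_closed {K : Type u} [Field K] (O : ValuationSubring K) {X : Scheme.{u}}
    (f : X ⟶ Spec (.of O)) (z : specialFibre O f) :
    f (pullback.fst f (resPt O) z) = IsLocalRing.closedPoint O := by
  have h1 : f (pullback.fst f (resPt O) z) = (pullback.fst f (resPt O) ≫ f) z := rfl
  rw [h1, pullback.condition]
  change (resPt O) (pullback.snd f (resPt O) z) = _
  exact IsLocalRing.PrimeSpectrum.comap_residue O _

include hO hO' hi htr hθ hG hw hsol in
/-- (RK2) The centre is a smooth point. `exists_smooth_open`, `exists_good_chart_of_open`, `exists_good_chart_domain` (Y/SmoothPt.lean) give a good chart `c` (standard étale over `O[X]`, with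
`φ : A → K(C)`) with `ℓ (closed point)` in its range and `B = k ⊗[O] A` a domain; `B` is standard étale over `k[X]` by `exists_standardEtale_baseChange`, the open immersion is
`Chart.exists_special`. Let `A' = O' ⊗[O] A` for the algebra structure `(valHom σ hσ).toAlgebra`: standard étale over `O'[X]` (`exists_standardEtale_baseChange`), `Φ : A' → L'` injective by
`exists_model_hom`, fractions by `model_frac` (flatness `flat_of_standard'`; `chart_hom_injective`, `chart_hom_algebraMap`, `chart_hom_frac` from M/Sch.lean for `φ`). `Φ A' ⊆ w` (`exists_psi`/`exists_factor`: `A → w.comap θ`). `NR_of_sol` and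
`closed_center_NR` (P2/M.lean) for `A'`: the coordinate `t = Φ (algebraMap O'[X] A' X)` is residually transcendental. `generic_center`, `chart_normal`, `chart_isAlgebraic` (M/Alg.lean) for `A'`, with
`map_maximalIdeal_isPrime`; `eq_div_of_generic` for `Φ.range`; `fracExt_residue` (Y/GenCenter.lean). -/
theorem relative_smooth [Flat f] [LocallyOfFinitePresentation f] [Smooth g]
    (ℓ : Spec (.of (w.comap θ)) ⟶ X)
    (hℓ : Spec.map (CommRingCat.ofHom (w.comap θ).subtype) ≫ ℓ = ptX i) (z : specialFibre O f)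
    (hz : pullback.fst f (resPt O) z = ℓ (IsLocalRing.closedPoint (w.comap θ)))
    (hsm : SmoothAt (pullback.snd f (resPt O)) z) :
    ∃ (c : SpecialChart O f) (ι : c.B →+* IsLocalRing.ResidueField w),
      FracExt (algebraMap (IsLocalRing.ResidueField O) c.B) (resMap hw) (resHom σ hσ) ι := by
  obtain ⟨U, hU, hUsm⟩ := exists_smooth_open O hO f g ⟨i, hi⟩ z hsm
  obtain ⟨c₀, hc₀⟩ := exists_good_chart_of_open hi htr (w.comap θ) ℓ hℓ U (hz ▸ hU) hUsm
  obtain ⟨c, hc, hdom⟩ := exists_good_chart_domain hi c₀ _ hc₀ (by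
    rw [← hz]
    exact RK2_closed O f z)
  -- the homomorphism into the function field
  have hflat : Module.Flat O c.A := flat_of_standard'
  have hinj := chart_hom_injective hi c.toChart _ c.hφ
  have hφO : ∀ a : O, c.φ (algebraMap O c.A a) = toFunctionField g (a : K) :=
    chart_hom_algebraMap hi c.toChart _ c.hφ
  have hfrac := chart_hom_frac hi c.toChart _ c.hφ
  obtain ⟨ψ, -, hψ⟩ := exists_psi hi c (w.comap θ) ℓ hℓ hc
  have hAw : ∀ a, θ (c.φ a) ∈ w := by
    intro a
    rw [← hψ]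
    exact (ψ a).2
  -- the base change
  let _ : Algebra O O' := (valHom σ hσ).toAlgebra
  obtain ⟨Φ, hΦinj, hΦs, hΦa⟩ := exists_model_hom (R := O) (S := O') (A := c.A) hθ
    Subtype.val_injective (fun r => rfl) c.φ hinj hφO
  have hΦfrac : ∀ z : L', ∃ a b : O' ⊗[O] c.A, Φ b ≠ 0 ∧ z = Φ a / Φ b :=
    model_frac (R := O) (S := O') hθ c.φ (fun z => by
      obtain ⟨a, b, hb, rfl⟩ := hfrac z
      refine ⟨a, b, ?_, ?_⟩
      · rwa [Ne, map_eq_zero_iff _ θ.injective]
      · rw [mul_div_cancel₀ _ hb]) Φ hΦs hΦa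
  have hΦw : ∀ a, Φ a ∈ w := by
    intro a
    induction a using TensorProduct.induction_on with
    | zero => rw [map_zero]; exact zero_mem w
    | tmul s a =>
      have h1 : (s ⊗ₜ[O] a : O' ⊗[O] c.A) = (s ⊗ₜ 1) * (1 ⊗ₜ a) := by
        rw [Algebra.TensorProduct.tmul_mul_tmul, mul_one, one_mul]
      rw [h1, map_mul, hΦs, hΦa]
      exact mul_mem ((hw.mem_iff _).mpr s.2) (hAw a)
    | add x y hx hy => rw [map_add]; exact add_mem hx hy
  obtain ⟨_, _, _, hX⟩ := exists_standardEtale_baseChange O O' c.A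
  have hΦO : ∀ a : O', Φ (algebraMap O' (O' ⊗[O] c.A) a) = algebraMap K' L' (a : K') :=
    fun a => hΦs a
  have hNR : NR O' w := NR_of_sol hw G hG hsol
  have hs : ResTrans O' w (Φ (algebraMap O'[X] (O' ⊗[O] c.A) Polynomial.X)) := by
    refine ⟨hΦw _, fun a ha h => ?_⟩
    exact closed_center_NR Φ hΦinj hΦO hΦfrac hO' hw hΦw a ha h hNR
  have hloc : IsLocalHom (algebraMap O O') := valHom_local σ hσ
  have hft : Algebra.FiniteType O c.A := by
    have h1 : Algebra.FiniteType O[X] c.A := inferInstance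
    exact Algebra.FiniteType.trans (S := O[X]) inferInstance h1
  have hp := map_maximalIdeal_isPrime (O := O) (O' := O') (A := c.A)
    (residueField_isAlgClosed O) hdom
  have hcen := generic_center Φ hΦO hw hΦw hs hp
  have hdiv : ∀ z ∈ w, ∃ a b : O' ⊗[O] c.A, Φ b ∉ w.nonunits ∧ z = Φ a / Φ b := by
    intro z hz
    obtain ⟨_, ⟨a, rfl⟩, _, ⟨b, rfl⟩, hb, e⟩ := eq_div_of_generic (O := O') (v := w) Φ.range
      (chart_normal Φ hΦinj hΦO hΦfrac) (fun a ha => ⟨algebraMap O' _ ⟨a, ha⟩, hΦO _⟩)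
      (Φ (algebraMap O'[X] (O' ⊗[O] c.A) Polynomial.X)) ⟨_, rfl⟩
      (chart_isAlgebraic Φ hΦinj hΦO hΦfrac) hw (by
        rintro _ ⟨a, rfl⟩
        exact hΦw a) hs z hz
    exact ⟨a, b, hb, e⟩
  obtain ⟨ι, hι⟩ := fracExt_residue (A := c.A) σ hσ hw rfl Φ hΦs hΦw hcen hdiv
  -- the chart of the special fibre
  obtain ⟨j, hjo, hj, -⟩ := c.toChart.exists_special
  obtain ⟨i1, i2, i3, -⟩ :=
    exists_standardEtale_baseChange O (IsLocalRing.ResidueField O) c.A
  exact ⟨{ B := IsLocalRing.ResidueField O ⊗[O] c.A, domain := hdom, algP := i1, tower := i2,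
           std := i3, j := j, op := hjo, hj := hj }, ι, hι⟩
-- END RK2

include hO hO' htr hθ hG hw hsol in
/-- The residue field of `w` is the composite of the residue field of `O'` and the function field
of a component of the special fibre. -/
theorem relative_key [Smooth g] (hX : SemistableModel O f g) :
    ∃ (c : SpecialChart O f) (ι : c.B →+* IsLocalRing.ResidueField w),
      FracExt (algebraMap (IsLocalRing.ResidueField O) c.B) (resMap hw) (resHom σ hσ) ι := by
  have := hX.isProper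
  have := hX.flat
  have := hX.locallyOfFinitePresentation
  obtain ⟨i, hi⟩ := hX.generic
  obtain ⟨ℓ, hℓ, hℓ'⟩ := exists_lift hi (w.comap θ) (over_comap hσ hθ hw)
  have hcl : f (ℓ (IsLocalRing.closedPoint (w.comap θ))) = IsLocalRing.closedPoint O := by
    have h1 : (ℓ ≫ f) (IsLocalRing.closedPoint (w.comap θ)) =
        f (ℓ (IsLocalRing.closedPoint (w.comap θ))) := rfl
    rw [← h1, hℓ']
    let _ := (toFunctionField g).toAlgebra
    have := overHom_local (over_comap hσ hθ hw)
    exact IsLocalRing.comap_closedPoint (overHom (over_comap hσ hθ hw))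
  obtain ⟨z, hz⟩ := exists_special_lift _ hcl
  rcases hX.nodal z with h | h
  · exact relative_smooth hO hO' hσ hi htr hθ G hG hw hsol ℓ hℓ z hz h
  · exact absurd hsol (relative_node hO' hσ hi htr hθ G hG hw ℓ hℓ z hz h)

end setup

end Pool.Agent.Lib.MP_211349_ag
end
end

section

/-!
# The chain of reductions
-/

open CategoryTheory Limits AlgebraicGeometry Polynomial

universe u

noncomputable section

namespace Pool.Agent.Lib.MP_211349_ag

theorem evalAt_map {R S T : Type*} [CommRing R] [CommRing S] [CommRing T] (φ : S →+* T)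
    (ρ : R →+* S) (G : R[X][X]) (x y : T) :
    evalAt φ (G.map (mapRingHom ρ)) x y = evalAt (φ.comp ρ) G x y := by
  unfold evalAt
  rw [eval₂_map]
  congr 1
  apply Polynomial.ringHom_ext <;> simp

/-- The residues of two independent copies of a residually transcendental element. -/
theorem resHom_notMem_range {F K K' : Type u} [Field F] [Field K] [Field K']
    {O : ValuationSubring K} {O' : ValuationSubring K'} (φ : F →+* K) {σ τ : K →+* K'}
    (hσ : O'.comap σ = O) (hτ : O'.comap τ = O) (hστ : σ.comp φ = τ.comp φ)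
    (hind : ∀ a ∈ O, ∀ b ∈ O, σ a - τ b ∈ O'.nonunits → ∃ c : F, φ c ∈ O ∧ a - φ c ∈ O.nonunits)
    (c : O) (hc : ∀ a : F, φ a ∈ O → (c : K) - φ a ∉ O.nonunits) :
    resHom τ hτ (IsLocalRing.residue O c) ∉ (resHom σ hσ).range := by
  rintro ⟨a, ha⟩
  obtain ⟨a, rfl⟩ := IsLocalRing.residue_surjective a
  rw [resHom_residue, resHom_residue, ← sub_eq_zero, ← map_sub,
    IsLocalRing.residue_eq_zero_iff, ← ValuationSubring.coe_mem_nonunits_iff] at ha
  have ha' : σ a - τ c ∈ O'.nonunits := ha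
  obtain ⟨e, he, hae⟩ := hind a a.2 c c.2 ha'
  refine hc e he ?_
  rw [← map_mem_nonunits_iff τ hτ, map_sub]
  have h1 : τ (φ e) = σ (φ e) := (RingHom.congr_fun hστ e).symm
  have h2 : σ a - σ (φ e) ∈ O'.nonunits := by
    rw [← map_sub, map_mem_nonunits_iff σ hσ]
    exact hae
  have h3 : τ (c : K) - τ (φ e) = (σ a - σ (φ e)) - (σ a - τ c) := by
    rw [h1]
    ring
  rw [h3]
  rw [ValuationSubring.mem_nonunits_iff] at h2 ha' ⊢
  exact Valuation.map_sub_lt _ h2 ha'

/-- `Sol` is transported along an embedding such that residually transcendental elements stay so. -/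
theorem sol_map {K K' M L' : Type u} [Field K] [Field K'] [Field M] [Field L'] [Algebra K M]
    [Algebra K' L'] {O : ValuationSubring K} {O' : ValuationSubring K'} {τ : K →+* K'}
    (hτ : O'.comap τ = O) {η : M →+* L'}
    (hcomm : ∀ a, η (algebraMap K M a) = algebraMap K' L' (τ a)) {v : ValuationSubring M}
    {w : ValuationSubring L'} (hvw : w.comap η = v)
    (hP : ∀ x ∈ v, ∀ y ∈ O', η x - algebraMap K' L' y ∈ w.nonunits → ∃ c : K,
      algebraMap K M c ∈ v ∧ x - algebraMap K M c ∈ v.nonunits) (hv : Over O v)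
    (G : O[X][X]) (h : Sol O v G) : Sol O' w (G.map (mapRingHom (valHom τ hτ))) := by
  obtain ⟨x, y, ⟨hx, hx'⟩, hy, hG⟩ := h
  refine ⟨η x, η y, ⟨?_, ?_⟩, ?_, ?_⟩
  · rw [map_mem_iff η hvw]
    exact hx
  · intro a ha hcon
    obtain ⟨c, hc, hc'⟩ := hP x hx a ha hcon
    exact hx' c ((Over.mem_iff hv c).1 hc) hc'
  · rw [map_mem_iff η hvw]
    exact hy
  · rw [evalAt_map]
    have h1 : ((algebraMap K' L').comp O'.subtype).comp (valHom τ hτ) =
        η.comp ((algebraMap K M).comp O.subtype) := by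
      ext a
      exact (hcomm a).symm
    rw [h1, ← map_evalAt, map_mem_nonunits_iff η hvw]
    exact hG

/-- The chain of reductions. -/
theorem chain {F K : Type u} [Field F] [IsAlgClosed F] [Field K] [IsAlgClosed K]
    {O : ValuationSubring K} (hO : RankOne O) (φ : F →+* K) (ϖ : F) (hϖ0 : ϖ ≠ 0)
    (hϖ : φ ϖ ∈ O.nonunits) (c : O) (hc : ∀ a : F, φ a ∈ O → (c : K) - φ a ∉ O.nonunits)
    (G : O[X][X])
    (hNP : ∀ (K' : Type u) [Field K'] [IsAlgClosed K'] (O' : ValuationSubring K') (τ : K →+* K')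
      (hτ : O'.comap τ = O), NoParam O' (G.map (mapRingHom (valHom τ hτ))))
    (hconst : ∀ (k' M B : Type u) [Field k'] [IsAlgClosed k'] [Field M] [CommRing B] [IsDomain B]
      [Algebra (IsLocalRing.ResidueField O) B] [Algebra (IsLocalRing.ResidueField O)[X] B]
      [IsScalarTower (IsLocalRing.ResidueField O) (IsLocalRing.ResidueField O)[X] B]
      [Algebra.IsStandardEtale (IsLocalRing.ResidueField O)[X] B] (κ' : k' →+* M)
      (σ' τ' : IsLocalRing.ResidueField O →+* k') (ι : B →+* M)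
      (_ : FracExt (algebraMap (IsLocalRing.ResidueField O) B) κ' σ' ι)
      (_ : τ' (IsLocalRing.residue O c) ∉ σ'.range) (x y : M) (_ : ∀ a : k', x ≠ κ' a)
      (_ : evalAt (κ'.comp (τ'.comp (IsLocalRing.residue O))) G x y = 0), False)
    {X₁ C₁ : Scheme.{u}} [IsIntegral C₁] {f₁ : X₁ ⟶ Spec (.of O)} {g₁ : C₁ ⟶ Spec (.of K)}
    [Smooth g₁] (hX₁ : SemistableModel O f₁ g₁)
    (htr₁ : letI := (toFunctionField g₁).toAlgebra
      ∃ x : C₁.functionField, Transcendental K x ∧
        Algebra.IsAlgebraic (Algebra.adjoin K {x}) C₁.functionField)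
    (hsol₁ : letI := (toFunctionField g₁).toAlgebra
      ∃ w : ValuationSubring C₁.functionField, Over O w ∧ Sol O w G)
    {X₀ Y C₂ X₂ : Scheme.{u}} {s : X₀ ⟶ Spec (.of F)} [Smooth s] {t : Y ⟶ Spec (.of K)}
    [Smooth t] [IsIntegral Y] {i : Y ⟶ X₀}
    (H : IsPullback i t s (Spec.map (CommRingCat.ofHom φ))) (T : TwoCharts s) [IsIntegral C₂]
    (π : C₂ ⟶ Y) [IsFinite π] [Etale π] {f₂ : X₂ ⟶ Spec (.of O)}
    (hX₂ : SemistableModel O f₂ (π ≫ t))
    (htr₂ : letI := (toFunctionField (π ≫ t)).toAlgebra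
      ∃ x : C₂.functionField, Transcendental K x ∧
        Algebra.IsAlgebraic (Algebra.adjoin K {x}) C₂.functionField)
    (e : specialFibre O f₁ ≅ specialFibre O f₂)
    (he : e.hom ≫ pullback.snd f₂ (resPt O) = pullback.snd f₁ (resPt O)) : False := by
  -- a chart of the special fibre of the first model
  obtain ⟨w₁, hw₁, hs₁⟩ := hsol₁
  have hO1 : O.comap (RingHom.id K) = O := rfl
  have hid : valHom (RingHom.id K) hO1 = RingHom.id O := by
    ext a
    rfl
  have hNP₁ : NoParam O G := by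
    have h1 := hNP K O (RingHom.id K) hO1
    have h2 : G.map (mapRingHom (valHom (RingHom.id K) hO1)) = G := by
      rw [hid, mapRingHom_id, Polynomial.map_id]
    rwa [h2] at h1
  let A₁ : Algebra K C₁.functionField := (toFunctionField g₁).toAlgebra
  obtain ⟨s₁, ι₁, hι₁⟩ := relative_key (K := K) (K' := K) (L' := C₁.functionField) (O' := O)
    (σ := RingHom.id K) hO hO hO1 (f := f₁) (g := g₁) htr₁
    (θ := RingHom.id C₁.functionField) (FracExt.refl (toFunctionField g₁)) G hNP₁ hw₁ hs₁ hX₁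
  have hsurj : Function.Surjective (resHom (RingHom.id K) hO1) := by
    intro a
    obtain ⟨a, rfl⟩ := IsLocalRing.residue_surjective a
    exact ⟨IsLocalRing.residue O a, by rw [resHom_residue, hid]; rfl⟩
  obtain ⟨hinj₁, hfrac₁⟩ := hι₁.fraction hsurj
  obtain ⟨x₁, y₁, hx₁, hxy₁⟩ := (sol_iff_residue hw₁ G).1 hs₁
  have hcomp : ι₁.comp (algebraMap (IsLocalRing.ResidueField O) s₁.B) = resMap hw₁ := by
    ext a
    obtain ⟨a, rfl⟩ := IsLocalRing.residue_surjective a
    rw [RingHom.comp_apply, hι₁.comm, resHom_residue, hid]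
    rfl
  -- transport to the second model
  obtain ⟨w₂, hw₂, hs₂⟩ := exists_sol_of_special (g := π ≫ t) hX₂.toFlatModel (s₁.trans e he)
    ι₁ hinj₁ hfrac₁ G x₁ y₁ (fun a => by
      have h1 := hx₁ a
      rw [← hcomp] at h1
      exact h1) (by
      have h1 := hxy₁
      rw [← hcomp] at h1
      exact h1)
  -- two copies
  obtain ⟨K', _, _, O', σ, τ, hO', hσ, hτ, hστ, hind⟩ := exists_rankOne_amalgam φ O hO ϖ hϖ0 hϖ
  obtain ⟨L', _, _, θ, η, hθ, hη⟩ := exists_double_embedding φ σ τ hστ H T π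
  let A₂ : Algebra K C₂.functionField := (toFunctionField (π ≫ t)).toAlgebra
  obtain ⟨W, hW₁, hW₂, hW⟩ := exists_amalgam (toFunctionField (π ≫ t)) τ η (algebraMap K' L')
    (RingHom.ext hη.comm) hη.lin w₂ O' (by rw [hτ]; exact hw₂)
  have hsolW : Sol O' W (G.map (mapRingHom (valHom τ hτ))) :=
    sol_map hτ (η := η) hη.comm hW₁ hW hw₂ G hs₂
  obtain ⟨s₂, ι₂, hι₂⟩ := relative_key (K := K) (K' := K') (L' := L') (O' := O') (σ := σ) hO hO'
    hσ (f := f₂) (g := π ≫ t) htr₂ (θ := θ) hθ _ (hNP K' O' τ hτ) hW₂ hsolW hX₂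
  obtain ⟨x, y, hx, hxy⟩ := (sol_iff_residue hW₂ _).1 hsolW
  have := residueField_isAlgClosed O'
  refine hconst _ _ s₂.B (resMap hW₂) (resHom σ hσ) (resHom τ hτ) ι₂ hι₂
    (resHom_notMem_range φ hσ hτ hστ hind c hc) x y hx ?_
  rw [evalAt_map] at hxy
  exact hxy

end Pool.Agent.Lib.MP_211349_ag
end
end

section

/-!
# No nonconstant maps from a constant curve to a moving curve
-/

open Polynomial TensorProduct IntermediateField

universe u

noncomputable section

namespace Pool.Agent.Lib.MP_211349_ag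

-- BEGIN CO1
/-- A valuation ring of `E` dominating the localization of `D` at the kernel of `Ψ`. -/
private theorem CO1_dominate {D E C : Type*} [CommRing D] [Field E] [CommRing C] [IsDomain C]
    (Φ : D →+* E) (hΦ : Function.Injective Φ) (Ψ : D →+* C) :
    ∃ W : ValuationSubring E, (∀ d, Φ d ∈ W) ∧ ∀ d, Φ d ∈ W.nonunits ↔ Ψ d = 0 := by
  let P : Ideal D := RingHom.ker Ψ
  have hP : P.IsPrime := RingHom.ker_isPrime Ψ
  have hg : ∀ y : P.primeCompl, IsUnit (Φ y) := by
    intro y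
    refine IsUnit.mk0 _ fun h0 => y.2 ?_
    have h1 : (y : D) = 0 := hΦ (by rw [h0, map_zero])
    show (y : D) ∈ P
    rw [h1]
    exact zero_mem P
  let f : Localization.AtPrime P →+* E := IsLocalization.lift (M := P.primeCompl) hg
  have hf : ∀ d, f (algebraMap D (Localization.AtPrime P) d) = Φ d := fun d =>
    IsLocalization.lift_eq hg d
  obtain ⟨W, h, hloc⟩ := IsLocalRing.exists_factor_valuationRing f
  have hmem : ∀ d, Φ d ∈ W := by
    intro d
    rw [← hf d]
    exact h _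
  refine ⟨W, hmem, fun d => ?_⟩
  have h1 : Φ d ∈ W.nonunits ↔ ¬ IsUnit (⟨Φ d, hmem d⟩ : W) := by
    have h2 := ValuationSubring.coe_mem_nonunits_iff (A := W) (a := ⟨Φ d, hmem d⟩)
    rw [IsLocalRing.mem_maximalIdeal, mem_nonunits_iff] at h2
    exact h2
  have h3 : (⟨Φ d, hmem d⟩ : W) =
      (f.codRestrict W.toSubring h) (algebraMap D (Localization.AtPrime P) d) := by
    apply Subtype.ext
    exact (hf d).symm
  rw [h1, h3]
  have h4 : IsUnit ((f.codRestrict W.toSubring h) (algebraMap D (Localization.AtPrime P) d)) ↔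
      IsUnit (algebraMap D (Localization.AtPrime P) d) :=
    ⟨fun hu => hloc.map_nonunit _ hu, fun hu => hu.map _⟩
  have h5 : IsUnit (algebraMap D (Localization.AtPrime P) d) ↔ d ∈ P.primeCompl :=
    IsLocalization.AtPrime.isUnit_to_map_iff _ P d
  have h6 : d ∈ P.primeCompl ↔ ¬ Ψ d = 0 := Iff.rfl
  rw [h4, h5, h6, not_not]

/-- powers of `γ` are the only values of polynomials in `γ` -/
private theorem CO1_pow {A E : Type*} [CommRing A] [Field E] [Algebra A E] (γ : E)
    (V : ValuationSubring E) (h1 : ∀ q : A[X], aeval γ q ∈ V)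
    (h2 : ∀ q : A[X], aeval γ q ∈ V.nonunits ↔ q.coeff 0 = 0) (N : ℕ) (q : A[X])
    (hq : q ≠ 0) (hN : q.natDegree ≤ N) :
    ∃ n : ℕ, V.valuation (aeval γ q) = V.valuation γ ^ n := by
  induction N generalizing q with
  | zero =>
    refine ⟨0, ?_⟩
    rw [pow_zero]
    have h0 : q.coeff 0 ≠ 0 := by
      intro h0
      apply hq
      rw [Polynomial.eq_C_of_natDegree_le_zero hN, h0, C_0]
    have h3 := (h2 q).not.2 h0
    rw [ValuationSubring.mem_nonunits_iff, not_lt] at h3
    exact le_antisymm ((V.valuation_le_one_iff _).2 (h1 q)) h3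
  | succ N ih =>
    by_cases h0 : q.coeff 0 = 0
    · have h3 : q = divX q * X := by
        conv_lhs => rw [← divX_mul_X_add q, h0, C_0, add_zero]
      have h4 : divX q ≠ 0 := by
        intro h5
        apply hq
        rw [h3, h5, zero_mul]
      obtain ⟨n, hn⟩ := ih (divX q) h4 (by rw [natDegree_divX_eq_natDegree_tsub_one]; omega)
      refine ⟨n + 1, ?_⟩
      rw [h3, map_mul, map_mul, hn, aeval_X, pow_succ]
    · refine ⟨0, ?_⟩
      rw [pow_zero]
      have h3 := (h2 q).not.2 h0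
      rw [ValuationSubring.mem_nonunits_iff, not_lt] at h3
      exact le_antisymm ((V.valuation_le_one_iff _).2 (h1 q)) h3

/-- two terms of a vanishing sum have the same value -/
private theorem CO1_sum {E Γ ι : Type*} [Field E] [LinearOrderedCommGroupWithZero Γ]
    (v : Valuation E Γ) (s : Finset ι) (f : ι → E) (hs : ∑ i ∈ s, f i = 0) (i₀ : ι) (hi₀ : i₀ ∈ s)
    (hf : f i₀ ≠ 0) : ∃ i ∈ s, ∃ j ∈ s, i ≠ j ∧ f i ≠ 0 ∧ v (f i) = v (f j) := by
  classical
  obtain ⟨i, hi, hmax⟩ := s.exists_max_image (fun i => v (f i)) ⟨i₀, hi₀⟩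
  have hi1 : v (f i) ≠ 0 := by
    intro h0
    have h1 := hmax i₀ hi₀
    simp only [h0] at h1
    exact hf (v.zero_iff.1 (le_antisymm h1 zero_le))
  have hi0 : f i ≠ 0 := fun h0 => hi1 (by rw [h0, map_zero])
  by_contra hcon
  push Not at hcon
  have hlt : ∀ j ∈ s.erase i, v (f j) < v (f i) := by
    intro j hj
    rw [Finset.mem_erase] at hj
    exact lt_of_le_of_ne (hmax j hj.2) fun h => hcon i hi j hj.2 hj.1.symm hi0 h.symm
  have h1 : v (∑ j ∈ s.erase i, f j) < v (f i) := v.map_sum_lt hi1 hlt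
  have h2 : f i = - ∑ j ∈ s.erase i, f j := by
    rw [← Finset.add_sum_erase s f hi] at hs
    exact eq_neg_of_add_eq_zero_left hs
  rw [← Valuation.map_neg, ← h2] at h1
  exact lt_irrefl _ h1

private theorem CO1_alg {B E Γ : Type*} [CommRing B] [IsDomain B] [Field E] [Algebra B E]
    [LinearOrderedCommGroupWithZero Γ] (v : Valuation E Γ) (γ : E) (hγ : γ ≠ 0)
    (hB : ∀ b : B, b ≠ 0 → ∃ n : ℕ, v (algebraMap B E b) = v γ ^ n) (x : E) (hx0 : x ≠ 0)
    (hx : IsAlgebraic B x) : ∃ m : ℕ, 0 < m ∧ ∃ j : ℤ, v x ^ m = v γ ^ j := by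
  obtain ⟨P, hP, hPx⟩ := hx
  have hs : ∑ i ∈ P.support, algebraMap B E (P.coeff i) * x ^ i = 0 := by
    rw [← hPx, aeval_def, eval₂_eq_sum, Polynomial.sum_def]
  have hγv : v γ ≠ 0 := (Valuation.ne_zero_iff _).2 hγ
  have hxv : v x ≠ 0 := (Valuation.ne_zero_iff _).2 hx0
  have hne : ∀ i ∈ P.support, algebraMap B E (P.coeff i) * x ^ i ≠ 0 := by
    intro i hi
    obtain ⟨n, hn⟩ := hB (P.coeff i) (mem_support_iff.1 hi)
    have h1 : algebraMap B E (P.coeff i) ≠ 0 := by
      rw [← Valuation.ne_zero_iff v, hn]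
      exact pow_ne_zero _ hγv
    exact mul_ne_zero h1 (pow_ne_zero _ hx0)
  have hi₀ : P.natDegree ∈ P.support := natDegree_mem_support_of_nonzero hP
  obtain ⟨i, hi, j, hj, hij, -, hv⟩ := CO1_sum v P.support _ hs _ hi₀ (hne _ hi₀)
  obtain ⟨n, hn⟩ := hB (P.coeff i) (mem_support_iff.1 hi)
  obtain ⟨m, hm⟩ := hB (P.coeff j) (mem_support_iff.1 hj)
  rw [map_mul, map_mul, map_pow, map_pow, hn, hm] at hv
  have key : ∀ (n m i j : ℕ), v γ ^ n * v x ^ i = v γ ^ m * v x ^ j → i < j →
      ∃ m : ℕ, 0 < m ∧ ∃ j : ℤ, v x ^ m = v γ ^ j := by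
    intro n m i j h hlt
    refine ⟨j - i, by omega, (n : ℤ) - m, ?_⟩
    rw [zpow_sub₀ hγv, zpow_natCast, zpow_natCast, eq_div_iff (pow_ne_zero _ hγv)]
    have h1 : v x ^ j = v x ^ (j - i) * v x ^ i := by
      rw [← pow_add]
      congr 1
      omega
    rw [h1] at h
    have h2 := mul_right_cancel₀ (pow_ne_zero i hxv)
      (show v γ ^ n * v x ^ i = (v γ ^ m * v x ^ (j - i)) * v x ^ i by rw [h, mul_assoc])
    rw [h2, mul_comm]
  rcases lt_or_gt_of_ne hij with h | h
  · exact key n m i j hv h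
  · exact key m n j i hv.symm h

/-- (CO1) A valuation ring of rank one containing `σ k`, with `γ` in its maximal ideal. `γ` is transcendental over `σ k` (`k` is algebraically closed). Let `{γ} ∪ S` be a transcendence
basis of `k'` over `k` and `E = k(S)` (an intermediate field), so that `γ` is transcendental over `E` and `k'` is algebraic over `E(γ)`. Let `V` be a valuation ring of `k'` dominating the
localization of `E[γ]` at `(γ)` (`IsLocalRing.exists_factor_valuationRing`). Every nonzero element of `E(γ)` is `γ ^ j u`, `j ∈ ℤ`, `u` a unit of `V`. For `x ∈ k'`, `x ≠ 0`, algebraic over `E(γ)`: two terms of an equation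
of `x` have the same valuation, hence `|x| ^ m = |γ| ^ j` for some `m ≥ 1`, `j ∈ ℤ`. Hence `V` has rank one: for a nonunit `a` and `b ≠ 0` in `V`, `|a| ^ m = |γ| ^ j`, `j ≥ 1`, `|b| ^ m' = |γ| ^ j'`,
so `|a| ^ (m j') ≤ |γ| ^ j' = |b| ^ m' ≤ |b|`. -/
theorem exists_rankOne_valuation {k k' : Type u} [Field k] [IsAlgClosed k] [Field k']
    (σ : k →+* k') (γ : k') (hγ : γ ∉ σ.range) :
    ∃ V : ValuationSubring k', RankOne V ∧ (∀ a : k, σ a ∈ V) ∧ γ ∈ V.nonunits := by
  let _ : Algebra k k' := σ.toAlgebra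
  have hγ0 : γ ≠ 0 := by
    rintro rfl
    exact hγ ⟨0, map_zero σ⟩
  have htr : Transcendental k γ := by
    intro halg
    have hint : IsIntegral k γ := halg.isIntegral
    have hdeg := IsAlgClosed.degree_eq_one_of_irreducible k (minpoly.irreducible hint)
    exact hγ (minpoly.mem_range_of_degree_eq_one k γ hdeg)
  have hind : AlgebraicIndepOn k id ({γ} : Set k') :=
    (algebraicIndependent_singleton_iff (⟨γ, rfl⟩ : ({γ} : Set k'))).2 htr
  obtain ⟨t, ht, hbas⟩ := exists_isTranscendenceBasis_superset hind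
  have hγt : γ ∈ t := ht rfl
  have hts : insert γ (t \ {γ}) = t := by
    rw [Set.insert_sdiff_singleton, Set.insert_eq_of_mem hγt]
  have hind2 : AlgebraicIndepOn k id (insert γ (t \ {γ})) := by
    rw [hts]
    exact hbas.1
  have htrA : Transcendental (Algebra.adjoin k (t \ {γ})) γ := by
    have h1 := ((AlgebraicIndepOn.insert_iff (by simp)).1 hind2).2
    rwa [Set.image_id] at h1
  obtain ⟨V, hV1, hV2⟩ := CO1_dominate
    (aeval (R := Algebra.adjoin k (t \ {γ})) γ).toRingHom
    (transcendental_iff_injective.1 htrA) constantCoeff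
  have hV1' : ∀ q : (Algebra.adjoin k (t \ {γ}))[X], aeval γ q ∈ V := hV1
  have hV2' : ∀ q : (Algebra.adjoin k (t \ {γ}))[X], aeval γ q ∈ V.nonunits ↔ q.coeff 0 = 0 := hV2
  have hγV : γ ∈ V.nonunits := by
    have h1 := (hV2' X).2 (by simp)
    rwa [aeval_X] at h1
  have hkV : ∀ a : k, σ a ∈ V := by
    intro a
    have h1 := hV1' (C (algebraMap k _ a))
    rw [aeval_C] at h1
    exact h1
  -- elements of the subalgebra generated by the transcendence basis
  have hadj : ∀ b ∈ Algebra.adjoin k t, ∃ q : (Algebra.adjoin k (t \ {γ}))[X], aeval γ q = b := by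
    intro b hb
    induction hb using Algebra.adjoin_induction with
    | mem x hx =>
      by_cases h : x = γ
      · exact ⟨X, by rw [aeval_X, h]⟩
      · exact ⟨C ⟨x, Algebra.subset_adjoin ⟨hx, h⟩⟩, by rw [aeval_C]; rfl⟩
    | algebraMap r => exact ⟨C (algebraMap k _ r), by rw [aeval_C]; rfl⟩
    | add x y _ _ hx hy =>
      obtain ⟨p, rfl⟩ := hx
      obtain ⟨q, rfl⟩ := hy
      exact ⟨p + q, map_add _ _ _⟩
    | mul x y _ _ hx hy =>
      obtain ⟨p, rfl⟩ := hx
      obtain ⟨q, rfl⟩ := hy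
      exact ⟨p * q, map_mul _ _ _⟩
  have hB : ∀ b : Algebra.adjoin k t, b ≠ 0 → ∃ n : ℕ,
      V.valuation (algebraMap (Algebra.adjoin k t) k' b) = V.valuation γ ^ n := by
    rintro ⟨b, hb⟩ hb0
    obtain ⟨q, rfl⟩ := hadj b hb
    refine CO1_pow γ V hV1' hV2' _ q ?_ le_rfl
    intro hq
    apply hb0
    apply Subtype.ext
    show aeval γ q = 0
    rw [hq, map_zero]
  have halg : ∀ x : k', IsAlgebraic (Algebra.adjoin k t) x := by
    have h1 := hbas.isAlgebraic
    rw [Subtype.range_coe] at h1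
    exact h1.isAlgebraic
  have key : ∀ x : k', x ≠ 0 → ∃ m : ℕ, 0 < m ∧ ∃ j : ℤ,
      V.valuation x ^ m = V.valuation γ ^ j := fun x hx =>
    CO1_alg V.valuation γ hγ0 hB x hx (halg x)
  have hγ1 : V.valuation γ < 1 := (ValuationSubring.mem_nonunits_iff V).1 hγV
  have hγv : V.valuation γ ≠ 0 := (Valuation.ne_zero_iff _).2 hγ0
  refine ⟨V, ⟨⟨⟨γ, V.nonunits_le hγV⟩, ?_, ?_⟩, ?_⟩, hkV, hγV⟩
  · intro h
    exact hγ0 (congrArg Subtype.val h)
  · exact (ValuationSubring.coe_mem_nonunits_iff (A := V) (a := ⟨γ, V.nonunits_le hγV⟩)).1 hγV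
  · rintro ⟨a, ha⟩ ⟨b, hb⟩ hau hb0
    have ha1 : V.valuation a < 1 := (ValuationSubring.mem_nonunits_iff V).1
      ((ValuationSubring.coe_mem_nonunits_iff (A := V) (a := ⟨a, ha⟩)).2 hau)
    have hb1 : b ≠ 0 := fun h => hb0 (Subtype.ext h)
    have hb2 : V.valuation b ≤ 1 := (V.valuation_le_one_iff _).2 hb
    rcases eq_or_ne a 0 with rfl | ha0
    · refine ⟨1, ?_⟩
      rw [pow_one]
      exact dvd_zero _
    obtain ⟨m, hm, j, hj⟩ := key a ha0
    obtain ⟨m', hm', j', hj'⟩ := key b hb1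
    have hj1 : 1 ≤ j := by
      by_contra hcon
      have h1 : V.valuation a ^ m < 1 := pow_lt_one₀ zero_le ha1 hm.ne'
      rw [hj] at h1
      have h2 : (1 : _) ≤ V.valuation γ ^ j := one_le_zpow_of_nonpos₀ (zero_lt_iff.2 hγv) hγ1.le (by omega)
      exact absurd h1 (not_lt.2 h2)
    have hle : V.valuation (a ^ (m * j'.natAbs)) ≤ V.valuation b := by
      rw [map_pow, pow_mul, hj, ← zpow_natCast, ← zpow_mul]
      calc V.valuation γ ^ (j * (j'.natAbs : ℤ)) ≤ V.valuation γ ^ j' := by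
            refine zpow_le_zpow_right_of_le_one₀ (zero_lt_iff.2 hγv) hγ1.le ?_
            have h3 : j' ≤ (j'.natAbs : ℤ) := by omega
            have h4 : (0 : ℤ) ≤ (j'.natAbs : ℤ) := by omega
            nlinarith
        _ = V.valuation b ^ m' := hj'.symm
        _ ≤ V.valuation b := pow_le_of_le_one zero_le hb2 hm'.ne'
    refine ⟨m * j'.natAbs, ⟨b⁻¹ * a ^ (m * j'.natAbs), ?_⟩, ?_⟩
    · rw [← V.valuation_le_one_iff, map_mul, map_inv₀]
      rw [inv_mul_le_iff₀ (zero_lt_iff.2 ((Valuation.ne_zero_iff _).2 hb1)), mul_one]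
      exact hle
    · apply Subtype.ext
      show a ^ (m * j'.natAbs) = b * (b⁻¹ * a ^ (m * j'.natAbs))
      rw [mul_inv_cancel_left₀ hb1]
-- END CO1

-- BEGIN CO2
open scoped IntermediateField.algebraAdjoinAdjoin in
private theorem CO2_core {k M₀ : Type u} [Field k] [IsAlgClosed k] [Field M₀] [Algebra k M₀]
    (S : M₀) [FiniteDimensional k⟮S⟯ M₀] [Algebra.IsSeparable k⟮S⟯ M₀] (v : ValuationSubring M₀)
    (hk : ∀ a : k, algebraMap k M₀ a ∈ v) (hS : S ∈ v) (hv : ∃ b, b ∉ v) :
    ∃ T ∈ v.nonunits, ∀ z ∈ v, ∃ (c : k), ∃ y ∈ v, z = algebraMap k M₀ c + T * y := by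
  classical
  set A := Algebra.adjoin k {S} with hAdef
  let vA : Subalgebra k M₀ := { v.toSubring with algebraMap_mem' := hk }
  have hA : A ≤ vA := Algebra.adjoin_le (by
    intro z hz
    rw [Set.mem_singleton_iff] at hz
    subst hz
    exact hS)
  have hAv : ∀ a : A, (a : M₀) ∈ v := fun a => hA a.2
  have hgen : ∀ a : A, ∃ f : k[X], (a : M₀) = aeval S f := by
    intro a
    have h1 : (a : M₀) ∈ (aeval S : k[X] →ₐ[k] M₀).range := by
      rw [← Algebra.adjoin_singleton_eq_range_aeval]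
      exact a.2
    obtain ⟨f, hf⟩ := h1
    exact ⟨f, hf.symm⟩
  have hsurj : Function.Surjective
      (aeval (⟨S, Algebra.self_mem_adjoin_singleton k S⟩ : A) : k[X] →ₐ[k] A) := by
    intro a
    obtain ⟨f, hf⟩ := hgen a
    refine ⟨f, Subtype.ext ?_⟩
    rw [hf]
    exact Polynomial.coe_aeval_mk_apply ..
  have hpid : IsPrincipalIdealRing A := IsPrincipalIdealRing.of_surjective
    (aeval (⟨S, Algebra.self_mem_adjoin_singleton k S⟩ : A) : k[X] →ₐ[k] A).toRingHom hsurj
  have hded : IsDedekindDomain (integralClosure A M₀) :=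
    integralClosure.isDedekindDomain A k⟮S⟯ M₀
  set D := integralClosure A M₀ with hDdef
  have hfracD : IsFractionRing D M₀ :=
    integralClosure.isFractionRing_of_finite_extension k⟮S⟯ M₀
  -- `D` is contained in `v`
  have hDv : ∀ d : D, algebraMap D M₀ d ∈ v := by
    intro d
    let _ : Algebra A v := ((algebraMap A M₀).codRestrict v hAv).toAlgebra
    have _ : IsScalarTower A v M₀ := IsScalarTower.of_algebraMap_eq fun _ => rfl
    have h1 : IsIntegral A (d : M₀) := d.2
    have h2 : IsIntegral v (d : M₀) := h1.tower_top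
    obtain ⟨y, hy⟩ := IsIntegrallyClosed.isIntegral_iff.mp h2
    change (d : M₀) ∈ v
    rw [← hy]
    exact y.2
  let ψ : D →+* v := (algebraMap D M₀).codRestrict v hDv
  let P : Ideal D := (IsLocalRing.maximalIdeal v).comap ψ
  have hPprime : P.IsPrime := Ideal.IsPrime.comap ψ
  have hPmem : ∀ d : D, d ∈ P ↔ v.valuation (algebraMap D M₀ d) < 1 := by
    intro d
    change ψ d ∈ IsLocalRing.maximalIdeal v ↔ _
    rw [ValuationSubring.valuation_lt_one_iff]
    rfl
  have hle : ∀ d : D, v.valuation (algebraMap D M₀ d) ≤ 1 := fun d =>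
    (v.valuation_le_one_iff _).mpr (hDv d)
  have hone : ∀ s : D, s ∉ P → v.valuation (algebraMap D M₀ s) = 1 := by
    intro s hs
    rw [hPmem, not_lt] at hs
    exact le_antisymm (hle s) hs
  have hP0 : P ≠ ⊥ := by
    intro h
    obtain ⟨b, hb⟩ := hv
    obtain ⟨a, s, hs, rfl⟩ := IsFractionRing.div_surjective (A := D) b
    apply hb
    have hs0 : s ≠ 0 := nonZeroDivisors.ne_zero hs
    have hsP : s ∉ P := by
      rw [h, Ideal.mem_bot]
      exact hs0
    rw [← v.valuation_le_one_iff, map_div₀, hone s hsP, div_one]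
    exact hle a
  -- the localization
  let O := Localization.subalgebra.ofField M₀ P.primeCompl P.primeCompl_le_nonZeroDivisors
  have hloc : IsLocalization.AtPrime O P :=
    Localization.subalgebra.isLocalization_ofField M₀ P.primeCompl
      P.primeCompl_le_nonZeroDivisors
  have hdvr : IsDiscreteValuationRing O :=
    IsLocalization.AtPrime.isDiscreteValuationRing_of_dedekind_domain D hP0 O
  have hOfrac : IsFractionRing O M₀ :=
    Localization.subalgebra.isFractionRing_ofField M₀ P.primeCompl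
      P.primeCompl_le_nonZeroDivisors
  have hOmem : ∀ z : M₀, z ∈ O ↔ ∃ a s : D, s ∉ P ∧
      z = algebraMap D M₀ a * (algebraMap D M₀ s)⁻¹ := by
    intro z
    constructor
    · rintro ⟨a, s, hs, h⟩
      exact ⟨a, s, hs, h⟩
    · rintro ⟨a, s, hs, h⟩
      exact ⟨a, s, hs, h⟩
  have hOv : ∀ z : M₀, z ∈ O → z ∈ v := by
    intro z hz
    obtain ⟨a, s, hs, rfl⟩ := (hOmem z).mp hz
    rw [← v.valuation_le_one_iff, map_mul, map_inv₀, hone s hs, inv_one, mul_one]
    exact hle a
  have hvO : ∀ z : M₀, z ∈ v → z ∈ O := by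
    intro z hz
    by_cases hz0 : z = 0
    · rw [hz0]
      exact O.zero_mem
    rcases ValuationRing.isInteger_or_isInteger O z with ⟨y, hy⟩ | ⟨y, hy⟩
    · rw [← hy]
      exact y.2
    · obtain ⟨a, s, hs, h⟩ := (hOmem _).mp y.2
      have hy' : z⁻¹ = algebraMap D M₀ a * (algebraMap D M₀ s)⁻¹ := by
        rw [← hy]
        exact h
      have hs0 : algebraMap D M₀ s ≠ 0 := by
        intro h0
        have h1 := hone s hs
        rw [h0, map_zero] at h1
        exact zero_ne_one h1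
      have ha0 : algebraMap D M₀ a ≠ 0 := by
        intro h0
        rw [h0, zero_mul, inv_eq_zero] at hy'
        exact hz0 hy'
      have hz' : z = algebraMap D M₀ s * (algebraMap D M₀ a)⁻¹ := by
        rw [← inv_inv z, hy', mul_inv, inv_inv, mul_comm]
      by_cases haP : a ∈ P
      · exfalso
        have h1 : algebraMap D M₀ s = z * algebraMap D M₀ a := by
          rw [hz', mul_assoc, inv_mul_cancel₀ ha0, mul_one]
        have h2 := hone s hs
        rw [h1, map_mul] at h2
        have h3 := (hPmem a).mp haP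
        have h4 := (v.valuation_le_one_iff z).mpr hz
        have h5 : v.valuation z * v.valuation (algebraMap D M₀ a) < 1 :=
          (mul_le_of_le_one_left' h4).trans_lt h3
        exact absurd h2 h5.ne
      · exact (hOmem z).mpr ⟨s, a, haP, hz'⟩
  have hlocal : IsLocalRing O := hdvr.toIsLocalRing
  -- a uniformizer
  obtain ⟨ϖ, hϖ⟩ := IsDiscreteValuationRing.exists_irreducible O
  have hmaxO : ∀ z : M₀, v.valuation z < 1 → ∃ y ∈ v, z = (ϖ : M₀) * y := by
    intro z hz
    have hzv : z ∈ v := (v.valuation_le_one_iff z).mp hz.le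
    have h1 : (⟨z, hvO z hzv⟩ : O) ∈ IsLocalRing.maximalIdeal O := by
      rw [IsLocalRing.mem_maximalIdeal, mem_nonunits_iff]
      rintro ⟨u, hu⟩
      have h2 : z * ((u⁻¹ : Oˣ) : O) = 1 := by
        have h3 := congrArg (fun w : O => (w : M₀)) u.mul_inv
        simp only [hu] at h3
        exact h3
      have h4 := hOv _ ((u⁻¹ : Oˣ) : O).2
      rw [← v.valuation_le_one_iff] at h4
      have h5 : v.valuation z * v.valuation (((u⁻¹ : Oˣ) : O) : M₀) = 1 := by
        rw [← map_mul, h2, map_one]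
      exact absurd h5 ((mul_le_of_le_one_right' h4).trans_lt hz).ne
    rw [hϖ.maximalIdeal_eq, Ideal.mem_span_singleton] at h1
    obtain ⟨y, hy⟩ := h1
    exact ⟨y, hOv _ y.2, congrArg (fun w : O => (w : M₀)) hy⟩
  have hTv : v.valuation (ϖ : M₀) < 1 := by
    have h1 := (v.valuation_le_one_iff _).mpr (hOv _ ϖ.2)
    refine lt_of_le_of_ne h1 fun h2 => ?_
    have hϖ0 : (ϖ : M₀) ≠ 0 := by
      intro h0
      rw [h0, map_zero] at h2
      exact zero_ne_one h2
    have h3 : (ϖ : M₀)⁻¹ ∈ v := by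
      rw [← v.valuation_le_one_iff, map_inv₀, h2, inv_one]
    apply hϖ.not_isUnit
    refine IsUnit.of_mul_eq_one ⟨(ϖ : M₀)⁻¹, hvO _ h3⟩ ?_
    exact Subtype.ext (mul_inv_cancel₀ hϖ0)
  -- residues
  let κ := IsLocalRing.ResidueField v
  let ρ : v →+* κ := IsLocalRing.residue v
  let ιk : k →+* v := (algebraMap k M₀).codRestrict v hk
  let _ : Algebra k κ := (ρ.comp ιk).toAlgebra
  have hρ : ∀ w : v, ρ w = 0 ↔ v.valuation (w : M₀) < 1 := by
    intro w
    rw [← ValuationSubring.valuation_lt_one_iff]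
    exact IsLocalRing.residue_eq_zero_iff w
  have halgc : ∀ e : κ, IsIntegral k e → ∃ c : k, algebraMap k κ c = e := by
    intro e he
    have h1 := IsAlgClosed.degree_eq_one_of_irreducible k (minpoly.irreducible he)
    exact minpoly.mem_range_of_degree_eq_one k e h1
  have haev : ∀ f : k[X], ∀ hf : aeval S f ∈ v,
      ρ ⟨aeval S f, hf⟩ = aeval (ρ ⟨S, hS⟩) f := by
    intro f hf
    have h1 : (⟨aeval S f, hf⟩ : v) = eval₂ ιk ⟨S, hS⟩ f := by
      apply Subtype.ext
      change aeval S f = v.subtype (eval₂ ιk ⟨S, hS⟩ f)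
      rw [hom_eval₂]
      rfl
    rw [h1, hom_eval₂]
    rfl
  have hx : ∃ c₀ : k, algebraMap k κ c₀ = ρ ⟨S, hS⟩ := by
    apply halgc
    rw [← isAlgebraic_iff_isIntegral]
    have h1 : P.comap (algebraMap A D) ≠ ⊥ := Ideal.IsIntegral.comap_ne_bot A hP0
    obtain ⟨a, haP, ha0⟩ := Submodule.exists_mem_ne_zero_of_ne_bot h1
    obtain ⟨f, hf⟩ := hgen a
    refine ⟨f, ?_, ?_⟩
    · rintro rfl
      apply ha0
      apply Subtype.ext
      rw [hf, map_zero]
      rfl
    · have h2 : aeval S f ∈ v := by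
        rw [← hf]
        exact hAv a
      rw [← haev f h2, hρ]
      change v.valuation (aeval S f) < 1
      rw [← hf]
      exact (hPmem _).mp haP
  obtain ⟨c₀, hc₀⟩ := hx
  let χ : A →+* κ := ρ.comp (ψ.comp (algebraMap A D))
  have hχ : ∀ a : A, χ a ∈ (algebraMap k κ).range := by
    intro a
    obtain ⟨f, hf⟩ := hgen a
    refine ⟨f.eval c₀, ?_⟩
    have h2 : aeval S f ∈ v := by
      rw [← hf]
      exact hAv a
    have h3 : χ a = ρ ⟨aeval S f, h2⟩ := by
      change ρ _ = ρ _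
      congr 1
      exact Subtype.ext hf
    rw [h3, haev, ← hc₀, aeval_algebraMap_apply]
    rfl
  let e : k ≃+* (algebraMap k κ).range := RingEquiv.ofBijective (algebraMap k κ).rangeRestrict
    ⟨fun a b hab => (algebraMap k κ).injective (congrArg Subtype.val hab),
      (algebraMap k κ).rangeRestrict_surjective⟩
  let θ : A →+* k := e.symm.toRingHom.comp (χ.codRestrict (algebraMap k κ).range hχ)
  have hθ : (algebraMap k κ).comp θ = χ := by
    ext a
    change ((e (e.symm (χ.codRestrict (algebraMap k κ).range hχ a)) :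
      (algebraMap k κ).range) : κ) = χ a
    rw [RingEquiv.apply_symm_apply]
    rfl
  have hres : ∀ d : D, ∃ c : k,
      v.valuation (algebraMap D M₀ d - algebraMap k M₀ c) < 1 := by
    intro d
    have h1 : IsIntegral A d := (Algebra.IsIntegral.isIntegral (R := A) d)
    obtain ⟨g, hg, hg0⟩ := h1
    have h2 : IsIntegral k (ρ (ψ d)) := by
      refine ⟨g.map θ, hg.map θ, ?_⟩
      rw [eval₂_map, hθ]
      have h3 := congrArg (fun w => ρ (ψ w)) hg0
      simp only [map_zero] at h3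
      rw [← h3]
      change eval₂ (ρ.comp (ψ.comp (algebraMap A D))) (ρ (ψ d)) g =
        (ρ.comp ψ) (eval₂ (algebraMap A D) d g)
      rw [hom_eval₂]
      rfl
    obtain ⟨c, hc⟩ := halgc _ h2
    refine ⟨c, ?_⟩
    have h4 : ρ (ψ d - ιk c) = 0 := by
      rw [map_sub, ← hc]
      exact sub_self _
    exact (hρ _).mp h4
  refine ⟨(ϖ : M₀), ?_, fun z hz => ?_⟩
  · rw [ValuationSubring.mem_nonunits_iff]
    exact hTv
  · obtain ⟨a, s, hs, hzas⟩ := (hOmem z).mp (hvO z hz)
    obtain ⟨ca, hca⟩ := hres a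
    obtain ⟨cs, hcs⟩ := hres s
    have hs1 := hone s hs
    have hs0 : algebraMap D M₀ s ≠ 0 := by
      intro h0
      rw [h0, map_zero] at hs1
      exact zero_ne_one hs1
    have hcs0 : cs ≠ 0 := by
      rintro rfl
      rw [map_zero, sub_zero, hs1] at hcs
      exact lt_irrefl _ hcs
    have hkle : ∀ c : k, v.valuation (algebraMap k M₀ c) ≤ 1 := fun c =>
      (v.valuation_le_one_iff _).mpr (hk c)
    have hcsv : v.valuation (algebraMap k M₀ cs) = 1 := by
      apply le_antisymm (hkle cs)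
      have h1 := hkle cs⁻¹
      rw [map_inv₀, map_inv₀] at h1
      have h2 : v.valuation (algebraMap k M₀ cs) ≠ 0 := by
        rw [Valuation.ne_zero_iff]
        exact (_root_.map_ne_zero _).mpr hcs0
      exact (inv_le_one₀ (zero_lt_iff.mpr h2)).mp h1
    have hcs0' : algebraMap k M₀ cs ≠ 0 := (_root_.map_ne_zero _).mpr hcs0
    have h1 : v.valuation (z - algebraMap k M₀ (ca / cs)) < 1 := by
      have h2 : z - algebraMap k M₀ (ca / cs) =
          ((algebraMap D M₀ a - algebraMap k M₀ ca) * algebraMap k M₀ cs -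
            algebraMap k M₀ ca * (algebraMap D M₀ s - algebraMap k M₀ cs)) /
            (algebraMap D M₀ s * algebraMap k M₀ cs) := by
        rw [hzas, map_div₀]
        field_simp
        ring
      rw [h2, map_div₀, map_mul, hs1, hcsv, one_mul, div_one]
      apply Valuation.map_sub_lt
      · rw [map_mul, hcsv, mul_one]
        exact hca
      · rw [map_mul]
        exact (mul_le_of_le_one_left' (hkle ca)).trans_lt hcs
    obtain ⟨y, hy, hzy⟩ := hmaxO _ h1
    exact ⟨ca / cs, y, hy, by rw [← hzy]; ring⟩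

/-- (CO2) A valuation ring of the function field of an affine curve which does not contain the coordinate ring is a discrete valuation ring
with residue field `k`. Let `x` be the image of `X`; `M₀` is a finite separable extension of `k(x)` (étale algebra). `v₀ ∩ k(x)` is not everything (otherwise `v₀ = M₀`, valuation rings being
integrally closed and `M₀` algebraic over `k(x)`). Put `S = x - a` if `x ∈ v₀` (`v₀ ∩ k[x]` is a nonzero prime ideal, generated by some `x - a`) and `S = 1 / x` otherwise (`a = 0`); `S` is a nonunit of `v₀`,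
`k(S) = k(x)`. The integral closure `D₁` of `k[S]` in `M₀` is a Dedekind domain (`integralClosure.isDedekindDomain`, separable) contained in `v₀`, `P₁ = D₁ ∩ v₀.nonunits` is a maximal ideal, and the localization of `D₁` at
`P₁` is a discrete valuation ring dominated by `v₀`, hence equal to `v₀`. Its residue field `D₁ / P₁` is algebraic over `k`, hence `k`. -/
theorem exists_uniformizer {k B M₀ : Type u} [Field k] [IsAlgClosed k] [CommRing B] [IsDomain B]
    [Algebra k B] [Algebra k[X] B] [IsScalarTower k k[X] B] [Algebra.IsStandardEtale k[X] B]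
    [Field M₀] [Algebra B M₀] [IsFractionRing B M₀] (v₀ : ValuationSubring M₀)
    (hk : ∀ a : k, algebraMap B M₀ (algebraMap k B a) ∈ v₀)
    (hB : ∃ b : B, algebraMap B M₀ b ∉ v₀) :
    ∃ T ∈ v₀.nonunits, ∀ z ∈ v₀, ∃ (c : k), ∃ y ∈ v₀,
      z = algebraMap B M₀ (algebraMap k B c) + T * y := by
  let _ : Algebra k M₀ := ((algebraMap B M₀).comp (algebraMap k B)).toAlgebra
  let _ : Algebra k[X] M₀ := ((algebraMap B M₀).comp (algebraMap k[X] B)).toAlgebra
  have _ : IsScalarTower k[X] B M₀ := IsScalarTower.of_algebraMap_eq fun _ => rfl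
  have hv : ∃ b, b ∉ v₀ := by
    obtain ⟨b, hb⟩ := hB
    exact ⟨_, hb⟩
  set x : M₀ := algebraMap k[X] M₀ X with hxdef
  have hfin : FiniteDimensional k⟮x⟯ M₀ ∧ Algebra.IsSeparable k⟮x⟯ M₀ := by
    let _ : Algebra k[X] k⟮x⟯ :=
      (aeval (IntermediateField.AdjoinSimple.gen k x) : k[X] →ₐ[k] k⟮x⟯).toRingHom.toAlgebra
    have _ : IsScalarTower k[X] k⟮x⟯ M₀ := by
      apply IsScalarTower.of_algebraMap_eq'
      apply Polynomial.ringHom_ext
      · intro a
        have h1 : algebraMap k[X] k⟮x⟯ (C a) = algebraMap k k⟮x⟯ a := by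
          change aeval (IntermediateField.AdjoinSimple.gen k x) (C a) = _
          rw [aeval_C]
        rw [RingHom.comp_apply, h1]
        change algebraMap B M₀ (algebraMap k[X] B (C a)) = algebraMap B M₀ (algebraMap k B a)
        rw [IsScalarTower.algebraMap_apply k k[X] B]
        rfl
      · have h1 : algebraMap k[X] k⟮x⟯ X = IntermediateField.AdjoinSimple.gen k x := by
          change aeval (IntermediateField.AdjoinSimple.gen k x) X = _
          rw [aeval_X]
        rw [RingHom.comp_apply, h1]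
        rfl
    have h1 : Algebra.FormallyUnramified B M₀ :=
      Algebra.FormallyUnramified.of_isLocalization (nonZeroDivisors B)
    have h2 : Algebra.FormallyUnramified k[X] M₀ := Algebra.FormallyUnramified.comp k[X] B M₀
    have h3 : Algebra.EssFiniteType B M₀ :=
      Algebra.EssFiniteType.of_isLocalization M₀ (nonZeroDivisors B)
    have h4 : Algebra.EssFiniteType k[X] M₀ := Algebra.EssFiniteType.comp k[X] B M₀
    have h5 : Algebra.FormallyUnramified k⟮x⟯ M₀ :=
      Algebra.FormallyUnramified.of_restrictScalars k[X] k⟮x⟯ M₀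
    have h6 : Algebra.EssFiniteType k⟮x⟯ M₀ := Algebra.EssFiniteType.of_comp k[X] k⟮x⟯ M₀
    exact ⟨Algebra.FormallyUnramified.finite_of_free k⟮x⟯ M₀,
      Algebra.FormallyUnramified.isSeparable k⟮x⟯ M₀⟩
  obtain ⟨hfin1, hfin2⟩ := hfin
  by_cases hxv : x ∈ v₀
  · exact CO2_core x v₀ hk hxv hv
  · have hxi : x⁻¹ ∈ v₀ := (v₀.mem_or_inv_mem x).resolve_left hxv
    have h1 : k⟮x⁻¹⟯ = k⟮x⟯ := by
      apply le_antisymm
      · rw [IntermediateField.adjoin_simple_le_iff]
        exact inv_mem (IntermediateField.mem_adjoin_simple_self k x)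
      · rw [IntermediateField.adjoin_simple_le_iff]
        have h2 := inv_mem (IntermediateField.mem_adjoin_simple_self k x⁻¹)
        rwa [inv_inv] at h2
    have h2 : FiniteDimensional k⟮x⁻¹⟯ M₀ := by
      rw [h1]
      exact hfin1
    have h3 : Algebra.IsSeparable k⟮x⁻¹⟯ M₀ := by
      rw [h1]
      exact hfin2
    exact CO2_core x⁻¹ v₀ hk hxi hv
-- END CO2

section unique

variable {k k' M B : Type u} [Field k] [IsAlgClosed k] [Field k'] [IsAlgClosed k'] [Field M]
  [Algebra k' M] {V : ValuationSubring k'} (hV : RankOne V) {σ : k →+* k'}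
  (hσV : ∀ a : k, σ a ∈ V) [CommRing B] [IsDomain B] [Algebra k B] [Algebra k[X] B]
  [IsScalarTower k k[X] B] [Algebra.IsStandardEtale k[X] B] {ι : B →+* M}
  (h : FracExt (algebraMap k B) (algebraMap k' M) σ ι)

-- BEGIN CO3
/-- An element of a standard etale algebra is a quotient of integral elements: general form. -/
private theorem CO3_isAlgebraic {R A F D : Type*} [CommRing R] [CommRing A] [Algebra R A]
    [Algebra.IsStandardEtale R A] [Field F] [CommRing D] [IsDomain D] [Algebra D F]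
    [FaithfulSMul D F] (φ : A →+* F) (ψ : R →+* D)
    (h : ∀ r, algebraMap D F (ψ r) = φ (algebraMap R A r)) (a : A) : IsAlgebraic D (φ a) := by
  obtain ⟨P⟩ := Algebra.IsStandardEtale.nonempty_standardEtalePresentation (R := R) (S := A)
  have hcomp : (algebraMap D F).comp ψ = φ.comp (algebraMap R A) := RingHom.ext h
  have hx : IsIntegral D (φ P.x) := by
    refine ⟨P.f.map ψ, P.monic_f.map ψ, ?_⟩
    rw [Polynomial.eval₂_map, hcomp, ← Polynomial.hom_eval₂]
    have := P.hasMap.1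
    rw [Polynomial.aeval_def] at this
    rw [this, map_zero]
  have hq : ∀ q : R[X], IsIntegral D (φ (aeval P.x q)) := by
    intro q
    have e : φ (aeval P.x q) = aeval (φ P.x) (q.map ψ) := by
      rw [Polynomial.aeval_def, Polynomial.aeval_def, Polynomial.eval₂_map, hcomp,
        ← Polynomial.hom_eval₂]
    rw [e]
    have h1 : aeval (φ P.x) (q.map ψ) ∈ Algebra.adjoin D {φ P.x} :=
      Polynomial.aeval_mem_adjoin_singleton D _
    exact IsIntegral.of_mem_of_fg _ hx.fg_adjoin_singleton _ h1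
  obtain ⟨p, m, hp⟩ := P.exists_mul_aeval_x_g_pow_eq_aeval_x a
  have hg : φ (aeval P.x P.g) ≠ 0 := (P.hasMap.2.map φ).ne_zero
  have ha : φ a = φ (aeval P.x p) * (φ (aeval P.x P.g) ^ m)⁻¹ := by
    rw [← hp, map_mul, map_pow, mul_assoc, mul_inv_cancel₀ (pow_ne_zero _ hg), mul_one]
  rw [ha]
  exact (hq p).isAlgebraic.mul (((hq P.g).isAlgebraic.pow m).inv)

include h in
/-- The polynomials in the parameter are mapped to `k'(x)`. -/
private theorem CO3_mem (r : k[X]) :
    (ι.comp (algebraMap k[X] B)) r ∈ k'⟮ι (algebraMap k[X] B X)⟯ := by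
  induction r using Polynomial.induction_on with
  | C b =>
    have e : algebraMap k[X] B (C b) = algebraMap k B b := by
      rw [IsScalarTower.algebraMap_apply k k[X] B]
      rfl
    rw [RingHom.comp_apply, e, h.comm]
    exact IntermediateField.algebraMap_mem _ _
  | add p q hp hq => rw [map_add]; exact add_mem hp hq
  | monomial m b hp =>
    rw [pow_succ, ← mul_assoc, map_mul]
    exact mul_mem hp (IntermediateField.mem_adjoin_simple_self k' _)

include h in
/-- (CO3) `M` is algebraic over `k'(ι x)`, and over `k'(s)` for every residually transcendental `s`. `B` is algebraic over `k[X]`; `FracExt.isAlgebraic_of_forall`, `isAlgebraic_adjoin_simple` (Y/Arch.lean), `ResTrans.transcendental` (V/Val1.lean). -/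
theorem const_isAlgebraic {v : ValuationSubring M} (hv : Over V v) (s : M) (hs : ResTrans V v s) :
    Algebra.IsAlgebraic k'⟮s⟯ M := by
  refine isAlgebraic_adjoin_simple (ι (algebraMap k[X] B X)) s ?_ (hs.transcendental hv)
  refine h.isAlgebraic_of_forall _ fun b => ?_
  exact CO3_isAlgebraic ι ((ι.comp (algebraMap k[X] B)).codRestrict
    k'⟮ι (algebraMap k[X] B X)⟯ (CO3_mem h)) (fun r => rfl) b
-- END CO3

-- BEGIN CO4
private theorem CO4_frac {F : Type u} [Field F] (v : ValuationSubring F) (x : F) :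
    ∃ a ∈ v, ∃ b ∈ v, x = a / b := by
  rcases v.mem_or_inv_mem x with hx | hx
  · exact ⟨x, hx, 1, v.one_mem, (div_one x).symm⟩
  · exact ⟨1, v.one_mem, x⁻¹, hx, by rw [one_div, inv_inv]⟩

include h in
private theorem CO4_inj : Function.Injective ι := by
  rw [injective_iff_map_eq_zero]
  intro b hb
  by_contra hb0
  have h1 := h.lin 1 (fun _ => b) (fun c hc i => by
    rw [Fin.sum_univ_one] at hc
    rw [Subsingleton.elim i 0]
    rcases mul_eq_zero.1 hc with h2 | h2
    · exact (map_eq_zero _).1 h2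
    · exact absurd h2 hb0) (fun _ => 1) (by simp [hb]) 0
  exact one_ne_zero h1

include hV hσV h in
/-- (CO4) A residually nonrational valuation ring of `M` contains `B`. Suppose not. `ι` is injective (`h.lin` for one element); let `M₀ = FractionRing B`, `j : M₀ → M` the extension of `ι`, `v₀ = v.comap j`; it contains `k` but not `B`: `T` by (CO2). Let
`D` be the subring generated by the image of `V` and `j(v₀)`; its field of fractions is `M` (`h.frac`; each `b ∈ B` is a quotient of elements of `v₀`, `k'` is the field of fractions of `V`). Every element of `v₀` is congruent to an element of `k[T]`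
modulo `T ^ n v₀`, and `T ^ n ∈ d v` for large `n` (`exists_pow_div_mem`), so `approx_closure` (for `d ∈ V`; otherwise use `1`) and `not_NR_of_dense` (Y/Approx.lean) with `t = j T` give a contradiction. -/
theorem NR_contains {v : ValuationSubring M} (hv : Over V v) (hn : NR V v) (b : B) : ι b ∈ v := by
  by_contra hb
  have hinj : Function.Injective ι := CO4_inj h
  obtain ⟨s, hs⟩ := hn.1
  have halg : Algebra.IsAlgebraic k'⟮s⟯ M := const_isAlgebraic h hv s hs
  set j : FractionRing B →+* M := IsFractionRing.lift hinj with hj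
  have hjb : ∀ b : B, j (algebraMap B (FractionRing B) b) = ι b := fun b =>
    IsFractionRing.lift_algebraMap hinj b
  set v₀ : ValuationSubring (FractionRing B) := v.comap j with hv₀
  have hmem : ∀ z, z ∈ v₀ ↔ j z ∈ v := fun z => Iff.rfl
  have hjk : ∀ a : k, j (algebraMap B (FractionRing B) (algebraMap k B a)) =
      algebraMap k' M (σ a) := fun a => by rw [hjb, h.comm]
  obtain ⟨T, hT, hTz⟩ := exists_uniformizer (k := k) v₀
    (fun a => by
      rw [hmem, hjk]
      exact (hv.mem_iff _).2 (hσV a))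
    ⟨b, fun hcon => hb (by rw [hmem, hjb] at hcon; exact hcon)⟩
  set t : M := j T with ht
  have htn : t ∈ v.nonunits := by
    rw [ValuationSubring.mem_nonunits_iff_exists_mem_maximalIdeal] at hT ⊢
    obtain ⟨hT1, hT2⟩ := hT
    refine ⟨hT1, ?_⟩
    rw [IsLocalRing.mem_maximalIdeal, mem_nonunits_iff] at hT2 ⊢
    intro hcon
    apply hT2
    have hT0 : T ≠ 0 := by
      rintro rfl
      obtain ⟨y, hy⟩ := hcon.exists_right_inv
      have h1 := congrArg Subtype.val hy
      simp [ht] at h1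
    obtain ⟨y, hy⟩ := hcon.exists_right_inv
    have h1 : t * (y : M) = 1 := congrArg Subtype.val hy
    have h2 : (y : M) = j T⁻¹ := by
      rw [map_inv₀]
      exact eq_inv_of_mul_eq_one_right h1
    refine IsUnit.of_mul_eq_one ⟨T⁻¹, ?_⟩ (Subtype.ext (mul_inv_cancel₀ hT0))
    rw [hmem, ← h2]
    exact y.2
  set S : Set M := (algebraMap k' M '' (V : Set k')) ∪ (j '' (v₀ : Set (FractionRing B))) with hS
  have hSv : ∀ a ∈ S, a ∈ v := by
    rintro a (⟨x, hx, rfl⟩ | ⟨z, hz, rfl⟩)
    · exact (hv.mem_iff _).2 hx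
    · exact hz
  have hDv : ∀ a ∈ Subring.closure S, a ∈ v := by
    intro a ha
    have h1 : Subring.closure S ≤ v.toSubring := Subring.closure_le.2 hSv
    exact h1 ha
  have hk'S : ∀ x : k', algebraMap k' M x ∈ Subfield.closure S := by
    intro x
    obtain ⟨a, ha, b, hb, rfl⟩ := CO4_frac V x
    rw [map_div₀]
    exact div_mem (Subfield.subset_closure (Or.inl ⟨a, ha, rfl⟩))
      (Subfield.subset_closure (Or.inl ⟨b, hb, rfl⟩))
  have hBS : ∀ b : B, ι b ∈ Subfield.closure S := by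
    intro x
    obtain ⟨a, ha, b, hb, hab⟩ := CO4_frac v₀ (algebraMap B (FractionRing B) x)
    rw [← hjb, hab, map_div₀]
    exact div_mem (Subfield.subset_closure (Or.inr ⟨a, ha, rfl⟩))
      (Subfield.subset_closure (Or.inr ⟨b, hb, rfl⟩))
  have hfrac : ∀ z : M, ∃ a ∈ Subring.closure S, ∃ b ∈ Subring.closure S, b ≠ 0 ∧ z = a / b := by
    intro z
    obtain ⟨n, c, d, e, hne, hz⟩ := h.frac z
    have hzS : z ∈ Subfield.closure S := by
      rw [hz]
      exact div_mem (sum_mem fun i _ => mul_mem (hk'S _) (hBS _))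
        (sum_mem fun i _ => mul_mem (hk'S _) (hBS _))
    obtain ⟨a, ha, b, hb, hab⟩ := Subfield.mem_closure_iff.1 hzS
    by_cases hb0 : b = 0
    · refine ⟨0, zero_mem _, 1, one_mem _, one_ne_zero, ?_⟩
      rw [← hab, hb0, div_zero, zero_div]
    · exact ⟨a, ha, b, hb, hb0, hab.symm⟩
  have hexp : ∀ n : ℕ, ∀ z ∈ v₀, ∃ z' ∈ k'⟮t⟯, ∃ y ∈ v₀, j z - z' = t ^ n * j y := by
    intro n
    induction n with
    | zero =>
      intro z hz
      exact ⟨0, zero_mem _, z, hz, by rw [pow_zero, one_mul, sub_zero]⟩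
    | succ n ih =>
      intro z hz
      obtain ⟨z', hz', y, hy, hzy⟩ := ih z hz
      obtain ⟨c, y', hy', hyy⟩ := hTz y hy
      refine ⟨z' + t ^ n * algebraMap k' M (σ c), add_mem hz' (mul_mem (pow_mem
        (IntermediateField.mem_adjoin_simple_self k' t) n)
        (IntermediateField.algebraMap_mem _ _)), y', hy', ?_⟩
      have h1 : j y = algebraMap k' M (σ c) + t * j y' := by
        rw [hyy, map_add, map_mul, hjk]
      rw [pow_succ]
      linear_combination hzy + t ^ n * h1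
  have happ1 : ∀ d : k', d ∈ V → d ≠ 0 → ∀ a ∈ Subring.closure S,
      ∃ a' ∈ k'⟮t⟯, (a - a') / algebraMap k' M d ∈ v := by
    intro d hd hd0 a ha
    refine approx_closure hv d hd hd0 t S hSv ?_ a ha
    rintro a (⟨x, hx, rfl⟩ | ⟨z, hz, rfl⟩)
    · refine ⟨algebraMap k' M x, IntermediateField.algebraMap_mem _ _, ?_⟩
      rw [sub_self, zero_div]
      exact v.zero_mem
    · obtain ⟨n, hn⟩ := exists_pow_div_mem hV hv s hs halg t htn d hd0
      obtain ⟨z', hz', y, hy, hzy⟩ := hexp n z hz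
      refine ⟨z', hz', ?_⟩
      rw [hzy, mul_div_right_comm]
      exact v.mul_mem _ _ hn hy
  refine not_NR_of_dense hV hv (Subring.closure S) hDv hfrac s hs halg t ?_ hn
  intro d hd0 a ha
  by_cases hd : d ∈ V
  · exact happ1 d hd hd0 a ha
  · obtain ⟨a', ha', h1⟩ := happ1 1 V.one_mem one_ne_zero a ha
    refine ⟨a', ha', ?_⟩
    rw [map_one, div_one] at h1
    rw [div_eq_mul_inv, ← map_inv₀]
    exact v.mul_mem _ _ h1 ((hv.mem_iff _).2 ((V.mem_or_inv_mem d).resolve_left hd))
-- END CO4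

-- BEGIN CO5
private theorem CO5_prime {k B : Type u} [Field k] [IsAlgClosed k] [CommRing B] [IsDomain B]
    [Algebra k B] [Algebra.FiniteType k B] (V : Type u) [CommRing V] [IsLocalRing V] [Algebra k V] :
    ((IsLocalRing.maximalIdeal V).map (algebraMap V (V ⊗[k] B))).IsPrime := by
  let f : V →ₐ[k] IsLocalRing.ResidueField V :=
    IsScalarTower.toAlgHom k V (IsLocalRing.ResidueField V)
  have hf : Function.Surjective f := IsLocalRing.residue_surjective
  have hk : RingHom.ker f = IsLocalRing.maximalIdeal V := IsLocalRing.ker_residue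
  have hdom : IsDomain (IsLocalRing.ResidueField V ⊗[k] B) := isDomain_tensor
  have h1 := Algebra.TensorProduct.rTensor_ker (R := k) (C := B) f hf
  rw [hk] at h1
  have h2 : (IsLocalRing.maximalIdeal V).map (algebraMap V (V ⊗[k] B)) =
      (IsLocalRing.maximalIdeal V).map (Algebra.TensorProduct.includeLeft : V →ₐ[k] V ⊗[k] B) := rfl
  rw [h2, ← h1]
  exact RingHom.ker_isPrime _

include hV hσV h in
/-- (CO5) There is at most one residually nonrational valuation ring containing `B`. Let `A' = V ⊗[k] B` (algebra structure of `V` over `k` by `σ`): standard étale over `V[X]` (`exists_standardEtale_baseChange`, Y/Frac.lean), `Φ : A' → M` injective with field of fractions `M` by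
`exists_model_hom` (`R = K = k`, `S = V`, `A = L = B`, `φ = id`), `model_frac`. For `v`: `Φ A' ⊆ v`; `closed_center_NR` (P2/M.lean) shows that `Φ (algebraMap V[X] A' X)` is residually transcendental; `generic_center` (M/Alg.lean), with `m_V A'` prime: `A' / m_V A' = κ_V ⊗[k] B` is a domain
(`isDomain_tensor`, N/Alg.lean); the same for `w`; conclude by `eq_of_generic` (M/Alg.lean). -/
theorem NR_unique_of_contains {v w : ValuationSubring M} (hv : Over V v) (hw : Over V w)
    (hnv : NR V v) (hnw : NR V w) (hBv : ∀ b, ι b ∈ v) (hBw : ∀ b, ι b ∈ w) : v = w := by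
  let _ : Algebra k V := (σ.codRestrict V.toSubring hσV).toAlgebra
  have hft : Algebra.FiniteType k B := by
    have h1 : Algebra.FinitePresentation k[X] B := inferInstance
    exact Algebra.FiniteType.trans (S := k[X]) inferInstance inferInstance
  obtain ⟨algX, htow, hst, hX⟩ := exists_standardEtale_baseChange k V B
  obtain ⟨Φ, hΦ, hΦ1, hΦ2⟩ := exists_model_hom (R := k) (S := V) (A := B) (K := k) (L := B)
    (K' := k') (L' := M) h (Subtype.val_injective) (fun r => rfl) (RingHom.id B)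
    Function.injective_id (fun r => rfl)
  have hfrac := model_frac (R := k) (S := V) (A := B) (K := k) (L := B)
    (K' := k') (L' := M) h (RingHom.id B) (fun z => ⟨z, 1, by
      simp only [map_one]
      exact one_ne_zero, by simp⟩) Φ hΦ1 hΦ2
  have hΦO : ∀ a : V, Φ (algebraMap V (V ⊗[k] B) a) = algebraMap k' M a := fun a => hΦ1 a
  have hp : ((IsLocalRing.maximalIdeal V).map (algebraMap V (V ⊗[k] B))).IsPrime := CO5_prime V
  have hmem : ∀ u : ValuationSubring M, Over V u → (∀ b, ι b ∈ u) → ∀ a, Φ a ∈ u := by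
    intro u hu hBu a
    induction a using TensorProduct.induction_on with
    | zero => rw [map_zero]; exact zero_mem _
    | add x y hx hy => rw [map_add]; exact add_mem hx hy
    | tmul s b =>
      have e : s ⊗ₜ[k] b = (s ⊗ₜ[k] (1 : B)) * ((1 : V) ⊗ₜ[k] b) := by
        rw [Algebra.TensorProduct.tmul_mul_tmul, mul_one, one_mul]
      rw [e, map_mul, hΦ1, hΦ2]
      refine mul_mem ?_ (hBu _)
      exact (Over.mem_iff hu _).2 s.2
  have hres : ∀ u : ValuationSubring M, Over V u → (∀ b, ι b ∈ u) → NR V u →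
      ResTrans V u (Φ (algebraMap V[X] (V ⊗[k] B) X)) := by
    intro u hu hBu hnu
    refine ⟨hmem u hu hBu _, fun a ha hcon => ?_⟩
    exact closed_center_NR Φ hΦ hΦO hfrac hV hu (hmem u hu hBu) a ha hcon hnu
  have hgen : ∀ u : ValuationSubring M, Over V u → (∀ b, ι b ∈ u) → NR V u →
      ∀ a, Φ a ∈ u.nonunits ↔ a ∈ (IsLocalRing.maximalIdeal V).map (algebraMap V (V ⊗[k] B)) := by
    intro u hu hBu hnu a
    exact generic_center Φ hΦO hu (hmem u hu hBu) (hres u hu hBu hnu) hp a
  exact eq_of_generic Φ hΦ hΦO hfrac hv hw (hmem v hv hBv) (hmem w hw hBw)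
    (hgen v hv hBv hnv) (hgen w hw hBw hnw) (hres v hv hBv hnv)
-- END CO5

include hV hσV h in
theorem NR_unique_const {v w : ValuationSubring M} (hv : Over V v) (hw : Over V w) (hnv : NR V v)
    (hnw : NR V w) : v = w :=
  NR_unique_of_contains hV hσV h hv hw hnv hnw (NR_contains hV hσV h hv hnv)
    (NR_contains hV hσV h hw hnw)

end unique

/-- (CO6) From `not_nonrational_of_dense` (V/Val3.lean). -/
theorem Nonrational.NR {K L : Type u} [Field K] [Field L] [Algebra K L] {O : ValuationSubring K}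
    {v : ValuationSubring L} [IsAlgClosed K] (h2 : IsUnit (2 : O)) (hv : Over O v)
    (h : Nonrational O v) : NR O v := by
  obtain ⟨X, Y, hX, hY, hXY, hne⟩ := h
  exact ⟨⟨X, hX, hne⟩, fun s hs hd => not_nonrational_of_dense h2 hv s hs hd
    ⟨X, Y, hX, hY, hXY, hne⟩⟩

theorem transcendental_of_forall_ne {k' M : Type u} [Field k'] [IsAlgClosed k'] [Field M]
    [Algebra k' M] (x : M) (hx : ∀ a : k', x ≠ algebraMap k' M a) : Transcendental k' x := by
  intro hcon
  have hint : IsIntegral k' x := isAlgebraic_iff_isIntegral.mp hcon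
  have h1 := IsAlgClosed.degree_eq_one_of_irreducible k' (minpoly.irreducible hint)
  obtain ⟨a, ha⟩ := minpoly.mem_range_of_degree_eq_one k' x h1
  exact hx a ha.symm

theorem isUnit_ofNat_of_mem {k k' : Type u} [Field k] [Field k'] {σ : k →+* k'}
    {V : ValuationSubring k'} (hσV : ∀ a : k, σ a ∈ V) (n : ℕ) (hn : (n : k) ≠ 0) :
    IsUnit (n : V) := by
  refine IsUnit.of_mul_eq_one ⟨σ (n : k)⁻¹, hσV _⟩ ?_
  apply Subtype.ext
  change ((n : V) : k') * σ (n : k)⁻¹ = 1
  have h1 : ((n : V) : k') = σ (n : k) := by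
    rw [map_natCast]
    rfl
  rw [h1, ← map_mul, mul_inv_cancel₀ hn, map_one]

/-- The moving curve `y² = x (x² - 1) (1 - γ x²)` is not dominated by a constant curve. -/
theorem no_solution_constant {k k' M B : Type u} [Field k] [IsAlgClosed k] [Field k']
    [IsAlgClosed k'] [Field M] (κ' : k' →+* M) (σ : k →+* k') (h2 : (2 : k) ≠ 0) [CommRing B]
    [IsDomain B] [Algebra k B] [Algebra k[X] B] [IsScalarTower k k[X] B]
    [Algebra.IsStandardEtale k[X] B] (ι : B →+* M) (h : FracExt (algebraMap k B) κ' σ ι) (γ : k')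
    (hγ : γ ∉ σ.range) (x y : M) (hx : ∀ a : k', x ≠ κ' a)
    (hxy : y ^ 2 = x * (x ^ 2 - 1) * (1 - κ' γ * x ^ 2)) : False := by
  let _ : Algebra k' M := κ'.toAlgebra
  obtain ⟨V, hV, hσV, hγV⟩ := exists_rankOne_valuation σ γ hγ
  have hγ0 : γ ≠ 0 := by
    rintro rfl
    exact hγ ⟨0, map_zero σ⟩
  have hxt : Transcendental k' x := transcendental_of_forall_ne x hx
  have h2V : IsUnit (2 : V) := by
    have h3 := isUnit_ofNat_of_mem hσV 2 (by exact_mod_cast h2)
    exact_mod_cast h3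
  obtain ⟨v, w, hv, hw, hnv, hnw, hne⟩ := exists_nonrational_pair' V x y hxt γ hγ0 hγV hxy
  exact hne (NR_unique_const hV hσV h hv hw (hnv.NR h2V hv) (hnw.NR h2V hw))

/-- The moving curve `y² + y = x³ + γ x⁻³` in characteristic two is not dominated by a constant
curve. -/
theorem no_solution_constant_even {k k' M B : Type u} [Field k] [IsAlgClosed k] [Field k']
    [IsAlgClosed k'] [Field M] (κ' : k' →+* M) (σ : k →+* k') (h2 : (2 : k) = 0) [CommRing B]
    [IsDomain B] [Algebra k B] [Algebra k[X] B] [IsScalarTower k k[X] B]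
    [Algebra.IsStandardEtale k[X] B] (ι : B →+* M) (h : FracExt (algebraMap k B) κ' σ ι) (γ : k')
    (hγ : γ ∉ σ.range) (x y : M) (hx : ∀ a : k', x ≠ κ' a)
    (hxy : x ^ 3 * (y ^ 2 + y) = x ^ 6 + κ' γ) : False := by
  let _ : Algebra k' M := κ'.toAlgebra
  obtain ⟨V, hV, hσV, hγV⟩ := exists_rankOne_valuation σ γ hγ
  have hγ0 : γ ≠ 0 := by
    rintro rfl
    exact hγ ⟨0, map_zero σ⟩
  have hx0 : x ≠ 0 := by
    rintro rfl
    exact hx 0 (map_zero κ').symm
  have hxt : Transcendental k' x := transcendental_of_forall_ne x hx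
  have h3V : IsUnit (3 : V) := by
    have h3 := isUnit_ofNat_of_mem hσV 3 (by
      have : ((3 : ℕ) : k) = 2 + 1 := by norm_num
      rw [this, h2, zero_add]
      exact one_ne_zero)
    exact_mod_cast h3
  have hxy' : y ^ 2 + y = x ^ 3 + algebraMap k' M γ * (x⁻¹) ^ 3 := by
    have h4 : algebraMap k' M γ = κ' γ := rfl
    rw [h4]
    field_simp
    linear_combination hxy
  obtain ⟨v, w, hv, hw, hnv, hnw, hne⟩ := exists_NR_pair V h3V x y hxt γ hγ0 hγV hxy'
  exact hne (NR_unique_const hV hσV h hv hw hnv hnw)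

end Pool.Agent.Lib.MP_211349_ag
end
end
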