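import Pool.Agent.Lib.MP_211349_ag.Mg.G011
import Pool.Agent.Lib.MP_211349_ag.Mg.G008
import Pool.Agent.Lib.MP_211349_ag.Mg.G006
import Pool.Agent.Lib.MP_211349_ag.Mg.G002
import Pool.Agent.Lib.MP_211349_ag.Mg.G009

section

/-!
# Curves without rational parametrization
-/

open Polynomial

universe u

noncomputable section

namespace Pool.Agent.Lib.MP_211349_ag

-- BEGIN EL1
/-- (EL1) Write `x = p / q` with coprime `p, q` (see `ratFunc_no_param` in V/Ell.lean). Then `(y q ^ 3) ^ 2 = p q (p - q) (p + q) (q ^ 2 - c p ^ 2)`, so the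
product is the square of a polynomial. (If `c = 0` the equation is `y ^ 2 = x ^ 3 - x`: `ratFunc_no_param`.) The five factors are pairwise coprime (`2 ≠ 0`, `c ≠ 0`, `c ≠ 1`), so (`isSquare_of_coprime_mul`) `p q (p - q) (p + q)` is a square; `product_square_const` shows that `p, q` are constant. -/
theorem ratFunc_no_param_c {k : Type u} [Field k] [IsAlgClosed k] (h2 : (2 : k) ≠ 0) (c : k)
    (hc : c ≠ 1) (x y : RatFunc k)
    (h : y ^ 2 = x * (x ^ 2 - 1) * (1 - RatFunc.C c * x ^ 2)) : ∃ a : k, x = RatFunc.C a := by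
  rcases eq_or_ne c 0 with hc0 | hc0
  · subst hc0
    refine ratFunc_no_param h2 x y ?_
    rw [h, map_zero]
    ring
  set p : k[X] := x.num with hp
  set q : k[X] := x.denom with hq
  have hq0 : q ≠ 0 := x.denom_ne_zero
  have hqR : algebraMap k[X] (RatFunc k) q ≠ 0 := by
    rw [Ne, map_eq_zero_iff _ (IsFractionRing.injective k[X] (RatFunc k))]
    exact hq0
  have hX : x = algebraMap k[X] (RatFunc k) p / algebraMap k[X] (RatFunc k) q :=
    (RatFunc.num_div_denom x).symm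
  have hcop : IsCoprime p q := RatFunc.isCoprime_num_denom x
  set z : RatFunc k := y * algebraMap k[X] (RatFunc k) q ^ 3 with hz
  have hz2 : z ^ 2 = algebraMap k[X] (RatFunc k)
      ((p * q * (p - q) * (p + q)) * (q ^ 2 - C c * p ^ 2)) := by
    rw [hz, mul_pow, h]
    rw [map_mul, map_mul, map_mul, map_mul, map_sub, map_add, map_sub, map_mul, map_pow, map_pow,
      RatFunc.algebraMap_C, hX]
    field_simp
    ring
  have hint : IsIntegral k[X] z := by
    refine IsIntegral.of_pow (n := 2) (by norm_num) ?_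
    rw [hz2]
    exact isIntegral_algebraMap
  obtain ⟨r, hr⟩ := IsIntegrallyClosed.isIntegral_iff.1 hint
  have hsq : IsSquare ((p * q * (p - q) * (p + q)) * (q ^ 2 - C c * p ^ 2)) := by
    refine ⟨r, ?_⟩
    apply IsFractionRing.injective k[X] (RatFunc k)
    rw [← hz2, map_mul, hr, sq]
  have hcu : C (c⁻¹ : k) * C c = (1 : k[X]) := by
    rw [← C_mul, inv_mul_cancel₀ hc0, C_1]
  have h1c : C ((1 - c)⁻¹ : k) * (1 - C c) = (1 : k[X]) := by
    rw [show (1 : k[X]) - C c = C (1 - c) by rw [C_sub, C_1], ← C_mul,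
      inv_mul_cancel₀ (sub_ne_zero.mpr (Ne.symm hc)), C_1]
  have uc : IsUnit (C c : k[X]) := isUnit_C.mpr (isUnit_iff_ne_zero.mpr hc0)
  have u1c : IsUnit (C (1 - c) : k[X]) :=
    isUnit_C.mpr (isUnit_iff_ne_zero.mpr (sub_ne_zero.mpr (Ne.symm hc)))
  have isCoprime_of_unit : ∀ {f g : k[X]}, IsUnit g → IsCoprime f g := fun {f g} hg =>
    (isCoprime_zero_right.mpr hg).symm.of_isCoprime_of_dvd_left (dvd_zero f)
  have d1 : IsCoprime p (q ^ 2 - C c * p ^ 2) := by
    have : IsCoprime p (q ^ 2) := hcop.pow_right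
    have h3 := this.add_mul_left_right (-(C c * p))
    refine (congrArg (IsCoprime p) ?_).mp h3
    ring
  have d2 : IsCoprime q (q ^ 2 - C c * p ^ 2) := by
    have h4 : IsCoprime q (C (-c) * p ^ 2) := by
      refine IsCoprime.mul_right ?_ hcop.symm.pow_right
      exact isCoprime_of_unit (isUnit_C.mpr (isUnit_iff_ne_zero.mpr (neg_ne_zero.mpr hc0)))
    have h3 := h4.add_mul_left_right q
    refine (congrArg (IsCoprime q) ?_).mp h3
    rw [C_neg]; ring
  have c3 : IsCoprime (p - q) p := by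
    obtain ⟨a, b, hab⟩ := hcop
    exact ⟨-b, a + b, by linear_combination hab⟩
  have c4 : IsCoprime (p + q) p := by
    obtain ⟨a, b, hab⟩ := hcop
    exact ⟨b, a - b, by linear_combination hab⟩
  have d3 : IsCoprime (p - q) (q ^ 2 - C c * p ^ 2) := by
    have h4 : IsCoprime (p - q) (C (1 - c) * p ^ 2) :=
      IsCoprime.mul_right (isCoprime_of_unit u1c) c3.pow_right
    have h3 := h4.add_mul_left_right (-(p + q))
    refine (congrArg (IsCoprime (p - q)) ?_).mp h3
    rw [C_sub, C_1]; ring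
  have d4 : IsCoprime (p + q) (q ^ 2 - C c * p ^ 2) := by
    have h4 : IsCoprime (p + q) (C (1 - c) * p ^ 2) :=
      IsCoprime.mul_right (isCoprime_of_unit u1c) c4.pow_right
    have h3 := h4.add_mul_left_right (-(p - q))
    refine (congrArg (IsCoprime (p + q)) ?_).mp h3
    rw [C_sub, C_1]; ring
  have hall : IsCoprime (p * q * (p - q) * (p + q)) (q ^ 2 - C c * p ^ 2) :=
    ((d1.mul_left d2).mul_left d3).mul_left d4
  obtain ⟨s1, -⟩ := isSquare_of_coprime_mul hall hsq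
  obtain ⟨hp0, hq0'⟩ := product_square_const h2 p q hcop s1
  rw [hX, Polynomial.eq_C_of_natDegree_eq_zero hp0, Polynomial.eq_C_of_natDegree_eq_zero hq0']
  refine ⟨p.coeff 0 / q.coeff 0, ?_⟩
  rw [RatFunc.algebraMap_C, RatFunc.algebraMap_C, map_div₀]
-- END EL1

-- BEGIN EL2
private theorem EL2_sq_inj {k : Type u} [Field k] (h2 : (2 : k[X]) = 0) {a b : k[X]}
    (h : a ^ 2 = b ^ 2) : a = b := by
  have h3 : (a - b) ^ 2 = 0 := by
    linear_combination h + (b ^ 2 - a * b) * h2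
  exact sub_eq_zero.1 (pow_eq_zero_iff (two_ne_zero) |>.1 h3)

private theorem EL2_isSquare_of_cube {k : Type u} [Field k] {p : k[X]} (hp : p ≠ 0)
    (h : IsSquare (p ^ 3)) : IsSquare p := by
  obtain ⟨s, hs⟩ := h
  have h1 : p ^ 2 ∣ s ^ 2 := ⟨p, by rw [sq s, ← hs]; ring⟩
  have h2 : p ∣ s := (IsIntegrallyClosed.pow_dvd_pow_iff two_ne_zero).1 h1
  obtain ⟨t, rfl⟩ := h2
  refine ⟨t, ?_⟩
  have h3 : p ^ 2 * p = p ^ 2 * (t * t) := by linear_combination hs
  exact mul_left_cancel₀ (pow_ne_zero 2 hp) h3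

private theorem EL2_descent {k : Type u} [Field k] [IsAlgClosed k] (h2 : (2 : k) = 0) (m : ℕ) :
    ∀ (c : k) (_ : c ≠ 0) (p q A B : k[X]), q ≠ 0 → B ≠ 0 → IsCoprime p q → IsCoprime A B →
      p ^ 3 * q ^ 3 * (A ^ 2 + A * B) = (p ^ 6 + C c * q ^ 6) * B ^ 2 →
      m = max p.natDegree q.natDegree → p.natDegree = 0 ∧ q.natDegree = 0 := by
  have h2X : (2 : k[X]) = 0 := by
    rw [show (2 : k[X]) = C (2 : k) from (C_ofNat 2).symm, h2, C_0]
  induction m using Nat.strong_induction_on with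
  | _ m ih =>
    intro c hc p q A B hq hB hpq hAB heq hm
    rcases Nat.eq_zero_or_pos m with h0 | hpos
    · rw [h0] at hm
      have h1 := le_max_left p.natDegree q.natDegree
      have h3 := le_max_right p.natDegree q.natDegree
      omega
    obtain ⟨γ, hγ⟩ := IsAlgClosed.exists_eq_mul_self c
    have hγ0 : γ ≠ 0 := by
      rintro rfl
      exact hc (by rw [hγ, mul_zero])
    have hγu : IsUnit (C γ : k[X]) := Polynomial.isUnit_C.2 (isUnit_iff_ne_zero.2 hγ0)
    have hp : p ≠ 0 := by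
      rintro rfl
      have h1 : (C c * q ^ 6) * B ^ 2 = 0 := by
        linear_combination -heq
      have h3 : (C c : k[X]) ≠ 0 := by rwa [Ne, C_eq_zero]
      exact mul_ne_zero (mul_ne_zero h3 (pow_ne_zero 6 hq)) (pow_ne_zero 2 hB) h1
    obtain ⟨S, hS⟩ : ∃ S : k[X], S = p ^ 3 + C γ * q ^ 3 := ⟨_, rfl⟩
    have hS2 : S ^ 2 = p ^ 6 + C c * q ^ 6 := by
      rw [hS, hγ, C_mul]
      linear_combination (p ^ 3 * (C γ * q ^ 3)) * h2X
    have hpS : IsCoprime p S := by
      have h1 : IsCoprime p (C γ * q ^ 3) :=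
        (isCoprime_mul_unit_left_right hγu p (q ^ 3)).2 hpq.pow_right
      have h3 := h1.add_mul_left_right (p ^ 2)
      have e : C γ * q ^ 3 + p * p ^ 2 = S := by rw [hS]; ring
      rwa [e] at h3
    have hqS : IsCoprime q S := by
      have h1 : IsCoprime q (p ^ 3) := hpq.symm.pow_right
      have h3 := h1.add_mul_left_right (C γ * q ^ 2)
      have e : p ^ 3 + q * (C γ * q ^ 2) = S := by rw [hS]; ring
      rwa [e] at h3
    have hpqS : IsCoprime (p * q) S := hpS.mul_left hqS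
    have hAB' : IsCoprime (A + B) B := by
      have h1 := hAB.add_mul_right_left 1
      rwa [one_mul] at h1
    obtain ⟨W, hW⟩ : ∃ W : k[X], W = A ^ 2 + A * B := ⟨_, rfl⟩
    have hWB : IsCoprime W B := by
      have e : W = A * (A + B) := by rw [hW]; ring
      rw [e]
      exact hAB.mul_left hAB'
    have hE : (p * q) ^ 3 * W = S ^ 2 * B ^ 2 := by
      rw [hS2, hW]
      linear_combination heq
    have hpq0 : (p * q) ^ 3 ≠ 0 := pow_ne_zero 3 (mul_ne_zero hp hq)
    have d1 : (p * q) ^ 3 ∣ B ^ 2 := by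
      refine (hpqS.pow (m := 3) (n := 2)).dvd_of_dvd_mul_left ?_
      exact ⟨W, hE.symm⟩
    have d2 : B ^ 2 ∣ (p * q) ^ 3 := by
      refine (hWB.symm.pow_left (m := 2)).dvd_of_dvd_mul_right ?_
      exact ⟨S ^ 2, by rw [hE]; ring⟩
    obtain ⟨w, hw⟩ := associated_of_dvd_dvd d1 d2
    obtain ⟨e, he, hew⟩ := Polynomial.isUnit_iff.1 w.isUnit
    obtain ⟨f, hf⟩ := IsAlgClosed.exists_eq_mul_self e
    have hf0 : f ≠ 0 := by
      rintro rfl
      rw [hf, mul_zero] at he
      exact not_isUnit_zero he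
    have hff : C f⁻¹ * C f = (1 : k[X]) := by rw [← C_mul, inv_mul_cancel₀ hf0, C_1]
    have hfu : IsUnit (C f⁻¹ : k[X]) :=
      Polynomial.isUnit_C.2 (isUnit_iff_ne_zero.2 (inv_ne_zero hf0))
    have hw2 : (p * q) ^ 3 * (C f * C f) = B ^ 2 := by
      rw [← C_mul, ← hf, hew]
      exact hw
    obtain ⟨A', hA'⟩ : ∃ A' : k[X], A' = C f⁻¹ * A := ⟨_, rfl⟩
    obtain ⟨B', hB'⟩ : ∃ B' : k[X], B' = C f⁻¹ * B := ⟨_, rfl⟩
    have hB2 : B' ^ 2 = (p * q) ^ 3 := by
      rw [hB']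
      linear_combination (-(C f⁻¹) ^ 2) * hw2 + ((p * q) ^ 3 * (C f⁻¹ * C f + 1)) * hff
    have hWS : W = S ^ 2 * (C f * C f) := by
      refine mul_left_cancel₀ hpq0 ?_
      rw [hE, ← hw2]
      ring
    have hA2 : A' ^ 2 + A' * B' = S ^ 2 := by
      have h3 : (C f⁻¹) ^ 2 * W = S ^ 2 := by
        rw [hWS]
        linear_combination (S ^ 2 * (C f⁻¹ * C f + 1)) * hff
      rw [hA', hB', ← h3, hW]
      ring
    have hcop' : IsCoprime A' B' := by
      rw [hA', hB']
      exact (isCoprime_mul_unit_left hfu A B).2 hAB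
    -- squares
    have hsq : IsSquare (p ^ 3 * q ^ 3) := ⟨B', by rw [← sq, hB2]; ring⟩
    obtain ⟨sp, sq'⟩ := isSquare_of_coprime_mul (hpq.pow (m := 3) (n := 3)) hsq
    obtain ⟨p₁, hp₁⟩ := EL2_isSquare_of_cube hp sp
    obtain ⟨q₁, hq₁⟩ := EL2_isSquare_of_cube hq sq'
    have hBc : B' = (p₁ * q₁) ^ 3 := by
      apply EL2_sq_inj h2X
      rw [hB2, hp₁, hq₁]
      ring
    have hABs : A' * B' = (A' + S) * (A' + S) := by
      linear_combination (-1 : k[X]) * hA2 + (A' * B' - A' * S - S ^ 2) * h2X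
    obtain ⟨⟨a, ha⟩, ⟨b, hb⟩⟩ := isSquare_of_coprime_mul hcop' ⟨A' + S, hABs⟩
    have hab : A' + S = a * b := by
      apply EL2_sq_inj h2X
      have h3 : (A' + S) ^ 2 = A' * B' := by rw [hABs]; ring
      rw [h3, ha, hb]
      ring
    have hSab : S = a ^ 2 + a * b := by
      linear_combination hab - ha - a ^ 2 * h2X
    have hpq₁ : IsCoprime p₁ q₁ := by
      rw [hp₁, hq₁] at hpq
      exact hpq.of_mul_left_left.of_mul_right_left
    have hab₁ : IsCoprime a b := by
      rw [ha, hb] at hcop'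
      exact hcop'.of_mul_left_left.of_mul_right_left
    have hq₁0 : q₁ ≠ 0 := by
      rintro rfl
      exact hq (by rw [hq₁, mul_zero])
    have hb0 : b ≠ 0 := by
      rintro rfl
      rw [mul_zero] at hb
      rw [hb] at hB2
      exact hpq0 (by rw [← hB2]; ring)
    have hnew : p₁ ^ 3 * q₁ ^ 3 * (a ^ 2 + a * b) = (p₁ ^ 6 + C γ * q₁ ^ 6) * b ^ 2 := by
      have e1 : p₁ ^ 6 + C γ * q₁ ^ 6 = S := by
        rw [hS, hp₁, hq₁]; ring
      have e2 : b ^ 2 = (p₁ * q₁) ^ 3 := by rw [← hBc, hb]; ring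
      rw [e1, e2, ← hSab]
      ring
    have dp : p.natDegree = 2 * p₁.natDegree := by
      rw [hp₁, ← sq, natDegree_pow]
    have dq : q.natDegree = 2 * q₁.natDegree := by
      rw [hq₁, ← sq, natDegree_pow]
    have hlt : max p₁.natDegree q₁.natDegree < m := by omega
    obtain ⟨r1, r2⟩ := ih _ hlt γ hγ0 p₁ q₁ a b hq₁0 hb0 hpq₁ hab₁ hnew rfl
    omega

/-- (EL2) Characteristic two. Write `x = p / q` with coprime `p, q`, strong induction on `max (natDegree p) (natDegree q)`, for all `c ≠ 0`. Let `γ ^ 2 = c`. As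
`p ^ 6 + c q ^ 6 = (p ^ 3 + γ q ^ 3) ^ 2`, `y ^ 2 + y = S ^ 2 / (p q) ^ 3`, `S = p ^ 3 + γ q ^ 3` coprime to `p q`. Write `y = A / B` with coprime `A, B`: `(A ^ 2 + A B) / B ^ 2` and `S ^ 2 / (p q) ^ 3` are both in lowest terms, so
(after multiplying `A, B` by a constant) `B ^ 2 = (p q) ^ 3` and `A ^ 2 + A B = S ^ 2`. So `p q` is a square, hence `p = p₁ ^ 2`, `q = q₁ ^ 2` (up to constants, which are squares; `isSquare_of_coprime_mul` in V/Ell.lean), `B = (p₁ q₁) ^ 3`. `(A + S) ^ 2 = A B`, so `A = a ^ 2`,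
`B = b ^ 2`, `A + S = a b`. Let `δ ^ 2 = γ`, `S = (p₁ ^ 3 + δ q₁ ^ 3) ^ 2`: `a ^ 2 + a b = S = p₁ ^ 6 + γ q₁ ^ 6` and `b ^ 2 = (p₁ q₁) ^ 3`. Hence `(a / b) ^ 2 + a / b = (p₁ ^ 6 + γ q₁ ^ 6) / (p₁ q₁) ^ 3`, i.e. `x₁ = p₁ / q₁`, `y₁ = a / b`, `c₁ = γ` satisfy the
same equation and the degrees are halved: by induction `x₁` is constant, hence so is `x = x₁ ^ 2`. -/
theorem ratFunc_no_param_even {k : Type u} [Field k] [IsAlgClosed k] (h2 : (2 : k) = 0) (c : k)
    (hc : c ≠ 0) (x y : RatFunc k) (h : x ^ 3 * (y ^ 2 + y) = x ^ 6 + RatFunc.C c) :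
    ∃ a : k, x = RatFunc.C a := by
  have hinj := IsFractionRing.injective k[X] (RatFunc k)
  have hq0 : x.denom ≠ 0 := x.denom_ne_zero
  have hB0 : y.denom ≠ 0 := y.denom_ne_zero
  have hqR : algebraMap k[X] (RatFunc k) x.denom ≠ 0 := by
    rw [Ne, map_eq_zero_iff _ hinj]
    exact hq0
  have hBR : algebraMap k[X] (RatFunc k) y.denom ≠ 0 := by
    rw [Ne, map_eq_zero_iff _ hinj]
    exact hB0
  have hx : x * algebraMap k[X] (RatFunc k) x.denom = algebraMap k[X] (RatFunc k) x.num := by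
    rw [← div_eq_iff_mul_eq hqR]
    exact RatFunc.num_div_denom x
  have hy : y * algebraMap k[X] (RatFunc k) y.denom = algebraMap k[X] (RatFunc k) y.num := by
    rw [← div_eq_iff_mul_eq hBR]
    exact RatFunc.num_div_denom y
  have heq : x.num ^ 3 * x.denom ^ 3 * (y.num ^ 2 + y.num * y.denom) =
      (x.num ^ 6 + C c * x.denom ^ 6) * y.denom ^ 2 := by
    apply hinj
    simp only [map_mul, map_add, map_pow, RatFunc.algebraMap_C]
    rw [← hx, ← hy]
    linear_combination (algebraMap k[X] (RatFunc k) x.denom) ^ 6 *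
      (algebraMap k[X] (RatFunc k) y.denom) ^ 2 * h
  obtain ⟨hp0, hq0'⟩ := EL2_descent h2 _ c hc x.num x.denom y.num y.denom hq0 hB0
    (RatFunc.isCoprime_num_denom x) (RatFunc.isCoprime_num_denom y) heq rfl
  refine ⟨x.num.coeff 0 / x.denom.coeff 0, ?_⟩
  have hxx : x = algebraMap k[X] (RatFunc k) x.num / algebraMap k[X] (RatFunc k) x.denom :=
    (RatFunc.num_div_denom x).symm
  rw [Polynomial.eq_C_of_natDegree_eq_zero hp0, Polynomial.eq_C_of_natDegree_eq_zero hq0',
    RatFunc.algebraMap_C, RatFunc.algebraMap_C] at hxx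
  rw [map_div₀]
  exact hxx
-- END EL2

theorem noParam_relOdd {K : Type u} [Field K] [IsAlgClosed K] {O : ValuationSubring K}
    (h2 : IsUnit (2 : O)) (c : O) (hc : IsUnit (1 - c)) : NoParam O (relOdd c) := by
  intro x y h
  rw [evalAt_relOdd, sub_eq_zero] at h
  have := residueField_isAlgClosed O
  refine ratFunc_no_param_c ?_ (IsLocalRing.residue O c) ?_ x y h
  · have h3 := h2.map (IsLocalRing.residue O)
    rw [map_ofNat] at h3
    exact h3.ne_zero
  · have h3 := (hc.map (IsLocalRing.residue O)).ne_zero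
    rw [map_sub, map_one] at h3
    intro h4
    exact h3 (by rw [h4, sub_self])

/-- The polynomial `x³ (y² + y) - (x⁶ + c)`. -/
def relEven {R : Type*} [CommRing R] (c : R) : R[X][X] :=
  C (X ^ 3) * (X ^ 2 + X) - C (X ^ 6 + C c)

theorem evalAt_relEven {R S : Type*} [CommRing R] [CommRing S] (φ : R →+* S) (c : R) (x y : S) :
    evalAt φ (relEven c) x y = x ^ 3 * (y ^ 2 + y) - (x ^ 6 + φ c) := by
  unfold evalAt relEven
  rw [eval₂_sub, eval₂_mul, eval₂_add, eval₂_pow, eval₂_X, eval₂_C, eval₂_C]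
  simp

theorem noParam_relEven {K : Type u} [Field K] [IsAlgClosed K] {O : ValuationSubring K}
    (h2 : ¬ IsUnit (2 : O)) (c : O) (hc : IsUnit c) : NoParam O (relEven c) := by
  intro x y h
  rw [evalAt_relEven, sub_eq_zero] at h
  have := residueField_isAlgClosed O
  refine ratFunc_no_param_even ?_ (IsLocalRing.residue O c) ?_ x y h
  · have h3 : IsLocalRing.residue O 2 = 0 := by
      rw [IsLocalRing.residue_eq_zero_iff, IsLocalRing.mem_maximalIdeal]
      exact h2
    rwa [map_ofNat] at h3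
  · exact (hc.map (IsLocalRing.residue O)).ne_zero

end Pool.Agent.Lib.MP_211349_ag
end
end

section

/-!
# The curves for residue characteristic two: smoothness in characteristic zero
-/

open CategoryTheory Limits AlgebraicGeometry Polynomial

universe u

noncomputable section

namespace Pool.Agent.Lib.MP_211349_ag

-- BEGIN EV1
private theorem EV1_jac0 {S : Type u} [CommRing S] (x z c d : S)
    (hr : z ^ 2 + x ^ 2 * z = x ^ 7 + c * x) (hd : 3 * c ^ 2 * (64 * c - 1) * d = 1) :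
    ∃ α β : S, α * (2 * z + x ^ 2) + β * (2 * x * z - (7 * x ^ 6 + c)) = 1 := by
  refine ⟨d * (192 * c ^ 2 * x - (56 * x ^ 3 + 1) *
      (x ^ 2 * (7 * x ^ 3 + 1) ^ 2 * (4 * x * x - (2 * z + x ^ 2)) -
        3 * x * ((7 * x ^ 6 + x ^ 3 + c) - 2 * c) * (8 * x ^ 3 + 1))),
    d * (-(192 * c ^ 2) - (56 * x ^ 3 + 1) *
      (-(x ^ 2 * (7 * x ^ 3 + 1) ^ 2 * (4 * x)) +
        3 * ((7 * x ^ 6 + x ^ 3 + c) - 2 * c) * (8 * x ^ 3 + 1))), ?_⟩
  linear_combination hd + d * (56 * x ^ 3 + 1) * x ^ 2 * (7 * x ^ 3 + 1) ^ 2 * 4 * hr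

private theorem EV1_jac1 {S : Type u} [CommRing S] (t w c d : S)
    (hr : w ^ 2 + t ^ 2 * w = t + c * t ^ 7) (hd : 3 * (64 * c - 1) * d = 1) :
    ∃ α β : S, α * (2 * w + t ^ 2) + β * (2 * t * w - (1 + c * 7 * t ^ 6)) = 1 := by
  refine ⟨d * (-(1 + 7 * c * (t ^ 3 - 8)) *
      ((3 * (1 - c * t ^ 6) + t ^ 3 + 7 * c * t ^ 6) * t -
        (t ^ 2 + 7 * c * t ^ 5) * (2 * w + t ^ 2)) - 3 * c * (t ^ 3 - 8) * t),
    d * ((1 + 7 * c * (t ^ 3 - 8)) * (3 * (1 - c * t ^ 6) + t ^ 3 + 7 * c * t ^ 6) +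
      3 * c * (t ^ 3 - 8)), ?_⟩
  linear_combination hd + d * (1 + 7 * c * (t ^ 3 - 8)) * (t ^ 2 + 7 * c * t ^ 5) * 4 * hr

/-- (EV1) The curve `z² + x² z = x⁷ + c x` is smooth in characteristic zero if `c ≠ 0`, `64 c ≠ 1`. As `curve_smooth'` in P2/Smooth.lean, with new versions of `jacobian_f0`, `jacobian_f1`
(P2/Alg.lean). First chart: `A = 2 z + x²`, `B = 2 x z - 7 x⁶ - c`. The ideal `(A, B)` contains `E = x A - B = 7 x⁶ + x³ + c` and (by the relation) `A² = x⁴ + 4 x⁷ + 4 c x`, hence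
`4 x E - A² = 3 x⁴ (8 x³ + 1)`; `x³ (7 x³ + 1) = E - c`, so (multiply by `x² (7 x³ + 1)²`) it contains `3 c² (8 x³ + 1)` modulo multiples of `E`; finally `64 E = 7 u² + 8 u + 64 c` with `u = 8 x³` is congruent to `64 c - 1` modulo `u + 1`:
`3 c² (64 c - 1)` is in `(A, B)`, a unit. Second chart `w² + t² w = t + c t⁷`: `A = 2 w + t²`, `B = 2 t w - 1 - 7 c t⁶`, `t A - B = t³ + 1 + 7 c t⁶`, `A² = t⁴ + 4 t + 4 c t⁷`, and similarly `3 (c t⁶ - 1)`, `t³ + 8`, `64 c - 1`. -/
theorem Even.curve_smooth_charZero (K : Type u) [Field K] [CharZero K] (c : K) (hc : c ≠ 0)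
    (hc1 : 64 * c ≠ 1) : Smooth (Even.toSpec K c) := by
  have hP : IsZariskiLocalAtSource @Smooth.{u} :=
    HasRingHomProperty.instIsZariskiLocalAtSource (P := @Smooth.{u})
  have hne0 : (3 : K) * c ^ 2 * (64 * c - 1) ≠ 0 :=
    mul_ne_zero (mul_ne_zero (by norm_num) (pow_ne_zero 2 hc)) (sub_ne_zero.mpr hc1)
  have hne1 : (3 : K) * (64 * c - 1) ≠ 0 := mul_ne_zero (by norm_num) (sub_ne_zero.mpr hc1)
  have j0 : ∃ α β : Even.A0 c, α * (2 * Even.DC.y (Even.f0 c) + Even.DC.x (Even.f0 c) ^ 2) +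
      β * (2 * Even.DC.x (Even.f0 c) * Even.DC.y (Even.f0 c) -
        AdjoinRoot.of _ (derivative (Even.f0 c))) = 1 := by
    have h1 : derivative (Even.f0 c) = C 7 * X ^ 6 + C c * X ^ 0 := by
      unfold Even.f0
      simp only [derivative_add, derivative_X_pow, derivative_C_mul, derivative_X, pow_zero]
      norm_num
    have h2 : AdjoinRoot.of (Even.rel (Even.f0 c)) (Even.f0 c) =
        Even.DC.x (Even.f0 c) ^ 7 + algebraMap K (Even.A0 c) c * Even.DC.x (Even.f0 c) := by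
      have h3 : Even.f0 c = C 1 * X ^ 7 + C c * X ^ 1 := by
        unfold Even.f0
        rw [C_1, one_mul, pow_one]
      conv_lhs => rw [show AdjoinRoot.of (Even.rel (Even.f0 c)) (Even.f0 c) =
        AdjoinRoot.of (Even.rel (Even.f0 c)) (C 1 * X ^ 7 + C c * X ^ 1) from congrArg _ h3]
      rw [map_add, Even.of_map, Even.of_map, map_one, one_mul, pow_one]
    have hr := Even.DC.y_sq (Even.f0 c)
    rw [h2] at hr
    have hd : 3 * (algebraMap K (Even.A0 c) c) ^ 2 * (64 * algebraMap K (Even.A0 c) c - 1) *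
        algebraMap K (Even.A0 c) ((3 * c ^ 2 * (64 * c - 1))⁻¹) = 1 := by
      have h4 := congrArg (algebraMap K (Even.A0 c)) (mul_inv_cancel₀ hne0)
      simp only [map_mul, map_sub, map_pow, map_ofNat, map_one] at h4
      exact h4
    obtain ⟨α, β, hαβ⟩ := EV1_jac0 _ _ _ _ hr hd
    refine ⟨α, β, ?_⟩
    rw [h1, map_add, Even.of_map, Even.of_map, pow_zero, mul_one, map_ofNat]
    exact hαβ
  have j1 : ∃ α β : Even.A1 c, α * (2 * Even.DC.y (Even.f1 c) + Even.DC.x (Even.f1 c) ^ 2) +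
      β * (2 * Even.DC.x (Even.f1 c) * Even.DC.y (Even.f1 c) -
        AdjoinRoot.of _ (derivative (Even.f1 c))) = 1 := by
    have h1 : derivative (Even.f1 c) = C 1 * X ^ 0 + C (c * 7) * X ^ 6 := by
      unfold Even.f1
      simp only [derivative_add, derivative_X_pow, derivative_C_mul, derivative_X, pow_zero, C_mul,
        C_1]
      norm_num
      ring
    have h2 : AdjoinRoot.of (Even.rel (Even.f1 c)) (Even.f1 c) =
        Even.DC.x (Even.f1 c) + algebraMap K (Even.A1 c) c * Even.DC.x (Even.f1 c) ^ 7 := by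
      have h3 : Even.f1 c = C 1 * X ^ 1 + C c * X ^ 7 := by
        unfold Even.f1
        rw [C_1, one_mul, pow_one]
      conv_lhs => rw [show AdjoinRoot.of (Even.rel (Even.f1 c)) (Even.f1 c) =
        AdjoinRoot.of (Even.rel (Even.f1 c)) (C 1 * X ^ 1 + C c * X ^ 7) from congrArg _ h3]
      rw [map_add, Even.of_map, Even.of_map, map_one, one_mul, pow_one]
    have hr := Even.DC.y_sq (Even.f1 c)
    rw [h2] at hr
    have hd : 3 * (64 * algebraMap K (Even.A1 c) c - 1) *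
        algebraMap K (Even.A1 c) ((3 * (64 * c - 1))⁻¹) = 1 := by
      have h4 := congrArg (algebraMap K (Even.A1 c)) (mul_inv_cancel₀ hne1)
      simp only [map_mul, map_sub, map_ofNat, map_one] at h4
      exact h4
    obtain ⟨α, β, hαβ⟩ := EV1_jac1 _ _ _ _ hr hd
    refine ⟨α, β, ?_⟩
    rw [h1, map_add, Even.of_map, Even.of_map, pow_zero, mul_one, map_one, map_mul, map_ofNat]
    exact hαβ
  rw [Even.curve_iff K c (P := @Smooth), Even.chart0_toSpec, Even.chart1_toSpec,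
    HasRingHomProperty.Spec_iff (P := @Smooth), HasRingHomProperty.Spec_iff (P := @Smooth)]
  exact ⟨RingHom.smooth_algebraMap.2 ⟨Even.formallySmooth_DC (Even.f0 c) j0,
      Even.finitePresentation_DC (Even.f0 c)⟩,
    RingHom.smooth_algebraMap.2 ⟨Even.formallySmooth_DC (Even.f1 c) j1,
      Even.finitePresentation_DC (Even.f1 c)⟩⟩
-- END EV1

-- BEGIN EV2
/-- (EV2) The valuation ring of a residually transcendental `x` with `y² + y = x³ + c x⁻³` has a solution of `relEven c`: `x` is a unit, `y ∈ w` (see `NR_first` in P2/Pair.lean), and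
`x³ (y² + y) - (x⁶ + c) = 0`. -/
theorem sol_even {K L : Type u} [Field K] [Field L] [Algebra K L] {O : ValuationSubring K}
    {w : ValuationSubring L} (hw : Over O w) (x y : L) (hx : ResTrans O w x) (c : O)
    (h : y ^ 2 + y = x ^ 3 + algebraMap K L c * (x⁻¹) ^ 3) : Sol O w (relEven c) := by
  have hxv := hx.1
  have hx0 : x ∉ w.nonunits := by
    have := hx.2 0 (zero_mem O)
    rwa [map_zero, sub_zero] at this
  have hxi : x⁻¹ ∈ w := by
    rw [← w.valuation_le_one_iff, map_inv₀]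
    rw [ValuationSubring.mem_nonunits_iff, not_lt] at hx0
    exact inv_le_one_of_one_le₀ hx0
  have hxne : x ≠ 0 := by
    rintro rfl
    exact hx0 (by rw [ValuationSubring.mem_nonunits_iff, map_zero]; exact zero_lt_one)
  have hcw : algebraMap K L c ∈ w := by
    have h1 : (c : K) ∈ w.comap (algebraMap K L) := by
      rw [show w.comap (algebraMap K L) = O from hw]
      exact c.2
    exact h1
  have hsum : y ^ 2 + y ∈ w := by
    rw [h]
    exact add_mem (pow_mem hxv 3) (mul_mem hcw (pow_mem hxi 3))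
  have hy : y ∈ w := by
    by_contra hcon
    have h1 : 1 < w.valuation y := by
      rw [← w.valuation_le_one_iff, not_le] at hcon
      exact hcon
    have h2 : w.valuation y < w.valuation (y ^ 2) := by
      rw [map_pow, pow_two]
      exact lt_mul_of_one_lt_left (zero_lt_one.trans h1) h1
    have h4 : w.valuation (y ^ 2 + y) = w.valuation (y ^ 2) :=
      by rw [add_comm]; exact Valuation.map_add_eq_of_lt_right _ h2
    have h5 : w.valuation (y ^ 2 + y) ≤ 1 := (w.valuation_le_one_iff _).mpr hsum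
    rw [h4] at h5
    exact absurd (h1.trans (h2.trans_le h5)) (lt_irrefl _)
  refine ⟨x, y, hx, hy, ?_⟩
  rw [evalAt_relEven]
  have h0 : x ^ 3 * (y ^ 2 + y) - (x ^ 6 + ((algebraMap K L).comp O.subtype) c) = 0 := by
    rw [h]
    have : ((algebraMap K L).comp O.subtype) c = algebraMap K L c := rfl
    rw [this]
    field_simp
    ring
  rw [h0, ValuationSubring.mem_nonunits_iff, map_zero]
  exact zero_lt_one
-- END EV2

end Pool.Agent.Lib.MP_211349_ag
end
end
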